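import Pool.Agent.Lib.MP_7e5527_ag.Arch0

open Polynomial UpperHalfPlane
open scoped Polynomial.Bivariate MatrixGroups IntermediateField

noncomputable section

namespace Pool.Agent.UAP

private def arch_h (τ : ℍ) : ℝ := ‖ModularForm.discriminant τ‖ * τ.im ^ 6

private theorem arch_h_pos (τ : ℍ) : 0 < arch_h τ :=
  mul_pos (norm_pos_iff.mpr (ModularForm.discriminant_ne_zero τ)) (pow_pos τ.im_pos _)

private theorem arch_h_sq (τ : ℍ) :
    arch_h τ ^ 2 = ‖petersson 12 CuspForm.discriminant CuspForm.discriminant τ‖ := by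
  rw [petersson, norm_mul, norm_mul, Complex.norm_conj, arch_h, norm_zpow, Complex.norm_real,
    Real.norm_of_nonneg τ.im_pos.le, CuspForm.coe_discriminant]
  norm_cast
  ring

private theorem arch_h_smul (γ : SL(2, ℤ)) (τ : ℍ) : arch_h (γ • τ) = arch_h τ := by
  have h := SlashInvariantFormClass.norm_petersson_smul (k := 12) (Γ := 𝒮ℒ)
    (f := CuspForm.discriminant) (f' := CuspForm.discriminant) (τ := τ)
    (g := Matrix.SpecialLinearGroup.mapGL ℝ γ) ⟨γ, rfl⟩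
  have h2 : arch_h (γ • τ) ^ 2 = arch_h τ ^ 2 := by
    rw [arch_h_sq, arch_h_sq, ← h]
    rfl
  exact (pow_left_inj₀ (arch_h_pos _).le (arch_h_pos _).le two_ne_zero).mp h2

private theorem arch_h_cont : Continuous arch_h := by
  have h1 : Continuous (ModularForm.discriminant : ℍ → ℂ) := by
    rw [← CuspForm.coe_discriminant]
    exact (ModularFormClass.holo CuspForm.discriminant).continuous
  exact h1.norm.mul (continuous_im.pow 6)

private theorem arch_h_le : ∃ C : ℝ, ∀ τ, arch_h τ ≤ C := by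
  obtain ⟨C, hC⟩ := CuspFormClass.petersson_bounded_left 12 𝒮ℒ CuspForm.discriminant
    CuspForm.discriminant
  refine ⟨1 + C, fun τ => ?_⟩
  have h1 := hC τ
  rw [← arch_h_sq] at h1
  nlinarith [arch_h_pos τ, sq_nonneg (arch_h τ - 1)]

private theorem arch_E4 : Filter.Tendsto (fun τ => ModularForm.E₄ τ) atImInfty (nhds 1) := by
  obtain ⟨c, hc, h⟩ := ModularFormClass.exp_decay_sub_atImInfty' (ModularForm.E₄)
  have h0 : valueAtInfty ModularForm.E₄ = 1 := by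
    rw [← qExpansion_coeff_zero one_pos
      (ModularFormClass.analyticAt_cuspFunction_zero ModularForm.E₄ one_pos
        one_mem_strictPeriods_SL)
      (SlashInvariantFormClass.periodic_comp_ofComplex ModularForm.E₄ one_mem_strictPeriods_SL),
      qExpansion_E4]
    simp [toS, E4s]
  rw [h0] at h
  have h2 : Filter.Tendsto (fun τ : ℍ => Real.exp (-c * τ.im)) atImInfty (nhds 0) := by
    refine Real.tendsto_exp_atBot.comp ?_
    exact Filter.Tendsto.const_mul_atTop_of_neg (by linarith) Filter.tendsto_comap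
  have h3 := h.trans_tendsto h2
  simpa using h3.add_const 1

private theorem arch_key : ∃ B : ℝ, 0 < B ∧ ∀ τ, (arch_h τ)⁻¹ ≤ B * max 1 ‖jf τ‖ := by
  have hm : ∀ τ, (0 : ℝ) < max 1 ‖jf τ‖ := fun τ => lt_max_of_lt_left one_pos
  obtain ⟨B, hB⟩ := ModularGroup.exists_bound_of_invariant (E := ℝ)
    (f := fun τ => (arch_h τ * max 1 ‖jf τ‖)⁻¹)
    ((arch_h_cont.mul (continuous_const.max continuous_jf.norm)).inv₀
      fun τ => (mul_pos (arch_h_pos τ) (hm τ)).ne')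
    (by
      have h1 : ∀ᶠ τ in atImInfty, (1 / 2 : ℝ) < ‖ModularForm.E₄ τ‖ :=
        (arch_E4.norm).eventually (lt_mem_nhds (by norm_num))
      have h2 : ∀ᶠ τ : ℍ in atImInfty, (1 : ℝ) ≤ τ.im :=
        Filter.tendsto_comap.eventually (Filter.eventually_ge_atTop 1)
      refine Asymptotics.IsBigO.of_bound 8 ?_
      filter_upwards [h1, h2] with τ h1 h2
      have hd := norm_pos_iff.mpr (ModularForm.discriminant_ne_zero τ)
      have h3 : (1 / 8 : ℝ) ≤ arch_h τ * max 1 ‖jf τ‖ := by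
        have h4 : arch_h τ * ‖jf τ‖ = ‖ModularForm.E₄ τ‖ ^ 3 * τ.im ^ 6 := by
          rw [arch_h, jf, norm_div, norm_pow]
          field_simp
        have h5 : (1 / 2 : ℝ) ^ 3 * 1 ^ 6 ≤ ‖ModularForm.E₄ τ‖ ^ 3 * τ.im ^ 6 := by gcongr
        have h6 : arch_h τ * ‖jf τ‖ ≤ arch_h τ * max 1 ‖jf τ‖ :=
          mul_le_mul_of_nonneg_left (le_max_right _ _) (arch_h_pos τ).le
        linarith
      rw [Real.norm_of_nonneg (inv_pos.mpr (mul_pos (arch_h_pos τ) (hm τ))).le]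
      simp only [Pi.one_apply, norm_one, mul_one]
      rw [inv_le_comm₀ (mul_pos (arch_h_pos τ) (hm τ)) (by norm_num)]
      linarith)
    (fun g τ => by simp only [arch_h_smul, jf_smul])
  refine ⟨max B 1, lt_max_of_lt_right one_pos, fun τ => ?_⟩
  have h1 := (le_abs_self _).trans (hB τ)
  have h2 : (arch_h τ)⁻¹ = (arch_h τ * max 1 ‖jf τ‖)⁻¹ * max 1 ‖jf τ‖ := by
    have := hm τ
    have := arch_h_pos τ
    field_simp
  rw [h2]
  exact mul_le_mul_of_nonneg_right (h1.trans (le_max_left _ _)) (hm τ).le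

private theorem arch_im_aff {g : ℕ × ℕ × ℕ} (ha : 0 < g.1) (hd : 0 < g.2.2) (τ : ℍ) :
    (aff g τ).im = (g.1 : ℝ) * τ.im / g.2.2 := by
  rw [← UpperHalfPlane.coe_im, coe_aff ha hd, ← Complex.ofReal_natCast g.2.2,
    Complex.div_ofReal_im]
  simp

theorem exists_phiC_le : ∃ C : ℝ, 1 ≤ C ∧ ∀ N : ℕ, 0 < N → ∀ g ∈ Tri N, ∀ τ : ℍ,
    ‖phiC g τ‖ ≤ C * (N : ℝ) ^ 6 * max 1 ‖jf τ‖ := by
  obtain ⟨C0, hC0⟩ := arch_h_le
  obtain ⟨B, hB0, hB⟩ := arch_key
  refine ⟨max 1 (C0 * B), le_max_left _ _, fun N hN g hg τ => ?_⟩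
  obtain ⟨hg1, hg2⟩ := (mem_Tri hN).mp hg
  have ha : 0 < g.1 := Nat.pos_of_ne_zero fun h => by rw [h] at hg1; omega
  have hd : 0 < g.2.2 := by omega
  have hD := norm_pos_iff.mpr (ModularForm.discriminant_ne_zero τ)
  have h1 : ‖phiC g τ‖ = (N : ℝ) ^ 6 * arch_h (aff g τ) * (arch_h τ)⁻¹ := by
    have ha' : (0 : ℝ) < g.1 := by exact_mod_cast ha
    have hd' : (0 : ℝ) < g.2.2 := by exact_mod_cast hd
    have := τ.im_pos
    rw [phiC, norm_div, norm_mul, norm_pow, Complex.norm_natCast, arch_h, arch_h,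
      arch_im_aff ha hd, ← hg1]
    push_cast
    field_simp
  have hm : (0 : ℝ) ≤ max 1 ‖jf τ‖ := le_max_of_le_left zero_le_one
  have hC0' : 0 ≤ C0 := (arch_h_pos τ).le.trans (hC0 τ)
  rw [h1]
  calc (N : ℝ) ^ 6 * arch_h (aff g τ) * (arch_h τ)⁻¹
      ≤ (N : ℝ) ^ 6 * C0 * (B * max 1 ‖jf τ‖) := by
        have := (arch_h_pos τ).le
        gcongr
        · exact hC0 _
        · exact hB _
    _ = C0 * B * (N : ℝ) ^ 6 * max 1 ‖jf τ‖ := by ring
    _ ≤ max 1 (C0 * B) * (N : ℝ) ^ 6 * max 1 ‖jf τ‖ := by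
        gcongr
        exact le_max_right _ _

theorem exists_small_bound : ∃ C : ℝ, 1 ≤ C ∧ ∀ x : ℂ, ‖x‖ ≤ 1 → ∃ τ : ℍ, jf τ = x ∧
    ∀ N : ℕ, 0 < N → ∀ g ∈ Tri N,
      ‖phiC g τ‖ ≤ C * (N : ℝ) ^ 24 ∧ ‖psiC g τ‖ ≤ C * (N : ℝ) ^ 24 := by
  obtain ⟨C0, hC1, hC0⟩ := exists_phiC_le
  obtain ⟨B, hB0, hB⟩ := arch_key
  obtain ⟨C1, hE⟩ := ModularFormClass.exists_bound (k := 4) (by norm_num) ModularForm.E₄
  obtain ⟨Y0, hY⟩ : ∃ Y0 : ℝ, ∀ τ : ℍ, Y0 ≤ τ.im → 1 < ‖jf τ‖ :=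
    (atImInfty_mem _).mp (tendsto_norm_jf.eventually (Filter.eventually_gt_atTop 1))
  refine ⟨max C0 ((|C1| * 16) ^ 3 * (B * Y0 ^ 6)), le_max_of_le_left hC1, fun x hx => ?_⟩
  obtain ⟨τ0, hτ0⟩ := jf_surjective x
  obtain ⟨γ, hγ⟩ := ModularGroup.exists_smul_mem_fd τ0
  have hj : jf (γ • τ0) = x := by rw [jf_smul, hτ0]
  refine ⟨γ • τ0, hj, fun N hN g hg => ?_⟩
  generalize γ • τ0 = τ at hγ hj
  have hN1 : (1 : ℝ) ≤ N := by exact_mod_cast hN
  have hm : max 1 ‖jf τ‖ = 1 := max_eq_left (hj ▸ hx)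
  constructor
  · refine (hC0 N hN g hg τ).trans ?_
    rw [hm, mul_one]
    gcongr
    · exact le_max_left _ _
    · norm_num
  · obtain ⟨hg1, hg2⟩ := (mem_Tri hN).mp hg
    have ha : 0 < g.1 := Nat.pos_of_ne_zero fun h => by rw [h] at hg1; omega
    have hd : 0 < g.2.2 := by omega
    have ha' : (1 : ℝ) ≤ g.1 := by exact_mod_cast ha
    have hd' : (0 : ℝ) < g.2.2 := by exact_mod_cast hd
    have haN : (g.1 : ℝ) ≤ N := by exact_mod_cast hg1 ▸ Nat.le_mul_of_pos_right _ hd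
    have hdN : (g.2.2 : ℝ) ≤ N := by exact_mod_cast hg1 ▸ Nat.le_mul_of_pos_left _ ha
    have him : 1 / 2 ≤ τ.im := by
      nlinarith [ModularGroup.three_le_four_mul_im_sq_of_mem_fd hγ, τ.im_pos]
    have hY' : τ.im ≤ Y0 := by
      by_contra h
      have := hY τ (not_le.mp h).le
      rw [hj] at this
      linarith
    have h1 : 1 / (aff g τ).im ≤ 2 * N := by
      rw [arch_im_aff ha hd, one_div_div, div_le_iff₀ (by positivity)]
      have : (1 : ℝ) * (1 / 2) ≤ g.1 * τ.im := by gcongr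
      nlinarith
    have h2 : ‖ModularForm.E₄ (aff g τ)‖ ≤ |C1| * 16 * (N : ℝ) ^ 4 := by
      refine (hE _).trans ?_
      have h3 : max 1 (1 / (aff g τ).im ^ (4 : ℤ)) ≤ 16 * (N : ℝ) ^ 4 := by
        refine max_le ?_ ?_
        · nlinarith [one_le_pow₀ (n := 4) hN1]
        · have := (aff g τ).im_pos
          calc 1 / (aff g τ).im ^ (4 : ℤ) = (1 / (aff g τ).im) ^ 4 := by
                rw [div_pow, one_pow]; norm_cast
            _ ≤ (2 * N) ^ 4 := by gcongr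
            _ = 16 * (N : ℝ) ^ 4 := by ring
      calc C1 * max 1 (1 / (aff g τ).im ^ (4 : ℤ))
          ≤ |C1| * max 1 (1 / (aff g τ).im ^ (4 : ℤ)) :=
            mul_le_mul_of_nonneg_right (le_abs_self _) (le_max_of_le_left zero_le_one)
        _ ≤ |C1| * (16 * (N : ℝ) ^ 4) := by gcongr
        _ = _ := by ring
    have hD := norm_pos_iff.mpr (ModularForm.discriminant_ne_zero τ)
    have h4 : ‖ModularForm.discriminant τ‖⁻¹ ≤ B * Y0 ^ 6 := by
      have h5 := hB τ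
      rw [hm, mul_one] at h5
      have := τ.im_pos
      calc ‖ModularForm.discriminant τ‖⁻¹ = (arch_h τ)⁻¹ * τ.im ^ 6 := by
            rw [arch_h]; field_simp
        _ ≤ B * Y0 ^ 6 := by gcongr
    rw [psiC, norm_div, norm_mul, norm_pow, norm_pow, Complex.norm_natCast, div_eq_mul_inv]
    have hBY : 0 ≤ B * Y0 ^ 6 := by positivity
    calc (g.1 : ℝ) ^ 12 * ‖ModularForm.E₄ (aff g τ)‖ ^ 3 * ‖ModularForm.discriminant τ‖⁻¹
        ≤ (N : ℝ) ^ 12 * (|C1| * 16 * (N : ℝ) ^ 4) ^ 3 * (B * Y0 ^ 6) := by gcongr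
      _ = (|C1| * 16) ^ 3 * (B * Y0 ^ 6) * (N : ℝ) ^ 24 := by ring
      _ ≤ _ := by
        gcongr
        exact le_max_right _ _

/-- Size of the modular polynomial on the unit torus. -/
theorem exists_modP_torus : ∃ C : ℕ, ∀ (p : ℕ) [Fact p.Prime] (N : ℕ), 0 < N →
    ∀ Φ, ModP p N Φ → ∀ x y : ℂ, ‖x‖ = 1 → ‖y‖ = 1 → ‖ev2 x y Φ‖ ≤ 2 ^ (C * N ^ 4) := by
  obtain ⟨C, hC1, hC⟩ := exists_small_bound
  obtain ⟨c, hc⟩ := pow_unbounded_of_one_lt (2 * C) (one_lt_two (α := ℝ))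
  refine ⟨c + 25, fun p _ N hN Φ hΦ x y hx hy => ?_⟩
  obtain ⟨τ, hτ, hb⟩ := hC x hx.le
  have h1 := hΦ.cx τ y
  rw [hτ] at h1
  rw [h1, norm_mul, Complex.norm_natCast, norm_prod]
  have hn := card_Prim_le hN
  set n := (Prim N).card with hn0
  have h2 : (n.factorial : ℝ) ≤ 2 ^ (N ^ 4) := by
    have h3 : n.factorial ≤ 2 ^ (N ^ 4) := by
      calc n.factorial ≤ n ^ n := Nat.factorial_le_pow n
        _ ≤ (2 ^ n) ^ n := Nat.pow_le_pow_left Nat.lt_two_pow_self.le _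
        _ = 2 ^ (n * n) := by rw [← pow_mul]
        _ ≤ 2 ^ (N ^ 4) := by
          refine Nat.pow_le_pow_right two_pos ?_
          calc n * n ≤ N ^ 2 * N ^ 2 := Nat.mul_le_mul hn hn
            _ = N ^ 4 := by ring
    exact_mod_cast h3
  have hN2 : (N : ℝ) ≤ 2 ^ N := by exact_mod_cast Nat.lt_two_pow_self.le
  have h4 : ∏ g ∈ Prim N, ‖ev1 y (-X) * phiC g τ + ev1 y 1 * psiC g τ + ev1 y 0‖ ≤
      ((2 : ℝ) ^ (c + 24 * N)) ^ n := by
    rw [← Finset.prod_const]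
    refine Finset.prod_le_prod (fun _ _ => norm_nonneg _) fun g hg => ?_
    obtain ⟨h5, h6⟩ := hb N hN g (Finset.mem_filter.mp hg).1
    have h7 : ev1 y (-X) = -y := by simp [ev1]
    rw [h7, map_one, map_zero, add_zero, one_mul]
    calc ‖-y * phiC g τ + psiC g τ‖ ≤ ‖-y * phiC g τ‖ + ‖psiC g τ‖ := norm_add_le _ _
      _ ≤ 2 * C * (N : ℝ) ^ 24 := by
        rw [norm_mul, norm_neg, hy, one_mul]; linarith
      _ ≤ 2 ^ c * (2 ^ N) ^ 24 := by gcongr
      _ = _ := by rw [← pow_mul, ← pow_add, mul_comm N]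
  calc _ ≤ (2 : ℝ) ^ (N ^ 4) * ((2 : ℝ) ^ (c + 24 * N)) ^ n := by
        gcongr
    _ = 2 ^ (N ^ 4 + (c + 24 * N) * n) := by rw [← pow_mul, ← pow_add]
    _ ≤ _ := by
      refine pow_le_pow_right₀ one_le_two ?_
      have h8 : N ≤ N ^ 2 := Nat.le_self_pow two_ne_zero N
      have h9 : 1 ≤ N ^ 2 := Nat.one_le_pow _ _ hN
      calc N ^ 4 + (c + 24 * N) * n ≤ N ^ 4 + (c * N ^ 2 + 24 * N ^ 2) * N ^ 2 := by
            gcongr
            exact Nat.le_mul_of_pos_right _ h9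
        _ = (c + 25) * N ^ 4 := by ring

end Pool.Agent.UAP
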