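import Pool.Agent.Lib.MP_7e5527_ag.Ser

open Polynomial UpperHalfPlane
open scoped Polynomial.Bivariate MatrixGroups IntermediateField

noncomputable section

namespace Pool.Agent.UAP

theorem mem_Tri {N : ℕ} (hN : 0 < N) {g : ℕ × ℕ × ℕ} :
    g ∈ Tri N ↔ g.1 * g.2.2 = N ∧ g.2.1 < g.2.2 := by
  simp only [Tri, Finset.mem_filter, Finset.mem_product, Finset.mem_range, and_iff_right_iff_imp]
  rintro ⟨h1, h2⟩
  have a : g.1 ≤ N := Nat.le_of_dvd hN ⟨_, h1.symm⟩
  have b : g.2.2 ≤ N := Nat.le_of_dvd hN (Dvd.intro_left _ h1)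
  omega

theorem mem_Prim {N : ℕ} (hN : 0 < N) {g : ℕ × ℕ × ℕ} :
    g ∈ Prim N ↔ g.1 * g.2.2 = N ∧ g.2.1 < g.2.2 ∧ Nat.gcd g.1 (Nat.gcd g.2.1 g.2.2) = 1 := by
  rw [Prim, Finset.mem_filter, mem_Tri hN, and_assoc]

theorem card_Prim_pos {N : ℕ} (hN : 0 < N) : 0 < (Prim N).card :=
  Finset.card_pos.2 ⟨(1, 0, N), (mem_Prim hN).2 ⟨one_mul N, hN, Nat.gcd_one_left _⟩⟩

theorem card_Prim_le {N : ℕ} (hN : 0 < N) : (Prim N).card ≤ N ^ 2 := by
  have h : (Prim N).card ≤ (Finset.range N ×ˢ Finset.Icc 1 N).card := by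
    refine Finset.card_le_card_of_injOn Prod.snd (fun g hg => ?_) fun g hg g' hg' e => ?_
    · obtain ⟨h1, h2, -⟩ := (mem_Prim hN).1 hg
      have b : g.2.2 ≤ N := Nat.le_of_dvd hN (Dvd.intro_left _ h1)
      simp only [Finset.coe_product, Set.mem_prod, Finset.coe_range, Set.mem_Iio, Finset.coe_Icc,
        Set.mem_Icc]
      omega
    · obtain ⟨h1, h2, -⟩ := (mem_Prim hN).1 hg
      obtain ⟨h3, -, -⟩ := (mem_Prim hN).1 hg'
      refine Prod.ext (Nat.eq_of_mul_eq_mul_right (m := g.2.2) (by omega) ?_) e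
      rw [h1, e, h3]
  rwa [Finset.card_product, Finset.card_range, Nat.card_Icc, Nat.add_sub_cancel, ← sq] at h

theorem coe_aff {g : ℕ × ℕ × ℕ} (ha : 0 < g.1) (hd : 0 < g.2.2) (τ : ℍ) :
    (aff g τ : ℂ) = ((g.1 : ℂ) * τ + g.2.1) / g.2.2 := by
  have h : 0 < (((g.1 : ℂ) * τ + g.2.1) / g.2.2).im := by
    rw [Complex.div_natCast_im]
    have := τ.im_pos
    simp only [Complex.add_im, Complex.mul_im, Complex.natCast_re, Complex.natCast_im, zero_mul,
      add_zero, coe_im]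
    positivity
  rw [aff, ofComplex_apply_of_im_pos h]

theorem jf_smul (γ : SL(2, ℤ)) (τ : ℍ) : jf (γ • τ) = jf τ := by
  have hγ : (γ : GL (Fin 2) ℝ) ∈ 𝒮ℒ := ⟨γ, rfl⟩
  have h1 : ModularForm.E₄ (γ • τ) = _ :=
    SlashInvariantForm.slash_action_eqn'' ModularForm.E₄ hγ τ
  have h2 : ModularForm.discriminant (γ • τ) = _ * ModularForm.discriminant τ :=
    SlashInvariantForm.slash_action_eqn'' CuspForm.discriminant hγ τ
  have h3 := denom_ne_zero (γ : GL (Fin 2) ℝ) τ
  rw [jf, jf, h1, h2, mul_pow, ← zpow_natCast, ← zpow_mul]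
  exact mul_div_mul_left _ _ (zpow_ne_zero _ h3)

theorem arch0_mdiff : MDifferentiable (modelWithCornersSelf ℂ ℂ) (modelWithCornersSelf ℂ ℂ) jf :=
  (ModularForm.E₄.holo'.pow 3).div CuspForm.discriminant.holo' ModularForm.discriminant_ne_zero

theorem continuous_jf : Continuous jf := arch0_mdiff.continuous

theorem arch0_tendsto_E4 : Filter.Tendsto ModularForm.E₄ atImInfty (nhds 1) := by
  have hanal := ModularFormClass.analyticAt_cuspFunction_zero ModularForm.E₄ one_pos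
    one_mem_strictPeriods_SL
  have hper := SlashInvariantFormClass.periodic_comp_ofComplex ModularForm.E₄
    one_mem_strictPeriods_SL
  have h0 : cuspFunction 1 ModularForm.E₄ 0 = 1 := by
    rw [cuspFunction_apply_zero one_pos hanal hper, ← qExpansion_coeff_zero one_pos hanal hper]
    exact EisensteinSeries.E_qExpansion_coeff_zero _ ⟨2, rfl⟩
  rw [← h0]
  exact (hanal.continuousAt.tendsto.comp (qParam_tendsto_atImInfty one_pos)).congr fun τ =>
    SlashInvariantFormClass.eq_cuspFunction ModularForm.E₄ τ one_mem_strictPeriods_SL one_ne_zero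

theorem arch0_tendsto : Filter.Tendsto (fun τ => ‖jf τ‖) atImInfty Filter.atTop := by
  have h1 : Filter.Tendsto (fun τ => ‖ModularForm.E₄ τ ^ 3‖) atImInfty (nhds 1) := by
    simpa using (arch0_tendsto_E4.pow 3).norm
  have h2 : Filter.Tendsto (fun τ => ‖ModularForm.discriminant τ‖⁻¹) atImInfty Filter.atTop := by
    refine Filter.Tendsto.inv_tendsto_nhdsGT_zero (tendsto_nhdsWithin_iff.2 ⟨?_, ?_⟩)
    · simpa using Filter.Tendsto.norm ModularForm.discriminant_isZeroAtImInfty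
    · exact .of_forall fun τ => norm_pos_iff.2 (ModularForm.discriminant_ne_zero τ)
  refine (h1.pos_mul_atTop one_pos h2).congr fun τ => ?_
  rw [jf, norm_div, div_eq_mul_inv]

theorem jf_surjective : Function.Surjective jf := by
  intro c
  by_contra hc
  have hne : ∀ τ, jf τ - c ≠ 0 := fun τ h => hc ⟨τ, sub_eq_zero.1 h⟩
  have hs : ∀ γ : SL(2, ℤ), SlashAction.map (0 : ℤ) γ (fun τ : ℍ => (jf τ - c)⁻¹) =
      fun τ => (jf τ - c)⁻¹ := fun γ => by
    funext τ
    rw [ModularForm.SL_slash_apply, jf_smul]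
    simp
  have ht : Filter.Tendsto (fun τ : ℍ => (jf τ - c)⁻¹) atImInfty (nhds 0) := by
    refine Filter.tendsto_inv₀_cobounded.comp (tendsto_norm_atTop_iff_cobounded.1 ?_)
    exact Filter.tendsto_atTop_mono (fun τ => norm_sub_norm_le _ _)
      (Filter.tendsto_atTop_add_const_right _ (-‖c‖) arch0_tendsto)
  let f : ModularForm 𝒮ℒ 0 :=
    { toFun τ := (jf τ - c)⁻¹
      slash_action_eq' := fun _ ⟨γ, hγ⟩ => hγ ▸ hs γ
      holo' := (arch0_mdiff.sub mdifferentiable_const).inv hne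
      bdd_at_cusps' := fun {x} hx => by
        rw [Subgroup.IsArithmetic.isCusp_iff_isCusp_SL2Z] at hx
        rw [OnePoint.isBoundedAt_iff_forall_SL2Z hx]
        intro γ _
        rw [hs γ]
        exact ht.isBigO_one ℝ }
  obtain ⟨e, he⟩ := ModularFormClass.levelOne_weight_zero_const f
  have he' : (fun τ : ℍ => (jf τ - c)⁻¹) = fun _ => e := he
  rw [he'] at ht
  have e0 : e = 0 := tendsto_nhds_unique tendsto_const_nhds ht
  exact hne UpperHalfPlane.I (inv_eq_zero.1 ((congrFun he' _).trans e0))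

theorem tendsto_norm_jf : Filter.Tendsto (fun τ => ‖jf τ‖) atImInfty Filter.atTop :=
  arch0_tendsto

theorem phiC_ne_zero {g : ℕ × ℕ × ℕ} (ha : 0 < g.1) (τ : ℍ) : phiC g τ ≠ 0 :=
  div_ne_zero (mul_ne_zero (pow_ne_zero _ (Nat.cast_ne_zero.2 ha.ne'))
    (ModularForm.discriminant_ne_zero _)) (ModularForm.discriminant_ne_zero _)

theorem psiC_eq (g : ℕ × ℕ × ℕ) (τ : ℍ) : psiC g τ = phiC g τ * jf (aff g τ) := by
  have h := ModularForm.discriminant_ne_zero (aff g τ)
  rw [psiC, phiC, jf]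
  field_simp

end Pool.Agent.UAP
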