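import Pool.Agent.Lib.MP_7e5527_ag.Base

open Polynomial UpperHalfPlane
open scoped Polynomial.Bivariate

noncomputable section

namespace Pool.Agent.UAP

section ring

variable {A B : Type*} [CommRing A] [CommRing B]

private theorem gen_sw_add (F G : ℤ[X][Y]) : sw (F + G) = sw F + sw G := map_add _ _ _

private theorem gen_sw_mul (F G : ℤ[X][Y]) : sw (F * G) = sw F * sw G := map_mul _ _ _

private theorem gen_sw_neg (F : ℤ[X][Y]) : sw (-F) = -sw F := map_neg _ _

private theorem gen_sw_mm (n m : ℕ) (r : ℤ) :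
    sw (monomial n (monomial m r)) = monomial m (monomial n r) :=
  Polynomial.Bivariate.swap_monomial_monomial n m r

private theorem gen_ind {P : ℤ[X][Y] → Prop} (F : ℤ[X][Y])
    (ha : ∀ F G, P F → P G → P (F + G)) (hm : ∀ n m r, P (monomial n (monomial m r))) : P F := by
  induction F using Polynomial.induction_on' with
  | add p q hp hq => exact ha _ _ hp hq
  | monomial n a =>
    induction a using Polynomial.induction_on' with
    | add p q hp hq => rw [map_add]; exact ha _ _ hp hq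
    | monomial m r => exact hm n m r

private theorem gen_ev2_mm (x y : A) (n m : ℕ) (r : ℤ) :
    ev2 x y (monomial n (monomial m r)) = (r : A) * x ^ m * y ^ n := by
  simp [ev2, ev1]

theorem sw_sw (F : ℤ[X][Y]) : sw (sw F) = F := by
  exact Polynomial.Bivariate.swap_swap_apply F

theorem ev2_sw (x y : A) (F : ℤ[X][Y]) : ev2 x y (sw F) = ev2 y x F := by
  refine gen_ind (P := fun F => ev2 x y (sw F) = ev2 y x F) F ?_ ?_
  · intro F G hF hG
    rw [gen_sw_add, map_add, map_add, hF, hG]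
  · intro n m r
    rw [gen_sw_mm, gen_ev2_mm, gen_ev2_mm]; ring

theorem ev2_C (x y : A) (P : ℤ[X]) : ev2 x y (C P) = ev1 x P := by
  simp [ev2]

theorem ev2_Y (x y : A) : ev2 x y (Y : ℤ[X][Y]) = y := by
  simp [ev2]

theorem ev2_CX (x y : A) : ev2 x y (C X : ℤ[X][Y]) = x := by
  simp [ev2, ev1]

theorem map_ev1 (φ : A →+* B) (x : A) (P : ℤ[X]) : φ (ev1 x P) = ev1 (φ x) P := by
  induction P using Polynomial.induction_on' with
  | add p q hp hq => rw [map_add, map_add, map_add, hp, hq]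
  | monomial n a => simp [ev1]

theorem map_ev2 (φ : A →+* B) (x y : A) (F : ℤ[X][Y]) :
    φ (ev2 x y F) = ev2 (φ x) (φ y) F := by
  refine gen_ind (P := fun F => φ (ev2 x y F) = ev2 (φ x) (φ y) F) F ?_ ?_
  · intro F G hF hG
    rw [map_add, map_add, map_add, hF, hG]
  · intro n m r
    rw [gen_ev2_mm, gen_ev2_mm]; simp

theorem eval_fib (F : ℤ[X][Y]) (x y : A) : (fib F x).eval y = ev2 x y F := by
  simp [fib, ev2, eval_map]

theorem coeff_sw (F : ℤ[X][Y]) (i k : ℕ) : ((sw F).coeff i).coeff k = (F.coeff k).coeff i := by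
  refine gen_ind (P := fun F => ((sw F).coeff i).coeff k = (F.coeff k).coeff i) F ?_ ?_
  · intro F G hF hG
    rw [gen_sw_add, coeff_add, coeff_add, coeff_add, coeff_add, hF, hG]
  · intro n m r
    rw [gen_sw_mm]
    simp only [coeff_monomial]
    by_cases h1 : m = i <;> by_cases h2 : n = k <;> simp [h1, h2, coeff_monomial]

theorem natDegree_coeff_le (F : ℤ[X][Y]) (k : ℕ) : (F.coeff k).natDegree ≤ (sw F).natDegree := by
  rw [natDegree_le_iff_coeff_eq_zero]
  intro N hN
  rw [← coeff_sw, coeff_eq_zero_of_natDegree_lt hN, coeff_zero]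

private theorem gen_ev1_eq_sum (x : A) {P : ℤ[X]} {d : ℕ} (hd : P.natDegree ≤ d) :
    ev1 x P = ∑ i ∈ Finset.range (d + 1), ((P.coeff i : ℤ) : A) * x ^ i := by
  simp only [ev1, coe_eval₂RingHom]
  rw [eval₂_eq_sum_range' _ (Nat.lt_succ_of_le hd)]
  simp

/-- The double sum formula. -/
theorem ev2_eq_sum (F : ℤ[X][Y]) (x y : A) :
    ev2 x y F = ∑ k ∈ Finset.range (F.natDegree + 1), ∑ i ∈ Finset.range ((sw F).natDegree + 1),
      (((F.coeff k).coeff i : ℤ) : A) * x ^ i * y ^ k := by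
  have h1 : ev2 x y F = ∑ k ∈ Finset.range (F.natDegree + 1), ev1 x (F.coeff k) * y ^ k := by
    simp only [ev2, coe_eval₂RingHom]
    rw [eval₂_eq_sum_range]
  rw [h1]
  refine Finset.sum_congr rfl fun k _ => ?_
  rw [gen_ev1_eq_sum x (natDegree_coeff_le F k), Finset.sum_mul]

theorem dX_add (F G : ℤ[X][Y]) : dX (F + G) = dX F + dX G := by
  simp only [dX, gen_sw_add, derivative_add]

theorem dX_neg (F : ℤ[X][Y]) : dX (-F) = -dX F := by
  simp only [dX, gen_sw_neg, derivative_neg]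

theorem dX_mul (F G : ℤ[X][Y]) : dX (F * G) = dX F * G + F * dX G := by
  simp only [dX, gen_sw_add, gen_sw_mul, derivative_mul, sw_sw]

theorem dX_C (P : ℤ[X]) : dX (C P) = C (derivative P) := by
  ext k i
  simp only [dX, coeff_sw, coeff_derivative, coeff_C]
  have : ((i : ℤ[X]) + 1) = C ((i : ℤ) + 1) := by simp
  rw [this, coeff_mul_C, coeff_sw, coeff_C]
  split_ifs <;> simp [coeff_derivative]

theorem dX_Y : dX (Y : ℤ[X][Y]) = 0 := by
  have : sw (Y : ℤ[X][Y]) = C X := Polynomial.Bivariate.swap_Y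
  rw [dX, this, derivative_C]
  exact map_zero _

theorem dX_derivative (F : ℤ[X][Y]) : dX (derivative F) = derivative (dX F) := by
  have e (i : ℕ) : ((i : ℤ[X]) + 1) = C ((i : ℤ) + 1) := by simp
  ext k i
  simp only [dX, coeff_sw, coeff_derivative, e, coeff_mul_C]
  ring

theorem map_hom1 (φ : A →+* B) (P : ℤ[X]) (d : ℕ) (a b : A) :
    φ (hom1 P d a b) = hom1 P d (φ a) (φ b) := by
  simp [hom1]

theorem map_hom2 (φ : A →+* B) (F : ℤ[X][Y]) (a b c e : A) :
    φ (hom2 F a b c e) = hom2 F (φ a) (φ b) (φ c) (φ e) := by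
  simp [hom2, map_hom1]

theorem hom2_mul_right (F : ℤ[X][Y]) (a b c e s : A) :
    hom2 F a b (c * s) (e * s) = hom2 F a b c e * s ^ F.natDegree := by
  simp only [hom2, Finset.sum_mul]
  refine Finset.sum_congr rfl fun k hk => ?_
  have hk' : k ≤ F.natDegree := Nat.lt_succ_iff.1 (Finset.mem_range.1 hk)
  obtain ⟨j, hj⟩ := Nat.exists_eq_add_of_le hk'
  rw [hj, Nat.add_sub_cancel_left]
  ring

end ring

private theorem gen_toQ_sw (F : ℤ[X][Y]) : toQ (sw F) = Polynomial.Bivariate.swap (toQ F) := by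
  refine gen_ind (P := fun F => toQ (sw F) = Polynomial.Bivariate.swap (toQ F)) F ?_ ?_
  · intro F G hF hG
    rw [gen_sw_add, map_add, map_add, map_add, hF, hG]
  · intro n m r
    rw [gen_sw_mm]
    simp [toQ, Polynomial.Bivariate.swap_monomial_monomial]

private theorem gen_inj1 : Function.Injective (mapRingHom (Int.castRingHom ℚ)) :=
  Polynomial.map_injective _ (RingHom.injective_int _)

private theorem gen_toQ_inj : Function.Injective toQ :=
  Polynomial.map_injective _ gen_inj1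

private theorem gen_natDegree_toQ (F : ℤ[X][Y]) : (toQ F).natDegree = F.natDegree :=
  natDegree_map_eq_of_injective gen_inj1 F

theorem Good.swap {F : ℤ[X][Y]} (hF : Good F) : Good (sw F) := by
  refine ⟨?_, hF.degX, by rw [sw_sw]; exact hF.degY⟩
  rw [gen_toQ_sw]
  exact (MulEquiv.irreducible_iff (Polynomial.Bivariate.swap (R := ℚ)).toMulEquiv).2 hF.irr

theorem Good.ne_zero {F : ℤ[X][Y]} (hF : Good F) : F ≠ 0 := by
  rintro rfl
  simpa using hF.degY

section field

variable {E : Type*} [Field E]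

theorem hom1_eq (P : ℤ[X]) {d : ℕ} (hd : P.natDegree ≤ d) (a : E) {b : E} (hb : b ≠ 0) :
    hom1 P d a b = b ^ d * ev1 (a / b) P := by
  rw [gen_ev1_eq_sum _ hd, hom1, Finset.mul_sum]
  refine Finset.sum_congr rfl fun k hk => ?_
  have hk' : k ≤ d := Nat.lt_succ_iff.1 (Finset.mem_range.1 hk)
  obtain ⟨j, hj⟩ := Nat.exists_eq_add_of_le hk'
  rw [hj, Nat.add_sub_cancel_left, div_pow]
  field_simp
  ring

theorem hom2_eq (F : ℤ[X][Y]) (a : E) {b : E} (hb : b ≠ 0) (c : E) {e : E} (he : e ≠ 0) :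
    hom2 F a b c e = b ^ (sw F).natDegree * e ^ F.natDegree * ev2 (a / b) (c / e) F := by
  have h1 : ev2 (a / b) (c / e) F =
      ∑ k ∈ Finset.range (F.natDegree + 1), ev1 (a / b) (F.coeff k) * (c / e) ^ k := by
    simp only [ev2, coe_eval₂RingHom]
    rw [eval₂_eq_sum_range]
  rw [h1, hom2, Finset.mul_sum]
  refine Finset.sum_congr rfl fun k hk => ?_
  have hk' : k ≤ F.natDegree := Nat.lt_succ_iff.1 (Finset.mem_range.1 hk)
  obtain ⟨j, hj⟩ := Nat.exists_eq_add_of_le hk'
  rw [hom1_eq _ (natDegree_coeff_le F k) a hb, hj, Nat.add_sub_cancel_left, div_pow]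
  field_simp
  ring

variable [CharZero E]

theorem hom1_ne_zero {P : ℤ[X]} (hP : P ≠ 0) {d : ℕ} (hd : P.natDegree ≤ d)
    {a b : PowerSeries E} (ha : PowerSeries.constantCoeff a ≠ 0) (hb : b ≠ 0)
    (hb0 : PowerSeries.constantCoeff b = 0) : hom1 P d a b ≠ 0 := by
  intro h
  set n := P.natDegree with hn
  obtain ⟨j, hj⟩ := Nat.exists_eq_add_of_le hd
  have h1 : hom1 P d a b = hom1 P n a b * b ^ j := by
    rw [hom1, hom1, Finset.sum_mul]
    symm
    have hs : Finset.range (n + 1) ⊆ Finset.range (d + 1) :=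
      Finset.range_subset_range.2 (by omega)
    rw [← Finset.sum_subset hs]
    · refine Finset.sum_congr rfl fun k hk => ?_
      have hk' : k ≤ n := Nat.lt_succ_iff.1 (Finset.mem_range.1 hk)
      rw [show d - k = n - k + j by omega]
      ring
    · intro k _ hk
      have : n < k := by simpa using hk
      rw [coeff_eq_zero_of_natDegree_lt this]
      simp
  rw [h1] at h
  have h2 : hom1 P n a b = 0 := (mul_eq_zero.1 h).resolve_right (pow_ne_zero _ hb)
  have h3 := congrArg (PowerSeries.constantCoeff (R := E)) h2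
  rw [map_hom1, hb0, map_zero, hom1, Finset.sum_range_succ, Finset.sum_eq_zero] at h3
  · have h4 : P.coeff n ≠ 0 := by
      rw [hn]; exact mt leadingCoeff_eq_zero.1 hP
    simp [ha, h4] at h3
  · intro k hk
    have : n - k ≠ 0 := by have := Finset.mem_range.1 hk; omega
    simp [this]

private theorem gen_aeval (x : E) (P : ℤ[X]) :
    aeval x (mapRingHom (Int.castRingHom ℚ) P) = ev1 x P := by
  induction P using Polynomial.induction_on' with
  | add p q hp hq => rw [map_add, map_add, map_add, hp, hq]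
  | monomial n a => simp [ev1]

private theorem gen_aevalAeval (x y : E) (F : ℤ[X][Y]) :
    aevalAeval x y (toQ F) = ev2 x y F := by
  refine gen_ind (P := fun F => aevalAeval x y (toQ F) = ev2 x y F) F ?_ ?_
  · intro F G hF hG
    rw [map_add, map_add, map_add, hF, hG]
  · intro n m r
    rw [gen_ev2_mm]
    simp [toQ]

theorem Good.fib_ne_zero {F : ℤ[X][Y]} (hF : Good F) (x : E) : fib F x ≠ 0 := by
  intro h
  have hc : ∀ k, aeval x ((toQ F).coeff k) = 0 := by
    intro k
    have := congrArg (fun P => coeff P k) h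
    simp only [fib, coeff_map, coeff_zero] at this
    rw [toQ, coe_mapRingHom, coeff_map, gen_aeval]
    exact this
  have h0 : toQ F ≠ 0 := hF.irr.ne_zero
  have hint : IsIntegral ℚ x := by
    refine IsAlgebraic.isIntegral ⟨(toQ F).leadingCoeff, mt leadingCoeff_eq_zero.1 h0, hc _⟩
  have hprim : (toQ F).IsPrimitive :=
    hF.irr.isPrimitive (by rw [gen_natDegree_toQ]; exact hF.degY.ne')
  have hu : IsUnit (minpoly ℚ x) :=
    hprim _ ((C_dvd_iff_dvd_coeff _ _).2 fun k => minpoly.dvd ℚ x (hc k))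
  exact (minpoly.irreducible hint).not_isUnit hu

theorem Good.encard_fibre {F : ℤ[X][Y]} (hF : Good F) (x : E) :
    {y : E | ev2 x y F = 0}.encard ≤ F.natDegree := by
  classical
  have h0 := hF.fib_ne_zero x
  have h1 : {y : E | ev2 x y F = 0} = ((fib F x).roots.toFinset : Set E) := by
    ext y
    simp [h0, eval_fib]
  rw [h1, Set.encard_coe_eq_coe_finsetCard]
  exact_mod_cast ((Multiset.toFinset_card_le _).trans (card_roots' _)).trans natDegree_map_le

theorem ev2_eq_zero_of_dvd {F Q : ℤ[X][Y]} (h : toQ F ∣ toQ Q) {x y : E} (hF : ev2 x y F = 0) :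
    ev2 x y Q = 0 := by
  obtain ⟨G, hG⟩ := h
  rw [← gen_aevalAeval, hG, map_mul, gen_aevalAeval, hF, zero_mul]

private theorem gen_res0 {F Q : ℤ[X][Y]} (hF : Good F) (hn : ¬ toQ F ∣ toQ Q) :
    F.resultant Q ≠ 0 := by
  intro h
  let K := FractionRing ℚ[X]
  let ψ : ℤ[X] →+* K := (algebraMap ℚ[X] K).comp (mapRingHom (Int.castRingHom ℚ))
  have hψ : Function.Injective ψ := (IsFractionRing.injective ℚ[X] K).comp gen_inj1
  have hm : ∀ G : ℤ[X][Y], G.map ψ = (toQ G).map (algebraMap ℚ[X] K) := fun G => by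
    rw [toQ, coe_mapRingHom, Polynomial.map_map]
  have hprim : (toQ F).IsPrimitive :=
    hF.irr.isPrimitive (by rw [gen_natDegree_toQ]; exact hF.degY.ne')
  have hirr : Irreducible (F.map ψ) := by
    rw [hm]; exact (hprim.irreducible_iff_irreducible_map_fraction_map (K := K)).1 hF.irr
  have hnd : ¬ F.map ψ ∣ Q.map ψ := by
    rw [hm, hm]
    exact fun hd => hn (hprim.dvd_of_fraction_map_dvd_fraction_map hd)
  have hcop : IsCoprime (F.map ψ) (Q.map ψ) := hirr.coprime_iff_not_dvd.2 hnd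
  have h1 : (F.map ψ).resultant (Q.map ψ) = 0 := by
    rw [natDegree_map_eq_of_injective hψ, natDegree_map_eq_of_injective hψ, resultant_map_map, h,
      map_zero]
  exact (resultant_eq_zero_iff.1 h1).2 hcop

omit [CharZero E] in
private theorem gen_res {F Q : ℤ[X][Y]} (hF : Good F) (hn : ¬ toQ F ∣ toQ Q) :
    ∃ r : ℤ[X], r ≠ 0 ∧ ∀ x y : E, ev2 x y F = 0 → ev2 x y Q = 0 → ev1 x r = 0 := by
  refine ⟨F.resultant Q, gen_res0 hF hn, fun x y h1 h2 => ?_⟩
  obtain ⟨u, v, -, -, huv⟩ := exists_mul_add_mul_eq_C_resultant F Q le_rfl le_rfl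
    (Or.inl hF.degY.ne')
  rw [← ev2_C x y, ← huv, map_add, map_mul, map_mul, h1, h2, zero_mul, zero_mul, add_zero]

theorem Good.dvd_of_infinite {F : ℤ[X][Y]} (hF : Good F) (Q : ℤ[X][Y])
    (h : {P : E × E | ev2 P.1 P.2 F = 0 ∧ ev2 P.1 P.2 Q = 0}.Infinite) : toQ F ∣ toQ Q := by
  by_contra hn
  obtain ⟨r, hr, hz⟩ := gen_res (E := E) hF hn
  apply h
  have hr' : r.map (Int.castRingHom E) ≠ 0 :=
    (Polynomial.map_ne_zero_iff (RingHom.injective_int _)).2 hr
  have hfin : {x : E | ev1 x r = 0}.Finite := by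
    refine (Set.Finite.subset (r.map (Int.castRingHom E)).roots.finite_toSet ?_)
    intro x hx
    simpa [hr', ev1, eval_map] using hx
  have hfib : ∀ x : E, {y : E | ev2 x y F = 0}.Finite := fun x =>
    Set.finite_of_encard_le_coe (hF.encard_fibre x)
  refine (hfin.biUnion fun x _ => (hfib x).image fun y => (x, y)).subset ?_
  rintro ⟨x, y⟩ ⟨h1, h2⟩
  simp only [Set.mem_iUnion, Set.mem_image, Set.mem_ofPred_eq]
  exact ⟨x, hz x y h1 h2, y, h1, rfl⟩

theorem Good.dvd_of_tr {F : ℤ[X][Y]} (hF : Good F) (Q : ℤ[X][Y]) {x y : E} (hx : Tr x)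
    (h1 : ev2 x y F = 0) (h2 : ev2 x y Q = 0) : toQ F ∣ toQ Q := by
  by_contra hn
  obtain ⟨r, hr, hz⟩ := gen_res (E := E) hF hn
  exact hr (hx r (hz x y h1 h2))

end field

theorem Good.not_dvd_pA {F : ℤ[X][Y]} (hF : Good F) : ¬ toQ F ∣ toQ (pA F) := by
  intro h
  have h0 : pA F ≠ 0 := by
    intro h0
    exact hF.degY.ne' (derivative_eq_zero.1 h0)
  have h1 : toQ (pA F) ≠ 0 := fun h1 => h0 (gen_toQ_inj (h1.trans (map_zero _).symm))
  have h2 := natDegree_le_of_dvd h h1
  rw [gen_natDegree_toQ, gen_natDegree_toQ] at h2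
  exact absurd (natDegree_derivative_lt hF.degY.ne') (not_lt.2 h2)

theorem Good.not_dvd_pB {F : ℤ[X][Y]} (hF : Good F) : ¬ toQ F ∣ toQ (pB F) := by
  intro h
  apply hF.swap.not_dvd_pA
  rw [pB, map_neg] at h
  have h' : toQ F ∣ toQ (dX F) := by
    obtain ⟨G, hG⟩ := h
    exact ⟨-G, by linear_combination -hG⟩
  have h1 := map_dvd (Polynomial.Bivariate.swap (R := ℚ)) h'
  rwa [← gen_toQ_sw, ← gen_toQ_sw, dX, sw_sw] at h1

/-- A good polynomial divides no nonzero polynomial in the second variable alone. -/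
theorem Good.not_dvd_sw_C {F : ℤ[X][Y]} (hF : Good F) {P : ℤ[X]} (hP : P ≠ 0) :
    ¬ toQ F ∣ toQ (sw (C P)) := by
  intro h
  have h1 := map_dvd (Polynomial.Bivariate.swap (R := ℚ)) h
  rw [← gen_toQ_sw, ← gen_toQ_sw, sw_sw] at h1
  have h0 : toQ (C P) ≠ 0 := fun h0 =>
    hP (C_eq_zero.1 (gen_toQ_inj (h0.trans (map_zero _).symm)))
  have h2 := natDegree_le_of_dvd h1 h0
  rw [gen_natDegree_toQ, gen_natDegree_toQ, natDegree_C] at h2
  exact absurd hF.degX (not_lt.2 h2)

end Pool.Agent.UAP
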