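import Pool.Agent.Lib.MP_7e5527_ag.Jf
import Pool.Agent.Lib.MP_7e5527_ag.Gen

open Polynomial UpperHalfPlane
open scoped Polynomial.Bivariate MatrixGroups IntermediateField

noncomputable section

namespace Pool.Agent.UAP

variable {p : ℕ} [Fact p.Prime]

section gen

variable {E : Type*} [NontriviallyNormedField E] [IsUltrametricDist E]

private theorem arr_norm_term (c : ℕ × ℕ → ℤ) (x y : E) (il : ℕ × ℕ) :
    ‖(c il : E) * x ^ il.1 * y ^ il.2‖ ≤ ‖x‖ ^ il.1 * ‖y‖ ^ il.2 := by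
  rw [norm_mul, norm_mul, norm_pow, norm_pow, mul_assoc]
  exact mul_le_of_le_one_left (by positivity) (IsUltrametricDist.norm_intCast_le_one _ _)

variable [CompleteSpace E]

private theorem arr_hasSum_val (c : ℕ × ℕ → ℤ) {x y : E} (hx : ‖x‖ < 1) (hy : ‖y‖ < 1) :
    HasSum (fun il : ℕ × ℕ => (c il : E) * x ^ il.1 * y ^ il.2) (val c x y) := by
  refine Summable.hasSum (Summable.of_norm_bounded ?_ (arr_norm_term c x y))
  exact (summable_geometric_of_lt_one (norm_nonneg x) hx).mul_of_nonneg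
    (summable_geometric_of_lt_one (norm_nonneg y) hy) (fun _ => by positivity)
    (fun _ => by positivity)

private theorem arr_hasSum (f : PowerSeries ℤ) {x : E} (hx : ‖x‖ < 1) :
    HasSum (fun n => ((PowerSeries.coeff n f : ℤ) : E) * x ^ n) (evZ f x) := by
  simpa [HasEv, toS] using hasEv_evZ f hx

private theorem arr_val_sum {ι : Type*} (s : Finset ι) (f g : ι → PowerSeries ℤ)
    {x y : E} (hx : ‖x‖ < 1) (hy : ‖y‖ < 1) :
    val (fun il => ∑ k ∈ s, PowerSeries.coeff il.1 (f k) * PowerSeries.coeff il.2 (g k)) x y =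
      ∑ k ∈ s, evZ (f k) x * evZ (g k) y := by
  refine (arr_hasSum_val _ hx hy).unique ?_
  have h : ∀ k ∈ s, HasSum (fun il : ℕ × ℕ =>
      ((PowerSeries.coeff il.1 (f k) * PowerSeries.coeff il.2 (g k) : ℤ) : E) * x ^ il.1 *
        y ^ il.2) (evZ (f k) x * evZ (g k) y) := fun k _ => by
    have e : (fun il : ℕ × ℕ =>
        ((PowerSeries.coeff il.1 (f k) * PowerSeries.coeff il.2 (g k) : ℤ) : E) * x ^ il.1 *
          y ^ il.2) = fun il : ℕ × ℕ => ((PowerSeries.coeff il.1 (f k) : ℤ) : E) * x ^ il.1 *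
          (((PowerSeries.coeff il.2 (g k) : ℤ) : E) * y ^ il.2) := by
      ext il
      push_cast
      ring
    have hs := (arr_hasSum_val (fun il => PowerSeries.coeff il.1 (f k) * PowerSeries.coeff il.2 (g k))
      hx hy).summable
    rw [e] at hs ⊢
    exact (arr_hasSum (f k) hx).mul (arr_hasSum (g k) hy) hs
  convert hasSum_sum h using 1
  ext il
  rw [Int.cast_sum, Finset.sum_mul, Finset.sum_mul]

/-- The series `X ^ d P(j)`. -/
private def hj (P : ℤ[X]) (d : ℕ) : PowerSeries ℤ := hom1 P d j0s PowerSeries.X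

private theorem arr_coeff_thS (a n : ℕ) (f : PowerSeries ℤ) :
    PowerSeries.coeff n (thS^[a] f) = (n : ℤ) ^ a * PowerSeries.coeff n f := by
  induction a with
  | zero => simp
  | succ a ih =>
    rw [Function.iterate_succ_apply', thS, PowerSeries.coeff_mk, ih]
    simp only [pow_succ]
    ring

private theorem arr_hj_pow {k d : ℕ} (h : k < d + 1) :
    hj (X ^ k) d = j0s ^ k * PowerSeries.X ^ (d - k) := by
  rw [hj, hom1, Finset.sum_eq_single_of_mem k (Finset.mem_range.2 h)]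
  · simp
  · intro i _ hi
    simp [coeff_X_pow, hi]

private theorem arr_garr (F : ℤ[X][Y]) (a b : ℕ) : th a b (garr F) = fun il =>
    ∑ k ∈ Finset.range (F.natDegree + 1),
      PowerSeries.coeff il.1 (thS^[a] (hj (F.coeff k) (sw F).natDegree)) *
        PowerSeries.coeff il.2 (thS^[b] (hj (X ^ k) F.natDegree)) := by
  ext il
  rw [th, garr, Finset.mul_sum]
  refine Finset.sum_congr rfl fun k hk => ?_
  rw [arr_coeff_thS, arr_coeff_thS, arr_hj_pow (Finset.mem_range.1 hk), hj, hom1, map_sum,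
    ← Finset.sum_mul]
  have e : ∀ i : ℕ, PowerSeries.coeff il.1 ((((F.coeff k).coeff i : ℤ) : PowerSeries ℤ) * j0s ^ i *
      PowerSeries.X ^ ((sw F).natDegree - i)) = (F.coeff k).coeff i *
        PowerSeries.coeff il.1 (j0s ^ i * PowerSeries.X ^ ((sw F).natDegree - i)) := fun i => by
    rw [mul_assoc, ← zsmul_eq_mul, map_zsmul, smul_eq_mul]
  simp only [e]
  ring

private theorem arr_th0 (c : ℕ × ℕ → ℤ) : th 0 0 c = c := by
  ext il
  simp [th]

private theorem arr_val_th (F : ℤ[X][Y]) (a b : ℕ) {x y : E} (hx : ‖x‖ < 1) (hy : ‖y‖ < 1) :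
    val (th a b (garr F)) x y = ∑ k ∈ Finset.range (F.natDegree + 1),
      evZ (thS^[a] (hj (F.coeff k) (sw F).natDegree)) x *
        evZ (thS^[b] (hj (X ^ k) F.natDegree)) y := by
  rw [arr_garr, arr_val_sum _ _ _ hx hy]

private theorem arr_ev0 {P : ℤ[X]} {d : ℕ} (hd : P.natDegree ≤ d) {x : E} (hx0 : x ≠ 0)
    (hx : ‖x‖ < 1) : evZ (hj P d) x = x ^ d * ev1 (J x) P := by
  have h := hasEv_hom1 mulOK_ultra P d (hasEv_evZ j0s hx) (hasEv_evZ PowerSeries.X hx)
  rw [← map_hom1, hom1_eq P hd _ (by rwa [evZ_X]), evZ_X, evZ_j0s hx0,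
    mul_div_cancel_left₀ _ hx0] at h
  exact (hasEv_evZ _ hx).unique h

private theorem arr_step {f : PowerSeries ℤ} {φ : E → E}
    (h : ∀ x : E, x ≠ 0 → ‖x‖ < 1 → evZ f x = φ x) {x v : E} (hx0 : x ≠ 0) (hx : ‖x‖ < 1)
    (hφ : HasDerivAt φ v x) : evZ (thS f) x = x * v := by
  have e : evZ f =ᶠ[nhds x] φ := by
    filter_upwards [isOpen_ne.mem_nhds hx0, (isOpen_lt continuous_norm continuous_const).mem_nhds hx]
      with z h1 h2 using h z h1 h2
  rw [thS_eq, evZ_mul _ _ hx, evZ_X, (hasDerivAt_evZ f hx).unique (hφ.congr_of_eventuallyEq e)]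

private theorem arr_der (P : ℤ[X]) {x : E} (hx0 : x ≠ 0) (hx : ‖x‖ < 1) :
    HasDerivAt (fun z : E => ev1 (J z) P) (ev1 (J x) (derivative P) * (Jn 1 x / x)) x := by
  have e : ∀ (z : E) (Q : ℤ[X]), ev1 z Q = aeval z Q := fun z Q => by
    rw [aeval_def, ev1, coe_eval₂RingHom, RingHom.ext_int (algebraMap ℤ E) (Int.castRingHom E)]
  simp only [e]
  exact (P.hasDerivAt_aeval (J x)).comp x (hasDerivAt_Jn 0 hx0 hx)

omit [IsUltrametricDist E] [CompleteSpace E] in
private theorem arr_pow (d : ℕ) {x : E} (hx0 : x ≠ 0) :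
    HasDerivAt (fun z : E => z ^ d) (d * x ^ d / x) x := by
  convert hasDerivAt_pow d x using 1
  cases d with
  | zero => simp
  | succ d => rw [pow_succ, ← mul_assoc, mul_div_cancel_right₀ _ hx0, Nat.add_sub_cancel]

private theorem arr_ev1 {P : ℤ[X]} {d : ℕ} (hd : P.natDegree ≤ d) {x : E} (hx0 : x ≠ 0)
    (hx : ‖x‖ < 1) : evZ (thS^[1] (hj P d)) x =
      x ^ d * (d * ev1 (J x) P + ev1 (J x) (derivative P) * Jn 1 x) := by
  rw [Function.iterate_one, arr_step (fun z h1 h2 => arr_ev0 hd h1 h2) hx0 hx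
    ((arr_pow d hx0).mul (arr_der P hx0 hx))]
  field_simp

private theorem arr_ev2 {P : ℤ[X]} {d : ℕ} (hd : P.natDegree ≤ d) {x : E} (hx0 : x ≠ 0)
    (hx : ‖x‖ < 1) : evZ (thS^[2] (hj P d)) x =
      x ^ d * (d ^ 2 * ev1 (J x) P + 2 * d * ev1 (J x) (derivative P) * Jn 1 x
        + ev1 (J x) (derivative (derivative P)) * Jn 1 x ^ 2
        + ev1 (J x) (derivative P) * Jn 2 x) := by
  rw [Function.iterate_succ_apply', arr_step (fun z h1 h2 => arr_ev1 hd h1 h2) hx0 hx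
    ((arr_pow d hx0).mul (((arr_der P hx0 hx).const_mul (d : E)).add
      ((arr_der (derivative P) hx0 hx).mul (hasDerivAt_Jn 1 hx0 hx))))]
  field_simp
  ring

/-- The product `P(X) Q(Y)`. -/
private def tens (P Q : ℤ[X]) : ℤ[X][Y] := C P * Q.map C

private theorem arr_tens_ev {A : Type*} [CommRing A] (x y : A) (P Q : ℤ[X]) :
    ev2 x y (tens P Q) = ev1 x P * ev1 y Q := by
  rw [tens, map_mul, ev2_C, ← Bivariate.swap_C]
  exact congrArg _ ((ev2_sw x y (C Q)).trans (ev2_C _ _ _))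

private theorem arr_tens_dX (P Q : ℤ[X]) : dX (tens P Q) = tens (derivative P) Q := by
  have e : dX (Q.map C) = 0 := by
    rw [dX, sw, sw, Bivariate.swap_map_C, derivative_C, map_zero]
  rw [tens, dX_mul, e, dX_C, mul_zero, add_zero, tens]

private theorem arr_tens_d (P Q : ℤ[X]) : derivative (tens P Q) = tens P (derivative Q) := by
  rw [tens, derivative_C_mul, derivative_map, tens]

private theorem arr_dX_sum {ι : Type*} (s : Finset ι) (f : ι → ℤ[X][Y]) :
    dX (∑ k ∈ s, f k) = ∑ k ∈ s, dX (f k) := by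
  simp only [dX, sw, map_sum]

private theorem arr_jet {A : Type*} [CommRing A] (x y : A) (F : ℤ[X][Y]) (a b : ℕ) :
    ev2 x y (dX^[a] (derivative^[b] F)) = ∑ k ∈ Finset.range (F.natDegree + 1),
      ev1 x (derivative^[a] (F.coeff k)) * ev1 y (derivative^[b] (X ^ k)) := by
  have e0 : F = ∑ k ∈ Finset.range (F.natDegree + 1), tens (F.coeff k) (X ^ k) := by
    conv_lhs => rw [F.as_sum_range_C_mul_X_pow]
    simp [tens]
  have e1 : derivative^[b] F =
      ∑ k ∈ Finset.range (F.natDegree + 1), tens (F.coeff k) (derivative^[b] (X ^ k)) := by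
    induction b with
    | zero => exact e0
    | succ b ih => simp only [Function.iterate_succ_apply', ih, derivative_sum, arr_tens_d]
  have e2 : dX^[a] (derivative^[b] F) = ∑ k ∈ Finset.range (F.natDegree + 1),
      tens (derivative^[a] (F.coeff k)) (derivative^[b] (X ^ k)) := by
    induction a with
    | zero => exact e1
    | succ a ih => simp only [Function.iterate_succ_apply', ih, arr_dX_sum, arr_tens_dX]
  simp only [e2, map_sum, arr_tens_ev]

private theorem arr_deg {k d : ℕ} (hk : k ∈ Finset.range (d + 1)) :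
    (X ^ k : ℤ[X]).natDegree ≤ d := by
  rw [natDegree_X_pow]
  exact Nat.lt_succ_iff.1 (Finset.mem_range.1 hk)

end gen

theorem hasSum_val (c : ℕ × ℕ → ℤ) {x y : ℂ_[p]} (hx : ‖x‖ < 1) (hy : ‖y‖ < 1) :
    HasSum (fun il : ℕ × ℕ => (c il : ℂ_[p]) * x ^ il.1 * y ^ il.2) (val c x y) :=
  arr_hasSum_val c hx hy

theorem norm_val_le (c : ℕ × ℕ → ℤ) {x y : ℂ_[p]} (hx : ‖x‖ < 1) (hy : ‖y‖ < 1) :
    ‖val c x y‖ ≤ 1 := by
  refine IsUltrametricDist.norm_tsum_le_of_forall_le_of_nonneg zero_le_one fun il => ?_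
  exact (arr_norm_term c x y il).trans (mul_le_one₀ (pow_le_one₀ (norm_nonneg _) hx.le)
    (by positivity) (pow_le_one₀ (norm_nonneg _) hy.le))

theorem Iso.map_val {σ : ℂ_[p] →+* ℂ_[p]} (hσ : Iso σ) (c : ℕ × ℕ → ℤ) {x y : ℂ_[p]}
    (hx : ‖x‖ < 1) (hy : ‖y‖ < 1) : σ (val c x y) = val c (σ x) (σ y) := by
  have hc : Continuous σ := (AddMonoidHomClass.isometry_of_norm σ hσ).continuous
  have h := (hasSum_val c hx hy).map σ hc
  refine h.unique ?_
  have h' := hasSum_val c (x := σ x) (y := σ y) (by rwa [hσ]) (by rwa [hσ])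
  convert h' using 1
  ext il
  simp

theorem val_garr (F : ℤ[X][Y]) {P : ℂ_[p] × ℂ_[p]} (hP : P ∈ Bi ℂ_[p]) :
    val (garr F) P.1 P.2 =
      P.1 ^ (sw F).natDegree * P.2 ^ F.natDegree * ev2 (J P.1) (J P.2) F := by
  obtain ⟨h1, h2, h3, h4⟩ := hP
  have e := arr_jet (J P.1) (J P.2) F 0 0
  simp only [Function.iterate_zero_apply] at e
  rw [← arr_th0 (garr F), arr_val_th F 0 0 h2 h4, e, Finset.mul_sum]
  refine Finset.sum_congr rfl fun k hk => ?_
  simp only [Function.iterate_zero_apply]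
  rw [arr_ev0 (natDegree_coeff_le F k) h1 h2, arr_ev0 (arr_deg hk) h3 h4]
  ring

theorem mem_Crv_iff (F : ℤ[X][Y]) {P : ℂ_[p] × ℂ_[p]} (hP : P ∈ Bi ℂ_[p]) :
    P ∈ Crv ℂ_[p] F ↔ val (garr F) P.1 P.2 = 0 := by
  rw [val_garr F hP, mul_eq_zero, or_iff_right (mul_ne_zero (pow_ne_zero _ hP.1)
    (pow_ne_zero _ hP.2.2.1))]
  exact and_iff_right hP

theorem kapG_garr (F : ℤ[X][Y]) {P : ℂ_[p] × ℂ_[p]} (hP : P ∈ Crv ℂ_[p] F) :
    kapG (garr F) P.1 P.2 =
      (P.1 ^ (sw F).natDegree * P.2 ^ F.natDegree) ^ 3 * kapJ F P.1 P.2 := by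
  obtain ⟨⟨h1, h2, h3, h4⟩, h0⟩ := hP
  have e := arr_jet (J P.1) (J P.2) F
  have e00 := e 0 0
  have e10 := e 1 0
  have e01 := e 0 1
  have e20 := e 2 0
  have e11 := e 1 1
  have e02 := e 0 2
  simp only [Function.iterate_succ_apply', Function.iterate_zero_apply] at e00 e10 e01 e20 e11 e02
  rw [h0] at e00
  set M := P.1 ^ (sw F).natDegree * P.2 ^ F.natDegree with hM
  set dx : ℂ_[p] := ((sw F).natDegree : ℂ_[p])
  set dy : ℂ_[p] := (F.natDegree : ℂ_[p])
  have x0 := fun k => arr_ev0 (natDegree_coeff_le F k) h1 h2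
  have x1 := fun k => arr_ev1 (natDegree_coeff_le F k) h1 h2
  have x2 := fun k => arr_ev2 (natDegree_coeff_le F k) h1 h2
  have v10 : val (th 1 0 (garr F)) P.1 P.2 =
      M * (dx * 0 + ev2 (J P.1) (J P.2) (dX F) * Jn 1 P.1) := by
    rw [arr_val_th F 1 0 h2 h4, e10, e00]
    simp only [Finset.mul_sum, Finset.sum_mul, ← Finset.sum_add_distrib]
    refine Finset.sum_congr rfl fun k hk => ?_
    rw [x1, Function.iterate_zero_apply, arr_ev0 (arr_deg hk) h3 h4]
    ring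
  have v01 : val (th 0 1 (garr F)) P.1 P.2 =
      M * (dy * 0 + ev2 (J P.1) (J P.2) (derivative F) * Jn 1 P.2) := by
    rw [arr_val_th F 0 1 h2 h4, e01, e00]
    simp only [Finset.mul_sum, Finset.sum_mul, ← Finset.sum_add_distrib]
    refine Finset.sum_congr rfl fun k hk => ?_
    rw [Function.iterate_zero_apply, x0, arr_ev1 (arr_deg hk) h3 h4]
    ring
  have v11 : val (th 1 1 (garr F)) P.1 P.2 =
      M * (dx * dy * 0 + dx * ev2 (J P.1) (J P.2) (derivative F) * Jn 1 P.2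
        + dy * ev2 (J P.1) (J P.2) (dX F) * Jn 1 P.1
        + ev2 (J P.1) (J P.2) (dX (derivative F)) * Jn 1 P.1 * Jn 1 P.2) := by
    rw [arr_val_th F 1 1 h2 h4, e11, e10, e01, e00]
    simp only [Finset.mul_sum, Finset.sum_mul, ← Finset.sum_add_distrib]
    refine Finset.sum_congr rfl fun k hk => ?_
    rw [x1, arr_ev1 (arr_deg hk) h3 h4]
    ring
  have v20 : val (th 2 0 (garr F)) P.1 P.2 =
      M * (dx ^ 2 * 0 + 2 * dx * ev2 (J P.1) (J P.2) (dX F) * Jn 1 P.1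
        + ev2 (J P.1) (J P.2) (dX (dX F)) * Jn 1 P.1 ^ 2
        + ev2 (J P.1) (J P.2) (dX F) * Jn 2 P.1) := by
    rw [arr_val_th F 2 0 h2 h4, e20, e10, e00]
    simp only [Finset.mul_sum, Finset.sum_mul, ← Finset.sum_add_distrib]
    refine Finset.sum_congr rfl fun k hk => ?_
    rw [x2, Function.iterate_zero_apply, arr_ev0 (arr_deg hk) h3 h4]
    ring
  have v02 : val (th 0 2 (garr F)) P.1 P.2 =
      M * (dy ^ 2 * 0 + 2 * dy * ev2 (J P.1) (J P.2) (derivative F) * Jn 1 P.2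
        + ev2 (J P.1) (J P.2) (derivative (derivative F)) * Jn 1 P.2 ^ 2
        + ev2 (J P.1) (J P.2) (derivative F) * Jn 2 P.2) := by
    rw [arr_val_th F 0 2 h2 h4, e02, e01, e00]
    simp only [Finset.mul_sum, Finset.sum_mul, ← Finset.sum_add_distrib]
    refine Finset.sum_congr rfl fun k hk => ?_
    rw [Function.iterate_zero_apply, x0, arr_ev2 (arr_deg hk) h3 h4]
    ring
  rw [kapG, v10, v01, v11, v20, v02]
  simp only [kapJ, kap, pK, del, pA, pB, dX_neg, ← dX_derivative, map_sub, map_add,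
    map_mul, map_neg, map_pow]
  ring

private theorem arr_inf : {a : ℂ_[p] | 1 < ‖a‖}.Infinite := fun h => by
  obtain ⟨M, hM⟩ := (h.image norm).bddAbove
  obtain ⟨a, ha⟩ := NormedField.exists_lt_norm ℂ_[p] (max 1 M)
  exact (hM ⟨a, (le_max_left _ _).trans_lt ha, rfl⟩).not_gt ((le_max_right _ _).trans_lt ha)

private theorem arr_roots {L : ℤ[X]} (hL : L ≠ 0) : {a : ℂ_[p] | ev1 a L = 0}.Finite := by
  have h : L.map (Int.castRingHom ℂ_[p]) ≠ 0 :=
    (Polynomial.map_ne_zero_iff (Int.castRingHom ℂ_[p]).injective_int).2 hL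
  refine (finite_setOfPred_isRoot h).subset fun a ha => ?_
  exact (eval_map _ _).trans ha

theorem garr_ne_zero {F : ℤ[X][Y]} (hF : F ≠ 0) : garr F ≠ 0 := fun h0 => by
  refine arr_inf (p := 2) ((arr_roots (leadingCoeff_ne_zero.2 hF)).subset fun a ha => ?_)
  have hf : fib F a = 0 := by
    by_contra hf
    refine arr_inf (p := 2) ((finite_setOfPred_isRoot hf).subset fun b hb => ?_)
    obtain ⟨x, h1, h2, rfl⟩ := exists_J ha
    obtain ⟨y, h3, h4, rfl⟩ := exists_J hb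
    have hB : (x, y) ∈ Bi ℂ_[2] := ⟨h1, h2, h3, h4⟩
    exact (eval_fib F _ _).trans ((mem_Crv_iff F hB).2 (by simp [h0, val])).2
  have := congrArg (fun Q => Q.coeff F.natDegree) hf
  simpa [fib] using this

private theorem arr_fin {L : ℤ[X]} (hL : L ≠ 0) {S : Set ℂ_[p]}
    (hS : ∀ y ∈ S, ‖y‖ < 1 ∧ (y ≠ 0 → ev1 (J y) L = 0)) : S.Finite := by
  refine Set.Finite.subset (Set.Finite.insert 0 (s := S \ {0}) ?_) fun y hy => ?_
  · refine Set.Finite.of_injOn (f := J) (fun y hy => (hS y hy.1).2 hy.2)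
      (fun y hy z hz h => J_inj hy.2 (hS y hy.1).1 hz.2 (hS z hz.1).1 h) (arr_roots hL)
  · by_cases h : y = 0
    · exact Or.inl h
    · exact Or.inr ⟨hy, h⟩

private theorem arr_zero (P : ℤ[X]) (d : ℕ) : evZ (hj P d) (0 : ℂ_[p]) = P.coeff d := by
  rw [evZ, tsum_eq_single 0 fun n hn => by simp [hn], pow_zero, mul_one,
    PowerSeries.coeff_zero_eq_constantCoeff, hj, map_hom1, constantCoeff_j0s,
    PowerSeries.constantCoeff_X, hom1, Finset.sum_range_succ, Finset.sum_eq_zero fun i hi => by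
      rw [zero_pow (Nat.sub_ne_zero_of_lt (Finset.mem_range.1 hi)), mul_zero]]
  simp

theorem finite_axis {F : ℤ[X][Y]} (hF : F ≠ 0) :
    {y : ℂ_[p] | ‖y‖ < 1 ∧ val (garr F) 0 y = 0}.Finite ∧
      {x : ℂ_[p] | ‖x‖ < 1 ∧ val (garr F) x 0 = 0}.Finite := by
  have hz : ‖(0 : ℂ_[p])‖ < 1 := by simp
  have hs : sw F ≠ 0 := fun h => hF (by rw [← sw_sw F, h, sw, map_zero])
  constructor
  · refine arr_fin (leadingCoeff_ne_zero.2 hs) fun y hy => ⟨hy.1, fun h0 => ?_⟩
    have h := hy.2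
    rw [← arr_th0 (garr F), arr_val_th F 0 0 hz hy.1] at h
    have hd := natDegree_coeff_le (sw F) (sw F).natDegree
    rw [sw_sw] at hd
    refine (mul_eq_zero.1 (Eq.trans ?_ h)).resolve_left (pow_ne_zero F.natDegree h0)
    rw [ev1, coe_eval₂RingHom, leadingCoeff, eval₂_eq_sum_range' _ (Nat.lt_succ_of_le hd),
      Finset.mul_sum]
    refine Finset.sum_congr rfl fun k hk => ?_
    simp only [Function.iterate_zero_apply]
    rw [arr_zero, arr_ev0 (arr_deg hk) h0 hy.1, coeff_sw]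
    simp only [ev1, coe_eval₂RingHom, eval₂_X_pow, eq_intCast]
    ring
  · refine arr_fin (leadingCoeff_ne_zero.2 hF) fun x hx => ⟨hx.1, fun h0 => ?_⟩
    have h := hx.2
    rw [← arr_th0 (garr F), arr_val_th F 0 0 hx.1 hz] at h
    simp only [Function.iterate_zero_apply, arr_zero] at h
    rw [Finset.sum_eq_single_of_mem F.natDegree (Finset.self_mem_range_succ _) fun k _ hk => by
      simp [coeff_X_pow, hk.symm], arr_ev0 (natDegree_coeff_le F _) h0 hx.1] at h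
    simpa [h0] using h

theorem Iso.map_Crv {σ : ℂ_[p] →+* ℂ_[p]} (hσ : Iso σ) {F : ℤ[X][Y]} {P : ℂ_[p] × ℂ_[p]}
    (hP : P ∈ Crv ℂ_[p] F) : (σ P.1, σ P.2) ∈ Crv ℂ_[p] F := by
  obtain ⟨⟨h1, h2, h3, h4⟩, h0⟩ := hP
  refine ⟨⟨(map_ne_zero σ).2 h1, (hσ _).trans_lt h2, (map_ne_zero σ).2 h3, (hσ _).trans_lt h4⟩, ?_⟩
  have := congrArg σ h0
  rwa [map_ev2, map_zero, J, J, hσ.map_Jn 0 h2, hσ.map_Jn 0 h4] at this

theorem mem_Pts_sw {F : ℤ[X][Y]} {x0 y0 : ℂ_[p]} {P : ℂ_[p] × ℂ_[p]} :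
    P.swap ∈ Pts (sw F) y0 x0 ↔ P ∈ Pts F x0 y0 := by
  simp only [Pts, Crv, Bi, Set.mem_ofPred_eq, Prod.fst_swap, Prod.snd_swap, ev2_sw]
  tauto

/-- Over a given `x` there are at most `deg_Y F` points. -/
theorem Good.encard_Crv_fibre {F : ℤ[X][Y]} (hF : Good F) (x : ℂ_[p]) :
    {P ∈ Crv ℂ_[p] F | P.1 = x}.encard ≤ F.natDegree := by
  refine le_trans (Set.encard_le_encard_of_injOn (f := fun P => J P.2) ?_ ?_)
    (hF.encard_fibre (J x))
  · rintro P ⟨hP, rfl⟩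
    exact hP.2
  · rintro P ⟨hP, h1⟩ Q ⟨hQ, h2⟩ h
    exact Prod.ext (h1.trans h2.symm) (J_inj hP.1.2.2.1 hP.1.2.2.2 hQ.1.2.2.1 hQ.1.2.2.2 h)

end Pool.Agent.UAP
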