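import Pool.Agent.Lib.MP_7e5527_ag.Jet

open Polynomial UpperHalfPlane
open scoped Polynomial.Bivariate MatrixGroups IntermediateField

noncomputable section

namespace Pool.Agent.UAP

/-- A derivation of a domain extends to its fraction field. -/
private theorem as1_exists_der {R L : Type*} [CommRing R] [IsDomain R] [Field L] [Algebra R L]
    [IsFractionRing R L] (θ : R → R) (hadd : ∀ a b, θ (a + b) = θ a + θ b)
    (hmul : ∀ a b, θ (a * b) = a * θ b + b * θ a) :
    ∃ D : L →+ L, (∀ a b, D (a * b) = a * D b + b * D a) ∧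
      ∀ a, D (algebraMap R L a) = algebraMap R L (θ a) := by
  have h0 : θ 0 = 0 := by
    have := hmul 0 0
    simpa using this
  have h1 : θ 1 = 0 := by
    have := hmul 1 1
    simp only [one_mul] at this
    linear_combination -this
  obtain ⟨ψ, hψ1, hψ2⟩ : ∃ ψ : R → DualNumber L, (∀ a, (ψ a).fst = algebraMap R L a) ∧
      ∀ a, (ψ a).snd = algebraMap R L (θ a) :=
    ⟨fun a => ((algebraMap R L a, algebraMap R L (θ a)) : L × L), fun _ => rfl, fun _ => rfl⟩
  let φ : R →+* DualNumber L :=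
    { toFun := ψ
      map_one' := TrivSqZeroExt.ext (by simp [hψ1]) (by simp [hψ2, h1])
      map_mul' := fun a b => TrivSqZeroExt.ext (by simp [hψ1]) (by
        rw [DualNumber.snd_mul, hψ1, hψ1, hψ2, hψ2, hψ2, hmul, map_add, map_mul, map_mul,
          mul_comm (algebraMap R L b)])
      map_zero' := TrivSqZeroExt.ext (by simp [hψ1]) (by simp [hψ2, h0])
      map_add' := fun a b => TrivSqZeroExt.ext (by simp [hψ1]) (by simp [hψ2, hadd]) }
  have hφ : ∀ y : nonZeroDivisors R, IsUnit (φ y) := fun y =>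
    TrivSqZeroExt.isUnit_iff_isUnit_fst.2 (by
      change IsUnit (ψ y).fst
      rw [hψ1]
      exact IsLocalization.map_units L y)
  let Φ : L →+* DualNumber L := IsLocalization.lift hφ
  have hΦ : ∀ a, Φ (algebraMap R L a) = ψ a := fun a => IsLocalization.lift_eq hφ a
  have hfst : ∀ x, (Φ x).fst = x := by
    have : ((TrivSqZeroExt.fstHom L L L).toRingHom.comp Φ) = RingHom.id L := by
      refine IsLocalization.ringHom_ext (nonZeroDivisors R) ?_
      ext a
      change (Φ (algebraMap R L a)).fst = algebraMap R L a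
      rw [hΦ, hψ1]
    intro x
    exact RingHom.congr_fun this x
  refine ⟨{ toFun := fun x => (Φ x).snd
            map_zero' := by simp
            map_add' := fun a b => by simp }, fun a b => ?_, fun a => ?_⟩
  · change (Φ (a * b)).snd = a * (Φ b).snd + b * (Φ a).snd
    rw [map_mul, DualNumber.snd_mul, hfst, hfst, mul_comm b]
  · change (Φ (algebraMap R L a)).snd = _
    rw [hΦ, hψ2]

/-- The equation of `j` after clearing the pole `s`. -/
private def odeP {A : Type*} [CommRing A] (s u u1 u2 u3 : A) : A :=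
  u ^ 2 * (u - 1728 * s) ^ 2 * (2 * u3 * u1 - 3 * u2 ^ 2)
    + (u ^ 2 - 1968 * s * u + 2654208 * s ^ 2) * u1 ^ 4

section alg

variable {A k : Type*} [CommRing A] [IsDomain A] [Field k] [CharZero k]

/-- Local exponent count at a finite point. -/
private theorem as1_alg_hol (cc : A →+* k) {y T u u1 u2 u3 : A} {ρ : k} (hT : T ≠ 0)
    (hT0 : cc T = 0) (hρ : ρ ≠ 0) (hu : cc u ≠ 0) (c1 : cc u1 = ρ * cc u)
    (c2 : cc u2 = ρ * cc u1) (c3 : cc u3 = ρ * cc u2)
    (hy : y = 0 ∨ y = 1728 ∨ (cc y ≠ 0 ∧ cc y ≠ 1728))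
    (h : ode (y + T * u) (T * u1) (T * u2) (T * u3) = 0) : False := by
  rw [c1] at c2
  rw [c2] at c3
  rcases hy with rfl | rfl | ⟨h1, h2⟩
  · have h3 : T ^ 4 * (u ^ 2 * (T * u - 1728) ^ 2 * (2 * u3 * u1 - 3 * u2 ^ 2)
        + ((T * u) ^ 2 - 1968 * (T * u) + 2654208) * u1 ^ 4) = 0 := by
      rw [← h, ode]; ring
    have h4 := congrArg cc ((mul_eq_zero.1 h3).resolve_left (pow_ne_zero _ hT))
    simp only [map_add, map_sub, map_mul, map_pow, map_ofNat, map_zero, hT0, c1, c2, c3] at h4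
    have h5 : (331776 : k) * (ρ ^ 4 * cc u ^ 4) = 0 := by linear_combination -h4
    simp [hρ, hu] at h5
  · have h3 : T ^ 4 * (u ^ 2 * (1728 + T * u) ^ 2 * (2 * u3 * u1 - 3 * u2 ^ 2)
        + ((1728 + T * u) ^ 2 - 1968 * (1728 + T * u) + 2654208) * u1 ^ 4) = 0 := by
      rw [← h, ode]; ring
    have h4 := congrArg cc ((mul_eq_zero.1 h3).resolve_left (pow_ne_zero _ hT))
    simp only [map_add, map_sub, map_mul, map_pow, map_ofNat, map_zero, hT0, c1, c2, c3] at h4
    have h5 : (746496 : k) * (ρ ^ 4 * cc u ^ 4) = 0 := by linear_combination -h4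
    simp [hρ, hu] at h5
  · have h3 : T ^ 2 * ((y + T * u) ^ 2 * (y + T * u - 1728) ^ 2 * (2 * u3 * u1 - 3 * u2 ^ 2)
        + ((y + T * u) ^ 2 - 1968 * (y + T * u) + 2654208) * u1 ^ 4 * T ^ 2) = 0 := by
      rw [← h, ode]; ring
    have h4 := congrArg cc ((mul_eq_zero.1 h3).resolve_left (pow_ne_zero _ hT))
    simp only [map_add, map_sub, map_mul, map_pow, map_ofNat, map_zero, hT0, c1, c2, c3] at h4
    have h5 : (cc y) ^ 2 * (cc y - 1728) ^ 2 * (ρ ^ 4 * cc u ^ 2) = 0 := by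
      linear_combination -h4
    simp [hρ, hu, h1, sub_eq_zero, h2] at h5

/-- Linearisation of the equation at the cusp. -/
private theorem as1_alg_uniq (cc : A →+* k) {s T v v1 v2 v3 e e1 e2 e3 : A} {ρ σ : k} (hT : T ≠ 0)
    (hT0 : cc T = 0) (hs : cc s = 0) (hρ : ρ ≠ 0) (hσ : σ ≠ 0) (hv : cc v ≠ 0) (he : cc e ≠ 0)
    (c1 : cc v1 = -ρ * cc v) (c2 : cc v2 = -ρ * cc v1) (c3 : cc v3 = -ρ * cc v2)
    (d1 : cc e1 = (-ρ + σ) * cc e) (d2 : cc e2 = (-ρ + σ) * cc e1)
    (d3 : cc e3 = (-ρ + σ) * cc e2) (h : odeP s v v1 v2 v3 = 0)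
    (h' : odeP s (v + T * e) (v1 + T * e1) (v2 + T * e2) (v3 + T * e3) = 0) : False := by
  rw [c1] at c2
  rw [c2] at c3
  rw [d1] at d2
  rw [d2] at d3
  obtain ⟨u, hu⟩ : ∃ u, u = v + T * e := ⟨_, rfl⟩
  obtain ⟨u1, hu1⟩ : ∃ u, u = v1 + T * e1 := ⟨_, rfl⟩
  obtain ⟨u2, hu2⟩ : ∃ u, u = v2 + T * e2 := ⟨_, rfl⟩
  obtain ⟨u3, hu3⟩ : ∃ u, u = v3 + T * e3 := ⟨_, rfl⟩
  have h3 : T * ((u * (u - 1728 * s) + v * (v - 1728 * s)) * (u + v - 1728 * s) * e *
        (2 * u3 * u1 - 3 * u2 ^ 2)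
      + v ^ 2 * (v - 1728 * s) ^ 2 * (2 * e3 * u1 + 2 * v3 * e1 - 3 * e2 * (u2 + v2))
      + e * (u + v - 1968 * s) * u1 ^ 4
      + (v ^ 2 - 1968 * s * v + 2654208 * s ^ 2) * e1 * (u1 + v1) * (u1 ^ 2 + v1 ^ 2)) = 0 := by
    rw [odeP] at h h'
    rw [hu, hu1, hu2, hu3]
    linear_combination h' - h
  have h4 := congrArg cc ((mul_eq_zero.1 h3).resolve_left hT)
  simp only [hu, hu1, hu2, hu3, map_add, map_sub, map_mul, map_pow, map_ofNat, map_zero, hT0, hs,
    c1, c2, c3, d1, d2, d3] at h4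
  have h5 : (2 : k) * (ρ * cc v ^ 5 * σ ^ 3 * cc e) = 0 := by linear_combination -h4
  simp [hρ, hσ, hv, he] at h5

end alg

section series

variable {k : Type*} [Field k]

/-- The twisted operator `θ + r`. -/
private def tw (r : k) (u : PowerSeries k) : PowerSeries k := thS u + PowerSeries.C r * u

private theorem as1_cc_thS (u : PowerSeries k) : PowerSeries.constantCoeff (thS u) = 0 := by
  rw [← PowerSeries.coeff_zero_eq_constantCoeff_apply]
  simp [thS]

private theorem as1_cc_tw (r : k) (u : PowerSeries k) :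
    PowerSeries.constantCoeff (tw r u) = r * PowerSeries.constantCoeff u := by
  simp [tw, as1_cc_thS]

private theorem as1_thS_C (a : k) : thS (PowerSeries.C a) = 0 := by
  rw [thS_eq]; simp

private theorem as1_thS_X_pow (n : ℕ) :
    thS (PowerSeries.X ^ n : PowerSeries k) = PowerSeries.C (n : k) * PowerSeries.X ^ n := by
  ext i
  simp only [thS, PowerSeries.coeff_mk, PowerSeries.coeff_C_mul, PowerSeries.coeff_X_pow]
  split_ifs with h
  · rw [h]
  · simp

private theorem as1_tw_X_pow_mul (r : k) (n : ℕ) (u : PowerSeries k) :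
    tw r (PowerSeries.X ^ n * u) = PowerSeries.X ^ n * tw (r + n) u := by
  simp only [tw, thS_mul, as1_thS_X_pow, map_add]
  ring

private theorem as1_thS_X_pow_mul (n : ℕ) (u : PowerSeries k) :
    thS (PowerSeries.X ^ n * u) = PowerSeries.X ^ n * tw (n : k) u := by
  simp only [tw, thS_mul, as1_thS_X_pow]
  ring

private theorem as1_tw_add (r : k) (u v : PowerSeries k) : tw r (u + v) = tw r u + tw r v := by
  simp only [tw, thS_add]
  ring

private theorem as1_split {f : PowerSeries k} (hf : f ≠ 0) :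
    ∃ (n : ℕ) (u : PowerSeries k), f = PowerSeries.X ^ n * u ∧ PowerSeries.constantCoeff u ≠ 0 :=
  ⟨_, _, PowerSeries.X_pow_order_mul_divXPowOrder.symm,
    fun h => hf (PowerSeries.constantCoeff_divXPowOrder_eq_zero_iff.1 h)⟩

private theorem as1_split_pos {f : PowerSeries k} (hf : f ≠ 0)
    (h0 : PowerSeries.constantCoeff f = 0) :
    ∃ (n : ℕ) (u : PowerSeries k), n ≠ 0 ∧ f = PowerSeries.X ^ n * u ∧
      PowerSeries.constantCoeff u ≠ 0 := by
  obtain ⟨n, u, h1, h2⟩ := as1_split hf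
  refine ⟨n, u, ?_, h1, h2⟩
  rintro rfl
  rw [pow_zero, one_mul] at h1
  exact h2 (h1 ▸ h0)

private theorem as1_cc_X_pow {n : ℕ} (hn : n ≠ 0) :
    PowerSeries.constantCoeff (PowerSeries.X ^ n : PowerSeries k) = 0 := by
  simp [hn]

private theorem as1_cc_sub (c : k) (n : ℕ) (hn : n ≠ 0) (f : PowerSeries ℤ) :
    PowerSeries.constantCoeff (subM c n hn (toS k f)) = (PowerSeries.constantCoeff f : ℤ) := by
  rw [← PowerSeries.coeff_zero_eq_constantCoeff_apply, coeff_subM]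
  simp [toS]

private theorem as1_tw_jn (a c : k) (n : ℕ) (hn : n ≠ 0) (i : ℕ) :
    tw (-(n : k)) (PowerSeries.C a * subM c n hn (toS k (jn i))) =
      PowerSeries.C (a * n) * subM c n hn (toS k (jn (i + 1))) := by
  have h1 : toS k (thS (jn i)) = thS (toS k (jn i)) := map_thS _ _
  simp only [tw, thS_mul, as1_thS_C, thS_subM, jn_succ, map_sub, map_mul, map_neg, map_natCast, h1]
  ring

/-- The series `j(c X ^ n)` satisfies the equation. -/
private theorem as1_ode_j {a c : k} (hac : a * c = 1) (n : ℕ) (hn : n ≠ 0) {v : PowerSeries k}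
    (hv : v = PowerSeries.C a * subM c n hn (toS k j0s)) :
    odeP (PowerSeries.X ^ n) v (tw (-(n : k)) v) (tw (-(n : k)) (tw (-(n : k)) v))
      (tw (-(n : k)) (tw (-(n : k)) (tw (-(n : k)) v))) = 0 := by
  have h0 := congrArg (fun f => subM c n hn (toS k f)) ode_formal
  have hX : subM c n hn (toS k PowerSeries.X) = PowerSeries.C c * PowerSeries.X ^ n := by
    rw [← subM_X c n hn]; simp [toS]
  simp only [map_add, map_sub, map_mul, map_pow, map_ofNat, map_zero, hX] at h0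
  have h1 : (PowerSeries.X ^ n : PowerSeries k) =
      PowerSeries.C a * (PowerSeries.C c * PowerSeries.X ^ n) := by
    rw [← mul_assoc, ← map_mul, hac, map_one, one_mul]
  rw [hv, ← jn_zero, as1_tw_jn, as1_tw_jn, as1_tw_jn, jn_zero, h1, odeP]
  simp only [map_mul, zero_add, Nat.reduceAdd]
  linear_combination (PowerSeries.C a) ^ 6 * (PowerSeries.C (n : k)) ^ 4 * h0

variable [CharZero k]

/-- A nonconstant power series does not satisfy the equation of `j`. -/
private theorem as1_no_hol {f : PowerSeries k} (hf : thS f ≠ 0)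
    (h : ode f (thS f) (thS (thS f)) (thS (thS (thS f))) = 0) : False := by
  obtain ⟨y0, hy0⟩ : ∃ y0, y0 = PowerSeries.constantCoeff f := ⟨_, rfl⟩
  have hw : f - PowerSeries.C y0 ≠ 0 := by
    intro h1
    rw [sub_eq_zero] at h1
    exact hf (by rw [h1, as1_thS_C])
  obtain ⟨r, u, hr, h1, hu⟩ := as1_split_pos hw (by simp [hy0])
  have hf0 : f = PowerSeries.C y0 + PowerSeries.X ^ r * u := by rw [← h1]; ring
  have e1 : thS f = PowerSeries.X ^ r * tw (r : k) u := by
    rw [hf0, thS_add, as1_thS_C, zero_add, as1_thS_X_pow_mul]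
  rw [e1, as1_thS_X_pow_mul, as1_thS_X_pow_mul, hf0] at h
  refine as1_alg_hol PowerSeries.constantCoeff (pow_ne_zero _ PowerSeries.X_ne_zero)
    (as1_cc_X_pow hr) (Nat.cast_ne_zero.2 hr) hu (as1_cc_tw _ _) (as1_cc_tw _ _) (as1_cc_tw _ _)
    ?_ h
  by_cases h2 : y0 = 0
  · left; rw [h2, map_zero]
  by_cases h3 : y0 = 1728
  · right; left; rw [h3, map_ofNat]
  · right; right; simpa using ⟨h2, h3⟩

/-- Uniqueness of the solutions with a pole of given order and leading coefficient. -/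
private theorem as1_uniq {n : ℕ} (hn : n ≠ 0) {u v : PowerSeries k}
    (hv0 : PowerSeries.constantCoeff v ≠ 0)
    (h0 : PowerSeries.constantCoeff u = PowerSeries.constantCoeff v)
    (hu : odeP (PowerSeries.X ^ n) u (tw (-(n : k)) u) (tw (-(n : k)) (tw (-(n : k)) u))
      (tw (-(n : k)) (tw (-(n : k)) (tw (-(n : k)) u))) = 0)
    (hv : odeP (PowerSeries.X ^ n) v (tw (-(n : k)) v) (tw (-(n : k)) (tw (-(n : k)) v))
      (tw (-(n : k)) (tw (-(n : k)) (tw (-(n : k)) v))) = 0) : u = v := by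
  by_contra hne
  obtain ⟨N, e, hN, h1, he⟩ := as1_split_pos (sub_ne_zero.2 hne) (by simp [h0])
  have h2 : u = v + PowerSeries.X ^ N * e := by rw [← h1]; ring
  simp only [h2, as1_tw_add, as1_tw_X_pow_mul] at hu
  exact as1_alg_uniq PowerSeries.constantCoeff (pow_ne_zero _ PowerSeries.X_ne_zero)
    (as1_cc_X_pow hN) (as1_cc_X_pow hn) (Nat.cast_ne_zero.2 hn) (Nat.cast_ne_zero.2 hN) hv0 he
    (as1_cc_tw _ _) (as1_cc_tw _ _) (as1_cc_tw _ _) (as1_cc_tw _ _) (as1_cc_tw _ _)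
    (as1_cc_tw _ _) hv hu

end series

section frac

variable {k L : Type*} [Field k] [Field L] [Algebra (PowerSeries k) L]
  [IsFractionRing (PowerSeries k) L]

private theorem as1_map_ne {f : PowerSeries k} (hf : f ≠ 0) : algebraMap (PowerSeries k) L f ≠ 0 :=
  fun h => hf (IsFractionRing.injective (PowerSeries k) L (by rw [h, map_zero]))

private theorem as1_D_div (D : L →+ L) (hD : ∀ a b, D (a * b) = a * D b + b * D a)
    (hθ : ∀ a, D (algebraMap (PowerSeries k) L a) = algebraMap (PowerSeries k) L (thS a))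
    (n : ℕ) (u : PowerSeries k) :
    D (algebraMap (PowerSeries k) L u / algebraMap (PowerSeries k) L (PowerSeries.X ^ n)) =
      algebraMap (PowerSeries k) L (tw (-(n : k)) u) /
        algebraMap (PowerSeries k) L (PowerSeries.X ^ n) := by
  have hS : algebraMap (PowerSeries k) L (PowerSeries.X ^ n) ≠ 0 :=
    as1_map_ne (pow_ne_zero _ PowerSeries.X_ne_zero)
  have h1 := hD (algebraMap (PowerSeries k) L u / algebraMap (PowerSeries k) L (PowerSeries.X ^ n))
    (algebraMap (PowerSeries k) L (PowerSeries.X ^ n))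
  rw [div_mul_cancel₀ _ hS, hθ, hθ, as1_thS_X_pow, map_mul, mul_comm (algebraMap _ L _),
    ← mul_assoc, div_mul_cancel₀ _ hS] at h1
  rw [eq_div_iff hS, tw, map_neg, neg_mul, map_add, map_neg, map_mul]
  linear_combination -h1

private theorem as1_ode_div {E : Type*} [Field E] {s : E} (hs : s ≠ 0) (u u1 u2 u3 : E) :
    ode (u / s) (u1 / s) (u2 / s) (u3 / s) = odeP s u u1 u2 u3 / s ^ 6 := by
  rw [ode, odeP]
  field_simp

private theorem as1_map_odeP {A B : Type*} [CommRing A] [CommRing B] (φ : A →+* B)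
    (s u u1 u2 u3 : A) : φ (odeP s u u1 u2 u3) = odeP (φ s) (φ u) (φ u1) (φ u2) (φ u3) := by
  simp only [odeP, map_add, map_sub, map_mul, map_pow, map_ofNat]

private theorem as1_ode_iff (D : L →+ L) (hD : ∀ a b, D (a * b) = a * D b + b * D a)
    (hθ : ∀ a, D (algebraMap (PowerSeries k) L a) = algebraMap (PowerSeries k) L (thS a))
    (n : ℕ) (u : PowerSeries k) {j : L}
    (hj : j = algebraMap (PowerSeries k) L u / algebraMap (PowerSeries k) L (PowerSeries.X ^ n)) :
    ode j (D j) (D (D j)) (D (D (D j))) = 0 ↔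
      odeP (PowerSeries.X ^ n) u (tw (-(n : k)) u) (tw (-(n : k)) (tw (-(n : k)) u))
        (tw (-(n : k)) (tw (-(n : k)) (tw (-(n : k)) u))) = 0 := by
  have hS : algebraMap (PowerSeries k) L (PowerSeries.X ^ n) ≠ 0 :=
    as1_map_ne (pow_ne_zero _ PowerSeries.X_ne_zero)
  rw [hj, as1_D_div D hD hθ, as1_D_div D hD hθ, as1_D_div D hD hθ, as1_ode_div hS, ← as1_map_odeP,
    div_eq_zero_iff, or_iff_left (pow_ne_zero _ hS),
    map_eq_zero_iff _ (IsFractionRing.injective (PowerSeries k) L)]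

private theorem as1_Ds_ne {c : k} (hc : c ≠ 0) (n : ℕ) (hn : n ≠ 0) :
    subM c n hn (toS k Ds) ≠ 0 := by
  have hX : subM c n hn (toS k PowerSeries.X) = PowerSeries.C c * PowerSeries.X ^ n := by
    rw [← subM_X c n hn]; simp [toS]
  rw [Ds_eq_X_mul, map_mul, map_mul, hX]
  refine mul_ne_zero (mul_ne_zero ?_ (pow_ne_zero _ PowerSeries.X_ne_zero)) fun h => ?_
  · intro h
    exact hc (by simpa using congrArg PowerSeries.constantCoeff h)
  · have := as1_cc_sub c n hn D0s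
    rw [h, constantCoeff_D0s] at this
    simp at this

private theorem as1_j_eq {a c : k} (hac : a * c = 1) (n : ℕ) (hn : n ≠ 0) :
    algebraMap (PowerSeries k) L (subM c n hn (toS k E4s) ^ 3) /
        algebraMap (PowerSeries k) L (subM c n hn (toS k Ds)) =
      algebraMap (PowerSeries k) L (PowerSeries.C a * subM c n hn (toS k j0s)) /
        algebraMap (PowerSeries k) L (PowerSeries.X ^ n) := by
  have hc : c ≠ 0 := right_ne_zero_of_mul_eq_one hac
  have hX : subM c n hn (toS k PowerSeries.X) = PowerSeries.C c * PowerSeries.X ^ n := by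
    rw [← subM_X c n hn]; simp [toS]
  rw [div_eq_div_iff (as1_map_ne (as1_Ds_ne hc n hn))
    (as1_map_ne (pow_ne_zero _ PowerSeries.X_ne_zero)), ← map_mul, ← map_mul]
  congr 1
  have h1 : (PowerSeries.C a * PowerSeries.C c : PowerSeries k) = 1 := by
    rw [← map_mul, hac, map_one]
  rw [← map_pow, ← map_pow, ← j0s_mul_D0s, Ds_eq_X_mul]
  simp only [map_mul, hX]
  linear_combination (-(subM c n hn (toS k j0s) * subM c n hn (toS k D0s) *
    PowerSeries.X ^ n)) * h1

private theorem as1_main [CharZero k] [CharZero L] {F : ℤ[X][Y]} (hF : Good F)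
    (hN : toQ F ∣ toQ (Nq F)) {m : ℕ} (hm : m ≠ 0) {z l : PowerSeries k} (hl : l ≠ 0)
    (h : hom2 F (subM 1 m hm (toS k E4s) ^ 3) (subM 1 m hm (toS k Ds)) z l = 0) : Sp k F := by
  let ι : PowerSeries k →+* L := algebraMap (PowerSeries k) L
  have hι : Function.Injective ι := IsFractionRing.injective (PowerSeries k) L
  obtain ⟨D, hD, hθ⟩ := as1_exists_der (L := L) (thS (R := k)) thS_add thS_mul
  obtain ⟨v, hv⟩ : ∃ v, v = PowerSeries.C (1 : k) * subM 1 m hm (toS k j0s) := ⟨_, rfl⟩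
  obtain ⟨j1, hj1⟩ : ∃ j1, j1 = ι v / ι (PowerSeries.X ^ m) := ⟨_, rfl⟩
  obtain ⟨j2, hj2⟩ : ∃ j2, j2 = ι z / ι l := ⟨_, rfl⟩
  have hb : ι (subM 1 m hm (toS k Ds)) ≠ 0 := as1_map_ne (as1_Ds_ne one_ne_zero m hm)
  have hj1' : ι (subM 1 m hm (toS k E4s) ^ 3) / ι (subM 1 m hm (toS k Ds)) = j1 := by
    rw [hj1, hv]; exact as1_j_eq (one_mul 1) m hm
  have hl' : ι l ≠ 0 := as1_map_ne hl
  have hF0 : ev2 j1 j2 F = 0 := by
    have h1 := congrArg ι h
    rw [map_hom2, hom2_eq F _ hb _ hl', hj1', ← hj2, map_zero] at h1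
    exact (mul_eq_zero.1 h1).resolve_left (mul_ne_zero (pow_ne_zero _ hb) (pow_ne_zero _ hl'))
  have htr : Tr j1 := by
    intro P hP
    by_contra hne
    refine hom1_ne_zero (E := k) hne le_rfl (a := subM 1 m hm (toS k E4s) ^ 3) ?_
      (as1_Ds_ne one_ne_zero m hm) ?_ (hι ?_)
    · rw [map_pow, as1_cc_sub, constantCoeff_E4s]; simp
    · rw [as1_cc_sub, Ds_eq_X_mul]; simp
    · rw [map_hom1, hom1_eq P le_rfl _ hb, hj1', hP, mul_zero, map_zero]
  have hA : ev2 j1 j2 (pA F) ≠ 0 := fun h1 => hF.not_dvd_pA (hF.dvd_of_tr _ htr hF0 h1)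
  have hB : ev2 j1 j2 (pB F) ≠ 0 := fun h1 => hF.not_dvd_pB (hF.dvd_of_tr _ htr hF0 h1)
  have hj0 : j1 ≠ 0 := fun h1 => X_ne_zero (htr X (by simp [ev1, h1]))
  have hj3 : j1 - 1728 ≠ 0 := fun h1 => X_sub_C_ne_zero (1728 : ℤ) (htr _ (by
    simpa [ev1] using h1))
  have hu1 : D j1 ≠ 0 := by
    rw [hj1, as1_D_div D hD hθ]
    refine div_ne_zero (as1_map_ne fun h1 => ?_)
      (as1_map_ne (pow_ne_zero _ PowerSeries.X_ne_zero))
    have h2 := as1_cc_tw (-(m : k)) v
    rw [h1, hv, map_mul, as1_cc_sub, constantCoeff_j0s] at h2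
    simp [hm] at h2
  obtain ⟨e1, e2, e3⟩ := jet_of_derivation D hD F hF0
  have hu2 : D j2 ≠ 0 := fun h1 => mul_ne_zero hB hu1 (by rw [← e1, h1, mul_zero])
  have hode1 : ode j1 (D j1) (D (D j1)) (D (D (D j1))) = 0 :=
    (as1_ode_iff D hD hθ m v hj1).2 (as1_ode_j (one_mul 1) m hm hv)
  have hode2 : ode j2 (D j2) (D (D j2)) (D (D (D j2))) = 0 := by
    have h1 := jet_identity F hu1 hu2 hA hB e2 e3
    rw [ev2_eq_zero_of_dvd hN hF0, hode1, mul_zero, mul_zero, zero_sub, eq_comm, neg_eq_zero] at h1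
    exact (mul_eq_zero.1 h1).resolve_left (mul_ne_zero (mul_ne_zero (mul_ne_zero
      (mul_ne_zero (pow_ne_zero _ hA) (pow_ne_zero _ hB)) (pow_ne_zero _ hj0)) (pow_ne_zero _ hj3))
      (pow_ne_zero _ hu1))
  have hz : z ≠ 0 := by
    rintro rfl
    exact hu2 (by rw [hj2, map_zero, zero_div, map_zero])
  obtain ⟨a, z', hz1, hz2⟩ := as1_split hz
  obtain ⟨b, l', hl1, hl2⟩ := as1_split hl
  have hw : l' * l'⁻¹ = 1 := PowerSeries.mul_inv_cancel _ hl2
  rcases le_or_gt b a with hab | hab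
  · exfalso
    obtain ⟨d, rfl⟩ := Nat.exists_eq_add_of_le hab
    have h1 : j2 = ι (PowerSeries.X ^ d * z' * l'⁻¹) := by
      rw [hj2, div_eq_iff hl', ← map_mul]
      congr 1
      rw [hz1, hl1]
      linear_combination (-(PowerSeries.X ^ (b + d) * z')) * hw
    rw [h1, hθ] at hu2
    rw [h1, hθ, hθ, hθ] at hode2
    refine as1_no_hol (f := PowerSeries.X ^ d * z' * l'⁻¹) (fun h2 => hu2 (by rw [h2, map_zero]))
      (hι ?_)
    rw [map_zero, ← hode2]
    simp only [ode, map_add, map_sub, map_mul, map_pow, map_ofNat, ι]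
  · obtain ⟨d, rfl⟩ := Nat.exists_eq_add_of_lt hab
    have hn : d + 1 ≠ 0 := Nat.succ_ne_zero d
    have h1 : j2 = ι (z' * l'⁻¹) / ι (PowerSeries.X ^ (d + 1)) := by
      rw [hj2, div_eq_div_iff hl' (as1_map_ne (pow_ne_zero _ PowerSeries.X_ne_zero)), ← map_mul,
        ← map_mul]
      congr 1
      rw [hz1, hl1]
      linear_combination (-(PowerSeries.X ^ (a + d + 1) * z')) * hw
    obtain ⟨a0, ha0⟩ : ∃ a0, a0 = PowerSeries.constantCoeff (z' * l'⁻¹) := ⟨_, rfl⟩
    have ha : a0 ≠ 0 := by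
      rw [ha0, map_mul, PowerSeries.constantCoeff_inv]
      exact mul_ne_zero hz2 (inv_ne_zero hl2)
    have hac : a0 * a0⁻¹ = 1 := mul_inv_cancel₀ ha
    have hcc : PowerSeries.constantCoeff
        (PowerSeries.C a0 * subM a0⁻¹ (d + 1) hn (toS k j0s)) = a0 := by
      rw [map_mul, as1_cc_sub, constantCoeff_j0s]; simp
    have h2 : z' * l'⁻¹ = PowerSeries.C a0 * subM a0⁻¹ (d + 1) hn (toS k j0s) :=
      as1_uniq hn (by rw [hcc]; exact ha) (by rw [hcc, ha0])
        ((as1_ode_iff D hD hθ _ _ h1).1 hode2) (as1_ode_j hac _ hn rfl)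
    refine ⟨m, d + 1, hm, hn, a0⁻¹, inv_ne_zero ha, hι ?_⟩
    have h3 := as1_j_eq (L := L) hac (d + 1) hn
    rw [← h2] at h3
    rw [map_hom2, hom2_eq F _ hb _ (as1_map_ne (as1_Ds_ne (inv_ne_zero ha) _ hn)), hj1', h3, ← h1,
      hF0, mul_zero, map_zero]

end frac

/-- Ax-Schanuel step: a totally geodesic curve is formally special. -/
theorem Good.sp_of_dvd {F : ℤ[X][Y]} (hF : Good F) (hN : toQ F ∣ toQ (Nq F)) (k : Type*) [Field k]
    [CharZero k] {m : ℕ} (hm : m ≠ 0) {z l : PowerSeries k} (hl : l ≠ 0)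
    (h : hom2 F (subM 1 m hm (toS k E4s) ^ 3) (subM 1 m hm (toS k Ds)) z l = 0) : Sp k F := by
  have : CharZero (PowerSeries k) := algebraRat.charZero _
  exact as1_main (L := FractionRing (PowerSeries k)) hF hN hm hl h

end Pool.Agent.UAP
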