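import Pool.Agent.Lib.MP_7e5527_ag.Ser

open Polynomial UpperHalfPlane
open scoped Polynomial.Bivariate

noncomputable section

namespace Pool.Agent.UAP

section general

variable {E : Type*} [NormedField E]

theorem HasEv.unique {f : PowerSeries E} {x v w : E} (h : HasEv f x v) (h' : HasEv f x w) :
    v = w := by
  exact HasSum.unique h h'

theorem HasEv.add {f g : PowerSeries E} {x v w : E} (h : HasEv f x v) (h' : HasEv g x w) :
    HasEv (f + g) x (v + w) := by
  unfold HasEv at *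
  simpa only [map_add, add_mul] using HasSum.add h h'

theorem HasEv.neg {f : PowerSeries E} {x v : E} (h : HasEv f x v) : HasEv (-f) x (-v) := by
  unfold HasEv at *
  simpa only [map_neg, neg_mul] using HasSum.neg h

theorem HasEv.sub {f g : PowerSeries E} {x v w : E} (h : HasEv f x v) (h' : HasEv g x w) :
    HasEv (f - g) x (v - w) := by
  unfold HasEv at *
  simpa only [map_sub, sub_mul] using HasSum.sub h h'

theorem hasEv_C (c x : E) : HasEv (PowerSeries.C c) x c := by
  unfold HasEv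
  have h := hasSum_single (f := fun n => PowerSeries.coeff n (PowerSeries.C c) * x ^ n) 0
    (fun n hn => by simp [PowerSeries.coeff_C, hn])
  simpa using h

theorem hasEv_zero (x : E) : HasEv 0 x 0 := by
  simpa using hasEv_C (0 : E) x

theorem hasEv_one (x : E) : HasEv 1 x 1 := by
  simpa using hasEv_C (1 : E) x

theorem hasEv_X (x : E) : HasEv PowerSeries.X x x := by
  unfold HasEv
  have h := hasSum_single
    (f := fun n => PowerSeries.coeff n (PowerSeries.X : PowerSeries E) * x ^ n) 1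
    (fun n hn => by simp [PowerSeries.coeff_X, hn])
  simpa using h

theorem hasEv_intCast (n : ℤ) (x : E) : HasEv (n : PowerSeries E) x n := by
  simpa only [map_intCast] using hasEv_C (n : E) x

theorem hasEv_natCast (n : ℕ) (x : E) : HasEv (n : PowerSeries E) x n := by
  simpa only [map_natCast] using hasEv_C (n : E) x

theorem HasEv.C_mul {f : PowerSeries E} {x v : E} (h : HasEv f x v) (c : E) :
    HasEv (PowerSeries.C c * f) x (c * v) := by
  unfold HasEv at *
  simpa only [PowerSeries.coeff_C_mul, mul_assoc] using HasSum.mul_left c h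

theorem HasEv.X_pow_mul {f : PowerSeries E} {x v : E} (h : HasEv f x v) (k : ℕ) :
    HasEv (PowerSeries.X ^ k * f) x (x ^ k * v) := by
  unfold HasEv at *
  rw [← hasSum_nat_add_iff' k]
  have h0 : ∑ i ∈ Finset.range k,
      PowerSeries.coeff i (PowerSeries.X ^ k * f) * x ^ i = 0 := by
    refine Finset.sum_eq_zero fun i hi => ?_
    rw [PowerSeries.coeff_X_pow_mul', if_neg (by simpa using hi), zero_mul]
  rw [h0, sub_zero]
  have he : (fun n => PowerSeries.coeff (n + k) (PowerSeries.X ^ k * f) * x ^ (n + k)) =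
      fun n => x ^ k * (PowerSeries.coeff n f * x ^ n) := by
    funext n
    rw [PowerSeries.coeff_X_pow_mul]
    ring
  rw [he]
  exact HasSum.mul_left (x ^ k) h

theorem hasEv_sum {ι : Type*} (s : Finset ι) {f : ι → PowerSeries E} {x : E} {v : ι → E}
    (h : ∀ i ∈ s, HasEv (f i) x (v i)) : HasEv (∑ i ∈ s, f i) x (∑ i ∈ s, v i) := by
  classical
  induction s using Finset.induction_on with
  | empty => simpa using hasEv_zero x
  | insert a s ha ih =>
    rw [Finset.sum_insert ha, Finset.sum_insert ha]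
    exact (h a (Finset.mem_insert_self _ _)).add
      (ih fun i hi => h i (Finset.mem_insert_of_mem hi))

theorem HasEv.pow (hE : MulOK E) {f : PowerSeries E} {x v : E} (h : HasEv f x v) (k : ℕ) :
    HasEv (f ^ k) x (v ^ k) := by
  induction k with
  | zero => simpa using hasEv_one x
  | succ k ih =>
    rw [pow_succ, pow_succ]
    exact hE _ _ _ _ _ ih h

theorem hasEv_prod (hE : MulOK E) {ι : Type*} (s : Finset ι) {f : ι → PowerSeries E} {x : E}
    {v : ι → E} (h : ∀ i ∈ s, HasEv (f i) x (v i)) :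
    HasEv (∏ i ∈ s, f i) x (∏ i ∈ s, v i) := by
  classical
  induction s using Finset.induction_on with
  | empty => simpa using hasEv_one x
  | insert a s ha ih =>
    rw [Finset.prod_insert ha, Finset.prod_insert ha]
    exact hE _ _ _ _ _ (h a (Finset.mem_insert_self _ _))
      (ih fun i hi => h i (Finset.mem_insert_of_mem hi))

theorem HasEv.substM {f : PowerSeries E} {c x v : E} {k : ℕ} (hk : k ≠ 0)
    (h : HasEv f (c * x ^ k) v) : HasEv (subM c k hk f) x v := by
  unfold HasEv at *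
  have hinj : Function.Injective fun n : ℕ => k * n := fun a b hab =>
    Nat.eq_of_mul_eq_mul_left (Nat.pos_of_ne_zero hk) hab
  rw [← hinj.hasSum_iff]
  · convert h using 2 with n
    simp only [Function.comp, coeff_subM, dvd_mul_right, if_true,
      Nat.mul_div_cancel_left _ (Nat.pos_of_ne_zero hk)]
    rw [mul_pow, pow_mul]
    ring
  · intro n hn
    have hd : ¬ k ∣ n := by
      rintro ⟨m, rfl⟩
      exact hn ⟨m, rfl⟩
    rw [coeff_subM, if_neg hd, zero_mul]

theorem hasEv_hom1 (hE : MulOK E) (P : ℤ[X]) (d : ℕ) {a b : PowerSeries E} {x v w : E}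
    (ha : HasEv a x v) (hb : HasEv b x w) : HasEv (hom1 P d a b) x (hom1 P d v w) := by
  unfold hom1
  refine hasEv_sum _ fun i _ => ?_
  exact hE _ _ _ _ _ (hE _ _ _ _ _ (hasEv_intCast _ x) (ha.pow hE i)) (hb.pow hE _)

theorem hasEv_hom2 (hE : MulOK E) (F : ℤ[X][Y]) {a b c e : PowerSeries E} {x va vb vc ve : E}
    (ha : HasEv a x va) (hb : HasEv b x vb) (hc : HasEv c x vc) (he : HasEv e x ve) :
    HasEv (hom2 F a b c e) x (hom2 F va vb vc ve) := by
  unfold hom2
  refine hasEv_sum _ fun k _ => ?_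
  exact hE _ _ _ _ _ (hE _ _ _ _ _ (hasEv_hom1 hE _ _ ha hb) (hc.pow hE k)) (he.pow hE _)

private theorem ev_mul_of_summable {f g : PowerSeries E} {x v w : E} (hf : HasEv f x v)
    (hg : HasEv g x w)
    (hs : Summable fun i : ℕ × ℕ =>
      PowerSeries.coeff i.1 f * x ^ i.1 * (PowerSeries.coeff i.2 g * x ^ i.2)) :
    HasEv (f * g) x (v * w) := by
  unfold HasEv at *
  have h1 := (summable_sum_mul_antidiagonal_of_summable_mul
    (f := fun n => PowerSeries.coeff n f * x ^ n)
    (g := fun n => PowerSeries.coeff n g * x ^ n) hs).hasSum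
  rw [← hf.summable.tsum_mul_tsum_eq_tsum_sum_antidiagonal hg.summable hs, hf.tsum_eq,
    hg.tsum_eq] at h1
  have he : (fun n => PowerSeries.coeff n (f * g) * x ^ n) = fun n =>
      ∑ kl ∈ Finset.HasAntidiagonal.antidiagonal n,
        PowerSeries.coeff kl.1 f * x ^ kl.1 * (PowerSeries.coeff kl.2 g * x ^ kl.2) := by
    funext n
    rw [PowerSeries.coeff_mul, Finset.sum_mul]
    refine Finset.sum_congr rfl fun i hi => ?_
    rw [← Finset.HasAntidiagonal.mem_antidiagonal.mp hi, pow_add]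
    ring
  rw [he]
  exact h1

theorem mulOK_complex : MulOK ℂ := by
  intro f g x v w hf hg
  refine ev_mul_of_summable hf hg ?_
  have h1 : Summable fun n => ‖PowerSeries.coeff n f * x ^ n‖ :=
    summable_norm_iff.mpr (HasSum.summable hf)
  have h2 : Summable fun n => ‖PowerSeries.coeff n g * x ^ n‖ :=
    summable_norm_iff.mpr (HasSum.summable hg)
  exact summable_mul_of_summable_norm (f := fun n => PowerSeries.coeff n f * x ^ n)
    (g := fun n => PowerSeries.coeff n g * x ^ n) h1 h2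

end general

section ultra

variable {E : Type*} [NontriviallyNormedField E] [IsUltrametricDist E] [CompleteSpace E]

omit [CompleteSpace E] in
private theorem ev_norm_le {a : ℕ → E} {v : E} {C : ℝ} (h : HasSum a v) (ha : ∀ n, ‖a n‖ ≤ C) :
    ‖v‖ ≤ C := by
  rw [← h.tsum_eq]
  exact IsUltrametricDist.norm_tsum_le_of_forall_le ha

omit [CompleteSpace E] in
private theorem ev_norm_pow_sub {x y : E} (hx : ‖x‖ ≤ 1) (hy : ‖y‖ ≤ 1) (n : ℕ) :
    ‖x ^ n - y ^ n‖ ≤ ‖x - y‖ := by
  induction n with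
  | zero => simp
  | succ n ih =>
    have he : x ^ (n + 1) - y ^ (n + 1) = x * (x ^ n - y ^ n) + y ^ n * (x - y) := by ring
    rw [he]
    refine (IsUltrametricDist.norm_add_le_max _ _).trans (max_le ?_ ?_)
    · rw [norm_mul]
      calc ‖x‖ * ‖x ^ n - y ^ n‖ ≤ 1 * ‖x - y‖ :=
            mul_le_mul hx ih (norm_nonneg _) zero_le_one
        _ = _ := one_mul _
    · rw [norm_mul, norm_pow]
      calc ‖y‖ ^ n * ‖x - y‖ ≤ 1 * ‖x - y‖ :=
            mul_le_mul_of_nonneg_right (pow_le_one₀ (norm_nonneg _) hy) (norm_nonneg _)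
        _ = _ := one_mul _

omit [CompleteSpace E] in
private theorem ev_norm_taylor {x y : E} (hy : ‖y‖ ≤ 1) (hx : ‖x‖ ≤ 1) (n : ℕ) :
    ‖y ^ n - x ^ n - (n : E) * x ^ (n - 1) * (y - x)‖ ≤ ‖y - x‖ ^ 2 := by
  induction n with
  | zero => simp
  | succ n ih =>
    have he : y ^ (n + 1) - x ^ (n + 1) - ((n + 1 : ℕ) : E) * x ^ (n + 1 - 1) * (y - x) =
        y * (y ^ n - x ^ n - (n : E) * x ^ (n - 1) * (y - x)) +
          (n : E) * x ^ (n - 1) * (y - x) ^ 2 := by
      rcases n with _ | n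
      · simp
      · simp only [Nat.add_sub_cancel]
        push_cast
        ring
    rw [he]
    refine (IsUltrametricDist.norm_add_le_max _ _).trans (max_le ?_ ?_)
    · rw [norm_mul]
      calc ‖y‖ * _ ≤ 1 * ‖y - x‖ ^ 2 := mul_le_mul hy ih (norm_nonneg _) zero_le_one
        _ = _ := one_mul _
    · rw [norm_mul, norm_mul, norm_pow, norm_pow]
      have h1 : ‖(n : E)‖ * ‖x‖ ^ (n - 1) ≤ 1 :=
        mul_le_one₀ (IsUltrametricDist.norm_natCast_le_one E n) (by positivity)
          (pow_le_one₀ (norm_nonneg _) hx)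
      calc _ ≤ 1 * ‖y - x‖ ^ 2 := mul_le_mul_of_nonneg_right h1 (by positivity)
        _ = _ := one_mul _

omit [CompleteSpace E] in
private theorem ev_norm_coeff_toS (f : PowerSeries ℤ) (n : ℕ) :
    ‖PowerSeries.coeff n (toS E f)‖ ≤ 1 := by
  simpa [toS] using IsUltrametricDist.norm_intCast_le_one E (PowerSeries.coeff n f)

theorem mulOK_ultra : MulOK E := by
  intro f g x v w hf hg
  refine ev_mul_of_summable hf hg ?_
  rw [NonarchimedeanAddGroup.summable_iff_tendsto_cofinite_zero]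
  exact tendsto_mul_cofinite_nhds_zero hf.summable.tendsto_cofinite_zero
    hg.summable.tendsto_cofinite_zero

theorem exists_hasEv_of_bound {f : PowerSeries E} {C Λ : ℝ}
    (hf : ∀ n, ‖PowerSeries.coeff n f‖ ≤ C * Λ ^ n) {x : E} (hΛ : 0 < Λ) (hx : Λ * ‖x‖ < 1) :
    ∃ v, HasEv f x v := by
  refine Summable.of_norm_bounded (g := fun n => C * (Λ * ‖x‖) ^ n)
    ((summable_geometric_of_lt_one (by positivity) hx).mul_left C) fun n => ?_
  rw [norm_mul, norm_pow, mul_pow, ← mul_assoc]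
  exact mul_le_mul_of_nonneg_right (hf n) (by positivity)

/-- The first term dominates. -/
theorem HasEv.tail {f : PowerSeries E} {C Λ : ℝ}
    (hf : ∀ n, ‖PowerSeries.coeff n f‖ ≤ C * Λ ^ n) {x v : E} (hΛ : 0 < Λ) (hx : Λ * ‖x‖ < 1)
    (h : HasEv f x v) (k : ℕ) (hk : ∀ n < k, PowerSeries.coeff n f = 0) :
    ‖v - PowerSeries.coeff k f * x ^ k‖ ≤ C * (Λ * ‖x‖) ^ (k + 1) := by
  unfold HasEv at h
  have hC : 0 ≤ C := by simpa using (norm_nonneg _).trans (hf 0)
  have h1 := (hasSum_nat_add_iff' (k + 1)).mpr h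
  have h0 : ∑ i ∈ Finset.range (k + 1), PowerSeries.coeff i f * x ^ i =
      PowerSeries.coeff k f * x ^ k := by
    rw [Finset.sum_range_succ, Finset.sum_eq_zero, zero_add]
    intro i hi
    rw [hk i (Finset.mem_range.mp hi), zero_mul]
  rw [h0] at h1
  refine ev_norm_le h1 fun n => ?_
  have hr : 0 ≤ Λ * ‖x‖ := by positivity
  calc ‖PowerSeries.coeff (n + (k + 1)) f * x ^ (n + (k + 1))‖
      ≤ C * (Λ * ‖x‖) ^ (n + (k + 1)) := by
        rw [norm_mul, norm_pow, mul_pow, ← mul_assoc]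
        exact mul_le_mul_of_nonneg_right (hf _) (by positivity)
    _ ≤ C * (Λ * ‖x‖) ^ (k + 1) :=
        mul_le_mul_of_nonneg_left (pow_le_pow_of_le_one hr hx.le (by omega)) hC

theorem HasEv.norm_le {f : PowerSeries E} {x v : E} {C : ℝ} (h : HasEv f x v)
    (hf : ∀ n, ‖PowerSeries.coeff n f‖ ≤ C) (hx : ‖x‖ ≤ 1) : ‖v‖ ≤ C := by
  refine ev_norm_le h fun n => ?_
  rw [norm_mul, norm_pow]
  calc ‖PowerSeries.coeff n f‖ * ‖x‖ ^ n ≤ ‖PowerSeries.coeff n f‖ * 1 :=
        mul_le_mul_of_nonneg_left (pow_le_one₀ (norm_nonneg _) hx) (norm_nonneg _)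
    _ ≤ C := by simpa using hf n

theorem HasEv.lipschitz {f : PowerSeries E} {x x' v v' : E} (h : HasEv f x v)
    (h' : HasEv f x' v') (hf : ∀ n, ‖PowerSeries.coeff n f‖ ≤ 1) (hx : ‖x‖ ≤ 1) (hx' : ‖x'‖ ≤ 1) :
    ‖v - v'‖ ≤ ‖x - x'‖ := by
  refine ev_norm_le (HasSum.sub h h') fun n => ?_
  rw [← mul_sub, norm_mul]
  calc ‖PowerSeries.coeff n f‖ * ‖x ^ n - x' ^ n‖ ≤ 1 * ‖x - x'‖ :=
        mul_le_mul (hf n) (ev_norm_pow_sub hx hx' n) (norm_nonneg _) zero_le_one
    _ = ‖x - x'‖ := one_mul _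

theorem hasEv_evZ (f : PowerSeries ℤ) {x : E} (hx : ‖x‖ < 1) : HasEv (toS E f) x (evZ f x) := by
  obtain ⟨v, hv⟩ := exists_hasEv_of_bound (f := toS E f) (C := 1) (Λ := 1) (x := x)
    (fun n => by simpa using ev_norm_coeff_toS f n) one_pos (by simpa using hx)
  have he : evZ f x = v := by
    unfold evZ
    exact HasSum.tsum_eq hv
  rw [he]
  exact hv

theorem norm_evZ_le (f : PowerSeries ℤ) {x : E} (hx : ‖x‖ < 1) : ‖evZ f x‖ ≤ 1 := by
  exact (hasEv_evZ f hx).norm_le (ev_norm_coeff_toS f) hx.le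

theorem evZ_mul (f g : PowerSeries ℤ) {x : E} (hx : ‖x‖ < 1) :
    evZ (f * g) x = evZ f x * evZ g x := by
  have h := mulOK_ultra _ _ _ _ _ (hasEv_evZ f hx) (hasEv_evZ g hx)
  rw [← map_mul] at h
  exact (hasEv_evZ _ hx).unique h

theorem evZ_add (f g : PowerSeries ℤ) {x : E} (hx : ‖x‖ < 1) :
    evZ (f + g) x = evZ f x + evZ g x := by
  have h := (hasEv_evZ f hx).add (hasEv_evZ g hx)
  rw [← map_add] at h
  exact (hasEv_evZ _ hx).unique h

theorem evZ_pow (f : PowerSeries ℤ) (k : ℕ) {x : E} (hx : ‖x‖ < 1) :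
    evZ (f ^ k) x = evZ f x ^ k := by
  have h := (hasEv_evZ f hx).pow mulOK_ultra k
  rw [← map_pow] at h
  exact (hasEv_evZ _ hx).unique h

theorem evZ_X {x : E} : evZ PowerSeries.X x = x := by
  unfold evZ
  rw [tsum_eq_single 1]
  · simp
  · intro n hn
    simp [PowerSeries.coeff_X, hn]

theorem hasDerivAt_evZ (f : PowerSeries ℤ) {x : E} (hx : ‖x‖ < 1) :
    HasDerivAt (evZ f) (evZ (PowerSeries.derivative ℤ f) x) x := by
  have key : ∀ y : E, ‖y‖ < 1 →
      ‖evZ f y - evZ f x - (y - x) • evZ (PowerSeries.derivative ℤ f) x‖ ≤ ‖y - x‖ ^ 2 := by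
    intro y hy
    have h1 : HasSum (fun n => PowerSeries.coeff n (toS E f) * y ^ n) (evZ f y) :=
      hasEv_evZ f hy
    have h2 : HasSum (fun n => PowerSeries.coeff n (toS E f) * x ^ n) (evZ f x) :=
      hasEv_evZ f hx
    have h3 : HasSum
        (fun n => PowerSeries.coeff n (toS E (PowerSeries.derivative ℤ f)) * x ^ n)
        (evZ (PowerSeries.derivative ℤ f) x) := hasEv_evZ _ hx
    have h4 : HasSum (fun n : ℕ => PowerSeries.coeff n (toS E f) * ((n : E) * x ^ (n - 1)))
        (evZ (PowerSeries.derivative ℤ f) x) := by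
      rw [← hasSum_nat_add_iff' 1]
      simp only [Finset.range_one, Finset.sum_singleton, Nat.cast_zero, zero_mul, mul_zero,
        sub_zero]
      have he : (fun n : ℕ => PowerSeries.coeff (n + 1) (toS E f) *
          (((n + 1 : ℕ) : E) * x ^ (n + 1 - 1))) =
          fun n => PowerSeries.coeff n (toS E (PowerSeries.derivative ℤ f)) * x ^ n := by
        funext n
        simp only [toS, PowerSeries.coeff_map, PowerSeries.coeff_derivative, map_mul, map_add,
          map_natCast, map_one, Nat.add_sub_cancel, Nat.cast_add, Nat.cast_one]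
        ring
      rw [he]
      exact h3
    have h5 := (h1.sub h2).sub (h4.mul_left (y - x))
    rw [smul_eq_mul]
    refine ev_norm_le h5 fun n => ?_
    have he : PowerSeries.coeff n (toS E f) * y ^ n - PowerSeries.coeff n (toS E f) * x ^ n -
        (y - x) * (PowerSeries.coeff n (toS E f) * ((n : E) * x ^ (n - 1))) =
        PowerSeries.coeff n (toS E f) * (y ^ n - x ^ n - (n : E) * x ^ (n - 1) * (y - x)) := by
      ring
    rw [he, norm_mul]
    calc _ ≤ 1 * ‖y - x‖ ^ 2 :=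
          mul_le_mul (ev_norm_coeff_toS f n) (ev_norm_taylor hy.le hx.le n) (norm_nonneg _)
            zero_le_one
      _ = _ := one_mul _
  rw [hasDerivAt_iff_isLittleO]
  have hO : (fun y => evZ f y - evZ f x - (y - x) • evZ (PowerSeries.derivative ℤ f) x)
      =O[nhds x] fun y => ‖y - x‖ ^ 2 := by
    refine Asymptotics.IsBigO.of_bound 1 ?_
    have hU : {y : E | ‖y‖ < 1} ∈ nhds x :=
      (isOpen_lt continuous_norm continuous_const).mem_nhds hx
    filter_upwards [hU] with y hy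
    simpa using key y hy
  exact hO.trans_isLittleO (Asymptotics.isLittleO_pow_sub_sub x one_lt_two)

theorem Iso.map_evZ {σ : E →+* E} (hσ : Iso σ) (f : PowerSeries ℤ) {x : E} (hx : ‖x‖ < 1) :
    σ (evZ f x) = evZ f (σ x) := by
  have hc : Continuous σ := (AddMonoidHomClass.isometry_of_norm σ hσ).continuous
  have hx' : ‖σ x‖ < 1 := by rw [hσ]; exact hx
  have h1 : HasSum (fun n => PowerSeries.coeff n (toS E f) * x ^ n) (evZ f x) := hasEv_evZ f hx
  have h2 := h1.map σ hc
  refine HasSum.unique h2 ?_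
  convert hasEv_evZ f hx' using 1
  unfold HasEv
  congr! 1
  funext n
  simp [toS]

theorem evZ_mem (S : Subring E) (hS : IsClosed (S : Set E)) (f : PowerSeries ℤ) {x : E}
    (hx : ‖x‖ < 1) (hxS : x ∈ S) : evZ f x ∈ S := by
  have h1 : HasSum (fun n => PowerSeries.coeff n (toS E f) * x ^ n) (evZ f x) := hasEv_evZ f hx
  refine hS.mem_of_tendsto h1.tendsto_sum_nat (Filter.Eventually.of_forall fun n => ?_)
  refine S.sum_mem fun i _ => S.mul_mem ?_ (S.pow_mem hxS i)
  simp [toS]

theorem hasEv_evI {R : Type*} [CommRing R] (φ : R →+* E) (hφ : ∀ r, ‖φ r‖ ≤ 1) {y : E}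
    (hy : ‖y‖ < 1) (f : PowerSeries R) : HasEv (PowerSeries.map φ f) y (evI φ y f) := by
  have hex : ∀ g : PowerSeries R, ∃ v, HasEv (PowerSeries.map φ g) y v := fun g =>
    exists_hasEv_of_bound (C := 1) (Λ := 1) (fun n => by simpa using hφ _) one_pos
      (by simpa using hy)
  choose Ψ hΨ using hex
  have h : ∃ Φ : PowerSeries R →+* E, ∀ f, HasEv (PowerSeries.map φ f) y (Φ f) := by
    refine ⟨⟨⟨⟨Ψ, ?_⟩, fun a b => ?_⟩, ?_, fun a b => ?_⟩, hΨ⟩
    · refine (hΨ 1).unique ?_
      rw [map_one]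
      exact hasEv_one y
    · refine (hΨ (a * b)).unique ?_
      rw [map_mul]
      exact mulOK_ultra _ _ _ _ _ (hΨ a) (hΨ b)
    · refine (hΨ 0).unique ?_
      rw [map_zero]
      exact hasEv_zero y
    · refine (hΨ (a + b)).unique ?_
      rw [map_add]
      exact (hΨ a).add (hΨ b)
  unfold evI
  rw [dif_pos h]
  exact h.choose_spec f

theorem norm_evI_le {R : Type*} [CommRing R] (φ : R →+* E) (hφ : ∀ r, ‖φ r‖ ≤ 1) {y : E}
    (hy : ‖y‖ < 1) (f : PowerSeries R) : ‖evI φ y f‖ ≤ 1 := by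
  exact (hasEv_evI φ hφ hy f).norm_le (fun n => by simpa using hφ _) hy.le

theorem norm_evI_sub_le {R : Type*} [CommRing R] (φ : R →+* E) (hφ : ∀ r, ‖φ r‖ ≤ 1) {y y' : E}
    (hy : ‖y‖ < 1) (hy' : ‖y'‖ < 1) (f : PowerSeries R) :
    ‖evI φ y f - evI φ y' f‖ ≤ ‖y - y'‖ := by
  exact (hasEv_evI φ hφ hy f).lipschitz (hasEv_evI φ hφ hy' f) (fun n => by simpa using hφ _)
    hy.le hy'.le

theorem evI_coe {R : Type*} [CommRing R] (φ : R →+* E) (hφ : ∀ r, ‖φ r‖ ≤ 1) {y : E}
    (hy : ‖y‖ < 1) (f : R[X]) : evI φ y (f : PowerSeries R) = (f.map φ).eval y := by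
  refine (hasEv_evI φ hφ hy f).unique ?_
  unfold HasEv
  rw [eval_eq_sum_range' (n := f.natDegree + 1) (Nat.lt_succ_of_le natDegree_map_le)]
  have h := hasSum_sum_of_ne_finset_zero (s := Finset.range (f.natDegree + 1))
    (f := fun n => PowerSeries.coeff n (PowerSeries.map φ (f : PowerSeries R)) * y ^ n)
    (L := SummationFilter.unconditional ℕ) (fun n hn => by
      have hn' : f.natDegree < n := by simpa using hn
      simp [Polynomial.coeff_coe, coeff_eq_zero_of_natDegree_lt hn'])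
  simpa [Polynomial.coeff_coe] using h

end ultra

theorem norm_zp (p : ℕ) [Fact p.Prime] (a : ℤ_[p]) : ‖zp p a‖ = ‖a‖ := by
  unfold zp
  rw [RingHom.comp_apply, norm_algebraMap']
  rfl

theorem norm_ap (p : ℕ) [Fact p.Prime] (a : PadicAlgCl p) : ‖ap p a‖ = ‖a‖ := by
  exact PadicComplex.norm_extends p a

theorem norm_p_eq (p : ℕ) [Fact p.Prime] : ‖(p : ℂ_[p])‖ = (p : ℝ)⁻¹ := by
  rw [← map_natCast (algebraMap ℚ_[p] ℂ_[p]) p, norm_algebraMap', Padic.norm_p]

/-- A positive integer is `p`-adically not too small. -/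
theorem inv_le_norm_natCast (p : ℕ) [Fact p.Prime] {n : ℕ} (hn : 0 < n) :
    (n : ℝ)⁻¹ ≤ ‖(n : ℂ_[p])‖ := by
  rw [← map_natCast (algebraMap ℚ_[p] ℂ_[p]) n, norm_algebraMap']
  have hp : 1 < p := (Fact.out : p.Prime).one_lt
  have hn0 : (n : ℚ_[p]) ≠ 0 := by exact_mod_cast hn.ne'
  rw [Padic.norm_eq_zpow_neg_valuation hn0, Padic.valuation_natCast, zpow_neg, zpow_natCast]
  have hle : p ^ padicValNat p n ≤ n := Nat.le_of_dvd hn pow_padicValNat_dvd
  have hle' : (p : ℝ) ^ padicValNat p n ≤ n := by exact_mod_cast hle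
  exact inv_anti₀ (by positivity) hle'

end Pool.Agent.UAP
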