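import Pool.Agent.Lib.MP_7e5527_ag.Arch0
import Pool.Agent.Lib.MP_7e5527_ag.Ev
import Pool.Agent.Lib.MP_7e5527_ag.Gen

open Polynomial UpperHalfPlane
open scoped Polynomial.Bivariate MatrixGroups IntermediateField

noncomputable section

namespace Pool.Agent.UAP

/-- The complex identity along the line `τ' = r τ + β`. -/
private def Lin (F : ℤ[X][Y]) (r : ℝ) (β : ℂ) : Prop :=
  ∀ τ τ' : ℍ, (τ' : ℂ) = r * τ + β → ev2 (jf τ) (jf τ') F = 0

private theorem as2_key {F : ℤ[X][Y]} {k : Type*} [Field k] (ι : k →+* ℂ) (h : Sp k F) :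
    ∃ (r : ℚ) (β : ℂ), 0 < r ∧ Lin F r β := by
  obtain ⟨m, n, hm, hn, c, hc, h⟩ := h
  have hc' : ι c ≠ 0 := (map_ne_zero ι).2 hc
  have hπ : (2 * Real.pi * Complex.I : ℂ) ≠ 0 := Complex.two_pi_I_ne_zero
  have hm' : (m : ℂ) ≠ 0 := Nat.cast_ne_zero.2 hm
  refine ⟨(n : ℚ) / m, Complex.log (ι c) / (2 * Real.pi * Complex.I), by positivity,
    fun τ τ' hτ => ?_⟩
  have h1 := congrArg (PowerSeries.map ι) h
  rw [map_hom2, map_zero] at h1
  simp only [map_pow, map_subM, map_toS, map_one] at h1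
  set t : ℂ := Complex.exp (2 * Real.pi * Complex.I * τ / m) with ht
  have e1 : 1 * t ^ m = Function.Periodic.qParam 1 τ := by
    rw [one_mul, ht, ← Complex.exp_nat_mul, Function.Periodic.qParam]
    congr 1
    push_cast
    field_simp
  have e2 : ι c * t ^ n = Function.Periodic.qParam 1 τ' := by
    rw [ht, ← Complex.exp_nat_mul, Function.Periodic.qParam, hτ]
    nth_rewrite 1 [← Complex.exp_log hc']
    rw [← Complex.exp_add]
    congr 1
    push_cast
    field_simp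
    ring
  have a1 := ((e1 ▸ hasEv_E4 τ : HasEv _ (1 * t ^ m) _).substM hm).pow mulOK_complex 3
  have a2 := (e1 ▸ hasEv_Delta τ : HasEv _ (1 * t ^ m) _).substM hm
  have a3 := ((e2 ▸ hasEv_E4 τ' : HasEv _ (ι c * t ^ n) _).substM hn).pow mulOK_complex 3
  have a4 := (e2 ▸ hasEv_Delta τ' : HasEv _ (ι c * t ^ n) _).substM hn
  have h2 := hasEv_hom2 mulOK_complex F a1 a2 a3 a4
  rw [h1] at h2
  have h3 := h2.unique (hasEv_zero t)
  have d1 := ModularForm.discriminant_ne_zero τ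
  have d2 := ModularForm.discriminant_ne_zero τ'
  rw [hom2_eq F _ d1 _ d2] at h3
  exact (mul_eq_zero.1 h3).resolve_left (mul_ne_zero (pow_ne_zero _ d1) (pow_ne_zero _ d2))

private theorem as2_sl (a b c d : ℤ) (h : a * d - b * c = 1) (τ : ℍ) :
    ∃ σ : ℍ, jf σ = jf τ ∧ (σ : ℂ) = (a * τ + b) / (c * τ + d) := by
  let γ : SL(2, ℤ) := ⟨!![a, b; c, d], by rw [Matrix.det_fin_two_of, h]⟩
  refine ⟨γ • τ, jf_smul γ τ, ?_⟩
  rw [coe_specialLinearGroup_apply]
  simp [γ]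

private theorem as2_pos {F : ℤ[X][Y]} (hF : Good F) {r : ℝ} (hr : 0 < r) {β : ℂ}
    (hβ : 0 < β.im) (h : Lin F r β) : False := by
  have key : ∀ τ : ℍ, ev2 (jf τ) (jf ⟨β, hβ⟩) F = 0 := by
    intro τ
    choose σ h1 h2 using fun n : ℕ => as2_sl 0 (-1) 1 n (by simp) τ
    have hp : ∀ n, 0 < ((r : ℂ) * σ n + β).im := fun n => by
      have := (σ n).coe_im_pos
      simp only [Complex.add_im, Complex.mul_im, Complex.ofReal_re, Complex.ofReal_im, zero_mul,
        add_zero]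
      positivity
    have l1 : Filter.Tendsto (fun n : ℕ => (σ n : ℂ)) Filter.atTop (nhds 0) := by
      simp only [h2]
      have l0 : Filter.Tendsto (fun n : ℕ => (τ : ℂ) + n) Filter.atTop (Bornology.cobounded ℂ) :=
        (tendsto_const_add_cobounded _).comp tendsto_natCast_atTop_cobounded
      have l2 := (Filter.tendsto_inv₀_cobounded.comp l0).neg
      rw [neg_zero] at l2
      refine l2.congr fun n => ?_
      simp [div_eq_mul_inv]
    have l2 : Filter.Tendsto (fun n : ℕ => (⟨_, hp n⟩ : ℍ)) Filter.atTop (nhds ⟨β, hβ⟩) := by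
      rw [isEmbedding_coe.tendsto_nhds_iff]
      have := (l1.const_mul (r : ℂ)).add_const β
      rw [mul_zero, zero_add] at this
      exact this
    have l3 := ((fib F (jf τ)).continuous.tendsto _).comp ((continuous_jf.tendsto _).comp l2)
    rw [← eval_fib]
    refine tendsto_nhds_unique l3 (tendsto_const_nhds.congr fun n => ?_)
    have := h (σ n) ⟨_, hp n⟩ rfl
    rw [h1, ← eval_fib] at this
    exact this.symm
  refine hF.swap.fib_ne_zero (jf ⟨β, hβ⟩) (Polynomial.funext fun x => ?_)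
  obtain ⟨τ, rfl⟩ := jf_surjective x
  rw [eval_fib, ev2_sw, key, eval_zero]

private theorem as2_swap {F : ℤ[X][Y]} {r : ℝ} (hr : 0 < r) {β : ℂ} (h : Lin F r β) :
    Lin (sw F) r⁻¹ (-β / r) := by
  intro τ τ' e
  rw [ev2_sw]
  refine h τ' τ ?_
  have : (r : ℂ) ≠ 0 := Complex.ofReal_ne_zero.2 hr.ne'
  rw [e]
  push_cast
  field_simp
  ring

private theorem as2_approx {θ : ℝ} (hθ : Irrational θ) (N : ℕ) :
    ∃ a b c d : ℤ, a * d - b * c = 1 ∧ (N : ℤ) < c ∧ 0 ≤ d ∧ d < c ∧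
      |θ - a / c| ≤ 1 / (c : ℝ) ^ 2 := by
  obtain ⟨ε, hε, h0⟩ := (((hθ.eventually_forall_le_dist_cast_rat_of_den_le N).filter_mono
    (nhdsWithin_le_nhds (s := Set.Ioi 0))).and self_mem_nhdsWithin).exists
  obtain ⟨n, hn⟩ := exists_nat_one_div_lt (show (0 : ℝ) < ε from h0)
  obtain ⟨q, h1, h2⟩ := Real.exists_rat_abs_sub_le_and_den_le θ (Nat.succ_pos n)
  have hd : (1 : ℝ) ≤ q.den := by exact_mod_cast q.pos
  have h3 : (q.den : ℝ) ≤ (n + 1 : ℕ) := by exact_mod_cast h2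
  have hN : N < q.den := by
    by_contra hc
    have h4 := hε q (not_lt.1 hc)
    rw [Real.dist_eq] at h4
    have h5 : (1 : ℝ) / (((n + 1 : ℕ) + 1) * q.den) ≤ 1 / ((n : ℝ) + 1) := by
      refine one_div_le_one_div_of_le (by positivity) ?_
      push_cast
      nlinarith [(Nat.cast_nonneg n : (0 : ℝ) ≤ n)]
    exact absurd (h4.trans (h1.trans h5)) (not_le.2 hn)
  obtain ⟨u, v, huv⟩ : IsCoprime q.num (q.den : ℤ) :=
    Int.isCoprime_iff_gcd_eq_one.2 q.reduced
  have hc : (0 : ℤ) < q.den := by exact_mod_cast q.pos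
  refine ⟨q.num, -v - q.num * (u / q.den), q.den, u % q.den, ?_, by exact_mod_cast hN,
    Int.emod_nonneg _ hc.ne', Int.emod_lt_of_pos _ hc, ?_⟩
  · rw [Int.emod_def]
    linear_combination huv
  · rw [Int.cast_natCast, ← Rat.cast_def]
    refine h1.trans (one_div_le_one_div_of_le (by positivity) ?_)
    rw [sq]
    exact mul_le_mul_of_nonneg_right (by linarith) (by positivity)

private theorem as2_irr {F : ℤ[X][Y]} (hF : Good F) {r β : ℝ} (hr : 0 < r)
    (hθ : Irrational (-β / r)) (h : Lin F r β) : False := by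
  have hfin : {y : ℂ | ev2 (jf I) y F = 0}.Finite :=
    Set.finite_of_encard_le_coe (hF.encard_fibre (jf I))
  obtain ⟨M, hM⟩ := hfin.isBounded.exists_norm_le
  obtain ⟨A, hA⟩ := (atImInfty_mem _).1 (tendsto_norm_jf.eventually (Filter.eventually_gt_atTop M))
  obtain ⟨N, hN⟩ := exists_nat_ge (10 * r * A)
  obtain ⟨a, b, c, d, hdet, hc, hd0, hdc, hap⟩ := as2_approx hθ N
  obtain ⟨σ, h1, h2⟩ := as2_sl a b c d hdet I
  have c1 : (1 : ℝ) ≤ c := by exact_mod_cast (show (1 : ℤ) ≤ c by omega)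
  have c2 : (N : ℝ) ≤ c := by exact_mod_cast hc.le
  have d0 : (0 : ℝ) ≤ d := by exact_mod_cast hd0
  have d1 : (d : ℝ) ≤ c := by exact_mod_cast hdc.le
  have hdet' : (a : ℝ) * d - b * c = 1 := by exact_mod_cast hdet
  have hS : (0 : ℝ) < c ^ 2 + d ^ 2 := by positivity
  have him : (σ : ℂ).im = 1 / (c ^ 2 + d ^ 2) := by
    rw [h2, Complex.div_im]
    simp [Complex.normSq_apply]
    field_simp
    linear_combination (d ^ 2 + c ^ 2 : ℝ) * hdet'
  have hre : (σ : ℂ).re - a / c = -(d / c) / (c ^ 2 + d ^ 2) := by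
    rw [h2, Complex.div_re]
    simp [Complex.normSq_apply]
    field_simp
    linear_combination (-(d : ℝ) * (d ^ 2 + c ^ 2)) * hdet'
  have y1 : (σ : ℂ).im ≤ 1 / (c : ℝ) ^ 2 :=
    him ▸ one_div_le_one_div_of_le (by positivity) (by nlinarith)
  have y2 : 1 / (2 * (c : ℝ) ^ 2) ≤ (σ : ℂ).im :=
    him ▸ one_div_le_one_div_of_le hS (by nlinarith)
  have x1 : |(σ : ℂ).re - a / c| ≤ 1 / (c : ℝ) ^ 2 := by
    rw [hre, abs_div, abs_neg, abs_of_nonneg (by positivity), abs_of_pos hS]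
    exact div_le_div₀ zero_le_one ((div_le_one (by positivity)).2 d1) (by positivity)
      (by nlinarith)
  have x2 : |(σ : ℂ).re - -β / r| ≤ 2 * (1 / (c : ℝ) ^ 2) := by
    rw [abs_le] at x1 hap ⊢
    constructor <;> linarith [x1.1, x1.2, hap.1, hap.2]
  have y0 := σ.coe_im_pos
  have hw : ((r : ℂ) * σ + β).im = r * (σ : ℂ).im := by simp
  have hw' : ((r : ℂ) * σ + β).re = r * ((σ : ℂ).re - -β / r) := by
    simp only [Complex.add_re, Complex.mul_re, Complex.ofReal_re, Complex.ofReal_im, zero_mul,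
      sub_zero]
    field_simp
    ring
  have hp : 0 < ((r : ℂ) * σ + β).im := by
    rw [hw]
    positivity
  obtain ⟨ρ, h3, h4⟩ := as2_sl 0 (-1) 1 0 (by simp) ⟨_, hp⟩
  have h5 := h σ ⟨_, hp⟩ rfl
  rw [h1, ← h3] at h5
  refine absurd (hM _ h5) (not_le.2 (hA ρ ?_))
  have h6 : ρ.im = r * (σ : ℂ).im /
      ((r * ((σ : ℂ).re - -β / r)) ^ 2 + (r * (σ : ℂ).im) ^ 2) := by
    rw [← hw, ← hw', ← coe_im, h4]
    simp [neg_div, Complex.normSq_apply, sq]
  rw [h6, le_div_iff₀ (by positivity)]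
  set x := (σ : ℂ).re - -β / r
  set y := (σ : ℂ).im
  set s := 1 / (c : ℝ) ^ 2 with hs
  have s0 : 0 < s := by positivity
  have y3 : s ≤ 2 * y := by
    rw [one_div, mul_inv, ← one_div ((c : ℝ) ^ 2)] at y2
    linarith
  have s1 : 10 * r * A * s ≤ 1 := by
    rw [hs, mul_one_div, div_le_one (by positivity)]
    nlinarith
  have q1 : x ^ 2 + y ^ 2 ≤ 5 * s ^ 2 := by
    have := sq_le_sq' (abs_le.1 x2).1 (abs_le.1 x2).2
    nlinarith
  rcases le_or_gt A 0 with hA0 | hA0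
  · exact (mul_nonpos_of_nonpos_of_nonneg hA0 (by positivity)).trans (by positivity)
  · calc A * ((r * x) ^ 2 + (r * y) ^ 2) = A * r ^ 2 * (x ^ 2 + y ^ 2) := by ring
      _ ≤ A * r ^ 2 * (5 * s ^ 2) := by gcongr
      _ = r * (s / 2) * (10 * r * A * s) := by ring
      _ ≤ r * y * 1 := by gcongr; linarith
      _ = r * y := mul_one _

/-- A formally special curve contains a modular curve. -/
theorem Good.special_of_sp {F : ℤ[X][Y]} (hF : Good F) {k : Type*} [Field k] (ι : k →+* ℂ)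
    (h : Sp k F) : ∃ g : GL (Fin 2) ℚ, 0 < (g : Matrix (Fin 2) (Fin 2) ℚ).det ∧
      ∀ τ : ℍ, ev2 (jf τ) (jf (act g τ)) F = 0 := by
  obtain ⟨r, β, hr, h⟩ := as2_key ι h
  have hr' : (0 : ℝ) < r := by exact_mod_cast hr
  have him : β.im = 0 := by
    rcases lt_trichotomy β.im 0 with h0 | h0 | h0
    · refine (as2_pos hF.swap (inv_pos.2 hr') ?_ (as2_swap hr' h)).elim
      rw [Complex.div_ofReal_im, Complex.neg_im]
      exact div_pos (neg_pos.2 h0) hr'
    · exact h0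
    · exact (as2_pos hF hr' h0 h).elim
  obtain ⟨b, rfl⟩ : ∃ b : ℝ, β = b := ⟨β.re, Complex.ext rfl him⟩
  obtain ⟨q, hq⟩ : -b / r ∈ Set.range ((↑) : ℚ → ℝ) := by
    by_contra hc
    exact as2_irr hF hr' hc h
  have hb : b = ((-q * r : ℚ) : ℝ) := by
    push_cast
    rw [hq]
    field_simp
  have hdet : (!![r, -q * r; 0, 1] : Matrix (Fin 2) (Fin 2) ℚ).det = r := by
    simp [Matrix.det_fin_two_of]
  refine ⟨Matrix.GeneralLinearGroup.mkOfDetNeZero _ (hdet.trans_ne hr.ne'), hr.trans_eq hdet.symm,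
    fun τ => h _ _ ?_⟩
  rw [act, coe_smul_of_det_pos (by simpa [Matrix.det_fin_two] using hr), hb]
  simp [num, denom]

end Pool.Agent.UAP
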