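import Pool.Agent.Lib.MP_7e5527_ag.Defs

/-! Internal definitions for the uniform André-Pink theorem for Tate isogeny classes. -/

open Polynomial UpperHalfPlane
open scoped Polynomial.Bivariate

noncomputable section

namespace Pool.Agent.UAP

/-! ### Formal `q`-expansions -/

def E2s : PowerSeries ℤ :=
  PowerSeries.mk fun n => if n = 0 then 1 else -24 * (ArithmeticFunction.sigma 1 n : ℤ)

def E4s : PowerSeries ℤ :=
  PowerSeries.mk fun n => if n = 0 then 1 else 240 * (ArithmeticFunction.sigma 3 n : ℤ)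

def E6s : PowerSeries ℤ :=
  PowerSeries.mk fun n => if n = 0 then 1 else -504 * (ArithmeticFunction.sigma 5 n : ℤ)

/-- The `q`-expansion of `Δ`. -/
def Ds : PowerSeries ℤ :=
  PowerSeries.mk fun n => PowerSeries.coeff n (E4s ^ 3 - E6s ^ 2) / 1728

/-- The series `Δ / q`. -/
def D0s : PowerSeries ℤ := PowerSeries.mk fun n => PowerSeries.coeff (n + 1) Ds

/-- The series `q j(q)`. -/
def j0s : PowerSeries ℤ := E4s ^ 3 * PowerSeries.invOfUnit D0s 1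

/-- The series `q θ^k j(q)`, where `θ = q d/dq`. -/
def jn (k : ℕ) : PowerSeries ℤ :=
  PowerSeries.mk fun m => ((m : ℤ) - 1) ^ k * PowerSeries.coeff m j0s

/-- The derivation `θ = X d/dX`. -/
def thS {R : Type*} [CommRing R] (f : PowerSeries R) : PowerSeries R :=
  PowerSeries.mk fun n => (n : R) * PowerSeries.coeff n f

/-- Integer series seen over a ring `R`. -/
def toS (R : Type*) [CommRing R] : PowerSeries ℤ →+* PowerSeries R :=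
  PowerSeries.map (Int.castRingHom R)

/-- The substitution `f(X) ↦ f(c X ^ k)`. -/
def subM {R : Type*} [CommRing R] (c : R) (k : ℕ) (hk : k ≠ 0) :
    PowerSeries R →+* PowerSeries R :=
  (PowerSeries.expand k hk).toRingHom.comp (PowerSeries.rescale c)

/-! ### Evaluation of power series -/

/-- The series `f` converges at `x` with sum `v`. -/
def HasEv {E : Type*} [NormedField E] (f : PowerSeries E) (x v : E) : Prop :=
  HasSum (fun n => PowerSeries.coeff n f * x ^ n) v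

/-- Products of convergent series converge to the product. -/
def MulOK (E : Type*) [NormedField E] : Prop :=
  ∀ (f g : PowerSeries E) (x v w : E), HasEv f x v → HasEv g x w → HasEv (f * g) x (v * w)

/-- Value of an integer series. -/
def evZ {E : Type*} [NormedField E] (f : PowerSeries ℤ) (x : E) : E :=
  ∑' n, ((PowerSeries.coeff n f : ℤ) : E) * x ^ n

open Classical in
/-- Evaluation at `y` of series with coefficients mapped by `φ`, as a ring hom (when it is one). -/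
def evI {R E : Type*} [CommRing R] [NormedField E] (φ : R →+* E) (y : E) :
    PowerSeries R →+* E :=
  if h : ∃ Φ : PowerSeries R →+* E, ∀ f, HasEv (PowerSeries.map φ f) y (Φ f) then h.choose
  else φ.comp PowerSeries.constantCoeff

/-- `θ^k j` as a function of the parameter `q = x`. -/
def Jn {E : Type*} [NormedField E] (k : ℕ) (x : E) : E := evZ (jn k) x / x

/-- `j` as a function of the parameter `q = x`. -/
def J {E : Type*} [NormedField E] (x : E) : E := Jn 0 x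

/-- Coefficients grow at most exponentially. -/
def Grow {E : Type*} [NormedField E] (f : PowerSeries E) : Prop :=
  ∃ C Λ : ℝ, 0 < Λ ∧ ∀ n, ‖PowerSeries.coeff n f‖ ≤ C * Λ ^ n

/-- The map `ℤ_p → ℂ_p`. -/
def zp (p : ℕ) [Fact p.Prime] : ℤ_[p] →+* ℂ_[p] :=
  (algebraMap ℚ_[p] ℂ_[p]).comp PadicInt.Coe.ringHom

/-- The map `ℚ̄_p → ℂ_p`. -/
def ap (p : ℕ) [Fact p.Prime] : PadicAlgCl p →+* ℂ_[p] := algebraMap (PadicAlgCl p) ℂ_[p]

/-- An isometric ring endomorphism. -/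
def Iso {E : Type*} [NormedField E] (σ : E →+* E) : Prop := ∀ z, ‖σ z‖ = ‖z‖

/-! ### Integer polynomials in one and two variables -/

def ev1 {A : Type*} [CommRing A] (x : A) : ℤ[X] →+* A := eval₂RingHom (Int.castRingHom A) x

def ev2 {A : Type*} [CommRing A] (x y : A) : ℤ[X][Y] →+* A := eval₂RingHom (ev1 x) y

/-- The polynomial `F(x, ·)`. -/
def fib {A : Type*} [CommRing A] (F : ℤ[X][Y]) (x : A) : A[X] := F.map (ev1 x)

/-- Exchange of the two variables. -/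
def sw (F : ℤ[X][Y]) : ℤ[X][Y] := Polynomial.Bivariate.swap F

/-- Derivative in the first variable. -/
def dX (F : ℤ[X][Y]) : ℤ[X][Y] := sw (derivative (sw F))

def toQ : ℤ[X][Y] →+* ℚ[X][Y] := mapRingHom (mapRingHom (Int.castRingHom ℚ))

/-- Irreducible over `ℚ` and depending on both variables. -/
structure Good (F : ℤ[X][Y]) : Prop where
  irr : Irreducible (toQ F)
  degY : 0 < F.natDegree
  degX : 0 < (sw F).natDegree

/-- Homogenisation `b ^ d P(a / b)`. -/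
def hom1 {A : Type*} [CommRing A] (P : ℤ[X]) (d : ℕ) (a b : A) : A :=
  ∑ i ∈ Finset.range (d + 1), ((P.coeff i : ℤ) : A) * a ^ i * b ^ (d - i)

/-- Bihomogenisation `b ^ dx e ^ dy F(a / b, c / e)`. -/
def hom2 {A : Type*} [CommRing A] (F : ℤ[X][Y]) (a b c e : A) : A :=
  ∑ k ∈ Finset.range (F.natDegree + 1),
    hom1 (F.coeff k) (sw F).natDegree a b * c ^ k * e ^ (F.natDegree - k)

/-- Formal speciality: `F(j(X ^ m), j(c X ^ n)) = 0`. -/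
def Sp (k : Type*) [Field k] (F : ℤ[X][Y]) : Prop :=
  ∃ (m n : ℕ) (hm : m ≠ 0) (hn : n ≠ 0) (c : k), c ≠ 0 ∧
    hom2 F (subM 1 m hm (toS k E4s) ^ 3) (subM 1 m hm (toS k Ds))
      (subM c n hn (toS k E4s) ^ 3) (subM c n hn (toS k Ds)) = 0

/-- The leading coefficient in `Y` of `Δ ^ dx F(j, Y)` at `q = X ^ m`. -/
def ell (k : Type*) [Field k] (F : ℤ[X][Y]) (m : ℕ) (hm : m ≠ 0) : PowerSeries k :=
  hom1 F.leadingCoeff (sw F).natDegree (subM 1 m hm (toS k E4s) ^ 3) (subM 1 m hm (toS k Ds))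

/-- `x` is transcendental. -/
def Tr {A : Type*} [CommRing A] (x : A) : Prop := ∀ P : ℤ[X], ev1 x P = 0 → P = 0

/-! ### Jets -/

def pA (F : ℤ[X][Y]) : ℤ[X][Y] := derivative F

def pB (F : ℤ[X][Y]) : ℤ[X][Y] := -dX F

/-- The Hamiltonian derivation `F_Y ∂_X - F_X ∂_Y`. -/
def del (F f : ℤ[X][Y]) : ℤ[X][Y] := pA F * dX f + pB F * derivative f

def pK (F : ℤ[X][Y]) : ℤ[X][Y] := pB F * del F (pA F) - pA F * del F (pB F)

/-- The curvature of the curve in logarithmic coordinates, in terms of the jets of `j`. -/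
def kap {A : Type*} [CommRing A] (F : ℤ[X][Y]) (j1 u1 w1 j2 u2 w2 : A) : A :=
  (u1 * u2) ^ 2 * ev2 j1 j2 (pK F) - ev2 j1 j2 (pA F ^ 2 * pB F) * u2 ^ 2 * w1
    + ev2 j1 j2 (pB F ^ 2 * pA F) * u1 ^ 2 * w2

/-- `θ₁ kap`. -/
def kap1 {A : Type*} [CommRing A] (F : ℤ[X][Y]) (j1 u1 w1 z1 j2 u2 w2 : A) : A :=
  2 * u1 * w1 * u2 ^ 2 * ev2 j1 j2 (pK F) + (u1 * u2) ^ 2 * ev2 j1 j2 (dX (pK F)) * u1
    - ev2 j1 j2 (dX (pA F ^ 2 * pB F)) * u1 * u2 ^ 2 * w1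
    - ev2 j1 j2 (pA F ^ 2 * pB F) * u2 ^ 2 * z1
    + ev2 j1 j2 (dX (pB F ^ 2 * pA F)) * u1 * u1 ^ 2 * w2
    + ev2 j1 j2 (pB F ^ 2 * pA F) * (2 * u1 * w1) * w2

/-- `θ₂ kap`. -/
def kap2 {A : Type*} [CommRing A] (F : ℤ[X][Y]) (j1 u1 w1 j2 u2 w2 z2 : A) : A :=
  2 * u2 * w2 * u1 ^ 2 * ev2 j1 j2 (pK F) + (u1 * u2) ^ 2 * ev2 j1 j2 (derivative (pK F)) * u2
    - ev2 j1 j2 (derivative (pA F ^ 2 * pB F)) * u2 * u2 ^ 2 * w1
    - ev2 j1 j2 (pA F ^ 2 * pB F) * (2 * u2 * w2) * w1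
    + ev2 j1 j2 (derivative (pB F ^ 2 * pA F)) * u2 * u1 ^ 2 * w2
    + ev2 j1 j2 (pB F ^ 2 * pA F) * u1 ^ 2 * z2

/-- The third order differential equation of `j`, denominators cleared. -/
def ode {A : Type*} [CommRing A] (j u w z : A) : A :=
  j ^ 2 * (j - 1728) ^ 2 * (2 * z * u - 3 * w ^ 2) + (j ^ 2 - 1968 * j + 2654208) * u ^ 4

/-- The polynomial that vanishes on the curve when the curve is totally geodesic. -/
def Nq (F : ℤ[X][Y]) : ℤ[X][Y] :=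
  (C X) ^ 2 * (C X - 1728) ^ 2 * Y ^ 2 * (Y - 1728) ^ 2 *
      (pB F ^ 2 * (2 * pA F * del F (del F (pA F)) - 3 * del F (pA F) ^ 2)
        - pA F ^ 2 * (2 * pB F * del F (del F (pB F)) - 3 * del F (pB F) ^ 2))
    + pA F ^ 4 * pB F ^ 2 * ((C X) ^ 2 - 1968 * C X + 2654208) * Y ^ 2 * (Y - 1728) ^ 2
    - pA F ^ 2 * pB F ^ 4 * (Y ^ 2 - 1968 * Y + 2654208) * (C X) ^ 2 * (C X - 1728) ^ 2

/-- `kap` at the point with parameters `x, y`. -/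
def kapJ {E : Type*} [NormedField E] (F : ℤ[X][Y]) (x y : E) : E :=
  kap F (J x) (Jn 1 x) (Jn 2 x) (J y) (Jn 1 y) (Jn 2 y)

def kapJ1 {E : Type*} [NormedField E] (F : ℤ[X][Y]) (x y : E) : E :=
  kap1 F (J x) (Jn 1 x) (Jn 2 x) (Jn 3 x) (J y) (Jn 1 y) (Jn 2 y)

def kapJ2 {E : Type*} [NormedField E] (F : ℤ[X][Y]) (x y : E) : E :=
  kap2 F (J x) (Jn 1 x) (Jn 2 x) (J y) (Jn 1 y) (Jn 2 y) (Jn 3 y)

/-- The coefficients of the tangent field `H = aH θ₁ + bH θ₂` of the curve. -/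
def aH {E : Type*} [NormedField E] (F : ℤ[X][Y]) (x y : E) : E :=
  ev2 (J x) (J y) (pA F) * Jn 1 y

def bH {E : Type*} [NormedField E] (F : ℤ[X][Y]) (x y : E) : E :=
  ev2 (J x) (J y) (pB F) * Jn 1 x

/-- The linear form `(v₁, v₂) ↦ (a / x) v₁ + (b / y) v₂`: the derivative of a function whose
`θ₁`, `θ₂` derivatives are `a`, `b`. -/
def lin2 {E : Type*} [NontriviallyNormedField E] (x y a b : E) : E × E →L[E] E :=
  (a / x) • ContinuousLinearMap.fst E E E + (b / y) • ContinuousLinearMap.snd E E E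

/-! ### Points -/

/-- The punctured bidisc. -/
def Bi (E : Type*) [NormedField E] : Set (E × E) :=
  {P | P.1 ≠ 0 ∧ ‖P.1‖ < 1 ∧ P.2 ≠ 0 ∧ ‖P.2‖ < 1}

/-- The curve in the punctured bidisc. -/
def Crv (E : Type*) [NormedField E] (F : ℤ[X][Y]) : Set (E × E) :=
  {P | P ∈ Bi E ∧ ev2 (J P.1) (J P.2) F = 0}

/-- `z` lies in the division group of `x0`. -/
def InG {E : Type*} [Field E] (x0 z : E) : Prop :=
  ∃ n : ℕ, 0 < n ∧ ∃ k : ℤ, z ^ n = x0 ^ k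

/-- Points of the curve in the isogeny classes of `x0`, `y0`. -/
def Pts {E : Type*} [NormedField E] (F : ℤ[X][Y]) (x0 y0 : E) : Set (E × E) :=
  {P | P ∈ Crv E F ∧ InG x0 P.1 ∧ InG y0 P.2}

/-! ### Hecke correspondences -/

/-- The triples `(a, b, d)` with `a d = N`, `0 ≤ b < d`. -/
def Tri (N : ℕ) : Finset (ℕ × ℕ × ℕ) :=
  (Finset.range (N + 1) ×ˢ Finset.range (N + 1) ×ˢ Finset.range (N + 1)).filter
    fun g => g.1 * g.2.2 = N ∧ g.2.1 < g.2.2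

/-- The primitive triples. -/
def Prim (N : ℕ) : Finset (ℕ × ℕ × ℕ) :=
  (Tri N).filter fun g => Nat.gcd g.1 (Nat.gcd g.2.1 g.2.2) = 1

/-- The point `(a τ + b) / d`. -/
def aff (g : ℕ × ℕ × ℕ) (τ : ℍ) : ℍ := ofComplex (((g.1 : ℂ) * τ + g.2.1) / g.2.2)

def phiC (g : ℕ × ℕ × ℕ) (τ : ℍ) : ℂ :=
  (g.1 : ℂ) ^ 12 * ModularForm.discriminant (aff g τ) / ModularForm.discriminant τ

def psiC (g : ℕ × ℕ × ℕ) (τ : ℍ) : ℂ :=
  (g.1 : ℂ) ^ 12 * ModularForm.E₄ (aff g τ) ^ 3 / ModularForm.discriminant τ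

/-- The parameter `ζ ^ (a b) t ^ (a ^ 2)`. -/
def qg {E : Type*} [Field E] (g : ℕ × ℕ × ℕ) (ζ t : E) : E := ζ ^ (g.1 * g.2.1) * t ^ (g.1 ^ 2)

def phiP {E : Type*} [NormedField E] (N : ℕ) (g : ℕ × ℕ × ℕ) (ζ t : E) : E :=
  (g.1 : E) ^ 12 * evZ Ds (qg g ζ t) / evZ Ds (t ^ N)

def psiP {E : Type*} [NormedField E] (N : ℕ) (g : ℕ × ℕ × ℕ) (ζ t : E) : E :=
  (g.1 : E) ^ 12 * evZ E4s (qg g ζ t) ^ 3 / evZ Ds (t ^ N)

/-- The mixed power sums over `I` are integer polynomials in `j`, both over `ℂ` and over `ℂ_p`. -/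
def PS (p : ℕ) [Fact p.Prime] (N : ℕ) (I : Finset (ℕ × ℕ × ℕ)) : Prop :=
  ∀ k l : ℕ, ∃ P : ℤ[X], P.natDegree ≤ k + l ∧
    (∀ τ : ℍ, ∑ g ∈ I, phiC g τ ^ k * psiC g τ ^ l = ev1 (jf τ) P) ∧
    ∀ ζ t : ℂ_[p], IsPrimitiveRoot ζ N → t ≠ 0 → ‖t‖ < 1 →
      ∑ g ∈ I, phiP N g ζ t ^ k * psiP N g ζ t ^ l = ev1 (J (t ^ N)) P

/-- `Θ(j, y) = n! ∏ (α(y) φ_g + β(y) ψ_g + γ(y))` over the primitive triples. -/
structure LinP (p : ℕ) [Fact p.Prime] (N : ℕ) (α β γ : ℤ[X]) (Θ : ℤ[X][Y]) : Prop where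
  degY : Θ.natDegree ≤ (Prim N).card
  degX : ∀ k, (Θ.coeff k).natDegree ≤ (Prim N).card
  cx : ∀ (τ : ℍ) (y : ℂ), ev2 (jf τ) y Θ = ((Prim N).card.factorial : ℂ) *
    ∏ g ∈ Prim N, (ev1 y α * phiC g τ + ev1 y β * psiC g τ + ev1 y γ)
  pa : ∀ ζ t y : ℂ_[p], IsPrimitiveRoot ζ N → t ≠ 0 → ‖t‖ < 1 →
    ev2 (J (t ^ N)) y Θ = ((Prim N).card.factorial : ℂ_[p]) *
      ∏ g ∈ Prim N, (ev1 y α * phiP N g ζ t + ev1 y β * psiP N g ζ t + ev1 y γ)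

/-- A modular polynomial of level `N`. -/
def ModP (p : ℕ) [Fact p.Prime] (N : ℕ) (Φ : ℤ[X][Y]) : Prop := LinP p N (-X) 1 0 Φ

/-- The polynomial with roots `φ_g + T ψ_g`. -/
def ThP (p : ℕ) [Fact p.Prime] (N : ℕ) (T : ℤ) (Θ : ℤ[X][Y]) : Prop :=
  LinP p N (-1) (-C T) X Θ

/-! ### Double series -/

/-- The coefficients of `x ^ dx y ^ dy F(J x, J y)`. -/
def garr (F : ℤ[X][Y]) (il : ℕ × ℕ) : ℤ :=
  ∑ k ∈ Finset.range (F.natDegree + 1), ∑ i ∈ Finset.range ((sw F).natDegree + 1),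
    (F.coeff k).coeff i *
      PowerSeries.coeff il.1 (j0s ^ i * PowerSeries.X ^ ((sw F).natDegree - i)) *
      PowerSeries.coeff il.2 (j0s ^ k * PowerSeries.X ^ (F.natDegree - k))

def val {E : Type*} [NormedField E] (c : ℕ × ℕ → ℤ) (x y : E) : E :=
  ∑' il : ℕ × ℕ, (c il : E) * x ^ il.1 * y ^ il.2

def th (a b : ℕ) (c : ℕ × ℕ → ℤ) (il : ℕ × ℕ) : ℤ := (il.1 : ℤ) ^ a * (il.2 : ℤ) ^ b * c il

def kapG {E : Type*} [NormedField E] (c : ℕ × ℕ → ℤ) (x y : E) : E :=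
  val (th 2 0 c) x y * val (th 0 1 c) x y ^ 2
    - 2 * val (th 1 1 c) x y * val (th 1 0 c) x y * val (th 0 1 c) x y
    + val (th 0 2 c) x y * val (th 1 0 c) x y ^ 2

/-- The fibre over `X0` of a polynomial over `ℤ_p⟦X⟧`. -/
def fibW {p : ℕ} [Fact p.Prime] (W : (PowerSeries ℤ_[p])[X]) (X0 : ℂ_[p]) : ℂ_[p][X] :=
  W.map (evI (zp p) X0)

/-- Weierstrass data of the double series `c` after the shear `x = X + Y ^ N`, `y = Y`. -/
structure Wei (p : ℕ) [Fact p.Prime] (c : ℕ × ℕ → ℤ) (N : ℕ) (W : (PowerSeries ℤ_[p])[X]) :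
    Prop where
  pos : 0 < N
  monic : W.Monic
  small : ∀ X0 Y0 : ℂ_[p], ‖X0‖ < 1 → (fibW W X0).IsRoot Y0 → ‖Y0‖ < 1
  zero : ∀ X0 Y0 : ℂ_[p], ‖X0‖ < 1 → ‖Y0‖ < 1 →
    (val c (X0 + Y0 ^ N) Y0 = 0 ↔ (fibW W X0).IsRoot Y0)
  div : ∀ c' : ℕ × ℕ → ℤ, ∃ r : (PowerSeries ℤ_[p])[X], ∀ X0 Y0 : ℂ_[p], ‖X0‖ < 1 →
    (fibW W X0).IsRoot Y0 → val c' (X0 + Y0 ^ N) Y0 = (fibW r X0).eval Y0

/-- Over all but finitely many `X0` there is a point of the curve with the property `Q`. -/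
def Cov {p : ℕ} [Fact p.Prime] (N : ℕ) (W : (PowerSeries ℤ_[p])[X])
    (Q : ℂ_[p] × ℂ_[p] → Prop) : Prop :=
  {X0 : ℂ_[p] | ‖X0‖ < 1 ∧ ¬ ∃ Y0, (fibW W X0).IsRoot Y0 ∧ (X0 + Y0 ^ N, Y0) ∈ Bi ℂ_[p] ∧
    Q (X0 + Y0 ^ N, Y0)}.Finite

/-! ### Branches at the cusp -/

structure Br (p : ℕ) [Fact p.Prime] where
  c : PadicAlgCl p
  c2 : PadicAlgCl p
  n : ℕ
  κ : ℕ
  hc : c ≠ 0
  hc2 : c2 ≠ 0
  hn : 0 < n
  hκ : 0 < κ

/-- `y = c t ^ n (1 + c2 t ^ κ + O(t ^ (κ + 1)))`. -/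
def BrPt {p : ℕ} [Fact p.Prime] (β : Br p) (C : ℝ) (t y : ℂ_[p]) : Prop :=
  t ≠ 0 ∧ ‖y - ap p β.c * t ^ β.n * (1 + ap p β.c2 * t ^ β.κ)‖ ≤ C * ‖t‖ ^ (β.n + β.κ + 1)

/-- Every point of the curve near the cusp lies on one of finitely many branches. -/
structure Cusp (p : ℕ) [Fact p.Prime] (F : ℤ[X][Y]) (m L : ℕ) (β : Fin L → Br p) (C r : ℝ) :
    Prop where
  hm : 0 < m
  hr : 0 < r
  hC : 0 ≤ C
  br : ∀ P ∈ Crv ℂ_[p] F, ‖P.1‖ < r → ‖P.2‖ < r → ∀ t, t ^ m = P.1 → ∃ i, BrPt (β i) C t P.2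

/-- The `p`-adic logarithm near `1`. -/
def plog {p : ℕ} [Fact p.Prime] (u : ℂ_[p]) : ℂ_[p] :=
  Filter.limUnder Filter.atTop fun k : ℕ => (u ^ p ^ k - 1) / (p : ℂ_[p]) ^ k

/-- The unit `y / (c t ^ n)`. -/
def uB {p : ℕ} [Fact p.Prime] (β : Br p) (t y : ℂ_[p]) : ℂ_[p] := y / (ap p β.c * t ^ β.n)

/-- Branch points in the classes of `x0`, `y0`. -/
def BP {p : ℕ} [Fact p.Prime] (β : Br p) (C r : ℝ) (x0 y0 : ℂ_[p]) : Set (ℂ_[p] × ℂ_[p]) :=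
  {T | BrPt β C T.1 T.2 ∧ ‖T.1‖ < r ∧ InG x0 T.1 ∧ InG y0 T.2}

/-- The top coefficient of `F`; it vanishes iff the curve passes through `(∞, ∞)`. -/
def top (F : ℤ[X][Y]) : ℤ := (F.coeff F.natDegree).coeff (sw F).natDegree

end Pool.Agent.UAP
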