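import Pool.Agent.Lib.MP_7e5527_ag.Base

open Polynomial UpperHalfPlane
open scoped Polynomial.Bivariate MatrixGroups IntermediateField

noncomputable section

namespace Pool.Agent.UAP

/-- First order Taylor expansion along a line with polynomial direction. -/
private lemma bez_taylor {E : Type} [Field E] (u : Fin 2 → E) (v : Fin 2 → E[X])
    (f : MvPolynomial (Fin 2) E) :
    (MvPolynomial.aeval (fun i => (C (C (u i)) + C (v i) * X : E[X][X])) f).coeff 0
        = C (MvPolynomial.eval u f) ∧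
      (MvPolynomial.aeval (fun i => (C (C (u i)) + C (v i) * X : E[X][X])) f).coeff 1
        = ∑ i, C (MvPolynomial.eval u (MvPolynomial.pderiv i f)) * v i := by
  induction f using MvPolynomial.induction_on with
  | C a =>
    refine ⟨?_, ?_⟩
    · simp [Polynomial.algebraMap_apply]
    · simp [Polynomial.algebraMap_apply]
  | add p q hp hq =>
    refine ⟨?_, ?_⟩
    · simp only [map_add, coeff_add, hp.1, hq.1]
    · simp only [map_add, coeff_add, hp.2, hq.2, add_mul, Finset.sum_add_distrib]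
  | mul_X p n hp =>
    obtain ⟨h0, h1⟩ := hp
    rw [map_mul, MvPolynomial.aeval_X]
    set P := MvPolynomial.aeval (fun i => (C (C (u i)) + C (v i) * X : E[X][X])) p with hP
    have e : P * (C (C (u n)) + C (v n) * X) = P * C (C (u n)) + (P * C (v n)) * X := by ring
    refine ⟨?_, ?_⟩
    · rw [e, coeff_add, coeff_mul_C, coeff_mul_X_zero, h0]
      simp
    · rw [e, coeff_add, coeff_mul_C, coeff_mul_X, coeff_mul_C, h0, h1]
      fin_cases n <;>
        simp [Fin.sum_univ_two, MvPolynomial.pderiv_X, Pi.single_apply] <;> ring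

private lemma bez_key {E : Type} [Field E] (m : ℕ) (g h : MvPolynomial (Fin 2) E) (i : Fin 2)
    (lam : Fin m × Fin m × Fin m → E)
    (hsum : ∑ t, lam t • (g ^ (t.1 : ℕ) * h ^ (t.2.1 : ℕ) * MvPolynomial.X i ^ (t.2.2 : ℕ)) = 0)
    (a0 b0 : Fin m) (hmin : ∀ t, lam t ≠ 0 → (a0 : ℕ) + b0 ≤ t.1 + t.2.1) (u : Fin 2 → E)
    (hg : MvPolynomial.eval u g = 0) (hh : MvPolynomial.eval u h = 0)
    (hJ : MvPolynomial.eval u (MvPolynomial.pderiv 0 g * MvPolynomial.pderiv 1 h
        - MvPolynomial.pderiv 1 g * MvPolynomial.pderiv 0 h) ≠ 0) :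
    ∑ c, lam (a0, b0, c) * u i ^ (c : ℕ) = 0 := by
  set Jc := MvPolynomial.eval u (MvPolynomial.pderiv 0 g * MvPolynomial.pderiv 1 h
        - MvPolynomial.pderiv 1 g * MvPolynomial.pderiv 0 h) with hJc
  set g0 := MvPolynomial.eval u (MvPolynomial.pderiv 0 g) with hg0
  set g1 := MvPolynomial.eval u (MvPolynomial.pderiv 1 g) with hg1
  set h0 := MvPolynomial.eval u (MvPolynomial.pderiv 0 h) with hh0
  set h1 := MvPolynomial.eval u (MvPolynomial.pderiv 1 h) with hh1
  have hJe : Jc = g0 * h1 - g1 * h0 := by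
    rw [hJc, map_sub, map_mul, map_mul]
  let v : Fin 2 → E[X] := ![C h1 - C g1 * X, -C h0 + C g0 * X]
  let φ : MvPolynomial (Fin 2) E →ₐ[E] E[X][X] :=
    MvPolynomial.aeval (fun i => (C (C (u i)) + C (v i) * X : E[X][X]))
  have eg : φ g = X * (φ g).divX := by
    have := X_mul_divX_add (φ g)
    rw [(bez_taylor u v g).1, hg, map_zero, map_zero, add_zero] at this
    exact this.symm
  have eh : φ h = X * (φ h).divX := by
    have := X_mul_divX_add (φ h)
    rw [(bez_taylor u v h).1, hh, map_zero, map_zero, add_zero] at this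
    exact this.symm
  have cg : (φ g).divX.coeff 0 = C Jc := by
    rw [coeff_divX, zero_add, (bez_taylor u v g).2, Fin.sum_univ_two, hJe]
    simp only [v, Matrix.cons_val_zero, Matrix.cons_val_one, map_sub, map_mul, ← hg0, ← hg1]
    ring
  have ch : (φ h).divX.coeff 0 = C Jc * X := by
    rw [coeff_divX, zero_add, (bez_taylor u v h).2, Fin.sum_univ_two, hJe]
    simp only [v, Matrix.cons_val_zero, Matrix.cons_val_one, map_sub, map_mul, ← hh0, ← hh1]
    ring
  have cx : (φ (MvPolynomial.X i)).coeff 0 = C (u i) := by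
    rw [(bez_taylor u v (MvPolynomial.X i)).1, MvPolynomial.eval_X]
  have term : ∀ t : Fin m × Fin m × Fin m,
      ((φ (lam t • (g ^ (t.1 : ℕ) * h ^ (t.2.1 : ℕ) * MvPolynomial.X i ^ (t.2.2 : ℕ)))).coeff
        ((a0 : ℕ) + b0)).coeff b0
        = if t.1 = a0 then (if t.2.1 = b0 then
            Jc ^ ((a0 : ℕ) + b0) * (lam t * u i ^ (t.2.2 : ℕ)) else 0) else 0 := by
    rintro ⟨a, b, c⟩
    by_cases hl : lam (a, b, c) = 0
    · simp [hl]
    have hle := hmin _ hl
    simp only at hle ⊢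
    have e : φ (g ^ (a : ℕ) * h ^ (b : ℕ) * MvPolynomial.X i ^ (c : ℕ))
        = X ^ ((a : ℕ) + b) *
          ((φ g).divX ^ (a : ℕ) * (φ h).divX ^ (b : ℕ) * φ (MvPolynomial.X i) ^ (c : ℕ)) := by
      rw [map_mul, map_mul, map_pow, map_pow, map_pow]
      conv_lhs => rw [eg, eh]
      ring
    rw [map_smul, e, coeff_smul, coeff_smul, coeff_X_pow_mul']
    by_cases hk : (a : ℕ) + b ≤ a0 + b0
    · have hk' : (a : ℕ) + b = a0 + b0 := le_antisymm hk hle
      have pw : ∀ (q : E[X][X]) (n : ℕ), (q ^ n).coeff 0 = q.coeff 0 ^ n := fun q n => by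
        rw [coeff_zero_eq_eval_zero, coeff_zero_eq_eval_zero, eval_pow]
      rw [if_pos hk, hk', Nat.sub_self, mul_coeff_zero, mul_coeff_zero, pw, pw, pw, cg, ch, cx]
      have e2 : (C Jc) ^ (a : ℕ) * (C Jc * X) ^ (b : ℕ) * C (u i) ^ (c : ℕ)
          = C (Jc ^ ((a : ℕ) + b) * u i ^ (c : ℕ)) * (X : E[X]) ^ (b : ℕ) := by
        simp only [map_mul, map_pow]
        ring
      rw [e2, coeff_C_mul, coeff_X_pow, hk']
      by_cases hb : b = b0
      · have ha : a = a0 := by
          apply Fin.ext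
          have : (b : ℕ) = b0 := by rw [hb]
          omega
        simp only [ha, hb, if_true, smul_eq_mul]
        ring
      · have hb' : ¬ (b0 : ℕ) = b := fun hc => hb (Fin.ext hc.symm)
        simp [hb, hb']
    · rw [if_neg hk]
      have : ¬ (a = a0 ∧ b = b0) := by
        rintro ⟨rfl, rfl⟩
        exact hk le_rfl
      by_cases ha : a = a0
      · have hb : ¬ b = b0 := fun hb => this ⟨ha, hb⟩
        simp [hb]
      · simp [ha]
  have key : ((φ (∑ t, lam t • (g ^ (t.1 : ℕ) * h ^ (t.2.1 : ℕ) *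
      MvPolynomial.X i ^ (t.2.2 : ℕ)))).coeff ((a0 : ℕ) + b0)).coeff b0 = 0 := by
    rw [hsum]
    simp
  rw [map_sum, finsetSum_coeff, finsetSum_coeff, Finset.sum_congr rfl fun t _ => term t,
    Fintype.sum_prod_type] at key
  simp only [Finset.sum_ite_irrel, Finset.sum_const_zero, Finset.sum_ite_eq', Finset.mem_univ,
    if_true, Fintype.sum_prod_type] at key
  rw [← Finset.mul_sum] at key
  exact (mul_eq_zero.1 key).resolve_left (pow_ne_zero _ hJ)

private lemma bez_dep {E ι : Type} [Field E] [Fintype ι] (N : ℕ)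
    (p : ι → MvPolynomial (Fin 2) E) (hp : ∀ t, (p t).totalDegree ≤ N)
    (hc : (N + 1) * (N + 1) < Fintype.card ι) :
    ∃ lam : ι → E, lam ≠ 0 ∧ ∑ t, lam t • p t = 0 := by
  classical
  let L : (ι → E) →ₗ[E] (Fin (N + 1) × Fin (N + 1) → E) :=
    LinearMap.pi fun s => (MvPolynomial.lcoeff E
      (Finsupp.single 0 (s.1 : ℕ) + Finsupp.single 1 (s.2 : ℕ))).comp
        (Fintype.linearCombination E p)
  have hker : LinearMap.ker L ≠ ⊥ := by
    apply LinearMap.ker_ne_bot_of_finrank_lt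
    simpa [Module.finrank_fintype_fun_eq_card] using hc
  obtain ⟨lam, hl, hne⟩ := Submodule.exists_mem_ne_zero_of_ne_bot hker
  refine ⟨lam, hne, ?_⟩
  have hdeg : (∑ t, lam t • p t).totalDegree ≤ N := by
    refine MvPolynomial.totalDegree_finsetSum_le fun t _ => ?_
    exact (MvPolynomial.totalDegree_smul_le _ _).trans (hp t)
  ext s
  rw [MvPolynomial.coeff_zero]
  by_contra hs
  have h1 : s.sum (fun _ e => e) ≤ N :=
    (MvPolynomial.le_totalDegree (MvPolynomial.mem_support_iff.2 hs)).trans hdeg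
  rw [Finsupp.sum_fintype _ _ (fun _ => rfl), Fin.sum_univ_two] at h1
  have h2 := congrFun (LinearMap.mem_ker.1 hl) (⟨s 0, by omega⟩, ⟨s 1, by omega⟩)
  have h3 : Finsupp.single 0 (s 0) + Finsupp.single 1 (s 1) = s := by
    ext j
    fin_cases j <;> simp
  simp only [L, LinearMap.pi_apply, LinearMap.comp_apply, MvPolynomial.lcoeff_apply, h3,
    Fintype.linearCombination_apply, Pi.zero_apply] at h2
  exact hs h2

private lemma bez_coord (d : ℕ) {E : Type} [Field E] (g h : MvPolynomial (Fin 2) E)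
    (hg : g.totalDegree ≤ d) (hh : h.totalDegree ≤ d) (i : Fin 2) :
    ∃ S : Finset E, S.card ≤ (2 * d + 1) ^ 2 ∧ ∀ u : Fin 2 → E, MvPolynomial.eval u g = 0 →
      MvPolynomial.eval u h = 0 →
      MvPolynomial.eval u (MvPolynomial.pderiv 0 g * MvPolynomial.pderiv 1 h
        - MvPolynomial.pderiv 1 g * MvPolynomial.pderiv 0 h) ≠ 0 → u i ∈ S := by
  classical
  set e := 2 * d + 1 with he
  obtain ⟨lam, hne, hsum⟩ := bez_dep (ι := Fin (e ^ 2 + 1) × Fin (e ^ 2 + 1) × Fin (e ^ 2 + 1))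
    (e ^ 3) (fun t => g ^ (t.1 : ℕ) * h ^ (t.2.1 : ℕ) * MvPolynomial.X i ^ (t.2.2 : ℕ))
    (fun t => by
      have h1 := (MvPolynomial.totalDegree_pow g t.1).trans
        (Nat.mul_le_mul (Nat.lt_succ_iff.1 t.1.2) hg)
      have h2 := (MvPolynomial.totalDegree_pow h t.2.1).trans
        (Nat.mul_le_mul (Nat.lt_succ_iff.1 t.2.1.2) hh)
      have h3 := (MvPolynomial.totalDegree_pow (MvPolynomial.X i : MvPolynomial (Fin 2) E)
        t.2.2).trans (Nat.mul_le_mul (Nat.lt_succ_iff.1 t.2.2.2) (MvPolynomial.totalDegree_X i).le)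
      have h4 := MvPolynomial.totalDegree_mul (g ^ (t.1 : ℕ) * h ^ (t.2.1 : ℕ))
        (MvPolynomial.X i ^ (t.2.2 : ℕ))
      have h5 := MvPolynomial.totalDegree_mul (g ^ (t.1 : ℕ)) (h ^ (t.2.1 : ℕ))
      have h6 : e ^ 3 = e ^ 2 * d + e ^ 2 * d + e ^ 2 * 1 := by rw [he]; ring
      omega)
    (by
      simp only [Fintype.card_prod, Fintype.card_fin]
      have h1 : 1 ≤ e := by omega
      have h2 : e ^ 3 ≤ e ^ 4 := Nat.pow_le_pow_right h1 (by norm_num)
      have h3 : 1 ≤ e ^ 2 := Nat.one_le_pow _ _ h1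
      have h4 : (e ^ 2 + 1) * ((e ^ 2 + 1) * (e ^ 2 + 1))
          = e ^ 6 + 3 * e ^ 4 + 3 * e ^ 2 + 1 := by ring
      have h5 : (e ^ 3 + 1) * (e ^ 3 + 1) = e ^ 6 + 2 * e ^ 3 + 1 := by ring
      omega)
  have hex : (Finset.univ.filter fun t => lam t ≠ 0).Nonempty := by
    by_contra hc
    apply hne
    funext t
    by_contra ht
    exact hc ⟨t, Finset.mem_filter.2 ⟨Finset.mem_univ _, ht⟩⟩
  obtain ⟨t0, ht0, hmin⟩ := Finset.exists_min_image _ (fun t => (t.1 : ℕ) + t.2.1) hex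
  have hl0 : lam t0 ≠ 0 := (Finset.mem_filter.1 ht0).2
  let Q : E[X] := ∑ c : Fin (e ^ 2 + 1), monomial (c : ℕ) (lam (t0.1, t0.2.1, c))
  have hQ0 : Q ≠ 0 := by
    intro hQ
    have h1 : Q.coeff t0.2.2 = lam t0 := by
      simp only [Q, finsetSum_coeff, coeff_monomial]
      rw [Finset.sum_eq_single t0.2.2]
      · simp
      · intro c _ hc
        rw [if_neg fun hc' => hc (Fin.ext hc')]
      · simp
    rw [hQ, coeff_zero] at h1
    exact hl0 h1.symm
  have hQd : Q.natDegree ≤ e ^ 2 := by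
    refine natDegree_sum_le_of_forall_le _ _ fun c _ => ?_
    exact (natDegree_monomial_le _).trans (Nat.lt_succ_iff.1 c.2)
  refine ⟨Q.roots.toFinset, ?_, fun u h1 h2 h3 => ?_⟩
  · exact (Multiset.toFinset_card_le _).trans ((card_roots' Q).trans hQd)
  · rw [Multiset.mem_toFinset, mem_roots hQ0, IsRoot.def]
    simp only [Q, eval_finsetSum, eval_monomial]
    exact bez_key _ g h i lam hsum t0.1 t0.2.1
      (fun t ht => hmin t (Finset.mem_filter.2 ⟨Finset.mem_univ _, ht⟩)) u h1 h2 h3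

/-- Nondegenerate common zeros of two plane curves of bounded degree. -/
theorem exists_bezout (d : ℕ) : ∃ B : ℕ, ∀ (E : Type) [Field E] (g h : MvPolynomial (Fin 2) E),
    g.totalDegree ≤ d → h.totalDegree ≤ d →
    {u : Fin 2 → E | MvPolynomial.eval u g = 0 ∧ MvPolynomial.eval u h = 0 ∧
      MvPolynomial.eval u (MvPolynomial.pderiv 0 g * MvPolynomial.pderiv 1 h
        - MvPolynomial.pderiv 1 g * MvPolynomial.pderiv 0 h) ≠ 0}.encard ≤ B := by
  classical
  refine ⟨(2 * d + 1) ^ 2 * (2 * d + 1) ^ 2, fun E _ g h hg hh => ?_⟩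
  obtain ⟨S0, c0, h0⟩ := bez_coord d g h hg hh 0
  obtain ⟨S1, c1, h1⟩ := bez_coord d g h hg hh 1
  have hsub : {u : Fin 2 → E | MvPolynomial.eval u g = 0 ∧ MvPolynomial.eval u h = 0 ∧
      MvPolynomial.eval u (MvPolynomial.pderiv 0 g * MvPolynomial.pderiv 1 h
        - MvPolynomial.pderiv 1 g * MvPolynomial.pderiv 0 h) ≠ 0}
      ⊆ ((S0 ×ˢ S1).image fun q : E × E => (![q.1, q.2] : Fin 2 → E) : Finset (Fin 2 → E)) := by
    rintro u ⟨a, b, c⟩
    refine Finset.mem_coe.2 (Finset.mem_image.2 ⟨(u 0, u 1),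
      Finset.mem_product.2 ⟨h0 u a b c, h1 u a b c⟩, ?_⟩)
    funext j
    fin_cases j <;> rfl
  refine (Set.encard_le_encard hsub).trans ?_
  rw [Set.encard_coe_eq_coe_finsetCard]
  exact_mod_cast Finset.card_image_le.trans
    ((Finset.card_product _ _).le.trans (Nat.mul_le_mul c0 c1))

end Pool.Agent.UAP
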