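import Pool.Agent.Lib.MP_7e5527_ag.Gen

open Polynomial UpperHalfPlane
open scoped Polynomial.Bivariate MatrixGroups IntermediateField

noncomputable section

namespace Pool.Agent.UAP

theorem elim_coeff (f : ℂ[X]) {H : ℝ} (h : ∀ z : ℂ, ‖z‖ = 1 → ‖f.eval z‖ ≤ H) (k : ℕ) :
    ‖f.coeff k‖ ≤ H := by
  have : Fact (0 < 2 * Real.pi) := ⟨Real.two_pi_pos⟩
  rw [← fourierCoeff_toAddCircle_natCast, fourierCoeff]
  refine (MeasureTheory.norm_integral_le_of_norm_le_const (C := H)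
    (Filter.Eventually.of_forall fun θ => ?_)).trans (by simp)
  have h1 : f.toAddCircle θ = f.eval (θ.toCircle : ℂ) := by simp [toAddCircle]
  rw [norm_smul, h1, fourier_apply, Circle.norm_coe, one_mul]
  exact h _ (Circle.norm_coe _)

theorem elim_entry {T : Type*} [CommRing T] (Q : T → Prop) (h0 : Q 0) {f g : T[X]}
    (hf : ∀ k, Q (f.coeff k)) (hg : ∀ k, Q (g.coeff k)) (m n : ℕ) (i j : Fin (m + n)) :
    Q (sylvester f g m n i j) := by
  rw [sylvester, Matrix.of_apply]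
  refine Fin.addCases (fun j => ?_) (fun j => ?_) j
  · rw [Fin.addCases_left]
    split_ifs
    exacts [hg _, h0]
  · rw [Fin.addCases_right]
    split_ifs
    exacts [hf _, h0]

theorem elim_ht {f g : ℂ[X]} {u k i j m n : ℕ} (hu : 2 ≤ u) (hk : 1 ≤ k) (hij : i ≤ j)
    (hs : m + n ≤ u ^ i) (hf : ∀ z : ℂ, ‖z‖ = 1 → ‖f.eval z‖ ≤ 2 ^ (k * u ^ j))
    (hg : ∀ z : ℂ, ‖z‖ = 1 → ‖g.eval z‖ ≤ 2 ^ (k * u ^ j)) :
    ‖resultant f g m n‖ ≤ 2 ^ (k * u ^ (i + j + 1)) := by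
  have h1 := Matrix.det_le (A := sylvester f g m n) (abv := NormedField.toAbsoluteValue ℂ)
    (x := 2 ^ (k * u ^ j)) (elim_entry (fun z => ‖z‖ ≤ 2 ^ (k * u ^ j)) (by simp)
      (elim_coeff f hf) (elim_coeff g hg) m n)
  rw [Fintype.card_fin, nsmul_eq_mul] at h1
  refine h1.trans ?_
  clear h1
  generalize m + n = s at hs ⊢
  have h2 : s.factorial ≤ 2 ^ (s * s) := by
    rw [pow_mul]
    exact (Nat.factorial_le_pow s).trans (Nat.pow_le_pow_left Nat.lt_two_pow_self.le s)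
  have h3 : (s.factorial : ℝ) ≤ 2 ^ (s * s) := by exact_mod_cast h2
  refine (mul_le_mul_of_nonneg_right h3 (by positivity)).trans ?_
  rw [← pow_mul, ← pow_add]
  refine pow_le_pow_right₀ one_le_two ?_
  have h4 : s ≤ k * u ^ j := hs.trans ((Nat.pow_le_pow_right (by omega) hij).trans
    (Nat.le_mul_of_pos_left _ hk))
  calc s * s + k * u ^ j * s ≤ k * u ^ j * u ^ i + k * u ^ j * u ^ i := by gcongr
    _ = k * u ^ (i + j) * 2 := by ring
    _ ≤ k * u ^ (i + j) * u := by gcongr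
    _ = k * u ^ (i + j + 1) := by ring

theorem elim_filt {T : Type*} [CommRing T] (Q : ℕ → T → Prop) (h0 : ∀ d, Q d 0) (h1 : Q 0 1)
    (ha : ∀ d a b, Q d a → Q d b → Q d (a + b)) (hn : ∀ d a, Q d a → Q d (-a))
    (hm : ∀ d e a b, Q d a → Q e b → Q (d + e) (a * b)) {f g : T[X]} {d : ℕ}
    (hf : ∀ k, Q d (f.coeff k)) (hg : ∀ k, Q d (g.coeff k)) (m n : ℕ) :
    Q ((m + n) * d) (resultant f g m n) := by
  have hp : ∀ (s : Finset (Fin (m + n))) (w : Fin (m + n) → T), (∀ i, Q d (w i)) →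
      Q (s.card * d) (∏ i ∈ s, w i) := by
    intro s w hw
    induction s using Finset.induction_on with
    | empty => simpa using h1
    | insert a s h ih =>
      rw [Finset.prod_insert h, Finset.card_insert_of_notMem h, add_mul, one_mul, add_comm]
      exact hm _ _ _ _ (hw a) ih
  rw [resultant, Matrix.det_apply]
  refine Finset.sum_induction _ _ (ha _) (h0 _) fun σ _ => ?_
  have := hp Finset.univ _ fun i => elim_entry (Q d) (h0 d) hf hg m n (σ i) i
  rw [Finset.card_univ, Fintype.card_fin] at this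
  rcases Int.units_eq_one_or (Equiv.Perm.sign σ) with h | h <;> rw [h]
  · rwa [one_smul]
  · rw [Units.neg_smul, one_smul]
    exact hn _ _ this

theorem elim_deg1 {f g : ℤ[X][X]} {d : ℕ} (hf : ∀ k, (f.coeff k).natDegree ≤ d)
    (hg : ∀ k, (g.coeff k).natDegree ≤ d) (m n : ℕ) :
    (resultant f g m n).natDegree ≤ (m + n) * d :=
  elim_filt (fun d (a : ℤ[X]) => a.natDegree ≤ d) (by simp) (by simp)
    (fun _ _ _ => natDegree_add_le_of_degree_le) (fun _ _ h => by rwa [natDegree_neg])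
    (fun _ _ _ _ => natDegree_mul_le_of_le) hf hg m n

/-- bidegree at most `d` -/
def ElimDg (d : ℕ) (a : ℤ[X][Y]) : Prop := a.natDegree ≤ d ∧ ∀ k, (a.coeff k).natDegree ≤ d

theorem elim_deg2 {f g : ℤ[X][Y][X]} {d : ℕ} (hf : ∀ k, ElimDg d (f.coeff k))
    (hg : ∀ k, ElimDg d (g.coeff k)) (m n : ℕ) {e : ℕ} (he : (m + n) * d ≤ e) :
    ElimDg e (resultant f g m n) := by
  have := elim_filt ElimDg (by simp [ElimDg]) ⟨by simp, fun k => by
      rw [coeff_one]; split_ifs <;> simp⟩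
    (fun _ _ _ h h' => ⟨natDegree_add_le_of_degree_le h.1 h'.1, fun k => by
      rw [coeff_add]; exact natDegree_add_le_of_degree_le (h.2 k) (h'.2 k)⟩)
    (fun _ _ h => ⟨by rw [natDegree_neg]; exact h.1, fun k => by
      rw [coeff_neg, natDegree_neg]; exact h.2 k⟩)
    (fun _ _ _ _ h h' => ⟨natDegree_mul_le_of_le h.1 h'.1, fun k => by
      rw [coeff_mul]
      exact natDegree_sum_le_of_forall_le _ _ fun c _ => natDegree_mul_le_of_le (h.2 _) (h'.2 _)⟩)
    hf hg m n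
  exact ⟨this.1.trans he, fun k => (this.2 k).trans he⟩

theorem elim_dgC {P : ℤ[X][Y]} {d : ℕ} (h : ∀ k, (P.coeff k).natDegree ≤ d) (k : ℕ) :
    ElimDg d ((P.map C).coeff k) := by
  rw [coeff_map]
  refine ⟨by simp, fun j => ?_⟩
  rw [coeff_C]
  split_ifs
  exacts [h k, by simp]

theorem elim_dgM {P : ℤ[X][Y]} {d : ℕ} (h : ∀ k, (P.coeff k).natDegree ≤ d) (k : ℕ) :
    ElimDg d ((P.map (mapRingHom C)).coeff k) := by
  rw [coeff_map, coe_mapRingHom]
  exact ⟨natDegree_map_le.trans (h k), fun j => by rw [coeff_map]; simp⟩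

theorem elim_evC {A : Type*} [CommRing A] (x y : A) (P : ℤ[X][Y]) :
    (P.map C).map (ev2 x y) = fib P x := by
  rw [Polynomial.map_map, fib]
  congr 1
  exact RingHom.ext fun a => ev2_C x y a

theorem elim_evM {A : Type*} [CommRing A] (x y : A) (P : ℤ[X][Y]) :
    (P.map (mapRingHom C)).map (ev2 x y) = fib P y := by
  rw [Polynomial.map_map, fib]
  congr 1
  refine Polynomial.ringHom_ext' (RingHom.ext_int _ _) ?_
  simp [ev1, ev2]

theorem elim_zero {E : Type*} [Field E] {f g : E[X]} {m n : ℕ} (hf : f.natDegree ≤ m)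
    (hg : g.natDegree ≤ n) (hm : 0 < m) {z : E} (h1 : f.eval z = 0) (h2 : g.eval z = 0) :
    resultant f g m n = 0 := by
  obtain ⟨a, b, -, -, h⟩ := exists_mul_add_mul_eq_C_resultant f g hf hg (Or.inl hm.ne')
  have := congrArg (eval z) h
  simpa [h1, h2] using this.symm

theorem elim_root {E : Type*} [Field E] [IsAlgClosed E] {F : ℤ[X][Y]} {x : E}
    (hx : ev1 x F.leadingCoeff ≠ 0) {g : E[X]} {n : ℕ} (hg : g.natDegree ≤ n)
    (h : resultant (fib F x) g F.natDegree n = 0) : ∃ z, ev2 x z F = 0 ∧ g.eval z = 0 := by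
  have h1 : (fib F x).natDegree = F.natDegree := natDegree_map_of_leadingCoeff_ne_zero _ hx
  have h2 : (fib F x).leadingCoeff = ev1 x F.leadingCoeff :=
    leadingCoeff_map_of_leadingCoeff_ne_zero _ hx
  rw [← h1, resultant_eq_prod_eval _ _ _ hg (IsAlgClosed.splits _), h2] at h
  have h3 := (mul_eq_zero.1 h).resolve_left (pow_ne_zero _ hx)
  obtain ⟨z, hz, h4⟩ := Multiset.mem_map.1 (Multiset.prod_eq_zero_iff.1 h3)
  exact ⟨z, (eval_fib F x z).symm.trans (isRoot_of_mem_roots hz), h4⟩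

theorem elim_bound (F : ℤ[X][Y]) :
    ∃ a : ℕ, ∀ x y : ℂ, ‖x‖ = 1 → ‖y‖ = 1 → ‖ev2 x y F‖ ≤ 2 ^ a := by
  obtain ⟨a, ha⟩ := pow_unbounded_of_one_lt (∑ k ∈ Finset.range (F.natDegree + 1),
    ∑ i ∈ Finset.range ((sw F).natDegree + 1), ‖(((F.coeff k).coeff i : ℤ) : ℂ)‖) one_lt_two
  refine ⟨a, fun x y hx hy => le_trans ?_ ha.le⟩
  rw [ev2_eq_sum]
  refine norm_sum_le_of_le _ fun k _ => norm_sum_le_of_le _ fun i _ => ?_
  rw [norm_mul, norm_mul, norm_pow, norm_pow, hx, hy, one_pow, one_pow, mul_one, mul_one]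

theorem elim_pow (n : ℕ) {D : ℕ} (hD : 1 ≤ D) : n + D + 1 ≤ (n + 2) ^ D := by
  induction D, hD using Nat.le_induction with
  | base => simp
  | succ D hD ih => rw [pow_succ]; nlinarith

/-- Elimination of three variables, with bounds for degree and height. -/
theorem exists_elim (p : ℕ) [Fact p.Prime] {F : ℤ[X][Y]} (hF : 0 < F.natDegree) :
    ∃ c : ℕ, ∀ (Φ1 Φ2 : ℤ[X][Y]) (n h : ℕ), 0 < Φ1.natDegree → 0 < Φ2.natDegree →
      Φ1.natDegree ≤ n → Φ2.natDegree ≤ n → (∀ k, (Φ1.coeff k).natDegree ≤ n) →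
      (∀ k, (Φ2.coeff k).natDegree ≤ n) →
      (∃ c1 : ℤ, c1 ≠ 0 ∧ Φ1.leadingCoeff = C c1) → (∃ c2 : ℤ, c2 ≠ 0 ∧ Φ2.leadingCoeff = C c2) →
      (∀ x y : ℂ, ‖x‖ = 1 → ‖y‖ = 1 → ‖ev2 x y Φ1‖ ≤ 2 ^ h) →
      (∀ x y : ℂ, ‖x‖ = 1 → ‖y‖ = 1 → ‖ev2 x y Φ2‖ ≤ 2 ^ h) →
      ∃ R : ℤ[X], R.natDegree ≤ (n + 2) ^ c ∧ (∀ i, |R.coeff i| ≤ 2 ^ ((h + 1) * (n + 2) ^ c)) ∧
        (∀ α β α2 β2 : ℂ_[p], ev2 α β F = 0 → ev2 α α2 Φ1 = 0 → ev2 β β2 Φ2 = 0 →
          ev2 α2 β2 F = 0 → ev1 α R = 0) ∧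
        ∀ α : ℂ_[p], Tr α → ev1 α R = 0 → ∃ β α2 β2 : ℂ_[p], ev2 α β F = 0 ∧ ev2 α α2 Φ1 = 0 ∧
          ev2 β β2 Φ2 = 0 ∧ ev2 α2 β2 F = 0 := by
  obtain ⟨a, ha⟩ := elim_bound F
  set D := F.natDegree + (sw F).natDegree + a with hD
  refine ⟨D * 14, ?_⟩
  rintro Φ1 Φ2 n h p1 p2 d1 d2 e1 e2 ⟨c1, hc1, l1⟩ ⟨c2, hc2, l2⟩ b1 b2
  have hu := elim_pow n (D := D) (by omega)
  rw [pow_mul]
  generalize (n + 2) ^ D = u at hu
  have hu2 : 2 ≤ u := by omega
  have hp : ∀ i j, i ≤ j → u ^ i ≤ u ^ j := fun i j => Nat.pow_le_pow_right (by omega)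
  have hq : ∀ i, 1 ≤ i → u + u ^ i ≤ u ^ (i + 1) := fun i hi => by
    have := hp 1 i hi
    rw [pow_one] at this
    rw [pow_succ]; nlinarith
  have hb : ∀ {b j : ℕ}, b ≤ h + u → 1 ≤ j → (2 : ℝ) ^ b ≤ 2 ^ ((h + 1) * u ^ j) := by
    intro b j h1 h2
    refine pow_le_pow_right₀ one_le_two ?_
    have := hp 1 j h2
    rw [pow_one] at this
    nlinarith
  have u2 : u ≤ u ^ 2 := by simpa using hp 1 2 (by norm_num)
  have u5 : u ≤ u ^ 5 := by simpa using hp 1 5 (by norm_num)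
  set A := resultant (Φ1.map C) ((sw F).map (mapRingHom C)) Φ1.natDegree (sw F).natDegree with hA
  set B := resultant (Φ2.map (mapRingHom C)) (A.map C) Φ2.natDegree (u ^ 2) with hB
  have dA : ElimDg (u ^ 2) A := elim_deg2 (d := u) (elim_dgC fun k => (e1 k).trans (by omega))
    (elim_dgM fun k => (natDegree_coeff_le _ k).trans (by rw [sw_sw]; omega)) _ _
    (by rw [sq]; gcongr; omega)
  have sB : Φ2.natDegree + u ^ 2 ≤ u ^ 3 := le_trans (by omega) (hq 2 (by norm_num))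
  have sR : F.natDegree + u ^ 5 ≤ u ^ 6 := le_trans (by omega) (hq 5 (by norm_num))
  have dB : ElimDg (u ^ 5) B := elim_deg2 (d := u ^ 2)
    (elim_dgM fun k => (e2 k).trans (by omega)) (elim_dgC dA.2) _ _
    (by rw [show u ^ 5 = u ^ 3 * u ^ 2 by ring]; gcongr)
  have vA : ∀ {E : Type} [CommRing E] (x y : E), ev2 x y A =
      resultant (fib Φ1 x) (fib (sw F) y) Φ1.natDegree (sw F).natDegree := fun x y => by
    rw [hA, ← resultant_map_map, elim_evC, elim_evM]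
  have vB : ∀ {E : Type} [CommRing E] (x y : E), ev2 x y B =
      resultant (fib Φ2 y) (fib A x) Φ2.natDegree (u ^ 2) := fun x y => by
    rw [hB, ← resultant_map_map, elim_evC, elim_evM]
  have vR : ∀ {E : Type} [CommRing E] (x : E), ev1 x (resultant F B F.natDegree (u ^ 5)) =
      resultant (fib F x) (fib B x) F.natDegree (u ^ 5) := fun x => by
    rw [← resultant_map_map]; rfl
  refine ⟨resultant F B F.natDegree (u ^ 5), ?_, fun i => ?_, ?_, ?_⟩
  · refine (elim_deg1 (d := u ^ 5) (fun k => (natDegree_coeff_le F k).trans (by omega)) dB.2 _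
      _).trans (le_trans ?_ (hp 11 14 (by norm_num)))
    rw [show u ^ 11 = u ^ 6 * u ^ 5 by ring]; gcongr
  · have tA : ∀ x y : ℂ, ‖x‖ = 1 → ‖y‖ = 1 → ‖ev2 x y A‖ ≤ 2 ^ ((h + 1) * u ^ (1 + 1 + 1)) := by
      intro x y hx hy
      rw [vA]
      refine elim_ht hu2 (by omega) le_rfl (by rw [pow_one]; omega) (fun z hz => ?_) fun z hz => ?_
      · rw [eval_fib]; exact (b1 x z hx hz).trans (hb (by omega) le_rfl)
      · rw [eval_fib, ev2_sw]; exact (ha z y hz hy).trans (hb (by omega) le_rfl)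
    have tB : ∀ x y : ℂ, ‖x‖ = 1 → ‖y‖ = 1 → ‖ev2 x y B‖ ≤ 2 ^ ((h + 1) * u ^ (3 + 3 + 1)) := by
      intro x y hx hy
      rw [vB]
      refine elim_ht hu2 (by omega) le_rfl sB (fun z hz => ?_) fun z hz => ?_
      · rw [eval_fib]; exact (b2 y z hy hz).trans (hb (by omega) (by norm_num))
      · rw [eval_fib]; exact tA x z hx hz
    have tR := elim_coeff ((resultant F B F.natDegree (u ^ 5)).map (Int.castRingHom ℂ))
      (H := 2 ^ ((h + 1) * u ^ (6 + 7 + 1))) (fun x hx => by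
        rw [eval_map]
        refine (congrArg norm (vR x)).trans_le ?_
        refine elim_ht hu2 (by omega) (by norm_num) sR (fun z hz => ?_) fun z hz => ?_
        · rw [eval_fib]; exact (ha x z hx hz).trans (hb (by omega) (by norm_num))
        · rw [eval_fib]; exact tB x z hx hz) i
    rw [coeff_map, eq_intCast, Complex.norm_intCast] at tR
    exact_mod_cast tR
  · intro α β α2 β2 h1 h2 h3 h4
    have h5 : ev2 α β2 A = 0 := by
      rw [vA]
      exact elim_zero natDegree_map_le natDegree_map_le p1 ((eval_fib _ _ _).trans h2)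
        ((eval_fib _ _ _).trans ((ev2_sw _ _ _).trans h4))
    have h6 : ev2 α β B = 0 := by
      rw [vB]
      exact elim_zero natDegree_map_le (natDegree_map_le.trans dA.1) p2
        ((eval_fib _ _ _).trans h3) ((eval_fib _ _ _).trans h5)
    rw [vR]
    exact elim_zero natDegree_map_le (natDegree_map_le.trans dB.1) hF
      ((eval_fib _ _ _).trans h1) ((eval_fib _ _ _).trans h6)
  · intro α hα h1
    rw [vR] at h1
    obtain ⟨β, h2, h3⟩ := elim_root (g := fib B α) (fun h2 => (leadingCoeff_ne_zero.2 (by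
      rintro rfl; simp at hF)) (hα _ h2)) (natDegree_map_le.trans dB.1) h1
    rw [eval_fib, vB] at h3
    obtain ⟨β2, h4, h5⟩ := elim_root (g := fib A α) (by simpa [l2, ev1] using hc2)
      (natDegree_map_le.trans dA.1) h3
    rw [eval_fib, vA] at h5
    obtain ⟨α2, h6, h7⟩ := elim_root (g := fib (sw F) β2) (by simpa [l1, ev1] using hc1)
      natDegree_map_le h5
    rw [eval_fib, ev2_sw] at h7
    exact ⟨β, α2, β2, h2, h6, h4, h7⟩

end Pool.Agent.UAP
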