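import Pool.Agent.Lib.MP_7e5527_ag.Gf
import Pool.Agent.Lib.MP_7e5527_ag.Elim
import Pool.Agent.Lib.MP_7e5527_ag.Arch

open Polynomial UpperHalfPlane
open scoped Polynomial.Bivariate MatrixGroups IntermediateField

noncomputable section

namespace Pool.Agent.UAP

private theorem height_level {p : ℕ} [Fact p.Prime] {x x' : ℂ_[p]} (hx0 : x ≠ 0) (hx : ‖x‖ < 1)
    {n n' : ℕ} (hn : 0 < n) (hn' : 0 < n') (h : x' ^ n = x ^ n') :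
    ∃ (N : ℕ) (Φ : ℤ[X][Y]), 0 < N ∧ N ≤ n * n' ∧ ModP p N Φ ∧ ev2 (J x) (J x') Φ = 0 ∧
      ∀ N0 : ℕ, N0 * n < n' → N0 < N := by
  obtain ⟨N, ζ, t, g, hN, hle, hζ, ht, hg, hx', hrel⟩ := exists_level hx0 hn hn' h
  obtain ⟨Φ, hΦ⟩ := exists_modP p hN
  have ht0 : t ≠ 0 := by
    rintro rfl
    rw [zero_pow hN.ne'] at ht
    exact hx0 ht.symm
  have ht1 : ‖t‖ < 1 := by
    rw [← ht, norm_pow] at hx
    exact lt_of_pow_lt_pow_left₀ N zero_le_one (by rwa [one_pow])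
  refine ⟨N, Φ, hN, hle, hΦ, ?_, ?_⟩
  · rw [← ht]
    exact (hΦ.root_pa hN hζ ht0 ht1 _).2 ⟨g, hg, by rw [hx']⟩
  · intro N0 h0
    obtain ⟨h1, h2, -⟩ := (mem_Prim hN).1 hg
    have hd : 0 < g.2.2 := by omega
    have h3 : n' ≤ g.1 * n := by
      rw [hrel]
      exact Nat.le_mul_of_pos_left _ hd
    have h4 : N0 < g.1 := Nat.lt_of_mul_lt_mul_right (lt_of_lt_of_le h0 h3)
    have h5 : g.1 ≤ N := by
      rw [← h1]
      exact Nat.le_mul_of_pos_right _ hd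
    omega

/-- A point with a Hecke partner of large level on the curve is algebraic of bounded degree and
height. -/
theorem Good.height {F : ℤ[X][Y]} (hF : Good F) (p : ℕ) [Fact p.Prime]
    (hS : ¬ Sp (PadicAlgCl p) F) (ht : top F = 0) :
    ∃ N0 c : ℕ, ∀ P1 ∈ Crv ℂ_[p] F, ∀ P2 ∈ Crv ℂ_[p] F, ∀ S n n' k k' : ℕ, 0 < n → 0 < k →
      0 < k' → P2.1 ^ n = P1.1 ^ n' → N0 * n < n' → n * n' ≤ S → P2.2 ^ k = P1.2 ^ k' →
      k * k' ≤ S → ∃ R : ℤ[X], R ≠ 0 ∧ ev1 (J P1.1) R = 0 ∧ R.natDegree ≤ (S + 2) ^ c ∧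
        ∀ i, |R.coeff i| ≤ 2 ^ (S + 2) ^ c := by
  obtain ⟨N0, hN0⟩ := hF.generic_finite p hS ht
  obtain ⟨c0, hc0⟩ := exists_elim p hF.degY
  obtain ⟨C, hC⟩ := exists_modP_torus
  refine ⟨N0, C + 1 + 4 + 2 * c0, ?_⟩
  intro P1 hP1 P2 hP2 S n n' k k' hn hk hk' h1 hlt hS1 h2 hS2
  have hn' : 0 < n' := by omega
  obtain ⟨N, Φ1, hN, hle, hΦ1, hz1, hbig⟩ := height_level hP1.1.1 hP1.1.2.1 hn hn' h1
  obtain ⟨N', Φ2, hN', hle', hΦ2, hz2, -⟩ := height_level hP1.1.2.2.1 hP1.1.2.2.2 hk hk' h2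
  have hNS : N ≤ S := hle.trans hS1
  have hNS' : N' ≤ S := hle'.trans hS2
  have hc1 : (Prim N).card ≤ S ^ 2 := (card_Prim_le hN).trans (Nat.pow_le_pow_left hNS 2)
  have hc2 : (Prim N').card ≤ S ^ 2 := (card_Prim_le hN').trans (Nat.pow_le_pow_left hNS' 2)
  have htor : ∀ {M : ℕ}, M ≤ S → (2 : ℝ) ^ (C * M ^ 4) ≤ 2 ^ (C * S ^ 4) := fun hM =>
    pow_le_pow_right₀ one_le_two (Nat.mul_le_mul_left _ (Nat.pow_le_pow_left hM 4))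
  obtain ⟨R, hdeg, hcoef, hvan, hgen⟩ := hc0 Φ1 Φ2 (S ^ 2) (C * S ^ 4)
    (by rw [(hΦ1.lead hN).1]; exact card_Prim_pos hN)
    (by rw [(hΦ2.lead hN').1]; exact card_Prim_pos hN')
    (hΦ1.degY.trans hc1) (hΦ2.degY.trans hc2)
    (fun i => (hΦ1.degX i).trans hc1) (fun i => (hΦ2.degX i).trans hc2)
    (hΦ1.lead hN).2 (hΦ2.lead hN').2
    (fun x y hx hy => (hC p N hN Φ1 hΦ1 x y hx hy).trans (htor hNS))
    (fun x y hx hy => (hC p N' hN' Φ2 hΦ2 x y hx hy).trans (htor hNS'))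
  have e1 : (S ^ 2 + 2) ^ c0 ≤ (S + 2) ^ (2 * c0) := by
    rw [pow_mul]
    exact Nat.pow_le_pow_left (by nlinarith) _
  have e2 : C * S ^ 4 + 1 ≤ (S + 2) ^ (C + 1 + 4) := by
    have a1 : C + 1 ≤ (S + 2) ^ (C + 1) :=
      (Nat.lt_two_pow_self).le.trans (Nat.pow_le_pow_left (by omega) _)
    have a2 : S ^ 4 ≤ (S + 2) ^ 4 := Nat.pow_le_pow_left (by omega) _
    have a3 : 1 ≤ (S + 2) ^ 4 := Nat.one_le_pow _ _ (by omega)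
    calc C * S ^ 4 + 1 ≤ C * (S + 2) ^ 4 + (S + 2) ^ 4 :=
          Nat.add_le_add (Nat.mul_le_mul_left _ a2) a3
      _ = (C + 1) * (S + 2) ^ 4 := by ring
      _ ≤ (S + 2) ^ (C + 1) * (S + 2) ^ 4 := Nat.mul_le_mul_right _ a1
      _ = (S + 2) ^ (C + 1 + 4) := (pow_add _ _ _).symm
  have e3 : (C * S ^ 4 + 1) * (S ^ 2 + 2) ^ c0 ≤ (S + 2) ^ (C + 1 + 4 + 2 * c0) := by
    rw [pow_add _ (C + 1 + 4)]
    exact Nat.mul_le_mul e2 e1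
  refine ⟨R, ?_, hvan _ _ _ _ hP1.2 hz1 hz2 hP2.2, ?_, fun i => ?_⟩
  · rintro rfl
    obtain ⟨α, hα, hno⟩ := hN0 N N' Φ1 Φ2 (hbig N0 hlt) hN' hΦ1 hΦ2
    exact hno (hgen α hα (map_zero _))
  · exact hdeg.trans ((Nat.le_mul_of_pos_left _ (Nat.succ_pos _)).trans e3)
  · exact (hcoef i).trans (pow_le_pow_right₀ one_le_two e3)

end Pool.Agent.UAP
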