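import Pool.Agent.Lib.MP_7e5527_ag.Gen
import Pool.Agent.Lib.MP_7e5527_ag.Ev

open Polynomial UpperHalfPlane
open scoped Polynomial.Bivariate MatrixGroups IntermediateField

noncomputable section

namespace Pool.Agent.UAP

/-- An embedding of the relative algebraic closure with a prescribed value. -/
theorem exists_algHom_conj (k E E' : Type*) [Field k] [Field E] [Field E'] [Algebra k E]
    [Algebra k E'] [IsAlgClosed E'] (z : algebraicClosure k E) (z' : E')
    (h : aeval z' (minpoly k (z : E)) = 0) :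
    ∃ σ : algebraicClosure k E →ₐ[k] E', σ z = z' := by
  rw [← IntermediateField.minpoly_eq] at h
  exact IntermediateField.exists_algHom_of_splits_of_aeval
    (fun x => ⟨Algebra.IsIntegral.isIntegral x, IsAlgClosed.splits _⟩) h

/-- Two roots of `F(α, ·)`, `α` transcendental, are conjugate over `ℚ(α)`. -/
theorem Good.move {F : ℤ[X][Y]} (hF : Good F) {E : Type*} [Field E] [CharZero E] [IsAlgClosed E]
    {α β β' : E} (hα : Tr α) (h : ev2 α β F = 0) (h' : ev2 α β' F = 0) :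
    ∃ (L : Subfield E) (σ : L →+* E) (hαL : α ∈ L) (hβL : β ∈ L),
      σ ⟨α, hαL⟩ = α ∧ σ ⟨β, hβL⟩ = β' ∧
      ∀ (Q : ℤ[X][Y]) (a z : E), a ∈ L → fib Q a ≠ 0 → ev2 a z Q = 0 → z ∈ L := by
  let _ : Algebra ℤ[X] E := (ev1 α).toAlgebra
  have hinj : Function.Injective (algebraMap ℤ[X] E) := (injective_iff_map_eq_zero _).2 hα
  let _ : Algebra (FractionRing ℤ[X]) E := (IsFractionRing.lift hinj).toAlgebra
  have tower : IsScalarTower ℤ[X] (FractionRing ℤ[X]) E :=
    IsScalarTower.of_algebraMap_eq fun a => (IsFractionRing.lift_algebraMap hinj a).symm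
  have hev : ∀ (y : E) (Q : ℤ[X][Y]), aeval y Q = ev2 α y Q := fun _ _ => rfl
  have hX : algebraMap (FractionRing ℤ[X]) E (algebraMap ℤ[X] _ X) = α := by
    rw [← IsScalarTower.algebraMap_apply]
    exact eval₂_X _ _
  have hcl : ∀ (Q : ℤ[X][Y]) (a z : E), a ∈ algebraicClosure (FractionRing ℤ[X]) E →
      fib Q a ≠ 0 → ev2 a z Q = 0 → z ∈ algebraicClosure (FractionRing ℤ[X]) E := by
    intro Q a z ha h1 h2
    set L := algebraicClosure (FractionRing ℤ[X]) E
    have h3 : (fib Q (⟨a, ha⟩ : L)).map (algebraMap L E) = fib Q a := by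
      rw [fib, Polynomial.map_map, fib]
      congr 1
      exact RingHom.ext fun P => map_ev1 (algebraMap L E) ⟨a, ha⟩ P
    have h4 : IsAlgebraic L z := ⟨fib Q (⟨a, ha⟩ : L), fun h5 => h1 (by
      rw [← h3, h5, Polynomial.map_zero]), by rw [← eval_map_algebraMap, h3, eval_fib, h2]⟩
    exact mem_algebraicClosure_iff'.2 (isIntegral_trans z h4.isIntegral)
  have hαL : α ∈ algebraicClosure (FractionRing ℤ[X]) E := hX ▸ algebraMap_mem _ _
  have hβL := hcl F α β hαL (hF.fib_ne_zero α) h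
  have h1 : aeval β' (minpoly (FractionRing ℤ[X]) β) = 0 := by
    obtain ⟨b, hb, h2⟩ := IsLocalization.integerNormalization_spec (nonZeroDivisors ℤ[X])
      (minpoly (FractionRing ℤ[X]) β)
    have h3 := IsLocalization.integerNormalization_aeval_eq_zero (nonZeroDivisors ℤ[X])
      (minpoly (FractionRing ℤ[X]) β) (minpoly.aeval _ β)
    have h4 := ev2_eq_zero_of_dvd (hF.dvd_of_tr _ hα h h3) h'
    rw [← hev, ← aeval_map_algebraMap (FractionRing ℤ[X]), h2, ← algebraMap_smul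
      (FractionRing ℤ[X]), map_smul, smul_eq_zero] at h4
    exact h4.resolve_left ((map_ne_zero_iff _ (IsFractionRing.injective _ _)).2
      (nonZeroDivisors.ne_zero hb))
  obtain ⟨σ, hσ⟩ := exists_algHom_conj (FractionRing ℤ[X]) E E ⟨β, hβL⟩ β' h1
  refine ⟨(algebraicClosure (FractionRing ℤ[X]) E).toSubfield, σ.toRingHom, hαL, hβL, ?_, hσ, hcl⟩
  exact (congrArg σ (Subtype.ext hX.symm)).trans ((σ.commutes _).trans hX)

theorem conj_prod (s : Multiset ℂ) {H : ℝ} (hH : 0 ≤ H) (h : ∀ z ∈ s, ‖z‖ ≤ H) :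
    ‖s.prod‖ ≤ H ^ s.card := by
  induction s using Multiset.induction_on with
  | empty => simp
  | cons a s ih =>
    rw [Multiset.prod_cons, Multiset.card_cons, norm_mul, pow_succ']
    exact mul_le_mul (h a (Multiset.mem_cons_self _ _))
      (ih fun z hz => h z (Multiset.mem_cons_of_mem hz)) (norm_nonneg _) hH

theorem conj_int {E : Type*} [NormedField E] [IsUltrametricDist E] [i : Algebra ℤ E] {z : E}
    (hz : IsIntegral ℤ z) : ‖z‖ ≤ 1 := by
  obtain rfl : i = Ring.toIntAlgebra E := Subsingleton.elim _ _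
  exact (Valuation.integer.integers (NormedField.valuation (K := E))).mem_of_integral hz.tower_top

/-- The product formula. -/
theorem product_formula {p : ℕ} [Fact p.Prime] {b : ℂ_[p]} (hb : IsIntegral ℤ b) (hb0 : b ≠ 0)
    {D : ℕ} (hD : (minpoly ℚ b).natDegree ≤ D) {H : ℝ} (hH : 1 ≤ H)
    (h : ∀ z : ℂ, aeval z (minpoly ℚ b) = 0 → ‖z‖ ≤ H) : 1 ≤ ‖b‖ * H ^ D := by
  have hm := minpoly.isIntegrallyClosed_eq_field_fractions' ℚ hb
  have hmon := minpoly.monic hb
  have h0 : (minpoly ℤ b).coeff 0 ≠ 0 := fun h1 =>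
    minpoly.coeff_zero_ne_zero (A := ℚ) hb.tower_top hb0 (by rw [hm, coeff_map, h1, map_zero])
  rw [hm] at hD h
  have hb1 := minpoly.aeval ℤ b
  generalize minpoly ℤ b = m at *
  rw [hmon.natDegree_map] at hD
  have h1 : (((m.coeff 0).natAbs : ℕ) : ℝ) ≤ H ^ D := by
    have h2 := (IsAlgClosed.splits (m.map (algebraMap ℤ ℂ))).coeff_zero_eq_prod_roots_of_monic
      (hmon.map _)
    have h3 := congrArg norm h2
    rw [coeff_map, norm_mul, norm_pow, norm_neg, norm_one, one_pow, one_mul, eq_intCast,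
      Complex.norm_intCast] at h3
    rw [Nat.cast_natAbs, Int.cast_abs, h3]
    refine (conj_prod _ (zero_le_one.trans hH) fun z hz => h z ?_).trans
      (pow_le_pow_right₀ hH ((card_roots' _).trans (natDegree_map_le.trans hD)))
    rw [aeval_map_algebraMap, ← eval_map_algebraMap]
    exact isRoot_of_mem_roots hz
  have h2 : ‖(((m.coeff 0).natAbs : ℕ) : ℂ_[p])‖ ≤ ‖b‖ := by
    have h3 : ((m.coeff 0 : ℤ) : ℂ_[p]) = -(aeval b m.divX * b) := by
      rw [← divX_mul_X_add m, map_add, map_mul, aeval_X, aeval_C, eq_intCast] at hb1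
      exact eq_neg_of_add_eq_zero_right hb1
    rw [norm_natAbs, h3, norm_neg, norm_mul]
    exact mul_le_of_le_one_left (norm_nonneg _) (conj_int
      (adjoin_le_integralClosure hb (aeval_mem_adjoin_singleton ℤ (p := m.divX) b)))
  have h3 : 0 < (m.coeff 0).natAbs := Int.natAbs_pos.2 h0
  have h4 := (inv_le_norm_natCast p h3).trans h2
  have h5 : (0 : ℝ) < ((m.coeff 0).natAbs : ℕ) := by exact_mod_cast h3
  rw [← inv_mul_cancel₀ h5.ne']
  gcongr

/-- Transcendental elements of arbitrarily large norm. -/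
theorem exists_tr (p : ℕ) [Fact p.Prime] (M : ℝ) : ∃ α : ℂ_[p], Tr α ∧ M ≤ ‖α‖ := by
  obtain ⟨z, hz⟩ := NormedField.exists_lt_norm ℂ_[p] M
  obtain ⟨α, h1, h2⟩ := ((Algebraic.countable ℤ ℂ_[p]).dense_compl ℂ_[p]).exists_mem_open
    (isOpen_lt continuous_const continuous_norm) (⟨z, hz⟩ : {z : ℂ_[p] | M < ‖z‖}.Nonempty)
  refine ⟨α, fun P hP => by_contra fun h3 => h1 ⟨P, h3, ?_⟩, le_of_lt h2⟩
  rw [aeval_def, RingHom.ext_int (algebraMap ℤ ℂ_[p]) (Int.castRingHom _)]
  exact hP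

end Pool.Agent.UAP
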