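import Pool.Agent.Lib.MP_7e5527_ag.Modp
import Pool.Agent.Lib.MP_7e5527_ag.Conj
import Pool.Agent.Lib.MP_7e5527_ag.Arch

open Polynomial UpperHalfPlane
open scoped Polynomial.Bivariate MatrixGroups IntermediateField

noncomputable section

namespace Pool.Agent.UAP

private theorem liou_ext {k E : Type*} [Field k] [Field E] [Algebra k E]
    (K : IntermediateField k E) [FiniteDimensional k K] {z : E} (hz : IsIntegral K z) {D : ℕ}
    (hD : (minpoly K z).natDegree ≤ D) :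
    ∃ K' : IntermediateField k E, ∃ _ : FiniteDimensional k K',
      Module.finrank k K' ≤ Module.finrank k K * D ∧ K ≤ K' ∧ z ∈ K' := by
  have := IntermediateField.adjoin.finiteDimensional hz
  refine ⟨K⟮z⟯.restrictScalars k, (Module.Finite.trans K K⟮z⟯ : FiniteDimensional k K⟮z⟯), ?_,
    fun a ha => K⟮z⟯.algebraMap_mem ⟨a, ha⟩, IntermediateField.mem_adjoin_simple_self K z⟩
  have h1 := Module.finrank_mul_finrank k K K⟮z⟯
  rw [IntermediateField.adjoin.finrank hz] at h1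
  exact h1.symm.le.trans (Nat.mul_le_mul_left _ hD)

private theorem liou_le {k E : Type*} [Field k] [Field E] [Algebra k E]
    (K : IntermediateField k E) [FiniteDimensional k K] {z : E} (hz : z ∈ K) :
    (minpoly k z).natDegree ≤ Module.finrank k K := by
  have := minpoly.natDegree_le (A := k) (⟨z, hz⟩ : K)
  rwa [IntermediateField.minpoly_eq] at this

private theorem liou_aeval {k E : Type*} [Field k] [Field E] [Algebra k E] (a : k) (z : E)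
    (Q : ℤ[X][Y]) : aeval z (fib Q a) = ev2 (algebraMap k E a) z Q := by
  rw [← eval_fib, ← eval_map_algebraMap, fib, fib, Polynomial.map_map]
  congr 2
  exact RingHom.ext fun P => map_ev1 _ _ _

private theorem liou_int {k E : Type*} [Field k] [Field E] [Algebra k E] {a z : E}
    (ha : IsIntegral k a) {Q : ℤ[X][Y]} (hQ : fib Q a ≠ 0) (h : ev2 a z Q = 0) :
    IsIntegral k z := by
  have ha' : a ∈ algebraicClosure k E := mem_algebraicClosure_iff'.2 ha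
  refine isIntegral_trans (A := algebraicClosure k E) z (IsAlgebraic.isIntegral
    ⟨fib Q (⟨a, ha'⟩ : algebraicClosure k E), fun h0 => hQ ?_, by rw [liou_aeval]; exact h⟩)
  have := congrArg (Polynomial.map (algebraMap (algebraicClosure k E) E)) h0
  rw [fib, Polynomial.map_map, Polynomial.map_zero] at this
  rw [← this, fib]
  congr 1
  exact RingHom.ext fun P =>
    (map_ev1 (algebraMap (algebraicClosure k E) E) ⟨a, ha'⟩ P).symm

private theorem liou_conj (k E E' : Type*) [Field k] [Field E] [Field E'] [Algebra k E]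
    [Algebra k E'] [IsAlgClosed E'] {z : E} (hz : IsIntegral k z) {z' : E'}
    (h : aeval z' (minpoly k z) = 0) :
    ∃ s : E → E', s z = z' ∧ (∀ a : k, s (algebraMap k E a) = algebraMap k E' a) ∧
      ∀ a b : E, IsIntegral k a → IsIntegral k b → ∀ Q : ℤ[X][Y],
        s (ev2 a b Q) = ev2 (s a) (s b) Q := by
  classical
  obtain ⟨σ, hσ⟩ := exists_algHom_conj k E E' ⟨z, mem_algebraicClosure_iff'.2 hz⟩ z' h
  obtain ⟨s, hs⟩ : ∃ s : E → E', ∀ w : algebraicClosure k E, s w = σ w :=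
    ⟨fun w => if h : w ∈ algebraicClosure k E then σ ⟨w, h⟩ else 0, fun w => dif_pos w.2⟩
  refine ⟨s, (hs ⟨z, _⟩).trans hσ, fun a => (hs (algebraMap k _ a)).trans (σ.commutes a), ?_⟩
  intro a b ha hb Q
  lift a to algebraicClosure k E using mem_algebraicClosure_iff'.2 ha
  lift b to algebraicClosure k E using mem_algebraicClosure_iff'.2 hb
  rw [hs, hs]
  exact (congrArg s (map_ev2 (algebraMap (algebraicClosure k E) E) a b Q).symm).trans
    ((hs _).trans (map_ev2 σ.toRingHom a b Q))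

private theorem liou_cauchy {R : ℤ[X]} (hR : R ≠ 0) {h : ℕ} (hh : ∀ i, |R.coeff i| ≤ 2 ^ h)
    {z : ℂ} (hz : ev1 z R = 0) : ‖z‖ ≤ 2 ^ h + 1 := by
  have hi : Function.Injective (Int.castRingHom ℂ) := Int.cast_injective
  have h1 : (R.map (Int.castRingHom ℂ)).IsRoot z := by
    rw [IsRoot.def, eval_map]
    exact hz
  have h2 := (h1.norm_lt_cauchyBound ((Polynomial.map_ne_zero_iff hi).2 hR)).le
  have h3 : 1 ≤ ‖(R.map (Int.castRingHom ℂ)).leadingCoeff‖₊ := by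
    rw [leadingCoeff_map_of_injective hi, ← NNReal.coe_le_coe, coe_nnnorm, eq_intCast,
      Complex.norm_intCast, NNReal.coe_one]
    exact_mod_cast Int.one_le_abs (leadingCoeff_ne_zero.2 hR)
  have h4 : cauchyBound (R.map (Int.castRingHom ℂ)) ≤ 2 ^ h + 1 := by
    refine add_le_add_left ((div_le_self zero_le h3).trans (Finset.sup_le fun i _ => ?_)) 1
    rw [coeff_map, ← NNReal.coe_le_coe, coe_nnnorm, eq_intCast, Complex.norm_intCast,
      NNReal.coe_pow, NNReal.coe_ofNat]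
    exact_mod_cast hh i
  exact_mod_cast h2.trans h4

/-- The conjugates of the modular unit over a field that contains the first point. -/
private theorem liou_deg {F : ℤ[X][Y]} {p : ℕ} [Fact p.Prime] {x0 y0 y1 y3 ζ t : ℂ_[p]} {N : ℕ}
    (hN : 0 < N) {g : ℕ × ℕ × ℕ} (hg : g ∈ Prim N) (hζ : IsPrimitiveRoot ζ N) (ht0 : t ≠ 0)
    (ht : ‖t‖ < 1) (h1 : (t ^ N, y1) ∈ Pts F x0 y0) (h3 : (qg g ζ t, y3) ∈ Pts F x0 y0)
    (K : IntermediateField ℚ ℂ_[p]) (hα : J (t ^ N) ∈ K) (hβ : J y1 ∈ K) {Dn : ℕ}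
    (hD : {P ∈ Pts F x0 y0 | ‖t ^ N‖ ^ N ≤ ‖P.1‖}.encard ≤ Dn) :
    IsIntegral K (phiP N g ζ t) ∧ (minpoly K (phiP N g ζ t)).natDegree ≤ Dn := by
  classical
  have hT : ∀ g ∈ Prim N, g ∈ Tri N := fun g hg => (Finset.mem_filter.1 hg).1
  have iα : IsIntegral K (J (t ^ N)) := isIntegral_algebraMap (x := (⟨_, hα⟩ : K))
  have iβ : IsIntegral K (J y1) := isIntegral_algebraMap (x := (⟨_, hβ⟩ : K))
  choose Θ hΘ using exists_thP p hN
  have hr : ∀ T : ℤ, ev2 (J (t ^ N)) (phiP N g ζ t + T * psiP N g ζ t) (Θ T) = 0 := fun T =>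
    ((hΘ T).root_pa hζ ht0 ht _).2 ⟨g, hg, rfl⟩
  have iφ : IsIntegral K (phiP N g ζ t) := by
    simpa using liou_int iα ((hΘ 0).fib_ne_zero hN hζ ht0 ht) (hr 0)
  obtain ⟨Φ, hΦ⟩ := exists_modP p hN
  have ix : IsIntegral K (J (qg g ζ t)) :=
    liou_int iα (hΦ.fib_ne_zero hN _) ((hΦ.root_pa hN hζ ht0 ht _).2 ⟨g, hg, rfl⟩)
  obtain ⟨⟨⟨-, -, hy10, hy1⟩, -⟩, hx1, hy1G⟩ := h1
  obtain ⟨⟨⟨-, -, hy30, hy3⟩, hF3⟩, -, hy3G⟩ := h3
  dsimp only at hy10 hy1 hx1 hy1G hy30 hy3 hF3 hy3G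
  obtain ⟨m, m', hm, hm', hmm⟩ := hy1G.exists_pow_eq hy3G hy10 hy1 hy30 hy3
  obtain ⟨M, ξ, u, γ, hM, -, hξ, hu, hγ, hyu, -⟩ := exists_level hy10 hm hm' hmm
  have hu0 : u ≠ 0 := fun h => hy10 (by rw [← hu, h, zero_pow hM.ne'])
  have hu1 : ‖u‖ < 1 := by
    rwa [← hu, norm_pow, pow_lt_one_iff_of_nonneg (norm_nonneg _) hM.ne'] at hy1
  obtain ⟨Ψ, hΨ⟩ := exists_modP p hM
  have hΨ0 : ev2 (J y1) (J y3) Ψ = 0 := hu ▸ (hΨ.root_pa hM hξ hu0 hu1 _).2 ⟨γ, hγ, by rw [hyu]⟩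
  have iy : IsIntegral K (J y3) := liou_int iβ (hΨ.fib_ne_zero hM _) hΨ0
  refine ⟨iφ, ?_⟩
  have key : ∀ z ∈ (minpoly K (phiP N g ζ t)).rootSet ℂ_[p],
      ∃ P ∈ {P ∈ Pts F x0 y0 | ‖t ^ N‖ ^ N ≤ ‖P.1‖}, ∃ g', P.1 = qg g' ζ t ∧
        z = phiP N g' ζ t := by
    intro z hz
    obtain ⟨s, hs, hfix, hev⟩ := liou_conj K ℂ_[p] ℂ_[p] iφ (aeval_eq_zero_of_mem_rootSet hz)
    have sα : s (J (t ^ N)) = J (t ^ N) := hfix ⟨_, hα⟩
    have sβ : s (J y1) = J y1 := hfix ⟨_, hβ⟩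
    have s0 : s 0 = 0 := by simpa using hfix 0
    have hl : ∀ T : ℤ, ∃ g' ∈ Prim N,
        z + T * (z * s (J (qg g ζ t))) = phiP N g' ζ t + T * psiP N g' ζ t := by
      intro T
      have e1 := hev _ _ iφ ix (C X + C (C T) * (C X * Y))
      simp only [map_add, map_mul, ev2_CX, ev2_Y, hs] at e1
      simp only [eq_intCast, map_intCast] at e1
      have iT : IsIntegral K (phiP N g ζ t + T * psiP N g ζ t) := by
        rw [psiP_eq hN (hT g hg) hζ ht0 ht]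
        exact iφ.add ((isIntegral_intCast T).mul (iφ.mul ix))
      have e2 := hev _ _ iα iT (Θ T)
      rw [hr, s0, sα, psiP_eq hN (hT g hg) hζ ht0 ht, e1] at e2
      exact ((hΘ T).root_pa hζ ht0 ht _).1 e2.symm
    choose G hG hG' using hl
    obtain ⟨T, -, T', -, hTT, hGG⟩ := Set.infinite_univ.exists_ne_map_eq_of_mapsTo
      (f := G) (fun T _ => Finset.mem_coe.2 (hG T)) (Prim N).finite_toSet
    have e1 := hG' T
    have e2 := hG' T'
    rw [← hGG] at e2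
    have hg' := hT _ (hG T)
    have e3 : z * s (J (qg g ζ t)) = psiP N (G T) ζ t :=
      mul_left_cancel₀ (sub_ne_zero.2 (Int.cast_injective.ne hTT) : (T : ℂ_[p]) - T' ≠ 0)
        (by linear_combination e1 - e2)
    have e4 : z = phiP N (G T) ζ t := by linear_combination e1 - T * e3
    rw [psiP_eq hN hg' hζ ht0 ht, e4] at e3
    have e5 := mul_left_cancel₀ (phiP_ne_zero hN hg' hζ ht0 ht) e3
    have e6 := hev _ _ iβ iy Ψ
    rw [hΨ0, s0, sβ] at e6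
    obtain ⟨y', hy0, hy', hJ, a, d, -, hd, -, hpow⟩ := hΨ.exists_param hM hy10 hy1 e6.symm
    have e7 := hev _ _ ix iy F
    rw [hF3, s0, e5, ← hJ] at e7
    obtain ⟨q0, q1, q2, -⟩ := qg_mem hN hg' hζ ht0 ht
    refine ⟨(qg (G T) ζ t, y'), ⟨⟨⟨⟨q0, q1, hy0, hy'⟩, e7.symm⟩, ?_, ?_⟩, q2⟩, G T, rfl, e4⟩
    · refine InG.of_pow (Nat.zero_lt_of_lt ((mem_Tri hN).1 hg').2) ?_
      rw [qg_pow hN hg' hζ]
      exact hx1.pow _
    · refine InG.of_pow hd ?_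
      rw [hpow]
      exact hy1G.pow _
  have hsub : (minpoly K (phiP N g ζ t)).rootSet ℂ_[p] ⊆
      (fun P : ℂ_[p] × ℂ_[p] => if h : ∃ g', P.1 = qg g' ζ t then phiP N h.choose ζ t else 0) ''
        {P ∈ Pts F x0 y0 | ‖t ^ N‖ ^ N ≤ ‖P.1‖} := by
    intro z hz
    obtain ⟨P, hP, g', h1, h2⟩ := key z hz
    have h : ∃ g', P.1 = qg g' ζ t := ⟨g', h1⟩
    exact ⟨P, hP, (dif_pos h).trans ((phiP_eq_of_qg_eq hN hζ ht0 ht
      (h.choose_spec.symm.trans h1)).trans h2.symm)⟩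
  have hc := (Set.encard_le_encard hsub).trans ((Set.encard_image_le _ _).trans hD)
  rw [← Set.coe_fintypeCard, card_rootSet_eq_natDegree
    (minpoly.irreducible iφ).separable (IsAlgClosed.splits _)] at hc
  exact_mod_cast hc

/-- The `p`-adic Liouville inequality for the modular unit. -/
theorem Good.liouville {F : ℤ[X][Y]} (hF : Good F) : ∃ c : ℕ, ∀ (p : ℕ) [Fact p.Prime]
    (x0 y0 : ℂ_[p]), ∀ P1 ∈ Pts F x0 y0, ∀ P3 ∈ Pts F x0 y0, ∀ (R : ℤ[X]) (d h N n n' Dn : ℕ),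
      R ≠ 0 → ev1 (J P1.1) R = 0 → R.natDegree ≤ d → (∀ i, |R.coeff i| ≤ 2 ^ h) → 0 < n →
      0 < n' → P3.1 ^ n = P1.1 ^ n' → n * n' ≤ N →
      {P ∈ Pts F x0 y0 | ‖P1.1‖ ^ N ≤ ‖P.1‖}.encard ≤ Dn →
      ‖P1.1‖ / ‖P3.1‖ ≤ (2 ^ (2 * h + c) * (N : ℝ) ^ 6) ^ (c * d * Dn) := by
  obtain ⟨C0, hC1, hC⟩ := exists_phiC_le
  obtain ⟨c0, hc0⟩ := pow_unbounded_of_one_lt (2 * C0) (one_lt_two (α := ℝ))
  refine ⟨F.natDegree + c0, ?_⟩
  rintro p _ x0 y0 ⟨x1, y1⟩ h1 ⟨x3, y3⟩ h3 R d h N n n' Dn hR hR0 hd hh hn hn' hp hN hD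
  dsimp only at hR0 hp hD ⊢
  have hx0 : x1 ≠ 0 := h1.1.1.1
  have hx1 : ‖x1‖ < 1 := h1.1.1.2.1
  obtain ⟨M, ζ, t, g, hM, hMN, hζ, rfl, hg, rfl, -⟩ := exists_level hx0 hn hn' hp
  replace hMN := hMN.trans hN
  have ht0 : t ≠ 0 := fun h => hx0 (by rw [h, zero_pow hM.ne'])
  have ht : ‖t‖ < 1 := by
    rwa [norm_pow, pow_lt_one_iff_of_nonneg (norm_nonneg _) hM.ne'] at hx1
  have hg' : g ∈ Tri M := (Finset.mem_filter.1 hg).1
  have hRQ : R.map (algebraMap ℤ ℚ) ≠ 0 := (Polynomial.map_ne_zero_iff Int.cast_injective).2 hR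
  have hRa : aeval (J (t ^ M)) R = 0 := by
    rw [aeval_def, RingHom.ext_int (algebraMap ℤ ℂ_[p]) (Int.castRingHom _)]
    exact hR0
  have hRb : aeval (J (t ^ M)) (R.map (algebraMap ℤ ℚ)) = 0 := by rwa [aeval_map_algebraMap]
  have iα : IsIntegral ℚ (J (t ^ M)) := IsAlgebraic.isIntegral ⟨_, hRQ, hRb⟩
  have := IntermediateField.adjoin.finiteDimensional iα
  have d0 : Module.finrank ℚ ℚ⟮J (t ^ M)⟯ ≤ d := by
    rw [IntermediateField.adjoin.finrank iα]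
    exact (natDegree_le_natDegree (minpoly.degree_le_of_ne_zero ℚ _ hRQ hRb)).trans
      (natDegree_map_le.trans hd)
  have m0 := IntermediateField.mem_adjoin_simple_self ℚ (J (t ^ M))
  have f0 := hF.fib_ne_zero (⟨_, m0⟩ : ℚ⟮J (t ^ M)⟯)
  have f1 : aeval (J y1) (fib F (⟨_, m0⟩ : ℚ⟮J (t ^ M)⟯)) = 0 := by
    rw [liou_aeval]
    exact h1.1.2
  have iβ : IsAlgebraic ℚ⟮J (t ^ M)⟯ (J y1) := ⟨_, f0, f1⟩
  obtain ⟨K, _, d1, le1, m1⟩ := liou_ext _ iβ.isIntegral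
    ((natDegree_le_natDegree (minpoly.degree_le_of_ne_zero _ _ f0 f1)).trans natDegree_map_le)
  obtain ⟨iφ, dφ⟩ := liou_deg hM hg hζ ht0 ht h1 h3 K (le1 m0) m1 (Dn := Dn)
    (by
      refine le_trans (Set.encard_le_encard fun P hP => ?_) hD
      exact ⟨hP.1, (pow_le_pow_of_le_one (norm_nonneg _) hx1.le hMN).trans hP.2⟩)
  obtain ⟨K', _, d2, -, m2⟩ := liou_ext K iφ dφ
  have iφ' : IsIntegral ℚ (phiP M g ζ t) := isIntegral_trans (A := K) _ iφ
  have ib := isIntegral_phiP hM hg hζ ht0 ht R.leadingCoeff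
    (by simpa using isIntegral_leadingCoeff_smul R _ hRa)
  have hA : ((R.leadingCoeff : ℤ) : ℂ_[p]) ≠ 0 := Int.cast_ne_zero.2 (leadingCoeff_ne_zero.2 hR)
  have db : (minpoly ℚ ((R.leadingCoeff : ℂ_[p]) * phiP M g ζ t)).natDegree ≤
      (F.natDegree + c0) * d * Dn := by
    refine (liou_le K' (mul_mem (intCast_mem K' R.leadingCoeff) m2)).trans
      (d2.trans (Nat.mul_le_mul_right _ (d1.trans ?_)))
    rw [mul_comm]
    exact Nat.mul_le_mul (Nat.le_add_right _ _) d0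
  have hN1 : (1 : ℝ) ≤ N := by exact_mod_cast hM.trans_le hMN
  have hH : (1 : ℝ) ≤ 2 ^ (2 * h + (F.natDegree + c0)) * (N : ℝ) ^ 6 :=
    one_le_mul_of_one_le_of_one_le (one_le_pow₀ one_le_two) (one_le_pow₀ hN1)
  have pf := product_formula ib (mul_ne_zero hA (phiP_ne_zero hM hg' hζ ht0 ht)) db hH ?_
  · have q0 := norm_pos_iff.2 (qg_mem hM hg' hζ ht0 ht).1
    have q1 := norm_pos_iff.2 hx0
    have b1 : ‖(R.leadingCoeff : ℂ_[p]) * phiP M g ζ t‖ ≤ ‖qg g ζ t‖ / ‖t ^ M‖ := by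
      rw [norm_mul]
      exact (mul_le_of_le_one_left (norm_nonneg _) (IsUltrametricDist.norm_intCast_le_one _ _)).trans
        (norm_phiP_le hM hg' hζ ht0 ht)
    have b2 := pf.trans (mul_le_mul_of_nonneg_right b1 (by positivity))
    rwa [div_mul_eq_mul_div, le_div_iff₀ q1, one_mul, mul_comm, ← div_le_iff₀ q0] at b2
  intro z hz
  obtain ⟨s, hs, hfix, hev⟩ := liou_conj ℚ ℂ_[p] ℂ ib.tower_top hz
  have s0 : s 0 = 0 := by simpa using hfix 0
  obtain ⟨τ, hτ⟩ := jf_surjective (s (J (t ^ M)))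
  obtain ⟨Θ, hΘ⟩ := exists_thP p hM 0
  have e1 := hev _ _ iα iφ' Θ
  rw [(hΘ.root_pa hζ ht0 ht _).2 ⟨g, hg, by simp⟩, s0, ← hτ] at e1
  obtain ⟨g', hg1, e2⟩ := (hΘ.root_cx τ _).1 e1.symm
  have e3 := hev _ _ iα iφ' (C R)
  rw [ev2_C, ev2_C, hR0, s0, ← hτ] at e3
  have e4 := hev _ _ iα iφ' (C (C R.leadingCoeff) * Y)
  simp only [map_mul, ev2_Y, eq_intCast, map_intCast, hs] at e4
  have b1 := hC M hM g' (Finset.mem_filter.1 hg1).1 τ
  have b2 : (1 : ℝ) ≤ 2 ^ h := one_le_pow₀ one_le_two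
  have b3 : max 1 ‖jf τ‖ ≤ 2 * 2 ^ h :=
    max_le (by linarith) ((liou_cauchy hR hh e3.symm).trans (by linarith))
  have b4 : ‖((R.leadingCoeff : ℤ) : ℂ)‖ ≤ 2 ^ h := by
    rw [Complex.norm_intCast]
    exact_mod_cast hh R.natDegree
  have b5 : (M : ℝ) ≤ N := by exact_mod_cast hMN
  have b6 : (2 : ℝ) ^ c0 ≤ 2 ^ (F.natDegree + c0) :=
    pow_le_pow_right₀ one_le_two (Nat.le_add_left _ _)
  rw [e4, e2, Int.cast_zero, zero_mul, add_zero, norm_mul]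
  calc _ ≤ 2 ^ h * (C0 * (N : ℝ) ^ 6 * (2 * 2 ^ h)) := by
        refine mul_le_mul b4 (b1.trans ?_) (norm_nonneg _) (by positivity)
        gcongr
    _ = 2 ^ (2 * h) * (2 * C0) * (N : ℝ) ^ 6 := by ring
    _ ≤ _ := by
        rw [pow_add]
        gcongr
        exact hc0.le.trans b6

end Pool.Agent.UAP
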