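import Pool.Agent.Lib.MP_7e5527_ag.Logc
import Pool.Agent.Lib.MP_7e5527_ag.Height
import Pool.Agent.Lib.MP_7e5527_ag.Liou

open Polynomial UpperHalfPlane
open scoped Polynomial.Bivariate MatrixGroups IntermediateField

noncomputable section

namespace Pool.Agent.UAP

private theorem bglob_rel {p : ℕ} [Fact p.Prime] {K : IntermediateField ℚ_[p] ℂ_[p]} {W : ℕ}
    (hW : ∀ ζ ∈ K, ∀ n : ℕ, 0 < n → ζ ^ n = 1 → ζ ^ W = 1) {x0 z w : ℂ_[p]} (hz : z ∈ K)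
    (hw : w ∈ K) (hz0 : z ≠ 0) (hz1 : ‖z‖ < 1) (gz : InG x0 z) (gw : InG x0 w) {E a b : ℕ}
    (hE : 0 < E) {q : ℝ} (ha : ‖z‖ ^ E = q ^ a) (hb : ‖w‖ ^ E = q ^ b) :
    w ^ (W * a) = z ^ (W * b) := by
  obtain ⟨h0, h1⟩ := InG.base gz hz0 hz1
  have hzb : z ^ b ≠ 0 := pow_ne_zero _ hz0
  have hn : ‖w ^ a‖ = ‖z ^ b‖ := by
    refine (pow_left_inj₀ (norm_nonneg _) (norm_nonneg _) hE.ne').1 ?_
    rw [norm_pow, norm_pow, ← pow_mul, ← pow_mul, mul_comm a E, mul_comm b E, pow_mul, pow_mul,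
      ha, hb, ← pow_mul, ← pow_mul, mul_comm]
  have hρ : ‖w ^ a / z ^ b‖ = 1 := by
    rw [norm_div, hn, div_self (norm_ne_zero_iff.2 hzb)]
  obtain ⟨n, hn0, hn1⟩ := InG.root_of_unity h0 h1 (InG.div h0 (gw.pow a) (gz.pow b)) hρ
  have h2 := hW _ (div_mem (pow_mem hw a) (pow_mem hz b)) n hn0 hn1
  rw [div_pow, div_eq_one_iff_eq (pow_ne_zero _ hzb), ← pow_mul, ← pow_mul] at h2
  rw [mul_comm W a, mul_comm W b]
  exact h2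

private theorem bglob_q {p : ℕ} [Fact p.Prime] : (0 : ℝ) < (p : ℝ)⁻¹ ∧ (p : ℝ)⁻¹ < 1 := by
  have h : (1 : ℝ) < p := by exact_mod_cast (Fact.out : p.Prime).one_lt
  exact ⟨inv_pos.2 (by linarith), inv_lt_one_of_one_lt₀ h⟩

private theorem bglob_val {p : ℕ} [Fact p.Prime] (K : IntermediateField ℚ_[p] ℂ_[p])
    [FiniteDimensional ℚ_[p] K] {D : ℕ} (hD : Module.finrank ℚ_[p] K ≤ D) {z : ℂ_[p]}
    (hz : z ∈ K) (hz0 : z ≠ 0) (hz1 : ‖z‖ < 1) :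
    ∃ σ : ℕ, 0 < σ ∧ ‖z‖ ^ D.factorial = (p : ℝ)⁻¹ ^ σ := by
  obtain ⟨k, hk⟩ := norm_pow_factorial K hD hz hz0
  have h1 : (1 : ℝ) < p := by exact_mod_cast (Fact.out : p.Prime).one_lt
  have h2 : (p : ℝ) ^ k < 1 := by
    rw [← hk]
    exact pow_lt_one₀ (norm_nonneg _) hz1 D.factorial_ne_zero
  have h3 : k < 0 := (zpow_lt_one_iff_right₀ h1).1 h2
  refine ⟨(-k).toNat, by omega, ?_⟩
  rw [hk, inv_pow, ← zpow_natCast, Int.toNat_of_nonneg (by omega), zpow_neg, inv_inv]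

private theorem bglob_log {G s a : ℕ} (h : a ≤ G * s ^ 3) :
    Nat.log 2 a + 1 ≤ (G + 3) * (Nat.log 2 s + 1) := by
  rcases Nat.eq_zero_or_pos a with rfl | ha
  · simp only [Nat.log_zero_right]
    nlinarith [Nat.zero_le G, Nat.zero_le (Nat.log 2 s)]
  have h1 : s < 2 ^ (Nat.log 2 s + 1) := Nat.lt_pow_succ_log_self (by norm_num) s
  have h2 : G < 2 ^ G := Nat.lt_two_pow_self
  have h3 : a < 2 ^ (G + 3 * (Nat.log 2 s + 1)) := by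
    calc a ≤ G * s ^ 3 := h
      _ ≤ G * (2 ^ (Nat.log 2 s + 1)) ^ 3 :=
        Nat.mul_le_mul_left _ (Nat.pow_le_pow_left h1.le 3)
      _ < 2 ^ G * (2 ^ (Nat.log 2 s + 1)) ^ 3 :=
        Nat.mul_lt_mul_of_pos_right h2 (by positivity)
      _ = _ := by rw [← pow_mul, ← pow_add, mul_comm _ 3]
  have h4 := (Nat.log_lt_iff_lt_pow (by norm_num : 1 < 2) ha.ne').2 h3
  nlinarith [Nat.zero_le (G * Nat.log 2 s)]

private theorem bglob_exp {p : ℕ} [Fact p.Prime] {a b : ℝ} (hb : 0 < b) (ha : 0 ≤ a)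
    {E m s0 s2 e N M : ℕ} (hm : 0 < m) (hs : s0 ≤ s2) (h0 : a ^ E = (p : ℝ)⁻¹ ^ s0)
    (h2 : b ^ E = (p : ℝ)⁻¹ ^ s2) (h : a ^ m / b ^ m ≤ (2 ^ e * (N : ℝ) ^ 6) ^ M) :
    s2 - s0 ≤ (e + 6 * (Nat.log 2 N + 1)) * M * E := by
  have hp : (2 : ℝ) ≤ p := by exact_mod_cast (Fact.out : p.Prime).two_le
  have hN : (N : ℝ) ≤ 2 ^ (Nat.log 2 N + 1) := by
    exact_mod_cast (Nat.lt_pow_succ_log_self (by norm_num : 1 < 2) N).le
  have h3 : (a ^ m / b ^ m) ^ E = (p : ℝ) ^ ((s2 - s0) * m) := by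
    obtain ⟨u, rfl⟩ := Nat.exists_eq_add_of_le hs
    have hp0 : (p : ℝ) ≠ 0 := by positivity
    rw [← div_pow, ← pow_mul, mul_comm m E, pow_mul, div_pow, h0, h2, Nat.add_sub_cancel_left,
      pow_mul]
    refine congrArg (· ^ m) ?_
    rw [pow_add, inv_pow _ u]
    field_simp
  have h4 : (2 : ℝ) ^ (s2 - s0) ≤ 2 ^ ((e + 6 * (Nat.log 2 N + 1)) * M * E) := by
    calc (2 : ℝ) ^ (s2 - s0) ≤ 2 ^ ((s2 - s0) * m) :=
          pow_le_pow_right₀ (by norm_num) (Nat.le_mul_of_pos_right _ hm)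
      _ ≤ (p : ℝ) ^ ((s2 - s0) * m) := pow_le_pow_left₀ (by norm_num) hp _
      _ = (a ^ m / b ^ m) ^ E := h3.symm
      _ ≤ ((2 ^ e * (N : ℝ) ^ 6) ^ M) ^ E := pow_le_pow_left₀ (by positivity) h _
      _ ≤ ((2 ^ e * ((2 : ℝ) ^ (Nat.log 2 N + 1)) ^ 6) ^ M) ^ E := by gcongr
      _ = _ := by rw [← pow_mul, ← pow_mul, ← pow_add, ← pow_mul, mul_comm _ 6, mul_assoc]
  exact (pow_le_pow_iff_right₀ (by norm_num : (1 : ℝ) < 2)).1 h4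

private theorem bglob_arith {x h cl B E l l1 l2 : ℕ} (hh : 0 < h) (hl : 0 < l) (h1 : l1 ≤ l)
    (h2 : l2 ≤ l) (hx : x ≤ (2 * h + cl + 6 * l1) * (cl * h * (B * l2)) * E) :
    x ≤ (8 + cl) * cl * B * E * h ^ 2 * l ^ 2 := by
  have e1 : h ≤ h * l := Nat.le_mul_of_pos_right _ hl
  have e2 : l ≤ h * l := Nat.le_mul_of_pos_left _ hh
  have e3 : cl ≤ cl * (h * l) := Nat.le_mul_of_pos_right _ (Nat.mul_pos hh hl)
  have e4 : 2 * h + cl + 6 * l1 ≤ (8 + cl) * (h * l) := by nlinarith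
  calc x ≤ _ := hx
    _ ≤ (8 + cl) * (h * l) * (cl * h * (B * l)) * E := by gcongr
    _ = _ := by ring

private theorem bglob_fin {x c0 a A s ch G l : ℕ} (hs : 0 < s) (ha : a ≤ A * s ^ 2)
    (hx : x ≤ c0 * (a ^ ch) ^ 2 * (G * l) ^ 2) :
    x ≤ (c0 * A ^ (2 * ch) * G ^ 2 + 4 * ch) * s ^ (c0 * A ^ (2 * ch) * G ^ 2 + 4 * ch) * l ^ 2 := by
  calc x ≤ _ := hx
    _ ≤ c0 * ((A * s ^ 2) ^ ch) ^ 2 * (G * l) ^ 2 := by gcongr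
    _ = c0 * A ^ (2 * ch) * G ^ 2 * s ^ (4 * ch) * l ^ 2 := by ring
    _ ≤ _ := Nat.mul_le_mul_right _ (Nat.mul_le_mul (Nat.le_add_right _ _)
      (Nat.pow_le_pow_right hs (Nat.le_add_left _ _)))

/-- The global growth bound on a branch. -/
theorem Good.branch_global {F : ℤ[X][Y]} (hF : Good F) (p : ℕ) [Fact p.Prime]
    (hS : ¬ Sp (PadicAlgCl p) F) (ht : top F = 0) (D : ℕ) (β : Br p) {C : ℝ} (hC : 0 ≤ C) {m : ℕ}
    (hm : 0 < m) : ∃ (r1 : ℝ) (N0 c : ℕ), 0 < r1 ∧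
      ∀ (K : IntermediateField ℚ_[p] ℂ_[p]) [FiniteDimensional ℚ_[p] K],
        Module.finrank ℚ_[p] K ≤ D → ap p β.c ∈ K → ap p β.c2 ∈ K → ∀ x0 ∈ K, ∀ y0 ∈ K,
          ∀ (T : Fin 3 → ℂ_[p] × ℂ_[p]) (s : Fin 3 → ℕ),
            (∀ i, T i ∈ BP β C r1 x0 y0 ∧ ((T i).1 ^ m, (T i).2) ∈ Crv ℂ_[p] F ∧
              ‖(T i).1‖ ^ (β.κ * D.factorial) = (p : ℝ)⁻¹ ^ s i) →
            s 0 < s 1 → s 1 < s 2 → N0 * s 0 < s 1 →
            s 2 - s 0 ≤ c * s 1 ^ c * (Nat.log 2 (s 2) + 1) ^ 2 := by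
  obtain ⟨ra, hra, hrat⟩ := branch_rational β hC
  obtain ⟨rb, C1, hrb, hrb1, -, hbas⟩ := branch_basic β hC
  obtain ⟨W, hW0, hW⟩ := exists_root_bound p D
  obtain ⟨N0, ch, hht⟩ := hF.height p hS ht
  obtain ⟨B, hB⟩ := hF.log_count p hS D
  obtain ⟨cl, hcl⟩ := hF.liouville
  obtain ⟨hq0, hq1⟩ := bglob_q (p := p)
  have hc0 : 0 < ‖β.c‖ ^ (β.κ * D.factorial) := pow_pos (norm_pos_iff.2 β.hc) _
  obtain ⟨γ, hγ⟩ := exists_pow_lt_of_lt_one hc0 hq1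
  have hE : 0 < β.κ * D.factorial := Nat.mul_pos β.hκ D.factorial_pos
  have hV : 0 < β.κ * W := Nat.mul_pos β.hκ hW0
  set V := β.κ * W with hVd
  set A := V * (γ + β.n + 1) with hA
  set G := m * V ^ 2 with hG
  refine ⟨min ra rb, N0, (8 + cl) * cl * B * (β.κ * D.factorial) * (3 * A ^ 2) ^ (2 * ch) *
    (G + 3) ^ 2 + 4 * ch, lt_min hra hrb, ?_⟩
  intro K _ hD hc hc2 x0 hx0 y0 hy0 T s hT h01 h12 hN
  have hbp := fun i => (hT i).1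
  have ht0 : ∀ i, (T i).1 ≠ 0 := fun i => (hbp i).1.1
  have htb : ∀ i, ‖(T i).1‖ < rb := fun i => lt_of_lt_of_le (hbp i).2.1 (min_le_right _ _)
  have ht1 : ∀ i, ‖(T i).1‖ < 1 := fun i => lt_of_lt_of_le (htb i) hrb1
  have hK := fun i => hrat K hc hc2 x0 hx0 y0 hy0 (T i)
    (BP_mono β C (min_le_left _ _) x0 y0 (hbp i))
  have hy := fun i => hbas _ _ (hbp i).1 (htb i)
  have hκ1 : ∀ z : ℂ_[p], ‖z‖ < 1 → ‖z ^ β.κ‖ < 1 := fun z hz => by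
    rw [norm_pow]
    exact pow_lt_one₀ (norm_nonneg _) hz β.hκ.ne'
  have hX : ∀ i, ‖(T i).1 ^ β.κ‖ ^ D.factorial = (p : ℝ)⁻¹ ^ s i := fun i => by
    rw [norm_pow, ← pow_mul]
    exact (hT i).2.2
  have hs0 : 0 < s 0 := by
    refine Nat.pos_of_ne_zero fun e => ?_
    have h1 := (hT 0).2.2
    rw [e, pow_zero] at h1
    exact (pow_lt_one₀ (norm_nonneg _) (ht1 0) hE.ne').ne h1
  have hs1 : 0 < s 1 := by omega
  have hx : ∀ i, ((T i).1 ^ m) ^ (V * s 0) = ((T 0).1 ^ m) ^ (V * s i) := fun i => by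
    have h1 := bglob_rel (hW K hD) (hK 0).1 (hK i).1 (pow_ne_zero _ (ht0 0)) (hκ1 _ (ht1 0))
      ((hbp 0).2.2.1.pow _) ((hbp i).2.2.1.pow _) D.factorial_pos (hX 0) (hX i)
    rw [← pow_mul, ← pow_mul, ← mul_assoc, ← mul_assoc] at h1
    rw [← pow_mul, ← pow_mul, mul_comm m, mul_comm m, pow_mul, pow_mul _ (V * s i), h1]
  choose σ hσ0 hσ using fun i => bglob_val K hD (hK i).2 (pow_ne_zero _ (hy i).1)
    (hκ1 _ (hy i).2.1)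
  have hσ1 : ∀ i, σ i ≤ γ + β.n * s i := fun i => by
    have h1 := hσ i
    rw [norm_pow, ← pow_mul, (hy i).2.2.1, mul_pow, ← pow_mul, mul_comm β.n, pow_mul ‖(T i).1‖,
      (hT i).2.2, ← pow_mul] at h1
    refine (pow_le_pow_iff_right_of_lt_one₀ hq0 hq1).1 ?_
    rw [← h1, pow_add, mul_comm β.n]
    exact mul_le_mul_of_nonneg_right hγ.le (by positivity)
  have hyy : (T 1).2 ^ (V * σ 0) = (T 0).2 ^ (V * σ 1) := by
    have h1 := bglob_rel (hW K hD) (hK 0).2 (hK 1).2 (pow_ne_zero _ (hy 0).1) (hκ1 _ (hy 0).2.1)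
      ((hbp 0).2.2.2.pow _) ((hbp 1).2.2.2.pow _) D.factorial_pos (hσ 0) (hσ 1)
    rwa [← pow_mul, ← pow_mul, ← mul_assoc, ← mul_assoc] at h1
  have hle : ∀ a b : ℕ, a ≤ (γ + β.n + 1) * s 1 → b ≤ (γ + β.n + 1) * s 1 →
      V * a * (V * b) ≤ (A * s 1) ^ 2 := fun a b ha hb => by
    rw [sq, hA, mul_assoc V _ (s 1)]
    exact Nat.mul_le_mul (Nat.mul_le_mul_left _ ha) (Nat.mul_le_mul_left _ hb)
  have g1 : γ ≤ γ * s 1 := Nat.le_mul_of_pos_right _ hs1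
  have g2 : β.n * s 0 ≤ β.n * s 1 := Nat.mul_le_mul_left _ h01.le
  have g3 : s 1 ≤ (γ + β.n + 1) * s 1 := Nat.le_mul_of_pos_left _ (Nat.succ_pos _)
  have g4 : ∀ a, a ≤ γ + β.n * s 1 → a ≤ (γ + β.n + 1) * s 1 := fun a ha => by
    rw [add_mul, add_mul]
    omega
  obtain ⟨R, hR0, hR1, hR2, hR3⟩ := hht _ (hT 0).2.1 _ (hT 1).2.1 ((A * s 1) ^ 2) (V * s 0)
    (V * s 1) (V * σ 0) (V * σ 1) (Nat.mul_pos hV hs0) (Nat.mul_pos hV (hσ0 0))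
    (Nat.mul_pos hV (hσ0 1)) (hx 1)
    (by rw [mul_left_comm]; exact Nat.mul_lt_mul_of_pos_left hN hV)
    (hle _ _ (h01.le.trans g3) g3) hyy
    (hle _ _ (g4 _ ((hσ1 0).trans (Nat.add_le_add_left g2 _))) (g4 _ (hσ1 1)))
  have hP : ∀ i, ((T i).1 ^ m, (T i).2) ∈ Pts F x0 y0 := fun i =>
    ⟨(hT i).2.1, (hbp i).2.2.1.pow m, (hbp i).2.2.2⟩
  set N := V * s 0 * (V * s 2) with hNd
  have hcount : {P ∈ Pts F x0 y0 | ‖(T 0).1 ^ m‖ ^ N ≤ ‖P.1‖}.encard ≤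
      (B * (Nat.log 2 (s 0 * m * N) + 1) : ℕ) := by
    refine le_trans (Set.encard_le_encard ?_) (hB K hD x0 hx0 y0 hy0 (s 0 * m * N))
    rintro P ⟨h1, h2⟩
    refine ⟨h1, le_trans ?_ h2⟩
    rw [pow_mul _ (s 0 * m), pow_mul _ (s 0), norm_pow, ← (hT 0).2.2]
    have h3 : ‖(T 0).1‖ ^ (β.κ * D.factorial) ≤ ‖(T 0).1‖ :=
      pow_le_of_le_one (norm_nonneg _) (ht1 0).le hE.ne'
    gcongr
  have hL := hcl p x0 y0 _ (hP 0) _ (hP 2) R _ _ N (V * s 0) (V * s 2) _ hR0 hR1 hR2 hR3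
    (Nat.mul_pos hV hs0) (Nat.mul_pos hV (by omega)) (hx 2) le_rfl hcount
  simp only [norm_pow] at hL
  have hmain := bglob_exp (norm_pos_iff.2 (ht0 2)) (norm_nonneg _) hm (by omega) (hT 0).2.2
    (hT 2).2.2 hL
  have k0 : s 0 ≤ s 2 := by omega
  have k1 : s 0 * m * N ≤ G * s 2 ^ 3 := by
    calc s 0 * m * N ≤ s 2 * m * (V * s 2 * (V * s 2)) := by rw [hNd]; gcongr
      _ = _ := by rw [hG]; ring
  have k2 : N ≤ G * s 2 ^ 3 := le_trans (Nat.le_mul_of_pos_left _ (Nat.mul_pos hs0 hm)) k1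
  have hfin := bglob_arith (by positivity) (by positivity) (bglob_log k2) (bglob_log k1) hmain
  have hA0 : 0 < A * s 1 := Nat.mul_pos (Nat.mul_pos hV (by omega)) hs1
  have k3 : (A * s 1) ^ 2 + 2 ≤ 3 * A ^ 2 * s 1 ^ 2 := by
    have k4 : 1 ≤ (A * s 1) ^ 2 := Nat.one_le_pow _ _ hA0
    rw [mul_assoc 3, ← mul_pow]
    omega
  exact bglob_fin hs1 k3 hfin

end Pool.Agent.UAP
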