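import Pool.Agent.Lib.MP_7e5527_ag.Roots
import Pool.Agent.Lib.MP_7e5527_ag.Conj

open Polynomial UpperHalfPlane
open scoped Polynomial.Bivariate MatrixGroups IntermediateField

noncomputable section

namespace Pool.Agent.UAP

variable {p : ℕ} [Fact p.Prime]

theorem Iso.iterate {σ : ℂ_[p] →+* ℂ_[p]} (hσ : Iso σ) (k : ℕ) : Iso (σ ^ k) := by
  induction k with
  | zero => intro z; rw [pow_zero]; rfl
  | succ k ih =>
    intro z
    rw [pow_succ]
    exact (ih (σ z)).trans (hσ z)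

theorem isClosed_field (K : IntermediateField ℚ_[p] ℂ_[p]) [FiniteDimensional ℚ_[p] K] :
    IsClosed (K : Set ℂ_[p]) := by
  have : FiniteDimensional ℚ_[p] K.toSubalgebra.toSubmodule := ‹FiniteDimensional ℚ_[p] K›
  exact K.toSubalgebra.toSubmodule.closed_of_finiteDimensional

private theorem gal1_ap_alg (x : ℚ_[p]) :
    ap p (algebraMap ℚ_[p] (PadicAlgCl p) x) = algebraMap ℚ_[p] ℂ_[p] x :=
  (IsScalarTower.algebraMap_apply ℚ_[p] (PadicAlgCl p) ℂ_[p] x).symm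

private theorem gal1_range {z : ℂ_[p]} (hz : IsIntegral ℚ_[p] z) : ∃ a, ap p a = z := by
  have h0 : (minpoly ℚ_[p] z).map (algebraMap ℚ_[p] (PadicAlgCl p)) ≠ 0 :=
    map_ne_zero (minpoly.ne_zero hz)
  refine (IsAlgClosed.splits _).mem_range_of_isRoot h0 (i := ap p) ?_
  rw [Polynomial.map_map, IsRoot.def, eval_map]
  exact minpoly.aeval ℚ_[p] z

private theorem gal1_int_ap (a : PadicAlgCl p) : IsIntegral ℚ_[p] (ap p a) :=
  (Algebra.IsIntegral.isIntegral (R := ℚ_[p]) a).map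
    (IsScalarTower.toAlgHom ℚ_[p] (PadicAlgCl p) ℂ_[p])

private theorem gal1_int_mem (K : IntermediateField ℚ_[p] ℂ_[p]) [FiniteDimensional ℚ_[p] K]
    {z : ℂ_[p]} (hz : z ∈ K) : IsIntegral ℚ_[p] z :=
  (Algebra.IsIntegral.isIntegral (R := ℚ_[p]) (⟨z, hz⟩ : K)).map K.val

private theorem gal1_isom (τ : PadicAlgCl p →+* ℂ_[p])
    (hτ : ∀ x : ℚ_[p], τ (algebraMap ℚ_[p] (PadicAlgCl p) x) = algebraMap ℚ_[p] ℂ_[p] x)
    (a : PadicAlgCl p) : ‖τ a‖ = ‖a‖ := by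
  let f : AbsoluteValue (PadicAlgCl p) ℝ :=
    { toFun := fun a => ‖τ a‖
      map_mul' := fun a b => by rw [map_mul, norm_mul]
      nonneg' := fun a => norm_nonneg _
      eq_zero' := fun a => by rw [norm_eq_zero, map_eq_zero]
      add_le' := fun a b => by rw [map_add]; exact norm_add_le _ _ }
  have h := spectralNorm_unique_field_norm_ext (K := ℚ_[p]) (L := PadicAlgCl p) (f := f)
    (fun x => by
      change ‖τ _‖ = _
      rw [hτ, norm_algebraMap']) a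
  exact h

private theorem gal1_extend (τ : PadicAlgCl p →+* ℂ_[p]) (hτ : ∀ a, ‖τ a‖ = ‖a‖) :
    ∃ σ : ℂ_[p] →+* ℂ_[p], Iso σ ∧ ∀ a, σ (ap p a) = τ a := by
  have hi : Isometry τ := AddMonoidHomClass.isometry_of_norm τ hτ
  refine ⟨UniformSpace.Completion.extensionHom τ hi.continuous, fun z => ?_, fun a =>
    UniformSpace.Completion.extensionHom_coe τ hi.continuous a⟩
  refine UniformSpace.Completion.induction_on z (isClosed_eq ?_ continuous_norm) fun a => ?_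
  · exact continuous_norm.comp UniformSpace.Completion.continuous_extension
  · rw [UniformSpace.Completion.extensionHom_coe, hτ, PadicComplex.norm_extends]

/-- Conjugates are related by isometric endomorphisms. -/
theorem exists_iso (K : IntermediateField ℚ_[p] ℂ_[p]) [FiniteDimensional ℚ_[p] K] {z z' : ℂ_[p]}
    (hz : IsIntegral K z) (hz' : aeval z' (minpoly K z) = 0) :
    ∃ σ : ℂ_[p] →+* ℂ_[p], Iso σ ∧ (∀ a ∈ K, σ a = a) ∧ σ z = z' := by
  have hmem : ∀ a : PadicAlgCl p, ap p a ∈ algebraicClosure K ℂ_[p] := fun a =>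
    mem_algebraicClosure_iff'.mpr (gal1_int_ap a).tower_top
  obtain ⟨σ0, h0⟩ := exists_algHom_conj K ℂ_[p] ℂ_[p]
    ⟨z, mem_algebraicClosure_iff'.mpr hz⟩ z' hz'
  let ι : PadicAlgCl p →+* algebraicClosure K ℂ_[p] := (ap p).codRestrict _ hmem
  let τ : PadicAlgCl p →+* ℂ_[p] := (σ0 : algebraicClosure K ℂ_[p] →+* ℂ_[p]).comp ι
  have hK : ∀ (a : PadicAlgCl p) (b : K), ap p a = b → τ a = b := by
    intro a b hab
    have h1 : ι a = algebraMap K (algebraicClosure K ℂ_[p]) b := Subtype.ext hab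
    change σ0 (ι a) = _
    rw [h1, σ0.commutes]
    rfl
  have hτ : ∀ a, ‖τ a‖ = ‖a‖ := gal1_isom τ fun x =>
    hK _ ⟨algebraMap ℚ_[p] ℂ_[p] x, K.algebraMap_mem x⟩ (gal1_ap_alg x)
  obtain ⟨σ, hσ, hσ'⟩ := gal1_extend τ hτ
  refine ⟨σ, hσ, fun a ha => ?_, ?_⟩
  · obtain ⟨b, hb⟩ := gal1_range (gal1_int_mem K ha)
    rw [← hb, hσ', hK b ⟨a, ha⟩ hb, hb]
  · obtain ⟨b, hb⟩ := gal1_range (isIntegral_trans (R := ℚ_[p]) z hz)
    have h1 : ι b = ⟨z, mem_algebraicClosure_iff'.mpr hz⟩ := Subtype.ext hb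
    rw [← hb, hσ', ← h0, ← h1]
    rfl

theorem mem_of_fixed (K : IntermediateField ℚ_[p] ℂ_[p]) [FiniteDimensional ℚ_[p] K] {z : ℂ_[p]}
    {n : ℕ} (hn : 0 < n) (hz : z ^ n ∈ K)
    (h : ∀ σ : ℂ_[p] →+* ℂ_[p], Iso σ → (∀ a ∈ K, σ a = a) → σ z = z) : z ∈ K := by
  classical
  have hi : IsIntegral K z :=
    IsIntegral.of_pow hn (isIntegral_algebraMap (x := (⟨z ^ n, hz⟩ : K)))
  have hsep : (minpoly K z).Separable := (minpoly.irreducible hi).separable
  have hall : ∀ w ∈ (minpoly K z).aroots ℂ_[p], w = z := by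
    intro w hw
    obtain ⟨σ, h1, h2, h3⟩ := exists_iso K hi (mem_aroots'.mp hw).2
    rw [← h3, h σ h1 h2]
  have hnd : ((minpoly K z).aroots ℂ_[p]).Nodup := nodup_roots hsep.map
  have hc : ((minpoly K z).aroots ℂ_[p]).card = (minpoly K z).natDegree :=
    IsAlgClosed.card_aroots_eq_natDegree_of_isUnit_leadingCoeff
      (by rw [(minpoly.monic hi).leadingCoeff]; exact isUnit_one)
  have h1 : ((minpoly K z).aroots ℂ_[p]).card ≤ 1 := by
    rw [← Multiset.toFinset_card_of_nodup hnd]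
    exact Finset.card_le_one.mpr fun a ha b hb => by
      rw [hall a (Multiset.mem_toFinset.mp ha), hall b (Multiset.mem_toFinset.mp hb)]
  have h2 : (minpoly K z).natDegree = 1 := by
    have := minpoly.natDegree_pos hi
    omega
  obtain ⟨b, hb⟩ := minpoly.natDegree_eq_one_iff.mp h2
  rw [← hb]
  exact b.2

theorem InG.exists_pow_mem {K : IntermediateField ℚ_[p] ℂ_[p]} {x0 z : ℂ_[p]} (hx0 : x0 ∈ K)
    (hz : InG x0 z) : ∃ n : ℕ, 0 < n ∧ z ^ n ∈ K := by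
  obtain ⟨n, hn, k, hk⟩ := hz
  exact ⟨n, hn, hk ▸ zpow_mem hx0 k⟩

private theorem gal1_minpoly (a : PadicAlgCl p) : minpoly ℚ_[p] (ap p a) = minpoly ℚ_[p] a :=
  minpoly.algebraMap_eq (algebraMap (PadicAlgCl p) ℂ_[p]).injective a

private theorem gal1_deg (K : IntermediateField ℚ_[p] ℂ_[p]) [FiniteDimensional ℚ_[p] K] {D : ℕ}
    (hD : Module.finrank ℚ_[p] K ≤ D) {z : ℂ_[p]} (hz : z ∈ K) :
    (minpoly ℚ_[p] z).natDegree ≤ D := by
  have h : minpoly ℚ_[p] z = minpoly ℚ_[p] (⟨z, hz⟩ : K) :=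
    minpoly.algebraMap_eq (algebraMap K ℂ_[p]).injective (⟨z, hz⟩ : K)
  rw [h]
  exact (minpoly.natDegree_le _).trans hD

theorem norm_pow_factorial (K : IntermediateField ℚ_[p] ℂ_[p]) [FiniteDimensional ℚ_[p] K] {D : ℕ}
    (hD : Module.finrank ℚ_[p] K ≤ D) {z : ℂ_[p]} (hz : z ∈ K) (hz0 : z ≠ 0) :
    ∃ k : ℤ, ‖z‖ ^ D.factorial = (p : ℝ) ^ k := by
  have hi := gal1_int_mem K hz
  have hd := gal1_deg K hD hz
  have hpos := minpoly.natDegree_pos hi
  have hc := minpoly.coeff_zero_ne_zero hi hz0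
  obtain ⟨e, he⟩ := Nat.dvd_factorial hpos hd
  obtain ⟨a, rfl⟩ := gal1_range hi
  have h1 := spectralNorm.spectralNorm_eq_norm_coeff_zero_rpow ℚ_[p] (PadicAlgCl p) a
  rw [PadicAlgCl.spectralNorm_eq, ← gal1_minpoly, ← norm_ap] at h1
  have h2 : ‖ap p a‖ ^ (minpoly ℚ_[p] (ap p a)).natDegree =
      ‖(minpoly ℚ_[p] (ap p a)).coeff 0‖ := by
    rw [h1, one_div, Real.rpow_inv_natCast_pow (norm_nonneg _) hpos.ne']
  refine ⟨-((minpoly ℚ_[p] (ap p a)).coeff 0).valuation * e, ?_⟩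
  rw [he, pow_mul, h2, Padic.norm_eq_zpow_neg_valuation hc, zpow_mul, zpow_natCast]

private theorem gal1_fin {κ : Type*} [Field κ] [Algebra (ZMod p) κ] {x : κ} {m : (ZMod p)[X]}
    (hm : m.Monic) (hx : aeval x m = 0) {D : ℕ} (hD : m.natDegree ≤ D) :
    x ^ p ^ D.factorial = x := by
  have hi : IsIntegral (ZMod p) x := ⟨m, hm, hx⟩
  have hfd : FiniteDimensional (ZMod p) (ZMod p)⟮x⟯ := IntermediateField.adjoin.finiteDimensional hi
  have hfin : Finite (ZMod p)⟮x⟯ := Module.finite_of_finite (ZMod p)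
  have := Fintype.ofFinite (ZMod p)⟮x⟯
  have hcard : Fintype.card (ZMod p)⟮x⟯ = p ^ (minpoly (ZMod p) x).natDegree := by
    rw [Module.card_eq_pow_finrank (K := ZMod p), ZMod.card, IntermediateField.adjoin.finrank hi]
  have hle : (minpoly (ZMod p) x).natDegree ≤ D :=
    (natDegree_le_of_dvd (minpoly.dvd _ _ hx) hm.ne_zero).trans hD
  obtain ⟨e, he⟩ := Nat.dvd_factorial (minpoly.natDegree_pos hi) hle
  have h := FiniteField.pow_card_pow e (IntermediateField.AdjoinSimple.gen (ZMod p) x)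
  rw [hcard, ← pow_mul, ← he] at h
  exact congrArg Subtype.val h

theorem norm_pow_sub_lt (K : IntermediateField ℚ_[p] ℂ_[p]) [FiniteDimensional ℚ_[p] K] {D : ℕ}
    (hD : Module.finrank ℚ_[p] K ≤ D) {z : ℂ_[p]} (hz : z ∈ K) (hz1 : ‖z‖ ≤ 1) :
    ‖z ^ p ^ D.factorial - z‖ < 1 := by
  have hi := gal1_int_mem K hz
  have hd := gal1_deg K hD hz
  have hco : ∀ n, ‖(minpoly ℚ_[p] z).coeff n‖ ≤ 1 := by
    obtain ⟨a, rfl⟩ := gal1_range hi
    refine (spectralValue_le_one_iff (minpoly.monic hi)).mp ?_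
    rw [gal1_minpoly]
    rw [norm_ap] at hz1
    exact hz1
  have hl : minpoly ℚ_[p] z ∈ lifts (PadicInt.Coe.ringHom (p := p)) :=
    (lifts_iff_coeff_lifts _).mpr fun n => ⟨⟨_, hco n⟩, rfl⟩
  obtain ⟨m, hm, hm1, hm2⟩ := lifts_and_natDegree_eq_and_monic hl (minpoly.monic hi)
  let v : Valuation ℂ_[p] NNReal := NormedField.valuation
  have hv : ∀ x : ℂ_[p], x ∈ v.valuationSubring ↔ ‖x‖ ≤ 1 := fun x => by
    rw [Valuation.mem_valuationSubring_iff]
    exact Iff.rfl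
  let R := v.valuationSubring
  have hmax : ∀ x : R, IsLocalRing.residue R x = 0 ↔ ‖(x : ℂ_[p])‖ < 1 := fun x => by
    rw [IsLocalRing.residue_eq_zero_iff, Valuation.mem_maximalIdeal_iff]
    exact Iff.rfl
  let ψ : ℤ_[p] →+* R := (zp p).codRestrict R fun a => (hv _).mpr (by
    rw [norm_zp]; exact a.norm_le_one)
  let ρ : ℤ_[p] →+* IsLocalRing.ResidueField R := (IsLocalRing.residue R).comp ψ
  have hρ : ∀ a ∈ IsLocalRing.maximalIdeal ℤ_[p], ρ a = 0 := fun a ha => by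
    refine (hmax (ψ a)).mpr ?_
    change ‖zp p a‖ < 1
    rw [norm_zp]
    exact PadicInt.mem_nonunits.mp ha
  have hp : ((p : ℕ) : IsLocalRing.ResidueField R) = 0 := by
    rw [← map_natCast ρ]
    refine hρ _ ?_
    rw [PadicInt.maximalIdeal_eq_span_p]
    exact Ideal.mem_span_singleton_self _
  have hch : CharP (IsLocalRing.ResidueField R) p :=
    (CharP.charP_iff_prime_eq_zero Fact.out).mpr hp
  let _ : Algebra (ZMod p) (IsLocalRing.ResidueField R) := ZMod.algebra _ p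
  have hρ' : (algebraMap (ZMod p) (IsLocalRing.ResidueField R)).comp PadicInt.toZMod = ρ := by
    ext a
    have h := hρ _ (PadicInt.toZMod_spec a)
    rw [map_sub, sub_eq_zero, ZMod.cast_eq_val, map_natCast] at h
    rw [h, RingHom.comp_apply]
    conv_lhs => rw [← ZMod.natCast_zmod_val (PadicInt.toZMod a), map_natCast]
  let zr : R := ⟨z, (hv z).mpr hz1⟩
  have h0 : eval₂ ψ zr m = 0 := by
    apply Subtype.ext
    have h := hom_eval₂ m ψ R.subtype zr
    have h' : R.subtype.comp ψ =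
      (algebraMap ℚ_[p] ℂ_[p]).comp (PadicInt.Coe.ringHom (p := p)) := rfl
    rw [h', ← eval₂_map, hm] at h
    exact h.trans (minpoly.aeval ℚ_[p] z)
  have h1 : aeval (IsLocalRing.residue R zr) (m.map PadicInt.toZMod) = 0 := by
    rw [aeval_def, eval₂_map, hρ', ← hom_eval₂, h0, map_zero]
  have h2 := gal1_fin (hm2.map _) h1 (D := D) (by rw [hm2.natDegree_map, hm1]; exact hd)
  have h3 : IsLocalRing.residue R (zr ^ p ^ D.factorial - zr) = 0 := by
    rw [map_sub, map_pow, h2, sub_self]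
  exact (hmax _).mp h3

theorem exists_root_bound (p : ℕ) [Fact p.Prime] (D : ℕ) : ∃ W : ℕ, 0 < W ∧
    ∀ (K : IntermediateField ℚ_[p] ℂ_[p]) [FiniteDimensional ℚ_[p] K],
      Module.finrank ℚ_[p] K ≤ D → ∀ ζ ∈ K, ∀ n : ℕ, 0 < n → ζ ^ n = 1 → ζ ^ W = 1 := by
  have hp : p.Prime := Fact.out
  obtain ⟨s1, hs1⟩ := exists_ppow_bound p (Nat.factorial_pos D)
  have hQ : 1 < p ^ D.factorial := Nat.one_lt_pow (Nat.factorial_pos D).ne' hp.one_lt
  refine ⟨p ^ s1 * (p ^ D.factorial - 1), Nat.mul_pos (pow_pos hp.pos _) (by omega), ?_⟩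
  intro K _ hD ζ hζ n hn h
  obtain ⟨s, r, hr, rfl⟩ := Nat.exists_eq_pow_mul_and_not_dvd hn.ne' p hp.ne_one
  obtain ⟨a, b, hab, ha, hb⟩ := exists_root_decomp hr h
  have hr0 : r ≠ 0 := fun h0 => hr (h0 ▸ dvd_zero p)
  have h1 : (ζ ^ a) ^ p ^ s1 = 1 := hs1 _ s ha fun hne =>
    norm_pow_factorial K hD (sub_mem (pow_mem hζ a) (one_mem K)) (sub_ne_zero.mpr hne)
  have hn1 : ‖ζ ^ b‖ = 1 := by
    have h2 := congrArg norm hb
    rw [norm_pow, norm_one] at h2
    exact (pow_eq_one_iff_of_nonneg (norm_nonneg _) hr0).mp h2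
  have h2 : (ζ ^ b) ^ (p ^ D.factorial - 1) = 1 := by
    refine root_eq_one_of_coprime hr (by rw [← pow_mul, mul_comm, pow_mul, hb, one_pow]) ?_
    have h3 := norm_pow_sub_lt K hD (pow_mem hζ b) hn1.le
    have h4 : (ζ ^ b) ^ p ^ D.factorial - ζ ^ b =
        ζ ^ b * ((ζ ^ b) ^ (p ^ D.factorial - 1) - 1) := by
      rw [mul_sub, mul_one, ← pow_succ', Nat.sub_add_cancel hQ.le]
    rwa [h4, norm_mul, hn1, one_mul] at h3
  rw [hab, mul_pow, pow_mul, h1, one_pow, one_mul, mul_comm, pow_mul, h2, one_pow]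

/-- Adjoining finitely many algebraic numbers. -/
theorem exists_field_sup (p : ℕ) [Fact p.Prime] {ι : Type} [Fintype ι] (a : ι → PadicAlgCl p) :
    ∃ D1 : ℕ, ∀ (D : ℕ) (K : IntermediateField ℚ_[p] ℂ_[p]) [FiniteDimensional ℚ_[p] K],
      Module.finrank ℚ_[p] K ≤ D → ∃ K' : IntermediateField ℚ_[p] ℂ_[p],
        ∃ _ : FiniteDimensional ℚ_[p] K', Module.finrank ℚ_[p] K' ≤ D * D1 ∧ K ≤ K' ∧
          ∀ i, ap p (a i) ∈ K' := by
  let L := IntermediateField.adjoin ℚ_[p] (Set.range fun i => ap p (a i))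
  have hL : FiniteDimensional ℚ_[p] L := IntermediateField.finiteDimensional_adjoin (by
    rintro _ ⟨i, rfl⟩
    exact gal1_int_ap _)
  refine ⟨Module.finrank ℚ_[p] L, fun D K _ hD => ⟨K ⊔ L, inferInstance,
    (IntermediateField.finrank_sup_le K L).trans (Nat.mul_le_mul_right _ hD), le_sup_left,
    fun i => (le_sup_right : L ≤ K ⊔ L) ?_⟩⟩
  exact IntermediateField.subset_adjoin _ _ ⟨i, rfl⟩

end Pool.Agent.UAP
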