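import Pool.Agent.Lib.MP_7e5527_ag.Jf
import Pool.Agent.Lib.MP_7e5527_ag.Gal1

open Polynomial UpperHalfPlane
open scoped Polynomial.Bivariate MatrixGroups IntermediateField

noncomputable section

namespace Pool.Agent.UAP

variable {p : ℕ} [Fact p.Prime]

private theorem br_q_pos (p : ℕ) [Fact p.Prime] : (0 : ℝ) < (p : ℝ)⁻¹ :=
  inv_pos.2 (Nat.cast_pos.2 (Fact.out : p.Prime).pos)

private theorem br_q_lt (p : ℕ) [Fact p.Prime] : (p : ℝ)⁻¹ < 1 :=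
  inv_lt_one_of_one_lt₀ (Nat.one_lt_cast.2 (Fact.out : p.Prime).one_lt)

private theorem br_q_sq_lt (p : ℕ) [Fact p.Prime] : (p : ℝ)⁻¹ ^ 2 < (p : ℝ)⁻¹ := by
  have h1 := br_q_pos p
  have h2 := br_q_lt p
  nlinarith

private theorem br_add_le {a b : ℂ_[p]} {r : ℝ} (ha : ‖a‖ ≤ r) (hb : ‖b‖ ≤ r) : ‖a + b‖ ≤ r :=
  (IsUltrametricDist.norm_add_le_max a b).trans (max_le ha hb)

private theorem br_sub_le {a b : ℂ_[p]} {r : ℝ} (ha : ‖a‖ ≤ r) (hb : ‖b‖ ≤ r) : ‖a - b‖ ≤ r := by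
  rw [sub_eq_add_neg]
  exact br_add_le ha (by rwa [norm_neg])

private theorem br_norm_one {u : ℂ_[p]} (hu : ‖u - 1‖ < 1) : ‖u‖ = 1 := by
  have h := IsUltrametricDist.norm_add_eq_max_of_norm_ne_norm (x := u - 1) (y := 1)
    (by rw [norm_one]; exact hu.ne)
  rw [sub_add_cancel, norm_one, max_eq_right hu.le] at h
  exact h

private theorem br_binom {z : ℂ_[p]} (hz : ‖z‖ ≤ 1) (n : ℕ) :
    ‖(1 + z) ^ n - 1 - n * z‖ ≤ ‖z‖ ^ 2 := by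
  induction n with
  | zero => simp
  | succ n ih =>
    have e : (1 + z) ^ (n + 1) - 1 - ((n + 1 : ℕ) : ℂ_[p]) * z =
        (1 + z) * ((1 + z) ^ n - 1 - n * z) + n * z ^ 2 := by push_cast; ring
    rw [e]
    refine br_add_le ?_ ?_
    · rw [norm_mul]
      exact (mul_le_of_le_one_left (norm_nonneg _) (br_add_le norm_one.le hz)).trans ih
    · rw [norm_mul, norm_pow]
      exact mul_le_of_le_one_left (by positivity) (IsUltrametricDist.norm_natCast_le_one _ n)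

private theorem br_step {v : ℂ_[p]} (hv : ‖v - 1‖ ≤ (p : ℝ)⁻¹) :
    ‖v ^ p - 1 - p * (v - 1)‖ ≤ ‖v - 1‖ ^ 2 ∧ ‖v ^ p - 1‖ ≤ (p : ℝ)⁻¹ * ‖v - 1‖ := by
  have h := br_binom (hv.trans (br_q_lt p).le) p
  rw [add_sub_cancel] at h
  refine ⟨h, ?_⟩
  have e : v ^ p - 1 = (v ^ p - 1 - p * (v - 1)) + p * (v - 1) := by ring
  rw [e]
  refine br_add_le (h.trans ?_) (by rw [norm_mul, norm_p_eq])
  rw [sq]
  exact mul_le_mul_of_nonneg_right hv (norm_nonneg _)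

private theorem br_iter {u : ℂ_[p]} (hu : ‖u - 1‖ ≤ (p : ℝ)⁻¹) (k : ℕ) :
    ‖u ^ p ^ k - 1‖ ≤ (p : ℝ)⁻¹ ^ k * ‖u - 1‖ := by
  have h1 := br_q_pos p
  have h2 := br_q_lt p
  induction k with
  | zero => simp
  | succ k ih =>
    have h3 : ‖u ^ p ^ k - 1‖ ≤ (p : ℝ)⁻¹ :=
      ih.trans ((mul_le_of_le_one_left (norm_nonneg _) (pow_le_one₀ h1.le h2.le)).trans hu)
    rw [pow_succ, pow_mul, pow_succ', mul_assoc]
    exact (br_step h3).2.trans (by gcongr)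

private theorem br_diff {u : ℂ_[p]} (hu : ‖u - 1‖ ≤ (p : ℝ)⁻¹) (k : ℕ) :
    ‖(u ^ p ^ (k + 1) - 1) / (p : ℂ_[p]) ^ (k + 1) - (u ^ p ^ k - 1) / (p : ℂ_[p]) ^ k‖ ≤
      p * ‖u - 1‖ ^ 2 * (p : ℝ)⁻¹ ^ k := by
  have h1 := br_q_pos p
  have h2 := br_q_lt p
  have hp : (p : ℂ_[p]) ≠ 0 := Nat.cast_ne_zero.2 (Fact.out : p.Prime).ne_zero
  have hp' : (p : ℝ) ≠ 0 := Nat.cast_ne_zero.2 (Fact.out : p.Prime).ne_zero
  have h3 := br_iter hu k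
  have h4 : ‖u ^ p ^ k - 1‖ ≤ (p : ℝ)⁻¹ :=
    h3.trans ((mul_le_of_le_one_left (norm_nonneg _) (pow_le_one₀ h1.le h2.le)).trans hu)
  have e : (u ^ p ^ (k + 1) - 1) / (p : ℂ_[p]) ^ (k + 1) - (u ^ p ^ k - 1) / (p : ℂ_[p]) ^ k =
      ((u ^ p ^ k) ^ p - 1 - p * (u ^ p ^ k - 1)) / (p : ℂ_[p]) ^ (k + 1) := by
    rw [pow_succ p k, pow_mul]
    field_simp
    ring
  rw [e, norm_div, norm_pow, norm_p_eq, div_le_iff₀ (by positivity)]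
  refine (br_step h4).1.trans ((pow_le_pow_left₀ (norm_nonneg _) h3 2).trans (le_of_eq ?_))
  calc ((p : ℝ)⁻¹ ^ k * ‖u - 1‖) ^ 2 = (p * (p : ℝ)⁻¹) * ((p : ℝ)⁻¹ ^ k * ‖u - 1‖) ^ 2 := by
        rw [mul_inv_cancel₀ hp', one_mul]
    _ = _ := by ring

private theorem br_tendsto {u : ℂ_[p]} (hu : ‖u - 1‖ ≤ (p : ℝ)⁻¹ ^ 2) :
    Filter.Tendsto (fun k : ℕ => (u ^ p ^ k - 1) / (p : ℂ_[p]) ^ k) Filter.atTop
      (nhds (plog u)) := by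
  refine CauchySeq.tendsto_limUnder (cauchySeq_of_le_geometric (p : ℝ)⁻¹ (p * ‖u - 1‖ ^ 2)
    (br_q_lt p) fun k => ?_)
  rw [dist_comm, dist_eq_norm]
  exact br_diff (hu.trans (br_q_sq_lt p).le) k

private theorem br_mul_near {u v : ℂ_[p]} (hu : ‖u - 1‖ ≤ (p : ℝ)⁻¹ ^ 2)
    (hv : ‖v - 1‖ ≤ (p : ℝ)⁻¹ ^ 2) : ‖u * v - 1‖ ≤ (p : ℝ)⁻¹ ^ 2 := by
  have e : u * v - 1 = u * (v - 1) + (u - 1) := by ring
  rw [e]
  refine br_add_le ?_ hu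
  rwa [norm_mul, br_norm_one (hu.trans_lt ((br_q_sq_lt p).trans (br_q_lt p))), one_mul]

private theorem br_pow_near {u : ℂ_[p]} (hu : ‖u - 1‖ ≤ (p : ℝ)⁻¹ ^ 2) (k : ℕ) :
    ‖u ^ k - 1‖ ≤ (p : ℝ)⁻¹ ^ 2 := by
  induction k with
  | zero => simp
  | succ k ih => rw [pow_succ]; exact br_mul_near ih hu

theorem plog_mul {u v : ℂ_[p]} (hu : ‖u - 1‖ ≤ (p : ℝ)⁻¹ ^ 2) (hv : ‖v - 1‖ ≤ (p : ℝ)⁻¹ ^ 2) :
    plog (u * v) = plog u + plog v := by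
  have h1 := br_q_pos p
  have h2 := br_q_lt p
  have h3 : Filter.Tendsto (fun k : ℕ => (u ^ p ^ k - 1) * (v ^ p ^ k - 1) / (p : ℂ_[p]) ^ k)
      Filter.atTop (nhds 0) := by
    refine squeeze_zero_norm (a := fun k : ℕ => (p : ℝ)⁻¹ ^ k * (‖u - 1‖ * ‖v - 1‖)) (fun k => ?_) ?_
    · rw [norm_div, norm_pow, norm_p_eq, div_le_iff₀ (by positivity), norm_mul]
      refine (mul_le_mul (br_iter (hu.trans (br_q_sq_lt p).le) k)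
        (br_iter (hv.trans (br_q_sq_lt p).le) k) (norm_nonneg _) (by positivity)).trans
        (le_of_eq (by ring))
    · simpa using (tendsto_pow_atTop_nhds_zero_of_lt_one h1.le h2).mul_const (‖u - 1‖ * ‖v - 1‖)
  have h4 := ((br_tendsto hu).add (br_tendsto hv)).add h3
  rw [add_zero] at h4
  refine tendsto_nhds_unique (br_tendsto (br_mul_near hu hv)) (h4.congr fun k => ?_)
  rw [mul_pow]
  ring

theorem plog_pow {u : ℂ_[p]} (hu : ‖u - 1‖ ≤ (p : ℝ)⁻¹ ^ 2) (k : ℕ) :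
    plog (u ^ k) = k * plog u := by
  induction k with
  | zero =>
    have h := br_tendsto (p := p) (u := 1) (by simp)
    simp only [one_pow, sub_self, zero_div] at h
    simpa using tendsto_nhds_unique h tendsto_const_nhds
  | succ k ih =>
    rw [pow_succ, plog_mul (br_pow_near hu k) hu, ih]
    push_cast
    ring

theorem norm_plog_sub {u : ℂ_[p]} (hu : ‖u - 1‖ ≤ (p : ℝ)⁻¹ ^ 2) :
    ‖plog u - (u - 1)‖ ≤ p * ‖u - 1‖ ^ 2 := by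
  have h1 := br_q_pos p
  have h2 := br_q_lt p
  refine le_of_tendsto' ((br_tendsto hu).sub_const (u - 1)).norm fun k => ?_
  induction k with
  | zero => simp; positivity
  | succ k ih =>
    rw [← sub_add_sub_cancel _ ((u ^ p ^ k - 1) / (p : ℂ_[p]) ^ k)]
    exact br_add_le ((br_diff (hu.trans (br_q_sq_lt p).le) k).trans
      (mul_le_of_le_one_right (by positivity) (pow_le_one₀ h1.le h2.le))) ih

/-- Basic estimates on a branch. -/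
theorem branch_basic (β : Br p) {C : ℝ} (hC : 0 ≤ C) : ∃ r1 C1 : ℝ, 0 < r1 ∧ r1 ≤ 1 ∧ 0 ≤ C1 ∧
    ∀ t y : ℂ_[p], BrPt β C t y → ‖t‖ < r1 →
      y ≠ 0 ∧ ‖y‖ < 1 ∧ ‖y‖ = ‖β.c‖ * ‖t‖ ^ β.n ∧ ‖uB β t y - 1‖ ≤ (p : ℝ)⁻¹ ^ 2 ∧
      ‖uB β t y - 1‖ ≤ C1 * ‖t‖ ∧
      ‖plog (uB β t y) - ap p β.c2 * t ^ β.κ‖ ≤ C1 * ‖t‖ ^ (β.κ + 1) ∧
      C1 * ‖t‖ < ‖β.c2‖ * (p : ℝ)⁻¹ := by
  have h1 := br_q_pos p
  have h2 := br_q_lt p
  have h3 := br_q_sq_lt p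
  have hc : 0 < ‖β.c‖ := norm_pos_iff.2 β.hc
  have hc2 : 0 < ‖β.c2‖ := norm_pos_iff.2 β.hc2
  obtain ⟨A, hA⟩ : ∃ A : ℝ, A = ‖β.c2‖ + C / ‖β.c‖ := ⟨_, rfl⟩
  have hCc : 0 ≤ C / ‖β.c‖ := by positivity
  have hA0 : 0 ≤ A := by rw [hA]; positivity
  obtain ⟨C1, hC1⟩ : ∃ C1 : ℝ, C1 = A + p * A ^ 2 := ⟨_, rfl⟩
  have hpA : 0 ≤ (p : ℝ) * A ^ 2 := by positivity
  have hC10 : 0 ≤ C1 := by rw [hC1]; positivity
  obtain ⟨δ, hδ0, hδ1, hδ2⟩ : ∃ δ : ℝ, 0 < δ ∧ δ ≤ (p : ℝ)⁻¹ ^ 2 ∧ δ ≤ ‖β.c2‖ * (p : ℝ)⁻¹ :=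
    ⟨min _ _, lt_min (by positivity) (by positivity), min_le_left _ _, min_le_right _ _⟩
  have hM : 0 < C1 + ‖β.c‖ + 1 := by positivity
  refine ⟨δ / (C1 + ‖β.c‖ + 1), C1, by positivity, ?_, hC10, fun t y ⟨ht0, hb⟩ ht => ?_⟩
  · rw [div_le_one hM]; linarith
  rw [lt_div_iff₀ hM] at ht
  have hs0 : 0 < ‖t‖ := norm_pos_iff.2 ht0
  have a1 : 0 ≤ ‖t‖ * C1 := by positivity
  have a2 : 0 ≤ ‖t‖ * ‖β.c‖ := by positivity
  have hs1 : ‖t‖ ≤ 1 := by nlinarith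
  have a3 : C1 * ‖t‖ < δ := by nlinarith
  have a4 : ‖β.c‖ * ‖t‖ < 1 := by nlinarith
  have hcn : ‖ap p β.c * t ^ β.n‖ = ‖β.c‖ * ‖t‖ ^ β.n := by rw [norm_mul, norm_pow, norm_ap]
  have hcn0 : 0 < ‖β.c‖ * ‖t‖ ^ β.n := by positivity
  have hne : ap p β.c * t ^ β.n ≠ 0 := norm_pos_iff.1 (hcn ▸ hcn0)
  have b1 : ‖uB β t y - 1 - ap p β.c2 * t ^ β.κ‖ ≤ C / ‖β.c‖ * ‖t‖ ^ (β.κ + 1) := by
    have e : uB β t y - 1 - ap p β.c2 * t ^ β.κ =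
        (y - ap p β.c * t ^ β.n * (1 + ap p β.c2 * t ^ β.κ)) / (ap p β.c * t ^ β.n) := by
      unfold uB
      rw [sub_div, mul_div_cancel_left₀ _ hne]
      ring
    rw [e, norm_div, hcn, div_le_iff₀ hcn0]
    refine hb.trans (le_of_eq ?_)
    field_simp
    ring
  have b2 : ‖uB β t y - 1‖ ≤ A * ‖t‖ ^ β.κ := by
    rw [← sub_add_cancel (uB β t y - 1) (ap p β.c2 * t ^ β.κ)]
    refine br_add_le (b1.trans ?_) ?_
    · exact mul_le_mul (by linarith) (pow_le_pow_of_le_one hs0.le hs1 (by omega)) (by positivity)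
        hA0
    · rw [norm_mul, norm_pow, norm_ap]
      exact mul_le_mul_of_nonneg_right (by linarith) (by positivity)
  have b3 : ‖uB β t y - 1‖ ≤ C1 * ‖t‖ :=
    b2.trans (mul_le_mul (by linarith) (pow_le_of_le_one hs0.le hs1 β.hκ.ne') (by positivity) hC10)
  have b4 : ‖uB β t y - 1‖ ≤ (p : ℝ)⁻¹ ^ 2 := by linarith
  have b5 : ‖y‖ = ‖β.c‖ * ‖t‖ ^ β.n := by
    have h4 := br_norm_one (b4.trans_lt (h3.trans h2))
    unfold uB at h4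
    rwa [norm_div, hcn, div_eq_one_iff_eq hcn0.ne'] at h4
  refine ⟨norm_pos_iff.1 (b5 ▸ hcn0), ?_, b5, b4, b3, ?_, by linarith⟩
  · rw [b5]
    exact (mul_le_mul_of_nonneg_left (pow_le_of_le_one hs0.le hs1 β.hn.ne') hc.le).trans_lt a4
  · rw [← sub_add_sub_cancel _ (uB β t y - 1)]
    refine br_add_le ((norm_plog_sub b4).trans ?_)
      (b1.trans (mul_le_mul_of_nonneg_right (by linarith) (by positivity)))
    have hκ := β.hκ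
    calc (p : ℝ) * ‖uB β t y - 1‖ ^ 2 ≤ p * (A * ‖t‖ ^ β.κ) ^ 2 := by gcongr
      _ = p * A ^ 2 * ‖t‖ ^ (β.κ * 2) := by rw [mul_pow, ← pow_mul, mul_assoc]
      _ ≤ C1 * ‖t‖ ^ (β.κ + 1) :=
        mul_le_mul (by linarith) (pow_le_pow_of_le_one hs0.le hs1 (by omega)) (by positivity) hC10

private theorem br_rou {x0 w z z' : ℂ_[p]} (hw : InG x0 w) (hw0 : w ≠ 0) (hw1 : ‖w‖ < 1)
    (hz : InG x0 z) (hz' : InG x0 z') (hz0 : z ≠ 0) (h : ‖z'‖ = ‖z‖) :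
    ∃ N : ℕ, 0 < N ∧ (z' / z) ^ N = 1 := by
  obtain ⟨h1, h2⟩ := hw.base hw0 hw1
  exact InG.root_of_unity h1 h2 (InG.div h1 hz' hz)
    (by rw [norm_div, h, div_self (norm_ne_zero_iff.2 hz0)])

private theorem br_eq_of_rou {u u' a b : ℂ_[p]} {n : ℕ} (ha : ∃ N : ℕ, 0 < N ∧ a ^ N = 1)
    (hb : ∃ N : ℕ, 0 < N ∧ b ^ N = 1) (hu : ‖u - 1‖ ≤ (p : ℝ)⁻¹ ^ 2)
    (hu' : ‖u' - 1‖ ≤ (p : ℝ)⁻¹ ^ 2) (h : u' / u = a / b ^ n) : u' = u := by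
  obtain ⟨N, hN, ha⟩ := ha
  obtain ⟨N', hN', hb⟩ := hb
  have h1 := br_norm_one (hu.trans_lt ((br_q_sq_lt p).trans (br_q_lt p)))
  have h0 : u ≠ 0 := norm_ne_zero_iff.1 (h1 ▸ one_ne_zero)
  refine (div_eq_one_iff_eq h0).1 (root_eq_one_of_near (Nat.mul_pos hN hN') ?_ ?_)
  · rw [h, div_pow, pow_mul, ha, one_pow, ← pow_mul, show n * (N * N') = N' * (n * N) by ring,
      pow_mul, hb, one_pow, div_one]
  · rw [div_sub_one h0, norm_div, h1, div_one, ← sub_sub_sub_cancel_right u' u 1]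
    exact (br_sub_le hu' hu).trans_lt (br_q_sq_lt p)

/-- Two branch points of the same norm. -/
theorem branch_same (β : Br p) {C : ℝ} (hC : 0 ≤ C) : ∃ r1 : ℝ, 0 < r1 ∧
    ∀ (x0 y0 : ℂ_[p]), ∀ T ∈ BP β C r1 x0 y0, ∀ T' ∈ BP β C r1 x0 y0, ‖T.1‖ = ‖T'.1‖ →
      T'.1 ^ β.κ = T.1 ^ β.κ ∧ T'.2 ^ β.κ = T.2 ^ β.κ := by
  obtain ⟨r1, C1, hr0, hr1, hC1, H⟩ := branch_basic β hC
  refine ⟨r1, hr0, ?_⟩
  rintro x0 y0 ⟨t, y⟩ ⟨hb, ht, hx, hy⟩ ⟨t', y'⟩ ⟨hb', ht', hx', hy'⟩ hn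
  dsimp only at *
  obtain ⟨a1, a2, a3, a4, -, a6, a7⟩ := H t y hb ht
  obtain ⟨b1, -, b3, b4, -, b6, -⟩ := H t' y' hb' ht'
  have ht0 := hb.1
  have ht0' := hb'.1
  have hc : ap p β.c ≠ 0 := (_root_.map_ne_zero _).2 β.hc
  have r1' := br_rou hx ht0 (ht.trans_le hr1) hx hx' ht0 hn.symm
  have r2 := br_rou hy a1 a2 hy hy' a1 (by rw [a3, b3, hn])
  have hu : uB β t' y' = uB β t y := br_eq_of_rou (n := β.n) r2 r1' a4 b4 (by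
    unfold uB
    rw [div_pow]
    field_simp)
  have hκ : t' ^ β.κ = t ^ β.κ := by
    obtain ⟨N, hN, hr⟩ := r1'
    have h1 : (t' / t) ^ β.κ = 1 := by
      refine root_eq_one_of_near hN (by rw [← pow_mul, mul_comm, pow_mul, hr, one_pow]) ?_
      rw [hu, ← hn] at b6
      have h2 := br_sub_le a6 b6
      have e : plog (uB β t y) - ap p β.c2 * t ^ β.κ - (plog (uB β t y) - ap p β.c2 * t' ^ β.κ) =
          ap p β.c2 * ((t' / t) ^ β.κ - 1) * t ^ β.κ := by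
        rw [div_pow]
        field_simp
        ring
      have h3 : 0 < ‖t‖ ^ β.κ := pow_pos (norm_pos_iff.2 ht0) _
      rw [e, norm_mul, norm_mul, norm_pow, norm_ap, pow_succ', ← mul_assoc] at h2
      exact lt_of_mul_lt_mul_left ((le_of_mul_le_mul_right h2 h3).trans_lt a7) (norm_nonneg _)
    rwa [div_pow, div_eq_one_iff_eq (pow_ne_zero _ ht0)] at h1
  refine ⟨hκ, ?_⟩
  have e1 : y = uB β t y * (ap p β.c * t ^ β.n) := by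
    unfold uB
    field_simp
  have e2 : y' = uB β t y * (ap p β.c * t' ^ β.n) := by
    rw [← hu]
    unfold uB
    field_simp
  rw [e2]
  conv_rhs => rw [e1]
  rw [mul_pow, mul_pow, mul_pow, mul_pow, ← pow_mul, ← pow_mul, mul_comm β.n, pow_mul, pow_mul, hκ]

/-- Branch points are rational after taking the power `κ`. -/
theorem branch_rational (β : Br p) {C : ℝ} (hC : 0 ≤ C) : ∃ r1 : ℝ, 0 < r1 ∧
    ∀ (K : IntermediateField ℚ_[p] ℂ_[p]) [FiniteDimensional ℚ_[p] K], ap p β.c ∈ K →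
      ap p β.c2 ∈ K → ∀ x0 ∈ K, ∀ y0 ∈ K, ∀ T ∈ BP β C r1 x0 y0,
        T.1 ^ β.κ ∈ K ∧ T.2 ^ β.κ ∈ K := by
  obtain ⟨r1, hr0, H⟩ := branch_same β hC
  refine ⟨r1, hr0, fun K _ hc hc2 x0 hx0 y0 hy0 T hT => ?_⟩
  have key : ∀ σ : ℂ_[p] →+* ℂ_[p], Iso σ → (∀ a ∈ K, σ a = a) →
      σ (T.1 ^ β.κ) = T.1 ^ β.κ ∧ σ (T.2 ^ β.κ) = T.2 ^ β.κ := by
    intro σ hσ hK
    rw [map_pow, map_pow]
    refine H x0 y0 T hT (σ T.1, σ T.2) ⟨⟨(_root_.map_ne_zero σ).2 hT.1.1, ?_⟩, ?_,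
      InG.map σ (hK _ hx0) hT.2.2.1, InG.map σ (hK _ hy0) hT.2.2.2⟩ (hσ _).symm
    · have h := hT.1.2
      rw [← hσ, ← hσ T.1] at h
      simpa [hK _ hc, hK _ hc2] using h
    · exact (hσ _).trans_lt hT.2.1
  obtain ⟨n1, hn1, h1⟩ := InG.exists_pow_mem hx0 hT.2.2.1
  obtain ⟨n2, hn2, h2⟩ := InG.exists_pow_mem hy0 hT.2.2.2
  exact ⟨mem_of_fixed K hn1 (by rw [← pow_mul, mul_comm, pow_mul]; exact pow_mem h1 _)
      fun σ a b => (key σ a b).1,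
    mem_of_fixed K hn2 (by rw [← pow_mul, mul_comm, pow_mul]; exact pow_mem h2 _)
      fun σ a b => (key σ a b).2⟩

theorem BP_mono (β : Br p) (C : ℝ) {r r' : ℝ} (h : r ≤ r') (x0 y0 : ℂ_[p]) :
    BP β C r x0 y0 ⊆ BP β C r' x0 y0 :=
  fun _ hT => ⟨hT.1, hT.2.1.trans_le h, hT.2.2⟩

/-- The logarithm is an affine function of the valuation on the class. -/
theorem branch_three (β : Br p) {C : ℝ} (hC : 0 ≤ C) : ∃ r1 : ℝ, 0 < r1 ∧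
    ∀ (x0 y0 : ℂ_[p]), ∀ T1 ∈ BP β C r1 x0 y0, ∀ T2 ∈ BP β C r1 x0 y0, ∀ T3 ∈ BP β C r1 x0 y0,
      ∀ a c : ℕ, ‖T1.1‖ ^ a * ‖T3.1‖ ^ c = ‖T2.1‖ ^ (a + c) →
        a * plog (uB β T1.1 T1.2) + c * plog (uB β T3.1 T3.2) =
          (a + c) * plog (uB β T2.1 T2.2) := by
  obtain ⟨r1, C1, hr0, hr1, hC1, H⟩ := branch_basic β hC
  refine ⟨r1, hr0, ?_⟩
  rintro x0 y0 ⟨t1, y1⟩ ⟨hb1, ht1, hx1, hy1⟩ ⟨t2, y2⟩ ⟨hb2, ht2, hx2, hy2⟩ ⟨t3, y3⟩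
    ⟨hb3, ht3, hx3, hy3⟩ a c hn
  dsimp only at *
  obtain ⟨a1, a2, a3, a4, -⟩ := H t1 y1 hb1 ht1
  obtain ⟨b1, -, b3, b4, -⟩ := H t2 y2 hb2 ht2
  obtain ⟨c1, -, c3, c4, -⟩ := H t3 y3 hb3 ht3
  have t10 := hb1.1
  have t20 := hb2.1
  have t30 := hb3.1
  have hc : ap p β.c ≠ 0 := (_root_.map_ne_zero _).2 β.hc
  have hx0 := (hx1.base t10 (ht1.trans_le hr1)).1
  have hy0 := (hy1.base a1 a2).1
  have r1' := br_rou hx1 t10 (ht1.trans_le hr1) (hx2.pow (a + c))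
    (InG.mul hx0 (hx1.pow a) (hx3.pow c)) (pow_ne_zero _ t20)
    (by rw [norm_mul, norm_pow, norm_pow, norm_pow, hn])
  have r2 := br_rou hy1 a1 a2 (hy2.pow (a + c))
    (InG.mul hy0 (hy1.pow a) (hy3.pow c)) (pow_ne_zero _ b1) (by
      rw [norm_mul, norm_pow, norm_pow, norm_pow, a3, b3, c3, mul_pow _ _ (a + c), ← pow_mul,
        mul_comm β.n, pow_mul, ← hn]
      ring)
  have hu : uB β t1 y1 ^ a * uB β t3 y3 ^ c = uB β t2 y2 ^ (a + c) :=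
    br_eq_of_rou (n := β.n) r2 r1' (br_pow_near b4 _)
      (br_mul_near (br_pow_near a4 _) (br_pow_near c4 _)) (by
        unfold uB
        simp only [div_pow, mul_pow]
        field_simp
        ring)
  have h := congrArg plog hu
  rw [plog_mul (br_pow_near a4 _) (br_pow_near c4 _), plog_pow a4, plog_pow c4, plog_pow b4] at h
  rw [h]
  push_cast
  ring

end Pool.Agent.UAP
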