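import Pool.Agent.Lib.MP_7e5527_ag.Arch0

open Polynomial UpperHalfPlane
open scoped Polynomial.Bivariate MatrixGroups IntermediateField

noncomputable section

namespace Pool.Agent.UAP

theorem exists_reduce {N : ℕ} (hN : 0 < N) (M : Matrix (Fin 2) (Fin 2) ℤ) (hM : M.det = N) :
    ∃ γ : SL(2, ℤ), ∃ g ∈ Tri N, (γ : Matrix (Fin 2) (Fin 2) ℤ) * M =
      !![(g.1 : ℤ), (g.2.1 : ℤ); 0, (g.2.2 : ℤ)] := by
  rw [Matrix.det_fin_two] at hM
  have hN' : (0 : ℤ) < N := by exact_mod_cast hN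
  have ha : 0 < Int.gcd (M 0 0) (M 1 0) := by
    rw [Int.gcd_pos_iff]
    by_contra h
    push Not at h
    rw [h.1, h.2] at hM
    simp at hM
    omega
  obtain ⟨p, hp⟩ := Int.gcd_dvd_left (M 0 0) (M 1 0)
  obtain ⟨q, hq⟩ := Int.gcd_dvd_right (M 0 0) (M 1 0)
  have hb := Int.gcd_eq_gcd_ab (M 0 0) (M 1 0)
  generalize Int.gcdA (M 0 0) (M 1 0) = u at hb
  generalize Int.gcdB (M 0 0) (M 1 0) = v at hb
  generalize Int.gcd (M 0 0) (M 1 0) = a at ha hp hq hb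
  have ha' : (0 : ℤ) < a := by exact_mod_cast ha
  have h1 : u * p + v * q = 1 := by
    apply mul_left_cancel₀ ha'.ne'
    rw [hp, hq] at hb
    linear_combination -hb
  obtain ⟨d, hd⟩ : ∃ d, d = p * M 1 1 - q * M 0 1 := ⟨_, rfl⟩
  have had : (a : ℤ) * d = N := by
    rw [← hM, hp, hq, hd]; ring
  have hd0 : 0 < d := by
    by_contra h
    push Not at h
    nlinarith
  obtain ⟨b, hb0⟩ : ∃ b, b = u * M 0 1 + v * M 1 1 := ⟨_, rfl⟩
  have hr0 : 0 ≤ b % d := Int.emod_nonneg _ hd0.ne'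
  have hr1 : b % d < d := Int.emod_lt_of_pos _ hd0
  have hr2 : b % d = b - d * (b / d) := Int.emod_def b d
  refine ⟨⟨!![u + (b / d) * q, v - (b / d) * p; -q, p], ?_⟩, (a, (b % d).toNat, d.toNat), ?_, ?_⟩
  · rw [Matrix.det_fin_two_of]
    linear_combination h1
  · rw [mem_Tri hN]
    constructor
    · have : ((a * d.toNat : ℕ) : ℤ) = N := by
        rw [Nat.cast_mul, Int.toNat_of_nonneg hd0.le, had]
      exact_mod_cast this
    · change (b % d).toNat < d.toNat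
      omega
  · simp only [Int.toNat_of_nonneg hd0.le, Int.toNat_of_nonneg hr0]
    ext i j
    fin_cases i <;> fin_cases j <;> simp [Matrix.mul_apply, Fin.sum_univ_two]
    · rw [hp, hq]; linear_combination (a : ℤ) * h1
    · rw [hr2]; linear_combination -hb0 + (b / d) * hd
    · rw [hp, hq]; ring
    · linear_combination -hd

private theorem coset_pos {N : ℕ} (hN : 0 < N) {g : ℕ × ℕ × ℕ} (hg : g ∈ Tri N) :
    0 < g.1 ∧ 0 < g.2.2 := by
  have h := ((mem_Tri hN).1 hg).1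
  constructor
  · rcases Nat.eq_zero_or_pos g.1 with h0 | h0
    · rw [h0] at h; omega
    · exact h0
  · rcases Nat.eq_zero_or_pos g.2.2 with h0 | h0
    · rw [h0] at h; omega
    · exact h0

theorem reduce_unique {N : ℕ} (hN : 0 < N) {g g' : ℕ × ℕ × ℕ} (hg : g ∈ Tri N) (hg' : g' ∈ Tri N)
    (γ : SL(2, ℤ)) (h : (γ : Matrix (Fin 2) (Fin 2) ℤ) * !![(g.1 : ℤ), (g.2.1 : ℤ); 0, (g.2.2 : ℤ)]
      = !![(g'.1 : ℤ), (g'.2.1 : ℤ); 0, (g'.2.2 : ℤ)]) : g = g' := by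
  obtain ⟨a, b, d⟩ := g
  obtain ⟨a', b', d'⟩ := g'
  obtain ⟨ha, hd⟩ := coset_pos hN hg
  obtain ⟨ha', hd'⟩ := coset_pos hN hg'
  have hb := ((mem_Tri hN).1 hg).2
  have hb' := ((mem_Tri hN).1 hg').2
  simp only at ha hd ha' hd' hb hb' h
  have hdet := γ.det_coe
  rw [Matrix.det_fin_two] at hdet
  have h00 := congrFun (congrFun h 0) 0
  have h01 := congrFun (congrFun h 0) 1
  have h10 := congrFun (congrFun h 1) 0
  have h11 := congrFun (congrFun h 1) 1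
  simp [Matrix.mul_apply, Fin.sum_univ_two] at h00 h01 h10 h11
  generalize (γ : Matrix (Fin 2) (Fin 2) ℤ) 0 0 = x at *
  generalize (γ : Matrix (Fin 2) (Fin 2) ℤ) 0 1 = y at *
  generalize (γ : Matrix (Fin 2) (Fin 2) ℤ) 1 0 = z at *
  generalize (γ : Matrix (Fin 2) (Fin 2) ℤ) 1 1 = w at *
  have hz : z = 0 := by
    rcases h10 with h10 | h10
    · exact h10
    · omega
  subst hz
  have ha1 : (0 : ℤ) < a := by exact_mod_cast ha
  have ha2 : (0 : ℤ) < a' := by exact_mod_cast ha'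
  have hx : 0 < x := by
    by_contra hx
    push Not at hx
    nlinarith
  have hxw : x * w = 1 := by linear_combination hdet
  have hx1 : x = 1 := Int.eq_one_of_mul_eq_one_right hx.le hxw
  subst hx1
  have hw1 : w = 1 := by linear_combination hxw
  subst hw1
  have e1 : a = a' := by omega
  have e2 : d = d' := by omega
  subst e1 e2
  have hd1 : (0 : ℤ) < d := by exact_mod_cast hd
  have hb1 : (b : ℤ) < d := by exact_mod_cast hb
  have hb2 : (b' : ℤ) < d := by exact_mod_cast hb'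
  have hb3 : (0 : ℤ) ≤ b := by positivity
  have hb4 : (0 : ℤ) ≤ b' := by positivity
  have hy : y = 0 := by
    rcases lt_trichotomy y 0 with hy | hy | hy
    · nlinarith
    · exact hy
    · nlinarith
  subst hy
  have e3 : b = b' := by omega
  rw [e3]

/-- The real invertible matrix of an integer matrix. -/
private def cosetGL (M : Matrix (Fin 2) (Fin 2) ℤ) : GL (Fin 2) ℝ :=
  if h : (M.map (Int.castRingHom ℝ)).det ≠ 0 then
    Matrix.GeneralLinearGroup.mkOfDetNeZero _ h else 1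

private theorem coset_det_map (M : Matrix (Fin 2) (Fin 2) ℤ) :
    (M.map (Int.castRingHom ℝ)).det = (M.det : ℝ) := by
  simp [Matrix.det_fin_two]

private theorem coset_val {M : Matrix (Fin 2) (Fin 2) ℤ} (hM : M.det ≠ 0) :
    (cosetGL M : Matrix (Fin 2) (Fin 2) ℝ) = M.map (Int.castRingHom ℝ) := by
  have h : (M.map (Int.castRingHom ℝ)).det ≠ 0 := by
    rw [coset_det_map]
    exact_mod_cast hM
  rw [cosetGL, dif_pos h]
  rfl

private theorem coset_mul_left {M : Matrix (Fin 2) (Fin 2) ℤ} (hM : M.det ≠ 0) (γ : SL(2, ℤ))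
    (τ : ℍ) : cosetGL ((γ : Matrix (Fin 2) (Fin 2) ℤ) * M) • τ = γ • (cosetGL M • τ) := by
  have h : ((γ : Matrix (Fin 2) (Fin 2) ℤ) * M).det ≠ 0 := by
    rwa [Matrix.det_mul, γ.det_coe, one_mul]
  have e : cosetGL ((γ : Matrix (Fin 2) (Fin 2) ℤ) * M) =
      Matrix.SpecialLinearGroup.mapGL ℝ γ * cosetGL M := by
    apply Units.ext
    rw [Units.val_mul, coset_val h, coset_val hM, Matrix.map_mul]
    rfl
  rw [e, mul_smul]
  rfl

private theorem coset_mul_right {M : Matrix (Fin 2) (Fin 2) ℤ} (hM : M.det ≠ 0) (γ : SL(2, ℤ))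
    (τ : ℍ) : cosetGL (M * (γ : Matrix (Fin 2) (Fin 2) ℤ)) • τ = cosetGL M • (γ • τ) := by
  have h : (M * (γ : Matrix (Fin 2) (Fin 2) ℤ)).det ≠ 0 := by
    rwa [Matrix.det_mul, γ.det_coe, mul_one]
  have e : cosetGL (M * (γ : Matrix (Fin 2) (Fin 2) ℤ)) =
      cosetGL M * Matrix.SpecialLinearGroup.mapGL ℝ γ := by
    apply Units.ext
    rw [Units.val_mul, coset_val h, coset_val hM, Matrix.map_mul]
    rfl
  rw [e, mul_smul]
  rfl

private theorem coset_det_tri (g : ℕ × ℕ × ℕ) :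
    (!![(g.1 : ℤ), (g.2.1 : ℤ); 0, (g.2.2 : ℤ)] : Matrix (Fin 2) (Fin 2) ℤ).det =
      ((g.1 * g.2.2 : ℕ) : ℤ) := by
  simp [Matrix.det_fin_two]

private theorem coset_aff {g : ℕ × ℕ × ℕ} (ha : 0 < g.1) (hd : 0 < g.2.2) (τ : ℍ) :
    cosetGL !![(g.1 : ℤ), (g.2.1 : ℤ); 0, (g.2.2 : ℤ)] • τ = aff g τ := by
  have hp : 0 < g.1 * g.2.2 := Nat.mul_pos ha hd
  have hM : (!![(g.1 : ℤ), (g.2.1 : ℤ); 0, (g.2.2 : ℤ)] : Matrix (Fin 2) (Fin 2) ℤ).det ≠ 0 := by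
    rw [coset_det_tri]; exact_mod_cast hp.ne'
  have hdet : 0 < (cosetGL !![(g.1 : ℤ), (g.2.1 : ℤ); 0, (g.2.2 : ℤ)]).det.val := by
    rw [Matrix.GeneralLinearGroup.val_det_apply, coset_val hM, coset_det_map, coset_det_tri]
    exact_mod_cast hp
  apply UpperHalfPlane.ext
  rw [coe_smul_of_det_pos hdet, coe_aff ha hd]
  simp [num, denom, coset_val hM]

private theorem coset_clear (g : GL (Fin 2) ℚ) (hg : 0 < (g : Matrix (Fin 2) (Fin 2) ℚ).det) :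
    ∃ M : Matrix (Fin 2) (Fin 2) ℤ, 0 < M.det ∧ ∀ τ : ℍ, act g τ = cosetGL M • τ := by
  obtain ⟨D, hD⟩ := IsLocalization.exist_integer_multiples_of_finite (nonZeroDivisors ℤ)
    (fun ij : Fin 2 × Fin 2 => (g : Matrix (Fin 2) (Fin 2) ℚ) ij.1 ij.2)
  choose m hm using hD
  have hD0 : (D : ℤ) ≠ 0 := nonZeroDivisors.coe_ne_zero D
  have hm' : ∀ i j, ((m (i, j) : ℤ) : ℚ) = ((D : ℤ) : ℚ) * (g : Matrix (Fin 2) (Fin 2) ℚ) i j := by
    intro i j
    have := hm (i, j)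
    simpa [Submonoid.smul_def] using this
  have hDq : ((D : ℤ) : ℚ) ≠ 0 := by exact_mod_cast hD0
  have hdet : 0 < (Matrix.of fun i j => m (i, j)).det := by
    have : (((Matrix.of fun i j => m (i, j)).det : ℤ) : ℚ) =
        ((D : ℤ) : ℚ) ^ 2 * (g : Matrix (Fin 2) (Fin 2) ℚ).det := by
      rw [Matrix.det_fin_two, Matrix.det_fin_two]
      simp only [Matrix.of_apply]
      push_cast
      simp only [hm']
      ring
    have h2 : (0 : ℚ) < (((Matrix.of fun i j => m (i, j)).det : ℤ) : ℚ) := by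
      rw [this]; positivity
    exact_mod_cast h2
  refine ⟨Matrix.of fun i j => m (i, j), hdet, fun τ => ?_⟩
  have hDr : ((D : ℤ) : ℝ) ≠ 0 := by exact_mod_cast hD0
  have e : cosetGL (Matrix.of fun i j => m (i, j)) =
      Matrix.GeneralLinearGroup.scalar (Fin 2) (Units.mk0 _ hDr) *
        Matrix.GeneralLinearGroup.map (algebraMap ℚ ℝ) g := by
    apply Units.ext
    rw [Units.val_mul, coset_val hdet.ne']
    ext i j
    have := congrArg (fun x : ℚ => (x : ℝ)) (hm' i j)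
    simp only [Rat.cast_intCast, Rat.cast_mul] at this
    change _ = (Matrix.scalar (Fin 2) ((D : ℤ) : ℝ) *
      (g : Matrix (Fin 2) (Fin 2) ℚ).map (algebraMap ℚ ℝ)) i j
    rw [Matrix.scalar_apply, Matrix.diagonal_mul]
    simpa using this
  rw [e, mul_smul, glScalar_smul, act]

theorem exists_prim_of_act (g : GL (Fin 2) ℚ) (hg : 0 < (g : Matrix (Fin 2) (Fin 2) ℚ).det) :
    ∃ N : ℕ, 0 < N ∧ ∃ h ∈ Prim N, ∀ τ : ℍ, jf (act g τ) = jf (aff h τ) := by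
  obtain ⟨M, hM, hact⟩ := coset_clear g hg
  have hN0 : 0 < M.det.toNat := by omega
  obtain ⟨γ, g0, hg0, h⟩ := exists_reduce hN0 M (Int.toNat_of_nonneg hM.le).symm
  obtain ⟨ha, hd⟩ := coset_pos hN0 hg0
  have hb := ((mem_Tri hN0).1 hg0).2
  have key : ∀ τ : ℍ, jf (act g τ) = jf (aff g0 τ) := by
    intro τ
    rw [hact, ← coset_aff ha hd, ← h, coset_mul_left hM.ne', jf_smul]
  obtain ⟨a, b, d⟩ := g0
  simp only at ha hd hb
  obtain ⟨e, he⟩ : ∃ e, e = Nat.gcd a (Nat.gcd b d) := ⟨_, rfl⟩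
  have he0 : 0 < e := he ▸ Nat.gcd_pos_of_pos_left _ ha
  obtain ⟨a', ha'⟩ : e ∣ a := he ▸ Nat.gcd_dvd_left _ _
  obtain ⟨b', hb'⟩ : e ∣ b := he ▸ (Nat.gcd_dvd_right _ _).trans (Nat.gcd_dvd_left _ _)
  obtain ⟨d', hd'⟩ : e ∣ d := he ▸ (Nat.gcd_dvd_right _ _).trans (Nat.gcd_dvd_right _ _)
  subst ha' hb' hd'
  have ha0 : 0 < a' := Nat.pos_of_mul_pos_left ha
  have hd0 : 0 < d' := Nat.pos_of_mul_pos_left hd
  have hN : 0 < a' * d' := Nat.mul_pos ha0 hd0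
  refine ⟨a' * d', hN, (a', b', d'), ?_, fun τ => ?_⟩
  · rw [mem_Prim hN]
    refine ⟨rfl, Nat.lt_of_mul_lt_mul_left hb, ?_⟩
    rw [Nat.gcd_mul_left, Nat.gcd_mul_left] at he
    exact Nat.eq_of_mul_eq_mul_left he0 (by rw [mul_one]; exact he.symm)
  · rw [key]
    congr 1
    apply UpperHalfPlane.ext
    rw [coe_aff ha hd, coe_aff ha0 hd0]
    have h1 : (e : ℂ) ≠ 0 := by exact_mod_cast he0.ne'
    have h2 : (d' : ℂ) ≠ 0 := by exact_mod_cast hd0.ne'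
    push_cast
    field_simp

private theorem coset_stable {a b d : ℕ} (hd : 0 < d) (h : Nat.gcd a (Nat.gcd b d) = 1) :
    ∃ u : ℕ, Nat.Coprime (a * u + b) d := by
  classical
  refine ⟨∏ p ∈ d.primeFactors.filter (fun p => ¬ p ∣ b), p, ?_⟩
  apply Nat.coprime_of_dvd
  intro p hp h1 h2
  by_cases hb : p ∣ b
  · have h3 : p ∣ a * ∏ p ∈ d.primeFactors.filter (fun p => ¬ p ∣ b), p :=
      (Nat.dvd_add_left hb).1 h1
    rcases (Nat.Prime.dvd_mul hp).1 h3 with h4 | h4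
    · have : p ∣ Nat.gcd a (Nat.gcd b d) := Nat.dvd_gcd h4 (Nat.dvd_gcd hb h2)
      rw [h] at this
      exact hp.one_lt.ne' (Nat.dvd_one.1 this)
    · obtain ⟨q, hq, hpq⟩ := (Prime.dvd_finsetProd_iff hp.prime _).1 h4
      rw [Finset.mem_filter] at hq
      have := (Nat.prime_dvd_prime_iff_eq hp (Nat.prime_of_mem_primeFactors hq.1)).1 hpq
      exact hq.2 (this ▸ hb)
  · have h3 : p ∣ ∏ p ∈ d.primeFactors.filter (fun p => ¬ p ∣ b), p :=
      Finset.dvd_prod_of_mem _ (Finset.mem_filter.2 ⟨Nat.mem_primeFactors.2 ⟨hp, h2, hd.ne'⟩, hb⟩)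
    exact hb ((Nat.dvd_add_right (h3.mul_left a)).1 h1)

private theorem coset_diag {N : ℕ} (hN : 0 < N) {h : ℕ × ℕ × ℕ} (hh : h ∈ Prim N) :
    ∃ γ : SL(2, ℤ), ∀ τ : ℍ, jf (aff h (γ • τ)) = jf (aff (1, 0, N) τ) := by
  obtain ⟨h1, h2, h3⟩ := (mem_Prim hN).1 hh
  obtain ⟨ha, hd⟩ := coset_pos hN ((mem_Tri hN).2 ⟨h1, h2⟩)
  obtain ⟨u, hu⟩ := coset_stable hd h3
  obtain ⟨x, y, hxy⟩ := Nat.isCoprime_iff_coprime.2 hu
  push_cast at hxy
  have h1' : (h.1 : ℤ) * h.2.2 = N := by exact_mod_cast h1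
  let δ : SL(2, ℤ) := ⟨!![x, y; -(h.2.2 : ℤ), (h.1 : ℤ) * u + h.2.1], by
    rw [Matrix.det_fin_two_of]; linear_combination hxy⟩
  let γ : SL(2, ℤ) := ⟨!![(u : ℤ), u * (x * h.1) - 1; 1, x * h.1], by
    rw [Matrix.det_fin_two_of]; ring⟩
  have hM : (!![(h.1 : ℤ), (h.2.1 : ℤ); 0, (h.2.2 : ℤ)] : Matrix (Fin 2) (Fin 2) ℤ).det ≠ 0 := by
    rw [coset_det_tri, h1]; exact_mod_cast hN.ne'
  have hM2 : (!![(h.1 : ℤ), (h.2.1 : ℤ); 0, (h.2.2 : ℤ)] *
      (γ : Matrix (Fin 2) (Fin 2) ℤ)).det ≠ 0 := by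
    rwa [Matrix.det_mul, γ.det_coe, mul_one]
  have e : (δ : Matrix (Fin 2) (Fin 2) ℤ) * (!![(h.1 : ℤ), (h.2.1 : ℤ); 0, (h.2.2 : ℤ)] *
      (γ : Matrix (Fin 2) (Fin 2) ℤ)) = !![((1 : ℕ) : ℤ), ((0 : ℕ) : ℤ); 0, (N : ℤ)] := by
    ext i j
    fin_cases i <;> fin_cases j <;> simp [δ, γ, Matrix.mul_apply, Fin.sum_univ_two]
    · linear_combination hxy
    · linear_combination (x * h.1) * hxy
    · ring
    · linear_combination h1'
  refine ⟨γ, fun τ => ?_⟩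
  rw [← coset_aff ha hd, ← coset_mul_right hM, ← jf_smul δ, ← coset_mul_left hM2, e]
  exact congrArg jf (coset_aff (g := (1, 0, N)) Nat.one_pos hN τ)

/-- The primitive matrices of determinant `N` form one double coset. -/
theorem prim_trans {N : ℕ} (hN : 0 < N) {h h' : ℕ × ℕ × ℕ} (hh : h ∈ Prim N) (hh' : h' ∈ Prim N) :
    ∃ γ : SL(2, ℤ), ∀ τ : ℍ, jf (aff h' τ) = jf (aff h (γ • τ)) := by
  obtain ⟨γ, hγ⟩ := coset_diag hN hh
  obtain ⟨γ', hγ'⟩ := coset_diag hN hh'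
  refine ⟨γ * γ'⁻¹, fun τ => ?_⟩
  rw [mul_smul, hγ, ← hγ', smul_inv_smul]

end Pool.Agent.UAP
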