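import Pool.Agent.Lib.MP_7e5527_ag.Zero

open Polynomial UpperHalfPlane
open scoped Polynomial.Bivariate MatrixGroups IntermediateField

noncomputable section

namespace Pool.Agent.UAP

variable {p : ℕ} [Fact p.Prime]

private theorem cover_zp_le (a : ℤ_[p]) : ‖zp p a‖ ≤ 1 := by
  rw [norm_zp]
  exact PadicInt.norm_le_one a

private theorem cover_prod (s : Multiset ℂ_[p]) (y : ℂ_[p]) (r : ℝ) (hr : 0 ≤ r)
    (h : ∀ z ∈ s, r ≤ ‖y - z‖) : r ^ Multiset.card s ≤ ‖(s.map (y - ·)).prod‖ := by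
  induction s using Multiset.induction_on with
  | empty => simp
  | cons a s ih =>
    rw [Multiset.map_cons, Multiset.prod_cons, norm_mul, Multiset.card_cons, pow_succ']
    exact mul_le_mul (h a (Multiset.mem_cons_self _ _))
      (ih fun z hz => h z (Multiset.mem_cons_of_mem hz)) (by positivity) (norm_nonneg _)

/-- Continuity of roots. -/
theorem exists_near_root {W : (PowerSeries ℤ_[p])[X]} (hW : W.Monic) {X0 α Y0 : ℂ_[p]}
    (hX : ‖X0‖ < 1) (hα : ‖α‖ < 1) (hY : ‖Y0‖ ≤ 1) (h : (fibW W X0).IsRoot Y0) :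
    ∃ η : ℂ_[p], (fibW W α).IsRoot η ∧ ‖Y0 - η‖ ^ W.natDegree ≤ ‖X0 - α‖ := by
  classical
  have hm : ∀ x, (fibW W x).Monic := fun x => hW.map _
  have hd : ∀ x, (fibW W x).natDegree = W.natDegree := fun x => hW.natDegree_map _
  have hpos : 0 < W.natDegree := by
    rw [← hd X0]
    refine Nat.pos_of_ne_zero fun h0 => ?_
    have h1 := (hm X0).natDegree_eq_zero.1 h0
    rw [h1] at h
    simp at h
  have hsp : (fibW W α).Splits := IsAlgClosed.splits _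
  have hcard : Multiset.card (fibW W α).roots = W.natDegree := by
    rw [← hd α]
    exact hsp.natDegree_eq_card_roots.symm
  have hne : (fibW W α).roots.toFinset.Nonempty := by
    rw [Multiset.toFinset_nonempty]
    intro h0
    rw [h0, Multiset.card_zero] at hcard
    omega
  obtain ⟨η, hη, hmin⟩ := Finset.exists_min_image _ (fun z => ‖Y0 - z‖) hne
  refine ⟨η, (mem_roots (hm α).ne_zero).1 (Multiset.mem_toFinset.1 hη), ?_⟩
  have h1 := cover_prod (fibW W α).roots Y0 _ (norm_nonneg (Y0 - η))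
    fun z hz => hmin z (Multiset.mem_toFinset.2 hz)
  rw [hcard, ← hsp.eval_eq_prod_roots_of_monic (hm α)] at h1
  refine h1.trans ?_
  have h2 : (fibW W α).eval Y0 = ∑ i ∈ Finset.range (W.natDegree + 1),
      (evI (zp p) α (W.coeff i) - evI (zp p) X0 (W.coeff i)) * Y0 ^ i := by
    have h3 := h.eq_zero
    rw [eval_eq_sum_range, hd] at h3
    rw [eval_eq_sum_range, hd, ← sub_zero (∑ _ ∈ _, _), ← h3, ← Finset.sum_sub_distrib]
    refine Finset.sum_congr rfl fun i _ => ?_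
    rw [fibW, fibW, coeff_map, coeff_map, sub_mul]
  rw [h2]
  refine IsUltrametricDist.norm_sum_le_of_forall_le_of_nonneg (norm_nonneg _) fun i _ => ?_
  rw [norm_mul, norm_pow, norm_sub_rev X0]
  exact (mul_le_of_le_one_right (norm_nonneg _) (pow_le_one₀ (norm_nonneg _) hY)).trans
    (norm_evI_sub_le _ cover_zp_le hα hX _)

private theorem cover_anti {x y a b c d : ℂ_[p]} (hx : x ≠ 0) (hy : y ≠ 0)
    (h : a * d - b * c ≠ 0) :
    ∃ C, AntilipschitzWith C ((lin2 x y a b).prod (lin2 x y c d)) := by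
  have hker : LinearMap.ker ((lin2 x y a b).prod (lin2 x y c d)).toLinearMap = ⊥ := by
    rw [LinearMap.ker_eq_bot']
    intro v hv
    have h1 : a / x * v.1 + b / y * v.2 = 0 := by
      simpa [lin2] using congrArg Prod.fst hv
    have h2 : c / x * v.1 + d / y * v.2 = 0 := by
      simpa [lin2] using congrArg Prod.snd hv
    have h3 : (a * d - b * c) * (v.1 / x) = 0 := by
      linear_combination d * h1 - b * h2
    have h4 : (a * d - b * c) * (v.2 / y) = 0 := by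
      linear_combination a * h2 - c * h1
    have h5 := (mul_eq_zero.1 h3).resolve_left h
    have h6 := (mul_eq_zero.1 h4).resolve_left h
    exact Prod.ext ((div_eq_zero_iff.1 h5).resolve_right hx)
      ((div_eq_zero_iff.1 h6).resolve_right hy)
  obtain ⟨K, _, hK⟩ := LinearMap.exists_antilipschitzWith _ hker
  exact ⟨K, hK⟩

/-- Propagation: a function that vanishes on a component of the curve has vanishing Jacobian
there. -/
theorem Cov.jacobian {N : ℕ} {W : (PowerSeries ℤ_[p])[X]} (hW : W.Monic)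
    (hs : ∀ X0 Y0 : ℂ_[p], ‖X0‖ < 1 → (fibW W X0).IsRoot Y0 → ‖Y0‖ < 1)
    (hU : {X0 : ℂ_[p] | ‖X0‖ < 1 ∧ ∃ Y0, (fibW W X0).IsRoot Y0 ∧
      (X0 + Y0 ^ N, Y0) ∉ Bi ℂ_[p]}.Finite)
    (f Φ f1 f2 Φ1 Φ2 : ℂ_[p] × ℂ_[p] → ℂ_[p])
    (hf : ∀ P ∈ Bi ℂ_[p], HasFDerivAt f (lin2 P.1 P.2 (f1 P) (f2 P)) P)
    (hΦ : ∀ P ∈ Bi ℂ_[p], HasFDerivAt Φ (lin2 P.1 P.2 (Φ1 P) (Φ2 P)) P)
    (h : Cov N W fun P => f P = 0 ∧ Φ P = 0) :
    Cov N W fun P => f P = 0 ∧ Φ P = 0 ∧ f1 P * Φ2 P - f2 P * Φ1 P = 0 := by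
  classical
  refine hU.subset ?_
  rintro X0 ⟨hX, hbad⟩
  by_contra hX0
  have hBi : ∀ Y0, (fibW W X0).IsRoot Y0 → (X0 + Y0 ^ N, Y0) ∈ Bi ℂ_[p] := by
    intro Y0 hr
    by_contra hc
    exact hX0 ⟨hX, Y0, hr, hc⟩
  set ψ : ℂ_[p] × ℂ_[p] → ℂ_[p] × ℂ_[p] := fun z => (z.1 + z.2 ^ N, z.2) with hψ
  have hψc : Continuous ψ := by fun_prop
  have hψi : Function.Injective ψ := by
    intro z z' hz
    have h2 : z.2 = z'.2 := (Prod.ext_iff.1 hz).2
    have h1 : z.1 + z.2 ^ N = z'.1 + z'.2 ^ N := congrArg Prod.fst hz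
    rw [h2] at h1
    exact Prod.ext (add_right_cancel h1) h2
  have hev : ∀ η, (fibW W X0).IsRoot η → ∀ᶠ δ in nhdsWithin (0 : ℝ) (Set.Ioi 0),
      ∀ z : ℂ_[p] × ℂ_[p], dist z (X0, η) < δ → z ≠ (X0, η) → ¬ (f (ψ z) = 0 ∧ Φ (ψ z) = 0) := by
    intro η hη
    have hP := hBi η hη
    have hD := (hf _ hP).prodMk (hΦ _ hP)
    have h1 : ∀ᶠ Q in nhdsWithin (ψ (X0, η)) {ψ (X0, η)}ᶜ, (f Q, Φ Q) ≠ (0, 0) := by
      by_cases h0 : (f (ψ (X0, η)), Φ (ψ (X0, η))) = (0, 0)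
      · refine hD.eventually_ne (cover_anti hP.1 hP.2.2.1 fun hdet => hbad ⟨η, hη, hP, ?_, ?_, hdet⟩)
        · exact congrArg Prod.fst h0
        · exact congrArg Prod.snd h0
      · exact (hD.continuousAt.eventually_ne h0).filter_mono nhdsWithin_le_nhds
    rw [eventually_nhdsWithin_iff] at h1
    have h2 := hψc.continuousAt.eventually h1
    obtain ⟨δ0, hδ0, h3⟩ := Metric.eventually_nhds_iff.1 h2
    filter_upwards [Ioo_mem_nhdsGT hδ0] with δ hδ z hz hne hc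
    refine h3 (hz.trans hδ.2) (fun he => hne (hψi he)) ?_
    rw [hc.1, hc.2]
  have hm : (fibW W X0).Monic := hW.map _
  have hall := (Filter.eventually_all_finset (fibW W X0).roots.toFinset).2 fun η hη =>
    hev η ((mem_roots hm.ne_zero).1 (Multiset.mem_toFinset.1 hη))
  obtain ⟨δ, hδ, hδ0⟩ := (hall.and self_mem_nhdsWithin).exists
  have hδ0' : 0 < δ := hδ0
  have hS : Metric.ball X0 (min δ (δ ^ W.natDegree)) ∩ Metric.ball 0 1 ∈ nhds X0 :=
    Filter.inter_mem (Metric.ball_mem_nhds _ (lt_min hδ0' (by positivity)))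
      (Metric.isOpen_ball.mem_nhds (by simpa using hX))
  obtain ⟨X1, ⟨hX1a, hX1b⟩, hX1c⟩ :=
    (infinite_of_mem_nhds X0 hS).exists_notMem_finite (Set.Finite.insert X0 h)
  have hX1 : ‖X1‖ < 1 := by simpa using hX1b
  have hne : X1 ≠ X0 := fun he => hX1c (Or.inl he)
  have hex : ∃ Y1, (fibW W X1).IsRoot Y1 ∧ (X1 + Y1 ^ N, Y1) ∈ Bi ℂ_[p] ∧
      f (X1 + Y1 ^ N, Y1) = 0 ∧ Φ (X1 + Y1 ^ N, Y1) = 0 := by
    by_contra hc
    exact hX1c (Or.inr ⟨hX1, hc⟩)
  obtain ⟨Y1, hr, -, hz⟩ := hex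
  obtain ⟨η, hη, hle⟩ := exists_near_root hW hX1 hX (hs X1 Y1 hX1 hr).le hr
  rw [Metric.mem_ball, dist_eq_norm, lt_min_iff] at hX1a
  refine hδ η (Multiset.mem_toFinset.2 ((mem_roots hm.ne_zero).2 hη)) (X1, Y1) ?_
    (fun he => hne (congrArg Prod.fst he)) hz
  rw [Prod.dist_eq, dist_eq_norm, dist_eq_norm]
  exact max_lt hX1a.1 (lt_of_pow_lt_pow_left₀ _ hδ0'.le (hle.trans_lt hX1a.2))

end Pool.Agent.UAP
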