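import Pool.Agent.Lib.MP_7e5527_ag.Fact
import Pool.Agent.Lib.MP_7e5527_ag.As1

open Polynomial UpperHalfPlane
open scoped Polynomial.Bivariate MatrixGroups IntermediateField

noncomputable section

namespace Pool.Agent.UAP

variable {p : ℕ} [Fact p.Prime]

private theorem cp_est {E : Type*} [NormedField E] [IsUltrametricDist E] {t y ys ω D c2 : E}
    {κ : ℕ} {K : ℝ} (hκ : 0 < κ) (hK : 1 ≤ K) (hs : K * ‖t‖ < 1) (hys0 : ys ≠ 0) (hy0 : y ≠ 0)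
    (hys : ‖ys‖ ≤ K * ‖t‖) (hω : ‖ω - 1‖ ≤ K * ‖t‖)
    (h1 : ‖ω * ys * D - c2 * t ^ κ‖ ≤ K * ‖t‖ ^ (κ + 1)) (hc : ‖c2‖ ≤ K)
    (h2 : ‖D‖ = ‖ys - y‖ / (‖ys‖ * ‖y‖)) (h3 : ‖D - (y - ys) / (ys * y)‖ ≤ ‖ys - y‖) :
    ‖y - ys * (1 + c2 * t ^ κ)‖ ≤ 4 * K ^ 2 * ‖ys‖ * ‖t‖ ^ (κ + 1) := by
  have ht0 : 0 ≤ ‖t‖ := norm_nonneg t
  have hK0 : 0 ≤ K := by linarith
  have ht1 : ‖t‖ ≤ 1 := by nlinarith
  have hT0 : 0 ≤ ‖t‖ ^ κ := pow_nonneg ht0 κ
  have hT : ‖t‖ ^ κ ≤ ‖t‖ := pow_le_of_le_one ht0 ht1 hκ.ne'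
  have hω1 : ‖ω‖ = 1 := by
    have h4 : ‖ω - 1‖ < ‖(1 : E)‖ := by rw [norm_one]; linarith
    have h5 := IsUltrametricDist.norm_add_eq_max_of_norm_ne_norm h4.ne
    rw [sub_add_cancel, max_eq_right h4.le, norm_one] at h5
    exact h5
  have hnys : 0 < ‖ys‖ := norm_pos_iff.2 hys0
  have hny : 0 < ‖y‖ := norm_pos_iff.2 hy0
  have h4 : ‖ω * ys * D‖ ≤ K * ‖t‖ ^ κ := by
    have h5 := IsUltrametricDist.norm_add_le_max (ω * ys * D - c2 * t ^ κ) (c2 * t ^ κ)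
    rw [sub_add_cancel] at h5
    refine h5.trans (max_le (h1.trans ?_) ?_)
    · rw [pow_succ]
      exact mul_le_mul_of_nonneg_left (mul_le_of_le_one_right hT0 ht1) hK0
    · rw [norm_mul, norm_pow]
      exact mul_le_mul_of_nonneg_right hc hT0
  have h5 : ‖ys - y‖ / ‖y‖ ≤ K * ‖t‖ ^ κ := by
    rw [norm_mul, norm_mul, hω1, one_mul, h2] at h4
    refine le_trans (le_of_eq ?_) h4
    field_simp
  have h6 : ‖ys‖ = ‖y‖ := by
    have h7 : ‖ys - y‖ < ‖y‖ := by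
      rw [← div_lt_one hny]
      exact h5.trans_lt ((mul_le_mul_of_nonneg_left hT hK0).trans_lt hs)
    have h8 := IsUltrametricDist.norm_add_eq_max_of_norm_ne_norm h7.ne
    rw [sub_add_cancel, max_eq_right h7.le] at h8
    exact h8
  have h7 : ‖(y - ys) / y‖ ≤ K * ‖t‖ ^ κ := by rw [norm_div, norm_sub_rev]; exact h5
  have h8 : ‖(y - ys) / ys‖ ≤ K * ‖t‖ ^ κ := by rw [norm_div, norm_sub_rev, h6]; exact h5
  have key : y - ys * (1 + c2 * t ^ κ) = ys * ((ω * ys * D - c2 * t ^ κ)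
      - (y - ys) / ys * (ω - 1) + ω * ((y - ys) / ys) * ((y - ys) / y)
      - ω * ys * (D - (y - ys) / (ys * y))) := by
    field_simp
    ring
  have hb : K ^ 2 * ‖t‖ ^ (κ + 1) = K * ‖t‖ ^ κ * (K * ‖t‖) := by ring
  have hKT : 0 ≤ K * ‖t‖ ^ κ := mul_nonneg hK0 hT0
  have a1 : ‖ω * ys * D - c2 * t ^ κ‖ ≤ K ^ 2 * ‖t‖ ^ (κ + 1) :=
    h1.trans (mul_le_mul_of_nonneg_right (by nlinarith) (pow_nonneg ht0 _))
  have a2 : ‖(y - ys) / ys * (ω - 1)‖ ≤ K ^ 2 * ‖t‖ ^ (κ + 1) := by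
    rw [norm_mul, hb]
    exact mul_le_mul h8 hω (norm_nonneg _) hKT
  have a3 : ‖ω * ((y - ys) / ys) * ((y - ys) / y)‖ ≤ K ^ 2 * ‖t‖ ^ (κ + 1) := by
    rw [norm_mul, norm_mul, hω1, one_mul, hb]
    exact mul_le_mul h8 (h7.trans (mul_le_mul_of_nonneg_left hT hK0)) (norm_nonneg _) hKT
  have a4 : ‖ω * ys * (D - (y - ys) / (ys * y))‖ ≤ K ^ 2 * ‖t‖ ^ (κ + 1) := by
    rw [norm_mul, norm_mul, hω1, one_mul, hb, mul_comm]
    refine mul_le_mul (h3.trans ?_) hys (norm_nonneg _) hKT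
    have h9 : ‖ys - y‖ ≤ K * ‖t‖ ^ κ * ‖y‖ := (div_le_iff₀ hny).1 h5
    exact h9.trans (mul_le_of_le_one_right hKT (h6 ▸ hys.trans hs.le))
  rw [key, norm_mul]
  have a5 := (norm_sub_le _ _).trans (add_le_add ((norm_add_le _ _).trans
    (add_le_add ((norm_sub_le _ _).trans (add_le_add a1 a2)) a3)) a4)
  refine (mul_le_mul_of_nonneg_left a5 hnys.le).trans (le_of_eq ?_)
  ring

private theorem cp_lead {f : PowerSeries (PadicAlgCl p)} (hf : Grow f) (k : ℕ)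
    (hk : ∀ n < k, PowerSeries.coeff n f = 0) :
    ∃ K r : ℝ, 0 ≤ K ∧ 0 < r ∧ ∀ t v : ℂ_[p], ‖t‖ < r → HasEv (PowerSeries.map (ap p) f) t v →
      ‖v - ap p (PowerSeries.coeff k f) * t ^ k‖ ≤ K * ‖t‖ ^ (k + 1) := by
  obtain ⟨C, Λ, hΛ, h⟩ := hf.map (ap p) (norm_ap p)
  have hC : 0 ≤ C := by simpa using (norm_nonneg _).trans (h 0)
  refine ⟨C * Λ ^ (k + 1), Λ⁻¹, by positivity, by positivity, fun t v ht hv => ?_⟩
  have h1 : Λ * ‖t‖ < 1 := by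
    rw [← mul_inv_cancel₀ hΛ.ne']
    exact mul_lt_mul_of_pos_left ht hΛ
  have h2 := hv.tail h hΛ h1 k (fun n hn => by rw [PowerSeries.coeff_map, hk n hn, map_zero])
  rw [PowerSeries.coeff_map, mul_pow, ← mul_assoc] at h2
  exact h2

private theorem cp_unit {t w a : ℂ_[p]} {k : ℕ} {K : ℝ} (ht : t ≠ 0) (ha : a ≠ 0)
    (h : ‖w - a * t ^ k‖ ≤ K * ‖t‖ ^ (k + 1)) : ‖w / (a * t ^ k) - 1‖ ≤ K / ‖a‖ * ‖t‖ := by
  have h0 : a * t ^ k ≠ 0 := mul_ne_zero ha (pow_ne_zero _ ht)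
  have h1 : 0 < ‖a‖ := norm_pos_iff.2 ha
  have h2 : 0 < ‖t‖ := norm_pos_iff.2 ht
  rw [div_sub_one h0, norm_div, div_le_iff₀ (norm_pos_iff.2 h0), norm_mul, norm_pow]
  refine h.trans (le_of_eq ?_)
  field_simp
  ring

private theorem cp_exists_ord {k : Type*} [Field k] {f : PowerSeries k} (hf : f ≠ 0) :
    ∃ a, PowerSeries.coeff a f ≠ 0 ∧ ∀ n < a, PowerSeries.coeff n f = 0 := by
  classical
  have h : ∃ a, PowerSeries.coeff a f ≠ 0 := by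
    by_contra hn
    exact hf (PowerSeries.ext fun n => by simpa using not_exists.1 hn n)
  exact ⟨Nat.find h, Nat.find_spec h, fun n hn => not_not.1 (Nat.find_min h hn)⟩

private theorem cp_bdd {z l : PowerSeries (PadicAlgCl p)} (hz : Grow z) (hl : Grow l) {a : ℕ}
    (ha : PowerSeries.coeff a l ≠ 0) (hla : ∀ n < a, PowerSeries.coeff n l = 0)
    (hza : ∀ n < a, PowerSeries.coeff n z = 0) :
    ∃ r : ℝ, 0 < r ∧ ∀ t y v w : ℂ_[p], t ≠ 0 → ‖t‖ < r → y ≠ 0 → ‖y‖ < r →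
      HasEv (PowerSeries.map (ap p) z) t v → HasEv (PowerSeries.map (ap p) l) t w →
      J y * w ≠ v := by
  obtain ⟨K, r, hK, hr, h⟩ := cp_lead hz a hza
  obtain ⟨K', r', hK', hr', h'⟩ := cp_lead hl a hla
  have ha' : ap p (PowerSeries.coeff a l) ≠ 0 := (_root_.map_ne_zero _).2 ha
  set α := ap p (PowerSeries.coeff a l) with hα
  set ζ := ap p (PowerSeries.coeff a z) with hζ
  have hα0 : 0 < ‖α‖ := norm_pos_iff.2 ha'
  set M : ℝ := K' / ‖α‖ + (‖ζ‖ + K) / ‖α‖ + 1 with hM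
  have m1 : 0 ≤ K' / ‖α‖ := by positivity
  have m2 : 0 ≤ (‖ζ‖ + K) / ‖α‖ := by positivity
  have hM1 : 1 ≤ M := by linarith
  have hM0 : 0 < M := by linarith
  refine ⟨min (min r r') M⁻¹, by positivity, fun t y v w ht0 ht hy0 hy hv hw e => ?_⟩
  simp only [lt_min_iff] at ht hy
  have hMi : M⁻¹ ≤ 1 := inv_le_one_of_one_le₀ hM1
  have htM : M * ‖t‖ < 1 := by
    rw [← mul_inv_cancel₀ hM0.ne']
    exact mul_lt_mul_of_pos_left ht.2 hM0
  have hnt : 0 < ‖t‖ := norm_pos_iff.2 ht0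
  have h0 : α * t ^ a ≠ 0 := mul_ne_zero ha' (pow_ne_zero _ ht0)
  have h1 := cp_unit ht0 ha' (h' t w ht.1.2 hw)
  have h2 : ‖w / (α * t ^ a)‖ = 1 := by
    have h4 : ‖w / (α * t ^ a) - 1‖ < ‖(1 : ℂ_[p])‖ := by
      rw [norm_one]
      exact h1.trans_lt ((mul_le_mul_of_nonneg_right (by linarith) hnt.le).trans_lt htM)
    have h5 := IsUltrametricDist.norm_add_eq_max_of_norm_ne_norm h4.ne
    rw [sub_add_cancel, max_eq_right h4.le, norm_one] at h5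
    exact h5
  have h3 : ‖w‖ = ‖α‖ * ‖t‖ ^ a := by
    rw [norm_div, div_eq_one_iff_eq (norm_ne_zero_iff.2 h0), norm_mul, norm_pow] at h2
    exact h2
  have h4 : ‖v‖ ≤ (‖ζ‖ + K) * ‖t‖ ^ a := by
    have h5 := norm_add_le (v - ζ * t ^ a) (ζ * t ^ a)
    rw [sub_add_cancel, norm_mul, norm_pow] at h5
    have h6 := h t v ht.1.1 hv
    have h7 : K * ‖t‖ ^ (a + 1) ≤ K * ‖t‖ ^ a := by
      rw [pow_succ]
      exact mul_le_mul_of_nonneg_left
        (mul_le_of_le_one_right (pow_nonneg hnt.le _) (ht.2.le.trans hMi)) hK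
    linarith
  have h5 : ‖J y‖ = ‖y‖⁻¹ := norm_Jn 0 hy0 (hy.2.trans_le hMi)
  have hny : 0 < ‖y‖ := norm_pos_iff.2 hy0
  have h6 : M < ‖y‖⁻¹ := by rw [lt_inv_comm₀ hM0 hny]; exact hy.2
  rw [← e, norm_mul, h5, h3, ← mul_assoc] at h4
  have h7 : ‖y‖⁻¹ * ‖α‖ ≤ ‖ζ‖ + K := le_of_mul_le_mul_right h4 (pow_pos hnt a)
  have h8 : ‖y‖⁻¹ ≤ (‖ζ‖ + K) / ‖α‖ := (le_div_iff₀ hα0).2 h7
  linarith

private theorem cp_root {F : ℤ[X][Y]} (h : ¬ Sp (PadicAlgCl p) F) {m : ℕ} {hm : m ≠ 0}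
    {z l : PowerSeries (PadicAlgCl p)} (hz : Grow z) (hl : Grow l) (hl0 : l ≠ 0)
    (h0 : hom2 F (subM 1 m hm (toS (PadicAlgCl p) E4s) ^ 3) (subM 1 m hm (toS (PadicAlgCl p) Ds))
      z l = 0) :
    ∃ (β : Br p) (C r : ℝ), 0 ≤ C ∧ 0 < r ∧ ∀ t y v w : ℂ_[p], t ≠ 0 → ‖t‖ < r → y ≠ 0 →
      ‖y‖ < r → HasEv (PowerSeries.map (ap p) z) t v → HasEv (PowerSeries.map (ap p) l) t w →
      J y * w = v → BrPt β C t y := by
  obtain ⟨a, ha, hla⟩ := cp_exists_ord hl0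
  by_cases hza : ∀ n < a, PowerSeries.coeff n z = 0
  · obtain ⟨r, hr, h1⟩ := cp_bdd hz hl ha hla hza
    exact ⟨⟨1, 1, 1, 1, one_ne_zero, one_ne_zero, one_pos, one_pos⟩, 0, r, le_rfl, hr,
      fun t y v w a1 a2 a3 a4 a5 a6 a7 => absurd a7 (h1 t y v w a1 a2 a3 a4 a5 a6)⟩
  have hz0 : z ≠ 0 := fun e => hza fun n _ => by simp [e]
  obtain ⟨b, hb, hzb⟩ := cp_exists_ord hz0
  have hba : b < a := by
    by_contra hn
    exact hza fun n hn' => hzb n (hn'.trans_le (not_lt.1 hn))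
  obtain ⟨n, rfl⟩ : ∃ n, a = b + n := Nat.exists_eq_add_of_le hba.le
  have hn : n ≠ 0 := by omega
  set c := PowerSeries.coeff (b + n) l / PowerSeries.coeff b z with hc
  have hc0 : c ≠ 0 := div_ne_zero ha hb
  set G := l * subM c n hn (toS (PadicAlgCl p) j0s)
    - z * (PowerSeries.C c * PowerSeries.X ^ n) with hG
  have hG0 : G ≠ 0 := by
    intro e
    refine h ⟨m, n, hm, hn, c, hc0, ?_⟩
    have e1 : subM c n hn (toS (PadicAlgCl p) E4s) ^ 3 * l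
        = z * subM c n hn (toS (PadicAlgCl p) Ds) := by
      have e2 : toS (PadicAlgCl p) PowerSeries.X = PowerSeries.X := PowerSeries.map_X _
      rw [← map_pow, ← map_pow, ← j0s_mul_D0s, Ds_eq_X_mul, map_mul, map_mul, map_mul, map_mul,
        e2, subM_X]
      linear_combination subM c n hn (toS (PadicAlgCl p) D0s) * e
    have e2 := hom2_mul_right F (subM 1 m hm (toS (PadicAlgCl p) E4s) ^ 3)
      (subM 1 m hm (toS (PadicAlgCl p) Ds)) z l (subM c n hn (toS (PadicAlgCl p) Ds))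
    rw [h0, zero_mul, ← e1, mul_comm l, hom2_mul_right] at e2
    exact (mul_eq_zero.1 e2).resolve_right (pow_ne_zero _ hl0)
  have hGg : Grow G := by
    have g1 : Grow (PowerSeries.X : PowerSeries (PadicAlgCl p)) := by
      have e2 : toS (PadicAlgCl p) PowerSeries.X = PowerSeries.X := PowerSeries.map_X _
      exact e2 ▸ grow_toS PowerSeries.X
    rw [hG, sub_eq_add_neg]
    exact (hl.mul ((grow_toS j0s).substM c n hn)).add (hz.mul ((grow_C c).mul (g1.pow n))).neg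
  have hGa : ∀ i < b + n + 1, PowerSeries.coeff i G = 0 := by
    obtain ⟨l1, rfl⟩ := PowerSeries.X_pow_dvd_iff.2 hla
    obtain ⟨z1, rfl⟩ := PowerSeries.X_pow_dvd_iff.2 hzb
    have e1 := PowerSeries.coeff_X_pow_mul l1 (b + n) 0
    have e2 := PowerSeries.coeff_X_pow_mul z1 b 0
    rw [zero_add] at e1 e2
    rw [e2] at hb
    rw [e1, e2] at hc
    have e3 : PowerSeries.constantCoeff (subM c n hn (toS (PadicAlgCl p) j0s)) = 1 := by
      rw [← PowerSeries.coeff_zero_eq_constantCoeff_apply, coeff_subM, if_pos (dvd_zero n),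
        Nat.zero_div, pow_zero, one_mul, toS, PowerSeries.coeff_map,
        PowerSeries.coeff_zero_eq_constantCoeff_apply, constantCoeff_j0s, map_one]
    obtain ⟨g, hg⟩ : PowerSeries.X ∣ l1 * subM c n hn (toS (PadicAlgCl p) j0s)
        - z1 * PowerSeries.C c := by
      rw [PowerSeries.X_dvd_iff, map_sub, map_mul, map_mul, e3, PowerSeries.constantCoeff_C, hc]
      rw [PowerSeries.coeff_zero_eq_constantCoeff_apply] at hb
      simp only [PowerSeries.coeff_zero_eq_constantCoeff_apply]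
      field_simp
      ring
    refine PowerSeries.X_pow_dvd_iff.1 ⟨g, ?_⟩
    rw [hG]
    linear_combination PowerSeries.X ^ (b + n) * hg
  obtain ⟨e, he, hGe⟩ := cp_exists_ord hG0
  have hae : b + n < e := by
    by_contra hn'
    exact he (hGa e (by omega))
  obtain ⟨κ, rfl⟩ : ∃ κ, e = b + n + κ := Nat.exists_eq_add_of_le hae.le
  have hκ : 0 < κ := by omega
  obtain ⟨K1, r1, hK1, hr1, h1⟩ := cp_lead hl (b + n) hla
  obtain ⟨K2, r2, hK2, hr2, h2⟩ := cp_lead hGg (b + n + κ) hGe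
  have ha' : ap p (PowerSeries.coeff (b + n) l) ≠ 0 := (_root_.map_ne_zero _).2 ha
  have hc' : ap p c ≠ 0 := (_root_.map_ne_zero _).2 hc0
  set c2 := PowerSeries.coeff (b + n + κ) G / PowerSeries.coeff (b + n) l with hc2
  have e2 : ap p (PowerSeries.coeff (b + n + κ) G)
      = ap p c2 * ap p (PowerSeries.coeff (b + n) l) := by
    rw [← map_mul, hc2, div_mul_cancel₀ _ ha]
  rw [e2] at h2
  set α := ap p (PowerSeries.coeff (b + n) l) with hα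
  have hα0 : 0 < ‖α‖ := norm_pos_iff.2 ha'
  set K : ℝ := K1 / ‖α‖ + K2 / ‖α‖ + ‖ap p c‖ + ‖ap p c2‖ + 1 with hK
  have m1 : 0 ≤ K1 / ‖α‖ := by positivity
  have m2 : 0 ≤ K2 / ‖α‖ := by positivity
  have m3 := norm_nonneg (ap p c)
  have m4 := norm_nonneg (ap p c2)
  have hK1' : 1 ≤ K := by linarith
  have hK0 : 0 < K := by linarith
  refine ⟨⟨c, c2, n, κ, hc0, div_ne_zero he ha, Nat.pos_of_ne_zero hn, hκ⟩,
    4 * K ^ 2 * ‖ap p c‖, min (min r1 r2) K⁻¹, by positivity, by positivity,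
    fun t y v w ht0 ht hy0 hy hv hw e => ⟨ht0, ?_⟩⟩
  simp only [lt_min_iff] at ht hy
  have hKi : K⁻¹ ≤ 1 := inv_le_one_of_one_le₀ hK1'
  have htK : K * ‖t‖ < 1 := by
    rw [← mul_inv_cancel₀ hK0.ne']
    exact mul_lt_mul_of_pos_left ht.2 hK0
  have hnt : 0 < ‖t‖ := norm_pos_iff.2 ht0
  have hy1 : ‖y‖ < 1 := hy.2.trans_le hKi
  have hys0 : ap p c * t ^ n ≠ 0 := mul_ne_zero hc' (pow_ne_zero _ ht0)
  have hys : ‖ap p c * t ^ n‖ ≤ K * ‖t‖ := by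
    rw [norm_mul, norm_pow]
    exact mul_le_mul (by linarith) (pow_le_of_le_one hnt.le (ht.2.le.trans hKi) hn)
      (by positivity) hK0.le
  have hys1 : ‖ap p c * t ^ n‖ < 1 := hys.trans_lt htK
  have hev : HasEv (PowerSeries.map (ap p) G) t
      (w * (ap p c * t ^ n) * (J (ap p c * t ^ n) - J y)) := by
    have q1 := mulOK_ultra _ _ _ _ _ hw ((hasEv_evZ j0s hys1).substM hn)
    have q2 := mulOK_ultra _ _ _ _ _ hv (((hasEv_X t).pow mulOK_ultra n).C_mul (ap p c))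
    have q3 := q1.sub q2
    rw [evZ_j0s hys0, ← e] at q3
    rw [hG, map_sub, map_mul, map_mul, map_mul, map_pow, map_subM, map_toS, PowerSeries.map_C,
      PowerSeries.map_X]
    refine (congrArg _ ?_).mp q3
    ring
  have q4 := h2 t _ ht.1.2 hev
  have q5 := cp_unit ht0 ha' (h1 t w ht.1.1 hw)
  have q6 : ‖w / (α * t ^ (b + n)) * (ap p c * t ^ n) * (J (ap p c * t ^ n) - J y)
      - ap p c2 * t ^ κ‖ ≤ K * ‖t‖ ^ (κ + 1) := by
    have e3 : w / (α * t ^ (b + n)) * (ap p c * t ^ n) * (J (ap p c * t ^ n) - J y)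
        - ap p c2 * t ^ κ = (w * (ap p c * t ^ n) * (J (ap p c * t ^ n) - J y)
          - ap p c2 * α * t ^ (b + n + κ)) / (α * t ^ (b + n)) := by
      field_simp
      ring
    rw [e3, norm_div, norm_mul α, norm_pow, div_le_iff₀ (by positivity)]
    refine q4.trans ?_
    have e4 : K2 * ‖t‖ ^ (b + n + κ + 1)
        = K2 / ‖α‖ * ‖t‖ ^ (κ + 1) * (‖α‖ * ‖t‖ ^ (b + n)) := by
      field_simp
      ring
    rw [e4]
    exact mul_le_mul_of_nonneg_right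
      (mul_le_mul_of_nonneg_right (by linarith) (by positivity)) (by positivity)
  have q7 := cp_est hκ hK1' htK hys0 hy0 hys
    (q5.trans (mul_le_mul_of_nonneg_right (by linarith) hnt.le)) q6 (by linarith)
    (norm_J_sub hys0 hys1 hy0 hy1) (norm_J_sub_sub hys0 hys1 hy0 hy1)
  refine q7.trans (le_of_eq ?_)
  rw [norm_mul, norm_pow]
  ring

theorem Good.not_dvd_Nq {F : ℤ[X][Y]} (hF : Good F) (h : ¬ Sp (PadicAlgCl p) F) :
    ¬ toQ F ∣ toQ (Nq F) := by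
  intro hN
  obtain ⟨m, hm, z, h1, -, h2, -⟩ := hF.factor p
  exact h (hF.sp_of_dvd hN _ hm h1 (h2 ⟨0, hF.degY⟩).2)

theorem Good.exists_cusp {F : ℤ[X][Y]} (hF : Good F) (h : ¬ Sp (PadicAlgCl p) F) :
    ∃ (m L : ℕ) (β : Fin L → Br p) (C r : ℝ), Cusp p F m L β C r := by
  obtain ⟨m, hm, z, h1, h2, h3, r0, hr0, h4⟩ := hF.factor p
  choose β C r hC hr h5 using fun i => cp_root h (h3 i).1 h2 h1 (h3 i).2
  obtain ⟨ρ, hρ0, hρ1, hρ2, hρ3⟩ : ∃ ρ : ℝ, 0 < ρ ∧ ρ ≤ 1 ∧ ρ ≤ r0 ∧ ∀ i, ρ ≤ r i := by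
    have : Nonempty (Fin F.natDegree) := ⟨⟨0, hF.degY⟩⟩
    obtain ⟨i0, hi0⟩ := Finite.exists_min r
    exact ⟨min (min 1 r0) (r i0), lt_min (lt_min one_pos hr0) (hr i0),
      (min_le_left _ _).trans (min_le_left _ _), (min_le_left _ _).trans (min_le_right _ _),
      fun i => (min_le_right _ _).trans (hi0 i)⟩
  refine ⟨m, F.natDegree, β, ∑ i, C i, ρ ^ m, Nat.pos_of_ne_zero hm, pow_pos hρ0 m,
    Finset.sum_nonneg fun i _ => hC i, ?_⟩
  rintro ⟨x, y⟩ ⟨⟨hx0, -, hy0, -⟩, hP⟩ hx hy t rfl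
  have ht0 : t ≠ 0 := fun e => hx0 (by simp [e, hm])
  have ht : ‖t‖ < ρ := lt_of_pow_lt_pow_left₀ m hρ0.le (by simpa using hx)
  have hy' : ‖y‖ < ρ := hy.trans_le (pow_le_of_le_one hρ0.le hρ1 hm)
  obtain ⟨i, v, w, hv, hw, e⟩ := h4 t (J y) ht0 (ht.trans_le hρ2) hP
  obtain ⟨-, h6⟩ := h5 i t y v w ht0 (ht.trans_le (hρ3 i)) hy0 (hy'.trans_le (hρ3 i)) hv hw e
  exact ⟨i, ht0, h6.trans (mul_le_mul_of_nonneg_right
    (Finset.single_le_sum (fun j _ => hC j) (Finset.mem_univ i)) (by positivity))⟩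

end Pool.Agent.UAP
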