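import Mathlib

/-! Definitions used in the statement: the `j`-function, Hecke orbits and the weakly special
curves of `Y(1)²`. -/

open UpperHalfPlane

noncomputable section

namespace Pool.Agent.UAP

/-- Klein's function `j = E₄³ / Δ` on the upper half plane. -/
def jf (τ : ℍ) : ℂ := ModularForm.E₄ τ ^ 3 / ModularForm.discriminant τ

/-- The action of a rational matrix on the upper half plane (a Moebius map if `det g > 0`). -/
def act (g : GL (Fin 2) ℚ) (τ : ℍ) : ℍ :=
  Matrix.GeneralLinearGroup.map (algebraMap ℚ ℝ) g • τ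

/-- The Hecke orbit (isogeny class) of `a ∈ Y(1)(ℂ) = ℂ`: all `j(gτ)` with `j(τ) = a` and
`g ∈ GL₂(ℚ)` of positive determinant. -/
def heckeOrbit (a : ℂ) : Set ℂ :=
  {b | ∃ (τ : ℍ) (g : GL (Fin 2) ℚ), 0 < (g : Matrix (Fin 2) (Fin 2) ℚ).det ∧ jf τ = a ∧
    jf (act g τ) = b}

/-- The weakly special curves of `Y(1)² = ℂ²`: vertical lines, horizontal lines and the modular
curves `{(j(τ), j(gτ))}`. -/
def IsWeaklySpecialCurve (W : Set (ℂ × ℂ)) : Prop :=
  (∃ c : ℂ, W = {P | P.1 = c}) ∨ (∃ c : ℂ, W = {P | P.2 = c}) ∨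
    ∃ g : GL (Fin 2) ℚ, 0 < (g : Matrix (Fin 2) (Fin 2) ℚ).det ∧
      W = Set.range fun τ : ℍ => (jf τ, jf (act g τ))

/-- The complex points of the plane curve `F = 0`. -/
def zeroSet (F : MvPolynomial (Fin 2) ℚ) : Set (ℂ × ℂ) :=
  {P | MvPolynomial.aeval ![P.1, P.2] F = 0}

end Pool.Agent.UAP
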