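import Pool.Agent.Lib.MP_7e5527_ag.Arr

open Polynomial UpperHalfPlane
open scoped Polynomial.Bivariate MatrixGroups IntermediateField

noncomputable section

namespace Pool.Agent.UAP

private theorem dick_exists_max {ι E : Type*} [Nonempty ι] [NormedAddCommGroup E] {f : ι → E}
    (hf : Summable f) : ∃ i, ∀ j, ‖f j‖ ≤ ‖f i‖ := by
  by_cases h0 : ∀ j, f j = 0
  · exact ⟨Classical.arbitrary ι, fun j => by simp [h0]⟩
  push Not at h0
  obtain ⟨i1, hi1⟩ := h0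
  have hpos : 0 < ‖f i1‖ := norm_pos_iff.2 hi1
  have hev : ∀ᶠ j in Filter.cofinite, ‖f j‖ < ‖f i1‖ := by
    have h := hf.tendsto_cofinite_zero.norm
    rw [norm_zero] at h
    exact h.eventually (gt_mem_nhds hpos)
  have hfin : {j | ‖f i1‖ ≤ ‖f j‖}.Finite := by
    refine (Filter.eventually_cofinite.1 hev).subset fun j hj => ?_
    exact not_lt.2 hj
  obtain ⟨i, hi, hmax⟩ := Set.exists_max_image _ (fun j => ‖f j‖) hfin ⟨i1, le_refl ‖f i1‖⟩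
  refine ⟨i, fun j => ?_⟩
  by_cases hj : ‖f i1‖ ≤ ‖f j‖
  · exact hmax j hj
  · exact (not_le.1 hj).le.trans hi

private theorem dick_norm_le (p : ℕ) [Fact p.Prime] {a b : ℤ} (ha : a ≠ 0) (hb : b ≠ 0)
    (h : (a : ℤ_[p]).valuation ≤ (b : ℤ_[p]).valuation) : ‖(b : ℂ_[p])‖ ≤ ‖(a : ℂ_[p])‖ := by
  have ha' : (a : ℤ_[p]) ≠ 0 := Int.cast_ne_zero.2 ha
  have hb' : (b : ℤ_[p]) ≠ 0 := Int.cast_ne_zero.2 hb
  rw [← map_intCast (zp p) a, ← map_intCast (zp p) b, norm_zp, norm_zp,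
    PadicInt.norm_eq_zpow_neg_valuation ha', PadicInt.norm_eq_zpow_neg_valuation hb']
  have hp : (1 : ℝ) ≤ p := by exact_mod_cast (Fact.out : p.Prime).one_le
  exact zpow_le_zpow_right₀ hp (by omega)

/-- The indices that can carry a dominant term. -/
private def dickMin (p : ℕ) [Fact p.Prime] (c : ℕ × ℕ → ℤ) : Set (ℕ × ℕ) :=
  {il | c il ≠ 0 ∧ ∀ jl, c jl ≠ 0 → jl ≤ il →
    (c jl : ℤ_[p]).valuation ≤ (c il : ℤ_[p]).valuation → jl = il}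

private theorem dickMin_finite (p : ℕ) [Fact p.Prime] (c : ℕ × ℕ → ℤ) :
    (dickMin p c).Finite := by
  let g : ℕ × ℕ → (ℕ × ℕ) × ℕ := fun il => (il, (c il : ℤ_[p]).valuation)
  have hg : Function.Injective g := fun a b h => congrArg Prod.fst h
  refine Set.Finite.of_finite_image (f := g) ?_ hg.injOn
  refine WellQuasiOrderedLE.finite_of_isAntichain ?_
  rintro _ ⟨a, ha, rfl⟩ _ ⟨b, hb, rfl⟩ hne hle
  exact hne (congrArg g (hb.2 a ha.1 hle.1 hle.2))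

private theorem dick_mem_min {p : ℕ} [Fact p.Prime] {c : ℕ × ℕ → ℤ} {x y : ℂ_[p]} (hx0 : x ≠ 0)
    (hx : ‖x‖ < 1) (hy0 : y ≠ 0) (hy : ‖y‖ < 1) {il : ℕ × ℕ} (h0 : c il ≠ 0)
    (hmax : ∀ jl : ℕ × ℕ, ‖(c jl : ℂ_[p]) * x ^ jl.1 * y ^ jl.2‖ ≤
      ‖(c il : ℂ_[p]) * x ^ il.1 * y ^ il.2‖) : il ∈ dickMin p c := by
  refine ⟨h0, fun jl hj hle hv => ?_⟩
  by_contra hne
  have h1 := dick_norm_le p hj h0 hv
  have h2 := hmax jl
  simp only [norm_mul, norm_pow] at h2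
  have hxp : 0 < ‖x‖ := norm_pos_iff.2 hx0
  have hyp : 0 < ‖y‖ := norm_pos_iff.2 hy0
  have hcp : 0 < ‖(c jl : ℂ_[p])‖ := norm_pos_iff.2 (Int.cast_ne_zero.2 hj)
  have e1 : ‖x‖ ^ il.1 ≤ ‖x‖ ^ jl.1 := pow_le_pow_of_le_one hxp.le hx.le hle.1
  have e2 : ‖y‖ ^ il.2 ≤ ‖y‖ ^ jl.2 := pow_le_pow_of_le_one hyp.le hy.le hle.2
  have hlt : ‖x‖ ^ il.1 * ‖y‖ ^ il.2 < ‖x‖ ^ jl.1 * ‖y‖ ^ jl.2 := by
    by_cases h1' : jl.1 = il.1
    · have h2' : jl.2 < il.2 := lt_of_le_of_ne hle.2 fun h => hne (Prod.ext h1' h)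
      exact mul_lt_mul' e1 (pow_lt_pow_right_of_lt_one₀ hyp hy h2') (by positivity)
        (by positivity)
    · have h2' : jl.1 < il.1 := lt_of_le_of_ne hle.1 h1'
      exact mul_lt_mul (pow_lt_pow_right_of_lt_one₀ hxp hx h2') e2 (by positivity)
        (by positivity)
  have h3 : ‖(c il : ℂ_[p])‖ * (‖x‖ ^ il.1 * ‖y‖ ^ il.2) <
      ‖(c jl : ℂ_[p])‖ * (‖x‖ ^ jl.1 * ‖y‖ ^ jl.2) :=
    mul_lt_mul' h1 hlt (by positivity) hcp
  rw [mul_assoc, mul_assoc] at h2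
  exact absurd h2 (not_le.2 h3)

/-- If a full cyclic torsion coset lies on the curve, it lies on one of finitely many
subtorus cosets. -/
theorem dickson (p : ℕ) [Fact p.Prime] {c : ℕ × ℕ → ℤ} (hc : c ≠ 0) :
    ∃ Δ : Finset ((ℕ × ℕ) × (ℕ × ℕ)), (∀ δ ∈ Δ, δ.1 ≠ δ.2) ∧
      ∀ P ∈ Bi ℂ_[p], ∀ (ζ1 ζ2 : ℂ_[p]) (n : ℕ), 0 < n → ζ1 ^ n = 1 → ζ2 ^ n = 1 →
        (∀ e : ℕ, val c (ζ1 ^ e * P.1) (ζ2 ^ e * P.2) = 0) →
        ∃ δ ∈ Δ, ζ1 ^ δ.1.1 * ζ2 ^ δ.1.2 = ζ1 ^ δ.2.1 * ζ2 ^ δ.2.2 := by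
  classical
  refine ⟨(dickMin_finite p c).toFinset.offDiag, fun δ hδ => (Finset.mem_offDiag.1 hδ).2.2, ?_⟩
  rintro ⟨x, y⟩ ⟨hx0, hx, hy0, hy⟩ ζ1 ζ2 n hn h1 h2 hval
  simp only at hx0 hx hy0 hy hval
  by_contra hcon
  push Not at hcon
  have hn1 : ∀ {ζ : ℂ_[p]}, ζ ^ n = 1 → ‖ζ‖ = 1 := fun {ζ} h =>
    (pow_eq_one_iff_of_nonneg (norm_nonneg _) hn.ne').1 (by rw [← norm_pow, h, norm_one])
  have hz : ∀ {ζ : ℂ_[p]}, ζ ^ n = 1 → ζ ≠ 0 := fun {ζ} h h0 => by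
    have := hn1 h
    rw [h0, norm_zero] at this
    exact zero_ne_one this
  set T : ℕ × ℕ → ℂ_[p] := fun il => (c il : ℂ_[p]) * x ^ il.1 * y ^ il.2 with hT
  set χ : ℕ × ℕ → ℂ_[p] := fun il => ζ1 ^ il.1 * ζ2 ^ il.2 with hχ
  have hTs : Summable T := (hasSum_val c hx hy).summable
  obtain ⟨i0, hi0⟩ := dick_exists_max hTs
  have hTne : ∀ il, T il ≠ 0 ↔ c il ≠ 0 := fun il => by
    simp [hT, hx0, hy0]
  have hT0 : T i0 ≠ 0 := by
    obtain ⟨i1, hi1⟩ := Function.ne_iff.1 hc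
    have := hi0 i1
    exact norm_pos_iff.1 ((norm_pos_iff.2 ((hTne i1).2 hi1)).trans_le this)
  have hmin : ∀ il, ‖T i0‖ ≤ ‖T il‖ → il ∈ dickMin p c := fun il h =>
    dick_mem_min hx0 hx hy0 hy
      ((hTne il).1 (norm_pos_iff.1 ((norm_pos_iff.2 hT0).trans_le h)))
      fun jl => (hi0 jl).trans h
  have hχ0 : χ i0 ≠ 0 := mul_ne_zero (pow_ne_zero _ (hz h1)) (pow_ne_zero _ (hz h2))
  have hχn : ∀ il, χ il ^ n = 1 := fun il => by
    simp only [hχ]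
    rw [mul_pow, ← pow_mul, ← pow_mul, mul_comm il.1, mul_comm il.2, pow_mul, pow_mul, h1, h2]
    simp
  have he : ∀ e : ℕ, HasSum (fun il => (χ il / χ i0) ^ e * T il) 0 := fun e => by
    have hx' : ‖ζ1 ^ e * x‖ < 1 := by rwa [norm_mul, norm_pow, hn1 h1, one_pow, one_mul]
    have hy' : ‖ζ2 ^ e * y‖ < 1 := by rwa [norm_mul, norm_pow, hn1 h2, one_pow, one_mul]
    have h := (hasSum_val c hx' hy').mul_left ((χ i0)⁻¹ ^ e)
    rw [hval e, mul_zero] at h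
    refine h.congr_fun ?_
    intro il
    simp only [hT, hχ]
    ring
  have hsum := hasSum_sum (s := Finset.range n) fun e _ => he e
  rw [Finset.sum_const_zero] at hsum
  have hnz : (n : ℂ_[p]) ≠ 0 := Nat.cast_ne_zero.2 hn.ne'
  have hU : HasSum (fun il => if χ il = χ i0 then T il else 0) 0 := by
    have h := hsum.mul_left (n : ℂ_[p])⁻¹
    rw [mul_zero] at h
    refine h.congr_fun ?_
    intro il
    rw [← Finset.sum_mul]
    split_ifs with hil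
    · rw [hil, div_self hχ0]
      simp [hnz]
    · have hne : χ il / χ i0 ≠ 1 := fun h' => hil ((div_eq_one_iff_eq hχ0).1 h')
      rw [geom_sum_eq hne, div_pow, hχn, hχn]
      simp
  have hV := hasSum_ite_sub_hasSum hU i0
  obtain ⟨i2, hi2⟩ := dick_exists_max hV.summable
  have hle := IsUltrametricDist.norm_tsum_le_of_forall_le_of_nonneg (norm_nonneg _) hi2
  rw [hV.tsum_eq, if_pos rfl, zero_sub, norm_neg] at hle
  have hpos : 0 < ‖T i0‖ := norm_pos_iff.2 hT0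
  split_ifs at hle with ha hb
  · rw [norm_zero] at hle
    exact absurd hle (not_le.2 hpos)
  · refine hcon (i2, i0) (Finset.mem_offDiag.2 ⟨?_, ?_, ha⟩) hb
    · exact (Set.Finite.mem_toFinset _).2 (hmin i2 hle)
    · exact (Set.Finite.mem_toFinset _).2 (hmin i0 le_rfl)
  · rw [norm_zero] at hle
    exact absurd hle (not_le.2 hpos)

end Pool.Agent.UAP
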