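import Pool.Agent.Lib.MP_7e5527_ag.Ser

open Polynomial UpperHalfPlane
open scoped Polynomial.Bivariate MatrixGroups IntermediateField

noncomputable section

namespace Pool.Agent.UAP

section grow

variable {k : Type*} [NormedField k] [IsUltrametricDist k]

omit [IsUltrametricDist k] in
private theorem grow_norm {f : PowerSeries k} (hf : Grow f) :
    ∃ M : ℝ, 1 ≤ M ∧ ∀ C Λ : ℝ, M ≤ C → M ≤ Λ → ∀ n, ‖PowerSeries.coeff n f‖ ≤ C * Λ ^ n := by
  obtain ⟨C, Λ, hΛ, h⟩ := hf
  have hC : 0 ≤ C := by simpa using (norm_nonneg _).trans (h 0)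
  refine ⟨C + Λ + 1, by linarith, fun C' Λ' h1 h2 n => (h n).trans ?_⟩
  exact mul_le_mul (by linarith) (pow_le_pow_left₀ hΛ.le (by linarith) n) (by positivity)
    (by linarith)

omit [IsUltrametricDist k] in
private theorem grow_two {f g : PowerSeries k} (hf : Grow f) (hg : Grow g) :
    ∃ C C' Λ : ℝ, 1 ≤ C ∧ 1 ≤ C' ∧ 1 ≤ Λ ∧ (∀ n, ‖PowerSeries.coeff n f‖ ≤ C * Λ ^ n) ∧
      ∀ n, ‖PowerSeries.coeff n g‖ ≤ C' * Λ ^ n := by
  obtain ⟨M, hM, h⟩ := grow_norm hf
  obtain ⟨M', hM', h'⟩ := grow_norm hg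
  exact ⟨M, M', max M M', hM, hM', le_max_of_le_left hM, h _ _ le_rfl (le_max_left _ _),
    h' _ _ le_rfl (le_max_right _ _)⟩

private theorem grow_mul_le {f g : PowerSeries k} {C C' Λ : ℝ} {N : ℕ} (hC : 0 ≤ C) (hC' : 0 ≤ C')
    (hΛ : 0 ≤ Λ) (h : ∀ n ≤ N, ‖PowerSeries.coeff n f‖ ≤ C * Λ ^ n)
    (h' : ∀ n ≤ N, ‖PowerSeries.coeff n g‖ ≤ C' * Λ ^ n) :
    ∀ n ≤ N, ‖PowerSeries.coeff n (f * g)‖ ≤ C * C' * Λ ^ n := by
  intro n hn
  rw [PowerSeries.coeff_mul]
  refine IsUltrametricDist.norm_sum_le_of_forall_le_of_nonneg (by positivity) fun x hx => ?_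
  have e : x.1 + x.2 = n := Finset.HasAntidiagonal.mem_antidiagonal.1 hx
  rw [norm_mul]
  refine (mul_le_mul (h x.1 (by omega)) (h' x.2 (by omega)) (norm_nonneg _)
    (by positivity)).trans (le_of_eq ?_)
  rw [← e]
  ring

private theorem grow_pow_le {f : PowerSeries k} {C Λ : ℝ} {N : ℕ} (hC : 0 ≤ C) (hΛ : 0 ≤ Λ)
    (h : ∀ n ≤ N, ‖PowerSeries.coeff n f‖ ≤ C * Λ ^ n) (i : ℕ) :
    ∀ n ≤ N, ‖PowerSeries.coeff n (f ^ i)‖ ≤ C ^ i * Λ ^ n := by
  induction i with
  | zero =>
    intro n _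
    rw [pow_zero, pow_zero, PowerSeries.coeff_one]
    split_ifs with h0
    · simp [h0]
    · simpa using pow_nonneg hΛ n
  | succ i ih =>
    rw [pow_succ, pow_succ]
    exact grow_mul_le (pow_nonneg hC i) hC hΛ ih h

theorem Grow.add {f g : PowerSeries k} (hf : Grow f) (hg : Grow g) : Grow (f + g) := by
  obtain ⟨C, C', Λ, hC, hC', hΛ, h, h'⟩ := grow_two hf hg
  refine ⟨C + C', Λ, by linarith, fun n => ?_⟩
  rw [map_add, add_mul]
  exact (norm_add_le _ _).trans (add_le_add (h n) (h' n))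

theorem Grow.neg {f : PowerSeries k} (hf : Grow f) : Grow (-f) := by
  obtain ⟨C, Λ, hΛ, h⟩ := hf
  exact ⟨C, Λ, hΛ, fun n => by rw [map_neg, norm_neg]; exact h n⟩

theorem Grow.mul {f g : PowerSeries k} (hf : Grow f) (hg : Grow g) : Grow (f * g) := by
  obtain ⟨C, C', Λ, hC, hC', hΛ, h, h'⟩ := grow_two hf hg
  exact ⟨C * C', Λ, by linarith, fun n => grow_mul_le (N := n) (by linarith) (by linarith)
    (by linarith) (fun m _ => h m) (fun m _ => h' m) n le_rfl⟩

theorem Grow.pow {f : PowerSeries k} (hf : Grow f) (n : ℕ) : Grow (f ^ n) := by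
  obtain ⟨C, Λ, hΛ, h⟩ := hf
  have hC : 0 ≤ C := by simpa using (norm_nonneg _).trans (h 0)
  exact ⟨C ^ n, Λ, hΛ, fun j => grow_pow_le (N := j) hC hΛ.le (fun m _ => h m) n j le_rfl⟩

theorem grow_sum {ι : Type*} (s : Finset ι) {f : ι → PowerSeries k} (h : ∀ i ∈ s, Grow (f i)) :
    Grow (∑ i ∈ s, f i) := by
  classical
  induction s using Finset.induction_on with
  | empty => exact ⟨0, 1, one_pos, fun n => by simp⟩
  | insert a s ha ih =>
    rw [Finset.sum_insert ha]
    exact (h a (Finset.mem_insert_self a s)).add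
      (ih fun i hi => h i (Finset.mem_insert_of_mem hi))

theorem grow_C (c : k) : Grow (PowerSeries.C c) := by
  refine ⟨‖c‖, 1, one_pos, fun n => ?_⟩
  rw [PowerSeries.coeff_C]
  split_ifs <;> simp

theorem grow_intCast (n : ℤ) : Grow (n : PowerSeries k) := by
  have e : (n : PowerSeries k) = PowerSeries.C (n : k) := (map_intCast _ n).symm
  rw [e]
  exact grow_C _

theorem grow_toS (f : PowerSeries ℤ) : Grow (toS k f) := by
  refine ⟨1, 1, one_pos, fun n => ?_⟩
  rw [toS, PowerSeries.coeff_map, one_pow, one_mul]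
  exact IsUltrametricDist.norm_intCast_le_one k _

theorem Grow.substM {f : PowerSeries k} (hf : Grow f) (c : k) (m : ℕ) (hm : m ≠ 0) :
    Grow (subM c m hm f) := by
  obtain ⟨C, Λ, hΛ, h⟩ := hf
  have hC : 0 ≤ C := by simpa using (norm_nonneg _).trans (h 0)
  refine ⟨C, max 1 (‖c‖ * Λ), lt_max_of_lt_left one_pos, fun n => ?_⟩
  rw [coeff_subM]
  split_ifs
  · rw [norm_mul, norm_pow]
    refine (mul_le_mul_of_nonneg_left (h _) (by positivity)).trans ?_
    rw [mul_left_comm, ← mul_pow]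
    refine mul_le_mul_of_nonneg_left ?_ hC
    exact (pow_le_pow_left₀ (by positivity) (le_max_right 1 _) _).trans
      (pow_le_pow_right₀ (le_max_left _ _) (Nat.div_le_self n m))
  · rw [norm_zero]
    positivity

theorem grow_hom1 (P : ℤ[X]) (d : ℕ) {a b : PowerSeries k} (ha : Grow a) (hb : Grow b) :
    Grow (hom1 P d a b) := by
  exact grow_sum _ fun i _ => ((grow_intCast _).mul (ha.pow i)).mul (hb.pow _)

theorem Grow.map {k' : Type*} [NormedField k'] (φ : k →+* k') (hφ : ∀ a, ‖φ a‖ = ‖a‖)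
    {f : PowerSeries k} (hf : Grow f) : Grow (PowerSeries.map φ f) := by
  obtain ⟨C, Λ, hΛ, h⟩ := hf
  exact ⟨C, Λ, hΛ, fun n => by rw [PowerSeries.coeff_map, hφ]; exact h n⟩

private theorem grow_zero : Grow (0 : PowerSeries k) := ⟨0, 1, one_pos, fun n => by simp⟩

private theorem grow_one : Grow (1 : PowerSeries k) := by simpa using grow_C (1 : k)

omit [IsUltrametricDist k] in
private theorem grow_of_X_pow_mul {g : PowerSeries k} {j : ℕ}
    (h : Grow (PowerSeries.X ^ j * g)) : Grow g := by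
  obtain ⟨C, Λ, hΛ, h⟩ := h
  refine ⟨C * Λ ^ j, Λ, hΛ, fun n => ?_⟩
  have h1 := h (n + j)
  rw [PowerSeries.coeff_X_pow_mul] at h1
  refine h1.trans (le_of_eq ?_)
  ring

omit [IsUltrametricDist k] in
private theorem grow_coe (q : k[X]) : Grow (q : PowerSeries k) := by
  refine ⟨∑ i ∈ q.support, ‖q.coeff i‖, 1, one_pos, fun n => ?_⟩
  rw [Polynomial.coeff_coe, one_pow, mul_one]
  by_cases hn : n ∈ q.support
  · exact Finset.single_le_sum (f := fun i => ‖q.coeff i‖) (fun i _ => norm_nonneg _) hn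
  · rw [notMem_support_iff.1 hn, norm_zero]
    exact Finset.sum_nonneg fun i _ => norm_nonneg _

private theorem grow_eval {P : (PowerSeries k)[X]} (hP : ∀ i, Grow (P.coeff i))
    {a : PowerSeries k} (ha : Grow a) : Grow (P.eval a) := by
  rw [eval_eq_sum_range]
  exact grow_sum _ fun i _ => (hP i).mul (ha.pow i)

private theorem grow_pmul {P Q : (PowerSeries k)[X]} (hP : ∀ i, Grow (P.coeff i))
    (hQ : ∀ i, Grow (Q.coeff i)) (i : ℕ) : Grow ((P * Q).coeff i) := by
  rw [coeff_mul]
  exact grow_sum _ fun x _ => (hP _).mul (hQ _)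

private theorem grow_pC {a : PowerSeries k} (ha : Grow a) (i : ℕ) : Grow ((C a).coeff i) := by
  rw [coeff_C]
  split_ifs
  · exact ha
  · exact grow_zero

private theorem grow_pX (i : ℕ) : Grow ((X : (PowerSeries k)[X]).coeff i) := by
  rw [coeff_X]
  split_ifs
  · exact grow_one
  · exact grow_zero

private theorem grow_fix {R : (PowerSeries k)[X]} (hR : ∀ i, Grow (R.coeff i))
    {b w : PowerSeries k} (hb : Grow b) (h : w = b + PowerSeries.X * R.eval w) : Grow w := by
  choose Mi hMi h1 using fun i => grow_norm (hR i)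
  obtain ⟨M0, hM0, h0⟩ := grow_norm hb
  set M := M0 + ∑ i ∈ Finset.range (R.natDegree + 1), Mi i with hM
  have hs : 0 ≤ ∑ i ∈ Finset.range (R.natDegree + 1), Mi i :=
    Finset.sum_nonneg fun i _ => by linarith [hMi i]
  have hM1 : 1 ≤ M := by linarith
  have hMi' : ∀ i ∈ Finset.range (R.natDegree + 1), Mi i ≤ M := fun i hi => by
    have := Finset.single_le_sum (f := Mi) (fun j _ => by linarith [hMi j]) hi
    linarith
  set A := M ^ (R.natDegree + 1) with hA
  have hMA : M ≤ A := le_self_pow₀ hM1 (Nat.succ_ne_zero _)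
  have hA0 : 0 ≤ A := by linarith
  refine ⟨M, A, by linarith, fun n => ?_⟩
  induction n using Nat.strong_induction_on with
  | _ n ih =>
    have hb' := h0 M A (by linarith) (by linarith) n
    rw [h, map_add]
    refine (IsUltrametricDist.norm_add_le_max _ _).trans (max_le hb' ?_)
    rcases n with _ | n
    · rw [PowerSeries.coeff_zero_X_mul, norm_zero]
      positivity
    · rw [PowerSeries.coeff_succ_X_mul, eval_eq_sum_range, map_sum]
      refine IsUltrametricDist.norm_sum_le_of_forall_le_of_nonneg (by positivity) fun i hi => ?_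
      refine (grow_mul_le (N := n) (by linarith) (by positivity) hA0
        (fun m _ => h1 i M A (hMi' i hi) ((hMi' i hi).trans hMA) m)
        (grow_pow_le (by linarith) hA0 (fun m hm => ih m (Nat.lt_succ_of_le hm)) i) n
        le_rfl).trans ?_
      rw [pow_succ' A, ← mul_assoc]
      refine mul_le_mul_of_nonneg_right (mul_le_mul_of_nonneg_left ?_ (by linarith))
        (by positivity)
      exact pow_le_pow_right₀ hM1 (Finset.mem_range.1 hi).le

/-- A simple root of a polynomial with convergent coefficients is convergent. -/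
theorem grow_root (P : (PowerSeries k)[X]) (hP : ∀ i, Grow (P.coeff i)) {z : PowerSeries k}
    (hz : P.eval z = 0) (hz' : P.derivative.eval z ≠ 0) : Grow z := by
  classical
  have hex : ∃ e, PowerSeries.coeff e (P.derivative.eval z) ≠ 0 := by
    by_contra hn
    exact hz' (PowerSeries.ext fun n => by simpa using not_exists.1 hn n)
  obtain ⟨e, he, hmin⟩ : ∃ e, PowerSeries.coeff e (P.derivative.eval z) ≠ 0 ∧
      ∀ n < e, PowerSeries.coeff n (P.derivative.eval z) = 0 :=
    ⟨Nat.find hex, Nat.find_spec hex, fun n hn => not_not.1 (Nat.find_min hex hn)⟩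
  obtain ⟨u0, hu0⟩ := PowerSeries.X_pow_dvd_iff.2 hmin
  have hγ : PowerSeries.constantCoeff u0 ≠ 0 := by
    have e1 := PowerSeries.coeff_X_pow_mul u0 e 0
    rw [zero_add, ← hu0, PowerSeries.coeff_zero_eq_constantCoeff_apply] at e1
    exact e1 ▸ he
  set a : PowerSeries k := ((PowerSeries.trunc (e + 1) z : k[X]) : PowerSeries k) with ha
  have hga : Grow a := grow_coe _
  obtain ⟨w, hw⟩ : PowerSeries.X ^ (e + 1) ∣ z - a := by
    refine PowerSeries.X_pow_dvd_iff.2 fun m hm => ?_
    rw [map_sub, ha, Polynomial.coeff_coe, PowerSeries.coeff_trunc, if_pos hm, sub_self]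
  have hT : ∀ i, Grow ((taylor a P).coeff i) := by
    intro i
    rw [taylor_coeff]
    refine grow_eval (fun j => ?_) hga
    rw [hasseDeriv_coeff]
    refine Grow.mul ?_ (hP _)
    simpa using grow_intCast (k := k) ((j + i).choose i : ℕ)
  set T2 := (taylor a P).divX.divX with hT2
  have e0 : P.eval a + PowerSeries.X ^ (e + 1) * w * (P.derivative.eval a
      + PowerSeries.X ^ (e + 1) * w * T2.eval (PowerSeries.X ^ (e + 1) * w)) = 0 := by
    have e1 := congrArg (Polynomial.eval (PowerSeries.X ^ (e + 1) * w))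
      (X_mul_divX_add (taylor a P))
    have e2 := congrArg (Polynomial.eval (PowerSeries.X ^ (e + 1) * w))
      (X_mul_divX_add (taylor a P).divX)
    rw [taylor_eval, ← hw, sub_add_cancel, hz, hw, taylor_coeff_zero] at e1
    rw [coeff_divX, zero_add, taylor_coeff_one] at e2
    simp only [eval_add, eval_mul, eval_X, eval_C] at e1 e2
    rw [← e1, ← e2]
    ring
  obtain ⟨s, hs⟩ := Polynomial.sub_dvd_eval_sub z a P.derivative
  rw [hw, hu0] at hs
  obtain ⟨u2, hu2⟩ : PowerSeries.X ∣ u0 - PowerSeries.C (PowerSeries.constantCoeff u0) := by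
    rw [PowerSeries.X_dvd_iff]
    simp
  set γ := PowerSeries.constantCoeff u0 with hγ'
  have e3 : P.derivative.eval a
      = PowerSeries.X ^ e * (PowerSeries.C γ + PowerSeries.X * (u2 - w * s)) := by
    linear_combination (-1 : PowerSeries k) * hs + PowerSeries.X ^ e * hu2
  have g1 : Grow (u2 - w * s) := by
    have g2 : Grow (P.derivative.eval a) := taylor_coeff_one a P ▸ hT 1
    rw [e3] at g2
    have g3 := (grow_of_X_pow_mul g2).add (grow_C γ).neg
    refine grow_of_X_pow_mul (j := 1) ?_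
    convert g3 using 1
    ring
  set u1 := u2 - w * s with hu1
  have g4 : Grow (-(w * (PowerSeries.C γ + PowerSeries.X * u1)
      + PowerSeries.X * w ^ 2 * T2.eval (PowerSeries.X ^ (e + 1) * w))) := by
    have g2 : Grow (P.eval a) := taylor_coeff_zero a P ▸ hT 0
    refine grow_of_X_pow_mul (j := 2 * e + 1) ?_
    convert g2 using 1
    rw [e3] at e0
    linear_combination (-1 : PowerSeries k) * e0
  have gX : Grow (PowerSeries.X : PowerSeries k) := by
    have e2 : toS k PowerSeries.X = PowerSeries.X := PowerSeries.map_X _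
    exact e2 ▸ grow_toS PowerSeries.X
  have gw : Grow w := by
    refine grow_fix (R := C (PowerSeries.C (-γ⁻¹)) * (C u1 * X
      + X * (X * T2.comp (C (PowerSeries.X ^ (e + 1)) * X)))) ?_ ((grow_C (-γ⁻¹)).mul g4) ?_
    · refine grow_pmul (grow_pC (grow_C _)) fun i => ?_
      rw [coeff_add]
      refine (grow_pmul (grow_pC g1) grow_pX i).add
        (grow_pmul grow_pX (grow_pmul grow_pX fun j => ?_) i)
      rw [comp_C_mul_X_coeff, hT2, coeff_divX, coeff_divX]
      exact (hT _).mul ((gX.pow _).pow _)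
    · have e4 : PowerSeries.C γ⁻¹ * PowerSeries.C γ = (1 : PowerSeries k) := by
        rw [← map_mul, inv_mul_cancel₀ hγ, map_one]
      simp only [eval_add, eval_mul, eval_X, eval_C, eval_comp, map_neg, eval_neg]
      linear_combination (-w) * e4
  have e5 : z = a + PowerSeries.X ^ (e + 1) * w := by rw [← hw]; ring
  rw [e5]
  exact hga.add ((gX.pow _).mul gw)

end grow

end Pool.Agent.UAP
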