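import Pool.Agent.Lib.MP_7e5527_ag.Ser

open Polynomial UpperHalfPlane
open scoped Polynomial.Bivariate MatrixGroups IntermediateField

noncomputable section

namespace Pool.Agent.UAP

section PuisAux

variable {k : Type*} [Field k]

private theorem puis_subM_apply (m : ℕ) (hm : m ≠ 0) (f : PowerSeries k) :
    subM 1 m hm f = PowerSeries.expand m hm f := by
  simp [subM, PowerSeries.rescale_one]

private theorem puis_comp (m m' : ℕ) (hm : m ≠ 0) (hm' : m' ≠ 0) :
    (subM (1 : k) m' hm').comp (subM 1 m hm) = subM 1 (m' * m) (Nat.mul_ne_zero hm' hm) := by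
  refine RingHom.ext fun f => ?_
  rw [RingHom.comp_apply, puis_subM_apply, puis_subM_apply, puis_subM_apply,
    PowerSeries.expand_mul]

/-- The polynomial splits after a ramified base change. -/
private def PuisGood (P : (PowerSeries k)[X]) : Prop :=
  ∃ (m : ℕ) (hm : m ≠ 0), (P.map (subM 1 m hm)).Splits

private theorem puis_of_splits {P : (PowerSeries k)[X]} (h : P.Splits) : PuisGood P :=
  ⟨1, one_ne_zero, h.map _⟩

private theorem puis_of_map {P : (PowerSeries k)[X]} (m : ℕ) (hm : m ≠ 0)
    (h : PuisGood (P.map (subM 1 m hm))) : PuisGood P := by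
  obtain ⟨m', hm', h⟩ := h
  rw [Polynomial.map_map, puis_comp] at h
  exact ⟨_, _, h⟩

private theorem puis_mul {P Q : (PowerSeries k)[X]} (hP : PuisGood P) (hQ : PuisGood Q) :
    PuisGood (P * Q) := by
  obtain ⟨m, hm, hP⟩ := hP
  obtain ⟨m', hm', hQ⟩ := hQ
  have h1 := hP.map (subM (1 : k) m' hm')
  have h2 := hQ.map (subM (1 : k) m hm)
  rw [Polynomial.map_map, puis_comp] at h1 h2
  refine ⟨m' * m, Nat.mul_ne_zero hm' hm, ?_⟩
  rw [Polynomial.map_mul]
  refine h1.mul ?_
  have : subM (1 : k) (m * m') (Nat.mul_ne_zero hm hm') =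
      subM 1 (m' * m) (Nat.mul_ne_zero hm' hm) := by
    simp only [mul_comm m m']
  rwa [this] at h2

private theorem puis_of_taylor {P : (PowerSeries k)[X]} (r : PowerSeries k)
    (h : PuisGood (taylor r P)) : PuisGood P := by
  obtain ⟨m, hm, h⟩ := h
  refine ⟨m, hm, ?_⟩
  rw [map_taylor] at h
  have h2 := h.taylor (-(subM 1 m hm r))
  rwa [taylor_taylor, neg_add_cancel, taylor_zero] at h2

private theorem puis_scale {P : (PowerSeries k)[X]} (hP : P.Monic) (s : PowerSeries k)
    (h : PuisGood P) : PuisGood (P.scaleRoots s) := by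
  obtain ⟨m, hm, h⟩ := h
  refine ⟨m, hm, ?_⟩
  rw [map_scaleRoots _ _ _ (by rw [hP.leadingCoeff, map_one]; exact one_ne_zero)]
  exact h.scaleRoots _

private theorem puis_taylor_coeff {R : Type*} [CommRing R] (P : R[X]) (d : ℕ)
    (hd : P.natDegree = d + 1) (hP : P.Monic) (r : R) :
    (taylor r P).coeff d = P.coeff d + (d + 1 : ℕ) * r := by
  have h1 : (hasseDeriv d P).natDegree < 2 := by
    have := natDegree_hasseDeriv_le P d
    omega
  have h2 : P.coeff (d + 1) = 1 := by rw [← hd]; exact hP.coeff_natDegree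
  rw [taylor_coeff, eval_eq_sum_range' h1, Finset.sum_range_succ, Finset.sum_range_one,
    hasseDeriv_coeff, hasseDeriv_coeff, add_comm 1 d, h2]
  simp

/-- Factorisation by Weierstrass preparation. -/
private theorem puis_factor {P : (PowerSeries k)[X]} (hP : P.Monic)
    (h0 : PowerSeries.constantCoeff (P.coeff 0) = 0) (j : ℕ) (hj : j < P.natDegree)
    (hj' : PowerSeries.constantCoeff (P.coeff j) ≠ 0) :
    ∃ f g : (PowerSeries k)[X], f.Monic ∧ g.Monic ∧ P = f * g ∧
      f.natDegree < P.natDegree ∧ g.natDegree < P.natDegree := by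
  have : IsAdicComplete (IsLocalRing.maximalIdeal (PowerSeries k)) (PowerSeries k) := by
    rw [PowerSeries.maximalIdeal_eq_span_X]
    infer_instance
  have hres : ∀ a : PowerSeries k, IsLocalRing.residue (PowerSeries k) a = 0 ↔
      PowerSeries.constantCoeff a = 0 := by
    intro a
    rw [IsLocalRing.residue_eq_zero_iff, ← PowerSeries.ker_coeff_eq_max_ideal, RingHom.mem_ker]
  set G : PowerSeries (PowerSeries k) := (P : PowerSeries (PowerSeries k)) with hG
  have hcj : PowerSeries.coeff j (G.map (IsLocalRing.residue (PowerSeries k))) ≠ 0 := by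
    rw [PowerSeries.coeff_map, hG, Polynomial.coeff_coe, Ne, hres]
    exact hj'
  have hG0 : G.map (IsLocalRing.residue (PowerSeries k)) ≠ 0 := by
    intro h
    rw [h] at hcj
    exact hcj (map_zero _)
  obtain ⟨f, h, H⟩ := PowerSeries.exists_isWeierstrassFactorization hG0
  have hdeg := H.natDegree_eq_toNat_order_map
  have hfm : f.Monic := H.isDistinguishedAt.monic
  have hle : f.natDegree ≤ j := by
    rw [hdeg]
    have := PowerSeries.order_le j hcj
    exact ENat.toNat_le_of_le_natCast this
  have hpos : 0 < f.natDegree := by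
    rw [hdeg]
    by_contra hz
    have hz' : (G.map (IsLocalRing.residue (PowerSeries k))).order.toNat = 0 := by omega
    have := PowerSeries.coeff_order hG0
    rw [hz', PowerSeries.coeff_map, hG, Polynomial.coeff_coe, Ne, hres] at this
    exact this h0
  have hne : IsLocalRing.maximalIdeal (PowerSeries k) ≠ ⊤ := Ideal.IsMaximal.ne_top inferInstance
  have hW := H.isDistinguishedAt.isWeierstrassDivisorAt hne
  have hford : ((f : PowerSeries (PowerSeries k)).map
      (Ideal.Quotient.mk (IsLocalRing.maximalIdeal (PowerSeries k)))).order.toNat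
        = f.natDegree := by
    have := H.isDistinguishedAt.coe_natDegree_eq_order_map (f : PowerSeries (PowerSeries k)) 1
      (by rwa [PowerSeries.constantCoeff_one, ← Ideal.ne_top_iff_one]) (by simp)
    rw [← this]
    rfl
  have hdiv : P %ₘ f + f * (P /ₘ f) = P := modByMonic_add_div P f
  have hr : P %ₘ f = 0 := by
    refine (hW.eq_zero_of_mul_eq (q := h - ((P /ₘ f : (PowerSeries k)[X]) :
      PowerSeries (PowerSeries k))) (r := P %ₘ f) ?_ ?_).2
    · rw [hford, ← degree_eq_natDegree hfm.ne_zero]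
      exact degree_modByMonic_lt P hfm
    · have h1 : G = ((P %ₘ f + f * (P /ₘ f) : (PowerSeries k)[X]) :
          PowerSeries (PowerSeries k)) := by rw [hdiv]
      rw [Polynomial.coe_add, Polynomial.coe_mul, H.eq_mul] at h1
      rw [mul_sub, h1]
      ring
  rw [hr, zero_add] at hdiv
  have hgm : (P /ₘ f).Monic := hfm.of_mul_monic_left (by rw [hdiv]; exact hP)
  have hsum : P.natDegree = f.natDegree + (P /ₘ f).natDegree := by
    conv_lhs => rw [← hdiv]
    exact hfm.natDegree_mul hgm
  exact ⟨f, P /ₘ f, hfm, hgm, hdiv.symm, by omega, by omega⟩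

/-- The Newton polygon step. -/
private theorem puis_newton {P : (PowerSeries k)[X]} (hP : P.Monic) (j : ℕ)
    (hj : j < P.natDegree) (hj' : P.coeff j ≠ 0) :
    ∃ (m : ℕ) (hm : m ≠ 0) (s : PowerSeries k) (Q : (PowerSeries k)[X]), Q.Monic ∧
      Q.natDegree = P.natDegree ∧ P.map (subM 1 m hm) = Q.scaleRoots s ∧
      (∀ i, P.coeff i = 0 → Q.coeff i = 0) ∧
      ∃ i < P.natDegree, PowerSeries.constantCoeff (Q.coeff i) ≠ 0 := by
  classical
  set n := P.natDegree with hn
  let S : Finset ℕ := (Finset.range n).filter fun i => P.coeff i ≠ 0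
  have hS : S.Nonempty := ⟨j, by simp [S, hj, hj']⟩
  let o : ℕ → ℕ := fun i => (P.coeff i).order.toNat
  obtain ⟨i0, hi0, hmin⟩ := S.exists_min_image (fun i => (o i : ℚ) / ((n - i : ℕ) : ℚ)) hS
  have hi0' : i0 < n ∧ P.coeff i0 ≠ 0 := by simpa [S] using hi0
  have hm : n - i0 ≠ 0 := by omega
  have hkey : ∀ i < n, P.coeff i ≠ 0 → o i0 * (n - i) ≤ (n - i0) * o i := by
    intro i hi hi'
    have h1 := hmin i (by simp [S, hi, hi'])
    have hp1 : (0 : ℚ) < ((n - i0 : ℕ) : ℚ) := by exact_mod_cast Nat.pos_of_ne_zero hm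
    have hp2 : (0 : ℚ) < ((n - i : ℕ) : ℚ) := by exact_mod_cast Nat.sub_pos_of_lt hi
    rw [div_le_div_iff₀ hp1 hp2] at h1
    rw [mul_comm (n - i0)]
    exact_mod_cast h1
  have hdvd : ∀ i, ∃ b : PowerSeries k,
      subM 1 (n - i0) hm (P.coeff i) = b * (PowerSeries.X ^ o i0) ^ (n - i) := by
    intro i
    by_cases hi : i < n
    · by_cases hi' : P.coeff i = 0
      · exact ⟨0, by simp [hi']⟩
      · have h1 : (PowerSeries.X : PowerSeries k) ^ o i ∣ P.coeff i :=
          PowerSeries.X_pow_order_dvd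
        obtain ⟨c, hc⟩ := h1
        obtain ⟨e, he⟩ := Nat.exists_eq_add_of_le (hkey i hi hi')
        refine ⟨subM 1 (n - i0) hm c * PowerSeries.X ^ e, ?_⟩
        rw [hc, map_mul, map_pow, puis_subM_apply _ _ PowerSeries.X, PowerSeries.expand_X,
          ← pow_mul, ← pow_mul, he, pow_add]
        ring
    · refine ⟨subM 1 (n - i0) hm (P.coeff i), ?_⟩
      rw [show n - i = 0 by omega, pow_zero, mul_one]
  choose b hb using hdvd
  have hX : ∀ i, ((PowerSeries.X : PowerSeries k) ^ o i0) ^ (n - i) ≠ 0 := fun i =>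
    pow_ne_zero _ (pow_ne_zero _ PowerSeries.X_ne_zero)
  have hb0 : ∀ i, P.coeff i = 0 → b i = 0 := by
    intro i hi
    have := hb i
    rw [hi, map_zero] at this
    exact (mul_eq_zero.1 this.symm).resolve_right (hX i)
  have hbn : b n = 1 := by
    have := hb n
    rw [Nat.sub_self, pow_zero, mul_one, show P.coeff n = 1 from hP.coeff_natDegree,
      map_one] at this
    exact this.symm
  let Q : (PowerSeries k)[X] := ∑ i ∈ Finset.range (n + 1), monomial i (b i)
  have hQc : ∀ i, Q.coeff i = b i := by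
    intro i
    simp only [Q, finsetSum_coeff, coeff_monomial, Finset.sum_ite_eq', Finset.mem_range]
    split_ifs with h
    · rfl
    · exact (hb0 i (coeff_eq_zero_of_natDegree_lt (by omega))).symm
  have hQle : Q.natDegree ≤ n := by
    rw [natDegree_le_iff_coeff_eq_zero]
    intro i hi
    rw [hQc]
    exact hb0 i (coeff_eq_zero_of_natDegree_lt hi)
  have hQm : Q.Monic := monic_of_natDegree_le_of_coeff_eq_one n hQle (by rw [hQc, hbn])
  have hQd : Q.natDegree = n :=
    natDegree_eq_of_le_of_coeff_ne_zero hQle (by rw [hQc, hbn]; exact one_ne_zero)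
  refine ⟨n - i0, hm, PowerSeries.X ^ o i0, Q, hQm, hQd, ?_, ?_, i0, hi0'.1, ?_⟩
  · refine Polynomial.ext fun i => ?_
    rw [coeff_map, coeff_scaleRoots, hQd, hQc, hb]
  · intro i hi
    rw [hQc, hb0 i hi]
  · rw [hQc]
    intro hz
    have h1 := congrArg (PowerSeries.coeff ((n - i0) * o i0)) (hb i0)
    rw [puis_subM_apply, PowerSeries.coeff_expand_mul, ← pow_mul, mul_comm (o i0),
      PowerSeries.coeff_mul_X_pow', if_pos le_rfl, Nat.sub_self,
      PowerSeries.coeff_zero_eq_constantCoeff_apply, hz] at h1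
    exact PowerSeries.coeff_order hi0'.2 h1

/-- A root of multiplicity less than the degree. -/
private theorem puis_root [IsAlgClosed k] [CharZero k] (p : k[X]) (hp : p.Monic) (d : ℕ)
    (hd : p.natDegree = d + 1) (hc : p.coeff d = 0) (i : ℕ) (hi : i < d + 1)
    (hi' : p.coeff i ≠ 0) :
    ∃ c : k, (taylor c p).coeff 0 = 0 ∧ ∃ j < d + 1, (taylor c p).coeff j ≠ 0 := by
  obtain ⟨c, hc0⟩ := IsAlgClosed.exists_root p (by
    rw [degree_eq_natDegree hp.ne_zero, hd]
    exact_mod_cast Nat.succ_ne_zero d)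
  refine ⟨c, by rw [taylor_coeff_zero]; exact hc0, ?_⟩
  by_cases h : c = 0
  · exact ⟨i, hi, by rw [h, taylor_zero]; exact hi'⟩
  · refine ⟨d, Nat.lt_succ_self d, ?_⟩
    rw [puis_taylor_coeff p d hd hp, hc, zero_add]
    exact mul_ne_zero (Nat.cast_ne_zero.2 (Nat.succ_ne_zero d)) h

private theorem puis_good [IsAlgClosed k] [CharZero k] (n : ℕ) :
    ∀ P : (PowerSeries k)[X], P.Monic → P.natDegree = n → PuisGood P := by
  induction n using Nat.strong_induction_on with
  | _ n ih =>
    intro P hP hn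
    rcases n with _ | d
    · exact puis_of_splits (Splits.of_natDegree_eq_zero hn)
    -- Tschirnhaus shift
    let r : PowerSeries k := -(PowerSeries.C ((d + 1 : ℕ) : k)⁻¹ * P.coeff d)
    refine puis_of_taylor r ?_
    have hTm : (taylor r P).Monic := by
      rw [Monic, leadingCoeff_taylor]; exact hP
    have hTd : (taylor r P).natDegree = d + 1 := by rw [natDegree_taylor, hn]
    have hTc : (taylor r P).coeff d = 0 := by
      rw [puis_taylor_coeff P d hn hP]
      have h1 : ((d + 1 : ℕ) : PowerSeries k) * PowerSeries.C ((d + 1 : ℕ) : k)⁻¹ = 1 := by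
        rw [← map_natCast (PowerSeries.C (R := k)), ← map_mul,
          mul_inv_cancel₀ (Nat.cast_ne_zero.2 (Nat.succ_ne_zero d)), map_one]
      simp only [r]
      rw [mul_neg, ← mul_assoc, h1, one_mul, add_neg_cancel]
    generalize taylor r P = T at hTm hTd hTc
    by_cases hall : ∀ j < T.natDegree, T.coeff j = 0
    · have : T = X ^ T.natDegree := by
        refine Polynomial.ext fun i => ?_
        rw [coeff_X_pow]
        split_ifs with h
        · rw [h]; exact hTm.coeff_natDegree
        · rcases lt_or_gt_of_ne h with h' | h'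
          · exact hall i h'
          · exact coeff_eq_zero_of_natDegree_lt h'
      rw [this]
      exact puis_of_splits (Splits.X_pow _)
    push Not at hall
    obtain ⟨j, hj, hj'⟩ := hall
    obtain ⟨m, hm, s, Q, hQm, hQd, hPQ, hQ0, i, hi, hi'⟩ := puis_newton hTm j hj hj'
    refine puis_of_map m hm ?_
    rw [hPQ]
    refine puis_scale hQm s ?_
    rw [hTd] at hQd hi
    obtain ⟨c, hc0, j', hj1, hj2⟩ := puis_root (Q.map (PowerSeries.constantCoeff (R := k)))
      (hQm.map _) d (by rw [hQm.natDegree_map, hQd]) (by rw [coeff_map, hQ0 d hTc, map_zero])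
      i hi (by rw [coeff_map]; exact hi')
    refine puis_of_taylor (PowerSeries.C c) ?_
    have hmap : (taylor (PowerSeries.C c) Q).map (PowerSeries.constantCoeff (R := k)) =
        taylor c (Q.map (PowerSeries.constantCoeff (R := k))) := by
      rw [map_taylor, PowerSeries.constantCoeff_C]
    rw [← hmap, coeff_map] at hc0 hj2
    have hUm : (taylor (PowerSeries.C c) Q).Monic := by
      rw [Monic, leadingCoeff_taylor]; exact hQm
    have hUd : (taylor (PowerSeries.C c) Q).natDegree = d + 1 := by rw [natDegree_taylor, hQd]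
    obtain ⟨f, g, hf, hg, hfg, hfd, hgd⟩ := puis_factor hUm hc0 j' (by rw [hUd]; exact hj1) hj2
    rw [hUd] at hfd hgd
    rw [hfg]
    exact puis_mul (ih _ hfd f hf rfl) (ih _ hgd g hg rfl)

end PuisAux

/-- Newton-Puiseux theorem for monic polynomials over formal power series. -/
theorem puiseux (k : Type*) [Field k] [IsAlgClosed k] [CharZero k] (P : (PowerSeries k)[X])
    (hP : P.Monic) : ∃ (m : ℕ) (hm : m ≠ 0) (z : Fin P.natDegree → PowerSeries k),
      P.map (subM 1 m hm) = ∏ i, (X - C (z i)) := by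
  obtain ⟨m, hm, h⟩ := puis_good _ P hP rfl
  have hm' := hP.map (subM (1 : k) m hm)
  have h1 := h.eq_prod_roots_of_monic hm'
  have h2 := h.natDegree_eq_card_roots
  rw [hP.natDegree_map] at h2
  obtain ⟨l, hl⟩ := Quot.exists_rep (P.map (subM (1 : k) m hm)).roots
  have hl' : (P.map (subM (1 : k) m hm)).roots = (l : Multiset (PowerSeries k)) := hl.symm
  rw [hl', Multiset.coe_card] at h2
  rw [hl', Multiset.map_coe, Multiset.prod_coe] at h1
  refine ⟨m, hm, fun i => l.get (i.cast h2), ?_⟩
  rw [h1, ← Fin.prod_univ_fun_getElem]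
  exact (Fintype.prod_equiv (finCongr h2) _ _ fun i => rfl).symm

end Pool.Agent.UAP
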