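import Pool.Agent.Lib.MP_7e5527_ag.Gal1

open Polynomial UpperHalfPlane
open scoped Polynomial.Bivariate MatrixGroups IntermediateField

noncomputable section

namespace Pool.Agent.UAP

variable {p : ℕ} [Fact p.Prime]

/-- The unit ball as a subring. -/
private def gal2_O (p : ℕ) [Fact p.Prime] : Subring ℂ_[p] where
  carrier := {x | ‖x‖ ≤ 1}
  mul_mem' := fun {a b} ha hb => by
    simp only [Set.mem_ofPred_eq, norm_mul] at *
    exact mul_le_one₀ ha (norm_nonneg _) hb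
  one_mem' := by simp
  add_mem' := fun {a b} ha hb =>
    (IsUltrametricDist.norm_add_le_max a b).trans (max_le ha hb)
  zero_mem' := by simp
  neg_mem' := fun {a} ha => by simpa using ha

private theorem gal2_mem {x : ℂ_[p]} : x ∈ gal2_O p ↔ ‖x‖ ≤ 1 := Iff.rfl

private theorem gal2_norm_nat (n : ℕ) : ‖(n : ℂ_[p])‖ = ‖(n : ℚ_[p])‖ := by
  rw [← map_natCast (algebraMap ℚ_[p] ℂ_[p]) n, norm_algebraMap']

private theorem gal2_add_lt {a b : ℂ_[p]} (ha : ‖a‖ < 1) (hb : ‖b‖ < 1) : ‖a + b‖ < 1 :=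
  (IsUltrametricDist.norm_add_le_max a b).trans_lt (max_lt ha hb)

private theorem gal2_norm_root {ω : ℂ_[p]} {r : ℕ} (hr : r ≠ 0) (hω : ω ^ r = 1) : ‖ω‖ = 1 := by
  have h : ‖ω‖ ^ r = 1 := by rw [← norm_pow, hω, norm_one]
  exact (pow_eq_one_iff_of_nonneg (norm_nonneg _) hr).1 h

private theorem gal2_add_pow {a b : ℂ_[p]} (ha : ‖a‖ ≤ 1) (hb : ‖b‖ ≤ 1) (n : ℕ) :
    ‖(a + b) ^ p ^ n - (a ^ p ^ n + b ^ p ^ n)‖ < 1 := by
  obtain ⟨r, hr⟩ := exists_add_pow_prime_pow_eq (Fact.out : p.Prime)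
    (⟨a, ha⟩ : gal2_O p) (⟨b, hb⟩ : gal2_O p) n
  have h := congrArg (fun x : gal2_O p => (x : ℂ_[p])) hr
  push_cast at h
  rw [h, add_sub_cancel_left, norm_mul, norm_mul, norm_mul]
  have hp : ‖(p : ℂ_[p])‖ < 1 := by
    rw [gal2_norm_nat]; exact Padic.norm_natCast_lt_one_iff.2 dvd_rfl
  have hr1 : ‖(r : ℂ_[p])‖ ≤ 1 := r.2
  calc ‖(p : ℂ_[p])‖ * ‖a‖ * ‖b‖ * ‖(r : ℂ_[p])‖ ≤ ‖(p : ℂ_[p])‖ * 1 * 1 * 1 := by gcongr
    _ < 1 := by simpa using hp

private theorem gal2_sum_pow {ι : Type*} (s : Finset ι) (f : ι → ℂ_[p])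
    (hf : ∀ i ∈ s, ‖f i‖ ≤ 1) (n : ℕ) :
    ‖(∑ i ∈ s, f i) ^ p ^ n - ∑ i ∈ s, f i ^ p ^ n‖ < 1 := by
  classical
  induction s using Finset.induction_on with
  | empty => simp [(Fact.out : p.Prime).ne_zero]
  | insert a s ha ih =>
    have h1 := ih fun i hi => hf i (Finset.mem_insert_of_mem hi)
    have h2 : ‖∑ i ∈ s, f i‖ ≤ 1 :=
      IsUltrametricDist.norm_sum_le_of_forall_le_of_nonneg zero_le_one
        fun i hi => hf i (Finset.mem_insert_of_mem hi)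
    have h3 := gal2_add_pow (hf a (Finset.mem_insert_self a s)) h2 n
    rw [Finset.sum_insert ha, Finset.sum_insert ha]
    have h4 := gal2_add_lt h3 h1
    convert h4 using 2
    ring

private theorem gal2_sum_lt {ι : Type*} (s : Finset ι) (f : ι → ℂ_[p])
    (hf : ∀ i ∈ s, ‖f i‖ < 1) : ‖∑ i ∈ s, f i‖ < 1 := by
  classical
  induction s using Finset.induction_on with
  | empty => simp
  | insert a s ha ih =>
    rw [Finset.sum_insert ha]
    exact gal2_add_lt (hf a (Finset.mem_insert_self a s))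
      (ih fun i hi => hf i (Finset.mem_insert_of_mem hi))

private theorem gal2_isIntegral (F : Type*) [Field F] [Algebra F ℂ_[p]] {ω : ℂ_[p]} {r : ℕ}
    (hr : 0 < r) (hω : ω ^ r = 1) : IsIntegral F ω :=
  IsIntegral.of_pow hr (hω ▸ isIntegral_one)

private theorem gal2_root_pow (F : Type*) [Field F] [Algebra F ℂ_[p]] {ω ω' : ℂ_[p]} {r : ℕ}
    (hω : ω ^ r = 1) (h : aeval ω' (minpoly F ω) = 0) : ω' ^ r = 1 := by
  have hd : minpoly F ω ∣ X ^ r - 1 := minpoly.dvd F ω (by simp [hω])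
  have h2 := aeval_eq_zero_of_dvd_aeval_eq_zero hd h
  simpa [sub_eq_zero] using h2

theorem finiteDimensional_sup_root (K : IntermediateField ℚ_[p] ℂ_[p]) [FiniteDimensional ℚ_[p] K]
    {ω : ℂ_[p]} {r : ℕ} (hr : 0 < r) (hω : ω ^ r = 1) :
    FiniteDimensional ℚ_[p] (K ⊔ ℚ_[p]⟮ω⟯ : IntermediateField ℚ_[p] ℂ_[p]) := by
  have := IntermediateField.adjoin.finiteDimensional (gal2_isIntegral ℚ_[p] hr hω)
  exact IntermediateField.finiteDimensional_sup _ _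

theorem finrank_sup_root_le (K : IntermediateField ℚ_[p] ℂ_[p]) [FiniteDimensional ℚ_[p] K]
    {ω : ℂ_[p]} {r : ℕ} (hr : 0 < r) (hω : ω ^ r = 1) :
    Module.finrank ℚ_[p] (K ⊔ ℚ_[p]⟮ω⟯ : IntermediateField ℚ_[p] ℂ_[p]) ≤
      Module.finrank ℚ_[p] K * r := by
  refine (IntermediateField.finrank_sup_le _ _).trans (Nat.mul_le_mul_left _ ?_)
  rw [IntermediateField.adjoin.finrank (gal2_isIntegral ℚ_[p] hr hω)]
  have hd : minpoly ℚ_[p] ω ∣ X ^ r - C 1 := minpoly.dvd _ ω (by simp [hω])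
  have h := natDegree_le_of_dvd hd (X_pow_sub_C_ne_zero hr 1)
  rwa [natDegree_X_pow_sub_C] at h

theorem map_mem_sup_root (K : IntermediateField ℚ_[p] ℂ_[p]) {ω : ℂ_[p]} {σ : ℂ_[p] →+* ℂ_[p]}
    (hK : ∀ a ∈ K, σ a = a) {Q : ℕ} (hω : σ ω = ω ^ Q) {z : ℂ_[p]} (hz : z ∈ K ⊔ ℚ_[p]⟮ω⟯) :
    σ z ∈ K ⊔ ℚ_[p]⟮ω⟯ := by
  let L : IntermediateField ℚ_[p] ℂ_[p] := K ⊔ ℚ_[p]⟮ω⟯
  have hKL : K ≤ L := le_sup_left
  have hωL : ω ∈ L :=
    (le_sup_right : ℚ_[p]⟮ω⟯ ≤ L) (IntermediateField.mem_adjoin_simple_self _ ω)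
  let M : IntermediateField ℚ_[p] ℂ_[p] :=
    (L.toSubfield.comap σ).toIntermediateField fun x => by
      change σ (algebraMap ℚ_[p] ℂ_[p] x) ∈ L
      rw [hK _ (K.algebraMap_mem x)]
      exact L.algebraMap_mem x
  have hLM : L ≤ M := by
    refine sup_le (fun a ha => ?_) (IntermediateField.adjoin_simple_le_iff.2 ?_)
    · change σ a ∈ L
      rw [hK a ha]
      exact hKL ha
    · change σ ω ∈ L
      rw [hω]
      exact pow_mem hωL Q
  exact hLM hz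

/-- Adjoining a root of unity of order prime to `p` does not change the value group. -/
theorem norm_pow_factorial_unram (K : IntermediateField ℚ_[p] ℂ_[p]) [FiniteDimensional ℚ_[p] K]
    {D : ℕ} (hD : Module.finrank ℚ_[p] K ≤ D) {ω : ℂ_[p]} {r : ℕ} (hr : ¬ p ∣ r)
    (hω : IsPrimitiveRoot ω r) {z : ℂ_[p]} (hz : z ∈ K ⊔ ℚ_[p]⟮ω⟯) (hz0 : z ≠ 0) :
    ∃ k : ℤ, ‖z‖ ^ D.factorial = (p : ℝ) ^ k := by
  classical
  have hr0 : r ≠ 0 := fun h => hr (h ▸ dvd_zero p)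
  have hω1 : ω ^ r = 1 := hω.pow_eq_one
  have hint : IsIntegral K ω := gal2_isIntegral K (Nat.pos_of_ne_zero hr0) hω1
  have : FiniteDimensional K K⟮ω⟯ := IntermediateField.adjoin.finiteDimensional hint
  have hzL : z ∈ K⟮ω⟯ := by
    have h : K ⊔ ℚ_[p]⟮ω⟯ ≤ (K⟮ω⟯).restrictScalars ℚ_[p] := by
      refine sup_le (fun a ha => ?_) (IntermediateField.adjoin_simple_le_iff.2 ?_)
      · exact (K⟮ω⟯).algebraMap_mem ⟨a, ha⟩
      · exact IntermediateField.mem_adjoin_simple_self K ω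
    exact h hz
  let g : K⟮ω⟯ := ⟨ω, IntermediateField.mem_adjoin_simple_self K ω⟩
  let y : K⟮ω⟯ := ⟨z, hzL⟩
  have hn1 : ‖ω‖ = 1 := gal2_norm_root hr0 hω1
  have hω0 : ω ≠ 0 := by
    intro h
    rw [h, norm_zero] at hn1
    exact zero_ne_one hn1
  have hg1 : g ^ r = 1 := Subtype.ext (by simpa using hω1)
  have hiso : ∀ (σ : K⟮ω⟯ →ₐ[K] ℂ_[p]) (x : K⟮ω⟯), ‖σ x‖ = ‖(x : ℂ_[p])‖ := by
    intro σ x
    have hx : IsIntegral K x := IsIntegral.of_finite K x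
    have hx' : IsIntegral K (x : ℂ_[p]) := hx.map (K⟮ω⟯).val
    have hm : aeval (σ x) (minpoly K (x : ℂ_[p])) = 0 := by
      have h : minpoly K (x : ℂ_[p]) = minpoly K x :=
        minpoly.algHom_eq (K⟮ω⟯).val (K⟮ω⟯).val.injective x
      rw [h, aeval_algHom_apply, minpoly.aeval, map_zero]
    obtain ⟨τ, hτ, -, hτx⟩ := exists_iso K hx' hm
    rw [← hτx, hτ]
  let T : ℕ → ℂ_[p] := fun i => algebraMap K ℂ_[p] (Algebra.trace K K⟮ω⟯ (y * g ^ i))
  have hT : ∀ i, T i = ∑ σ : K⟮ω⟯ →ₐ[K] ℂ_[p], σ (y * g ^ i) := fun i =>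
    trace_eq_sum_embeddings ℂ_[p]
  have hTle : ∀ i, ‖T i‖ ≤ ‖z‖ := by
    intro i
    rw [hT]
    refine IsUltrametricDist.norm_sum_le_of_forall_le_of_nonneg (norm_nonneg _) fun σ _ => ?_
    rw [hiso]
    simp [y, g, hn1]
  have hsum : ∑ i ∈ Finset.range r, ω⁻¹ ^ i * T i = (r : ℂ_[p]) * z := by
    have h1 : ∑ i ∈ Finset.range r, ω⁻¹ ^ i * T i =
        ∑ σ : K⟮ω⟯ →ₐ[K] ℂ_[p], σ y * ∑ i ∈ Finset.range r, (σ g * ω⁻¹) ^ i := by
      simp only [hT, Finset.mul_sum, map_mul, map_pow]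
      rw [Finset.sum_comm]
      refine Finset.sum_congr rfl fun σ _ => Finset.sum_congr rfl fun i _ => ?_
      rw [mul_pow]
      ring
    rw [h1, Finset.sum_eq_single (K⟮ω⟯).val]
    · have h2 : (K⟮ω⟯).val g * ω⁻¹ = 1 := mul_inv_cancel₀ hω0
      rw [h2]
      simp [y, mul_comm]
    · intro σ _ hσ
      have h2 : σ g * ω⁻¹ ≠ 1 := by
        intro h
        apply hσ
        have h3 : σ g = ω := by
          have h4 := congrArg (· * ω) h
          simpa [hω0] using h4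
        refine IntermediateField.adjoin_algHom_ext K fun x hx => ?_
        obtain rfl : x = ω := hx
        exact h3
      have h3 : (σ g * ω⁻¹) ^ r = 1 := by
        rw [mul_pow, ← map_pow, hg1, map_one, inv_pow, hω1, inv_one, mul_one]
      have h4 := mul_geom_sum (σ g * ω⁻¹) r
      rw [h3, sub_self] at h4
      rw [(mul_eq_zero.1 h4).resolve_left (sub_ne_zero.2 h2), mul_zero]
    · intro h
      exact absurd (Finset.mem_univ _) h
  have hnr : ‖(r : ℂ_[p])‖ = 1 := by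
    rw [gal2_norm_nat]
    exact Padic.norm_natCast_eq_one_iff.2
      ((Nat.Prime.coprime_iff_not_dvd (Fact.out : p.Prime)).2 hr)
  obtain ⟨i, -, hi⟩ := IsUltrametricDist.exists_norm_finsetSum_le (Finset.range r)
    fun i => ω⁻¹ ^ i * T i
  rw [hsum, norm_mul, hnr, one_mul, norm_mul, norm_pow, norm_inv, hn1, inv_one, one_pow,
    one_mul] at hi
  have he : ‖z‖ = ‖T i‖ := le_antisymm hi (hTle i)
  have hT0 : T i ≠ 0 := by
    rw [← norm_ne_zero_iff, ← he]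
    exact norm_ne_zero_iff.2 hz0
  rw [he]
  exact norm_pow_factorial K hD (Algebra.trace K K⟮ω⟯ (y * g ^ i)).2 hT0

theorem exists_frobenius (K : IntermediateField ℚ_[p] ℂ_[p]) [FiniteDimensional ℚ_[p] K] {D : ℕ}
    (hD : Module.finrank ℚ_[p] K ≤ D) {ω : ℂ_[p]} {r : ℕ} (hr : ¬ p ∣ r) (hω : ω ^ r = 1) :
    ∃ φ : ℂ_[p] →+* ℂ_[p], Iso φ ∧ (∀ a ∈ K, φ a = a) ∧ φ ω = ω ^ p ^ D.factorial := by
  have hr0 : r ≠ 0 := fun h => hr (h ▸ dvd_zero p)
  have hint : IsIntegral K ω := gal2_isIntegral K (Nat.pos_of_ne_zero hr0) hω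
  have hn1 : ‖ω‖ = 1 := gal2_norm_root hr0 hω
  set m : ℂ_[p][X] := (minpoly K ω).map (algebraMap K ℂ_[p]) with hm
  have hmo : m.Monic := (minpoly.monic hint).map _
  have hsp : m.Splits := IsAlgClosed.splits m
  have hroot : ∀ a ∈ m.roots, aeval a (minpoly K ω) = 0 := by
    intro a ha
    have h := (mem_roots hmo.ne_zero).1 ha
    rwa [IsRoot.def, hm, eval_map_algebraMap] at h
  have hcoef : ∀ i, ‖m.coeff i‖ ≤ 1 := by
    have h := hsp.mem_lift_of_roots_mem_range hmo (gal2_O p).subtype fun a ha =>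
      ⟨⟨a, (gal2_norm_root hr0 (gal2_root_pow K hω (hroot a ha))).le⟩, rfl⟩
    intro i
    obtain ⟨c, hc⟩ := (lifts_iff_coeff_lifts m).1 h i
    rw [← hc]
    exact c.2
  have hcK : ∀ i, m.coeff i ∈ K := by
    intro i
    rw [hm, coeff_map]
    exact ((minpoly K ω).coeff i).2
  have hev0 : ∑ i ∈ Finset.range (m.natDegree + 1), m.coeff i * ω ^ i = 0 := by
    rw [← eval_eq_sum_range, hm, eval_map_algebraMap, minpoly.aeval]
  have hlt : ‖m.eval (ω ^ p ^ D.factorial)‖ < 1 := by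
    have h1 := gal2_sum_pow (Finset.range (m.natDegree + 1)) (fun i => m.coeff i * ω ^ i)
      (fun i _ => by simpa [hn1] using hcoef i) D.factorial
    rw [hev0, zero_pow (pow_ne_zero _ (Fact.out : p.Prime).ne_zero), zero_sub, norm_neg] at h1
    have h2 := gal2_sum_lt (Finset.range (m.natDegree + 1))
      (fun i => -((m.coeff i ^ p ^ D.factorial - m.coeff i) * (ω ^ p ^ D.factorial) ^ i))
      (fun i _ => by simpa [hn1] using norm_pow_sub_lt K hD (hcK i) (hcoef i))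
    have h3 := gal2_add_lt h1 h2
    rw [← Finset.sum_add_distrib] at h3
    rw [eval_eq_sum_range]
    convert h3 using 2
    refine Finset.sum_congr rfl fun i _ => ?_
    rw [mul_pow, ← pow_mul ω i, ← pow_mul ω _ i, mul_comm i]
    ring
  have hex : ∃ a ∈ m.roots, ‖ω ^ p ^ D.factorial - a‖ < 1 := by
    by_contra hc
    push Not at hc
    rw [hsp.eval_eq_prod_roots_of_monic hmo] at hlt
    refine absurd hlt (not_lt.2 ?_)
    refine Multiset.prod_induction (fun x : ℂ_[p] => 1 ≤ ‖x‖) _ (fun a b ha hb => ?_) (by simp) ?_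
    · rw [norm_mul]
      exact one_le_mul_of_one_le_of_one_le ha hb
    · intro x hx
      obtain ⟨a, ha, rfl⟩ := Multiset.mem_map.1 hx
      exact hc a ha
  obtain ⟨a, ha, hal⟩ := hex
  have ha1 : a ^ r = 1 := gal2_root_pow K hω (hroot a ha)
  have han : ‖a‖ = 1 := gal2_norm_root hr0 ha1
  have ha0 : a ≠ 0 := by
    intro h
    rw [h, norm_zero] at han
    exact zero_ne_one han
  have h1 : ω ^ p ^ D.factorial / a = 1 := by
    refine root_eq_one_of_coprime hr ?_ ?_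
    · rw [div_pow, ha1, ← pow_mul, mul_comm, pow_mul, hω, one_pow, div_one]
    · rw [div_sub_one ha0, norm_div, han, div_one]
      exact hal
  have h2 : ω ^ p ^ D.factorial = a := (div_eq_one_iff_eq ha0).1 h1
  rw [h2]
  exact exists_iso K hint (hroot a ha)

end Pool.Agent.UAP
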