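import Pool.Agent.Lib.MP_7e5527_ag.EO.OG3

/-! Hecke orbits of ordinary points meet generic curves of the E7 Shimura variety in finite sets. -/

open Filter Topology

namespace Pool.Agent.Lib.MP_7e5527_ag.E7OrdOld

open Pool.Agent.E7

theorem result (p : ℕ) [Fact p.Prime] (e : ℂ_[p] ≃+* ℂ) (Z0 : Ix → ℂ) (hZ0 : Z0 ∈ HH)
    (hT : IsOrd e Z0) (h : ℂ → Ix → ℂ) (ha : AnalyticAt ℂ h 0) (hm : h 0 ∈ HH)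
    (hd : ∀ P : MvPolynomial Ix ℂ,
      (∀ᶠ t in 𝓝 (0 : ℂ), MvPolynomial.eval (h t) P = 0) → P = 0)
    (hc : ∀ (k : ℤ) (F : Fin 3 → (Ix → ℂ) → ℂ) (a : Fin 3 → (Ix → ℚ) → ℂ),
      (∀ i, IsMF k (F i) (a i)) → ∃ (P : MvPolynomial (Fin 3) ℂ) (m : ℕ), P ≠ 0 ∧
        P.IsHomogeneous m ∧ ∀ᶠ t in 𝓝 (0 : ℂ), MvPolynomial.eval (fun i => F i (h t)) P = 0) :
    ∃ S : Set (Ix → ℂ), S.Finite ∧ S ⊆ HH ∧ ∀ Z, Hecke Z0 Z →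
      (∀ (k : ℤ) (F : (Ix → ℂ) → ℂ) (a : (Ix → ℚ) → ℂ), IsMF k F a →
        (∀ᶠ t in 𝓝 (0 : ℂ), F (h t) = 0) → F Z = 0) → ∃ Z' ∈ S, SamePt Z Z' := by
  obtain ⟨χ, c, k0, S0, O⟩ := hT.ordC hZ0
  exact O.finite ⟨ha, hm, hd, fun k F hF =>
    hc k (fun i => ext (F i)) (fun i => cf (F i)) fun i => isMF_ext (hF i).1.gd (hF i).2⟩

end Pool.Agent.Lib.MP_7e5527_ag.E7OrdOld
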