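import Pool.Agent.Lib.MP_7e5527_ag.Ram
import Pool.Agent.Lib.MP_7e5527_ag.Ev

open Polynomial UpperHalfPlane
open scoped Polynomial.Bivariate

noncomputable section

namespace Pool.Agent.UAP

section ultra

variable {E : Type*} [NontriviallyNormedField E] [IsUltrametricDist E] [CompleteSpace E]

private theorem jf_evZ_C (c : ℤ) {x : E} (hx : ‖x‖ < 1) :
    evZ (PowerSeries.C c) x = (c : E) := by
  refine (hasEv_evZ _ hx).unique ?_
  rw [toS, PowerSeries.map_C, eq_intCast]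
  exact hasEv_C _ _

/-- Evaluation of integer series at a point of the open unit disc, as a ring hom. -/
private def jfHom (x : E) (hx : ‖x‖ < 1) : PowerSeries ℤ →+* E where
  toFun f := evZ f x
  map_one' := by simpa using jf_evZ_C 1 hx
  map_mul' f g := evZ_mul f g hx
  map_zero' := by simpa using jf_evZ_C 0 hx
  map_add' f g := evZ_add f g hx

private theorem jfHom_apply {x : E} (hx : ‖x‖ < 1) (f : PowerSeries ℤ) :
    jfHom x hx f = evZ f x := rfl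

private theorem jf_split (f : PowerSeries ℤ) {x : E} (hx : ‖x‖ < 1) :
    evZ f x = x * evZ (PowerSeries.mk fun n => PowerSeries.coeff (n + 1) f) x
      + ((PowerSeries.constantCoeff f : ℤ) : E) := by
  conv_lhs => rw [PowerSeries.eq_X_mul_shift_add_const f]
  rw [evZ_add _ _ hx, evZ_mul _ _ hx, evZ_X, jf_evZ_C _ hx]

private theorem jf_norm_one {f : PowerSeries ℤ}
    (hf : ‖((PowerSeries.constantCoeff f : ℤ) : E)‖ = 1) {x : E} (hx : ‖x‖ < 1) :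
    ‖evZ f x‖ = 1 := by
  have h : ‖x * evZ (PowerSeries.mk fun n => PowerSeries.coeff (n + 1) f) x‖ < 1 := by
    rw [norm_mul]
    exact mul_lt_one_of_nonneg_of_lt_one_left (norm_nonneg _) hx (norm_evZ_le _ hx)
  rw [jf_split f hx, IsUltrametricDist.norm_add_eq_max_of_norm_ne_norm (by rw [hf]; exact h.ne),
    hf, max_eq_right h.le]

private theorem jf_lip (f : PowerSeries ℤ) {x y : E} (hx : ‖x‖ < 1) (hy : ‖y‖ < 1) :
    ‖evZ f x - evZ f y‖ ≤ ‖x - y‖ := by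
  refine (hasEv_evZ f hx).lipschitz (hasEv_evZ f hy) (fun n => ?_) hx.le hy.le
  rw [toS, PowerSeries.coeff_map, eq_intCast]
  exact IsUltrametricDist.norm_intCast_le_one _ _

private theorem jf_J_split {x : E} (hx0 : x ≠ 0) (hx : ‖x‖ < 1) :
    J x = x⁻¹ + evZ (PowerSeries.mk fun n => PowerSeries.coeff (n + 1) j0s) x := by
  rw [J, Jn, jn_zero, jf_split j0s hx, constantCoeff_j0s]
  field_simp
  push_cast
  ring

theorem norm_Jn (k : ℕ) {x : E} (hx0 : x ≠ 0) (hx : ‖x‖ < 1) : ‖Jn k x‖ = ‖x‖⁻¹ := by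
  rw [Jn, norm_div, jf_norm_one (by rw [constantCoeff_jn]; simp) hx, one_div]

theorem hasDerivAt_Jn (k : ℕ) {x : E} (hx0 : x ≠ 0) (hx : ‖x‖ < 1) :
    HasDerivAt (Jn k) (Jn (k + 1) x / x) x := by
  have h := (hasDerivAt_evZ (jn k) hx).div (hasDerivAt_id x) hx0
  have h1 : evZ (jn (k + 1)) x =
      x * evZ (PowerSeries.derivative ℤ (jn k)) x - evZ (jn k) x := by
    rw [jn_succ, thS_eq, ← jfHom_apply hx, map_sub, map_mul, jfHom_apply, jfHom_apply,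
      jfHom_apply, evZ_X]
  have h2 : Jn (k + 1) x / x =
      (evZ (PowerSeries.derivative ℤ (jn k)) x * id x - evZ (jn k) x * 1) / id x ^ 2 := by
    rw [Jn, h1, id]
    field_simp
  rw [h2]
  exact h

theorem ode_J {x : E} (hx0 : x ≠ 0) (hx : ‖x‖ < 1) :
    ode (J x) (Jn 1 x) (Jn 2 x) (Jn 3 x) = 0 := by
  have h := congrArg (jfHom x hx) ode_formal
  simp only [map_add, map_mul, map_sub, map_pow, map_ofNat, map_zero, jfHom_apply, evZ_X] at h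
  rw [ode, J, Jn, Jn, Jn, Jn, jn_zero]
  field_simp
  linear_combination h

theorem norm_J_sub_sub {x y : E} (hx0 : x ≠ 0) (hx : ‖x‖ < 1) (hy0 : y ≠ 0) (hy : ‖y‖ < 1) :
    ‖J x - J y - (y - x) / (x * y)‖ ≤ ‖x - y‖ := by
  refine le_of_eq_of_le ?_
    (jf_lip (PowerSeries.mk fun n => PowerSeries.coeff (n + 1) j0s) hx hy)
  rw [jf_J_split hx0 hx, jf_J_split hy0 hy]
  congr 1
  field_simp
  ring

theorem norm_J_sub {x y : E} (hx0 : x ≠ 0) (hx : ‖x‖ < 1) (hy0 : y ≠ 0) (hy : ‖y‖ < 1) :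
    ‖J x - J y‖ = ‖x - y‖ / (‖x‖ * ‖y‖) := by
  rcases eq_or_ne x y with rfl | hxy
  · simp
  have h := norm_J_sub_sub hx0 hx hy0 hy
  have hpos : 0 < ‖x - y‖ := norm_pos_iff.2 (sub_ne_zero.2 hxy)
  have hm : 0 < ‖x‖ * ‖y‖ := mul_pos (norm_pos_iff.2 hx0) (norm_pos_iff.2 hy0)
  have hm1 : ‖x‖ * ‖y‖ < 1 := mul_lt_one_of_nonneg_of_lt_one_left (norm_nonneg _) hx hy.le
  have h1 : ‖(y - x) / (x * y)‖ = ‖x - y‖ / (‖x‖ * ‖y‖) := by
    rw [norm_div, norm_mul, norm_sub_rev]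
  have h2 : ‖x - y‖ < ‖x - y‖ / (‖x‖ * ‖y‖) := by
    rw [lt_div_iff₀ hm]
    nlinarith
  have h3 : J x - J y = (J x - J y - (y - x) / (x * y)) + (y - x) / (x * y) := by ring
  rw [h3, IsUltrametricDist.norm_add_eq_max_of_norm_ne_norm
    (by rw [h1]; exact (h.trans_lt h2).ne), h1, max_eq_right (h.trans h2.le)]

theorem J_inj {x y : E} (hx0 : x ≠ 0) (hx : ‖x‖ < 1) (hy0 : y ≠ 0) (hy : ‖y‖ < 1)
    (h : J x = J y) : x = y := by
  have h1 := norm_J_sub hx0 hx hy0 hy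
  rw [h, sub_self, norm_zero, eq_comm, div_eq_zero_iff] at h1
  rcases h1 with h1 | h1
  · exact sub_eq_zero.1 (norm_eq_zero.1 h1)
  · exact absurd h1 (mul_pos (norm_pos_iff.2 hx0) (norm_pos_iff.2 hy0)).ne'

/-- The Tate parameter exists in every closed subfield that contains `a`. -/
theorem exists_J_mem (S : Subfield E) (hS : IsClosed (S : Set E)) {a : E} (haS : a ∈ S)
    (ha : 1 < ‖a‖) : ∃ q ∈ S, q ≠ 0 ∧ ‖q‖ < 1 ∧ J q = a := by
  have ha0 : a ≠ 0 := norm_pos_iff.1 (one_pos.trans ha)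
  have hs1 : ‖a⁻¹‖ < 1 := by
    rw [norm_inv]
    exact inv_lt_one_of_one_lt₀ ha
  let T : Set E := (S : Set E) ∩ Metric.closedBall 0 ‖a⁻¹‖
  have hT : ∀ q ∈ T, ‖q‖ < 1 := fun q hq => (mem_closedBall_zero_iff.1 hq.2).trans_lt hs1
  have hj : ∀ q : E, ‖q‖ < 1 → ‖evZ j0s q‖ = 1 := fun q hq =>
    jf_norm_one (by rw [constantCoeff_j0s]; simp) hq
  let f : E → E := fun q => a⁻¹ * evZ j0s q
  have hmaps : Set.MapsTo f T T := fun q hq =>
    ⟨S.mul_mem (S.inv_mem haS) (evZ_mem S.toSubring hS j0s (hT q hq) hq.1), by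
      rw [mem_closedBall_zero_iff, norm_mul, hj q (hT q hq), mul_one]⟩
  have hcon : ContractingWith ‖a⁻¹‖₊ (hmaps.restrict f T T) := by
    refine ⟨by exact_mod_cast hs1, LipschitzWith.of_dist_le_mul fun q q' => ?_⟩
    rw [Subtype.dist_eq, Subtype.dist_eq, Set.MapsTo.val_restrict_apply,
      Set.MapsTo.val_restrict_apply, dist_eq_norm, dist_eq_norm, ← mul_sub, norm_mul, coe_nnnorm]
    exact mul_le_mul_of_nonneg_left (jf_lip _ (hT _ q.2) (hT _ q'.2)) (norm_nonneg _)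
  have h0 : (0 : E) ∈ T := ⟨S.zero_mem, Metric.mem_closedBall_self (norm_nonneg _)⟩
  obtain ⟨q, hq, hfix, -⟩ := ContractingWith.exists_fixedPoint'
    (hS.inter Metric.isClosed_closedBall).isComplete hmaps hcon h0 (edist_ne_top _ _)
  have hq1 := hT q hq
  have hfix' : a⁻¹ * evZ j0s q = q := hfix
  have hq0 : q ≠ 0 := by
    rw [← hfix']
    exact mul_ne_zero (inv_ne_zero ha0) (norm_ne_zero_iff.1 (by rw [hj q hq1]; exact one_ne_zero))
  refine ⟨q, hq.1, hq0, hq1, ?_⟩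
  rw [J, Jn, jn_zero, div_eq_iff hq0]
  rw [inv_mul_eq_iff_eq_mul₀ ha0] at hfix'
  exact hfix'

theorem exists_J {a : E} (ha : 1 < ‖a‖) : ∃ q : E, q ≠ 0 ∧ ‖q‖ < 1 ∧ J q = a := by
  obtain ⟨q, -, h⟩ := exists_J_mem (⊤ : Subfield E) (by simp) (Subfield.mem_top a) ha
  exact ⟨q, h⟩

theorem norm_evZ_Ds {x : E} (hx : ‖x‖ < 1) : ‖evZ Ds x‖ = ‖x‖ := by
  rw [Ds_eq_X_mul, evZ_mul _ _ hx, evZ_X, norm_mul,
    jf_norm_one (by rw [constantCoeff_D0s]; simp) hx, mul_one]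

theorem norm_evZ_E4s {x : E} (hx : ‖x‖ < 1) : ‖evZ E4s x‖ = 1 := by
  exact jf_norm_one (by rw [constantCoeff_E4s]; simp) hx

theorem J_eq {x : E} (hx0 : x ≠ 0) (hx : ‖x‖ < 1) : J x = evZ E4s x ^ 3 / evZ Ds x := by
  have h : evZ D0s x ≠ 0 := norm_ne_zero_iff.1 (by
    rw [jf_norm_one (by rw [constantCoeff_D0s]; simp) hx]
    exact one_ne_zero)
  rw [← evZ_pow _ _ hx, ← j0s_mul_D0s, Ds_eq_X_mul, evZ_mul _ _ hx, evZ_mul _ _ hx, evZ_X, J, Jn,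
    jn_zero, mul_div_mul_right _ _ h]

theorem evZ_j0s {x : E} (hx0 : x ≠ 0) : evZ j0s x = x * J x := by
  rw [J, Jn, jn_zero, mul_div_cancel₀ _ hx0]

theorem Iso.map_Jn {σ : E →+* E} (hσ : Iso σ) (k : ℕ) {x : E} (hx : ‖x‖ < 1) :
    σ (Jn k x) = Jn k (σ x) := by
  rw [Jn, Jn, map_div₀, hσ.map_evZ _ hx]

end ultra

section classes

variable {E : Type*} [NormedField E]

theorem InG.self (x0 : E) : InG x0 x0 := by
  exact ⟨1, one_pos, 1, by simp⟩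

theorem InG.mul {x0 z w : E} (hx0 : x0 ≠ 0) (hz : InG x0 z) (hw : InG x0 w) :
    InG x0 (z * w) := by
  obtain ⟨n, hn, k, hk⟩ := hz
  obtain ⟨n', hn', k', hk'⟩ := hw
  refine ⟨n * n', mul_pos hn hn', k * n' + k' * n, ?_⟩
  rw [mul_pow, pow_mul, hk, mul_comm n n', pow_mul, hk', zpow_add₀ hx0, zpow_mul, zpow_mul,
    zpow_natCast, zpow_natCast]

theorem InG.pow {x0 z : E} (hz : InG x0 z) (k : ℕ) : InG x0 (z ^ k) := by
  obtain ⟨n, hn, l, hl⟩ := hz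
  refine ⟨n, hn, l * k, ?_⟩
  rw [← pow_mul, mul_comm k n, pow_mul, hl, zpow_mul, zpow_natCast]

theorem InG.inv {x0 z : E} (hz : InG x0 z) : InG x0 z⁻¹ := by
  obtain ⟨n, hn, l, hl⟩ := hz
  exact ⟨n, hn, -l, by rw [inv_pow, hl, zpow_neg]⟩

theorem InG.div {x0 z w : E} (hx0 : x0 ≠ 0) (hz : InG x0 z) (hw : InG x0 w) :
    InG x0 (z / w) := by
  rw [div_eq_mul_inv]
  exact hz.mul hx0 hw.inv

theorem InG.of_pow {x0 z : E} {n : ℕ} (hn : 0 < n) (hz : InG x0 (z ^ n)) : InG x0 z := by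
  obtain ⟨n', hn', l, hl⟩ := hz
  exact ⟨n * n', mul_pos hn hn', l, by rw [pow_mul, hl]⟩

/-- A class that contains a nonzero point of the open unit disc has a nonzero base point of
norm different from one. -/
theorem InG.base {x0 w : E} (hw : InG x0 w) (hw0 : w ≠ 0) (hw1 : ‖w‖ < 1) :
    x0 ≠ 0 ∧ ‖x0‖ ≠ 1 := by
  obtain ⟨n, hn, k, hk⟩ := hw
  have h1 : ‖w ^ n‖ < 1 := by
    rw [norm_pow]
    exact pow_lt_one₀ (norm_nonneg _) hw1 hn.ne'
  constructor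
  · rintro rfl
    rcases eq_or_ne k 0 with rfl | hk0
    · rw [hk, zpow_zero, norm_one] at h1
      exact lt_irrefl _ h1
    · rw [zero_zpow k hk0] at hk
      exact pow_ne_zero n hw0 hk
  · intro h
    rw [hk, norm_zpow, h, one_zpow] at h1
    exact lt_irrefl _ h1

theorem InG.root_of_unity {x0 z : E} (hx0 : x0 ≠ 0) (hx1 : ‖x0‖ ≠ 1) (hz : InG x0 z)
    (hz1 : ‖z‖ = 1) : ∃ n : ℕ, 0 < n ∧ z ^ n = 1 := by
  obtain ⟨n, hn, k, hk⟩ := hz
  refine ⟨n, hn, ?_⟩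
  have h := congrArg norm hk
  rw [norm_pow, hz1, one_pow, norm_zpow, eq_comm,
    zpow_eq_one_iff_right₀ (norm_pos_iff.2 hx0).le hx1] at h
  rw [hk, h, zpow_zero]

theorem InG.exists_pow_eq {x0 z w : E} (hz : InG x0 z) (hw : InG x0 w) (hz0 : z ≠ 0)
    (hz1 : ‖z‖ < 1) (hw0 : w ≠ 0) (hw1 : ‖w‖ < 1) :
    ∃ n n' : ℕ, 0 < n ∧ 0 < n' ∧ w ^ n = z ^ n' := by
  obtain ⟨hx0, hx1⟩ := hz.base hz0 hz1
  obtain ⟨n, hn, k, hk⟩ := hz
  obtain ⟨n', hn', k', hk'⟩ := hw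
  have h1 : ‖x0‖ ^ k < 1 := by
    rw [← norm_zpow, ← hk, norm_pow]
    exact pow_lt_one₀ (norm_nonneg _) hz1 hn.ne'
  have h2 : ‖x0‖ ^ k' < 1 := by
    rw [← norm_zpow, ← hk', norm_pow]
    exact pow_lt_one₀ (norm_nonneg _) hw1 hn'.ne'
  have key : k ≠ 0 ∧ k' ≠ 0 ∧ k' * (k.natAbs : ℤ) = k * (k'.natAbs : ℤ) := by
    rcases hx1.lt_or_gt with h | h
    · rw [zpow_lt_one_iff_right_of_lt_one₀ (norm_pos_iff.2 hx0) h] at h1 h2
      refine ⟨h1.ne', h2.ne', ?_⟩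
      rw [Int.natCast_natAbs, Int.natCast_natAbs, abs_of_pos h1, abs_of_pos h2, mul_comm]
    · rw [zpow_lt_one_iff_right₀ h] at h1 h2
      refine ⟨h1.ne, h2.ne, ?_⟩
      rw [Int.natCast_natAbs, Int.natCast_natAbs, abs_of_neg h1, abs_of_neg h2]
      ring
  refine ⟨n' * k.natAbs, n * k'.natAbs, mul_pos hn' (Int.natAbs_pos.2 key.1),
    mul_pos hn (Int.natAbs_pos.2 key.2.1), ?_⟩
  rw [pow_mul, pow_mul, hk, hk', ← zpow_natCast, ← zpow_natCast, ← zpow_mul, ← zpow_mul, key.2.2]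

theorem InG.map {x0 z : E} (σ : E →+* E) (hσ : σ x0 = x0) (hz : InG x0 z) : InG x0 (σ z) := by
  obtain ⟨n, hn, k, hk⟩ := hz
  exact ⟨n, hn, k, by rw [← map_pow, hk, map_zpow₀, hσ]⟩

end classes

end Pool.Agent.UAP
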