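import Pool.Agent.Lib.MP_7e5527_ag.Puis
import Pool.Agent.Lib.MP_7e5527_ag.Grow
import Pool.Agent.Lib.MP_7e5527_ag.Jf
import Pool.Agent.Lib.MP_7e5527_ag.Gen

open Polynomial UpperHalfPlane
open scoped Polynomial.Bivariate MatrixGroups IntermediateField

noncomputable section

namespace Pool.Agent.UAP

section ring

variable {A B : Type*} [CommRing A] [CommRing B]

/-- The monic normalisation of `b ^ dx F(a / b, Y)`. -/
private def factQ (F : ℤ[X][Y]) (a b : A) : A[X] :=
  X ^ F.natDegree + ∑ k ∈ Finset.range F.natDegree,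
    C (hom1 (F.coeff k) (sw F).natDegree a b *
      hom1 F.leadingCoeff (sw F).natDegree a b ^ (F.natDegree - 1 - k)) * X ^ k

private theorem fact_deg_lt (n : ℕ) (c : ℕ → A) :
    (∑ k ∈ Finset.range n, C (c k) * X ^ k : A[X]).degree < (n : WithBot ℕ) := by
  refine (degree_sum_le _ _).trans_lt ?_
  rw [Finset.sup_lt_iff (WithBot.bot_lt_coe _)]
  intro k hk
  exact (degree_C_mul_X_pow_le _ _).trans_lt (by exact_mod_cast Finset.mem_range.1 hk)

private theorem factQ_monic (F : ℤ[X][Y]) (a b : A) : (factQ F a b).Monic :=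
  monic_X_pow_add (fact_deg_lt _ _)

private theorem factQ_natDegree [Nontrivial A] (F : ℤ[X][Y]) (a b : A) :
    (factQ F a b).natDegree = F.natDegree := by
  unfold factQ
  rw [natDegree_add_eq_left_of_degree_lt, natDegree_X_pow]
  rw [degree_X_pow]
  exact fact_deg_lt _ _

private theorem factQ_map (φ : A →+* B) (F : ℤ[X][Y]) (a b : A) :
    (factQ F a b).map φ = factQ F (φ a) (φ b) := by
  simp only [factQ, Polynomial.map_add, Polynomial.map_pow, map_X, Polynomial.map_sum,
    Polynomial.map_mul, map_C, map_mul φ, map_pow φ, map_hom1]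

private theorem factQ_eval (F : ℤ[X][Y]) (a b y : A) :
    (factQ F a b).eval y = y ^ F.natDegree + ∑ k ∈ Finset.range F.natDegree,
      hom1 (F.coeff k) (sw F).natDegree a b *
        hom1 F.leadingCoeff (sw F).natDegree a b ^ (F.natDegree - 1 - k) * y ^ k := by
  simp only [factQ, eval_add, eval_pow, eval_X, eval_finsetSum, eval_mul, eval_C]

private theorem fact_hom2 (F : ℤ[X][Y]) (a b y : A) :
    hom2 F a b y (hom1 F.leadingCoeff (sw F).natDegree a b) =
      hom1 F.leadingCoeff (sw F).natDegree a b * (factQ F a b).eval y := by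
  rw [factQ_eval, hom2, Finset.sum_range_succ, mul_add, Finset.mul_sum, add_comm]
  congr 1
  · rw [Nat.sub_self, pow_zero, mul_one, coeff_natDegree]
  · refine Finset.sum_congr rfl fun k hk => ?_
    have hk' := Finset.mem_range.1 hk
    obtain ⟨e, he⟩ : ∃ e, F.natDegree = k + 1 + e := ⟨F.natDegree - (k + 1), by omega⟩
    rw [show F.natDegree - k = e + 1 by omega, show F.natDegree - 1 - k = e by omega]
    ring

private theorem fact_scale {F : ℤ[X][Y]} (hF : 0 < F.natDegree) (a b y : A) :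
    (factQ F a b).eval (y * hom1 F.leadingCoeff (sw F).natDegree a b) =
      hom1 F.leadingCoeff (sw F).natDegree a b ^ (F.natDegree - 1) * hom2 F a b y 1 := by
  rw [factQ_eval, hom2, Finset.sum_range_succ, mul_add, Finset.mul_sum, add_comm]
  congr 1
  · refine Finset.sum_congr rfl fun k hk => ?_
    have hk' := Finset.mem_range.1 hk
    obtain ⟨e, he⟩ : ∃ e, F.natDegree = k + 1 + e := ⟨F.natDegree - (k + 1), by omega⟩
    rw [show F.natDegree - 1 - k = e by omega, show F.natDegree - 1 = e + k by omega]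
    ring
  · rw [coeff_natDegree, one_pow]
    obtain ⟨e, he⟩ : ∃ e, F.natDegree = e + 1 := ⟨F.natDegree - 1, by omega⟩
    rw [show F.natDegree - 1 = e by omega]
    generalize hom1 F.leadingCoeff (sw F).natDegree a b = l
    rw [he]
    ring

end ring

private theorem fact_puis (k : Type*) [Field k] [IsAlgClosed k] [CharZero k]
    (P : (PowerSeries k)[X]) (hP : P.Monic) {n : ℕ} (hn : P.natDegree = n) :
    ∃ (m : ℕ) (hm : m ≠ 0) (z : Fin n → PowerSeries k),
      P.map (subM 1 m hm) = ∏ i, (X - C (z i)) := by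
  subst hn
  exact puiseux k P hP

/-- In a field, over a transcendental point, the roots of the normalisation are simple. -/
private theorem fact_simple_field {L : Type*} [Field L] [CharZero L] {F : ℤ[X][Y]} (hF : Good F)
    {a b z : L} (hb : b ≠ 0) (hl : hom1 F.leadingCoeff (sw F).natDegree a b ≠ 0)
    (hT : Tr (a / b)) (hz : (factQ F a b).eval z = 0) :
    (factQ F a b).derivative.eval z ≠ 0 := by
  intro hz'
  set l := hom1 F.leadingCoeff (sw F).natDegree a b with hldef
  have key : (factQ F a b).comp (X * C l) =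
      C (l ^ (F.natDegree - 1) * b ^ (sw F).natDegree) * fib F (a / b) := by
    refine Polynomial.funext fun y => ?_
    rw [eval_comp, eval_mul, eval_X, eval_C, hldef, fact_scale hF.degY,
      hom2_eq F a hb y one_ne_zero, eval_mul, eval_C, eval_fib, one_pow, div_one]
    ring
  have hc : l ^ (F.natDegree - 1) * b ^ (sw F).natDegree ≠ 0 :=
    mul_ne_zero (pow_ne_zero _ hl) (pow_ne_zero _ hb)
  have hzl : z / l * l = z := div_mul_cancel₀ z hl
  have h1 : ev2 (a / b) (z / l) F = 0 := by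
    have h := congrArg (eval (z / l)) key
    rw [eval_comp, eval_mul, eval_X, eval_C, hzl, hz, eval_mul, eval_C, eval_fib] at h
    exact (mul_eq_zero.1 h.symm).resolve_left hc
  have h2 : ev2 (a / b) (z / l) (pA F) = 0 := by
    have h := congrArg (fun P => eval (z / l) (derivative P)) key
    simp only [derivative_comp, derivative_C_mul, eval_mul, eval_comp, eval_X, eval_C, hzl, hz',
      mul_zero] at h
    have h3 := (mul_eq_zero.1 h.symm).resolve_left hc
    rw [fib, derivative_map] at h3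
    rw [← eval_fib]
    exact h3
  exact hF.not_dvd_pA (hF.dvd_of_tr (pA F) hT h1 h2)

private theorem fact_simple {k : Type*} [Field k] [CharZero k] {F : ℤ[X][Y]} (hF : Good F)
    {a b z : PowerSeries k} (ha : PowerSeries.constantCoeff a ≠ 0) (hb : b ≠ 0)
    (hb0 : PowerSeries.constantCoeff b = 0) (hz : (factQ F a b).eval z = 0) :
    (factQ F a b).derivative.eval z ≠ 0 := by
  let L := FractionRing (PowerSeries k)
  let ι : PowerSeries k →+* L := algebraMap (PowerSeries k) L
  have hι : Function.Injective ι := IsFractionRing.injective (PowerSeries k) L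
  have hι0 : ∀ {f : PowerSeries k}, f ≠ 0 → ι f ≠ 0 := fun hf h =>
    hf (hι (h.trans (map_zero ι).symm))
  have : CharZero L := (ι.comp (PowerSeries.C : k →+* PowerSeries k)).charZero_iff
    ((ι.comp (PowerSeries.C : k →+* PowerSeries k)).injective) |>.1 inferInstance
  have hl : hom1 F.leadingCoeff (sw F).natDegree (ι a) (ι b) ≠ 0 := by
    rw [← map_hom1]
    exact hι0 (hom1_ne_zero (leadingCoeff_ne_zero.2 hF.ne_zero)
      (natDegree_coeff_le F F.natDegree) ha hb hb0)
  have hT : Tr (ι a / ι b) := by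
    intro P hP
    by_contra hP0
    have h := hι0 (hom1_ne_zero hP0 le_rfl ha hb hb0)
    rw [map_hom1, hom1_eq P le_rfl _ (hι0 hb), hP, mul_zero] at h
    exact h rfl
  have h := fact_simple_field hF (z := ι z) (hι0 hb) hl hT (by
    rw [← factQ_map, eval_map_apply, hz, map_zero])
  intro hz'
  apply h
  rw [← factQ_map, derivative_map, eval_map_apply, hz', map_zero]

private theorem fact_grow {k : Type*} [NormedField k] [IsUltrametricDist k] (F : ℤ[X][Y])
    {a b : PowerSeries k} (ha : Grow a) (hb : Grow b) (i : ℕ) :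
    Grow ((factQ F a b).coeff i) := by
  have h0 : Grow (0 : PowerSeries k) := by simpa using grow_intCast (k := k) 0
  have h1 : Grow (1 : PowerSeries k) := by simpa using grow_intCast (k := k) 1
  rw [factQ, coeff_add, finsetSum_coeff]
  refine Grow.add ?_ (grow_sum _ fun n _ => ?_)
  · rw [coeff_X_pow]
    split_ifs
    exacts [h1, h0]
  · rw [coeff_C_mul_X_pow]
    split_ifs
    exacts [(grow_hom1 _ _ ha hb).mul ((grow_hom1 _ _ ha hb).pow _), h0]

private theorem fact_hasEv {E : Type*} [NormedField E] (hE : MulOK E) (F : ℤ[X][Y])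
    {a b : PowerSeries E} {x v w : E} (ha : HasEv a x v) (hb : HasEv b x w) (y : E) :
    HasEv ((factQ F a b).eval (PowerSeries.C y)) x ((factQ F v w).eval y) := by
  rw [factQ_eval, factQ_eval]
  refine ((hasEv_C y x).pow hE _).add (hasEv_sum _ fun n _ => ?_)
  exact hE _ _ _ _ _ (hE _ _ _ _ _ (hasEv_hom1 hE _ _ ha hb) ((hasEv_hom1 hE _ _ ha hb).pow hE _))
    ((hasEv_C y x).pow hE _)

private theorem fact_const {R : Type*} [CommRing R] (m : ℕ) (hm : m ≠ 0) (f : PowerSeries ℤ) :
    PowerSeries.constantCoeff (subM 1 m hm (toS R f)) =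
      ((PowerSeries.constantCoeff f : ℤ) : R) := by
  rw [← PowerSeries.coeff_zero_eq_constantCoeff_apply, coeff_subM, if_pos (dvd_zero m),
    Nat.zero_div, pow_zero, one_mul, toS, PowerSeries.coeff_map,
    PowerSeries.coeff_zero_eq_constantCoeff_apply, eq_intCast]

private theorem fact_Ds_ne {R : Type*} [CommRing R] [Nontrivial R] (m : ℕ) (hm : m ≠ 0) :
    subM 1 m hm (toS R Ds) ≠ 0 := by
  intro h
  have h1 := congrArg (PowerSeries.coeff m) h
  rw [coeff_subM, if_pos dvd_rfl, Nat.div_self (Nat.pos_of_ne_zero hm), one_pow, one_mul, toS,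
    PowerSeries.coeff_map, Ds_eq_X_mul, PowerSeries.coeff_succ_X_mul,
    PowerSeries.coeff_zero_eq_constantCoeff_apply, constantCoeff_D0s, map_one, map_zero] at h1
  exact one_ne_zero h1

/-- Convergent Puiseux factorisation of `F(j(t ^ m), Y)`. -/
theorem Good.factor {F : ℤ[X][Y]} (hF : Good F) (p : ℕ) [Fact p.Prime] :
    ∃ (m : ℕ) (hm : m ≠ 0) (z : Fin F.natDegree → PowerSeries (PadicAlgCl p)),
      ell (PadicAlgCl p) F m hm ≠ 0 ∧ Grow (ell (PadicAlgCl p) F m hm) ∧
      (∀ i, Grow (z i) ∧ hom2 F (subM 1 m hm (toS (PadicAlgCl p) E4s) ^ 3)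
        (subM 1 m hm (toS (PadicAlgCl p) Ds)) (z i) (ell (PadicAlgCl p) F m hm) = 0) ∧
      ∃ r : ℝ, 0 < r ∧ ∀ t b : ℂ_[p], t ≠ 0 → ‖t‖ < r → ev2 (J (t ^ m)) b F = 0 →
        ∃ (i : Fin F.natDegree) (v w : ℂ_[p]), HasEv (PowerSeries.map (ap p) (z i)) t v ∧
          HasEv (PowerSeries.map (ap p) (ell (PadicAlgCl p) F m hm)) t w ∧ b * w = v := by
  obtain ⟨m, hm, z, hz⟩ := fact_puis (PadicAlgCl p)
    (factQ F (toS (PadicAlgCl p) E4s ^ 3) (toS (PadicAlgCl p) Ds)) (factQ_monic _ _ _)
    (factQ_natDegree _ _ _)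
  rw [factQ_map, map_pow] at hz
  set a := subM 1 m hm (toS (PadicAlgCl p) E4s) ^ 3 with ha
  set b := subM 1 m hm (toS (PadicAlgCl p) Ds) with hb
  have hell : ell (PadicAlgCl p) F m hm = hom1 F.leadingCoeff (sw F).natDegree a b := rfl
  have ha0 : PowerSeries.constantCoeff a ≠ 0 := by
    rw [ha, map_pow, fact_const, constantCoeff_E4s]
    simp
  have hb1 : b ≠ 0 := fact_Ds_ne m hm
  have hb0 : PowerSeries.constantCoeff b = 0 := by
    rw [hb, fact_const, Ds_eq_X_mul]
    simp
  have hga : Grow a := ((grow_toS E4s).substM 1 m hm).pow 3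
  have hgb : Grow b := (grow_toS Ds).substM 1 m hm
  have hroot : ∀ i, (factQ F a b).eval (z i) = 0 := fun i => by
    rw [hz, eval_prod]
    exact Finset.prod_eq_zero (Finset.mem_univ i) (by simp)
  have hgz : ∀ i, Grow (z i) := fun i =>
    grow_root _ (fact_grow F hga hgb) (hroot i) (fact_simple hF ha0 hb1 hb0 (hroot i))
  refine ⟨m, hm, z, ?_, ?_, fun i => ⟨hgz i, ?_⟩, ?_⟩
  · rw [hell]
    exact hom1_ne_zero (leadingCoeff_ne_zero.2 hF.ne_zero) (natDegree_coeff_le F F.natDegree)
      ha0 hb1 hb0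
  · rw [hell]
    exact grow_hom1 _ _ hga hgb
  · rw [hell, fact_hom2, hroot, mul_zero]
  have hgz' : ∀ i, Grow (PowerSeries.map (ap p) (z i)) := fun i =>
    (hgz i).map (ap p) (norm_ap p)
  choose Cc Λ hΛ hbd using hgz'
  have hS : 0 < 1 + ∑ i, Λ i := by
    have := Finset.sum_nonneg (s := Finset.univ) fun i _ => (hΛ i).le
    linarith
  refine ⟨(1 + ∑ i, Λ i)⁻¹, inv_pos.2 hS, fun t y ht0 ht hy => ?_⟩
  have ht' : (1 + ∑ i, Λ i) * ‖t‖ < 1 := by
    rwa [← one_div, lt_div_iff₀ hS, mul_comm] at ht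
  have hsum : 0 ≤ ∑ i, Λ i := Finset.sum_nonneg fun i _ => (hΛ i).le
  have ht1 : ‖t‖ < 1 := by nlinarith [norm_nonneg t]
  have htm : ‖t ^ m‖ < 1 := by
    rw [norm_pow]
    exact pow_lt_one₀ (norm_nonneg t) ht1 hm
  have htm0 : t ^ m ≠ 0 := pow_ne_zero _ ht0
  have hv : ∀ i, ∃ v, HasEv (PowerSeries.map (ap p) (z i)) t v := fun i => by
    refine exists_hasEv_of_bound (hbd i) (hΛ i) ?_
    have h1 : Λ i ≤ ∑ i, Λ i :=
      Finset.single_le_sum (fun i _ => (hΛ i).le) (Finset.mem_univ i)
    nlinarith [norm_nonneg t]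
  choose v hv using hv
  have hE : MulOK ℂ_[p] := mulOK_ultra
  have hev : ∀ f : PowerSeries ℤ,
      HasEv (PowerSeries.map (ap p) (subM 1 m hm (toS (PadicAlgCl p) f))) t (evZ f (t ^ m)) := by
    intro f
    rw [map_subM, map_toS, map_one]
    exact HasEv.substM hm (by rw [one_mul]; exact hasEv_evZ f htm)
  have hea : HasEv (PowerSeries.map (ap p) a) t (evZ E4s (t ^ m) ^ 3) := by
    rw [ha, map_pow]
    exact (hev E4s).pow hE 3
  have heb : HasEv (PowerSeries.map (ap p) b) t (evZ Ds (t ^ m)) := hev Ds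
  have hD : evZ Ds (t ^ m) ≠ 0 := by
    rw [← norm_ne_zero_iff, norm_evZ_Ds htm, norm_ne_zero_iff]
    exact htm0
  set w := hom1 F.leadingCoeff (sw F).natDegree (evZ E4s (t ^ m) ^ 3) (evZ Ds (t ^ m)) with hw
  have hew : HasEv (PowerSeries.map (ap p) (ell (PadicAlgCl p) F m hm)) t w := by
    rw [hell, map_hom1]
    exact hasEv_hom1 hE _ _ hea heb
  have h1 := fact_hasEv hE F hea heb (y * w)
  rw [hw, fact_scale hF.degY, hom2_eq F _ hD y one_ne_zero, ← J_eq htm0 htm, div_one, hy,
    mul_zero, mul_zero, ← hw, ← factQ_map, hz] at h1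
  have h2 : HasEv (∏ i, (PowerSeries.C (y * w) - PowerSeries.map (ap p) (z i))) t
      (∏ i, (y * w - v i)) := hasEv_prod hE _ fun i _ => (hasEv_C _ _).sub (hv i)
  simp only [Polynomial.map_prod, Polynomial.map_sub, map_X, map_C, eval_prod, eval_sub, eval_X,
    eval_C] at h1
  obtain ⟨i, -, hi⟩ := Finset.prod_eq_zero_iff.1 (h2.unique h1)
  exact ⟨i, v i, w, hv i, hew, sub_eq_zero.1 hi⟩

end Pool.Agent.UAP
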