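import Pool.Agent.Lib.MP_7e5527_ag.Conj

open Polynomial UpperHalfPlane
open scoped Polynomial.Bivariate MatrixGroups IntermediateField

noncomputable section

namespace Pool.Agent.UAP

/-- The value `b x ^ a - a x ^ b - (b - a)`. -/
private def fourV {R : Type*} [CommRing R] (a b : ℕ) (x : R) : R :=
  (b : R) * x ^ a - a * x ^ b - (b - a)

private def fourP (R : Type*) [CommRing R] (a b : ℕ) : R[X] :=
  C (-(a : R)) * X ^ b + (C (b : R) * X ^ a - C ((b : R) - a))

private theorem four_aeval {R S : Type*} [CommRing R] [CommRing S] [Algebra R S] (a b : ℕ)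
    (x : S) : aeval x (fourP R a b) = fourV a b x := by
  simp only [fourP, fourV, map_add, map_mul, map_sub, map_pow, map_neg, map_natCast, aeval_X]
  ring

private theorem four_map {R S F : Type*} [CommRing R] [CommRing S] [FunLike F R S]
    [RingHomClass F R S] (φ : F) (a b : ℕ) (x : R) : φ (fourV a b x) = fourV a b (φ x) := by
  simp only [fourV, map_mul, map_sub, map_pow, map_natCast]

private theorem four_deg (R : Type*) [CommRing R] [CharZero R] {a b : ℕ} (ha : 0 < a)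
    (hab : a < b) : (fourP R a b).natDegree = b ∧ (fourP R a b).leadingCoeff = -(a : R) := by
  have h0 : (-(a : R)) ≠ 0 := neg_ne_zero.2 (Nat.cast_ne_zero.2 ha.ne')
  have h1 : (C (-(a : R)) * X ^ b).degree = (b : WithBot ℕ) := degree_C_mul_X_pow b h0
  have h2 : (C (b : R) * X ^ a - C ((b : R) - a)).degree < (C (-(a : R)) * X ^ b).degree := by
    rw [h1]
    refine lt_of_le_of_lt (degree_sub_le _ _) (max_lt ?_ ?_)
    · exact lt_of_le_of_lt (degree_C_mul_X_pow_le _ _) (by exact_mod_cast hab)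
    · exact lt_of_le_of_lt degree_C_le (by exact_mod_cast ha.trans hab)
  constructor
  · apply natDegree_eq_of_degree_eq_some
    rw [fourP, degree_add_eq_left_of_degree_lt h2, h1]
  · rw [fourP, add_comm, leadingCoeff_add_of_degree_lt h2, leadingCoeff_C_mul_X_pow]

private theorem four_ne_zero (R : Type*) [CommRing R] [CharZero R] {a b : ℕ} (ha : 0 < a)
    (hab : a < b) : fourP R a b ≠ 0 := by
  intro h
  have := (four_deg R ha hab).1
  rw [h, natDegree_zero] at this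
  omega

/-- An exponential meets a parabola in at most three points. -/
private theorem four_rolle (c u v : ℝ) {x1 x2 x3 : ℝ} (h1 : 0 < x1) (h12 : x1 < x2)
    (h23 : x2 < x3) (e1 : Real.exp (c * x1) = 1 + u * x1 + v * x1 ^ 2)
    (e2 : Real.exp (c * x2) = 1 + u * x2 + v * x2 ^ 2)
    (e3 : Real.exp (c * x3) = 1 + u * x3 + v * x3 ^ 2) : c = 0 := by
  let f : ℝ → ℝ := fun x => Real.exp (c * x) - (1 + u * x + v * x ^ 2)
  let f1 : ℝ → ℝ := fun x => Real.exp (c * x) * c - (u + v * (2 * x))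
  let f2 : ℝ → ℝ := fun x => Real.exp (c * x) * c * c - v * 2
  have hE : ∀ x, HasDerivAt (fun x => Real.exp (c * x)) (Real.exp (c * x) * c) x := by
    intro x
    simpa using ((hasDerivAt_id x).const_mul c).exp
  have hf : ∀ x, HasDerivAt f (f1 x) x := by
    intro x
    have h := (hE x).sub ((((hasDerivAt_id x).const_mul u).const_add 1).add
      ((hasDerivAt_pow 2 x).const_mul v))
    refine h.congr_deriv ?_
    simp [f1]
  have hf1 : ∀ x, HasDerivAt f1 (f2 x) x := by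
    intro x
    have h := ((hE x).mul_const c).sub
      ((((hasDerivAt_id x).const_mul 2).const_mul v).const_add u)
    refine h.congr_deriv ?_
    simp [f2]
  have cf : Continuous f := continuous_iff_continuousAt.2 fun x => (hf x).continuousAt
  have cf1 : Continuous f1 := continuous_iff_continuousAt.2 fun x => (hf1 x).continuousAt
  have z0 : f 0 = 0 := by simp [f]
  have z1 : f x1 = 0 := by simp only [f]; rw [e1, sub_self]
  have z2 : f x2 = 0 := by simp only [f]; rw [e2, sub_self]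
  have z3 : f x3 = 0 := by simp only [f]; rw [e3, sub_self]
  obtain ⟨y1, hy1, w1⟩ := exists_hasDerivAt_eq_zero h1 cf.continuousOn (z0.trans z1.symm)
    fun x _ => hf x
  obtain ⟨y2, hy2, w2⟩ := exists_hasDerivAt_eq_zero h12 cf.continuousOn (z1.trans z2.symm)
    fun x _ => hf x
  obtain ⟨y3, hy3, w3⟩ := exists_hasDerivAt_eq_zero h23 cf.continuousOn (z2.trans z3.symm)
    fun x _ => hf x
  obtain ⟨t1, ht1, s1⟩ := exists_hasDerivAt_eq_zero (hy1.2.trans hy2.1) cf1.continuousOn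
    (w1.trans w2.symm) fun x _ => hf1 x
  obtain ⟨t2, ht2, s2⟩ := exists_hasDerivAt_eq_zero (hy2.2.trans hy3.1) cf1.continuousOn
    (w2.trans w3.symm) fun x _ => hf1 x
  by_contra hc
  have h : Real.exp (c * t1) * c * c = Real.exp (c * t2) * c * c := by
    simp only [f2] at s1 s2
    linarith
  have h' := Real.exp_injective (mul_right_cancel₀ hc (mul_right_cancel₀ hc h))
  have := mul_left_cancel₀ hc h'
  have := ht1.2.trans ht2.1
  linarith

/-- A common complex zero is a root of unity. -/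
private theorem four_complex {s : ℂ} {d2 d3 d4 : ℕ} (h2 : 0 < d2) (h23 : d2 < d3) (h34 : d3 < d4)
    (hA : fourV d2 d3 s = 0) (hB : fourV d2 d4 s = 0) : s ^ d2 = 1 := by
  have hd2 : (d2 : ℂ) ≠ 0 := Nat.cast_ne_zero.2 h2.ne'
  set l : ℂ := (s ^ d2 - 1) / d2 with hl
  have e2 : s ^ d2 = 1 + l * d2 := by rw [hl]; field_simp; ring
  have e3 : s ^ d3 = 1 + l * d3 := by
    apply mul_left_cancel₀ hd2
    simp only [fourV] at hA
    rw [e2] at hA
    linear_combination -hA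
  have e4 : s ^ d4 = 1 + l * d4 := by
    apply mul_left_cancel₀ hd2
    simp only [fourV] at hB
    rw [e2] at hB
    linear_combination -hB
  have hs : s ≠ 0 := by
    intro h
    simp only [fourV, h, zero_pow h2.ne', zero_pow (h2.trans h23).ne', mul_zero, sub_zero,
      zero_sub, neg_eq_zero, sub_eq_zero, Nat.cast_inj] at hA
    omega
  have hρ : 0 < Complex.normSq s := Complex.normSq_pos.2 hs
  have key : ∀ d : ℕ, s ^ d = 1 + l * d → Real.exp (Real.log (Complex.normSq s) * d) =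
      1 + 2 * l.re * d + Complex.normSq l * (d : ℝ) ^ 2 := by
    intro d hd
    rw [mul_comm, ← Real.log_pow, Real.exp_log (pow_pos hρ d), ← map_pow, hd,
      Complex.normSq_apply, Complex.normSq_apply]
    simp
    ring
  have k2 := key d2 e2
  have k3 := key d3 e3
  have k4 := key d4 e4
  have p2 : (0 : ℝ) < d2 := by exact_mod_cast h2
  have p23 : (d2 : ℝ) < d3 := by exact_mod_cast h23
  have p34 : (d3 : ℝ) < d4 := by exact_mod_cast h34
  have hc := four_rolle _ _ _ p2 p23 p34 k2 k3 k4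
  rw [hc, zero_mul, Real.exp_zero] at k2 k3
  have q2 : 2 * l.re + Complex.normSq l * d2 = 0 := by
    apply mul_left_cancel₀ p2.ne'
    linear_combination -k2
  have q3 : 2 * l.re + Complex.normSq l * d3 = 0 := by
    apply mul_left_cancel₀ (p2.trans p23).ne'
    linear_combination -k3
  have q : Complex.normSq l * ((d3 : ℝ) - d2) = 0 := by linear_combination q3 - q2
  have hl0 : l = 0 :=
    Complex.normSq_eq_zero.1 ((mul_eq_zero.1 q).resolve_right (sub_pos.2 p23).ne')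
  rw [e2, hl0, zero_mul, add_zero]

private theorem four_root_bound {s : ℂ} {a b : ℕ} (ha : 0 < a) (hab : a < b)
    (hA : fourV a b s = 0) : ‖s‖ ≤ 2 * b := by
  have pa : (1 : ℝ) ≤ a := by exact_mod_cast ha
  have pab : (a : ℝ) < b := by exact_mod_cast hab
  by_cases h1 : ‖s‖ ≤ 1
  · linarith
  push Not at h1
  have e : (a : ℂ) * s ^ b = b * s ^ a - ((b - a : ℝ) : ℂ) := by
    simp only [fourV] at hA
    push_cast
    linear_combination -hA
  have hn := congrArg norm e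
  have h3 := norm_sub_le ((b : ℂ) * s ^ a) ((b - a : ℝ) : ℂ)
  rw [← hn, norm_mul, norm_mul, norm_pow, norm_pow, Complex.norm_natCast, Complex.norm_natCast,
    Complex.norm_real, Real.norm_of_nonneg (by linarith)] at h3
  have h4 : 1 ≤ ‖s‖ ^ a := one_le_pow₀ h1.le
  have h5 : ‖s‖ ^ (a + 1) ≤ ‖s‖ ^ b := pow_le_pow_right₀ h1.le hab
  rw [pow_succ] at h5
  have h6 : ‖s‖ ^ a * ‖s‖ ≤ ‖s‖ ^ a * (2 * b) := by
    have h7 : ‖s‖ ^ b ≤ a * ‖s‖ ^ b := le_mul_of_one_le_left (by positivity) pa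
    have h8 : (b : ℝ) ≤ b * ‖s‖ ^ a := le_mul_of_one_le_right (by positivity) h4
    linarith
  exact le_of_mul_le_mul_left h6 (by positivity)

private theorem four_value_bound {s : ℂ} {d2 d4 : ℕ} (h24 : d2 < d4) (h4 : 3 ≤ d4)
    (hs : ‖s‖ ≤ 2 * d4) : ‖(d2 : ℂ) ^ d4 * fourV d2 d4 s‖ ≤ 2 ^ (4 * d4 ^ 2) := by
  have p24 : (d2 : ℝ) ≤ d4 := by exact_mod_cast h24.le
  have p4 : (3 : ℝ) ≤ d4 := by exact_mod_cast h4
  have hS : (1 : ℝ) ≤ 2 * d4 := by linarith
  have hS' : (1 : ℝ) ≤ (2 * d4) ^ d4 := one_le_pow₀ hS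
  have a1 : ‖(d4 : ℂ) * s ^ d2‖ ≤ d4 * (2 * d4) ^ d4 := by
    rw [norm_mul, norm_pow, Complex.norm_natCast]
    refine mul_le_mul_of_nonneg_left ?_ (by positivity)
    exact (pow_le_pow_left₀ (norm_nonneg _) hs _).trans (pow_le_pow_right₀ hS h24.le)
  have a2 : ‖(d2 : ℂ) * s ^ d4‖ ≤ d4 * (2 * d4) ^ d4 := by
    rw [norm_mul, norm_pow, Complex.norm_natCast]
    exact mul_le_mul p24 (pow_le_pow_left₀ (norm_nonneg _) hs _) (by positivity) (by positivity)
  have a3 : ‖(d4 : ℂ) - d2‖ ≤ d4 * (2 * d4) ^ d4 := by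
    have : (d4 : ℂ) - d2 = ((d4 - d2 : ℝ) : ℂ) := by push_cast; ring
    rw [this, Complex.norm_real, Real.norm_of_nonneg (by linarith)]
    have h8 : (d4 : ℝ) ≤ d4 * (2 * d4) ^ d4 := le_mul_of_one_le_right (by positivity) hS'
    have : (0 : ℝ) ≤ d2 := by positivity
    linarith
  have a4 : ‖fourV d2 d4 s‖ ≤ 4 * (d4 * (2 * d4) ^ d4) := by
    have b1 := norm_sub_le ((d4 : ℂ) * s ^ d2 - d2 * s ^ d4) ((d4 : ℂ) - d2)
    have b2 := norm_sub_le ((d4 : ℂ) * s ^ d2) (d2 * s ^ d4)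
    have : (0 : ℝ) ≤ d4 * (2 * d4) ^ d4 := by positivity
    simp only [fourV]
    linarith
  have t : (d4 : ℝ) ≤ 2 ^ d4 := by exact_mod_cast Nat.lt_two_pow_self.le
  rw [norm_mul, norm_pow, Complex.norm_natCast]
  calc (d2 : ℝ) ^ d4 * ‖fourV d2 d4 s‖
      ≤ (2 ^ d4) ^ d4 * (4 * (2 ^ d4 * (2 * 2 ^ d4) ^ d4)) := by
        refine mul_le_mul (pow_le_pow_left₀ (by positivity) (p24.trans t) _) (a4.trans ?_)
          (norm_nonneg _) (by positivity)
        gcongr
    _ = 2 ^ (2 * d4 ^ 2 + 2 * d4 + 2) := by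
        rw [mul_pow, ← pow_mul]
        ring
    _ ≤ 2 ^ (4 * d4 ^ 2) := pow_le_pow_right₀ one_le_two (by nlinarith)

private theorem four_prod_ge {E : Type*} [NormedField E] (T : E) {m : ℝ} (hm : 0 ≤ m)
    (s : Multiset E) (h : ∀ a ∈ s, m ≤ ‖T - a‖) :
    m ^ Multiset.card s ≤ ‖(s.map (T - ·)).prod‖ := by
  induction s using Multiset.induction_on with
  | empty => simp
  | cons a s ih =>
    rw [Multiset.card_cons, Multiset.map_cons, Multiset.prod_cons, norm_mul, pow_succ, mul_comm]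
    exact mul_le_mul (h a (Multiset.mem_cons_self _ _))
      (ih fun b hb => h b (Multiset.mem_cons_of_mem hb)) (by positivity) (norm_nonneg _)

private theorem four_sub_le {E : Type*} [NormedField E] [IsUltrametricDist E] (x y : E) :
    ‖x - y‖ ≤ max ‖x‖ ‖y‖ := by
  rw [sub_eq_add_neg, ← norm_neg y]
  exact IsUltrametricDist.norm_add_le_max _ _

private theorem four_pow_lip {E : Type*} [NormedField E] [IsUltrametricDist E] {x y : E}
    (hx : ‖x‖ ≤ 1) (hy : ‖y‖ ≤ 1) (n : ℕ) : ‖x ^ n - y ^ n‖ ≤ ‖x - y‖ := by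
  induction n with
  | zero => simp
  | succ n ih =>
    have : x ^ (n + 1) - y ^ (n + 1) = x * (x ^ n - y ^ n) + y ^ n * (x - y) := by ring
    rw [this]
    refine (IsUltrametricDist.norm_add_le_max _ _).trans (max_le ?_ ?_)
    · rw [norm_mul]
      exact (mul_le_of_le_one_left (norm_nonneg _) hx).trans ih
    · rw [norm_mul, norm_pow]
      exact mul_le_of_le_one_left (norm_nonneg _) (pow_le_one₀ (norm_nonneg _) hy)

private theorem four_lip {E : Type*} [NormedField E] [IsUltrametricDist E] {x y : E}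
    (hx : ‖x‖ ≤ 1) (hy : ‖y‖ ≤ 1) (a b : ℕ) : ‖fourV a b x - fourV a b y‖ ≤ ‖x - y‖ := by
  have : fourV a b x - fourV a b y = b * (x ^ a - y ^ a) - a * (x ^ b - y ^ b) := by
    simp only [fourV]
    ring
  rw [this]
  refine (four_sub_le _ _).trans (max_le ?_ ?_) <;>
  · rw [norm_mul]
    exact (mul_le_of_le_one_left (norm_nonneg _)
      (IsUltrametricDist.norm_natCast_le_one E _)).trans (four_pow_lip hx hy _)

/-- The arithmetic lower bound at a small root. -/
private theorem four_arith (p : ℕ) [Fact p.Prime] {α : ℂ_[p]} (hα : ‖α‖ < 1) {d2 d3 d4 : ℕ}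
    (h2 : 0 < d2) (h23 : d2 < d3) (h34 : d3 < d4) (hA : fourV d2 d3 α = 0) :
    1 ≤ ‖fourV d2 d4 α‖ * (2 ^ (4 * d4 ^ 2)) ^ d3 := by
  have hAq : aeval α (fourP ℚ d2 d3) = 0 := by rw [four_aeval, hA]
  have hint : IsIntegral ℚ α :=
    IsAlgebraic.isIntegral ⟨_, four_ne_zero ℚ h2 h23, hAq⟩
  have hdvd := minpoly.dvd ℚ α hAq
  have hB0 : fourV d2 d4 α ≠ 0 := by
    intro hB
    have hBq : aeval α (fourP ℚ d2 d4) = 0 := by rw [four_aeval, hB]
    obtain ⟨s, hs⟩ := IsAlgClosed.exists_aeval_eq_zero ℂ (minpoly ℚ α)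
      (minpoly.degree_pos hint).ne'
    have sA : fourV d2 d3 s = 0 := by
      rw [← four_aeval (R := ℚ)]
      exact aeval_eq_zero_of_dvd_aeval_eq_zero hdvd hs
    have sB : fourV d2 d4 s = 0 := by
      rw [← four_aeval (R := ℚ)]
      exact aeval_eq_zero_of_dvd_aeval_eq_zero (minpoly.dvd ℚ α hBq) hs
    have s1 := four_complex h2 h23 h34 sA sB
    have hmin : minpoly ℚ α = minpoly ℚ s :=
      minpoly.eq_of_irreducible_of_monic (minpoly.irreducible hint) hs (minpoly.monic hint)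
    have h1 : minpoly ℚ α ∣ X ^ d2 - 1 := by
      rw [hmin]
      exact minpoly.dvd ℚ s (by simp [s1])
    have h3 := aeval_eq_zero_of_dvd_aeval_eq_zero h1 (minpoly.aeval ℚ α)
    simp only [map_sub, map_pow, aeval_X, map_one, sub_eq_zero] at h3
    have h4 := congrArg norm h3
    rw [norm_pow, norm_one] at h4
    exact (pow_lt_one₀ (norm_nonneg _) hα h2.ne').ne h4
  have hd2 : (d2 : ℂ_[p]) ≠ 0 := Nat.cast_ne_zero.2 h2.ne'
  set b : ℂ_[p] := (d2 : ℂ_[p]) ^ d4 * fourV d2 d4 α with hb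
  have hb0 : b ≠ 0 := mul_ne_zero (pow_ne_zero _ hd2) hB0
  have hβ : IsIntegral ℤ ((d2 : ℂ_[p]) * α) := by
    have h1 := isIntegral_leadingCoeff_smul (fourP ℤ d2 d3) α (by rw [four_aeval, hA])
    rw [(four_deg ℤ h2 h23).2, zsmul_eq_mul] at h1
    simpa using h1.neg
  have hN : ∀ n : ℕ, IsIntegral ℤ (n : ℂ_[p]) := fun n => by
    simpa using isIntegral_algebraMap (R := ℤ) (A := ℂ_[p]) (x := (n : ℤ))
  have hbi : IsIntegral ℤ b := by
    obtain ⟨e, he⟩ := Nat.exists_eq_add_of_le (h23.trans h34).le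
    have : b = d4 * (d2 : ℂ_[p]) ^ e * ((d2 : ℂ_[p]) * α) ^ d2 - d2 * ((d2 : ℂ_[p]) * α) ^ d4
        - (d4 - d2) * (d2 : ℂ_[p]) ^ d4 := by
      have h5 : (d2 : ℂ_[p]) ^ d4 = (d2 : ℂ_[p]) ^ d2 * (d2 : ℂ_[p]) ^ e := by
        rw [← pow_add, ← he]
      rw [hb, fourV, mul_pow, mul_pow, h5]
      ring
    rw [this]
    exact ((((hN _).mul ((hN _).pow _)).mul (hβ.pow _)).sub ((hN _).mul (hβ.pow _))).sub
      (((hN _).sub (hN _)).mul ((hN _).pow _))
  have hD : (minpoly ℚ b).natDegree ≤ d3 := by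
    have := IntermediateField.adjoin.finiteDimensional hint
    let a : ℚ⟮α⟯ := IntermediateField.AdjoinSimple.gen ℚ α
    let b' : ℚ⟮α⟯ := (d2 : ℚ⟮α⟯) ^ d4 * fourV d2 d4 a
    have hb' : (b' : ℂ_[p]) = b := by
      change algebraMap ℚ⟮α⟯ ℂ_[p] b' = b
      simp only [b']
      rw [map_mul, map_pow, map_natCast, four_map]
      rfl
    rw [← hb', ← IntermediateField.minpoly_eq]
    refine (minpoly.natDegree_le b').trans ?_
    rw [IntermediateField.adjoin.finrank hint, ← (four_deg ℚ h2 h23).1]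
    exact natDegree_le_of_dvd hdvd (four_ne_zero ℚ h2 h23)
  have hH : (1 : ℝ) ≤ 2 ^ (4 * d4 ^ 2) := one_le_pow₀ one_le_two
  have hconj : ∀ z : ℂ, aeval z (minpoly ℚ b) = 0 → ‖z‖ ≤ 2 ^ (4 * d4 ^ 2) := by
    intro z hz
    let a : algebraicClosure ℚ ℂ_[p] := ⟨α, mem_algebraicClosure_iff'.2 hint⟩
    let b' : algebraicClosure ℚ ℂ_[p] := (d2 : algebraicClosure ℚ ℂ_[p]) ^ d4 * fourV d2 d4 a
    have hb' : (b' : ℂ_[p]) = b := by
      change algebraMap (algebraicClosure ℚ ℂ_[p]) ℂ_[p] b' = b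
      simp only [b']
      rw [map_mul, map_pow, map_natCast, four_map]
      rfl
    obtain ⟨σ, hσ⟩ := exists_algHom_conj ℚ ℂ_[p] ℂ b' z (by rw [hb']; exact hz)
    have ha : fourV d2 d3 a = 0 := by
      apply (algebraMap (algebraicClosure ℚ ℂ_[p]) ℂ_[p]).injective
      rw [four_map, map_zero]
      exact hA
    have hs : fourV d2 d3 (σ a) = 0 := by rw [← four_map, ha, map_zero]
    have hs1 := four_root_bound h2 h23 hs
    have p34 : (d3 : ℝ) ≤ d4 := by exact_mod_cast h34.le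
    rw [← hσ]
    simp only [b']
    rw [map_mul, map_pow, map_natCast, four_map]
    exact four_value_bound (h23.trans h34) (by omega) (by linarith)
  refine (product_formula hbi hb0 hD hH hconj).trans ?_
  refine mul_le_mul_of_nonneg_right ?_ (by positivity)
  rw [hb, norm_mul, norm_pow]
  exact mul_le_of_le_one_left (norm_nonneg _)
    (pow_le_one₀ (norm_nonneg _) (IsUltrametricDist.norm_natCast_le_one _ _))

/-- The four point lemma. -/
theorem four_point (p : ℕ) [Fact p.Prime] {T : ℂ_[p]} (hT : ‖T‖ < 1) {d2 d3 d4 : ℕ}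
    (h2 : 0 < d2) (h23 : d2 < d3) (h34 : d3 < d4) {ε : ℝ}
    (hA : ‖(d3 : ℂ_[p]) * T ^ d2 - d2 * T ^ d3 - (d3 - d2)‖ ≤ ε)
    (hB : ‖(d4 : ℂ_[p]) * T ^ d2 - d2 * T ^ d4 - (d4 - d2)‖ ≤ ε) :
    1 ≤ ε * 2 ^ d4 ^ 6 := by
  classical
  change ‖fourV d2 d3 T‖ ≤ ε at hA
  change ‖fourV d2 d4 T‖ ≤ ε at hB
  have hε : 0 ≤ ε := (norm_nonneg _).trans hA
  have p2 : (1 : ℝ) ≤ d2 := by exact_mod_cast h2
  have h4 : 3 ≤ d4 := by omega
  have t : (d2 : ℝ) ≤ 2 ^ d4 := by
    exact_mod_cast ((h23.trans h34).trans Nat.lt_two_pow_self).le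
  have hexp : d4 + 4 * d4 ^ 2 * d3 * d3 ≤ d4 ^ 6 := by
    have e1 : d3 * d3 ≤ d4 ^ 2 := by nlinarith
    have e2 : d4 ≤ d4 ^ 4 := Nat.le_self_pow (by norm_num) _
    have e3 : 9 ≤ d4 ^ 2 := by nlinarith
    have e4 : d4 ^ 2 * (d3 * d3) ≤ d4 ^ 2 * d4 ^ 2 := Nat.mul_le_mul_left _ e1
    have e5 : 9 * d4 ^ 4 ≤ d4 ^ 2 * d4 ^ 4 := Nat.mul_le_mul_right _ e3
    nlinarith
  by_cases hbig : 1 ≤ ε * d2
  · refine hbig.trans (mul_le_mul_of_nonneg_left (t.trans ?_) hε)
    exact pow_le_pow_right₀ one_le_two (by omega)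
  push Not at hbig
  have hε1 : ε ≤ ε * d2 := le_mul_of_one_le_right hε p2
  set q := fourP ℂ_[p] d2 d3 with hq
  have hqd := four_deg ℂ_[p] h2 h23
  have hsp : q.Splits := IsAlgClosed.splits q
  have hcard : Multiset.card q.roots = d3 := by rw [← hsp.natDegree_eq_card_roots, hqd.1]
  have hne : q.roots.toFinset.Nonempty := by
    rw [Multiset.toFinset_nonempty, ← Multiset.card_pos, hcard]
    omega
  obtain ⟨α, hα, hmin⟩ := q.roots.toFinset.exists_min_image (fun a => ‖T - a‖) hne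
  have hroot : fourV d2 d3 α = 0 := by
    have := isRoot_of_mem_roots (Multiset.mem_toFinset.1 hα)
    rwa [IsRoot.def, ← coe_aeval_eq_eval, hq, four_aeval] at this
  have h1 := four_prod_ge T (norm_nonneg (T - α)) q.roots
    fun a ha => hmin a (Multiset.mem_toFinset.2 ha)
  have h3 : ‖fourV d2 d3 T‖ = ‖(d2 : ℂ_[p])‖ * ‖(q.roots.map (T - ·)).prod‖ := by
    have := hsp.eval_eq_prod_roots T
    rw [← coe_aeval_eq_eval, hq, four_aeval, hqd.2] at this
    rw [this, norm_mul, norm_neg]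
  have h5 := inv_le_norm_natCast p h2
  have h6 : ‖T - α‖ ^ d3 ≤ ε * d2 := by
    rw [hcard] at h1
    have h7 : (d2 : ℝ)⁻¹ * ‖T - α‖ ^ d3 ≤ ε := by
      refine le_trans ?_ hA
      rw [h3]
      exact mul_le_mul h5 h1 (by positivity) (norm_nonneg _)
    rwa [inv_mul_le_iff₀ (by linarith), mul_comm] at h7
  have h8 : ‖T - α‖ < 1 := by
    by_contra hc
    push Not at hc
    have := one_le_pow₀ (n := d3) hc
    linarith
  have h9 : ‖α‖ < 1 := by
    have := four_sub_le T (T - α)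
    rw [sub_sub_cancel] at this
    exact lt_of_le_of_lt this (max_lt hT h8)
  have h10 : ‖fourV d2 d4 α‖ ≤ max ε ‖T - α‖ := by
    have := four_sub_le (fourV d2 d4 T) (fourV d2 d4 T - fourV d2 d4 α)
    rw [sub_sub_cancel] at this
    exact this.trans (max_le_max hB (four_lip hT.le h9.le _ _))
  have h11 : ‖fourV d2 d4 α‖ ^ d3 ≤ ε * d2 := by
    rcases le_max_iff.1 h10 with h | h
    · refine (pow_le_pow_left₀ (norm_nonneg _) h _).trans (le_trans ?_ hε1)
      exact pow_le_of_le_one hε (by linarith) (by omega)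
    · exact (pow_le_pow_left₀ (norm_nonneg _) h _).trans h6
  have h12 := one_le_pow₀ (n := d3) (four_arith p h9 h2 h23 h34 hroot)
  rw [mul_pow, ← pow_mul, ← pow_mul] at h12
  refine h12.trans ?_
  calc ‖fourV d2 d4 α‖ ^ d3 * 2 ^ (4 * d4 ^ 2 * (d3 * d3))
      ≤ ε * 2 ^ d4 * 2 ^ (4 * d4 ^ 2 * (d3 * d3)) :=
        mul_le_mul_of_nonneg_right (h11.trans (mul_le_mul_of_nonneg_left t hε)) (by positivity)
    _ = ε * 2 ^ (d4 + 4 * d4 ^ 2 * d3 * d3) := by rw [mul_assoc, ← pow_add, mul_assoc _ d3]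
    _ ≤ ε * 2 ^ d4 ^ 6 := mul_le_mul_of_nonneg_left (pow_le_pow_right₀ one_le_two hexp) hε

end Pool.Agent.UAP
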