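import Pool.Agent.Lib.MP_7e5527_ag.Branch
import Pool.Agent.Lib.MP_7e5527_ag.Four

open Polynomial UpperHalfPlane
open scoped Polynomial.Bivariate MatrixGroups IntermediateField

noncomputable section

namespace Pool.Agent.UAP

variable {p : ℕ} [Fact p.Prime]

private theorem gap_one_lt (p : ℕ) [hp : Fact p.Prime] : (1 : ℝ) < p := by
  exact_mod_cast hp.out.one_lt

private theorem gap_inv_pos (p : ℕ) [Fact p.Prime] : (0 : ℝ) < (p : ℝ)⁻¹ :=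
  inv_pos.mpr (zero_lt_one.trans (gap_one_lt p))

private theorem gap_inv_lt (p : ℕ) [Fact p.Prime] : (p : ℝ)⁻¹ < 1 :=
  inv_lt_one_of_one_lt₀ (gap_one_lt p)

private theorem gap_norm_nat_mul (n : ℕ) (z : ℂ_[p]) : ‖(n : ℂ_[p]) * z‖ ≤ ‖z‖ := by
  rw [norm_mul]
  exact mul_le_of_le_one_left (norm_nonneg _) (IsUltrametricDist.norm_natCast_le_one _ n)

private theorem gap_norm_sub_le {x y : ℂ_[p]} {b : ℝ} (hx : ‖x‖ ≤ b) (hy : ‖y‖ ≤ b) :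
    ‖x - y‖ ≤ b := by
  rw [sub_eq_add_neg]
  refine (IsUltrametricDist.norm_add_le_max _ _).trans (max_le hx ?_)
  rwa [norm_neg]

private theorem gap_norm_eq {ψ w : ℂ_[p]} (h : ‖ψ - w‖ < ‖w‖) : ‖ψ‖ = ‖w‖ := by
  have h1 := IsUltrametricDist.norm_add_eq_max_of_norm_ne_norm h.ne
  rwa [sub_add_cancel, max_eq_right h.le] at h1

/-- The gap principle. -/
theorem branch_gap (β : Br p) {C : ℝ} (hC : 0 ≤ C) : ∃ r1 : ℝ, 0 < r1 ∧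
    ∀ (E : ℕ) (x0 y0 : ℂ_[p]), 0 < E → ∀ T1 ∈ BP β C r1 x0 y0, ∀ T2 ∈ BP β C r1 x0 y0,
      ∀ T3 ∈ BP β C r1 x0 y0, ∀ s1 s2 s3 : ℕ, s1 < s2 → s2 < s3 →
        ‖T1.1‖ ^ (β.κ * E) = (p : ℝ)⁻¹ ^ s1 → ‖T2.1‖ ^ (β.κ * E) = (p : ℝ)⁻¹ ^ s2 →
        ‖T3.1‖ ^ (β.κ * E) = (p : ℝ)⁻¹ ^ s3 → 2 ^ (s2 - s1) ≤ (s3 - s2) ^ E := by
  obtain ⟨ra, C1, hra, -, hC1, hbasic⟩ := branch_basic β hC
  obtain ⟨rb, hrb, hthree⟩ := branch_three β hC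
  refine ⟨min ra rb, lt_min hra hrb, ?_⟩
  intro E x0 y0 hE T1 hT1 T2 hT2 T3 hT3 s1 s2 s3 h12 h23 e1 e2 e3
  have hκE : β.κ * E ≠ 0 := (Nat.mul_pos β.hκ hE).ne'
  have hq0 := gap_inv_pos p
  have hq1 := gap_inv_lt p
  have hc2 : 0 < ‖β.c2‖ := norm_pos_iff.mpr β.hc2
  have hnorm : ∀ T ∈ BP β C (min ra rb) x0 y0,
      ‖plog (uB β T.1 T.2)‖ = ‖β.c2‖ * ‖T.1‖ ^ β.κ := by
    intro T hT
    obtain ⟨-, -, -, -, -, h6, h7⟩ := hbasic T.1 T.2 hT.1 (hT.2.1.trans_le (min_le_left _ _))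
    have ht : 0 < ‖T.1‖ ^ β.κ := pow_pos (norm_pos_iff.mpr hT.1.1) _
    have hw : ‖ap p β.c2 * T.1 ^ β.κ‖ = ‖β.c2‖ * ‖T.1‖ ^ β.κ := by
      rw [norm_mul, norm_pow, norm_ap]
    rw [← hw]
    apply gap_norm_eq
    rw [hw]
    refine h6.trans_lt ?_
    have h8 : C1 * ‖T.1‖ < ‖β.c2‖ := h7.trans_le (mul_le_of_le_one_right hc2.le hq1.le)
    calc C1 * ‖T.1‖ ^ (β.κ + 1) = (C1 * ‖T.1‖) * ‖T.1‖ ^ β.κ := by ring
      _ < ‖β.c2‖ * ‖T.1‖ ^ β.κ := mul_lt_mul_of_pos_right h8 ht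
  obtain ⟨c, rfl⟩ := Nat.exists_eq_add_of_lt h12
  obtain ⟨a, rfl⟩ := Nat.exists_eq_add_of_lt h23
  have hrel : ‖T1.1‖ ^ (a + 1) * ‖T3.1‖ ^ (c + 1) = ‖T2.1‖ ^ (a + 1 + (c + 1)) := by
    rw [← pow_left_inj₀ (by positivity) (by positivity) hκE, mul_pow, ← pow_mul, ← pow_mul,
      ← pow_mul, mul_comm (a + 1), mul_comm (c + 1), mul_comm (a + 1 + (c + 1)), pow_mul ‖T1.1‖,
      pow_mul ‖T3.1‖, pow_mul ‖T2.1‖, e1, e2, e3, ← pow_mul, ← pow_mul, ← pow_mul, ← pow_add]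
    congr 1
    ring
  have h3 := hthree x0 y0 T1 (BP_mono β C (min_le_right _ _) x0 y0 hT1)
    T2 (BP_mono β C (min_le_right _ _) x0 y0 hT2) T3 (BP_mono β C (min_le_right _ _) x0 y0 hT3)
    (a + 1) (c + 1) hrel
  have h32 : ‖T3.1‖ ≤ ‖T2.1‖ := by
    rw [← pow_le_pow_iff_left₀ (norm_nonneg _) (norm_nonneg _) hκE, e2, e3]
    exact pow_le_pow_of_le_one hq0.le hq1.le (by omega)
  have hle : ‖((a + 1 : ℕ) : ℂ_[p]) * plog (uB β T1.1 T1.2)‖ ≤ ‖β.c2‖ * ‖T2.1‖ ^ β.κ := by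
    have : ((a + 1 : ℕ) : ℂ_[p]) * plog (uB β T1.1 T1.2) =
        ((a + 1 + (c + 1) : ℕ) : ℂ_[p]) * plog (uB β T2.1 T2.2)
          - ((c + 1 : ℕ) : ℂ_[p]) * plog (uB β T3.1 T3.2) := by
      rw [Nat.cast_add (a + 1)]
      linear_combination h3
    rw [this]
    apply gap_norm_sub_le
    · exact (gap_norm_nat_mul _ _).trans (hnorm T2 hT2).le
    · refine (gap_norm_nat_mul _ _).trans ((hnorm T3 hT3).le.trans ?_)
      gcongr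
  rw [norm_mul, hnorm T1 hT1, mul_left_comm, mul_le_mul_iff_right₀ hc2] at hle
  have ha := inv_le_norm_natCast p (Nat.succ_pos a)
  have hle2 : (((a + 1 : ℕ) : ℝ)⁻¹ * ‖T1.1‖ ^ β.κ) ^ E ≤ (‖T2.1‖ ^ β.κ) ^ E := by
    apply pow_le_pow_left₀ (by positivity)
    exact (mul_le_mul_of_nonneg_right ha (by positivity)).trans hle
  rw [mul_pow, ← pow_mul, ← pow_mul, e1, e2, add_assoc s1, pow_add, mul_comm,
    mul_le_mul_iff_right₀ (pow_pos hq0 _), inv_pow, inv_pow,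
    inv_le_inv₀ (by positivity) (pow_pos (zero_lt_one.trans (gap_one_lt p)) _)] at hle2
  have hle3 : p ^ (c + 1) ≤ (a + 1) ^ E := by exact_mod_cast hle2
  rw [show s1 + c + 1 - s1 = c + 1 by omega, show s1 + c + 1 + a + 1 - (s1 + c + 1) = a + 1 by omega]
  exact (Nat.pow_le_pow_left (Fact.out : p.Prime).two_le _).trans hle3

/-- Four points in geometric progression. -/
theorem branch_four (β : Br p) {C : ℝ} (hC : 0 ≤ C) {E : ℕ} (hE : 0 < E) :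
    ∃ (r1 : ℝ) (c : ℕ), 0 < r1 ∧ ∀ (x0 y0 T0 ω : ℂ_[p]) (s0 : ℕ) (T : Fin 4 → ℂ_[p] × ℂ_[p])
      (e : Fin 4 → ℕ), 0 < s0 → ‖T0‖ ^ E = (p : ℝ)⁻¹ ^ s0 → ‖ω‖ = 1 → StrictMono e →
      (∀ i, T i ∈ BP β C r1 x0 y0 ∧ (T i).1 ^ β.κ = ω * T0 ^ e i) →
      s0 * e 0 ≤ c * (e 3 - e 0) ^ c := by
  obtain ⟨ra, C1, hra, -, hC1, hbasic⟩ := branch_basic β hC
  obtain ⟨rb, hrb, hthree⟩ := branch_three β hC
  have hc2 : 0 < ‖β.c2‖ := norm_pos_iff.mpr β.hc2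
  obtain ⟨M, hM⟩ := pow_unbounded_of_one_lt (C1 / ‖β.c2‖) (one_lt_two (α := ℝ))
  refine ⟨min ra rb, β.κ * E * (M + 1) + 6, lt_min hra hrb, ?_⟩
  intro x0 y0 T0 ω s0 T e hs0 hT0 hω he hT
  have hq0 := gap_inv_pos p
  have hq1 := gap_inv_lt p
  have hκ := β.hκ
  have hT01 : ‖T0‖ < 1 := by
    rw [← pow_lt_one_iff_of_nonneg (norm_nonneg _) hE.ne', hT0]
    exact pow_lt_one₀ hq0.le hq1 hs0.ne'
  have hn : ∀ i, ‖(T i).1‖ ^ β.κ = ‖T0‖ ^ e i := by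
    intro i
    rw [← norm_pow, (hT i).2, norm_mul, hω, one_mul, norm_pow]
  have hmono : ∀ i, ‖(T i).1‖ ≤ ‖(T 0).1‖ := by
    intro i
    rw [← pow_le_pow_iff_left₀ (norm_nonneg _) (norm_nonneg _) hκ.ne', hn, hn]
    exact pow_le_pow_of_le_one (norm_nonneg _) hT01.le (he.monotone (Fin.zero_le i))
  have herr : ∀ i, ‖plog (uB β (T i).1 (T i).2) - ap p β.c2 * (T i).1 ^ β.κ‖ ≤
      C1 * ‖(T 0).1‖ ^ (β.κ + 1) := by
    intro i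
    obtain ⟨-, -, -, -, -, h6, -⟩ :=
      hbasic (T i).1 (T i).2 (hT i).1.1 ((hT i).1.2.1.trans_le (min_le_left _ _))
    refine h6.trans ?_
    gcongr
    exact hmono i
  have ht0 : 0 < ‖(T 0).1‖ := norm_pos_iff.mpr (hT 0).1.1.1
  have hw : ‖ap p β.c2 * (T 0).1 ^ β.κ‖ = ‖β.c2‖ * ‖(T 0).1‖ ^ β.κ := by
    rw [norm_mul, norm_pow, norm_ap]
  have h01 : e 0 < e 1 := he (by decide)
  have key : ∀ j : Fin 4, e 1 < e j →
      ‖((e j - e 0 : ℕ) : ℂ_[p]) * T0 ^ (e 1 - e 0) - ((e 1 - e 0 : ℕ) : ℂ_[p]) * T0 ^ (e j - e 0)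
        - (((e j - e 0 : ℕ) : ℂ_[p]) - ((e 1 - e 0 : ℕ) : ℂ_[p]))‖ ≤
          C1 / ‖β.c2‖ * ‖(T 0).1‖ := by
    intro j hj
    obtain ⟨c, hc⟩ := Nat.exists_eq_add_of_le h01.le
    obtain ⟨a, ha⟩ := Nat.exists_eq_add_of_le hj.le
    have hrel : ‖(T 0).1‖ ^ a * ‖(T j).1‖ ^ c = ‖(T 1).1‖ ^ (a + c) := by
      rw [← pow_left_inj₀ (by positivity) (by positivity) hκ.ne', mul_pow, ← pow_mul, ← pow_mul,
        ← pow_mul, mul_comm a, mul_comm c, mul_comm (a + c), pow_mul, pow_mul,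
        pow_mul ‖(T 1).1‖, hn, hn, hn, ← pow_mul, ← pow_mul, ← pow_mul, ← pow_add, ha, hc]
      congr 1
      ring
    have h3 := hthree x0 y0 (T 0) (BP_mono β C (min_le_right _ _) x0 y0 (hT 0).1)
      (T 1) (BP_mono β C (min_le_right _ _) x0 y0 (hT 1).1)
      (T j) (BP_mono β C (min_le_right _ _) x0 y0 (hT j).1) a c hrel
    have hd1 : e 1 - e 0 = c := by omega
    have hdj : e j - e 0 = a + c := by omega
    have ht1 : (T 1).1 ^ β.κ = (T 0).1 ^ β.κ * T0 ^ c := by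
      rw [(hT 1).2, (hT 0).2, hc, pow_add, mul_assoc]
    have htj : (T j).1 ^ β.κ = (T 0).1 ^ β.κ * T0 ^ (a + c) := by
      rw [(hT j).2, (hT 0).2, ha, hc, mul_assoc, ← pow_add]
      congr 2
      ring
    rw [hd1, hdj]
    have hid : (ap p β.c2 * (T 0).1 ^ β.κ) * (((a + c : ℕ) : ℂ_[p]) * T0 ^ c
        - (c : ℂ_[p]) * T0 ^ (a + c) - (((a + c : ℕ) : ℂ_[p]) - (c : ℂ_[p]))) =
        (a : ℂ_[p]) * (plog (uB β (T 0).1 (T 0).2) - ap p β.c2 * (T 0).1 ^ β.κ) -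
        (((a + c : ℕ) : ℂ_[p]) * (plog (uB β (T 1).1 (T 1).2) - ap p β.c2 * (T 1).1 ^ β.κ) -
        (c : ℂ_[p]) * (plog (uB β (T j).1 (T j).2) - ap p β.c2 * (T j).1 ^ β.κ)) := by
      rw [ht1, htj, Nat.cast_add]
      linear_combination -h3
    have hb := gap_norm_sub_le ((gap_norm_nat_mul a _).trans (herr 0))
      (gap_norm_sub_le ((gap_norm_nat_mul (a + c) _).trans (herr 1))
        ((gap_norm_nat_mul c _).trans (herr j)))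
    rw [← hid, norm_mul, hw] at hb
    rw [← mul_le_mul_iff_right₀ (mul_pos hc2 (pow_pos ht0 β.κ))]
    refine hb.trans_eq ?_
    field_simp
    ring
  have h12 : e 1 < e 2 := he (by decide)
  have h23 : e 2 < e 3 := he (by decide)
  have h4 := four_point p hT01 (d2 := e 1 - e 0) (d3 := e 2 - e 0) (d4 := e 3 - e 0)
    (by omega) (by omega) (by omega) (key 2 h12) (key 3 (h12.trans h23))
  obtain ⟨d, hd⟩ : ∃ d, e 3 - e 0 = d + 1 := ⟨e 3 - e 0 - 1, by omega⟩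
  rw [hd] at h4 ⊢
  have h5 : 1 ≤ ‖(T 0).1‖ * 2 ^ (M + (d + 1) ^ 6) := by
    refine h4.trans ?_
    rw [pow_add, mul_comm (C1 / ‖β.c2‖), mul_assoc]
    gcongr
  have h6 : (1 : ℝ) ≤ (‖(T 0).1‖ * 2 ^ (M + (d + 1) ^ 6)) ^ (β.κ * E) := one_le_pow₀ h5
  have h7 : ‖(T 0).1‖ ^ (β.κ * E) = (p : ℝ)⁻¹ ^ (s0 * e 0) := by
    rw [pow_mul, hn, ← pow_mul, mul_comm, pow_mul, hT0, ← pow_mul]
  rw [mul_pow, h7, inv_pow, ← pow_mul,
    le_inv_mul_iff₀ (pow_pos (zero_lt_one.trans (gap_one_lt p)) _), mul_one] at h6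
  have h8 : p ^ (s0 * e 0) ≤ 2 ^ ((M + (d + 1) ^ 6) * (β.κ * E)) := by exact_mod_cast h6
  have h9 : s0 * e 0 ≤ (M + (d + 1) ^ 6) * (β.κ * E) :=
    (Nat.pow_le_pow_iff_right one_lt_two).mp
      ((Nat.pow_le_pow_left (Fact.out : p.Prime).two_le _).trans h8)
  have h10 : 1 ≤ (d + 1) ^ 6 := Nat.one_le_pow _ _ (Nat.succ_pos d)
  calc s0 * e 0 ≤ (M + (d + 1) ^ 6) * (β.κ * E) := h9
    _ ≤ (M * (d + 1) ^ 6 + (d + 1) ^ 6) * (β.κ * E) := by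
        gcongr
        exact Nat.le_mul_of_pos_right _ h10
    _ = (β.κ * E * (M + 1)) * (d + 1) ^ 6 := by ring
    _ ≤ (β.κ * E * (M + 1) + 6) * (d + 1) ^ (β.κ * E * (M + 1) + 6) :=
        Nat.mul_le_mul (Nat.le_add_right _ _)
          (Nat.pow_le_pow_right (Nat.succ_pos d) (Nat.le_add_left _ _))

private theorem gap_exists_exp (K : IntermediateField ℚ_[p] ℂ_[p]) [FiniteDimensional ℚ_[p] K]
    {D : ℕ} (hD : Module.finrank ℚ_[p] K ≤ D) {z : ℂ_[p]} (hz : z ∈ K) (hz0 : z ≠ 0)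
    (hz1 : ‖z‖ < 1) : ∃ s : ℕ, 0 < s ∧ ‖z‖ ^ D.factorial = (p : ℝ)⁻¹ ^ s := by
  obtain ⟨k, hk⟩ := norm_pow_factorial K hD hz hz0
  have h1 : (p : ℝ) ^ k < 1 := hk ▸ pow_lt_one₀ (norm_nonneg _) hz1 (Nat.factorial_ne_zero D)
  have h2 : k < 0 := (zpow_lt_one_iff_right₀ (gap_one_lt p)).mp h1
  refine ⟨(-k).toNat, by omega, ?_⟩
  rw [hk, inv_pow, ← zpow_natCast, ← zpow_neg]
  congr 1
  omega

/-- The class of `x0` in a local field is cyclic modulo torsion. -/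
theorem exists_generator (p : ℕ) [Fact p.Prime] (D : ℕ) : ∃ W : ℕ, 0 < W ∧
    ∀ (K : IntermediateField ℚ_[p] ℂ_[p]) [FiniteDimensional ℚ_[p] K],
      Module.finrank ℚ_[p] K ≤ D → ∀ x0 ∈ K, x0 ≠ 0 → ‖x0‖ < 1 →
        ∃ (T0 : ℂ_[p]) (s0 : ℕ), 0 < s0 ∧ ‖T0‖ ^ D.factorial = (p : ℝ)⁻¹ ^ s0 ∧
          ∀ z ∈ K, z ≠ 0 → ‖z‖ < 1 → InG x0 z →
            ∃ (e : ℕ) (ω : ℂ_[p]), ω ^ W = 1 ∧ z = ω * T0 ^ e := by
  classical
  obtain ⟨W, hW, hroot⟩ := exists_root_bound p D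
  refine ⟨W, hW, ?_⟩
  intro K _ hD x0 hx0K hx0 hx1
  have hex : ∃ s : ℕ, 0 < s ∧ ∃ z ∈ K, InG x0 z ∧ ‖z‖ ^ D.factorial = (p : ℝ)⁻¹ ^ s := by
    obtain ⟨s, hs, h⟩ := gap_exists_exp K hD hx0K hx0 hx1
    exact ⟨s, hs, x0, hx0K, InG.self x0, h⟩
  obtain ⟨hs0, T0, hT0K, hT0G, hT0⟩ := Nat.find_spec hex
  have hq0 := gap_inv_pos p
  have hT00 : T0 ≠ 0 := by
    rintro rfl
    rw [norm_zero, zero_pow (Nat.factorial_ne_zero D)] at hT0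
    exact (pow_pos hq0 _).ne hT0
  refine ⟨T0, Nat.find hex, hs0, hT0, ?_⟩
  intro z hzK hz0 hz1 hzG
  obtain ⟨s, -, hs⟩ := gap_exists_exp K hD hzK hz0 hz1
  have hK' : z / T0 ^ (s / Nat.find hex) ∈ K := div_mem hzK (pow_mem hT0K _)
  have hG' : InG x0 (z / T0 ^ (s / Nat.find hex)) := hzG.div hx0 (hT0G.pow _)
  have hn' : ‖z / T0 ^ (s / Nat.find hex)‖ ^ D.factorial = (p : ℝ)⁻¹ ^ (s % Nat.find hex) := by
    rw [norm_div, norm_pow, div_pow, ← pow_mul, mul_comm, pow_mul, hT0, hs, ← pow_mul,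
      div_eq_iff (pow_pos hq0 _).ne', ← pow_add, Nat.mod_add_div]
  have hr : s % Nat.find hex = 0 := by
    by_contra hr
    exact Nat.find_min hex (Nat.mod_lt s hs0) ⟨Nat.pos_of_ne_zero hr, _, hK', hG', hn'⟩
  rw [hr, pow_zero, pow_eq_one_iff_of_nonneg (norm_nonneg _) (Nat.factorial_ne_zero D)] at hn'
  obtain ⟨n, hn, hzn⟩ := hG'.root_of_unity hx0 hx1.ne hn'
  exact ⟨s / Nat.find hex, _, hroot K hD _ hK' n hn hzn,
    (div_mul_cancel₀ z (pow_ne_zero _ hT00)).symm⟩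

end Pool.Agent.UAP
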