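import Pool.Agent.Lib.MP_7e5527_ag.Arch0
import Pool.Agent.Lib.MP_7e5527_ag.Jf

open Polynomial UpperHalfPlane
open scoped Polynomial.Bivariate MatrixGroups IntermediateField

noncomputable section

namespace Pool.Agent.UAP

section field

variable {E : Type*} [Field E]

theorem qg_pow {N : ℕ} (hN : 0 < N) {g : ℕ × ℕ × ℕ} (hg : g ∈ Tri N) {ζ : E}
    (hζ : IsPrimitiveRoot ζ N) (t : E) : qg g ζ t ^ g.2.2 = (t ^ N) ^ g.1 := by
  obtain ⟨h1, -⟩ := (mem_Tri hN).1 hg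
  have h2 : (ζ ^ (g.1 * g.2.1)) ^ g.2.2 = 1 := by
    rw [← pow_mul, show g.1 * g.2.1 * g.2.2 = N * g.2.1 by rw [← h1]; ring, pow_mul,
      hζ.pow_eq_one, one_pow]
  rw [qg, mul_pow, h2, one_mul, ← pow_mul, ← pow_mul, ← h1]
  congr 1
  ring

/-- A multiplicative relation comes from a primitive triple of bounded level. -/
theorem exists_level [CharZero E] [IsAlgClosed E] {x x' : E} (hx : x ≠ 0) {n n' : ℕ} (hn : 0 < n)
    (hn' : 0 < n') (h : x' ^ n = x ^ n') :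
    ∃ (N : ℕ) (ζ t : E) (g : ℕ × ℕ × ℕ), 0 < N ∧ N ≤ n * n' ∧ IsPrimitiveRoot ζ N ∧ t ^ N = x ∧
      g ∈ Prim N ∧ x' = qg g ζ t ∧ g.1 * n = g.2.2 * n' := by
  obtain ⟨G, d0, a0, hG, hco, rfl, rfl⟩ := Nat.exists_coprime' (Nat.gcd_pos_of_pos_left n' hn)
  have hd0 : 0 < d0 := Nat.pos_of_mul_pos_right hn
  have ha0 : 0 < a0 := Nat.pos_of_mul_pos_right hn'
  set η := x' ^ d0 / x ^ a0 with hη
  have hηG : η ^ G = 1 := by
    rw [hη, div_pow, ← pow_mul, ← pow_mul, h, div_self (pow_ne_zero _ hx)]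
  have hgG : orderOf η ∣ G := orderOf_dvd_of_pow_eq_one hηG
  have hηo : η ^ orderOf η = 1 := pow_orderOf_eq_one η
  obtain ⟨o, ho⟩ : ∃ o, o = orderOf η := ⟨_, rfl⟩
  rw [← ho] at hgG hηo
  have ho0 : 0 < o := Nat.pos_of_dvd_of_pos hgG hG
  have hoG : o ≤ G := Nat.le_of_dvd hG hgG
  have hN : 0 < o * a0 * (o * d0) := by positivity
  have : NeZero (o * a0 * (o * d0)) := ⟨hN.ne'⟩
  have : NeZero (o * d0) := ⟨by positivity⟩
  obtain ⟨ζ, hζ⟩ := HasEnoughRootsOfUnity.exists_primitiveRoot E (o * a0 * (o * d0))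
  obtain ⟨t, ht⟩ := IsAlgClosed.exists_pow_nat_eq x hN
  have ht0 : t ≠ 0 := by
    rintro rfl
    rw [zero_pow hN.ne'] at ht
    exact hx ht.symm
  have hw : (x' / t ^ (o * a0) ^ 2) ^ (o * d0) = 1 := by
    rw [← hηo, hη, div_pow, div_pow, ← ht, ← pow_mul, ← pow_mul, ← pow_mul, ← pow_mul]
    congr 2 <;> ring
  obtain ⟨b, hb, hwb⟩ := (hζ.pow hN rfl).eq_pow_of_pow_eq_one hw
  have hx' : x' = ζ ^ (o * a0 * b) * t ^ (o * a0) ^ 2 := by
    rw [pow_mul ζ, hwb, div_mul_cancel₀ _ (pow_ne_zero _ ht0)]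
  have hξ : IsPrimitiveRoot (ζ ^ (o * a0 * d0)) o := hζ.pow hN (by ring)
  have hηb : η = (ζ ^ (o * a0 * d0)) ^ b := by
    rw [hη, hx', ← ht, mul_pow, ← pow_mul, ← pow_mul, ← pow_mul, ← pow_mul,
      show (o * a0) ^ 2 * d0 = o * a0 * (o * d0) * a0 by ring,
      mul_div_assoc, div_self (pow_ne_zero _ ht0), mul_one]
    congr 1
    ring
  have hcop : Nat.gcd o b = 1 := by
    have h1 : (ζ ^ (o * a0 * d0)) ^ (b * (o / Nat.gcd o b)) = 1 := by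
      rw [hξ.pow_eq_one_iff_dvd]
      obtain ⟨b', hb'⟩ := Nat.gcd_dvd_right o b
      have e := Nat.mul_div_cancel' (Nat.gcd_dvd_left o b)
      generalize Nat.gcd o b = r at hb' e
      refine ⟨b', ?_⟩
      rw [hb', mul_assoc, mul_comm b', ← mul_assoc, e]
    rw [pow_mul, ← hηb] at h1
    have h2 : o ∣ o / Nat.gcd o b := by
      conv_lhs => rw [ho]
      exact orderOf_dvd_of_pow_eq_one h1
    have h3 : 0 < Nat.gcd o b := Nat.gcd_pos_of_pos_left b ho0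
    have h4 : 0 < o / Nat.gcd o b := Nat.div_pos (Nat.le_of_dvd ho0 (Nat.gcd_dvd_left o b)) h3
    have h5 := Nat.le_of_dvd h4 h2
    by_contra hne
    exact absurd (Nat.div_lt_self ho0 (by omega : 1 < Nat.gcd o b)) (by omega)
  refine ⟨o * a0 * (o * d0), ζ, t, (o * a0, b, o * d0), hN, ?_, hζ, ht,
    (mem_Prim hN).2 ⟨rfl, hb, ?_⟩, hx', ?_⟩
  · calc o * a0 * (o * d0) = o * o * (a0 * d0) := by ring
      _ ≤ G * G * (a0 * d0) := Nat.mul_le_mul_right _ (Nat.mul_le_mul hoG hoG)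
      _ = d0 * G * (a0 * G) := by ring
  · show Nat.gcd (o * a0) (Nat.gcd b (o * d0)) = 1
    have h1 : Nat.gcd (o * a0) (Nat.gcd b (o * d0)) ∣ o := by
      have h2 : Nat.gcd (o * a0) (Nat.gcd b (o * d0)) ∣ Nat.gcd (o * d0) (o * a0) :=
        Nat.dvd_gcd ((Nat.gcd_dvd_right _ _).trans (Nat.gcd_dvd_right _ _)) (Nat.gcd_dvd_left _ _)
      rwa [Nat.gcd_mul_left, hco.gcd_eq_one, mul_one] at h2
    have h3 : Nat.gcd (o * a0) (Nat.gcd b (o * d0)) ∣ b :=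
      (Nat.gcd_dvd_right _ _).trans (Nat.gcd_dvd_left _ _)
    exact Nat.dvd_one.1 (hcop ▸ Nat.dvd_gcd h1 h3)
  · show o * a0 * (d0 * G) = o * d0 * (a0 * G)
    ring

end field

section normed

variable {E : Type*} [NormedField E]

theorem norm_qg {N : ℕ} (hN : 0 < N) (g : ℕ × ℕ × ℕ) {ζ : E} (hζ : IsPrimitiveRoot ζ N) (t : E) :
    ‖qg g ζ t‖ = ‖t‖ ^ g.1 ^ 2 := by
  have h1 : ‖ζ‖ = 1 := by
    have h2 : ‖ζ‖ ^ N = 1 := by rw [← norm_pow, hζ.pow_eq_one, norm_one]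
    exact (pow_eq_one_iff_of_nonneg (norm_nonneg _) hN.ne').1 h2
  rw [qg, norm_mul, norm_pow, norm_pow, h1, one_pow, one_mul]

theorem qg_mem {N : ℕ} (hN : 0 < N) {g : ℕ × ℕ × ℕ} (hg : g ∈ Tri N) {ζ : E}
    (hζ : IsPrimitiveRoot ζ N) {t : E} (ht0 : t ≠ 0) (ht : ‖t‖ < 1) :
    qg g ζ t ≠ 0 ∧ ‖qg g ζ t‖ < 1 ∧ ‖t ^ N‖ ^ N ≤ ‖qg g ζ t‖ ∧ ‖qg g ζ t‖ ^ N ≤ ‖t ^ N‖ := by
  obtain ⟨h1, -⟩ := (mem_Tri hN).1 hg
  have ha : 0 < g.1 := Nat.pos_of_mul_pos_right (h1 ▸ hN)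
  have haN : g.1 ≤ N := Nat.le_of_dvd hN ⟨_, h1.symm⟩
  have ht' : 0 < ‖t‖ := norm_pos_iff.2 ht0
  have hq := norm_qg hN g hζ t
  refine ⟨?_, ?_, ?_, ?_⟩
  · rw [← norm_pos_iff, hq]
    positivity
  · rw [hq]
    exact pow_lt_one₀ ht'.le ht (by positivity)
  · rw [hq, norm_pow, ← pow_mul]
    refine pow_le_pow_of_le_one ht'.le ht.le ?_
    rw [sq]
    exact Nat.mul_le_mul haN haN
  · rw [hq, norm_pow, ← pow_mul]
    refine pow_le_pow_of_le_one ht'.le ht.le ?_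
    exact Nat.le_mul_of_pos_left _ (by positivity)

/-- A primitive triple that satisfies a multiplicative relation has bounded level. -/
theorem level_le {N : ℕ} (hN : 0 < N) {g : ℕ × ℕ × ℕ} (hg : g ∈ Prim N) {ζ : E}
    (hζ : IsPrimitiveRoot ζ N) {t : E} (ht0 : t ≠ 0) (ht : ‖t‖ < 1) {n n' : ℕ} (hn : 0 < n)
    (h : qg g ζ t ^ n = (t ^ N) ^ n') : N ≤ n * n' := by
  obtain ⟨h1, -, h3⟩ := (mem_Prim hN).1 hg
  obtain ⟨a, b, d⟩ := g
  simp only at h1 h3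
  have ha : 0 < a := Nat.pos_of_mul_pos_right (h1 ▸ hN)
  have ht' : 0 < ‖t‖ := norm_pos_iff.2 ht0
  have e1 : a ^ 2 * n = N * n' := by
    have h4 := congrArg norm h
    rw [norm_pow, norm_qg hN _ hζ, norm_pow, norm_pow, ← pow_mul, ← pow_mul] at h4
    exact (pow_right_inj₀ ht' ht.ne).1 h4
  have e2 : a * n = d * n' := by
    apply Nat.eq_of_mul_eq_mul_left ha
    rw [← mul_assoc, ← mul_assoc, h1, ← sq, e1]
  have e3 : ζ ^ (a * b * n) = 1 := by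
    rw [qg, mul_pow, ← pow_mul, ← pow_mul, ← pow_mul, e1] at h
    exact mul_right_cancel₀ (pow_ne_zero _ ht0) (h.trans (one_mul _).symm)
  have e4 : d ∣ b * n := by
    have h5 := (hζ.pow_eq_one_iff_dvd _).1 e3
    rw [← h1, mul_assoc] at h5
    exact Nat.dvd_of_mul_dvd_mul_left ha h5
  have e5 : d ∣ n := by
    have h6 : d ∣ Nat.gcd (a * n) (Nat.gcd (b * n) (d * n)) :=
      Nat.dvd_gcd ⟨n', e2⟩ (Nat.dvd_gcd e4 (Dvd.intro _ rfl))
    rwa [Nat.gcd_mul_right, Nat.gcd_mul_right, h3, one_mul] at h6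
  obtain ⟨k, rfl⟩ := e5
  have hd : 0 < d := Nat.pos_of_mul_pos_right hn
  have hk : 0 < k := Nat.pos_of_mul_pos_left hn
  have e6 : n' = a * k := by
    apply Nat.eq_of_mul_eq_mul_left hd
    rw [← e2]
    ring
  rw [e6, ← h1]
  calc a * d = a * d * 1 := (mul_one _).symm
    _ ≤ a * d * (k * k) := Nat.mul_le_mul_left _ (Nat.mul_pos hk hk)
    _ = d * k * (a * k) := by ring

end normed

variable {p : ℕ} [Fact p.Prime]

theorem phiP_ne_zero {N : ℕ} (hN : 0 < N) {g : ℕ × ℕ × ℕ} (hg : g ∈ Tri N) {ζ t : ℂ_[p]}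
    (hζ : IsPrimitiveRoot ζ N) (ht0 : t ≠ 0) (ht : ‖t‖ < 1) : phiP N g ζ t ≠ 0 := by
  obtain ⟨h1, -⟩ := (mem_Tri hN).1 hg
  have ha : 0 < g.1 := Nat.pos_of_mul_pos_right (h1 ▸ hN)
  obtain ⟨q0, q1, -, -⟩ := qg_mem hN hg hζ ht0 ht
  have htN : ‖t ^ N‖ < 1 := by
    rw [norm_pow]
    exact pow_lt_one₀ (norm_nonneg _) ht hN.ne'
  refine div_ne_zero (mul_ne_zero (pow_ne_zero _ (Nat.cast_ne_zero.2 ha.ne')) ?_) ?_
  · rw [← norm_ne_zero_iff, norm_evZ_Ds q1]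
    exact norm_ne_zero_iff.2 q0
  · rw [← norm_ne_zero_iff, norm_evZ_Ds htN]
    exact norm_ne_zero_iff.2 (pow_ne_zero _ ht0)

theorem psiP_eq {N : ℕ} (hN : 0 < N) {g : ℕ × ℕ × ℕ} (hg : g ∈ Tri N) {ζ t : ℂ_[p]}
    (hζ : IsPrimitiveRoot ζ N) (ht0 : t ≠ 0) (ht : ‖t‖ < 1) :
    psiP N g ζ t = phiP N g ζ t * J (qg g ζ t) := by
  obtain ⟨q0, q1, -, -⟩ := qg_mem hN hg hζ ht0 ht
  have hD : evZ Ds (qg g ζ t) ≠ 0 := by
    rw [← norm_ne_zero_iff, norm_evZ_Ds q1]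
    exact norm_ne_zero_iff.2 q0
  rw [psiP, phiP, J_eq q0 q1, div_mul_div_comm, mul_assoc, mul_comm (evZ Ds (qg g ζ t)),
    ← mul_assoc, mul_div_mul_right _ _ hD]

theorem norm_phiP_le {N : ℕ} (hN : 0 < N) {g : ℕ × ℕ × ℕ} (hg : g ∈ Tri N) {ζ t : ℂ_[p]}
    (hζ : IsPrimitiveRoot ζ N) (ht0 : t ≠ 0) (ht : ‖t‖ < 1) :
    ‖phiP N g ζ t‖ ≤ ‖qg g ζ t‖ / ‖t ^ N‖ := by
  obtain ⟨-, q1, -, -⟩ := qg_mem hN hg hζ ht0 ht
  have htN : ‖t ^ N‖ < 1 := by
    rw [norm_pow]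
    exact pow_lt_one₀ (norm_nonneg _) ht hN.ne'
  rw [phiP, norm_div, norm_mul, norm_evZ_Ds q1, norm_evZ_Ds htN, norm_pow]
  refine div_le_div_of_nonneg_right ?_ (norm_nonneg _)
  exact mul_le_of_le_one_left (norm_nonneg _)
    (pow_le_one₀ (norm_nonneg _) (IsUltrametricDist.norm_natCast_le_one _ _))

theorem phiP_eq_of_qg_eq {N : ℕ} (hN : 0 < N) {g g' : ℕ × ℕ × ℕ} {ζ t : ℂ_[p]}
    (hζ : IsPrimitiveRoot ζ N) (ht0 : t ≠ 0) (ht : ‖t‖ < 1) (h : qg g ζ t = qg g' ζ t) :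
    phiP N g ζ t = phiP N g' ζ t := by
  have h1 := congrArg norm h
  rw [norm_qg hN g hζ, norm_qg hN g' hζ] at h1
  have h2 : g.1 ^ 2 = g'.1 ^ 2 := (pow_right_inj₀ (norm_pos_iff.2 ht0) ht.ne).1 h1
  have h3 : g.1 = g'.1 := Nat.pow_left_injective two_ne_zero h2
  rw [phiP, phiP, h, h3]

/-- If all power sums of a finite family are integral and lie in one finitely generated ring,
every member is integral. -/
theorem isIntegral_of_power_sums {E ι : Type*} [Field E] [CharZero E] (s : Finset ι) (z : ι → E)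
    {a : E} (ha : IsIntegral ℤ a)
    (h : ∀ k : ℕ, ∑ i ∈ s, z i ^ k ∈ Algebra.adjoin ℤ ({a} : Set E)) {i : ι} (hi : i ∈ s) :
    IsIntegral ℤ (z i) := by
  classical
  let l : E[X] := ∏ w ∈ (s.image z).erase (z i), (X - C w)
  have hl0 : l.eval (z i) ≠ 0 := by
    rw [eval_prod]
    refine Finset.prod_ne_zero_iff.2 fun w hw => ?_
    rw [eval_sub, eval_X, eval_C]
    exact sub_ne_zero.2 (Finset.ne_of_mem_erase hw).symm
  have hl1 : ∀ j ∈ s, z j ≠ z i → l.eval (z j) = 0 := by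
    intro j hj hne
    rw [eval_prod]
    refine Finset.prod_eq_zero (Finset.mem_erase.2 ⟨hne, Finset.mem_image_of_mem z hj⟩) ?_
    rw [eval_sub, eval_X, eval_C, sub_self]
  let c : E := ((s.filter fun j => z j = z i).card : E) * l.eval (z i)
  have hcard : 0 < (s.filter fun j => z j = z i).card :=
    Finset.card_pos.2 ⟨i, Finset.mem_filter.2 ⟨hi, rfl⟩⟩
  have hc : c ≠ 0 := mul_ne_zero (Nat.cast_ne_zero.2 hcard.ne') hl0
  have key : ∀ k : ℕ, z i ^ k = ∑ m ∈ Finset.range (l.natDegree + 1),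
      (l.coeff m / c) * ∑ j ∈ s, z j ^ (k + m) := by
    intro k
    have e1 : ∑ j ∈ s, l.eval (z j) * z j ^ k = c * z i ^ k := by
      rw [← Finset.sum_filter_add_sum_filter_not s (fun j => z j = z i),
        Finset.sum_eq_zero (s := s.filter fun j => ¬ z j = z i), add_zero,
        Finset.sum_congr rfl (g := fun _ => l.eval (z i) * z i ^ k), Finset.sum_const,
        nsmul_eq_mul, mul_assoc]
      · intro j hj
        rw [(Finset.mem_filter.1 hj).2]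
      · intro j hj
        rw [hl1 j (Finset.mem_filter.1 hj).1 (Finset.mem_filter.1 hj).2, zero_mul]
    have e2 : ∑ j ∈ s, l.eval (z j) * z j ^ k = ∑ m ∈ Finset.range (l.natDegree + 1),
        l.coeff m * ∑ j ∈ s, z j ^ (k + m) := by
      simp only [eval_eq_sum_range, Finset.sum_mul, Finset.mul_sum]
      rw [Finset.sum_comm]
      refine Finset.sum_congr rfl fun m _ => Finset.sum_congr rfl fun j _ => ?_
      ring
    apply mul_left_cancel₀ hc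
    rw [← e1, e2, Finset.mul_sum]
    refine Finset.sum_congr rfl fun m _ => ?_
    rw [← mul_assoc, mul_div_cancel₀ _ hc]
  let M : Submodule ℤ E := Submodule.span ℤ
    (((Finset.range (l.natDegree + 1)).image fun m => l.coeff m / c : Finset E) : Set E) *
      Subalgebra.toSubmodule (Algebra.adjoin ℤ ({a} : Set E))
  have hM : M.FG := Submodule.FG.mul ⟨_, rfl⟩ ha.fg_adjoin_singleton
  have hpow : ∀ k : ℕ, z i ^ k ∈ M := by
    intro k
    rw [key k]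
    refine Submodule.sum_mem _ fun m hm => Submodule.mul_mem_mul
      (Submodule.subset_span ?_) (h _)
    exact Finset.mem_coe.2 (Finset.mem_image_of_mem _ hm)
  refine IsIntegral.of_mem_of_fg (Algebra.adjoin ℤ ({z i} : Set E)) (hM.of_le ?_) _
    (Algebra.self_mem_adjoin_singleton ℤ _)
  intro y hy
  have hy' : y ∈ Algebra.adjoin ℤ ({z i} : Set E) := hy
  rw [Algebra.adjoin_singleton_eq_range_aeval] at hy'
  obtain ⟨P, rfl⟩ := hy'
  show aeval (z i) P ∈ M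
  rw [aeval_eq_sum_range]
  exact Submodule.sum_mem _ fun m _ => Submodule.smul_mem _ _ (hpow m)

end Pool.Agent.UAP
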