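import Pool.Agent.Lib.MP_7e5527_ag.Newton
import Pool.Agent.Lib.MP_7e5527_ag.Level

open Polynomial UpperHalfPlane
open scoped Polynomial.Bivariate MatrixGroups IntermediateField

noncomputable section

namespace Pool.Agent.UAP

variable {p : ℕ} [Fact p.Prime]

private theorem ev1_X {A : Type*} [CommRing A] (y : A) : ev1 y X = y := by simp [ev1]

private theorem ev1_C {A : Type*} [CommRing A] (y : A) (c : ℤ) : ev1 y (C c) = c := by simp [ev1]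

private theorem coeff_of_eval {E ι : Type*} [Field E] [CharZero E] (s : Finset ι) (u j : ι → E)
    (c : E) (F : E[X]) (h : ∀ y, F.eval y = c * ∏ i ∈ s, u i * (y - j i)) :
    F.coeff s.card = c * ∏ i ∈ s, u i := by
  have h1 : F = C (c * ∏ i ∈ s, u i) * ∏ i ∈ s, (X - C (j i)) := by
    refine Polynomial.funext fun y => ?_
    rw [h, Finset.prod_mul_distrib, eval_mul, eval_C, eval_prod, mul_assoc]
    simp
  have h2 := (monic_prod_X_sub_C j s).coeff_natDegree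
  rw [natDegree_finsetProd_X_sub_C_eq_card] at h2
  rw [h1, coeff_C_mul, h2, mul_one]

private theorem zero_iff {E ι : Type*} [Field E] (s : Finset ι) (u j : ι → E) {c : E} (hc : c ≠ 0)
    (hu : ∀ i ∈ s, u i ≠ 0) (y : E) :
    c * ∏ i ∈ s, u i * (y - j i) = 0 ↔ ∃ i ∈ s, y = j i := by
  rw [mul_eq_zero, or_iff_right hc, Finset.prod_eq_zero_iff]
  refine exists_congr fun i => and_congr_right fun hi => ?_
  rw [mul_eq_zero, or_iff_right (hu i hi), sub_eq_zero]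

private theorem int_of_sums {E ι : Type*} [Field E] [CharZero E] [inst : Algebra ℤ E]
    (s : Finset ι) (z : ι → E) {a : E} (ha : IsIntegral ℤ a)
    (h : ∀ k : ℕ, ∑ i ∈ s, z i ^ k ∈ Algebra.adjoin ℤ ({a} : Set E)) {i : ι} (hi : i ∈ s) :
    IsIntegral ℤ (z i) := by
  obtain rfl : inst = Ring.toIntAlgebra E := Subsingleton.elim _ _
  exact isIntegral_of_power_sums s z ha h hi

private theorem prim_tri {N : ℕ} {g : ℕ × ℕ × ℕ} (hg : g ∈ Prim N) : g ∈ Tri N :=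
  (Finset.mem_filter.1 hg).1

private theorem prim_pos {N : ℕ} (hN : 0 < N) {g : ℕ × ℕ × ℕ} (hg : g ∈ Prim N) :
    0 < g.1 ∧ 0 < g.2.2 := by
  have h := ((mem_Prim hN).1 hg).1
  rw [← h] at hN
  exact ⟨Nat.pos_of_mul_pos_right hN, Nat.pos_of_mul_pos_left hN⟩

private theorem fact_ne {E : Type*} [Field E] [CharZero E] (n : ℕ) : (n.factorial : E) ≠ 0 :=
  Nat.cast_ne_zero.2 n.factorial_ne_zero

private theorem modP_cx {N : ℕ} {Φ : ℤ[X][Y]} (h : ModP p N Φ) (τ : ℍ) (y : ℂ) :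
    ev2 (jf τ) y Φ = ((Prim N).card.factorial : ℂ) *
      ∏ g ∈ Prim N, -phiC g τ * (y - jf (aff g τ)) := by
  rw [LinP.cx h]
  congr 1
  refine Finset.prod_congr rfl fun g _ => ?_
  rw [map_neg, ev1_X, map_one, map_zero, psiC_eq]
  ring

private theorem modP_pa {N : ℕ} (hN : 0 < N) {Φ : ℤ[X][Y]} (h : ModP p N Φ) {ζ t : ℂ_[p]}
    (hζ : IsPrimitiveRoot ζ N) (ht0 : t ≠ 0) (ht : ‖t‖ < 1) (y : ℂ_[p]) :
    ev2 (J (t ^ N)) y Φ = ((Prim N).card.factorial : ℂ_[p]) *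
      ∏ g ∈ Prim N, -phiP N g ζ t * (y - J (qg g ζ t)) := by
  rw [LinP.pa h ζ t y hζ ht0 ht]
  congr 1
  refine Finset.prod_congr rfl fun g hg => ?_
  rw [map_neg, ev1_X, map_one, map_zero, psiP_eq hN (prim_tri hg) hζ ht0 ht]
  ring

private theorem thP_cx {N : ℕ} {T : ℤ} {Θ : ℤ[X][Y]} (h : ThP p N T Θ) (τ : ℍ) (y : ℂ) :
    ev2 (jf τ) y Θ = ((Prim N).card.factorial : ℂ) *
      ∏ g ∈ Prim N, 1 * (y - (phiC g τ + T * psiC g τ)) := by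
  rw [LinP.cx h]
  congr 1
  refine Finset.prod_congr rfl fun g _ => ?_
  rw [map_neg, map_neg, ev1_X, map_one, ev1_C]
  ring

private theorem thP_pa {N : ℕ} {T : ℤ} {Θ : ℤ[X][Y]} (h : ThP p N T Θ) {ζ t : ℂ_[p]}
    (hζ : IsPrimitiveRoot ζ N) (ht0 : t ≠ 0) (ht : ‖t‖ < 1) (y : ℂ_[p]) :
    ev2 (J (t ^ N)) y Θ = ((Prim N).card.factorial : ℂ_[p]) *
      ∏ g ∈ Prim N, 1 * (y - (phiP N g ζ t + T * psiP N g ζ t)) := by
  rw [LinP.pa h ζ t y hζ ht0 ht]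
  congr 1
  refine Finset.prod_congr rfl fun g _ => ?_
  rw [map_neg, map_neg, ev1_X, map_one, ev1_C]
  ring

theorem exists_modP (p : ℕ) [Fact p.Prime] {N : ℕ} (hN : 0 < N) : ∃ Φ, ModP p N Φ := by
  exact exists_linP p hN (-X) 1 0 (by simp) (by simp) (by simp)

theorem exists_thP (p : ℕ) [Fact p.Prime] {N : ℕ} (hN : 0 < N) (T : ℤ) : ∃ Θ, ThP p N T Θ := by
  exact exists_linP p hN (-1) (-C T) X (by simp) (by rw [natDegree_neg, natDegree_C]; omega)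
    (by simp)

theorem ModP.lead {N : ℕ} (hN : 0 < N) {Φ : ℤ[X][Y]} (h : ModP p N Φ) :
    Φ.natDegree = (Prim N).card ∧ ∃ c : ℤ, c ≠ 0 ∧ Φ.leadingCoeff = C c := by
  have h1 : ∀ x : ℂ, ev1 x (Φ.coeff (Prim N).card) ≠ 0 := by
    intro x
    obtain ⟨τ, rfl⟩ := jf_surjective x
    have h2 := coeff_of_eval (Prim N) (fun g => -phiC g τ) (fun g => jf (aff g τ))
      ((Prim N).card.factorial : ℂ) (fib Φ (jf τ)) fun y => by rw [eval_fib, modP_cx h]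
    rw [fib, coeff_map] at h2
    rw [h2]
    exact mul_ne_zero (fact_ne _) (Finset.prod_ne_zero_iff.2 fun g hg =>
      neg_ne_zero.2 (phiC_ne_zero (prim_pos hN hg).1 τ))
  have h2 : Φ.coeff (Prim N).card ≠ 0 := fun h0 => h1 0 (by rw [h0, map_zero])
  have h3 : Φ.natDegree = (Prim N).card := le_antisymm (LinP.degY h) (le_natDegree_of_ne_zero h2)
  have h4 : (Φ.coeff (Prim N).card).natDegree = 0 := by
    by_contra h5
    have h6 : ((Φ.coeff (Prim N).card).map (Int.castRingHom ℂ)).degree ≠ 0 := by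
      rw [degree_map_eq_of_injective (Int.castRingHom ℂ).injective_int]
      exact fun h7 => h5 (natDegree_eq_of_degree_eq_some h7)
    obtain ⟨x, hx⟩ := IsAlgClosed.exists_root _ h6
    exact h1 x (by rwa [IsRoot.def, eval_map] at hx)
  have h5 := eq_C_of_natDegree_eq_zero h4
  refine ⟨h3, _, fun h0 => h2 ?_, by rw [leadingCoeff, h3]; exact h5⟩
  rw [h5, h0, C_0]

theorem ModP.fib_ne_zero {N : ℕ} (hN : 0 < N) {Φ : ℤ[X][Y]} (h : ModP p N Φ) {E : Type*} [Field E]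
    [CharZero E] (x : E) : fib Φ x ≠ 0 := by
  obtain ⟨-, c, hc, h1⟩ := h.lead hN
  intro h0
  have h2 : (fib Φ x).coeff Φ.natDegree = c := by
    rw [fib, coeff_map, coeff_natDegree, h1, ev1_C]
  rw [h0, coeff_zero] at h2
  exact hc (by exact_mod_cast h2.symm)

theorem ModP.root_cx {N : ℕ} (hN : 0 < N) {Φ : ℤ[X][Y]} (h : ModP p N Φ) (τ : ℍ) (b : ℂ) :
    ev2 (jf τ) b Φ = 0 ↔ ∃ g ∈ Prim N, b = jf (aff g τ) := by
  rw [modP_cx h]
  exact zero_iff _ (fun g => -phiC g τ) (fun g => jf (aff g τ)) (fact_ne _)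
    (fun g hg => neg_ne_zero.2 (phiC_ne_zero (prim_pos hN hg).1 τ)) b

theorem ModP.root_pa {N : ℕ} (hN : 0 < N) {Φ : ℤ[X][Y]} (h : ModP p N Φ) {ζ t : ℂ_[p]}
    (hζ : IsPrimitiveRoot ζ N) (ht0 : t ≠ 0) (ht : ‖t‖ < 1) (b : ℂ_[p]) :
    ev2 (J (t ^ N)) b Φ = 0 ↔ ∃ g ∈ Prim N, b = J (qg g ζ t) := by
  rw [modP_pa hN h hζ ht0 ht]
  exact zero_iff _ (fun g => -phiP N g ζ t) (fun g => J (qg g ζ t)) (fact_ne _)
    (fun g hg => neg_ne_zero.2 (phiP_ne_zero hN (prim_tri hg) hζ ht0 ht)) b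

theorem ThP.fib_ne_zero {N : ℕ} (hN : 0 < N) {T : ℤ} {Θ : ℤ[X][Y]} (h : ThP p N T Θ) {ζ t : ℂ_[p]}
    (hζ : IsPrimitiveRoot ζ N) (ht0 : t ≠ 0) (ht : ‖t‖ < 1) : fib Θ (J (t ^ N)) ≠ 0 := by
  intro h0
  have h2 := coeff_of_eval (Prim N) (fun _ => 1) (fun g => phiP N g ζ t + T * psiP N g ζ t)
    ((Prim N).card.factorial : ℂ_[p]) (fib Θ (J (t ^ N))) fun y => by
      rw [eval_fib, thP_pa h hζ ht0 ht]
  rw [h0, coeff_zero, Finset.prod_const_one, mul_one] at h2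
  exact fact_ne _ h2.symm

theorem ThP.root_cx {N : ℕ} {T : ℤ} {Θ : ℤ[X][Y]} (h : ThP p N T Θ) (τ : ℍ) (z : ℂ) :
    ev2 (jf τ) z Θ = 0 ↔ ∃ g ∈ Prim N, z = phiC g τ + T * psiC g τ := by
  rw [thP_cx h]
  exact zero_iff _ (fun _ => 1) (fun g => phiC g τ + T * psiC g τ) (fact_ne _)
    (fun _ _ => one_ne_zero) z

theorem ThP.root_pa {N : ℕ} {T : ℤ} {Θ : ℤ[X][Y]} (h : ThP p N T Θ) {ζ t : ℂ_[p]}
    (hζ : IsPrimitiveRoot ζ N) (ht0 : t ≠ 0) (ht : ‖t‖ < 1) (z : ℂ_[p]) :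
    ev2 (J (t ^ N)) z Θ = 0 ↔ ∃ g ∈ Prim N, z = phiP N g ζ t + T * psiP N g ζ t := by
  rw [thP_pa h hζ ht0 ht]
  exact zero_iff _ (fun _ => 1) (fun g => phiP N g ζ t + T * psiP N g ζ t) (fact_ne _)
    (fun _ _ => one_ne_zero) z

theorem isIntegral_phiP {N : ℕ} (hN : 0 < N) {g : ℕ × ℕ × ℕ} (hg : g ∈ Prim N) {ζ t : ℂ_[p]}
    (hζ : IsPrimitiveRoot ζ N) (ht0 : t ≠ 0) (ht : ‖t‖ < 1) (A : ℤ)
    (hA : IsIntegral ℤ ((A : ℂ_[p]) * J (t ^ N))) : IsIntegral ℤ ((A : ℂ_[p]) * phiP N g ζ t) := by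
  refine int_of_sums (Prim N) (fun g => (A : ℂ_[p]) * phiP N g ζ t) hA
    (fun k => ?_) hg
  obtain ⟨P, hP, -, h⟩ := ps_prim p hN k 0
  have h1 := h ζ t hζ ht0 ht
  simp only [pow_zero, mul_one] at h1
  simp only [mul_pow]
  rw [← Finset.mul_sum, h1, ev1, coe_eval₂RingHom,
    eval₂_eq_sum_range' _ (Nat.lt_succ_of_le (hP.trans_eq (add_zero k))), Finset.mul_sum]
  refine Subalgebra.sum_mem _ fun i hi => ?_
  obtain ⟨e, rfl⟩ := Nat.exists_eq_add_of_le (Nat.lt_succ_iff.1 (Finset.mem_range.1 hi))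
  have h2 : (A : ℂ_[p]) ^ (i + e) * ((Int.castRingHom ℂ_[p]) (P.coeff i) * J (t ^ N) ^ i) =
      ((A ^ e * P.coeff i : ℤ) : ℂ_[p]) * ((A : ℂ_[p]) * J (t ^ N)) ^ i := by
    simp only [eq_intCast]
    push_cast
    ring
  rw [h2]
  exact Subalgebra.mul_mem _ (Subalgebra.intCast_mem _ _)
    (Subalgebra.pow_mem _ (Algebra.self_mem_adjoin_singleton _ _) _)

/-- A root of the modular polynomial over a Tate point is a Tate point of the same class. -/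
theorem ModP.exists_param {N : ℕ} (hN : 0 < N) {Φ : ℤ[X][Y]} (h : ModP p N Φ) {x b : ℂ_[p]}
    (hx0 : x ≠ 0) (hx : ‖x‖ < 1) (hb : ev2 (J x) b Φ = 0) :
    ∃ x' : ℂ_[p], x' ≠ 0 ∧ ‖x'‖ < 1 ∧ J x' = b ∧ ∃ a d : ℕ, 0 < a ∧ 0 < d ∧ a * d = N ∧
      x' ^ d = x ^ a := by
  have : NeZero N := ⟨hN.ne'⟩
  obtain ⟨ζ, hζ⟩ := HasEnoughRootsOfUnity.exists_primitiveRoot ℂ_[p] N
  obtain ⟨t, rfl⟩ := IsAlgClosed.exists_pow_nat_eq x hN
  have ht0 : t ≠ 0 := fun h0 => hx0 (by rw [h0, zero_pow hN.ne'])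
  have ht : ‖t‖ < 1 := by
    rw [norm_pow] at hx
    exact (pow_lt_one_iff_of_nonneg (norm_nonneg t) hN.ne').1 hx
  obtain ⟨g, hg, rfl⟩ := (h.root_pa hN hζ ht0 ht b).1 hb
  obtain ⟨h1, h2, -⟩ := qg_mem hN (prim_tri hg) hζ ht0 ht
  exact ⟨qg g ζ t, h1, h2, rfl, g.1, g.2.2, (prim_pos hN hg).1, (prim_pos hN hg).2,
    ((mem_Prim hN).1 hg).1, qg_pow hN (prim_tri hg) hζ t⟩

end Pool.Agent.UAP
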