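import Pool.Agent.Lib.MP_7e5527_ag.Jf
import Pool.Agent.Lib.MP_7e5527_ag.Gen

open Polynomial UpperHalfPlane
open scoped Polynomial.Bivariate MatrixGroups IntermediateField

noncomputable section

namespace Pool.Agent.UAP

variable {p : ℕ} [Fact p.Prime]

private theorem top_sum_lt {ι : Type*} (s : Finset ι) (f : ι → ℂ_[p]) {c : ℝ} (hc : 0 < c)
    (h : ∀ i ∈ s, ‖f i‖ < c) : ‖∑ i ∈ s, f i‖ < c := by
  classical
  induction s using Finset.induction_on with
  | empty => simpa using hc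
  | insert a s ha ih =>
    rw [Finset.sum_insert ha]
    refine (IsUltrametricDist.norm_add_le_max _ _).trans_lt (max_lt ?_ ?_)
    · exact h a (Finset.mem_insert_self _ _)
    · exact ih fun i hi => h i (Finset.mem_insert_of_mem hi)

private theorem top_sum_eq {ι : Type*} (s : Finset ι) (f : ι → ℂ_[p]) {a : ι} (ha : a ∈ s)
    (h0 : 0 < ‖f a‖) (h : ∀ i ∈ s, i ≠ a → ‖f i‖ < ‖f a‖) : ‖∑ i ∈ s, f i‖ = ‖f a‖ := by
  classical
  rw [← Finset.add_sum_erase s f ha]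
  have h1 : ‖∑ i ∈ s.erase a, f i‖ < ‖f a‖ :=
    top_sum_lt _ f h0 fun i hi => h i (Finset.mem_of_mem_erase hi) (Finset.ne_of_mem_erase hi)
  rw [IsUltrametricDist.norm_add_eq_max_of_norm_ne_norm h1.ne', max_eq_left h1.le]

private theorem top_int_le (n : ℤ) : ‖(n : ℂ_[p])‖ ≤ 1 := IsUltrametricDist.norm_intCast_le_one _ n

private theorem top_int_pos {n : ℤ} (hn : n ≠ 0) : 0 < ‖(n : ℂ_[p])‖ := by
  rw [norm_pos_iff]
  exact_mod_cast hn

private theorem top_pow_lt {t A : ℝ} (ht1 : t ≤ 1) (hA : 1 < t * A) (ht : 0 < t) {i d : ℕ}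
    (h : i < d) : A ^ i < t * A ^ d := by
  have hA0 : 0 < A := by
    by_contra hc
    have : t * A ≤ 0 := mul_nonpos_of_nonneg_of_nonpos ht.le (not_lt.mp hc)
    linarith
  have hA1 : 1 ≤ A := by nlinarith
  have h1 : A ^ (i + 1) ≤ A ^ d := pow_le_pow_right₀ hA1 h
  have h2 : 0 < A ^ i := pow_pos hA0 i
  calc A ^ i = 1 * A ^ i := (one_mul _).symm
    _ < (t * A) * A ^ i := mul_lt_mul_of_pos_right hA h2
    _ = t * A ^ (i + 1) := by ring
    _ ≤ t * A ^ d := mul_le_mul_of_nonneg_left h1 ht.le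

private theorem top_one_le {t A : ℝ} (ht1 : t ≤ 1) (hA : 1 < t * A) (ht : 0 < t) : 1 ≤ A := by
  have hA0 : 0 < A := by
    by_contra hc
    have : t * A ≤ 0 := mul_nonpos_of_nonneg_of_nonpos ht.le (not_lt.mp hc)
    linarith
  nlinarith

/-- If the top coefficient is nonzero, there is no point near `(∞, ∞)`. -/
theorem no_cusp_of_top {F : ℤ[X][Y]} (h : top F ≠ 0) :
    ∃ r : ℝ, 0 < r ∧ ∀ P ∈ Crv ℂ_[p] F, ¬ (‖P.1‖ < r ∧ ‖P.2‖ < r) := by
  have ht : 0 < ‖((top F : ℤ) : ℂ_[p])‖ := top_int_pos h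
  have ht1 : ‖((top F : ℤ) : ℂ_[p])‖ ≤ 1 := top_int_le _
  refine ⟨_, ht, ?_⟩
  rintro ⟨x, y⟩ ⟨⟨hx0, hx1, hy0, hy1⟩, hz⟩ ⟨hx, hy⟩
  simp only at hx0 hx1 hy0 hy1 hz hx hy
  set t := ‖((top F : ℤ) : ℂ_[p])‖ with htdef
  have hA : 1 < t * ‖J x‖ := by
    rw [J, norm_Jn 0 hx0 hx1, ← div_eq_mul_inv, one_lt_div (norm_pos_iff.mpr hx0)]
    exact hx
  have hB : 1 < t * ‖J y‖ := by
    rw [J, norm_Jn 0 hy0 hy1, ← div_eq_mul_inv, one_lt_div (norm_pos_iff.mpr hy0)]
    exact hy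
  have hA1 := top_one_le ht1 hA ht
  have hB1 := top_one_le ht1 hB ht
  rw [ev2_eq_sum, ← Finset.sum_product'] at hz
  have hmain : ‖(((F.coeff F.natDegree).coeff (sw F).natDegree : ℤ) : ℂ_[p]) *
      J x ^ (sw F).natDegree * J y ^ F.natDegree‖
      = t * ‖J x‖ ^ (sw F).natDegree * ‖J y‖ ^ F.natDegree := by
    rw [norm_mul, norm_mul, norm_pow, norm_pow]
    rfl
  have hpos : 0 < t * ‖J x‖ ^ (sw F).natDegree * ‖J y‖ ^ F.natDegree := by positivity
  have key := top_sum_eq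
    (Finset.range (F.natDegree + 1) ×ˢ Finset.range ((sw F).natDegree + 1))
    (fun z : ℕ × ℕ => (((F.coeff z.1).coeff z.2 : ℤ) : ℂ_[p]) * J x ^ z.2 * J y ^ z.1)
    (a := (F.natDegree, (sw F).natDegree)) (by simp) (by rw [hmain]; exact hpos) (by
      rintro ⟨k, i⟩ hki hne
      simp only [Finset.mem_product, Finset.mem_range, Nat.lt_succ_iff] at hki
      obtain ⟨hk, hi⟩ := hki
      rw [hmain, norm_mul, norm_mul, norm_pow, norm_pow]
      have h1 : ‖(((F.coeff k).coeff i : ℤ) : ℂ_[p])‖ * ‖J x‖ ^ i * ‖J y‖ ^ k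
          ≤ ‖J x‖ ^ i * ‖J y‖ ^ k := by
        have := top_int_le (p := p) ((F.coeff k).coeff i)
        have h2 : 0 ≤ ‖J x‖ ^ i * ‖J y‖ ^ k := by positivity
        nlinarith
      refine h1.trans_lt ?_
      have hxa : ‖J x‖ ^ i ≤ ‖J x‖ ^ (sw F).natDegree := pow_le_pow_right₀ hA1 hi
      have hyb : ‖J y‖ ^ k ≤ ‖J y‖ ^ F.natDegree := pow_le_pow_right₀ hB1 hk
      rcases hi.lt_or_eq with hi' | hi'
      · have h3 := top_pow_lt ht1 hA ht hi'
        exact mul_lt_mul h3 hyb (by positivity) (by positivity)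
      · have hk' : k < F.natDegree := by
          refine lt_of_le_of_ne hk fun hk' => hne ?_
          rw [hk', hi']
        have h3 := top_pow_lt ht1 hB ht hk'
        rw [hi']
        have h4 : 0 < ‖J x‖ ^ (sw F).natDegree := by positivity
        calc ‖J x‖ ^ (sw F).natDegree * ‖J y‖ ^ k
            < ‖J x‖ ^ (sw F).natDegree * (t * ‖J y‖ ^ F.natDegree) :=
              mul_lt_mul_of_pos_left h3 h4
          _ = _ := by ring)
  rw [hz, norm_zero, hmain] at key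
  exact hpos.ne key

private theorem top_ev1 (α : ℂ_[p]) (Q : ℤ[X]) :
    ev1 α Q = ∑ i ∈ Finset.range (Q.natDegree + 1), ((Q.coeff i : ℤ) : ℂ_[p]) * α ^ i := by
  simp [ev1, eval₂_eq_sum_range]

private theorem top_norm_ev1 {Q : ℤ[X]} (hQ : Q ≠ 0) {α : ℂ_[p]}
    (hα : 1 < ‖((Q.leadingCoeff : ℤ) : ℂ_[p])‖ * ‖α‖) :
    ‖ev1 α Q‖ = ‖((Q.leadingCoeff : ℤ) : ℂ_[p])‖ * ‖α‖ ^ Q.natDegree := by
  have ht : 0 < ‖((Q.leadingCoeff : ℤ) : ℂ_[p])‖ := top_int_pos (leadingCoeff_ne_zero.mpr hQ)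
  have ht1 : ‖((Q.leadingCoeff : ℤ) : ℂ_[p])‖ ≤ 1 := top_int_le _
  have hA1 := top_one_le ht1 hα ht
  have hmain : ‖((Q.coeff Q.natDegree : ℤ) : ℂ_[p]) * α ^ Q.natDegree‖
      = ‖((Q.leadingCoeff : ℤ) : ℂ_[p])‖ * ‖α‖ ^ Q.natDegree := by
    rw [norm_mul, norm_pow]
    rfl
  rw [top_ev1, top_sum_eq _ (fun i => ((Q.coeff i : ℤ) : ℂ_[p]) * α ^ i) (a := Q.natDegree)
    (by simp) (by rw [hmain]; positivity) ?_, hmain]
  intro i hi hne
  have hi' : i < Q.natDegree :=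
    lt_of_le_of_ne (Nat.lt_succ_iff.mp (Finset.mem_range.mp hi)) hne
  rw [hmain, norm_mul, norm_pow]
  have h1 := top_int_le (p := p) (Q.coeff i)
  have h2 : 0 ≤ ‖α‖ ^ i := by positivity
  have h3 := top_pow_lt ht1 hα ht hi'
  nlinarith

private theorem top_coeff_prod {R : ℝ} (hR : 0 ≤ R) (s : Multiset ℂ_[p])
    (hs : ∀ b ∈ s, ‖b‖ ≤ R) (k : ℕ) :
    ‖((s.map fun b => X - C b).prod).coeff k‖ ≤ (1 + R) ^ s.card := by
  induction s using Multiset.induction_on generalizing k with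
  | empty =>
    simp only [Multiset.map_zero, Multiset.prod_zero, Multiset.card_zero, pow_zero, coeff_one]
    split_ifs <;> simp
  | cons b s ih =>
    have ih' := ih fun c hc => hs c (Multiset.mem_cons_of_mem hc)
    have hb := hs b (Multiset.mem_cons_self _ _)
    rw [Multiset.map_cons, Multiset.prod_cons, Multiset.card_cons, sub_mul, coeff_sub,
      coeff_C_mul, pow_succ]
    have h0 : 0 ≤ (1 + R) ^ s.card := by positivity
    have h1 : ‖(X * (s.map fun b => X - C b).prod).coeff k‖ ≤ (1 + R) ^ s.card := by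
      cases k with
      | zero => simp [h0]
      | succ k => rw [coeff_X_mul]; exact ih' k
    have h2 : ‖b * ((s.map fun b => X - C b).prod).coeff k‖ ≤ R * (1 + R) ^ s.card := by
      rw [norm_mul]
      exact mul_le_mul hb (ih' k) (norm_nonneg _) hR
    refine (norm_sub_le _ _).trans ?_
    linarith

/-- If the top coefficient is zero, some root is large. -/
theorem Good.large_root {F : ℤ[X][Y]} (hF : Good F) (h : top F = 0) (M : ℝ) :
    ∃ M' : ℝ, ∀ α : ℂ_[p], M' ≤ ‖α‖ → ∃ β : ℂ_[p], ev2 α β F = 0 ∧ M ≤ ‖β‖ := by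
  have hL : F.leadingCoeff ≠ 0 := leadingCoeff_ne_zero.mpr hF.ne_zero
  have hLd : F.leadingCoeff.natDegree < (sw F).natDegree := by
    refine lt_of_le_of_ne (natDegree_coeff_le F _) fun he => ?_
    apply leadingCoeff_ne_zero.mpr hL
    rw [leadingCoeff, he]
    exact h
  obtain ⟨k, hk⟩ : ∃ k, (F.coeff k).coeff (sw F).natDegree ≠ 0 := by
    by_contra hc
    push Not at hc
    apply leadingCoeff_ne_zero.mpr hF.swap.ne_zero
    ext k
    rw [leadingCoeff, coeff_sw, hc k, coeff_zero]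
  have hP : F.coeff k ≠ 0 := fun h0 => hk (by rw [h0, coeff_zero])
  have hPd : (F.coeff k).natDegree = (sw F).natDegree :=
    le_antisymm (natDegree_coeff_le F k) (le_natDegree_of_ne_zero hk)
  set tL := ‖((F.leadingCoeff.leadingCoeff : ℤ) : ℂ_[p])‖ with htL
  set tP := ‖(((F.coeff k).leadingCoeff : ℤ) : ℂ_[p])‖ with htP
  have hL0 : 0 < tL := top_int_pos (leadingCoeff_ne_zero.mpr hL)
  have hP0 : 0 < tP := top_int_pos (leadingCoeff_ne_zero.mpr hP)
  have hL1 : tL ≤ 1 := top_int_le _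
  set K := (1 + |M|) ^ F.natDegree with hK
  have hK1 : 1 ≤ K := one_le_pow₀ (by have := abs_nonneg M; linarith)
  refine ⟨max (1 / tL) (K / tP) + 1, fun α hα => ?_⟩
  have hαL : 1 < tL * ‖α‖ := by
    have : 1 / tL < ‖α‖ := by linarith [le_max_left (1 / tL) (K / tP)]
    rw [div_lt_iff₀ hL0] at this
    linarith
  have hαP : K < tP * ‖α‖ := by
    have : K / tP < ‖α‖ := by linarith [le_max_right (1 / tL) (K / tP)]
    rw [div_lt_iff₀ hP0] at this
    linarith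
  have hA1 := top_one_le hL1 hαL hL0
  have eL := top_norm_ev1 hL hαL
  have eP := top_norm_ev1 hP (hK1.trans_lt hαP)
  rw [← htL] at eL
  rw [← htP, hPd] at eP
  have hLα : ev1 α F.leadingCoeff ≠ 0 := by
    rw [← norm_pos_iff, eL]
    positivity
  have hdeg : (fib F α).natDegree = F.natDegree := natDegree_map_of_leadingCoeff_ne_zero _ hLα
  have hlc : (fib F α).leadingCoeff = ev1 α F.leadingCoeff :=
    leadingCoeff_map_of_leadingCoeff_ne_zero _ hLα
  by_contra hc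
  push Not at hc
  have hsp : (fib F α).Splits := IsAlgClosed.splits _
  have hcard : (fib F α).roots.card = F.natDegree := by
    rw [← hdeg]
    exact hsp.natDegree_eq_card_roots.symm
  have hroots : ∀ b ∈ (fib F α).roots, ‖b‖ ≤ |M| := fun b hb => by
    have h1 : (fib F α).eval b = 0 := (isRoot_of_mem_roots hb)
    rw [eval_fib] at h1
    exact (hc b h1).le.trans (le_abs_self M)
  have hb := top_coeff_prod (abs_nonneg M) _ hroots k
  rw [hcard, ← hK] at hb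
  have hco : ev1 α (F.coeff k) = ev1 α F.leadingCoeff *
      (((fib F α).roots.map fun b => X - C b).prod).coeff k := by
    rw [← hlc, ← coeff_C_mul, ← hsp.eq_prod_roots, fib, coeff_map]
  have h1 : tP * ‖α‖ ^ (sw F).natDegree ≤ tL * ‖α‖ ^ F.leadingCoeff.natDegree * K := by
    rw [← eP, ← eL, hco, norm_mul]
    exact mul_le_mul_of_nonneg_left hb (norm_nonneg _)
  have h2 : ‖α‖ ^ (F.leadingCoeff.natDegree + 1) ≤ ‖α‖ ^ (sw F).natDegree :=
    pow_le_pow_right₀ hA1 hLd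
  have h3 : 0 < ‖α‖ ^ F.leadingCoeff.natDegree := by positivity
  have h4 : tL * ‖α‖ ^ F.leadingCoeff.natDegree * K ≤ ‖α‖ ^ F.leadingCoeff.natDegree * K := by
    have : 0 ≤ ‖α‖ ^ F.leadingCoeff.natDegree * K := by positivity
    nlinarith
  have h5 : ‖α‖ ^ F.leadingCoeff.natDegree * K
      < ‖α‖ ^ F.leadingCoeff.natDegree * (tP * ‖α‖) := mul_lt_mul_of_pos_left hαP h3
  have h6 : tP * ‖α‖ ^ (F.leadingCoeff.natDegree + 1) ≤ tP * ‖α‖ ^ (sw F).natDegree :=
    mul_le_mul_of_nonneg_left h2 hP0.le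
  rw [pow_succ] at h6
  nlinarith

end Pool.Agent.UAP
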