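import Pool.Agent.Lib.MP_7e5527_ag.Cp
import Pool.Agent.Lib.MP_7e5527_ag.Top
import Pool.Agent.Lib.MP_7e5527_ag.Branch
import Pool.Agent.Lib.MP_7e5527_ag.Modp

open Polynomial UpperHalfPlane
open scoped Polynomial.Bivariate MatrixGroups IntermediateField

noncomputable section

namespace Pool.Agent.UAP

open Filter Topology

private theorem gf_pow {A B : ℝ} (hA : 0 < A) (hB : 0 < B) (k l : ℕ) :
    ∀ᶠ ε in 𝓝[>] (0 : ℝ), ∀ r : ℝ, 0 < r → r < ε → A * r ^ k = B * r ^ l → k = l := by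
  have key : ∀ {A B r : ℝ} {k l : ℕ}, 0 < B → 0 < r → r < 1 → r < A / B →
      A * r ^ k = B * r ^ l → ¬ k < l := by
    intro A B r k l hB h0 h1 h2 h hkl
    obtain ⟨e, rfl⟩ := Nat.exists_eq_add_of_lt hkl
    have h3 : A = B * (r ^ e * r) := by
      apply mul_right_cancel₀ (pow_pos h0 k).ne'
      rw [h]
      ring
    have h4 : r ^ e * r ≤ r := mul_le_of_le_one_left h0.le (pow_le_one₀ h0.le h1.le)
    rw [lt_div_iff₀ hB] at h2
    nlinarith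
  filter_upwards [Ioo_mem_nhdsGT (show (0 : ℝ) < min 1 (min (A / B) (B / A)) by positivity)]
    with ε hε r h0 h1 h
  have h2 := h1.trans hε.2
  simp only [lt_min_iff] at h2
  have := key hB h0 h2.1 h2.2.1 h
  have := key hA h0 h2.1 h2.2.2 h.symm
  omega

private theorem gf_small {E : Type*} [NormedField E] (z : E) (C : ℝ) :
    ∀ᶠ ε in 𝓝[>] (0 : ℝ), ‖z‖ ≤ C * ε → z = 0 := by
  by_cases hz : z = 0
  · exact Eventually.of_forall fun _ _ => hz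
  have h : Tendsto (fun ε : ℝ => C * ε) (𝓝[>] 0) (𝓝 0) := by
    simpa using ((tendsto_id (x := 𝓝 (0 : ℝ))).const_mul C).mono_left nhdsWithin_le_nhds
  filter_upwards [h.eventually (gt_mem_nhds (norm_pos_iff.2 hz))] with ε hε h'
  exact absurd h' (not_le.2 hε)

variable {p : ℕ} [Fact p.Prime]

private theorem gf_sub (x y : ℂ_[p]) : ‖x - y‖ ≤ max ‖x‖ ‖y‖ := by
  simpa [sub_eq_add_neg] using IsUltrametricDist.norm_add_le_max x (-y)

private theorem gf_unit {u : ℂ_[p]} (hu : ‖u - 1‖ < 1) (k : ℕ) :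
    ‖u ^ k‖ = 1 ∧ ‖u ^ k - 1‖ ≤ ‖u - 1‖ := by
  have h1 : ‖u‖ = 1 := by
    have := IsUltrametricDist.norm_add_eq_max_of_norm_ne_norm (x := u - 1) (y := 1)
      (by simpa using hu.ne)
    simpa [hu.le] using this
  refine ⟨by simp [h1], ?_⟩
  induction k with
  | zero => simp
  | succ k ih =>
    rw [show u ^ (k + 1) - 1 = u * (u ^ k - 1) + (u - 1) by ring]
    exact (IsUltrametricDist.norm_add_le_max _ _).trans (max_le (by simpa [h1] using ih) le_rfl)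

private theorem gf_norm {w c t : ℂ_[p]} {C1 : ℝ} {κ : ℕ} (ht : t ≠ 0)
    (h : ‖w - c * t ^ κ‖ ≤ C1 * ‖t‖ ^ (κ + 1)) (h' : C1 * ‖t‖ < ‖c‖) : ‖w‖ = ‖c‖ * ‖t‖ ^ κ := by
  have h1 : ‖w - c * t ^ κ‖ < ‖c * t ^ κ‖ := by
    refine h.trans_lt ?_
    rw [norm_mul, norm_pow, pow_succ', ← mul_assoc]
    exact mul_lt_mul_of_pos_right h' (pow_pos (norm_pos_iff.2 ht) _)
  have := IsUltrametricDist.norm_add_eq_max_of_norm_ne_norm h1.ne
  rwa [sub_add_cancel, max_eq_right h1.le, norm_mul, norm_pow] at this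

private theorem gf_branch (β β' : Br p) {C : ℝ} (hC : 0 ≤ C) : ∃ W : ℕ, 0 < W ∧
    ∀ m a d a' d' : ℕ, 0 < m → 0 < d → 0 < a' → 0 < d' → ∀ᶠ ε in 𝓝[>] (0 : ℝ),
      ∀ t y t' y' : ℂ_[p], BrPt β C t y → BrPt β' C t' y' → ‖t‖ < ε → ‖t'‖ < ε →
        t' ^ (m * d) = t ^ (m * a) → y' ^ d' = y ^ a' → t' ^ (β'.κ * W) = t ^ (β.κ * W) := by
  have hap : ∀ z : PadicAlgCl p, z ≠ 0 → ap p z ≠ 0 := fun z hz => (_root_.map_ne_zero _).2 hz
  have c0 := hap _ β.hc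
  have c0' := hap _ β'.hc
  have e0 := hap _ β.hc2
  have e0' := hap _ β'.hc2
  set c := ap p β.c with hc
  set c' := ap p β'.c with hc'
  set e := ap p β.c2 with he
  set e' := ap p β'.c2 with he'
  let Z : ℂ_[p] := (β'.n * β.κ * e) / (β.n * β'.κ * e')
  obtain ⟨W, hW, hZ⟩ : ∃ W : ℕ, 0 < W ∧ ∀ k : ℕ, 0 < k → Z ^ k = 1 → Z ^ W = 1 := by
    by_cases h : ∃ k : ℕ, 0 < k ∧ Z ^ k = 1
    · obtain ⟨k, h1, h2⟩ := h
      exact ⟨k, h1, fun _ _ _ => h2⟩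
    · exact ⟨1, one_pos, fun k h1 h2 => absurd ⟨k, h1, h2⟩ h⟩
  refine ⟨W, hW, fun m a d a' d' hm hd ha' hd' => ?_⟩
  obtain ⟨r1, C1, h1, -, h2, h3⟩ := branch_basic β hC
  obtain ⟨r2, C2, h4, -, h5, h6⟩ := branch_basic β' hC
  have na : (a' : ℂ_[p]) ≠ 0 := Nat.cast_ne_zero.2 ha'.ne'
  have nd : (d' : ℂ_[p]) ≠ 0 := Nat.cast_ne_zero.2 hd'.ne'
  have hp : (p : ℝ)⁻¹ < 1 := inv_lt_one_of_one_lt₀ (by exact_mod_cast (Fact.out : p.Prime).one_lt)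
  have hp0 : (0 : ℝ) ≤ (p : ℝ)⁻¹ := by positivity
  have hp2 : (p : ℝ)⁻¹ ^ 2 < 1 := pow_lt_one₀ hp0 hp two_ne_zero
  filter_upwards [Ioo_mem_nhdsGT (lt_min h1 h4),
    gf_pow (A := ‖c'‖ ^ (d' * d)) (B := ‖c‖ ^ (a' * d)) (by positivity) (by positivity)
      (β'.n * d' * a) (β.n * a' * d),
    gf_small (c' ^ (d' * (m * d)) / c ^ (a' * (m * d)) - 1) (max C1 C2),
    gf_pow (A := ‖d' * e'‖ ^ d) (B := ‖a' * e‖ ^ d)
      (pow_pos (norm_pos_iff.2 (mul_ne_zero nd e0')) _)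
      (pow_pos (norm_pos_iff.2 (mul_ne_zero na e0)) _)
      (β'.κ * a) (β.κ * d),
    (eventually_all_finset (nthRootsFinset (m * d) (1 : ℂ_[p]))).2 fun z _ =>
      gf_small (d' * e' * z - a' * e) (max C1 C2)]
    with ε k0 k1 k2 k3 k4 t y t' y' hb hb' ht ht' hx hy
  have t0 := hb.1
  have t0' := hb'.1
  have r0 := norm_pos_iff.2 t0
  obtain ⟨-, -, b1, b2, b3, b4, b5⟩ := h3 t y hb (ht.trans (k0.2.trans_le (min_le_left _ _)))
  obtain ⟨-, -, b1', b2', b3', b4', b5'⟩ :=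
    h6 t' y' hb' (ht'.trans (k0.2.trans_le (min_le_right _ _)))
  rw [← norm_ap p] at b1 b5 b1' b5'
  have m1 : C1 * ‖t‖ ≤ max C1 C2 * ε :=
    mul_le_mul (le_max_left _ _) ht.le r0.le (le_max_of_le_left h2)
  have m2 : C2 * ‖t'‖ ≤ max C1 C2 * ε :=
    mul_le_mul (le_max_right _ _) ht'.le (norm_nonneg _) (le_max_of_le_left h2)
  have n1 : ‖t'‖ ^ d = ‖t‖ ^ a := by
    have := congrArg norm hx
    rw [norm_pow, norm_pow, pow_mul', pow_mul'] at this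
    exact (pow_left_inj₀ (by positivity) (by positivity) hm.ne').1 this
  have n2 : β'.n * d' * a = β.n * a' * d := by
    refine k1 _ r0 ht ?_
    have := congrArg (fun z => ‖z‖ ^ d) hy
    simp only [norm_pow, b1, b1'] at this
    calc _ = ‖c'‖ ^ (d' * d) * (‖t‖ ^ a) ^ (β'.n * d') := by ring
      _ = ((‖c'‖ * ‖t'‖ ^ β'.n) ^ d') ^ d := by rw [← n1]; ring
      _ = _ := by rw [this]; ring
  set u := uB β t y with hu
  set u' := uB β' t' y' with hu'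
  have y1 : y = c * t ^ β.n * u := by
    rw [hu, uB, mul_div_cancel₀ _ (mul_ne_zero c0 (pow_ne_zero _ t0))]
  have y2 : y' = c' * t' ^ β'.n * u' := by
    rw [hu', uB, mul_div_cancel₀ _ (mul_ne_zero c0' (pow_ne_zero _ t0'))]
  have n3 : c' ^ (d' * (m * d)) * u' ^ (d' * (m * d)) = c ^ (a' * (m * d)) * u ^ (a' * (m * d)) := by
    apply mul_right_cancel₀ (pow_ne_zero (m * (β.n * a' * d)) t0)
    calc _ = c' ^ (d' * (m * d)) * u' ^ (d' * (m * d)) * (t ^ (m * a)) ^ (β'.n * d') := by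
          rw [← n2]; ring
      _ = (y' ^ d') ^ (m * d) := by rw [← hx, y2]; ring
      _ = _ := by rw [hy, y1]; ring
  obtain ⟨u1, u2⟩ := gf_unit (b2.trans_lt hp2) (a' * (m * d))
  obtain ⟨u1', u2'⟩ := gf_unit (b2'.trans_lt hp2) (d' * (m * d))
  have n4 : u' ^ (d' * (m * d)) = u ^ (a' * (m * d)) := by
    have h7 : c' ^ (d' * (m * d)) / c ^ (a' * (m * d)) - 1 =
        ((u ^ (a' * (m * d)) - 1) - (u' ^ (d' * (m * d)) - 1)) / u' ^ (d' * (m * d)) := by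
      have : u' ^ (d' * (m * d)) ≠ 0 := norm_pos_iff.1 (by rw [u1']; exact one_pos)
      field_simp
      linear_combination n3
    have h8 := k2 (by
      rw [h7, norm_div, u1', div_one]
      exact (gf_sub _ _).trans
        (max_le ((u2.trans b3).trans m1) ((u2'.trans b3').trans m2)))
    rw [sub_eq_zero, div_eq_one_iff_eq (pow_ne_zero _ c0)] at h8
    rw [h8] at n3
    exact mul_left_cancel₀ (pow_ne_zero _ c0) n3
  have n5 : d' * plog u' = a' * plog u := by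
    have := congrArg plog n4
    rw [plog_pow b2, plog_pow b2'] at this
    apply mul_left_cancel₀ (Nat.cast_ne_zero.2 (Nat.mul_pos hm hd).ne' : ((m * d : ℕ) : ℂ_[p]) ≠ 0)
    push_cast at this ⊢
    linear_combination this
  have n6 : β'.κ * a = β.κ * d := by
    refine k3 _ r0 ht ?_
    have := congrArg (fun z => ‖z‖ ^ d) n5
    simp only [norm_mul, gf_norm t0 b4 (b5.trans_le (mul_le_of_le_one_right (norm_nonneg _) hp.le)),
      gf_norm t0' b4' (b5'.trans_le (mul_le_of_le_one_right (norm_nonneg _) hp.le))] at this ⊢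
    calc _ = (‖(d' : ℂ_[p])‖ * ‖e'‖) ^ d * (‖t‖ ^ a) ^ β'.κ := by ring
      _ = (‖(d' : ℂ_[p])‖ * (‖e'‖ * ‖t'‖ ^ β'.κ)) ^ d := by rw [← n1]; ring
      _ = _ := by rw [this]; ring
  set z := t' ^ β'.κ / t ^ β.κ with hz
  have z1 : t' ^ β'.κ = z * t ^ β.κ := by rw [hz, div_mul_cancel₀ _ (pow_ne_zero _ t0)]
  have z2 : z ^ (m * d) = 1 := by
    rw [hz, div_pow, div_eq_one_iff_eq (by positivity)]
    calc _ = (t' ^ (m * d)) ^ β'.κ := by ring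
      _ = t ^ (m * (β'.κ * a)) := by rw [hx]; ring
      _ = _ := by rw [n6]; ring
  have z3 : ‖z‖ = 1 := (pow_eq_one_iff_of_nonneg (norm_nonneg _) (Nat.mul_pos hm hd).ne').1
    (by rw [← norm_pow, z2, norm_one])
  have z4 : d' * e' * z - a' * e = 0 := by
    refine k4 z ((mem_nthRootsFinset (Nat.mul_pos hm hd) _).2 z2) ?_
    have q0 : 0 < ‖t‖ ^ β.κ := pow_pos r0 _
    have q1 : ‖t'‖ ^ β'.κ = ‖t‖ ^ β.κ := by rw [← norm_pow, z1, norm_mul, z3, one_mul, norm_pow]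
    have h7 : (d' * e' * z - a' * e) * t ^ β.κ =
        a' * (plog u - e * t ^ β.κ) - d' * (plog u' - e' * t' ^ β'.κ) := by
      rw [z1]
      linear_combination n5
    apply le_of_mul_le_mul_right _ q0
    rw [← norm_pow, ← norm_mul, h7, norm_pow]
    refine (gf_sub _ _).trans (max_le ?_ ?_)
    · rw [norm_mul]
      refine (mul_le_of_le_one_left (norm_nonneg _) (IsUltrametricDist.norm_natCast_le_one _ _)).trans
        (b4.trans ?_)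
      rw [pow_succ', ← mul_assoc]
      exact mul_le_mul_of_nonneg_right m1 q0.le
    · rw [norm_mul]
      refine (mul_le_of_le_one_left (norm_nonneg _) (IsUltrametricDist.norm_natCast_le_one _ _)).trans
        (b4'.trans ?_)
      rw [pow_succ', ← mul_assoc, q1]
      exact mul_le_mul_of_nonneg_right m2 q0.le
  have z5 : z = Z := by
    have g1 : β'.n * d' * β.κ = β.n * a' * β'.κ := by
      apply Nat.eq_of_mul_eq_mul_right hd
      calc _ = β'.n * d' * (β.κ * d) := by ring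
        _ = β'.n * d' * a * β'.κ := by rw [← n6]; ring
        _ = _ := by rw [n2]; ring
    have g2 : (β'.n : ℂ_[p]) * d' * β.κ = β.n * a' * β'.κ := by exact_mod_cast g1
    rw [eq_div_iff (mul_ne_zero (mul_ne_zero (Nat.cast_ne_zero.2 β.hn.ne')
      (Nat.cast_ne_zero.2 β'.hκ.ne')) e0')]
    apply mul_left_cancel₀ nd
    linear_combination (β.n * β'.κ : ℂ_[p]) * z4 - e * g2
  rw [pow_mul, pow_mul, z1, mul_pow, z5, hZ _ (Nat.mul_pos hm hd) (z5 ▸ z2), one_mul]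

private theorem gf_points {F : ℤ[X][Y]} (hF : Good F) (ht : top F = 0) {N N' : ℕ} (hN : 0 < N)
    (hN' : 0 < N') {Φ1 Φ2 : ℤ[X][Y]} (h1 : ModP p N Φ1) (h2 : ModP p N' Φ2)
    (h : ∀ α : ℂ_[p], Tr α → ∃ β α2 β2 : ℂ_[p], ev2 α β F = 0 ∧ ev2 α α2 Φ1 = 0 ∧
      ev2 β β2 Φ2 = 0 ∧ ev2 α2 β2 F = 0) {ε : ℝ} (hε : 0 < ε) :
    ∃ (ζ s y y' : ℂ_[p]) (a' d' : ℕ), ∃ g ∈ Prim N, IsPrimitiveRoot ζ N ∧ s ≠ 0 ∧ ‖s‖ < 1 ∧
      (s ^ N, y) ∈ Crv ℂ_[p] F ∧ (qg g ζ s, y') ∈ Crv ℂ_[p] F ∧ ‖s ^ N‖ < ε ∧ ‖y‖ < ε ∧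
      ‖qg g ζ s‖ < ε ∧ ‖y'‖ < ε ∧ 0 < a' ∧ 0 < d' ∧ a' * d' = N' ∧ y' ^ d' = y ^ a' := by
  wlog h3 : ε < 1 generalizing ε
  · obtain ⟨ζ, s, y, y', a', d', g, b1, b2, b3, b4, b5, b6, b7, b8, b9, b10, b11⟩ :=
      this (ε := 1 / 2) (by norm_num) (by norm_num)
    have : (1 / 2 : ℝ) < ε := by linarith [not_lt.1 h3]
    exact ⟨ζ, s, y, y', a', d', g, b1, b2, b3, b4, b5, b6, b7.trans this, b8.trans this,
      b9.trans this, b10.trans this, b11⟩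
  have par : ∀ (n : ℕ) (a : ℂ_[p]), 0 < n → (ε ^ n)⁻¹ + 1 ≤ ‖a‖ →
      ∃ q : ℂ_[p], q ≠ 0 ∧ ‖q‖ < 1 ∧ J q = a ∧ ‖q‖ < ε ^ n ∧ ‖q‖ < ε := by
    intro n a hn ha
    have h4 : 0 < (ε ^ n)⁻¹ := by positivity
    obtain ⟨q, q0, q1, rfl⟩ := exists_J (a := a) (by linarith)
    have h5 : ‖q‖ < ε ^ n := by
      rw [← inv_lt_inv₀ (by positivity) (norm_pos_iff.2 q0), ← norm_Jn 0 q0 q1]
      exact (lt_add_one _).trans_le ha
    exact ⟨q, q0, q1, rfl, h5, h5.trans_le (pow_le_of_le_one hε.le h3.le hn.ne')⟩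
  obtain ⟨M', hM'⟩ := hF.large_root (p := p) ht ((ε ^ N')⁻¹ + 1)
  obtain ⟨α, hα, hM⟩ := exists_tr p (max M' ((ε ^ N)⁻¹ + 1))
  obtain ⟨β', f1, f2⟩ := hM' α (le_of_max_le_left hM)
  obtain ⟨β, α2, β2, g1, g2, g3, g4⟩ := h α hα
  obtain ⟨L, σ, l1, l2, s1, s2, hL⟩ := hF.move hα g1 f1
  have l3 := hL _ _ _ l1 (h1.fib_ne_zero hN _) g2
  have l4 := hL _ _ _ l2 (h2.fib_ne_zero hN' _) g3
  have mv : ∀ (a b : L) (Q : ℤ[X][Y]), ev2 a.1 b.1 Q = 0 → ev2 (σ a) (σ b) Q = 0 := by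
    intro a b Q hQ
    have : ev2 a b Q = 0 := L.subtype_injective (by rw [map_ev2, map_zero]; exact hQ)
    rw [← map_ev2, this, map_zero]
  have g2' := mv ⟨_, l1⟩ ⟨_, l3⟩ _ g2
  have g3' := mv ⟨_, l2⟩ ⟨_, l4⟩ _ g3
  have g4' := mv ⟨_, l3⟩ ⟨_, l4⟩ _ g4
  rw [s1] at g2'
  rw [s2] at g3'
  obtain ⟨x, x0, x1, rfl, x2, x3⟩ := par N α hN (le_of_max_le_right hM)
  obtain ⟨y, y0, y1, rfl, y2, y3⟩ := par N' β' hN' f2
  obtain ⟨s, rfl⟩ := IsAlgClosed.exists_pow_nat_eq x hN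
  have s0 : s ≠ 0 := fun e => x0 (by rw [e, zero_pow hN.ne'])
  have s3 : ‖s‖ < 1 := by
    rw [norm_pow] at x1
    exact lt_of_pow_lt_pow_left₀ N zero_le_one (by rwa [one_pow])
  have : NeZero (N : ℂ_[p]) := ⟨Nat.cast_ne_zero.2 hN.ne'⟩
  obtain ⟨ζ, hζ⟩ := HasEnoughRootsOfUnity.exists_primitiveRoot ℂ_[p] N
  obtain ⟨g, hg, e1⟩ := (h1.root_pa hN hζ s0 s3 _).1 g2'
  obtain ⟨y', z0, z1, e2, a', d', ha', hd', e3, e4⟩ := h2.exists_param hN' y0 y1 g3'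
  obtain ⟨q0, q1, -, q2⟩ := qg_mem hN (Finset.mem_filter.1 hg).1 hζ s0 s3
  rw [e1, ← e2] at g4'
  refine ⟨ζ, s, y, y', a', d', g, hg, hζ, s0, s3, ⟨⟨x0, x1, y0, y1⟩, f1⟩, ⟨⟨q0, q1, z0, z1⟩, g4'⟩,
    x3, y3, lt_of_pow_lt_pow_left₀ N hε.le (q2.trans_lt x2),
    lt_of_pow_lt_pow_left₀ N' hε.le (lt_of_le_of_lt ?_ y2), ha', hd', e3, e4⟩
  calc ‖y'‖ ^ N' ≤ ‖y'‖ ^ d' :=
        pow_le_pow_of_le_one (norm_nonneg _) z1.le (e3 ▸ Nat.le_mul_of_pos_left _ ha')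
    _ = ‖y‖ ^ a' := by rw [← norm_pow, e4, norm_pow]
    _ ≤ ‖y‖ := pow_le_of_le_one (norm_nonneg _) y1.le ha'.ne'

/-- A generic point has no Hecke partner of large primitive level on the curve. -/
theorem Good.generic_finite {F : ℤ[X][Y]} (hF : Good F) (p : ℕ) [Fact p.Prime]
    (hS : ¬ Sp (PadicAlgCl p) F) (ht : top F = 0) :
    ∃ N0 : ℕ, ∀ (N N' : ℕ) (Φ1 Φ2 : ℤ[X][Y]), N0 < N → 0 < N' → ModP p N Φ1 → ModP p N' Φ2 →
      ∃ α : ℂ_[p], Tr α ∧ ¬ ∃ β α2 β2 : ℂ_[p], ev2 α β F = 0 ∧ ev2 α α2 Φ1 = 0 ∧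
        ev2 β β2 Φ2 = 0 ∧ ev2 α2 β2 F = 0 := by
  obtain ⟨m, L, β, C, r, hc⟩ := hF.exists_cusp hS
  choose W hW hb using fun i i' => gf_branch (β i) (β i') hc.hC
  refine ⟨Finset.univ.sup fun q : Fin L × Fin L =>
    ((β q.2).κ * W q.1 q.2) * ((β q.1).κ * W q.1 q.2), fun N N' Φ1 Φ2 hN hN' h1 h2 => ?_⟩
  by_contra h
  have hN0 : 0 < N := by omega
  obtain ⟨ε, h3, h4⟩ := ((eventually_all.2 fun i => eventually_all.2 fun i' =>
    (eventually_all_finset (Finset.Icc 1 N)).2 fun a _ =>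
    (eventually_all_finset (Finset.Icc 1 N)).2 fun d hd =>
    (eventually_all_finset (Finset.Icc 1 N')).2 fun a' ha' =>
    (eventually_all_finset (Finset.Icc 1 N')).2 fun d' hd' =>
      hb i i' m a d a' d' hc.hm (Finset.mem_Icc.1 hd).1 (Finset.mem_Icc.1 ha').1
        (Finset.mem_Icc.1 hd').1).and self_mem_nhdsWithin).exists
  have h5 : 0 < ε := h4
  obtain ⟨ζ, s, y, y', a', d', g, hg, hζ, s0, s1, b1, b2, b3, b4, b5, b6, b7, b8, b9, b10⟩ :=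
    gf_points hF ht hN0 hN' h1 h2 (fun α hα => by_contra fun h' => h ⟨α, hα, h'⟩)
      (lt_min hc.hr (pow_pos h5 m))
  rw [lt_min_iff] at b3 b4 b5 b6
  obtain ⟨t, e1⟩ := IsAlgClosed.exists_pow_nat_eq (s ^ N) hc.hm
  obtain ⟨t', e2⟩ := IsAlgClosed.exists_pow_nat_eq (qg g ζ s) hc.hm
  obtain ⟨i, hi⟩ := hc.br _ b1 b3.1 b4.1 t e1
  obtain ⟨i', hi'⟩ := hc.br _ b2 b5.1 b6.1 t' e2
  have hg' := (Finset.mem_filter.1 hg).1
  have e3 : g.1 * g.2.2 = N := (Finset.mem_filter.1 hg').2.1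
  have mem : ∀ a d n : ℕ, 0 < n → a * d = n → a ∈ Finset.Icc 1 n ∧ d ∈ Finset.Icc 1 n := by
    rintro a d _ h0 rfl
    have h6 := Nat.pos_of_mul_pos_right h0
    have h7 := Nat.pos_of_mul_pos_left h0
    simp only [Finset.mem_Icc]
    exact ⟨⟨by omega, Nat.le_mul_of_pos_right _ (by omega)⟩, by omega,
      Nat.le_mul_of_pos_left _ (by omega)⟩
  have e4 := h3 i i' _ (mem _ _ _ hN0 e3).1 _ (mem _ _ _ hN0 e3).2 _ (mem _ _ _ hN' b9).1 _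
    (mem _ _ _ hN' b9).2 t y t' y' hi hi'
    (lt_of_pow_lt_pow_left₀ m h5.le (by rw [← norm_pow, e1]; exact b3.2))
    (lt_of_pow_lt_pow_left₀ m h5.le (by rw [← norm_pow, e2]; exact b5.2))
    (by rw [pow_mul, pow_mul, e1, e2, qg_pow hN0 hg' hζ]) b10
  have e5 := level_le hN0 hg hζ s0 s1 (Nat.mul_pos (β i').hκ (hW i i'))
    (n' := (β i).κ * W i i') (by rw [← e1, ← e2, ← pow_mul, ← pow_mul, pow_mul', e4, pow_mul' t m])
  exact absurd (e5.trans (Finset.le_sup (f := fun q : Fin L × Fin L =>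
    ((β q.2).κ * W q.1 q.2) * ((β q.1).κ * W q.1 q.2)) (Finset.mem_univ (i, i')))) (not_le.2 hN)

end Pool.Agent.UAP
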