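import Pool.Agent.Lib.MP_7e5527_ag.Coset

open Polynomial UpperHalfPlane
open scoped Polynomial.Bivariate MatrixGroups IntermediateField

noncomputable section

namespace Pool.Agent.UAP

open scoped ModularForm

/-- The integer matrix of a triple. -/
private def heckeMat (g : ℕ × ℕ × ℕ) : Matrix (Fin 2) (Fin 2) ℤ :=
  !![(g.1 : ℤ), (g.2.1 : ℤ); 0, (g.2.2 : ℤ)]

/-- The real invertible matrix of a triple. -/
private def heckeGL (g : ℕ × ℕ × ℕ) : GL (Fin 2) ℝ :=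
  if h : ((heckeMat g).map (Int.castRingHom ℝ)).det ≠ 0 then
    Matrix.GeneralLinearGroup.mkOfDetNeZero _ h else 1

private theorem hecke_det_map (g : ℕ × ℕ × ℕ) :
    ((heckeMat g).map (Int.castRingHom ℝ)).det = ((g.1 * g.2.2 : ℕ) : ℝ) := by
  simp [heckeMat, Matrix.det_fin_two]

private theorem hecke_val {N : ℕ} (hN : 0 < N) {g : ℕ × ℕ × ℕ} (hg : g ∈ Tri N) :
    (heckeGL g : Matrix (Fin 2) (Fin 2) ℝ) = (heckeMat g).map (Int.castRingHom ℝ) := by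
  have h : ((heckeMat g).map (Int.castRingHom ℝ)).det ≠ 0 := by
    rw [hecke_det_map, ((mem_Tri hN).1 hg).1]
    exact_mod_cast hN.ne'
  rw [heckeGL, dif_pos h]
  rfl

private theorem hecke_det {N : ℕ} (hN : 0 < N) {g : ℕ × ℕ × ℕ} (hg : g ∈ Tri N) :
    (heckeGL g).det.val = (N : ℝ) := by
  rw [Matrix.GeneralLinearGroup.val_det_apply, hecke_val hN hg, hecke_det_map,
    ((mem_Tri hN).1 hg).1]

private theorem hecke_pos {N : ℕ} (hN : 0 < N) {g : ℕ × ℕ × ℕ} (hg : g ∈ Tri N) :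
    0 < g.1 ∧ 0 < g.2.2 := by
  have h := ((mem_Tri hN).1 hg).1
  constructor
  · rcases Nat.eq_zero_or_pos g.1 with h0 | h0
    · rw [h0] at h; omega
    · exact h0
  · rcases Nat.eq_zero_or_pos g.2.2 with h0 | h0
    · rw [h0] at h; omega
    · exact h0

private theorem hecke_denom {N : ℕ} (hN : 0 < N) {g : ℕ × ℕ × ℕ} (hg : g ∈ Tri N) (z : ℂ) :
    denom (heckeGL g) z = (g.2.2 : ℂ) := by
  simp [denom, hecke_val hN hg, heckeMat]

private theorem hecke_num {N : ℕ} (hN : 0 < N) {g : ℕ × ℕ × ℕ} (hg : g ∈ Tri N) (z : ℂ) :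
    num (heckeGL g) z = (g.1 : ℂ) * z + g.2.1 := by
  simp [num, hecke_val hN hg, heckeMat]

private theorem hecke_smul {N : ℕ} (hN : 0 < N) {g : ℕ × ℕ × ℕ} (hg : g ∈ Tri N) (τ : ℍ) :
    heckeGL g • τ = aff g τ := by
  have hd : 0 < (heckeGL g).det.val := by
    rw [hecke_det hN hg]; exact_mod_cast hN
  apply UpperHalfPlane.ext
  rw [coe_smul_of_det_pos hd, hecke_denom hN hg, hecke_num hN hg,
    coe_aff (hecke_pos hN hg).1 (hecke_pos hN hg).2]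

private theorem hecke_slash_apply {N : ℕ} (hN : 0 < N) {g : ℕ × ℕ × ℕ} (hg : g ∈ Tri N) (k : ℕ)
    (f : ℍ → ℂ) (τ : ℍ) :
    (N : ℂ) * (f ∣[(k : ℤ)] heckeGL g) τ = (g.1 : ℂ) ^ k * f (aff g τ) := by
  have hd : 0 < (heckeGL g).det.val := by
    rw [hecke_det hN hg]; exact_mod_cast hN
  have hσ : ∀ z : ℂ, σ (heckeGL g) z = z := by
    intro z
    rw [σ, if_pos hd]
    rfl
  have hN' : (N : ℂ) ≠ 0 := by exact_mod_cast hN.ne'
  have hd' : (g.2.2 : ℂ) ≠ 0 := by exact_mod_cast (hecke_pos hN hg).2.ne'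
  have hmul : (N : ℂ) = (g.1 : ℂ) * g.2.2 := by
    rw [← ((mem_Tri hN).1 hg).1]; push_cast; ring
  rw [ModularForm.slash_apply, hσ, hecke_smul hN hg, hecke_denom hN hg, hecke_det hN hg,
    Nat.abs_cast, Complex.ofReal_natCast, zpow_sub₀ hN', zpow_neg, zpow_natCast, zpow_natCast,
    zpow_one]
  have h1 : (N : ℂ) ^ k = (g.1 : ℂ) ^ k * (g.2.2 : ℂ) ^ k := by rw [hmul, mul_pow]
  rw [h1]
  field_simp

private theorem hecke_next {N : ℕ} (hN : 0 < N) (γ : SL(2, ℤ)) {g : ℕ × ℕ × ℕ} (hg : g ∈ Tri N) :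
    ∃ g' ∈ Tri N, ∃ δ : SL(2, ℤ), (δ : Matrix (Fin 2) (Fin 2) ℤ) *
      (heckeMat g * (γ : Matrix (Fin 2) (Fin 2) ℤ)) = heckeMat g' := by
  have hdet : (heckeMat g * (γ : Matrix (Fin 2) (Fin 2) ℤ)).det = N := by
    rw [Matrix.det_mul, γ.det_coe, mul_one, ← ((mem_Tri hN).1 hg).1]
    simp [heckeMat, Matrix.det_fin_two]
  obtain ⟨δ, g', hg', h⟩ := exists_reduce hN _ hdet
  exact ⟨g', hg', δ, h⟩

private theorem hecke_GL_eq {N : ℕ} (hN : 0 < N) {γ δ : SL(2, ℤ)} {g g' : ℕ × ℕ × ℕ}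
    (hg : g ∈ Tri N) (hg' : g' ∈ Tri N) (h : (δ : Matrix (Fin 2) (Fin 2) ℤ) *
      (heckeMat g * (γ : Matrix (Fin 2) (Fin 2) ℤ)) = heckeMat g') :
    Matrix.SpecialLinearGroup.mapGL ℝ δ * (heckeGL g * Matrix.SpecialLinearGroup.mapGL ℝ γ) =
      heckeGL g' := by
  apply Units.ext
  rw [Units.val_mul, Units.val_mul, hecke_val hN hg, hecke_val hN hg', ← h, Matrix.map_mul,
    Matrix.map_mul]
  rfl

private theorem hecke_inj {N : ℕ} (hN : 0 < N) {γ δ δ' : SL(2, ℤ)} {g g' : ℕ × ℕ × ℕ}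
    (hg : g ∈ Tri N) (hg' : g' ∈ Tri N) (h : (δ : Matrix (Fin 2) (Fin 2) ℤ) *
      (heckeMat g * (γ : Matrix (Fin 2) (Fin 2) ℤ)) = (δ' : Matrix (Fin 2) (Fin 2) ℤ) *
      (heckeMat g' * (γ : Matrix (Fin 2) (Fin 2) ℤ))) : g = g' := by
  refine reduce_unique hN hg hg' (δ'⁻¹ * δ) ?_
  change ((δ'⁻¹ * δ : SL(2, ℤ)) : Matrix (Fin 2) (Fin 2) ℤ) * heckeMat g = heckeMat g'
  have e1 : (γ : Matrix (Fin 2) (Fin 2) ℤ) * ((γ⁻¹ : SL(2, ℤ)) : Matrix (Fin 2) (Fin 2) ℤ) = 1 := by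
    rw [← Matrix.SpecialLinearGroup.coe_mul, mul_inv_cancel, Matrix.SpecialLinearGroup.coe_one]
  have e2 : ((δ'⁻¹ : SL(2, ℤ)) : Matrix (Fin 2) (Fin 2) ℤ) * (δ' : Matrix (Fin 2) (Fin 2) ℤ) = 1 := by
    rw [← Matrix.SpecialLinearGroup.coe_mul, inv_mul_cancel, Matrix.SpecialLinearGroup.coe_one]
  have h2 := congrArg (fun A => ((δ'⁻¹ : SL(2, ℤ)) : Matrix (Fin 2) (Fin 2) ℤ) * A *
    ((γ⁻¹ : SL(2, ℤ)) : Matrix (Fin 2) (Fin 2) ℤ)) h
  simp only [Matrix.mul_assoc, e1, Matrix.mul_one] at h2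
  rw [← Matrix.mul_assoc _ (δ' : Matrix (Fin 2) (Fin 2) ℤ), e2, Matrix.one_mul] at h2
  rw [Matrix.SpecialLinearGroup.coe_mul, Matrix.mul_assoc]
  exact h2

private theorem hecke_sum_slash {N : ℕ} (hN : 0 < N) (k : ℤ) (f : ModularForm 𝒮ℒ k)
    (γ : SL(2, ℤ)) :
    (∑ g ∈ Tri N, (f : ℍ → ℂ) ∣[k] heckeGL g) ∣[k] Matrix.SpecialLinearGroup.mapGL ℝ γ =
      ∑ g ∈ Tri N, (f : ℍ → ℂ) ∣[k] heckeGL g := by
  classical
  rw [SlashAction.sum_slash]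
  choose! nx hnx δ hδ using fun g (hg : g ∈ Tri N) => hecke_next hN γ hg
  have hinj : Set.InjOn nx (Tri N : Set (ℕ × ℕ × ℕ)) := by
    intro g hg g' hg' h
    refine hecke_inj hN (γ := γ) (δ := δ g) (δ' := δ g') hg hg' ?_
    rw [hδ g hg, hδ g' hg', h]
  have hsurj : Set.SurjOn nx (Tri N : Set (ℕ × ℕ × ℕ)) (Tri N : Set (ℕ × ℕ × ℕ)) :=
    Finset.surjOn_of_injOn_of_card_le nx (fun g hg => hnx g hg) hinj le_rfl
  refine Finset.sum_nbij nx hnx hinj hsurj fun g hg => ?_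
  have hf : (f : ℍ → ℂ) ∣[k] Matrix.SpecialLinearGroup.mapGL ℝ (δ g) = f :=
    SlashInvariantFormClass.slash_action_eq f _ (MonoidHom.mem_range.2 ⟨δ g, rfl⟩)
  rw [← hecke_GL_eq hN hg (hnx g hg) (hδ g hg), SlashAction.slash_mul, SlashAction.slash_mul, hf]

/-- The Hecke operator preserves modular forms of level one. -/
theorem exists_hecke {N : ℕ} (hN : 0 < N) (k : ℕ) (f : ModularForm 𝒮ℒ (k : ℤ)) :
    ∃ f' : ModularForm 𝒮ℒ (k : ℤ), ∀ τ : ℍ, f' τ = ∑ g ∈ Tri N, (g.1 : ℂ) ^ k * f (aff g τ) := by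
  classical
  have hb : IsBoundedAtImInfty (∑ g ∈ Tri N, (f : ℍ → ℂ) ∣[(k : ℤ)] heckeGL g) := by
    refine (boundedAtImInftySubalgebra ℂ).sum_mem fun g hg => ?_
    refine IsBoundedAtImInfty.slash _ ?_ (ModularFormClass.bdd_at_infty f)
    simp [hecke_val hN hg, heckeMat]
  let F : ModularForm 𝒮ℒ (k : ℤ) :=
    { toFun := ∑ g ∈ Tri N, (f : ℍ → ℂ) ∣[(k : ℤ)] heckeGL g
      slash_action_eq' := by
        rintro _ ⟨γ, rfl⟩
        exact hecke_sum_slash hN _ f γ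
      holo' := MDifferentiable.sum fun g _ => (ModularFormClass.holo f).slash _ _
      bdd_at_cusps' := by
        intro c hc
        rw [OnePoint.isBoundedAt_iff_forall_SL2Z hc]
        intro γ _
        have h := hecke_sum_slash hN _ f γ
        change IsBoundedAtImInfty ((∑ g ∈ Tri N, (f : ℍ → ℂ) ∣[(k : ℤ)] heckeGL g) ∣[(k : ℤ)]
          Matrix.SpecialLinearGroup.mapGL ℝ γ)
        rw [h]
        exact hb }
  refine ⟨(N : ℂ) • F, fun τ => ?_⟩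
  change (N : ℂ) * (∑ g ∈ Tri N, (f : ℍ → ℂ) ∣[(k : ℤ)] heckeGL g) τ = _
  rw [Finset.sum_apply, Finset.mul_sum]
  exact Finset.sum_congr rfl fun g hg => hecke_slash_apply hN hg k f τ

end Pool.Agent.UAP
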