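import Pool.Agent.Lib.MP_7e5527_ag.Quant

open Polynomial UpperHalfPlane
open scoped Polynomial.Bivariate MatrixGroups IntermediateField

noncomputable section

namespace Pool.Agent.UAP

section aux

variable {p : ℕ} [Fact p.Prime]

theorem quant2_mono {N : ℕ} {W : (PowerSeries ℤ_[p])[X]} {Q Q' : ℂ_[p] × ℂ_[p] → Prop}
    (h : Cov N W Q) (hQ : ∀ P ∈ Bi ℂ_[p], Q P → Q' P) : Cov N W Q' := by
  refine Set.Finite.subset h ?_
  rintro X0 ⟨h1, h2⟩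
  refine ⟨h1, fun ⟨Y0, h3, h4, h5⟩ => h2 ⟨Y0, h3, h4, hQ _ h4 h5⟩⟩

theorem quant2_comb {f g : ℂ_[p] × ℂ_[p] → ℂ_[p]} {P : ℂ_[p] × ℂ_[p]} {a b a' b' : ℂ_[p]}
    (hf : HasFDerivAt f (lin2 P.1 P.2 a b) P) (hg : HasFDerivAt g (lin2 P.1 P.2 a' b') P)
    (c d : ℂ_[p]) : HasFDerivAt (fun P => c * f P + d * g P)
      (lin2 P.1 P.2 (c * a + d * a') (c * b + d * b')) P := by
  have h : lin2 P.1 P.2 (c * a + d * a') (c * b + d * b') =
      c • lin2 P.1 P.2 a b + d • lin2 P.1 P.2 a' b' := by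
    ext <;> simp [lin2] <;> ring
  rw [h]
  exact (hf.const_mul c).add (hg.const_mul d)

theorem quant2_evI_X {X0 : ℂ_[p]} (hX : ‖X0‖ < 1) : evI (zp p) X0 PowerSeries.X = X0 := by
  have h := evI_coe (zp p) (fun r => by rw [norm_zp]; exact r.norm_le_one) hX X
  simpa using h

theorem quant2_count {α β : Type*} {S : Set α} {Z : Set β} (π : α → β) {n0 n : ℕ}
    (hZ : Z.encard ≤ n0) (hS : ∀ P ∈ S, π P ∈ Z)
    (hfib : ∀ x ∈ Z, {P ∈ S | π P = x}.encard ≤ n) : S.encard ≤ (n0 * n : ℕ) := by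
  classical
  have hZf : Z.Finite := Set.finite_of_encard_le_coe hZ
  have hSf : S.Finite := by
    refine (hZf.biUnion fun x hx => Set.finite_of_encard_le_coe (hfib x hx)).subset ?_
    intro P hP
    exact Set.mem_biUnion (hS P hP) ⟨hP, rfl⟩
  lift S to Finset α using hSf
  lift Z to Finset β using hZf
  rw [Set.encard_coe_eq_coe_finsetCard, Nat.cast_le] at hZ ⊢
  refine (Finset.card_le_mul_card_image_of_maps_to (f := π) (t := Z) hS n fun x hx => ?_).trans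
    (by rw [mul_comm]; exact Nat.mul_le_mul_right n hZ)
  have h := hfib x hx
  rw [← Nat.cast_le (α := ℕ∞), ← Set.encard_coe_eq_coe_finsetCard]
  simpa using h

/-- The binomial equation holds on no component. -/
theorem quant2_not_cov {F : ℤ[X][Y]} (hF : Good F) (hN : ¬ toQ F ∣ toQ (Nq F)) {N : ℕ}
    {W : (PowerSeries ℤ_[p])[X]} (hW : Wei p (garr F) N W) {a1 b1 a2 b2 : ℕ}
    (hδ : (a1, b1) ≠ (a2, b2)) (γ : ℂ_[p]) :
    ¬ Cov N W fun P => ev2 (J P.1) (J P.2) F = 0 ∧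
      1 * (P.1 ^ a1 * P.2 ^ b1) + -γ * (P.1 ^ a2 * P.2 ^ b2) = 0 := by
  intro h
  have hU := hW.finite_bad hF.ne_zero
  have hf : ∀ P ∈ Bi ℂ_[p], HasFDerivAt (fun P : ℂ_[p] × ℂ_[p] => ev2 (J P.1) (J P.2) F)
      (lin2 P.1 P.2 (-bH F P.1 P.2) (aH F P.1 P.2)) P := fun P hP => by
    have h1 := hasFDerivAt_ev2J F hP
    simpa [aH, bH, pA, pB] using h1
  have h1 := Cov.jacobian hW.monic hW.small hU _ _ _ _ _ _ hf
    (fun P hP => quant2_comb (hasFDerivAt_monomial a1 b1 hP) (hasFDerivAt_monomial a2 b2 hP) 1 (-γ))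
    h
  have h2 : Cov N W fun P => ev2 (J P.1) (J P.2) F = 0 ∧
      ((a1 : ℂ_[p]) - a2) * aH F P.1 P.2 + ((b1 : ℂ_[p]) - b2) * bH F P.1 P.2 = 0 := by
    refine quant2_mono h1 fun P hP ⟨e1, e2, e3⟩ => ⟨e1, ?_⟩
    apply mul_left_cancel₀ (mul_ne_zero (pow_ne_zero a1 hP.1) (pow_ne_zero b1 hP.2.2.1))
    linear_combination -e3 - (a2 * aH F P.1 P.2 + b2 * bH F P.1 P.2) * e2
  choose! u1 u2 v1 v2 hu hv huv using fun P (hP : P ∈ Bi ℂ_[p]) => hasFDerivAt_aH_bH F hP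
  have h3 := Cov.jacobian hW.monic hW.small hU _ _ _ _ _ _ hf
    (fun P hP => quant2_comb (hu P hP) (hv P hP) ((a1 : ℂ_[p]) - a2) ((b1 : ℂ_[p]) - b2)) h2
  refine hF.not_cov_kap hN hW (quant2_mono h3 fun P hP ⟨_, e2, e3⟩ => ?_)
  have e4 := huv P hP
  by_cases ha : a1 = a2
  · have hb : (b1 : ℂ_[p]) - b2 ≠ 0 := fun hb =>
      hδ (by rw [ha, Nat.cast_injective (sub_eq_zero.1 hb)])
    rw [ha, sub_self] at e2 e3
    apply mul_left_cancel₀ hb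
    linear_combination ((b1 : ℂ_[p]) - b2) * e4 + aH F P.1 P.2 * e3
      + (aH F P.1 P.2 * u1 P + bH F P.1 P.2 * u2 P) * e2
  · have ha' : (a1 : ℂ_[p]) - a2 ≠ 0 := fun hb => ha (Nat.cast_injective (sub_eq_zero.1 hb))
    apply mul_left_cancel₀ ha'
    linear_combination ((a1 : ℂ_[p]) - a2) * e4 - bH F P.1 P.2 * e3
      - (aH F P.1 P.2 * v1 P + bH F P.1 P.2 * v2 P) * e2

/-- The resultant of `W` and `r1 - Γ r2`. -/
theorem quant2_res {W : (PowerSeries ℤ_[p])[X]} (hW : W.Monic) (r1 r2 : (PowerSeries ℤ_[p])[X]) :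
    ∃ (m : ℕ) (r : Fin m → PowerSeries ℤ_[p]), ∀ γ X0 : ℂ_[p],
      ∑ i : Fin m, γ ^ (i : ℕ) * evI (zp p) X0 (r i) = 0 ↔
        ∃ Y0, (fibW W X0).IsRoot Y0 ∧ (fibW r1 X0).eval Y0 = γ * (fibW r2 X0).eval Y0 := by
  obtain ⟨G, hG⟩ : ∃ G : (PowerSeries ℤ_[p])[X][X], G = r1.map C - C X * r2.map C := ⟨_, rfl⟩
  obtain ⟨R, hR⟩ : ∃ R, R = resultant (W.map C) G W.natDegree G.natDegree := ⟨_, rfl⟩
  refine ⟨R.natDegree + 1, fun i => R.coeff i, fun γ X0 => ?_⟩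
  have hc : (eval₂RingHom (evI (zp p) X0) γ).comp C = evI (zp p) X0 := by
    ext a
    simp
  have hm : (fibW W X0).Monic := hW.map _
  have hd : (fibW W X0).natDegree = W.natDegree := hW.natDegree_map _
  have h1 : ∑ i : Fin (R.natDegree + 1), γ ^ (i : ℕ) * evI (zp p) X0 (R.coeff i) =
      eval₂RingHom (evI (zp p) X0) γ R := by
    rw [coe_eval₂RingHom, eval₂_eq_sum_range, Finset.sum_range]
    exact Finset.sum_congr rfl fun i _ => mul_comm _ _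
  have h2 : ∀ Y0, (G.map (eval₂RingHom (evI (zp p) X0) γ)).eval Y0 =
      (fibW r1 X0).eval Y0 - γ * (fibW r2 X0).eval Y0 := fun Y0 => by
    rw [hG, Polynomial.map_sub, Polynomial.map_mul, map_map, map_map, hc, map_C]
    simp [fibW]
  rw [h1, hR, ← resultant_map_map, map_map, hc, ← hd]
  change resultant (fibW W X0) _ _ _ = 0 ↔ _
  rw [resultant_eq_prod_eval _ _ _ natDegree_map_le (IsAlgClosed.splits _), hm.leadingCoeff,
    one_pow, one_mul, Multiset.prod_eq_zero_iff, Multiset.mem_map]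
  refine exists_congr fun Y0 => ?_
  rw [mem_roots hm.ne_zero, h2, sub_eq_zero]

end aux

/-- Uniform bound for the intersection with the cosets of a subtorus. -/
theorem Good.q2 {F : ℤ[X][Y]} (hF : Good F) (hN : ¬ toQ F ∣ toQ (Nq F)) (p : ℕ) [Fact p.Prime]
    {δ : (ℕ × ℕ) × (ℕ × ℕ)} (hδ : δ.1 ≠ δ.2) :
    ∃ B : ℕ, ∀ γ : ℂ_[p], {P ∈ Crv ℂ_[p] F |
      P.1 ^ δ.1.1 * P.2 ^ δ.1.2 = γ * (P.1 ^ δ.2.1 * P.2 ^ δ.2.2)}.encard ≤ B := by
  obtain ⟨⟨a1, b1⟩, a2, b2⟩ := δ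
  obtain ⟨N, W, hW⟩ := exists_wei p (garr_ne_zero hF.ne_zero)
  obtain ⟨m, r, hr⟩ := quant2_res hW.monic ((C PowerSeries.X + X ^ N) ^ a1 * X ^ b1)
    ((C PowerSeries.X + X ^ N) ^ a2 * X ^ b2)
  have hev : ∀ (a b : ℕ) (X0 Y0 : ℂ_[p]), ‖X0‖ < 1 →
      (fibW ((C PowerSeries.X + X ^ N) ^ a * X ^ b) X0).eval Y0 = (X0 + Y0 ^ N) ^ a * Y0 ^ b :=
    fun a b X0 Y0 hX => by simp [fibW, quant2_evI_X hX]
  obtain ⟨n0, hn0⟩ := exists_uniform_zeros r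
  refine ⟨n0 * W.natDegree, fun γ => ?_⟩
  have hne : ∃ X0 : ℂ_[p], ‖X0‖ < 1 ∧ ∑ i : Fin m, γ ^ (i : ℕ) * evI (zp p) X0 (r i) ≠ 0 := by
    by_contra hc
    push Not at hc
    refine quant2_not_cov hF hN hW hδ γ ((hW.finite_bad hF.ne_zero).subset ?_)
    rintro X0 ⟨h1, h2⟩
    obtain ⟨Y0, h3, h4⟩ := (hr γ X0).1 (hc X0 h1)
    refine ⟨h1, Y0, h3, fun h5 => h2 ⟨Y0, h3, h5, ?_, ?_⟩⟩
    · exact ((mem_Crv_iff F h5).2 ((hW.zero X0 Y0 h1 (hW.small X0 Y0 h1 h3)).2 h3)).2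
    · rw [hev _ _ _ _ h1, hev _ _ _ _ h1] at h4
      linear_combination h4
  have hroot : ∀ P ∈ Crv ℂ_[p] F, ‖P.1 - P.2 ^ N‖ < 1 ∧ (fibW W (P.1 - P.2 ^ N)).IsRoot P.2 := by
    intro P hP
    have h1 : ‖P.1 - P.2 ^ N‖ < 1 := by
      rw [sub_eq_add_neg]
      refine (IsUltrametricDist.norm_add_le_max _ _).trans_lt (max_lt hP.1.2.1 ?_)
      rw [norm_neg, norm_pow]
      exact pow_lt_one₀ (norm_nonneg _) hP.1.2.2.2 hW.pos.ne'
    refine ⟨h1, (hW.zero _ _ h1 hP.1.2.2.2).1 ?_⟩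
    rw [sub_add_cancel]
    exact (mem_Crv_iff F hP.1).1 hP
  refine quant2_count (fun P => P.1 - P.2 ^ N) (hn0 _ hne) ?_ ?_
  · rintro P ⟨hP, h⟩
    obtain ⟨h1, h2⟩ := hroot P hP
    refine ⟨h1, (hr γ _).2 ⟨P.2, h2, ?_⟩⟩
    rw [hev _ _ _ _ h1, hev _ _ _ _ h1, sub_add_cancel]
    exact h
  · intro X0 _
    have hm : (fibW W X0).Monic := hW.monic.map _
    have hd : (fibW W X0).natDegree = W.natDegree := hW.monic.natDegree_map _
    classical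
    refine (Set.encard_le_encard_of_injOn (f := Prod.snd)
      (t := ((fibW W X0).roots.toFinset : Set ℂ_[p])) ?_ ?_).trans ?_
    · rintro P ⟨⟨hP, -⟩, rfl⟩
      exact Finset.mem_coe.2 (Multiset.mem_toFinset.2 ((mem_roots hm.ne_zero).2 (hroot P hP).2))
    · rintro P ⟨-, h1⟩ P' ⟨-, h2⟩ h
      refine Prod.ext ?_ h
      have h3 : P.1 - P.2 ^ N = P'.1 - P'.2 ^ N := h1.trans h2.symm
      rw [h] at h3
      exact sub_left_injective h3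
    · rw [Set.encard_coe_eq_coe_finsetCard, Nat.cast_le, ← hd]
      exact (Multiset.toFinset_card_le _).trans (card_roots' _)

end Pool.Agent.UAP
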