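import Pool.Agent.Lib.MP_7e5527_ag.Gal2
import Pool.Agent.Lib.MP_7e5527_ag.Quant2
import Pool.Agent.Lib.MP_7e5527_ag.Dick

open Polynomial UpperHalfPlane
open scoped Polynomial.Bivariate MatrixGroups IntermediateField

noncomputable section

namespace Pool.Agent.UAP

/-- Inertia acts through roots of unity of bounded order. -/
theorem Good.inertia {F : ℤ[X][Y]} (hF : Good F) (hN : ¬ toQ F ∣ toQ (Nq F)) (p : ℕ)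
    [Fact p.Prime] : ∃ M : ℕ, 0 < M ∧ ∀ (σ : ℂ_[p] →+* ℂ_[p]) (P : ℂ_[p] × ℂ_[p]) (s r : ℕ),
      Iso σ → P ∈ Crv ℂ_[p] F → ¬ p ∣ r → σ (P.1 ^ (p ^ s * r)) = P.1 ^ (p ^ s * r) →
      σ (P.2 ^ (p ^ s * r)) = P.2 ^ (p ^ s * r) → (∀ ξ : ℂ_[p], ξ ^ p ^ 2 = 1 → σ ξ = ξ) →
      (∀ ω : ℂ_[p], ω ^ r = 1 → σ ω = ω) → σ (P.1 ^ M) = P.1 ^ M ∧ σ (P.2 ^ M) = P.2 ^ M := by
  obtain ⟨Δ, hΔ, hD⟩ := dickson p (garr_ne_zero hF.ne_zero)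
  have hq := fun (δ : (ℕ × ℕ) × (ℕ × ℕ)) (hδ : δ ∈ Δ) => hF.q2 hN p (hΔ δ hδ)
  choose! B hB using hq
  refine ⟨(Δ.sup B).factorial, Nat.factorial_pos _, ?_⟩
  rintro σ ⟨x, y⟩ s r hσ hP hr hx hy hp hω
  have hx0 : x ≠ 0 := hP.1.1
  have hy0 : y ≠ 0 := hP.1.2.2.1
  obtain ⟨ζ1, h1⟩ : ∃ ζ1, σ x = ζ1 * x := ⟨σ x / x, (div_mul_cancel₀ _ hx0).symm⟩
  obtain ⟨ζ2, h2⟩ : ∃ ζ2, σ y = ζ2 * y := ⟨σ y / y, (div_mul_cancel₀ _ hy0).symm⟩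
  have hr0 : r ≠ 0 := fun h => hr (h ▸ dvd_zero p)
  have hn : 0 < p ^ s * r :=
    Nat.mul_pos (pow_pos (Fact.out : p.Prime).pos s) (Nat.pos_of_ne_zero hr0)
  have z1 : ζ1 ^ (p ^ s * r) = 1 := by
    simp only [map_pow, h1, mul_pow] at hx
    exact (mul_eq_right₀ (pow_ne_zero _ hx0)).1 hx
  have z2 : ζ2 ^ (p ^ s * r) = 1 := by
    simp only [map_pow, h2, mul_pow] at hy
    exact (mul_eq_right₀ (pow_ne_zero _ hy0)).1 hy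
  have hQ : ∀ e : ℕ, (ζ1 ^ e * x, ζ2 ^ e * y) ∈ Crv ℂ_[p] F := fun e => by
    obtain ⟨k, k1, k2⟩ := orbit_full hr z1 z2 h1 h2 hp hω e
    have := (hσ.iterate k).map_Crv hP
    rwa [k1, k2] at this
  obtain ⟨δ, hδ, hζ⟩ := hD (x, y) hP.1 ζ1 ζ2 _ hn z1 z2 fun e =>
    (mem_Crv_iff F (hQ e).1).1 (hQ e)
  have hS := (hB δ hδ (x ^ δ.1.1 * y ^ δ.1.2 / (x ^ δ.2.1 * y ^ δ.2.2))).trans
    (Nat.cast_le.2 (Finset.le_sup (f := B) hδ))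
  have hmem : ∀ e : ℕ, (ζ1 ^ e * x, ζ2 ^ e * y) ∈ {P ∈ Crv ℂ_[p] F |
      P.1 ^ δ.1.1 * P.2 ^ δ.1.2 = x ^ δ.1.1 * y ^ δ.1.2 / (x ^ δ.2.1 * y ^ δ.2.2) *
        (P.1 ^ δ.2.1 * P.2 ^ δ.2.2)} := fun e => by
    refine ⟨hQ e, ?_⟩
    have e1 : (ζ1 ^ e * x) ^ δ.1.1 * (ζ2 ^ e * y) ^ δ.1.2 =
        (ζ1 ^ δ.1.1 * ζ2 ^ δ.1.2) ^ e * (x ^ δ.1.1 * y ^ δ.1.2) := by ring
    have e2 : (ζ1 ^ e * x) ^ δ.2.1 * (ζ2 ^ e * y) ^ δ.2.2 =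
        (ζ1 ^ δ.2.1 * ζ2 ^ δ.2.2) ^ e * (x ^ δ.2.1 * y ^ δ.2.2) := by ring
    simp only [e1, e2, hζ]
    field_simp
  have hex : ∃ e : ℕ, 0 < e ∧ e ≤ Δ.sup B ∧ ζ1 ^ e = 1 ∧ ζ2 ^ e = 1 := by
    by_contra hne
    have hz1 : ζ1 ≠ 0 := fun h => by simp [h, hn.ne'] at z1
    have hz2 : ζ2 ≠ 0 := fun h => by simp [h, hn.ne'] at z2
    have key : ∀ e e' : ℕ, e < e' → e' ≤ Δ.sup B →
        (ζ1 ^ e * x, ζ2 ^ e * y) ≠ (ζ1 ^ e' * x, ζ2 ^ e' * y) := fun e e' hlt hle h => by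
      obtain ⟨c, rfl⟩ := Nat.exists_eq_add_of_le hlt.le
      rw [Prod.mk.injEq, mul_left_inj' hx0, mul_left_inj' hy0, pow_add, pow_add,
        left_eq_mul₀ (pow_ne_zero _ hz1), left_eq_mul₀ (pow_ne_zero _ hz2)] at h
      exact hne ⟨c, by omega, by omega, h.1, h.2⟩
    have hinj : Set.InjOn (fun e : ℕ => (ζ1 ^ e * x, ζ2 ^ e * y))
        (Finset.range (Δ.sup B + 1) : Set ℕ) := fun e he e' he' h => by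
      have he1 : e < Δ.sup B + 1 := by simpa using he
      have he2 : e' < Δ.sup B + 1 := by simpa using he'
      rcases lt_trichotomy e e' with hlt | heq | hlt
      · exact absurd h (key e e' hlt (by omega))
      · exact heq
      · exact absurd h.symm (key e' e hlt (by omega))
    have := (Set.encard_le_encard_of_injOn (fun e _ => hmem e) hinj).trans hS
    rw [Set.encard_coe_eq_coe_finsetCard, Finset.card_range, Nat.cast_le] at this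
    omega
  obtain ⟨e, he0, he, e1, e2⟩ := hex
  obtain ⟨c, hc⟩ := Nat.dvd_factorial he0 he
  constructor
  · simp only [map_pow, h1, mul_pow]
    rw [hc, pow_mul ζ1, e1, one_pow, one_mul]
  · simp only [map_pow, h2, mul_pow]
    rw [hc, pow_mul ζ2, e2, one_pow, one_mul]

/-- The norms of the points lie in a fixed discrete group. -/
theorem Good.norm_discrete {F : ℤ[X][Y]} (hF : Good F) (hN : ¬ toQ F ∣ toQ (Nq F)) (p : ℕ)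
    [Fact p.Prime] (D : ℕ) : ∃ E0 : ℕ, 0 < E0 ∧
      ∀ (K : IntermediateField ℚ_[p] ℂ_[p]) [FiniteDimensional ℚ_[p] K],
        Module.finrank ℚ_[p] K ≤ D → ∀ x0 ∈ K, ∀ y0 ∈ K, ∀ P ∈ Pts F x0 y0,
          (∃ k : ℤ, ‖P.1‖ ^ E0 = (p : ℝ) ^ k) ∧ ∃ k : ℤ, ‖P.2‖ ^ E0 = (p : ℝ) ^ k := by
  obtain ⟨M, hM, hin⟩ := hF.inertia hN p
  refine ⟨M * (D * p ^ 2).factorial, Nat.mul_pos hM (Nat.factorial_pos _), ?_⟩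
  intro K _ hK x0 hx0 y0 hy0 P hP
  have hp0 : 0 < p := (Fact.out : p.Prime).pos
  have hp2 : 0 < p ^ 2 := pow_pos hp0 2
  have hz1 : NeZero (p ^ 2) := ⟨hp2.ne'⟩
  obtain ⟨ζ, hζ⟩ := HasEnoughRootsOfUnity.exists_primitiveRoot ℂ_[p] (p ^ 2)
  have hf1 := finiteDimensional_sup_root K hp2 hζ.pow_eq_one
  have hK' := (finrank_sup_root_le K hp2 hζ.pow_eq_one).trans (Nat.mul_le_mul_right _ hK)
  obtain ⟨n1, hn1, h1⟩ := hP.2.1.exists_pow_mem hx0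
  obtain ⟨n2, hn2, h2⟩ := hP.2.2.exists_pow_mem hy0
  obtain ⟨s, r, hr, hn⟩ := Nat.exists_eq_pow_mul_and_not_dvd (Nat.mul_pos hn1 hn2).ne' p
    (Fact.out : p.Prime).ne_one
  have hr0 : 0 < r := Nat.pos_of_ne_zero fun h => hr (h ▸ dvd_zero p)
  have hz2 : NeZero r := ⟨hr0.ne'⟩
  obtain ⟨ω, hω⟩ := HasEnoughRootsOfUnity.exists_primitiveRoot ℂ_[p] r
  have hf2 := finiteDimensional_sup_root (K ⊔ ℚ_[p]⟮ζ⟯) hr0 hω.pow_eq_one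
  have hKL : K ≤ (K ⊔ ℚ_[p]⟮ζ⟯) ⊔ ℚ_[p]⟮ω⟯ := le_sup_left.trans le_sup_left
  have hζL : ζ ∈ (K ⊔ ℚ_[p]⟮ζ⟯) ⊔ ℚ_[p]⟮ω⟯ :=
    (le_sup_right.trans le_sup_left : ℚ_[p]⟮ζ⟯ ≤ (K ⊔ ℚ_[p]⟮ζ⟯) ⊔ ℚ_[p]⟮ω⟯)
      (IntermediateField.mem_adjoin_simple_self _ ζ)
  have hωL : ω ∈ (K ⊔ ℚ_[p]⟮ζ⟯) ⊔ ℚ_[p]⟮ω⟯ :=
    (le_sup_right : ℚ_[p]⟮ω⟯ ≤ (K ⊔ ℚ_[p]⟮ζ⟯) ⊔ ℚ_[p]⟮ω⟯)
      (IntermediateField.mem_adjoin_simple_self _ ω)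
  have g1 : P.1 ^ (p ^ s * r) ∈ (K ⊔ ℚ_[p]⟮ζ⟯) ⊔ ℚ_[p]⟮ω⟯ := by
    rw [← hn, pow_mul]
    exact hKL (pow_mem h1 n2)
  have g2 : P.2 ^ (p ^ s * r) ∈ (K ⊔ ℚ_[p]⟮ζ⟯) ⊔ ℚ_[p]⟮ω⟯ := by
    rw [← hn, mul_comm, pow_mul]
    exact hKL (pow_mem h2 n1)
  have hfix : ∀ σ : ℂ_[p] →+* ℂ_[p], Iso σ → (∀ a ∈ (K ⊔ ℚ_[p]⟮ζ⟯) ⊔ ℚ_[p]⟮ω⟯, σ a = a) →
      σ (P.1 ^ M) = P.1 ^ M ∧ σ (P.2 ^ M) = P.2 ^ M := fun σ hσ hL => by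
    refine hin σ P s r hσ hP.1 hr (hL _ g1) (hL _ g2) (fun ξ hξ => ?_) fun ξ hξ => ?_
    · obtain ⟨i, -, rfl⟩ := hζ.eq_pow_of_pow_eq_one hξ
      exact hL _ (pow_mem hζL i)
    · obtain ⟨i, -, rfl⟩ := hω.eq_pow_of_pow_eq_one hξ
      exact hL _ (pow_mem hωL i)
  have hpos : 0 < p ^ s * r := Nat.mul_pos (pow_pos hp0 s) hr0
  have m1 : P.1 ^ M ∈ (K ⊔ ℚ_[p]⟮ζ⟯) ⊔ ℚ_[p]⟮ω⟯ := by
    refine mem_of_fixed _ hpos ?_ fun σ hσ hL => (hfix σ hσ hL).1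
    rw [← pow_mul, mul_comm, pow_mul]
    exact pow_mem g1 M
  have m2 : P.2 ^ M ∈ (K ⊔ ℚ_[p]⟮ζ⟯) ⊔ ℚ_[p]⟮ω⟯ := by
    refine mem_of_fixed _ hpos ?_ fun σ hσ hL => (hfix σ hσ hL).2
    rw [← pow_mul, mul_comm, pow_mul]
    exact pow_mem g2 M
  constructor
  · obtain ⟨k, hk⟩ := norm_pow_factorial_unram _ hK' hr hω m1 (pow_ne_zero _ hP.1.1.1)
    exact ⟨k, by rw [pow_mul, ← norm_pow, hk]⟩
  · obtain ⟨k, hk⟩ := norm_pow_factorial_unram _ hK' hr hω m2 (pow_ne_zero _ hP.1.1.2.2.1)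
    exact ⟨k, by rw [pow_mul, ← norm_pow, hk]⟩

end Pool.Agent.UAP
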