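import Pool.Agent.Lib.MP_7e5527_ag.Jf
import Pool.Agent.Lib.MP_7e5527_ag.Gen

open Polynomial UpperHalfPlane
open scoped Polynomial.Bivariate

noncomputable section

namespace Pool.Agent.UAP

private theorem jet_dX_sub (F G : ℤ[X][Y]) : dX (F - G) = dX F - dX G := by
  rw [sub_eq_add_neg, dX_add, dX_neg, sub_eq_add_neg]

private theorem jet_del_mul (F f g : ℤ[X][Y]) :
    del F (f * g) = del F f * g + f * del F g := by
  unfold del
  rw [dX_mul, derivative_mul]
  ring

private theorem jet_del_sub (F f g : ℤ[X][Y]) : del F (f - g) = del F f - del F g := by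
  unfold del
  rw [jet_dX_sub, derivative_sub]
  ring

private theorem jet_ev_del {A : Type*} [CommRing A] (x y : A) (F f : ℤ[X][Y]) :
    ev2 x y (pA F) * ev2 x y (dX f) + ev2 x y (pB F) * ev2 x y (derivative f) =
      ev2 x y (del F f) := by
  unfold del
  simp only [map_add, map_mul]

private theorem jet_ind {M : ℤ[X][Y] → Prop} (hc : ∀ n : ℤ, M (C (C n))) (hx : M (C X))
    (hy : M Y) (ha : ∀ f g, M f → M g → M (f + g)) (hm : ∀ f g, M f → M g → M (f * g))
    (Q : ℤ[X][Y]) : M Q := by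
  have hC : ∀ P : ℤ[X], M (C P) := by
    intro P
    induction P using Polynomial.induction_on with
    | C a => exact hc a
    | add p q hp hq => rw [C_add]; exact ha _ _ hp hq
    | monomial n a h => rw [pow_succ, ← mul_assoc, C_mul]; exact hm _ _ h hx
  induction Q using Polynomial.induction_on with
  | C a => exact hC a
  | add p q hp hq => exact ha _ _ hp hq
  | monomial n a h => rw [pow_succ, ← mul_assoc]; exact hm _ _ h hy

private theorem jet_ev_CC {A : Type*} [CommRing A] (x y : A) (n : ℤ) :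
    ev2 x y (C (C n)) = (n : A) := by
  rw [ev2_C]
  simp [ev1]

/-- The algebraic identity behind the Ax-Schanuel step. -/
theorem jet_identity {E : Type*} [Field E] [CharZero E] (F : ℤ[X][Y])
    {j1 u1 w1 z1 j2 u2 w2 z2 : E} (hu1 : u1 ≠ 0) (hu2 : u2 ≠ 0)
    (hA : ev2 j1 j2 (pA F) ≠ 0) (hB : ev2 j1 j2 (pB F) ≠ 0)
    (hk : kap F j1 u1 w1 j2 u2 w2 = 0)
    (hH : ev2 j1 j2 (pA F) * u2 * kap1 F j1 u1 w1 z1 j2 u2 w2
      + ev2 j1 j2 (pB F) * u1 * kap2 F j1 u1 w1 j2 u2 w2 z2 = 0) :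
    u1 ^ 4 * u2 ^ 4 * ev2 j1 j2 (Nq F) =
      ev2 j1 j2 (pA F) ^ 4 * ev2 j1 j2 (pB F) ^ 2 * j2 ^ 2 * (j2 - 1728) ^ 2 * u2 ^ 4
          * ode j1 u1 w1 z1
        - ev2 j1 j2 (pA F) ^ 2 * ev2 j1 j2 (pB F) ^ 4 * j1 ^ 2 * (j1 - 1728) ^ 2 * u1 ^ 4
          * ode j2 u2 w2 z2 := by
  have hK := jet_ev_del j1 j2 F (pK F)
  have h1 := jet_ev_del j1 j2 F (pA F ^ 2 * pB F)
  have h2 := jet_ev_del j1 j2 F (pB F ^ 2 * pA F)
  have eK : ev2 j1 j2 (pK F) = ev2 j1 j2 (pB F) * ev2 j1 j2 (del F (pA F))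
      - ev2 j1 j2 (pA F) * ev2 j1 j2 (del F (pB F)) := by
    unfold pK
    simp only [map_sub, map_mul]
  have dK : del F (pK F) = pB F * del F (del F (pA F)) - pA F * del F (del F (pB F)) := by
    unfold pK
    rw [jet_del_sub, jet_del_mul, jet_del_mul]
    ring
  have d1 : del F (pA F ^ 2 * pB F) =
      2 * pA F * pB F * del F (pA F) + pA F ^ 2 * del F (pB F) := by
    rw [sq, jet_del_mul, jet_del_mul]
    ring
  have d2 : del F (pB F ^ 2 * pA F) =
      2 * pA F * pB F * del F (pB F) + pB F ^ 2 * del F (pA F) := by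
    rw [sq, jet_del_mul, jet_del_mul]
    ring
  rw [dK] at hK
  rw [d1] at h1
  rw [d2] at h2
  unfold kap at hk
  unfold kap1 kap2 at hH
  unfold Nq ode
  rw [eK] at hk hH
  simp only [map_add, map_sub, map_mul, map_pow, map_ofNat, ev2_CX, ev2_Y] at hK h1 h2 hk hH ⊢
  generalize ev2 j1 j2 (dX (pK F)) = Kx at *
  generalize ev2 j1 j2 (derivative (pK F)) = Ky at *
  generalize ev2 j1 j2 (dX (pA F ^ 2 * pB F)) = Mx at *
  generalize ev2 j1 j2 (derivative (pA F ^ 2 * pB F)) = My at *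
  generalize ev2 j1 j2 (dX (pB F ^ 2 * pA F)) = Nx at *
  generalize ev2 j1 j2 (derivative (pB F ^ 2 * pA F)) = Ny at *
  generalize ev2 j1 j2 (del F (del F (pA F))) = ddA at *
  generalize ev2 j1 j2 (del F (del F (pB F))) = ddB at *
  generalize ev2 j1 j2 (del F (pA F)) = dA at *
  generalize ev2 j1 j2 (del F (pB F)) = dB at *
  generalize ev2 j1 j2 (pA F) = A at *
  generalize ev2 j1 j2 (pB F) = B at *
  have hH' : u1 ^ 3 * u2 ^ 3 * (B * ddA - A * ddB) - 3 * A ^ 2 * dB * u1 * u2 ^ 3 * w1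
      + 3 * B ^ 2 * dA * u1 ^ 3 * u2 * w2 - A ^ 3 * B * u2 ^ 3 * z1
      + A * B ^ 3 * u1 ^ 3 * z2 = 0 := by
    linear_combination hH - u1 ^ 3 * u2 ^ 3 * hK + u1 * u2 ^ 3 * w1 * h1
      - u1 ^ 3 * u2 * w2 * h2
  have key : u1 ^ 4 * u2 ^ 4 * (B ^ 2 * (2 * A * ddA - 3 * dA ^ 2)
      - A ^ 2 * (2 * B * ddB - 3 * dB ^ 2)) =
      A ^ 4 * B ^ 2 * u2 ^ 4 * (2 * z1 * u1 - 3 * w1 ^ 2)
        - A ^ 2 * B ^ 4 * u1 ^ 4 * (2 * z2 * u2 - 3 * w2 ^ 2) := by
    linear_combination 2 * A * B * u1 * u2 * hH' - 3 * (A * dB * u1 ^ 2 * u2 ^ 2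
      + A ^ 2 * B * u2 ^ 2 * w1 + B * dA * u1 ^ 2 * u2 ^ 2 + A * B ^ 2 * u1 ^ 2 * w2) * hk
  generalize j1 - 1728 = k1
  generalize j2 - 1728 = k2
  generalize j1 ^ 2 - 1968 * j1 + 2654208 = R1
  generalize j2 ^ 2 - 1968 * j2 + 2654208 = R2
  linear_combination j1 ^ 2 * k1 ^ 2 * j2 ^ 2 * k2 ^ 2 * key

theorem deriv_ev2 {A : Type*} [CommRing A] (D : A →+ A)
    (hD : ∀ a b, D (a * b) = a * D b + b * D a) (j1 j2 : A) (Q : ℤ[X][Y]) :
    D (ev2 j1 j2 Q) = ev2 j1 j2 (dX Q) * D j1 + ev2 j1 j2 (derivative Q) * D j2 := by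
  have h1 : D 1 = 0 := by
    have := hD 1 1
    simp only [mul_one, one_mul] at this
    exact left_eq_add.mp this
  induction Q using jet_ind with
  | hc n =>
    rw [jet_ev_CC, dX_C, derivative_C, derivative_C, C_0, map_zero, ← zsmul_one, map_zsmul, h1]
    simp
  | hx =>
    rw [ev2_CX, dX_C, derivative_C, derivative_X, C_1, map_one, map_zero]
    simp
  | hy =>
    rw [ev2_Y, dX_Y, derivative_X, map_one, map_zero]
    simp
  | ha f g hf hg =>
    rw [map_add, map_add, hf, hg, dX_add, derivative_add, map_add, map_add]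
    ring
  | hm f g hf hg =>
    rw [map_mul, hD, hf, hg, dX_mul, derivative_mul]
    simp only [map_add, map_mul]
    ring

/-- Jets of a point of the curve in a differential ring. -/
theorem jet_of_derivation {A : Type*} [CommRing A] (D : A →+ A)
    (hD : ∀ a b, D (a * b) = a * D b + b * D a) (F : ℤ[X][Y]) {j1 j2 : A}
    (h : ev2 j1 j2 F = 0) :
    ev2 j1 j2 (pA F) * D j2 = ev2 j1 j2 (pB F) * D j1 ∧
    kap F j1 (D j1) (D (D j1)) j2 (D j2) (D (D j2)) = 0 ∧
    ev2 j1 j2 (pA F) * D j2 * kap1 F j1 (D j1) (D (D j1)) (D (D (D j1))) j2 (D j2) (D (D j2))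
      + ev2 j1 j2 (pB F) * D j1 *
        kap2 F j1 (D j1) (D (D j1)) j2 (D j2) (D (D j2)) (D (D (D j2))) = 0 := by
  have e1 : ev2 j1 j2 (pA F) * D j2 = ev2 j1 j2 (pB F) * D j1 := by
    have := deriv_ev2 D hD j1 j2 F
    rw [h, map_zero] at this
    unfold pA pB
    rw [map_neg]
    linear_combination -this
  have e2 := congrArg D e1
  rw [hD, hD, deriv_ev2 D hD, deriv_ev2 D hD] at e2
  have e3 : kap F j1 (D j1) (D (D j1)) j2 (D j2) (D (D j2)) = 0 := by
    unfold kap pK del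
    simp only [map_add, map_sub, map_mul, map_pow]
    generalize ev2 j1 j2 (dX (pA F)) = Ax at *
    generalize ev2 j1 j2 (derivative (pA F)) = Ay at *
    generalize ev2 j1 j2 (dX (pB F)) = Bx at *
    generalize ev2 j1 j2 (derivative (pB F)) = By at *
    generalize ev2 j1 j2 (pA F) = a at *
    generalize ev2 j1 j2 (pB F) = b at *
    generalize D (D j1) = w1 at *
    generalize D (D j2) = w2 at *
    generalize D j1 = u1 at *
    generalize D j2 = u2 at *
    linear_combination (a * u2) ^ 2 * e2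
      - (u1 * u2 * (a * u2) * Ax + u2 ^ 2 * (a * u2 + b * u1) * Ay - u1 * u2 * (a * u2) * By
        + (a * u2 + b * u1) * a * w2) * e1
  refine ⟨e1, e3, ?_⟩
  have e4 : D (kap F j1 (D j1) (D (D j1)) j2 (D j2) (D (D j2))) =
      kap1 F j1 (D j1) (D (D j1)) (D (D (D j1))) j2 (D j2) (D (D j2))
        + kap2 F j1 (D j1) (D (D j1)) j2 (D j2) (D (D j2)) (D (D (D j2))) := by
    unfold kap kap1 kap2
    generalize pK F = K
    generalize pA F ^ 2 * pB F = M
    generalize pB F ^ 2 * pA F = N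
    simp only [sq, map_add, map_sub, hD, deriv_ev2 D hD]
    ring
  rw [e3, map_zero] at e4
  rw [← e1, ← mul_add, ← e4, mul_zero]

section ultra

variable {E : Type*} [NontriviallyNormedField E] [IsUltrametricDist E] [CompleteSpace E]

/-- `f` has logarithmic derivatives `a`, `b` at `P`. -/
private def jetTh (P : E × E) (f : E × E → E) (a b : E) : Prop :=
  HasFDerivAt f (lin2 P.1 P.2 a b) P

omit [IsUltrametricDist E] [CompleteSpace E] in
private theorem jetTh.congr {P : E × E} {f : E × E → E} {a b a' b' : E} (h : jetTh P f a b)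
    (ha : a = a') (hb : b = b') : jetTh P f a' b' := ha ▸ hb ▸ h

omit [IsUltrametricDist E] [CompleteSpace E] in
private theorem jetTh_const (P : E × E) (c : E) : jetTh P (fun _ => c) 0 0 := by
  unfold jetTh
  refine (hasFDerivAt_const (𝕜 := E) c P).congr_fderiv ?_
  ext <;> simp [lin2]

omit [IsUltrametricDist E] [CompleteSpace E] in
private theorem jetTh.add {P : E × E} {f g : E × E → E} {a b c d : E} (h : jetTh P f a b)
    (h' : jetTh P g c d) : jetTh P (fun Q => f Q + g Q) (a + c) (b + d) := by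
  unfold jetTh at *
  refine (h.fun_add h').congr_fderiv ?_
  ext <;> simp [lin2, add_div]

omit [IsUltrametricDist E] [CompleteSpace E] in
private theorem jetTh.sub {P : E × E} {f g : E × E → E} {a b c d : E} (h : jetTh P f a b)
    (h' : jetTh P g c d) : jetTh P (fun Q => f Q - g Q) (a - c) (b - d) := by
  unfold jetTh at *
  refine (h.fun_sub h').congr_fderiv ?_
  ext <;> simp [lin2, sub_div]

omit [IsUltrametricDist E] [CompleteSpace E] in
private theorem jetTh.mul {P : E × E} {f g : E × E → E} {a b c d : E} (h : jetTh P f a b)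
    (h' : jetTh P g c d) :
    jetTh P (fun Q => f Q * g Q) (a * g P + f P * c) (b * g P + f P * d) := by
  unfold jetTh at *
  refine (h.fun_mul h').congr_fderiv ?_
  ext <;> simp [lin2] <;> ring

omit [IsUltrametricDist E] [CompleteSpace E] in
private theorem jetTh.sq {P : E × E} {f : E × E → E} {a b : E} (h : jetTh P f a b) :
    jetTh P (fun Q => f Q ^ 2) (2 * f P * a) (2 * f P * b) := by
  simp only [pow_two]
  exact (h.mul h).congr (by ring) (by ring)

omit [IsUltrametricDist E] [CompleteSpace E] in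
private theorem jetTh_fst {P : E × E} {f : E → E} {a : E} (h : HasDerivAt f (a / P.1) P.1) :
    jetTh P (fun Q => f Q.1) a 0 := by
  unfold jetTh
  refine (h.hasFDerivAt.comp P hasFDerivAt_fst).congr_fderiv ?_
  ext <;> simp [lin2]

omit [IsUltrametricDist E] [CompleteSpace E] in
private theorem jetTh_snd {P : E × E} {f : E → E} {a : E} (h : HasDerivAt f (a / P.2) P.2) :
    jetTh P (fun Q => f Q.2) 0 a := by
  unfold jetTh
  refine (h.hasFDerivAt.comp P hasFDerivAt_snd).congr_fderiv ?_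
  ext <;> simp [lin2]

private theorem jetTh_Jn1 (k : ℕ) {P : E × E} (hP : P ∈ Bi E) :
    jetTh P (fun Q => Jn k Q.1) (Jn (k + 1) P.1) 0 :=
  jetTh_fst (hasDerivAt_Jn k hP.1 hP.2.1)

private theorem jetTh_Jn2 (k : ℕ) {P : E × E} (hP : P ∈ Bi E) :
    jetTh P (fun Q => Jn k Q.2) 0 (Jn (k + 1) P.2) :=
  jetTh_snd (hasDerivAt_Jn k hP.2.2.1 hP.2.2.2)

omit [IsUltrametricDist E] [CompleteSpace E] in
private theorem jet_hasDerivAt_pow (a : ℕ) {x : E} (hx : x ≠ 0) :
    HasDerivAt (fun x : E => x ^ a) (a * x ^ a / x) x := by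
  refine (hasDerivAt_pow a x).congr_deriv ?_
  cases a with
  | zero => simp
  | succ n =>
    rw [Nat.add_sub_cancel, pow_succ]
    field_simp

theorem isOpen_Bi : IsOpen (Bi E) := by
  have h1 : IsOpen {P : E × E | P.1 ≠ 0} := isOpen_ne_fun continuous_fst continuous_const
  have h2 : IsOpen {P : E × E | ‖P.1‖ < 1} := isOpen_lt (by fun_prop) continuous_const
  have h3 : IsOpen {P : E × E | P.2 ≠ 0} := isOpen_ne_fun continuous_snd continuous_const
  have h4 : IsOpen {P : E × E | ‖P.2‖ < 1} := isOpen_lt (by fun_prop) continuous_const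
  exact h1.inter (h2.inter (h3.inter h4))

theorem hasFDerivAt_ev2J (Q : ℤ[X][Y]) {P : E × E} (hP : P ∈ Bi E) :
    HasFDerivAt (fun P : E × E => ev2 (J P.1) (J P.2) Q)
      (lin2 P.1 P.2 (ev2 (J P.1) (J P.2) (dX Q) * Jn 1 P.1)
        (ev2 (J P.1) (J P.2) (derivative Q) * Jn 1 P.2)) P := by
  change jetTh P _ _ _
  induction Q using jet_ind with
  | hc n =>
    simp only [jet_ev_CC, dX_C, derivative_C, C_0, map_zero, zero_mul]
    exact jetTh_const P _
  | hx =>
    simp only [ev2_CX, dX_C, derivative_C, derivative_X, C_1, map_one, map_zero, zero_mul,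
      one_mul]
    exact jetTh_Jn1 0 hP
  | hy =>
    simp only [ev2_Y, dX_Y, derivative_X, map_one, map_zero, zero_mul, one_mul]
    exact jetTh_Jn2 0 hP
  | ha f g hf hg =>
    simp only [map_add, dX_add]
    exact (hf.add hg).congr (by ring) (by ring)
  | hm f g hf hg =>
    simp only [map_add, map_mul, dX_mul, derivative_mul]
    exact (hf.mul hg).congr (by ring) (by ring)

theorem hasFDerivAt_kapJ (F : ℤ[X][Y]) {P : E × E} (hP : P ∈ Bi E) :
    HasFDerivAt (fun P : E × E => kapJ F P.1 P.2)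
      (lin2 P.1 P.2 (kapJ1 F P.1 P.2) (kapJ2 F P.1 P.2)) P := by
  change jetTh P _ _ _
  have hK : jetTh P _ _ _ := hasFDerivAt_ev2J (pK F) hP
  have hM : jetTh P _ _ _ := hasFDerivAt_ev2J (pA F ^ 2 * pB F) hP
  have hN : jetTh P _ _ _ := hasFDerivAt_ev2J (pB F ^ 2 * pA F) hP
  have u1 := jetTh_Jn1 1 hP
  have u2 := jetTh_Jn2 1 hP
  have w1 := jetTh_Jn1 2 hP
  have w2 := jetTh_Jn2 2 hP
  unfold kapJ kapJ1 kapJ2 kap kap1 kap2
  refine (((((u1.mul u2).sq.mul hK).sub ((hM.mul u2.sq).mul w1)).add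
    ((hN.mul u1.sq).mul w2))).congr ?_ ?_
  · norm_num only
    ring
  · norm_num only
    ring

theorem hasFDerivAt_aH_bH (F : ℤ[X][Y]) {P : E × E} (hP : P ∈ Bi E) :
    ∃ a1 a2 b1 b2 : E,
      HasFDerivAt (fun P : E × E => aH F P.1 P.2) (lin2 P.1 P.2 a1 a2) P ∧
      HasFDerivAt (fun P : E × E => bH F P.1 P.2) (lin2 P.1 P.2 b1 b2) P ∧
      aH F P.1 P.2 * (aH F P.1 P.2 * b1 + bH F P.1 P.2 * b2)
        - bH F P.1 P.2 * (aH F P.1 P.2 * a1 + bH F P.1 P.2 * a2) = -kapJ F P.1 P.2 := by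
  have hA : jetTh P _ _ _ := hasFDerivAt_ev2J (pA F) hP
  have hB : jetTh P _ _ _ := hasFDerivAt_ev2J (pB F) hP
  refine ⟨_, _, _, _, hA.mul (jetTh_Jn2 1 hP), hB.mul (jetTh_Jn1 1 hP), ?_⟩
  unfold aH bH kapJ kap pK del
  simp only [map_add, map_sub, map_mul, map_pow]
  norm_num only
  ring

theorem hasFDerivAt_monomial (a b : ℕ) {P : E × E} (hP : P ∈ Bi E) :
    HasFDerivAt (fun P : E × E => P.1 ^ a * P.2 ^ b)
      (lin2 P.1 P.2 (a * (P.1 ^ a * P.2 ^ b)) (b * (P.1 ^ a * P.2 ^ b))) P := by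
  change jetTh P _ _ _
  exact ((jetTh_fst (jet_hasDerivAt_pow a hP.1)).mul
    (jetTh_snd (jet_hasDerivAt_pow b hP.2.2.1))).congr (by ring) (by ring)

end ultra

end Pool.Agent.UAP
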