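import Pool.Agent.Lib.MP_7e5527_ag.Bglob
import Pool.Agent.Lib.MP_7e5527_ag.Top

open Polynomial UpperHalfPlane
open scoped Polynomial.Bivariate MatrixGroups IntermediateField

noncomputable section

namespace Pool.Agent.UAP

private lemma loc_biUnion {ι α : Type*} (s : Set ι) (f : ι → Set α) (a b : ℕ) (hs : s.encard ≤ a)
    (hf : ∀ i ∈ s, (f i).encard ≤ b) : (⋃ i ∈ s, f i).encard ≤ (a * b : ℕ) := by
  have hfin : s.Finite := Set.finite_of_encard_le_coe hs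
  have key : (⋃ i ∈ s, f i).encard ≤ s.encard * b := by
    clear hs
    induction s, hfin using Set.Finite.induction_on with
    | empty => simp
    | @insert x s hx _ ih =>
      rw [Set.biUnion_insert, Set.encard_insert_of_notMem hx, add_mul, one_mul]
      refine le_trans (Set.encard_union_le _ _) ?_
      rw [add_comm]
      exact add_le_add (ih fun i hi => hf i (Set.mem_insert_of_mem _ hi))
        (hf x (Set.mem_insert _ _))
  refine key.trans ?_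
  push_cast
  gcongr

private lemma loc_roots {E : Type*} [Field E] {k : ℕ} (hk : 0 < k) (a : E) :
    {t : E | t ^ k = a}.encard ≤ k := by
  classical
  have h : {t : E | t ^ k = a} = ↑(nthRoots k a).toFinset := by
    ext t
    simp [mem_nthRoots hk]
  rw [h, Set.encard_coe_eq_coe_finsetCard]
  exact_mod_cast (Multiset.toFinset_card_le _).trans (card_nthRoots k a)

private lemma loc_pos {ι : Type*} [Fintype ι] (f : ι → ℝ) (hf : ∀ i, 0 < f i) :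
    ∃ r : ℝ, 0 < r ∧ ∀ i, r ≤ f i := by
  classical
  refine ⟨(insert 1 (Finset.univ.image f)).min' (Finset.insert_nonempty _ _), ?_, fun i => ?_⟩
  · rw [Finset.lt_min'_iff]
    intro y hy
    rcases Finset.mem_insert.1 hy with rfl | hy
    · exact one_pos
    · obtain ⟨i, -, rfl⟩ := Finset.mem_image.1 hy
      exact hf i
  · exact Finset.min'_le _ _ (Finset.mem_insert_of_mem (Finset.mem_image_of_mem _ (Finset.mem_univ i)))

private lemma loc_mono {c C x : ℕ} (h : c ≤ C) (hx : 0 < x) : c * x ^ c ≤ C * x ^ C :=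
  Nat.mul_le_mul h (Nat.pow_le_pow_right hx h)

private lemma loc_branch {F : ℤ[X][Y]} (hF : Good F) (p : ℕ) [Fact p.Prime]
    (hS : ¬ Sp (PadicAlgCl p) F) (ht : top F = 0) (D : ℕ) (β : Br p) {C : ℝ} (hC : 0 ≤ C) {m : ℕ}
    (hm : 0 < m) : ∃ (r1 : ℝ) (B : ℕ), 0 < r1 ∧
      ∀ (K : IntermediateField ℚ_[p] ℂ_[p]) [FiniteDimensional ℚ_[p] K],
        Module.finrank ℚ_[p] K ≤ D → ap p β.c ∈ K → ap p β.c2 ∈ K → ∀ x0 ∈ K, ∀ y0 ∈ K,
          x0 ≠ 0 → ‖x0‖ < 1 →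
          {t : ℂ_[p] | ∃ y, (t, y) ∈ BP β C r1 x0 y0 ∧ (t ^ m, y) ∈ Crv ℂ_[p] F}.encard ≤ B := by
  have hE : 0 < D.factorial := D.factorial_pos
  obtain ⟨ra, hra, Ha⟩ := branch_rational β hC
  obtain ⟨rb, hrb, Hb⟩ := branch_gap β hC
  obtain ⟨rc, c4, hrc, Hc⟩ := branch_four β hC hE
  obtain ⟨rd, N0, cg, hrd, Hd⟩ := hF.branch_global p hS ht D β hC hm
  obtain ⟨W, hW, HW⟩ := exists_generator p D
  obtain ⟨B0, HB⟩ := seq_bound hE (max c4 cg) N0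
  set r1 : ℝ := min (min (min ra rb) (min rc rd)) 1 with hr1
  have h1a : r1 ≤ ra := (min_le_left _ _).trans ((min_le_left _ _).trans (min_le_left _ _))
  have h1b : r1 ≤ rb := (min_le_left _ _).trans ((min_le_left _ _).trans (min_le_right _ _))
  have h1c : r1 ≤ rc := (min_le_left _ _).trans ((min_le_right _ _).trans (min_le_left _ _))
  have h1d : r1 ≤ rd := (min_le_left _ _).trans ((min_le_right _ _).trans (min_le_right _ _))
  have h11 : r1 ≤ 1 := min_le_right _ _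
  refine ⟨r1, W * (B0 * β.κ), by positivity, fun K _ hK hc hc2 x0 hx0 y0 hy0 hx00 hx1 => ?_⟩
  obtain ⟨T0, s0, hs0, hT0, HT⟩ := HW K hK x0 hx0 hx00 hx1
  let 𝒮 : ℂ_[p] → Set ℕ := fun ω => {s | ∃ (e : ℕ) (T : ℂ_[p] × ℂ_[p]), s = s0 * e ∧
    T ∈ BP β C r1 x0 y0 ∧ (T.1 ^ m, T.2) ∈ Crv ℂ_[p] F ∧ T.1 ^ β.κ = ω * T0 ^ e}
  have hnorm : ∀ {ω : ℂ_[p]}, ω ^ W = 1 → ‖ω‖ = 1 := by
    intro ω hω
    have : ‖ω‖ ^ W = 1 := by rw [← norm_pow, hω, norm_one]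
    exact (pow_eq_one_iff_of_nonneg (norm_nonneg _) hW.ne').1 this
  have hval : ∀ {ω : ℂ_[p]}, ω ^ W = 1 → ∀ {e : ℕ} {t : ℂ_[p]}, t ^ β.κ = ω * T0 ^ e →
      ‖t‖ ^ (β.κ * D.factorial) = (p : ℝ)⁻¹ ^ (s0 * e) := by
    intro ω hω e t h
    rw [pow_mul, ← norm_pow, h, norm_mul, hnorm hω, one_mul, norm_pow, ← pow_mul, mul_comm e,
      pow_mul, hT0, ← pow_mul]
  have h𝒮 : ∀ ω : ℂ_[p], ω ^ W = 1 → (𝒮 ω).encard ≤ B0 := by
    intro ω hω
    refine HB _ ?_ ?_ ?_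
    · rintro s1 ⟨e1, T1, rfl, a1, -, b1⟩ s2 ⟨e2, T2, rfl, a2, -, b2⟩ s3 ⟨e3, T3, rfl, a3, -, b3⟩
        h12 h23
      exact Hb _ x0 y0 hE T1 (BP_mono β C h1b _ _ a1) T2 (BP_mono β C h1b _ _ a2) T3
        (BP_mono β C h1b _ _ a3) _ _ _ h12 h23 (hval hω b1) (hval hω b2) (hval hω b3)
    · rintro s1 ⟨e1, T1, rfl, a1, -, b1⟩ s2 ⟨e2, T2, rfl, a2, -, b2⟩ s3 ⟨e3, T3, rfl, a3, -, b3⟩
        s4 ⟨e4, T4, rfl, a4, -, b4⟩ h12 h23 h34
      have k12 : e1 < e2 := Nat.lt_of_mul_lt_mul_left h12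
      have k23 : e2 < e3 := Nat.lt_of_mul_lt_mul_left h23
      have k34 : e3 < e4 := Nat.lt_of_mul_lt_mul_left h34
      have hmono : StrictMono ![e1, e2, e3, e4] := by
        refine Fin.strictMono_iff_lt_succ.2 fun i => ?_
        fin_cases i <;> simpa
      have := Hc x0 y0 T0 ω s0 ![T1, T2, T3, T4] ![e1, e2, e3, e4] hs0 hT0 (hnorm hω) hmono (by
        intro i
        fin_cases i
        · exact ⟨BP_mono β C h1c _ _ a1, b1⟩
        · exact ⟨BP_mono β C h1c _ _ a2, b2⟩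
        · exact ⟨BP_mono β C h1c _ _ a3, b3⟩
        · exact ⟨BP_mono β C h1c _ _ a4, b4⟩)
      have this' : s0 * e1 ≤ c4 * (e4 - e1) ^ c4 := this
      have hle : e4 - e1 ≤ s0 * e4 - s0 * e1 := by
        rw [← Nat.mul_sub]
        exact Nat.le_mul_of_pos_left _ hs0
      refine this'.trans (le_trans (Nat.mul_le_mul_left _ (Nat.pow_le_pow_left hle _)) ?_)
      exact loc_mono (le_max_left _ _) (by omega)
    · rintro s1 ⟨e1, T1, rfl, a1, c1, b1⟩ s2 ⟨e2, T2, rfl, a2, c2, b2⟩ s3 ⟨e3, T3, rfl, a3, c3, b3⟩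
        h12 h23 hN
      have := Hd K hK hc hc2 x0 hx0 y0 hy0 ![T1, T2, T3] ![s0 * e1, s0 * e2, s0 * e3] (by
        intro i
        fin_cases i
        · exact ⟨BP_mono β C h1d _ _ a1, c1, hval hω b1⟩
        · exact ⟨BP_mono β C h1d _ _ a2, c2, hval hω b2⟩
        · exact ⟨BP_mono β C h1d _ _ a3, c3, hval hω b3⟩) h12 h23 hN
      have this' : s0 * e3 - s0 * e1 ≤ cg * (s0 * e2) ^ cg * (Nat.log 2 (s0 * e3) + 1) ^ 2 := this
      exact this'.trans (Nat.mul_le_mul_right _ (loc_mono (le_max_right _ _) (by omega)))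
  refine le_trans (Set.encard_le_encard ?_) (loc_biUnion {ω : ℂ_[p] | ω ^ W = 1}
    (fun ω => ⋃ s ∈ 𝒮 ω, {t : ℂ_[p] | t ^ β.κ = ω * T0 ^ (s / s0)}) W (B0 * β.κ)
    (loc_roots hW 1) fun ω hω => loc_biUnion _ _ B0 β.κ (h𝒮 ω hω) fun s _ => loc_roots β.hκ _)
  rintro t ⟨y, hT, hcv⟩
  have hmem := (Ha K hc hc2 x0 hx0 y0 hy0 (t, y) (BP_mono β C h1a _ _ hT)).1
  have ht0 : t ≠ 0 := hT.1.1
  have ht1 : ‖t‖ < 1 := lt_of_lt_of_le hT.2.1 h11
  obtain ⟨e, ω, hω, he⟩ := HT (t ^ β.κ) hmem (pow_ne_zero _ ht0)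
    (by rw [norm_pow]; exact pow_lt_one₀ (norm_nonneg _) ht1 β.hκ.ne') (hT.2.2.1.pow _)
  simp only [Set.mem_iUnion]
  refine ⟨ω, hω, s0 * e, ⟨e, (t, y), rfl, hT, hcv, he⟩, ?_⟩
  rw [Nat.mul_div_cancel_left _ hs0]
  exact he

/-- The local form of the main theorem. -/
theorem Good.local_bound {F : ℤ[X][Y]} (hF : Good F) (p : ℕ) [Fact p.Prime]
    (hS : ¬ Sp (PadicAlgCl p) F) (D : ℕ) : ∃ B : ℕ,
      ∀ (K : IntermediateField ℚ_[p] ℂ_[p]) [FiniteDimensional ℚ_[p] K],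
        Module.finrank ℚ_[p] K ≤ D → ∀ x0 ∈ K, ∀ y0 ∈ K, x0 ≠ 0 → ‖x0‖ < 1 →
          (Pts F x0 y0).encard ≤ B := by
  have hN := hF.not_dvd_Nq hS
  by_cases ht : top F = 0
  swap
  · obtain ⟨r, hr, H⟩ := no_cusp_of_top (p := p) ht
    obtain ⟨B, hB⟩ := hF.non_cusp hN p D hr
    refine ⟨B, fun K _ hK x0 hx0 y0 hy0 _ _ => le_trans (Set.encard_le_encard ?_)
      (hB K hK x0 hx0 y0 hy0)⟩
    exact fun P hP => ⟨hP, H P hP.1⟩
  obtain ⟨m, L, β, C, r, hc⟩ := hF.exists_cusp hS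
  obtain ⟨D1, HD⟩ := exists_field_sup p (ι := Fin L ⊕ Fin L)
    (Sum.elim (fun i => (β i).c) fun i => (β i).c2)
  choose r1 B1 hr1 H1 using fun i => loc_branch hF p hS ht (D * D1) (β i) hc.hC hc.hm
  obtain ⟨r2, hr2, h2⟩ := loc_pos (fun i => r1 i ^ m) fun i => pow_pos (hr1 i) _
  obtain ⟨B, hB⟩ := hF.non_cusp hN p D (lt_min hc.hr hr2)
  refine ⟨B + L * (Finset.univ.sup B1 * F.natDegree), fun K _ hK x0 hx0 y0 hy0 hx00 hx1 => ?_⟩
  obtain ⟨K', _, hK', hle, hmem⟩ := HD D K hK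
  have hcusp := loc_biUnion (Set.univ : Set (Fin L)) (fun i => ⋃ t ∈ {t : ℂ_[p] |
      ∃ y, (t, y) ∈ BP (β i) C (r1 i) x0 y0 ∧ (t ^ m, y) ∈ Crv ℂ_[p] F},
      {P ∈ Crv ℂ_[p] F | P.1 = t ^ m}) L (Finset.univ.sup B1 * F.natDegree) (by simp)
    fun i _ => loc_biUnion _ _ _ _ (le_trans (H1 i K' hK' (hmem (Sum.inl i)) (hmem (Sum.inr i))
      x0 (hle hx0) y0 (hle hy0) hx00 hx1)
      (by exact_mod_cast Finset.le_sup (f := B1) (Finset.mem_univ i)))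
      fun t _ => hF.encard_Crv_fibre _
  push_cast at hcusp ⊢
  refine le_trans (le_trans (Set.encard_le_encard ?_) (Set.encard_union_le _ _))
    (add_le_add (hB K hK x0 hx0 y0 hy0) hcusp)
  intro P hP
  by_cases h : ‖P.1‖ < min r r2 ∧ ‖P.2‖ < min r r2
  swap
  · exact Or.inl ⟨hP, h⟩
  right
  obtain ⟨t, ht⟩ := IsAlgClosed.exists_pow_nat_eq P.1 hc.hm
  obtain ⟨i, hi⟩ := hc.br P hP.1 (h.1.trans_le (min_le_left _ _)) (h.2.trans_le (min_le_left _ _))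
    t ht
  have hlt : ‖t‖ < r1 i := by
    refine lt_of_pow_lt_pow_left₀ m (hr1 i).le ?_
    rw [← norm_pow, ht]
    exact (h.1.trans_le (min_le_right _ _)).trans_le (h2 i)
  simp only [Set.mem_iUnion]
  refine ⟨i, Set.mem_univ _, t, ⟨P.2, ⟨hi, hlt, InG.of_pow hc.hm (ht ▸ hP.2.1), hP.2.2⟩, ?_⟩,
    hP.1, ht.symm⟩
  rw [ht]
  exact hP.1

end Pool.Agent.UAP
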