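import Pool.Agent.Lib.MP_7e5527_ag.Pair

open Polynomial UpperHalfPlane
open scoped Polynomial.Bivariate MatrixGroups IntermediateField

noncomputable section

namespace Pool.Agent.UAP

private lemma nonc_biUnion {ι α : Type*} (s : Set ι) (f : ι → Set α) (a b : ℕ) (hs : s.encard ≤ a)
    (hf : ∀ i ∈ s, (f i).encard ≤ b) : (⋃ i ∈ s, f i).encard ≤ (a * b : ℕ) := by
  have hfin : s.Finite := Set.finite_of_encard_le_coe hs
  have key : (⋃ i ∈ s, f i).encard ≤ s.encard * b := by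
    clear hs
    induction s, hfin using Set.Finite.induction_on with
    | empty => simp
    | @insert x s hx _ ih =>
      rw [Set.biUnion_insert, Set.encard_insert_of_notMem hx, add_mul, one_mul]
      refine le_trans (Set.encard_union_le _ _) ?_
      rw [add_comm]
      exact add_le_add (ih fun i hi => hf i (Set.mem_insert_of_mem _ hi))
        (hf x (Set.mem_insert _ _))
  refine key.trans ?_
  push_cast
  gcongr

private lemma nonc_roots {E : Type*} [Field E] {k : ℕ} (hk : 0 < k) (a : E) :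
    {t : E | t ^ k = a}.encard ≤ k := by
  classical
  have h : {t : E | t ^ k = a} = ↑(nthRoots k a).toFinset := by
    ext t
    simp [mem_nthRoots hk]
  rw [h, Set.encard_coe_eq_coe_finsetCard]
  exact_mod_cast (Multiset.toFinset_card_le _).trans (card_nthRoots k a)

private lemma nonc_sep {p : ℕ} [Fact p.Prime] {x0 x x' : ℂ_[p]} (h : InG x0 x) (h' : InG x0 x')
    (hx0 : x ≠ 0) (hx1 : ‖x‖ < 1) (hn : ‖x‖ = ‖x'‖) (hlt : ‖x - x'‖ < ‖x‖ * (p : ℝ)⁻¹) :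
    x = x' := by
  obtain ⟨h0, h1⟩ := h.base hx0 hx1
  have hpos : 0 < ‖x‖ := norm_pos_iff.2 hx0
  obtain ⟨n, hn0, hζ⟩ := InG.root_of_unity h0 h1 (InG.div h0 h' h)
    (by rw [norm_div, ← hn, div_self hpos.ne'])
  have h2 : ‖x' / x - 1‖ < (p : ℝ)⁻¹ := by
    rw [div_sub_one hx0, norm_div, norm_sub_rev, div_lt_iff₀ hpos, mul_comm]
    exact hlt
  have := root_eq_one_of_near hn0 hζ h2
  rw [div_eq_one_iff_eq hx0] at this
  exact this.symm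

private lemma nonc_finite (p : ℕ) [Fact p.Prime] {E : ℕ} (hE : 0 < E) {r : ℝ} (hr : 0 < r) :
    {ρ : ℝ | r ≤ ρ ∧ ρ < 1 ∧ ∃ k : ℤ, ρ ^ E = (p : ℝ) ^ k}.Finite := by
  have hp : (1 : ℝ) < p := by exact_mod_cast (Fact.out : p.Prime).one_lt
  obtain ⟨M, hM⟩ := exists_pow_lt_of_lt_one (pow_pos hr E) (inv_lt_one_of_one_lt₀ hp)
  refine Set.Finite.of_finite_image (f := fun ρ : ℝ => ρ ^ E)
    (((Set.finite_Icc (-(M : ℤ)) 0).image fun k : ℤ => (p : ℝ) ^ k).subset ?_) ?_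
  · rintro _ ⟨ρ, ⟨h1, h2, k, hk⟩, rfl⟩
    refine ⟨k, ⟨?_, ?_⟩, hk.symm⟩
    · have h3 : (p : ℝ) ^ (-(M : ℤ)) < (p : ℝ) ^ k := by
        rw [zpow_neg, zpow_natCast, ← inv_pow, ← hk]
        exact hM.trans_le (pow_le_pow_left₀ hr.le h1 E)
      exact ((zpow_lt_zpow_iff_right₀ hp).1 h3).le
    · have h3 : (p : ℝ) ^ k < (p : ℝ) ^ (0 : ℤ) := by
        rw [zpow_zero, ← hk]
        exact pow_lt_one₀ (hr.le.trans h1) h2 hE.ne'
      exact ((zpow_lt_zpow_iff_right₀ hp).1 h3).le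
  · intro a ha b hb hab
    exact (pow_left_inj₀ (hr.le.trans ha.1) (hr.le.trans hb.1) hE.ne').1 hab

/-- Both parameters away from the cusp. -/
theorem Good.region_three {F : ℤ[X][Y]} (hF : Good F) (hN : ¬ toQ F ∣ toQ (Nq F)) (p : ℕ)
    [Fact p.Prime] (D : ℕ) {r : ℝ} (hr : 0 < r) : ∃ B : ℕ,
      ∀ (K : IntermediateField ℚ_[p] ℂ_[p]) [FiniteDimensional ℚ_[p] K],
        Module.finrank ℚ_[p] K ≤ D → ∀ x0 ∈ K, ∀ y0 ∈ K,
          {P ∈ Pts F x0 y0 | r ≤ ‖P.1‖ ∧ r ≤ ‖P.2‖}.encard ≤ B := by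
  have hp : (0 : ℝ) < (p : ℝ)⁻¹ := inv_pos.2 (by exact_mod_cast (Fact.out : p.Prime).pos)
  obtain ⟨E0, hE0, HE⟩ := hF.norm_discrete hN p D
  obtain ⟨d0, H1⟩ := hF.q1 hN p
  obtain ⟨η, hη, H2⟩ := H1 (r * (p : ℝ)⁻¹) (mul_pos hr hp)
  obtain ⟨W, hW, HW⟩ := hF.pair hN p D hη
  have hfin := nonc_finite p hE0 hr
  set V := {ρ : ℝ | r ≤ ρ ∧ ρ < 1 ∧ ∃ k : ℤ, ρ ^ E0 = (p : ℝ) ^ k} with hV
  have hVc : V.encard ≤ (V.ncard : ℕ) := (hfin.cast_ncard_eq).ge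
  refine ⟨V.ncard * (V.ncard * (d0 + W * F.natDegree)), fun K _ hK x0 hx0 y0 hy0 => ?_⟩
  refine le_trans (Set.encard_le_encard ?_) (nonc_biUnion V (fun ρ1 => ⋃ ρ2 ∈ V,
    {P ∈ Pts F x0 y0 | ‖P.1‖ = ρ1 ∧ ‖P.2‖ = ρ2}) _ _ hVc fun ρ1 h1 =>
      nonc_biUnion V _ _ _ hVc fun ρ2 h2 => ?_)
  · rintro P ⟨hP, h1, h2⟩
    simp only [Set.mem_iUnion]
    obtain ⟨k1, k2⟩ := HE K hK x0 hx0 y0 hy0 P hP
    exact ⟨‖P.1‖, ⟨h1, hP.1.1.2.1, k1⟩, ‖P.2‖, ⟨h2, hP.1.1.2.2.2, k2⟩, hP, rfl, rfl⟩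
  set S := {P ∈ Pts F x0 y0 | ‖P.1‖ = ρ1 ∧ ‖P.2‖ = ρ2} with hS
  have hsmall : {P ∈ S | ‖kapG (garr F) P.1 P.2‖ < η}.encard ≤ d0 := by
    refine H2 _ (fun P hP => hP.1.1.1) ?_ fun P hP => hP.2
    rintro P ⟨⟨hP, a1, a2⟩, -⟩ P' ⟨⟨hP', b1, b2⟩, -⟩ hne
    by_contra hlt
    rw [not_le, Prod.norm_def, max_lt_iff] at hlt
    refine hne (Prod.ext ?_ ?_)
    · refine nonc_sep hP.2.1 hP'.2.1 hP.1.1.1 hP.1.1.2.1 (a1.trans b1.symm) (hlt.1.trans_le ?_)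
      rw [a1]
      exact mul_le_mul_of_nonneg_right h1.1 hp.le
    · refine nonc_sep hP.2.2 hP'.2.2 hP.1.1.2.2.1 hP.1.1.2.2.2 (a2.trans b2.symm)
        (hlt.2.trans_le ?_)
      rw [a2]
      exact mul_le_mul_of_nonneg_right h2.1 hp.le
  have hbig : {P ∈ S | η ≤ ‖kapG (garr F) P.1 P.2‖}.encard ≤ (W * F.natDegree : ℕ) := by
    rcases Set.eq_empty_or_nonempty {P ∈ S | η ≤ ‖kapG (garr F) P.1 P.2‖} with h | ⟨P0, hP0⟩
    · simp [h]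
    refine le_trans (Set.encard_le_encard ?_) (nonc_biUnion {ζ : ℂ_[p] | ζ ^ W = 1}
      (fun ζ => {P ∈ Crv ℂ_[p] F | P.1 = ζ * P0.1}) W _ (nonc_roots hW 1)
      fun ζ _ => hF.encard_Crv_fibre _)
    intro P hP
    simp only [Set.mem_iUnion]
    refine ⟨P.1 / P0.1, HW K hK x0 hx0 y0 hy0 P0 hP0.1.1 P hP.1.1 hP0.2 hP.2
      (hP0.1.2.1.trans hP.1.2.1.symm), hP.1.1.1, ?_⟩
    rw [div_mul_cancel₀ _ hP0.1.1.1.1.1]
  push_cast at hbig ⊢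
  refine le_trans (le_trans (Set.encard_le_encard ?_) (Set.encard_union_le _ _))
    (add_le_add hsmall hbig)
  intro P hP
  rcases lt_or_ge ‖kapG (garr F) P.1 P.2‖ η with h | h
  · exact Or.inl ⟨hP, h⟩
  · exact Or.inr ⟨hP, h⟩

private lemma nonc_ev1_le {p : ℕ} [Fact p.Prime] (Q : ℤ[X]) {d : ℕ} (hd : Q.natDegree ≤ d)
    {z : ℂ_[p]} {M : ℝ} (hM : 1 ≤ M) (hz : ‖z‖ ≤ M) : ‖ev1 z Q‖ ≤ M ^ d := by
  have : ev1 z Q = ∑ i ∈ Finset.range (Q.natDegree + 1), ((Q.coeff i : ℤ) : ℂ_[p]) * z ^ i := by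
    simp [ev1, eval₂_eq_sum_range]
  rw [this]
  refine IsUltrametricDist.norm_sum_le_of_forall_le_of_nonneg (by positivity) fun i hi => ?_
  rw [norm_mul, norm_pow]
  have h1 : ‖((Q.coeff i : ℤ) : ℂ_[p])‖ ≤ 1 := IsUltrametricDist.norm_intCast_le_one _ _
  have h2 : ‖z‖ ^ i ≤ M ^ d := (pow_le_pow_left₀ (norm_nonneg _) hz i).trans
    (pow_le_pow_right₀ hM (by have := Finset.mem_range.1 hi; omega))
  exact (mul_le_of_le_one_left (by positivity) h1).trans h2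

private lemma nonc_near {p : ℕ} [Fact p.Prime] {q : ℂ_[p][X]} {ε : ℝ} (hε : 0 < ε)
    {z : ℂ_[p]} (h : ‖q.eval z‖ < ‖q.leadingCoeff‖ * ε ^ q.natDegree) :
    ∃ ρ ∈ q.roots, ‖z - ρ‖ < ε := by
  by_contra hcon
  push Not at hcon
  have hs : q.Splits := IsAlgClosed.splits q
  rw [hs.eval_eq_prod_roots, norm_mul, hs.natDegree_eq_card_roots] at h
  have key : ∀ s : Multiset ℂ_[p], (∀ ρ ∈ s, ε ≤ ‖z - ρ‖) →
      ε ^ s.card ≤ ‖(s.map fun ρ => z - ρ).prod‖ := by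
    intro s
    induction s using Multiset.induction_on with
    | empty => simp
    | cons a s ih =>
      intro hs
      rw [Multiset.map_cons, Multiset.prod_cons, norm_mul, Multiset.card_cons, pow_succ']
      exact mul_le_mul (hs a (Multiset.mem_cons_self _ _))
        (ih fun ρ hρ => hs ρ (Multiset.mem_cons_of_mem hρ)) (by positivity) (norm_nonneg _)
  exact absurd h (not_lt.2 (mul_le_mul_of_nonneg_left (key _ hcon) (norm_nonneg _)))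

private lemma nonc_lead {p : ℕ} [Fact p.Prime] {F : ℤ[X][Y]} (hF : Good F) {P : ℂ_[p] × ℂ_[p]}
    (hP : P ∈ Crv ℂ_[p] F) {M : ℝ} (hM : 1 ≤ M) (hz : ‖J P.2‖ ≤ M) :
    ‖ev1 (J P.2) (sw F).leadingCoeff‖ ≤ M ^ F.natDegree * ‖P.1‖ := by
  obtain ⟨⟨hx0, hx1, -, -⟩, h0⟩ := hP
  have hpos : 0 < ‖P.1‖ := norm_pos_iff.2 hx0
  have hJ : ‖J P.1‖ = ‖P.1‖⁻¹ := norm_Jn 0 hx0 hx1
  have hJ1 : 1 ≤ ‖J P.1‖ := by
    rw [hJ]
    exact (one_le_inv₀ hpos).2 hx1.le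
  obtain ⟨d, hd⟩ : ∃ d, (sw F).natDegree = d + 1 := ⟨_, (Nat.succ_pred_eq_of_pos hF.degX).symm⟩
  rw [← ev2_sw] at h0
  have hsum : ev2 (J P.2) (J P.1) (sw F) = ∑ i ∈ Finset.range ((sw F).natDegree + 1),
      ev1 (J P.2) ((sw F).coeff i) * J P.1 ^ i := by
    simp [ev2, eval₂_eq_sum_range]
  rw [hsum, Finset.sum_range_succ, add_comm, add_eq_zero_iff_eq_neg] at h0
  have hb : ‖∑ i ∈ Finset.range (sw F).natDegree, ev1 (J P.2) ((sw F).coeff i) * J P.1 ^ i‖ ≤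
      M ^ F.natDegree * ‖J P.1‖ ^ d := by
    refine IsUltrametricDist.norm_sum_le_of_forall_le_of_nonneg (by positivity) fun i hi => ?_
    rw [norm_mul, norm_pow]
    refine mul_le_mul (nonc_ev1_le _ ?_ hM hz) (pow_le_pow_right₀ hJ1 ?_) (by positivity)
      (by positivity)
    · simpa [sw_sw] using natDegree_coeff_le (sw F) i
    · have := Finset.mem_range.1 hi
      omega
  rw [← norm_neg, ← h0, norm_mul, norm_pow, hd, pow_succ, ← mul_assoc, mul_right_comm] at hb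
  have hb' := le_of_mul_le_mul_right hb (pow_pos (one_pos.trans_le hJ1) d)
  rw [hJ, ← div_eq_mul_inv, div_le_iff₀ hpos] at hb'
  rw [leadingCoeff, hd]
  exact hb'

/-- One parameter near the cusp, the other away from it. -/
theorem Good.region_two {F : ℤ[X][Y]} (hF : Good F) (p : ℕ) [Fact p.Prime] {r : ℝ} (hr : 0 < r) :
    ∃ (r' : ℝ) (B : ℕ), 0 < r' ∧ ∀ x0 y0 : ℂ_[p],
      {P ∈ Pts F x0 y0 | ‖P.1‖ < r' ∧ r ≤ ‖P.2‖}.encard ≤ B := by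
  classical
  have hp1 : (1 : ℝ) < p := by exact_mod_cast (Fact.out : p.Prime).one_lt
  have hp : (0 : ℝ) < (p : ℝ)⁻¹ := inv_pos.2 (one_pos.trans hp1)
  have hp' : (p : ℝ)⁻¹ < 1 := inv_lt_one_of_one_lt₀ hp1
  set q : ℂ_[p][X] := (sw F).leadingCoeff.map (Int.castRingHom ℂ_[p]) with hq
  have hq0 : q ≠ 0 := by
    rw [hq, Polynomial.map_ne_zero_iff (RingHom.injective_int _)]
    exact leadingCoeff_ne_zero.2 hF.swap.ne_zero
  have hlc : 0 < ‖q.leadingCoeff‖ := norm_pos_iff.2 (leadingCoeff_ne_zero.2 hq0)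
  set M : ℝ := max 1 r⁻¹ with hM
  have hM1 : 1 ≤ M := le_max_left _ _
  refine ⟨‖q.leadingCoeff‖ * (p : ℝ)⁻¹ ^ q.natDegree / M ^ F.natDegree,
    q.roots.toFinset.card * (sw F).natDegree, by positivity, fun x0 y0 => ?_⟩
  refine le_trans (Set.encard_le_encard ?_) (nonc_biUnion (↑q.roots.toFinset : Set ℂ_[p])
    (fun ρ => {P ∈ Pts F x0 y0 | ‖J P.2 - ρ‖ < (p : ℝ)⁻¹}) _ _
    (Set.encard_coe_eq_coe_finsetCard _).le fun ρ _ => ?_)
  · rintro P ⟨hP, h1, h2⟩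
    have hJ : ‖J P.2‖ ≤ M := by
      rw [show J P.2 = Jn 0 P.2 from rfl, norm_Jn 0 hP.1.1.2.2.1 hP.1.1.2.2.2]
      exact (inv_anti₀ hr h2).trans (le_max_right _ _)
    have hb := nonc_lead hF hP.1 hM1 hJ
    have he : q.eval (J P.2) = ev1 (J P.2) (sw F).leadingCoeff := by
      simp [hq, ev1, eval_map]
    obtain ⟨ρ, hρ, hlt⟩ := nonc_near (q := q) hp (z := J P.2) (by
      rw [he]
      refine hb.trans_lt ?_
      rw [lt_div_iff₀ (by positivity), mul_comm] at h1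
      exact h1)
    simp only [Set.mem_iUnion]
    exact ⟨ρ, by simpa using hρ, hP, hlt⟩
  rcases Set.eq_empty_or_nonempty {P ∈ Pts F x0 y0 | ‖J P.2 - ρ‖ < (p : ℝ)⁻¹} with h | ⟨P0, hP0⟩
  · simp [h]
  refine le_trans ?_ (hF.swap.encard_Crv_fibre P0.2)
  rw [← Function.Injective.encard_image Prod.swap_injective]
  refine Set.encard_le_encard ?_
  rintro _ ⟨P, hP, rfl⟩
  refine ⟨(mem_Pts_sw.2 hP.1).1, ?_⟩
  obtain ⟨-, -, hy0, hy1⟩ := hP.1.1.1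
  obtain ⟨-, -, hz0, hz1⟩ := hP0.1.1.1
  have hpy : 0 < ‖P.2‖ := norm_pos_iff.2 hy0
  have hpz : 0 < ‖P0.2‖ := norm_pos_iff.2 hz0
  have hd : ‖J P.2 - J P0.2‖ < (p : ℝ)⁻¹ := by
    have : J P.2 - J P0.2 = (J P.2 - ρ) + -(J P0.2 - ρ) := by ring
    rw [this]
    refine (IsUltrametricDist.norm_add_le_max _ _).trans_lt (max_lt hP.2 ?_)
    rw [norm_neg]
    exact hP0.2
  have hJy : ‖J P.2‖ = ‖P.2‖⁻¹ := norm_Jn 0 hy0 hy1
  have hJz : ‖J P0.2‖ = ‖P0.2‖⁻¹ := norm_Jn 0 hz0 hz1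
  have hn : ‖P.2‖ = ‖P0.2‖ := by
    have h1 : ‖J P.2 - J P0.2‖ < ‖J P0.2‖ := by
      rw [hJz]
      exact (hd.trans hp').trans ((one_lt_inv₀ hpz).2 hz1)
    have h2 : ‖J P.2‖ = ‖J P0.2‖ := by
      have := IsUltrametricDist.norm_add_eq_max_of_norm_ne_norm h1.ne
      rw [sub_add_cancel, max_eq_right h1.le] at this
      exact this
    rw [hJy, hJz] at h2
    exact inv_injective h2
  refine nonc_sep hP.1.2.2 hP0.1.2.2 hy0 hy1 hn ?_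
  rw [norm_J_sub hy0 hy1 hz0 hz1, div_lt_iff₀ (by positivity)] at hd
  refine hd.trans_le ?_
  rw [mul_comm]
  exact mul_le_mul_of_nonneg_right (mul_le_of_le_one_right hpy.le hz1.le) hp.le

/-- All points outside a neighbourhood of `(∞, ∞)`. -/
theorem Good.non_cusp {F : ℤ[X][Y]} (hF : Good F) (hN : ¬ toQ F ∣ toQ (Nq F)) (p : ℕ)
    [Fact p.Prime] (D : ℕ) {r : ℝ} (hr : 0 < r) : ∃ B : ℕ,
      ∀ (K : IntermediateField ℚ_[p] ℂ_[p]) [FiniteDimensional ℚ_[p] K],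
        Module.finrank ℚ_[p] K ≤ D → ∀ x0 ∈ K, ∀ y0 ∈ K,
          {P ∈ Pts F x0 y0 | ¬ (‖P.1‖ < r ∧ ‖P.2‖ < r)}.encard ≤ B := by
  obtain ⟨r1, B1, hr1, H1⟩ := hF.region_two p hr
  obtain ⟨r2, B2, hr2, H2⟩ := hF.swap.region_two p hr
  obtain ⟨B3, H3⟩ := hF.region_three hN p D (lt_min hr (lt_min hr1 hr2))
  refine ⟨B1 + B2 + B3, fun K _ hK x0 hx0 y0 hy0 => ?_⟩
  have h2 : {P ∈ Pts F x0 y0 | ‖P.2‖ < r2 ∧ r ≤ ‖P.1‖}.encard ≤ B2 := by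
    refine le_trans ?_ (H2 y0 x0)
    rw [← Function.Injective.encard_image Prod.swap_injective]
    refine Set.encard_le_encard ?_
    rintro _ ⟨P, hP, rfl⟩
    exact ⟨mem_Pts_sw.2 hP.1, hP.2⟩
  push_cast
  refine le_trans (le_trans (Set.encard_le_encard ?_) ((Set.encard_union_le _ _).trans
    (add_le_add (Set.encard_union_le _ _) le_rfl)))
    (add_le_add (add_le_add (H1 x0 y0) h2) (H3 K hK x0 hx0 y0 hy0))
  rintro P ⟨hP, h⟩
  rw [not_and_or, not_lt, not_lt] at h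
  rcases h with h | h
  · rcases lt_or_ge ‖P.2‖ r2 with k | k
    · exact Or.inl (Or.inr ⟨hP, k, h⟩)
    · exact Or.inr ⟨hP, (min_le_left _ _).trans h,
        ((min_le_right _ _).trans (min_le_right _ _)).trans k⟩
  · rcases lt_or_ge ‖P.1‖ r1 with k | k
    · exact Or.inl (Or.inl ⟨hP, k, h⟩)
    · exact Or.inr ⟨hP, ((min_le_right _ _).trans (min_le_left _ _)).trans k,
        (min_le_left _ _).trans h⟩

end Pool.Agent.UAP
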