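import Pool.Agent.Lib.MP_7e5527_ag.Base

open Polynomial UpperHalfPlane
open scoped Polynomial.Bivariate MatrixGroups IntermediateField

noncomputable section

namespace Pool.Agent.UAP

private theorem seq_poly_lt (A m : ℕ) : ∃ d : ℕ, ∀ x, d ≤ x → A * (x + 2) ^ m < 2 ^ x := by
  have h := tendsto_pow_const_div_const_pow_of_one_lt m (r := (2 : ℝ)) one_lt_two
  have h1 : (0 : ℝ) < 1 / (4 * A + 1) := by positivity
  obtain ⟨d, hd⟩ := Filter.eventually_atTop.1 (h.eventually (gt_mem_nhds h1))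
  refine ⟨d, fun x hx => ?_⟩
  have h2 := hd (x + 2) (by omega)
  rw [div_lt_div_iff₀ (by positivity) (by positivity), one_mul] at h2
  have h3 : ((x + 2) ^ m * (4 * A + 1) : ℕ) < 2 ^ (x + 2) := by exact_mod_cast h2
  rw [pow_add] at h3
  nlinarith [Nat.zero_le ((x + 2) ^ m)]

private theorem seq_enum (𝒮 : Set ℕ) (n : ℕ) (h : ¬ 𝒮.encard ≤ n) :
    ∃ s : ℕ → ℕ, (∀ i ≤ n, s i ∈ 𝒮) ∧ (∀ i j, i < j → j ≤ n → s i < s j) ∧
      ∀ i ≤ n, s 0 + i ≤ s i := by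
  have h1 : ∀ i ≤ n, ∀ hf : (Set.ofPred fun x => x ∈ 𝒮).Finite, i < hf.toFinset.card := by
    intro i hi hf
    by_contra h2
    apply h
    have h3 : 𝒮.encard = hf.toFinset.card := hf.encard_eq_coe_toFinset_card
    rw [h3]
    exact_mod_cast (not_lt.1 h2).trans hi
  have h2 : ∀ i j, i < j → j ≤ n → Nat.nth (fun x => x ∈ 𝒮) i < Nat.nth (fun x => x ∈ 𝒮) j :=
    fun i j hij hj => Nat.nth_lt_nth' hij (h1 j hj)
  refine ⟨Nat.nth fun x => x ∈ 𝒮, fun i hi => Nat.nth_mem i (h1 i hi), h2, fun i => ?_⟩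
  induction i with
  | zero => simp
  | succ i ih =>
    intro hi
    have h3 := ih (by omega)
    have h4 := h2 i (i + 1) (by omega) hi
    omega

theorem seq_log {E : ℕ} (hE : 0 < E) : ∃ C : ℕ, ∀ (𝒮 : Set ℕ) (S : ℕ), (∀ s ∈ 𝒮, s ≤ S) →
    (∀ s1 ∈ 𝒮, ∀ s2 ∈ 𝒮, ∀ s3 ∈ 𝒮, s1 < s2 → s2 < s3 → 2 ^ (s2 - s1) ≤ (s3 - s2) ^ E) →
    𝒮.encard ≤ (C + Nat.log 2 S : ℕ) := by
  obtain ⟨d, hd⟩ := seq_poly_lt 1 E
  refine ⟨d + 2, fun 𝒮 S hS hgap => ?_⟩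
  by_contra hn
  obtain ⟨s, h1, h2, h3⟩ := seq_enum 𝒮 _ hn
  have key : ∀ j, j ≤ Nat.log 2 S + 1 → s 0 + 2 ^ j ≤ s (d + 1 + j) := by
    intro j
    induction j with
    | zero =>
      intro _
      have := h3 (d + 1 + 0) (by omega)
      omega
    | succ j ih =>
      intro hj
      have h4 := ih (by omega)
      have h5 := h3 (d + 1 + j) (by omega)
      have h6 := h2 (d + 1 + j) (d + 1 + (j + 1)) (by omega) (by omega)
      have h7 := hgap _ (h1 0 (by omega)) _ (h1 (d + 1 + j) (by omega)) _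
        (h1 (d + 1 + (j + 1)) (by omega)) (by omega) h6
      have h8 := hd (s (d + 1 + j) - s 0) (by omega)
      rw [one_mul] at h8
      have h9 := lt_of_pow_lt_pow_left₀ E (Nat.zero_le _) (h8.trans_le h7)
      rw [pow_succ]
      omega
  have h4 := key _ le_rfl
  have h5 := hS _ (h1 (d + 1 + (Nat.log 2 S + 1)) (by omega))
  have h6 := Nat.lt_pow_succ_log_self (b := 2) one_lt_two S
  simp only [Nat.succ_eq_add_one] at h6
  omega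

theorem seq_bound {E : ℕ} (hE : 0 < E) (C N0 : ℕ) : ∃ B : ℕ, ∀ 𝒮 : Set ℕ,
    (∀ s1 ∈ 𝒮, ∀ s2 ∈ 𝒮, ∀ s3 ∈ 𝒮, s1 < s2 → s2 < s3 → 2 ^ (s2 - s1) ≤ (s3 - s2) ^ E) →
    (∀ s1 ∈ 𝒮, ∀ s2 ∈ 𝒮, ∀ s3 ∈ 𝒮, ∀ s4 ∈ 𝒮, s1 < s2 → s2 < s3 → s3 < s4 →
      s1 ≤ C * (s4 - s1) ^ C) →
    (∀ s1 ∈ 𝒮, ∀ s2 ∈ 𝒮, ∀ s3 ∈ 𝒮, s1 < s2 → s2 < s3 → N0 * s1 < s2 →
      s3 - s1 ≤ C * s2 ^ C * (Nat.log 2 s3 + 1) ^ 2) →
    𝒮.encard ≤ B := by
  obtain ⟨d1, hd1⟩ := seq_poly_lt (((N0 + 1) * C) ^ E) (C * E)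
  obtain ⟨l0, hl0⟩ := seq_poly_lt (C * (2 * E) ^ C) (C + 2)
  obtain ⟨k, hk3, hk1, hk2⟩ : ∃ k, 3 ≤ k ∧ d1 ≤ k ∧ l0 * E ≤ k :=
    ⟨3 + d1 + l0 * E, by omega, by omega, by omega⟩
  refine ⟨k + 2, fun 𝒮 hgap hfour hglob => ?_⟩
  by_contra hn
  obtain ⟨s, h1, h2, h3⟩ := seq_enum 𝒮 (k + 2) (by exact_mod_cast hn)
  have m0 := h1 0 (by omega)
  have mk := h1 k (by omega)
  have mk1 := h1 (k + 1) (by omega)
  have mk2 := h1 (k + 2) le_rfl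
  have l0k := h2 0 k (by omega) (by omega)
  have lk1 := h2 k (k + 1) (by omega) (by omega)
  have lk2 := h2 (k + 1) (k + 2) (by omega) le_rfl
  have a1 := hfour _ m0 _ (h1 1 (by omega)) _ (h1 2 (by omega)) _ mk (h2 0 1 (by omega) (by omega))
    (h2 1 2 (by omega) (by omega)) (h2 2 k (by omega) (by omega))
  have a2 := hgap _ m0 _ mk _ mk1 l0k lk1
  have a3 := hgap _ m0 _ mk1 _ mk2 (l0k.trans lk1) lk2
  have a4 := hglob _ m0 _ mk1 _ mk2 (l0k.trans lk1) lk2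
  have b1 := h3 k (by omega)
  have b2 := h3 (k + 1) (by omega)
  obtain ⟨x, hx⟩ : ∃ x, s k = s 0 + x := ⟨s k - s 0, by omega⟩
  obtain ⟨y, hy⟩ : ∃ y, s (k + 1) = s 0 + y := ⟨s (k + 1) - s 0, by omega⟩
  obtain ⟨z, hz⟩ : ∃ z, s (k + 2) = s 0 + z := ⟨s (k + 2) - s 0, by omega⟩
  rw [hx] at a1 a2 lk1 b1
  rw [hy] at a2 a3 a4 lk1 lk2 b2
  rw [hz] at a3 a4 lk2
  generalize s 0 = t at *
  simp only [Nat.add_sub_cancel_left, Nat.add_sub_add_left] at a1 a2 a3 a4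
  have c1 : (N0 + 1) * t < y := by
    refine lt_of_pow_lt_pow_left₀ E (Nat.zero_le _) ?_
    calc ((N0 + 1) * t) ^ E ≤ ((N0 + 1) * (C * (x + 2) ^ C)) ^ E := by
          gcongr
          exact a1.trans (by gcongr; omega)
      _ = ((N0 + 1) * C) ^ E * (x + 2) ^ (C * E) := by rw [← mul_assoc, mul_pow, ← pow_mul]
      _ < 2 ^ x := hd1 x (by omega)
      _ ≤ (y - x) ^ E := a2
      _ ≤ y ^ E := by gcongr; omega
  have c2 : t ≤ y := by nlinarith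
  have c3 := a4 (by nlinarith)
  have z0 : z ≠ 0 := by omega
  have c4 : y < (Nat.log 2 z + 1) * E := by
    refine (pow_lt_pow_iff_right₀ (a := 2) one_lt_two).1 ?_
    calc 2 ^ y ≤ (z - y) ^ E := a3
      _ ≤ z ^ E := by gcongr; omega
      _ < (2 ^ (Nat.log 2 z + 1)) ^ E :=
          Nat.pow_lt_pow_left (Nat.lt_pow_succ_log_self one_lt_two z) hE.ne'
      _ = 2 ^ ((Nat.log 2 z + 1) * E) := by rw [← pow_mul]
  have c5 : Nat.log 2 (t + z) ≤ Nat.log 2 z + 1 := by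
    rw [← Nat.log_mul_base one_lt_two z0]
    exact Nat.log_mono_right (by omega)
  have c6 : l0 ≤ Nat.log 2 z := by
    by_contra h
    have : (Nat.log 2 z + 1) * E ≤ l0 * E := Nat.mul_le_mul_right _ (by omega)
    omega
  have c7 := hl0 _ c6
  have c8 := Nat.pow_log_le_self 2 z0
  generalize Nat.log 2 z = l at *
  have c9 : t + y ≤ 2 * E * (l + 2) := by nlinarith
  have c10 : z ≤ C * (2 * E) ^ C * (l + 2) ^ (C + 2) :=
    calc z ≤ C * (t + y) ^ C * (Nat.log 2 (t + z) + 1) ^ 2 := c3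
      _ ≤ C * (2 * E * (l + 2)) ^ C * (l + 2) ^ 2 :=
          Nat.mul_le_mul (by gcongr) (Nat.pow_le_pow_left (by omega) 2)
      _ = C * (2 * E) ^ C * (l + 2) ^ (C + 2) := by rw [mul_pow, pow_add]; ring
  omega

end Pool.Agent.UAP
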