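import Pool.Agent.Lib.MP_7e5527_ag.Cp
import Pool.Agent.Lib.MP_7e5527_ag.Gap
import Pool.Agent.Lib.MP_7e5527_ag.Nonc
import Pool.Agent.Lib.MP_7e5527_ag.Seq

open Polynomial UpperHalfPlane
open scoped Polynomial.Bivariate MatrixGroups IntermediateField

noncomputable section

namespace Pool.Agent.UAP

private theorem logc_union {α ι : Type*} (s : Finset ι) (f : ι → Set α) (q : ι → ℕ)
    (h : ∀ i ∈ s, (f i).encard ≤ q i) : (⋃ i ∈ s, f i).encard ≤ (∑ i ∈ s, q i : ℕ) := by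
  classical
  induction s using Finset.induction_on with
  | empty => simp
  | insert a s ha ih =>
    rw [Finset.set_biUnion_insert, Finset.sum_insert ha, Nat.cast_add]
    exact (Set.encard_union_le _ _).trans (add_le_add (h a (Finset.mem_insert_self _ _))
      (ih fun i hi => h i (Finset.mem_insert_of_mem hi)))

private theorem logc_fibres {α ι : Type*} {A : Set α} {𝒮 : Set ι} (f : ι → Set α) {n q : ℕ}
    (hA : ∀ a ∈ A, ∃ s ∈ 𝒮, a ∈ f s) (hn : 𝒮.encard ≤ n) (hq : ∀ s ∈ 𝒮, (f s).encard ≤ q) :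
    A.encard ≤ (n * q : ℕ) := by
  have hfin : 𝒮.Finite := Set.finite_of_encard_le_coe hn
  have h1 := logc_union hfin.toFinset f (fun _ => q) fun s hs => hq s (hfin.mem_toFinset.1 hs)
  have h2 : hfin.toFinset.card ≤ n := by
    rw [hfin.encard_eq_coe_toFinset_card] at hn
    exact_mod_cast hn
  refine (Set.encard_le_encard fun a ha => ?_).trans (h1.trans ?_)
  · obtain ⟨s, hs, h3⟩ := hA a ha
    exact Set.mem_biUnion (hfin.mem_toFinset.2 hs) h3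
  · rw [Finset.sum_const, smul_eq_mul]
    exact_mod_cast Nat.mul_le_mul_right q h2

private theorem logc_roots {E : Type*} [Field E] {κ : ℕ} (hκ : 0 < κ) (a : E) :
    {z : E | z ^ κ = a}.encard ≤ κ := by
  classical
  have h1 : {z : E | z ^ κ = a} = ↑(nthRootsFinset κ a) := by
    ext z
    simp [mem_nthRootsFinset hκ]
  rw [h1, Set.encard_coe_eq_coe_finsetCard]
  exact_mod_cast (Multiset.toFinset_card_le _).trans (card_nthRoots κ a)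

private theorem logc_min {L : ℕ} (f : Fin L → ℝ) (hf : ∀ i, 0 < f i) :
    ∃ ρ : ℝ, 0 < ρ ∧ ρ ≤ 1 ∧ ∀ i, ρ ≤ f i := by
  rcases isEmpty_or_nonempty (Fin L) with h | h
  · exact ⟨1, one_pos, le_rfl, fun i => h.elim i⟩
  · obtain ⟨i, hi⟩ := Finite.exists_min f
    exact ⟨min 1 (f i), lt_min one_pos (hf i), min_le_left _ _,
      fun j => (min_le_right _ _).trans (hi j)⟩

private theorem logc_log (a S : ℕ) : Nat.log 2 (a * S) ≤ a + 1 + Nat.log 2 S := by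
  have h1 : a ≤ 2 ^ a := Nat.lt_two_pow_self.le
  have h2 : S ≤ 2 ^ (Nat.log 2 S + 1) := (Nat.lt_pow_succ_log_self one_lt_two S).le
  have h3 : a * S ≤ 2 ^ (a + 1 + Nat.log 2 S) := by
    calc a * S ≤ 2 ^ a * 2 ^ (Nat.log 2 S + 1) := Nat.mul_le_mul h1 h2
      _ = _ := by rw [← pow_add]; congr 1; ring
  exact (Nat.log_mono_right h3).trans (Nat.log_pow one_lt_two _).le

/-- The count on one branch. -/
private theorem logc_branch {p : ℕ} [Fact p.Prime] (β : Br p) {C : ℝ} (hC : 0 ≤ C) (D : ℕ) :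
    ∃ (r1 : ℝ) (B : ℕ), 0 < r1 ∧
      ∀ (K : IntermediateField ℚ_[p] ℂ_[p]) [FiniteDimensional ℚ_[p] K],
        Module.finrank ℚ_[p] K ≤ D → ap p β.c ∈ K → ap p β.c2 ∈ K → ∀ x0 ∈ K, ∀ y0 ∈ K, ∀ S : ℕ,
          {T ∈ BP β C r1 x0 y0 | (p : ℝ)⁻¹ ^ S ≤ ‖T.1‖}.encard ≤
            (B * (Nat.log 2 S + 1) : ℕ) := by
  obtain ⟨ra, hra, hgap⟩ := branch_gap β hC
  obtain ⟨rb, hrb, hsame⟩ := branch_same β hC
  obtain ⟨rc, hrc, hrat⟩ := branch_rational β hC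
  have hE : 0 < D.factorial := D.factorial_pos
  obtain ⟨C0, hC0⟩ := seq_log hE
  have hp1 : (1 : ℝ) < p := by exact_mod_cast (Fact.out : p.Prime).one_lt
  have hp0 : (0 : ℝ) < (p : ℝ)⁻¹ := inv_pos.2 (zero_lt_one.trans hp1)
  have hp2 : (p : ℝ)⁻¹ < 1 := inv_lt_one_of_one_lt₀ hp1
  have hκE : β.κ * D.factorial ≠ 0 := (Nat.mul_pos β.hκ hE).ne'
  refine ⟨min (min ra rb) (min rc 1), (C0 + β.κ * D.factorial + 1) * (β.κ * β.κ),
    lt_min (lt_min hra hrb) (lt_min hrc one_pos), ?_⟩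
  intro K _ hK hc hc2 x0 hx0 y0 hy0 S
  set r1 := min (min ra rb) (min rc 1) with hr1
  have ma := BP_mono β C (r := r1) ((min_le_left _ _).trans (min_le_left _ _)) x0 y0
  have mb := BP_mono β C (r := r1) ((min_le_left _ _).trans (min_le_right _ _)) x0 y0
  have mc := BP_mono β C (r := r1) ((min_le_right _ _).trans (min_le_left _ _)) x0 y0
  have h1 := logc_fibres (A := {T ∈ BP β C r1 x0 y0 | (p : ℝ)⁻¹ ^ S ≤ ‖T.1‖})
    (𝒮 := {s : ℕ | s ≤ β.κ * D.factorial * S ∧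
      ∃ T ∈ BP β C r1 x0 y0, ‖T.1‖ ^ (β.κ * D.factorial) = (p : ℝ)⁻¹ ^ s})
    (fun s => {T ∈ BP β C r1 x0 y0 | ‖T.1‖ ^ (β.κ * D.factorial) = (p : ℝ)⁻¹ ^ s})
    (n := C0 + Nat.log 2 (β.κ * D.factorial * S)) (q := β.κ * β.κ) ?_ ?_ ?_
  · refine h1.trans ?_
    have h2 := logc_log (β.κ * D.factorial) S
    have h3 : C0 + Nat.log 2 (β.κ * D.factorial * S) ≤
        (C0 + β.κ * D.factorial + 1) * (Nat.log 2 S + 1) := by
      nlinarith [Nat.zero_le ((C0 + β.κ * D.factorial) * Nat.log 2 S)]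
    have h4 := Nat.mul_le_mul_right (β.κ * β.κ) h3
    exact_mod_cast h4.trans_eq (by ring)
  · rintro T ⟨hT, hTS⟩
    have ht1 : ‖T.1‖ < 1 := hT.2.1.trans_le ((min_le_right _ _).trans (min_le_right _ _))
    obtain ⟨k, hk⟩ := norm_pow_factorial K hK (hrat K hc hc2 x0 hx0 y0 hy0 T (mc hT)).1
      (pow_ne_zero _ hT.1.1)
    rw [norm_pow, ← pow_mul] at hk
    have hk0 : k ≤ 0 := by
      have h2 : (p : ℝ) ^ k ≤ (p : ℝ) ^ (0 : ℤ) := by
        rw [← hk, zpow_zero]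
        exact pow_le_one₀ (norm_nonneg _) ht1.le
      exact (zpow_le_zpow_iff_right₀ hp1).1 h2
    obtain ⟨s, rfl⟩ := Int.exists_eq_neg_ofNat hk0
    rw [zpow_neg, zpow_natCast, ← inv_pow] at hk
    refine ⟨s, ⟨?_, T, hT, hk⟩, hT, hk⟩
    have h2 : (p : ℝ)⁻¹ ^ (β.κ * D.factorial * S) ≤ (p : ℝ)⁻¹ ^ s := by
      rw [← hk, mul_comm _ S, pow_mul]
      exact pow_le_pow_left₀ (pow_pos hp0 _).le hTS _
    exact (pow_le_pow_iff_right_of_lt_one₀ hp0 hp2).1 h2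
  · refine hC0 _ _ (fun s hs => hs.1) ?_
    rintro s1 ⟨-, T1, hT1, e1⟩ s2 ⟨-, T2, hT2, e2⟩ s3 ⟨-, T3, hT3, e3⟩ h12 h23
    exact hgap _ x0 y0 hE T1 (ma hT1) T2 (ma hT2) T3 (ma hT3) s1 s2 s3 h12 h23 e1 e2 e3
  · rintro s ⟨-, T0, hT0, e0⟩
    have h2 : {T ∈ BP β C r1 x0 y0 | ‖T.1‖ ^ (β.κ * D.factorial) = (p : ℝ)⁻¹ ^ s} ⊆
        {z | z ^ β.κ = T0.1 ^ β.κ} ×ˢ {z | z ^ β.κ = T0.2 ^ β.κ} := by
      rintro T ⟨hT, e⟩
      exact hsame x0 y0 T0 (mb hT0) T (mb hT)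
        ((pow_left_inj₀ (norm_nonneg _) (norm_nonneg _) hκE).1 (e0.trans e.symm))
    refine (Set.encard_le_encard h2).trans ?_
    rw [Set.encard_prod, Nat.cast_mul]
    exact mul_le_mul' (logc_roots β.hκ _) (logc_roots β.hκ _)

/-- Logarithmic bound for the number of points up to a given level. -/
theorem Good.log_count {F : ℤ[X][Y]} (hF : Good F) (p : ℕ) [Fact p.Prime]
    (hS : ¬ Sp (PadicAlgCl p) F) (D : ℕ) : ∃ B : ℕ,
      ∀ (K : IntermediateField ℚ_[p] ℂ_[p]) [FiniteDimensional ℚ_[p] K],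
        Module.finrank ℚ_[p] K ≤ D → ∀ x0 ∈ K, ∀ y0 ∈ K, ∀ S : ℕ,
          {P ∈ Pts F x0 y0 | (p : ℝ)⁻¹ ^ S ≤ ‖P.1‖}.encard ≤ (B * (Nat.log 2 S + 1) : ℕ) := by
  obtain ⟨m, L, β, C, r, hcu⟩ := hF.exists_cusp hS
  obtain ⟨D1, hD1⟩ := exists_field_sup p (ι := Fin L ⊕ Fin L)
    (Sum.elim (fun i => (β i).c) fun i => (β i).c2)
  choose r1 B hr1 hB using fun i => logc_branch (β i) hcu.hC (D * D1)
  obtain ⟨ρ, hρ0, hρ1, hρ⟩ := logc_min r1 hr1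
  obtain ⟨B1, hB1⟩ := hF.non_cusp (hF.not_dvd_Nq hS) p D (lt_min hcu.hr (pow_pos hρ0 m))
  refine ⟨B1 + ∑ i, B i, ?_⟩
  intro K _ hK x0 hx0 y0 hy0 S
  obtain ⟨K', _, hK', hle, hmem⟩ := hD1 D K hK
  have h1 := logc_union Finset.univ
    (fun i => (fun T : ℂ_[p] × ℂ_[p] => (T.1 ^ m, T.2)) ''
      {T ∈ BP (β i) C (r1 i) x0 y0 | (p : ℝ)⁻¹ ^ S ≤ ‖T.1‖})
    (fun i => B i * (Nat.log 2 S + 1)) fun i _ => (Set.encard_image_le _ _).trans
      (hB i K' hK' (hmem (Sum.inl i)) (hmem (Sum.inr i)) x0 (hle hx0) y0 (hle hy0) S)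
  refine (Set.encard_le_encard (t := _ ∪ _) fun P hP => ?_).trans
    ((Set.encard_union_le _ _).trans ((add_le_add (hB1 K hK x0 hx0 y0 hy0) h1).trans ?_))
  · obtain ⟨hP, hPS⟩ := hP
    by_cases h2 : ‖P.1‖ < min r (ρ ^ m) ∧ ‖P.2‖ < min r (ρ ^ m)
    · right
      obtain ⟨t, ht⟩ := IsAlgClosed.exists_pow_nat_eq P.1 hcu.hm
      obtain ⟨i, hi⟩ := hcu.br P hP.1 (h2.1.trans_le (min_le_left _ _))
        (h2.2.trans_le (min_le_left _ _)) t ht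
      have h3 : ‖t‖ < ρ := by
        refine lt_of_pow_lt_pow_left₀ m hρ0.le ?_
        rw [← norm_pow, ht]
        exact h2.1.trans_le (min_le_right _ _)
      refine Set.mem_biUnion (Finset.mem_coe.2 (Finset.mem_univ i))
        ⟨(t, P.2), ⟨⟨hi, h3.trans_le (hρ i), InG.of_pow hcu.hm (ht ▸ hP.2.1), hP.2.2⟩, ?_⟩, ?_⟩
      · refine hPS.trans ?_
        rw [← ht, norm_pow]
        exact pow_le_of_le_one (norm_nonneg _) (h3.le.trans hρ1) hcu.hm.ne'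
      · exact Prod.ext ht rfl
    · exact Or.inl ⟨hP, h2⟩
  · rw [← Nat.cast_add, Nat.cast_le, ← Finset.sum_mul]
    nlinarith [Nat.zero_le (B1 * Nat.log 2 S)]

end Pool.Agent.UAP
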