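import Pool.Agent.Lib.MP_7e5527_ag.Unif

open Polynomial UpperHalfPlane
open scoped Polynomial.Bivariate MatrixGroups IntermediateField

noncomputable section

namespace Pool.Agent.UAP

private def evQ (P : ℂ × ℂ) : ℚ[X][Y] →ₐ[ℚ] ℂ := aevalAeval P.1 P.2

private lemma evQ_toQ (P : ℂ × ℂ) (G : ℤ[X][Y]) : evQ P (toQ G) = ev2 P.1 P.2 G := by
  have : ((evQ P : ℚ[X][Y] →+* ℂ).comp toQ) = ev2 P.1 P.2 := by
    refine Polynomial.ringHom_ext' (Polynomial.ringHom_ext' (RingHom.ext_int _ _) ?_) ?_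
    · simp [evQ, toQ, ev2, ev1]
    · simp [evQ, toQ, ev2, ev1]
  exact congrArg (fun φ : ℤ[X][Y] →+* ℂ => φ G) this

private def IsInt (f : ℚ[X][Y]) : Prop :=
  ∃ (G : ℤ[X][Y]) (c : ℤ), c ≠ 0 ∧ toQ G = (c : ℚ[X][Y]) * f

private lemma IsInt.add {f g : ℚ[X][Y]} (hf : IsInt f) (hg : IsInt g) : IsInt (f + g) := by
  obtain ⟨G, c, hc, h⟩ := hf
  obtain ⟨G', c', hc', h'⟩ := hg
  refine ⟨c' * G + c * G', c * c', mul_ne_zero hc hc', ?_⟩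
  simp only [map_add, map_mul, map_intCast, h, h', Int.cast_mul]
  ring

private lemma IsInt.mul {f g : ℚ[X][Y]} (hf : IsInt f) (hg : IsInt g) : IsInt (f * g) := by
  obtain ⟨G, c, hc, h⟩ := hf
  obtain ⟨G', c', hc', h'⟩ := hg
  refine ⟨G * G', c * c', mul_ne_zero hc hc', ?_⟩
  simp only [map_mul, h, h', Int.cast_mul]
  ring

private lemma isInt_toQ (G : ℤ[X][Y]) : IsInt (toQ G) := ⟨G, 1, one_ne_zero, by simp⟩

private lemma isInt_CC (q : ℚ) : IsInt (C (C q)) := by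
  refine ⟨(q.num : ℤ[X][Y]), q.den, by exact_mod_cast q.den_ne_zero, ?_⟩
  have h1 : ((q.den : ℤ) : ℚ[X][Y]) = C (C ((q.den : ℤ) : ℚ)) := by simp
  have h2 : toQ (q.num : ℤ[X][Y]) = C (C (q.num : ℚ)) := by simp
  rw [h1, h2, ← map_mul, ← map_mul]
  congr 2
  push_cast
  rw [mul_comm, Rat.mul_den_eq_num]

private lemma isInt_all (f : ℚ[X][Y]) : IsInt f := by
  induction f using Polynomial.induction_on' with
  | add p q hp hq => exact hp.add hq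
  | monomial n a =>
    rw [← C_mul_X_pow_eq_monomial]
    refine IsInt.mul ?_ ?_
    · induction a using Polynomial.induction_on' with
      | add p q hp hq => rw [map_add]; exact hp.add hq
      | monomial m q =>
        rw [← C_mul_X_pow_eq_monomial, map_mul]
        refine (isInt_CC q).mul ?_
        have := isInt_toQ (C (X ^ m))
        simpa [toQ] using this
    · have := isInt_toQ (X ^ n)
      simpa [toQ] using this

private def bad (f : ℚ[X][Y]) (A1 A2 : Set ℂ) : Set (ℂ × ℂ) :=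
  {P | evQ P f = 0 ∧ P.1 ∈ A1 ∧ P.2 ∈ A2 ∧
    ¬ ∃ W, IsWeaklySpecialCurve W ∧ W ⊆ {P | evQ P f = 0} ∧ P ∈ W}

private lemma bad_mul (f g : ℚ[X][Y]) (A1 A2 : Set ℂ) :
    bad (f * g) A1 A2 ⊆ bad f A1 A2 ∪ bad g A1 A2 := by
  rintro P ⟨h0, h1, h2, h3⟩
  rw [map_mul, mul_eq_zero] at h0
  rcases h0 with h0 | h0
  · refine Or.inl ⟨h0, h1, h2, fun ⟨W, hW, hs, hP⟩ => h3 ⟨W, hW, fun Q hQ => ?_, hP⟩⟩
    have : evQ Q f = 0 := hs hQ
    show evQ Q (f * g) = 0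
    rw [map_mul, this, zero_mul]
  · refine Or.inr ⟨h0, h1, h2, fun ⟨W, hW, hs, hP⟩ => h3 ⟨W, hW, fun Q hQ => ?_, hP⟩⟩
    have : evQ Q g = 0 := hs hQ
    show evQ Q (f * g) = 0
    rw [map_mul, this, mul_zero]

private def Bd (p : ℕ) [Fact p.Prime] (D : ℕ) (f : ℚ[X][Y]) : Prop :=
  ∃ B : ℕ, ∀ (ι : PadicAlgCl p →+* ℂ) (a₁ a₂ : PadicAlgCl p), 1 < ‖a₁‖ → 1 < ‖a₂‖ →
    (minpoly ℚ_[p] a₁).natDegree ≤ D → (minpoly ℚ_[p] a₂).natDegree ≤ D →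
    (bad f (heckeOrbit (ι a₁)) (heckeOrbit (ι a₂))).encard ≤ B

private lemma bd_of_empty (p : ℕ) [Fact p.Prime] (D : ℕ) {f : ℚ[X][Y]}
    (h : ∀ P, evQ P f = 0 → ∃ W, IsWeaklySpecialCurve W ∧ W ⊆ {P | evQ P f = 0} ∧ P ∈ W) :
    Bd p D f := by
  refine ⟨0, fun ι a₁ a₂ _ _ _ _ => ?_⟩
  have : bad f (heckeOrbit (ι a₁)) (heckeOrbit (ι a₂)) = ∅ := by
    ext P
    simp only [Set.mem_empty_iff_false, iff_false]
    rintro ⟨h0, -, -, h3⟩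
    exact h3 (h P h0)
  simp [this]

private lemma bd_irr (p : ℕ) [Fact p.Prime] (D : ℕ) {f : ℚ[X][Y]} (hf : Irreducible f) :
    Bd p D f := by
  obtain ⟨G, c, hc, hG⟩ := isInt_all f
  have hu : IsUnit (c : ℚ[X][Y]) := by
    have : (c : ℚ[X][Y]) = C (C (c : ℚ)) := by simp
    rw [this]
    exact isUnit_C.2 (isUnit_C.2 (IsUnit.mk0 _ (by exact_mod_cast hc)))
  have hirr : Irreducible (toQ G) := by
    rw [hG]
    exact (irreducible_isUnit_mul hu).2 hf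
  have hev : ∀ P : ℂ × ℂ, evQ P f = 0 ↔ ev2 P.1 P.2 G = 0 := by
    intro P
    rw [← evQ_toQ, hG, map_mul, map_intCast, mul_eq_zero]
    have : (c : ℂ) ≠ 0 := by exact_mod_cast hc
    simp [this]
  by_cases hY : G.natDegree = 0
  · refine bd_of_empty p D fun P hP => ⟨{Q | Q.1 = P.1}, Or.inl ⟨P.1, rfl⟩, fun Q hQ => ?_, rfl⟩
    have hQ' : Q.1 = P.1 := hQ
    show evQ Q f = 0
    rw [hev] at hP ⊢
    rw [eq_C_of_natDegree_eq_zero hY, ev2_C] at hP ⊢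
    rwa [hQ']
  by_cases hX : (sw G).natDegree = 0
  · refine bd_of_empty p D fun P hP =>
      ⟨{Q | Q.2 = P.2}, Or.inr (Or.inl ⟨P.2, rfl⟩), fun Q hQ => ?_, rfl⟩
    have hQ' : Q.2 = P.2 := hQ
    show evQ Q f = 0
    rw [hev] at hP ⊢
    rw [← ev2_sw, eq_C_of_natDegree_eq_zero hX, ev2_C] at hP ⊢
    rwa [hQ']
  have hgood : Good G := ⟨hirr, Nat.pos_of_ne_zero hY, Nat.pos_of_ne_zero hX⟩
  by_cases hs : ∃ g : GL (Fin 2) ℚ, 0 < (g : Matrix (Fin 2) (Fin 2) ℚ).det ∧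
      ∀ τ : ℍ, ev2 (jf τ) (jf (act g τ)) G = 0
  · obtain ⟨g, hg, h⟩ := hs
    refine bd_of_empty p D fun P hP => ⟨_, Or.inr (Or.inr ⟨g, hg, rfl⟩), ?_, ?_⟩
    · rintro Q ⟨τ, rfl⟩
      exact (hev _).2 (h τ)
    · obtain ⟨τ, h1, h2⟩ := hgood.eq_modular hg h ((hev P).1 hP)
      exact ⟨τ, Prod.ext h1 h2⟩
  · obtain ⟨B, hB⟩ := hgood.uniform hs p D
    refine ⟨B, fun ι a₁ a₂ h1 h2 h3 h4 => le_trans (Set.encard_le_encard ?_) (hB ι a₁ a₂ h1 h2 h3 h4)⟩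
    rintro P ⟨h0, hP1, hP2, -⟩
    exact ⟨(hev P).1 h0, hP1, hP2⟩

private lemma bd_all (p : ℕ) [Fact p.Prime] (D : ℕ) (f : ℚ[X][Y]) (hf : f ≠ 0) : Bd p D f := by
  induction f using WfDvdMonoid.induction_on_irreducible with
  | zero => exact absurd rfl hf
  | unit u hu =>
    refine bd_of_empty p D fun P hP => ?_
    exact absurd hP (hu.map (evQ P)).ne_zero
  | mul a i ha hi ih =>
    obtain ⟨B1, h1⟩ := bd_irr p D hi
    obtain ⟨B2, h2⟩ := ih ha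
    refine ⟨B1 + B2, fun ι a₁ a₂ k1 k2 k3 k4 => ?_⟩
    refine le_trans (Set.encard_le_encard (bad_mul i a _ _)) (le_trans (Set.encard_union_le _ _) ?_)
    push_cast
    exact add_le_add (h1 ι a₁ a₂ k1 k2 k3 k4) (h2 ι a₁ a₂ k1 k2 k3 k4)

theorem main (p : ℕ) [Fact p.Prime] (D : ℕ) (F : MvPolynomial (Fin 2) ℚ) (hF : F ≠ 0) :
    ∃ B : ℕ, ∀ (ι : PadicAlgCl p →+* ℂ) (a₁ a₂ : PadicAlgCl p), 1 < ‖a₁‖ → 1 < ‖a₂‖ →
      (minpoly ℚ_[p] a₁).natDegree ≤ D → (minpoly ℚ_[p] a₂).natDegree ≤ D →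
      {P ∈ zeroSet F | P.1 ∈ heckeOrbit (ι a₁) ∧ P.2 ∈ heckeOrbit (ι a₂) ∧
        ¬ ∃ W, IsWeaklySpecialCurve W ∧ W ⊆ zeroSet F ∧ P ∈ W}.encard ≤ B := by
  set f : ℚ[X][Y] := (Polynomial.Bivariate.equivMvPolynomial ℚ).symm F with hf
  have hf0 : f ≠ 0 := by
    rw [hf]
    exact (map_ne_zero_iff _ (Polynomial.Bivariate.equivMvPolynomial ℚ).symm.injective).2 hF
  have hz : zeroSet F = {P | evQ P f = 0} := by
    ext P
    have : (evQ P).comp ((Polynomial.Bivariate.equivMvPolynomial ℚ).symm :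
        MvPolynomial (Fin 2) ℚ →ₐ[ℚ] ℚ[X][Y]) = MvPolynomial.aeval ![P.1, P.2] := by
      refine MvPolynomial.algHom_ext fun i => ?_
      fin_cases i <;> simp [evQ]
    have h2 := congrArg (fun φ : MvPolynomial (Fin 2) ℚ →ₐ[ℚ] ℂ => φ F) this
    simp only [zeroSet, Set.mem_ofPred_eq, ← h2]
    rfl
  obtain ⟨B, hB⟩ := bd_all p D f hf0
  refine ⟨B, fun ι a₁ a₂ k1 k2 k3 k4 => ?_⟩
  have := hB ι a₁ a₂ k1 k2 k3 k4
  rw [hz]
  exact this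

end Pool.Agent.UAP
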