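import Pool.Agent.Lib.MP_7e5527_ag.Bez

open Polynomial UpperHalfPlane
open scoped Polynomial.Bivariate MatrixGroups IntermediateField

noncomputable section

namespace Pool.Agent.UAP

section Aux

variable {E : Type*} [NormedField E] [IsUltrametricDist E]

private theorem newt_add {a b : E} {r : ℝ} (ha : ‖a‖ ≤ r) (hb : ‖b‖ ≤ r) : ‖a + b‖ ≤ r :=
  (IsUltrametricDist.norm_add_le_max a b).trans (max_le ha hb)

private theorem newt_sub {a b : E} {r : ℝ} (ha : ‖a‖ ≤ r) (hb : ‖b‖ ≤ r) : ‖a - b‖ ≤ r := by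
  rw [sub_eq_add_neg]
  exact newt_add ha (by rwa [norm_neg])

omit [IsUltrametricDist E] in
private theorem newt_mul {a b : E} {r s : ℝ} (ha : ‖a‖ ≤ r) (hb : ‖b‖ ≤ s) : ‖a * b‖ ≤ r * s := by
  rw [norm_mul]
  exact mul_le_mul ha hb (norm_nonneg _) ((norm_nonneg _).trans ha)

omit [IsUltrametricDist E] in
private theorem newt_mul1 {a b : E} {s : ℝ} (ha : ‖a‖ ≤ 1) (hb : ‖b‖ ≤ s) : ‖a * b‖ ≤ s := by
  simpa using newt_mul ha hb

omit [IsUltrametricDist E] in
private theorem newt_co (u v : Fin 2 → E) (i : Fin 2) : ‖v i - u i‖ ≤ ‖v - u‖ :=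
  norm_le_pi_norm (v - u) i

/-- Bounded by one and one-Lipschitz on the unit bidisc. -/
private def NewtA (f : MvPolynomial (Fin 2) E) : Prop :=
  (∀ u : Fin 2 → E, ‖u‖ ≤ 1 → ‖MvPolynomial.eval u f‖ ≤ 1) ∧
    ∀ u v : Fin 2 → E, ‖u‖ ≤ 1 → ‖v‖ ≤ 1 →
      ‖MvPolynomial.eval v f - MvPolynomial.eval u f‖ ≤ ‖v - u‖

private theorem NewtA.add {f g : MvPolynomial (Fin 2) E} (hf : NewtA f) (hg : NewtA g) :
    NewtA (f + g) := by
  refine ⟨fun u hu => ?_, fun u v hu hv => ?_⟩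
  · rw [map_add]
    exact newt_add (hf.1 u hu) (hg.1 u hu)
  · rw [map_add, map_add, add_sub_add_comm]
    exact newt_add (hf.2 u v hu hv) (hg.2 u v hu hv)

private theorem NewtA.sub {f g : MvPolynomial (Fin 2) E} (hf : NewtA f) (hg : NewtA g) :
    NewtA (f - g) := by
  refine ⟨fun u hu => ?_, fun u v hu hv => ?_⟩
  · rw [map_sub]
    exact newt_sub (hf.1 u hu) (hg.1 u hu)
  · rw [map_sub, map_sub, sub_sub_sub_comm]
    exact newt_sub (hf.2 u v hu hv) (hg.2 u v hu hv)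

private theorem NewtA.mul {f g : MvPolynomial (Fin 2) E} (hf : NewtA f) (hg : NewtA g) :
    NewtA (f * g) := by
  refine ⟨fun u hu => ?_, fun u v hu hv => ?_⟩
  · rw [map_mul]
    exact newt_mul1 (hf.1 u hu) (hg.1 u hu)
  · have e : MvPolynomial.eval v (f * g) - MvPolynomial.eval u (f * g) =
        MvPolynomial.eval v f * (MvPolynomial.eval v g - MvPolynomial.eval u g)
          + MvPolynomial.eval u g * (MvPolynomial.eval v f - MvPolynomial.eval u f) := by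
      rw [map_mul, map_mul]; ring
    rw [e]
    exact newt_add (newt_mul1 (hf.1 v hv) (hg.2 u v hu hv)) (newt_mul1 (hg.1 u hu) (hf.2 u v hu hv))

omit [IsUltrametricDist E] in
private theorem NewtA.const {c : E} (hc : ‖c‖ ≤ 1) : NewtA (MvPolynomial.C c) := by
  refine ⟨fun u _ => ?_, fun u v _ _ => ?_⟩
  · simpa using hc
  · simp

omit [IsUltrametricDist E] in
private theorem NewtA.var (i : Fin 2) : NewtA (MvPolynomial.X i : MvPolynomial (Fin 2) E) := by
  refine ⟨fun u hu => ?_, fun u v _ _ => ?_⟩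
  · simpa using (norm_le_pi_norm u i).trans hu
  · simpa using newt_co u v i

/-- First order Taylor formula with integral remainder term. -/
private def NewtB (f : MvPolynomial (Fin 2) E) : Prop :=
  NewtA f ∧ (∀ i, NewtA (MvPolynomial.pderiv i f)) ∧
    ∀ u v : Fin 2 → E, ‖u‖ ≤ 1 → ‖v‖ ≤ 1 →
      ‖MvPolynomial.eval v f - MvPolynomial.eval u f
        - (MvPolynomial.eval u (MvPolynomial.pderiv 0 f) * (v 0 - u 0)
          + MvPolynomial.eval u (MvPolynomial.pderiv 1 f) * (v 1 - u 1))‖ ≤ ‖v - u‖ * ‖v - u‖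

private theorem NewtB.add {f g : MvPolynomial (Fin 2) E} (hf : NewtB f) (hg : NewtB g) :
    NewtB (f + g) := by
  refine ⟨hf.1.add hg.1, fun i => ?_, fun u v hu hv => ?_⟩
  · rw [map_add]
    exact (hf.2.1 i).add (hg.2.1 i)
  · have h := newt_add (hf.2.2 u v hu hv) (hg.2.2 u v hu hv)
    convert h using 2
    simp only [map_add]
    ring

private theorem NewtB.mul {f g : MvPolynomial (Fin 2) E} (hf : NewtB f) (hg : NewtB g) :
    NewtB (f * g) := by
  refine ⟨hf.1.mul hg.1, fun i => ?_, fun u v hu hv => ?_⟩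
  · rw [MvPolynomial.pderiv_mul]
    exact ((hf.2.1 i).mul hg.1).add (hf.1.mul (hg.2.1 i))
  · have h := newt_add (newt_add (newt_mul1 (hf.1.1 u hu) (hg.2.2 u v hu hv))
      (newt_mul1 (hg.1.1 u hu) (hf.2.2 u v hu hv)))
      (newt_mul (hf.1.2 u v hu hv) (hg.1.2 u v hu hv))
    convert h using 2
    simp only [MvPolynomial.pderiv_mul, map_add, map_mul]
    ring

omit [IsUltrametricDist E] in
private theorem NewtB.const {c : E} (hc : ‖c‖ ≤ 1) : NewtB (MvPolynomial.C c) := by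
  refine ⟨NewtA.const hc, fun i => ?_, fun u v _ _ => ?_⟩
  · rw [MvPolynomial.pderiv_C, ← MvPolynomial.C_0]
    exact NewtA.const (by simp)
  · simp only [MvPolynomial.pderiv_C, MvPolynomial.eval_C, map_zero]
    simp only [sub_self, zero_mul, add_zero, norm_zero]
    positivity

omit [IsUltrametricDist E] in
private theorem NewtB.var (i : Fin 2) : NewtB (MvPolynomial.X i : MvPolynomial (Fin 2) E) := by
  refine ⟨NewtA.var i, fun j => ?_, fun u v _ _ => ?_⟩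
  · by_cases h : i = j
    · subst h
      rw [MvPolynomial.pderiv_X_self, ← MvPolynomial.C_1]
      exact NewtA.const (by simp)
    · rw [MvPolynomial.pderiv_X_of_ne h, ← MvPolynomial.C_0]
      exact NewtA.const (by simp)
  · have h0 : 0 ≤ ‖v - u‖ * ‖v - u‖ := by positivity
    fin_cases i
    · simpa [MvPolynomial.pderiv_X_of_ne] using h0
    · simpa [MvPolynomial.pderiv_X_of_ne] using h0

private theorem NewtB.pow {f : MvPolynomial (Fin 2) E} (hf : NewtB f) (n : ℕ) : NewtB (f ^ n) := by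
  induction n with
  | zero =>
    rw [pow_zero, ← MvPolynomial.C_1]
    exact NewtB.const (by simp)
  | succ n ih =>
    rw [pow_succ]
    exact ih.mul hf

private theorem newtB_of_coeff (f : MvPolynomial (Fin 2) E) (hf : ∀ m, ‖f.coeff m‖ ≤ 1) :
    NewtB f := by
  rw [f.as_sum]
  refine Finset.sum_induction _ NewtB (fun a b => NewtB.add) ?_ fun m _ => ?_
  · rw [← MvPolynomial.C_0]
    exact NewtB.const (by simp)
  · rw [MvPolynomial.monomial_eq, Finsupp.prod_fintype _ _ (by simp), Fin.prod_univ_two]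
    exact (NewtB.const (hf m)).mul (((NewtB.var 0).pow _).mul ((NewtB.var 1).pow _))

private theorem NewtB.err {f : MvPolynomial (Fin 2) E} (hf : NewtB f) {u v w : Fin 2 → E} {ρ : ℝ}
    (hu : ‖u‖ ≤ 1) (hv : ‖v‖ ≤ 1) (hw : ‖w‖ ≤ 1) (hwu : ‖w - u‖ ≤ ρ) (hvw : ‖v - w‖ ≤ ρ) :
    ‖MvPolynomial.eval v f - MvPolynomial.eval w f
      - (MvPolynomial.eval u (MvPolynomial.pderiv 0 f) * (v 0 - w 0)
        + MvPolynomial.eval u (MvPolynomial.pderiv 1 f) * (v 1 - w 1))‖ ≤ ρ * ‖v - w‖ := by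
  have h1 := (hf.2.2 w v hw hv).trans (mul_le_mul_of_nonneg_right hvw (norm_nonneg _))
  have h2 := newt_mul (((hf.2.1 0).2 u w hu hw).trans hwu) (newt_co w v 0)
  have h3 := newt_mul (((hf.2.1 1).2 u w hu hw).trans hwu) (newt_co w v 1)
  convert newt_add h1 (newt_add h2 h3) using 2
  ring

private theorem newt_pi_add {a b : Fin 2 → E} {r : ℝ} (ha : ‖a‖ ≤ r) (hb : ‖b‖ ≤ r) :
    ‖a + b‖ ≤ r := by
  refine (pi_norm_le_iff_of_nonneg ((norm_nonneg _).trans ha)).2 fun i => ?_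
  exact newt_add ((norm_le_pi_norm a i).trans ha) ((norm_le_pi_norm b i).trans hb)

private theorem newt_pi_sub {a b : Fin 2 → E} {r : ℝ} (ha : ‖a‖ ≤ r) (hb : ‖b‖ ≤ r) :
    ‖a - b‖ ≤ r := by
  rw [sub_eq_add_neg]
  exact newt_pi_add ha (by rwa [norm_neg])

/-- Newton iteration: an approximate nondegenerate zero is close to an exact zero. -/
private theorem newt_zero [CompleteSpace E] {g h : MvPolynomial (Fin 2) E} (hg : NewtB g)
    (hh : NewtB h) {η : ℝ} (hη : 0 < η) (hη1 : η ≤ 1) {u : Fin 2 → E} (hu : ‖u‖ ≤ 1)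
    (hgu : ‖MvPolynomial.eval u g‖ < η ^ 2) (hhu : ‖MvPolynomial.eval u h‖ < η ^ 2)
    (hJ : η ≤ ‖MvPolynomial.eval u (MvPolynomial.pderiv 0 g * MvPolynomial.pderiv 1 h
      - MvPolynomial.pderiv 1 g * MvPolynomial.pderiv 0 h)‖) :
    ∃ v : Fin 2 → E, ‖v - u‖ < η ∧ MvPolynomial.eval v g = 0 ∧ MvPolynomial.eval v h = 0 ∧
      MvPolynomial.eval v (MvPolynomial.pderiv 0 g * MvPolynomial.pderiv 1 h
        - MvPolynomial.pderiv 1 g * MvPolynomial.pderiv 0 h) ≠ 0 := by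
  have hJA : NewtA (MvPolynomial.pderiv 0 g * MvPolynomial.pderiv 1 h
      - MvPolynomial.pderiv 1 g * MvPolynomial.pderiv 0 h) :=
    ((hg.2.1 0).mul (hh.2.1 1)).sub ((hg.2.1 1).mul (hh.2.1 0))
  obtain ⟨a, ha⟩ : ∃ a, a = MvPolynomial.eval u (MvPolynomial.pderiv 0 g) := ⟨_, rfl⟩
  obtain ⟨b, hb⟩ : ∃ b, b = MvPolynomial.eval u (MvPolynomial.pderiv 1 g) := ⟨_, rfl⟩
  obtain ⟨c, hc⟩ : ∃ c, c = MvPolynomial.eval u (MvPolynomial.pderiv 0 h) := ⟨_, rfl⟩
  obtain ⟨d, hd⟩ : ∃ d, d = MvPolynomial.eval u (MvPolynomial.pderiv 1 h) := ⟨_, rfl⟩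
  have ha1 : ‖a‖ ≤ 1 := ha ▸ (hg.2.1 0).1 u hu
  have hb1 : ‖b‖ ≤ 1 := hb ▸ (hg.2.1 1).1 u hu
  have hc1 : ‖c‖ ≤ 1 := hc ▸ (hh.2.1 0).1 u hu
  have hd1 : ‖d‖ ≤ 1 := hd ▸ (hh.2.1 1).1 u hu
  have hD : η ≤ ‖a * d - b * c‖ := by
    simpa only [map_sub, map_mul, ← ha, ← hb, ← hc, ← hd] using hJ
  have hD0 : a * d - b * c ≠ 0 := norm_pos_iff.1 (hη.trans_le hD)
  have hdiv : ∀ (x : E) (r : ℝ), ‖x‖ ≤ r → ‖x / (a * d - b * c)‖ ≤ r / η := fun x r hx => by
    rw [norm_div]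
    exact div_le_div₀ ((norm_nonneg _).trans hx) hx hη hD
  obtain ⟨μ, hμ⟩ : ∃ μ, μ = max ‖MvPolynomial.eval u g‖ ‖MvPolynomial.eval u h‖ := ⟨_, rfl⟩
  have hμ0 : 0 ≤ μ := hμ ▸ le_max_of_le_left (norm_nonneg _)
  have hμ2 : μ < η ^ 2 := hμ ▸ max_lt hgu hhu
  have hρ0 : 0 ≤ μ / η := div_nonneg hμ0 hη.le
  have hρ : μ / η < η := by rw [div_lt_iff₀ hη, ← sq]; exact hμ2
  have hK0 : 0 ≤ μ / η / η := div_nonneg hρ0 hη.le
  have hK : μ / η / η < 1 := (div_lt_one hη).2 hρ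
  let T : (Fin 2 → E) → Fin 2 → E := fun v =>
    v - ![(d * MvPolynomial.eval v g - b * MvPolynomial.eval v h) / (a * d - b * c),
      (a * MvPolynomial.eval v h - c * MvPolynomial.eval v g) / (a * d - b * c)]
  have hone : ∀ v : Fin 2 → E, ‖v - u‖ ≤ μ / η → ‖v‖ ≤ 1 := fun v hv => by
    have := newt_pi_add (hv.trans (hρ.le.trans hη1)) hu
    rwa [sub_add_cancel] at this
  have hlip : ∀ v w : Fin 2 → E, ‖v - u‖ ≤ μ / η → ‖w - u‖ ≤ μ / η →
      ‖T v - T w‖ ≤ μ / η / η * ‖v - w‖ := fun v w hv hw => by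
    have hvw : ‖v - w‖ ≤ μ / η := by
      have := newt_pi_sub hv hw
      rwa [sub_sub_sub_cancel_right] at this
    have e1 := hg.err hu (hone v hv) (hone w hw) hw hvw
    have e2 := hh.err hu (hone v hv) (hone w hw) hw hvw
    rw [← ha, ← hb] at e1
    rw [← hc, ← hd] at e2
    rw [div_mul_eq_mul_div]
    refine (pi_norm_le_iff_of_nonneg (by positivity)).2 fun i => ?_
    fin_cases i
    · refine le_of_eq_of_le (congrArg _ ?_)
        (hdiv _ _ (newt_sub (newt_mul1 hb1 e2) (newt_mul1 hd1 e1)))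
      simp only [T, Fin.zero_eta, Pi.sub_apply, Matrix.cons_val_zero]
      linear_combination (w 0 - v 0) * mul_inv_cancel₀ hD0
    · refine le_of_eq_of_le (congrArg _ ?_)
        (hdiv _ _ (newt_sub (newt_mul1 hc1 e1) (newt_mul1 ha1 e2)))
      simp only [T, Fin.mk_one, Pi.sub_apply, Matrix.cons_val_one, Matrix.cons_val_zero]
      linear_combination (w 1 - v 1) * mul_inv_cancel₀ hD0
  have hTu : ‖T u - u‖ ≤ μ / η := by
    have g1 : ‖MvPolynomial.eval u g‖ ≤ μ := hμ ▸ le_max_left _ _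
    have h1 : ‖MvPolynomial.eval u h‖ ≤ μ := hμ ▸ le_max_right _ _
    simp only [T, sub_sub_cancel_left, norm_neg]
    refine (pi_norm_le_iff_of_nonneg hρ0).2 fun i => ?_
    fin_cases i
    · exact hdiv _ _ (newt_sub (newt_mul1 hd1 g1) (newt_mul1 hb1 h1))
    · exact hdiv _ _ (newt_sub (newt_mul1 ha1 h1) (newt_mul1 hc1 g1))
  have hu0 : ‖u - u‖ ≤ μ / η := by simpa using hρ0
  have hmaps : Set.MapsTo T (Metric.closedBall u (μ / η)) (Metric.closedBall u (μ / η)) := by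
    intro v hv
    rw [mem_closedBall_iff_norm] at hv ⊢
    have h1 : ‖T v - T u‖ ≤ μ / η :=
      (hlip v u hv hu0).trans ((mul_le_of_le_one_left (norm_nonneg _) hK.le).trans hv)
    have := newt_pi_add h1 hTu
    rwa [sub_add_sub_cancel] at this
  have hcon : ContractingWith ⟨μ / η / η, hK0⟩ (hmaps.restrict T _ _) := by
    refine ⟨by exact_mod_cast hK, LipschitzWith.of_dist_le_mul fun v w => ?_⟩
    have := hlip v w (mem_closedBall_iff_norm.1 v.2) (mem_closedBall_iff_norm.1 w.2)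
    rw [Subtype.dist_eq, Subtype.dist_eq, dist_eq_norm, dist_eq_norm]
    exact this
  obtain ⟨v, hv, hfix, -⟩ := ContractingWith.exists_fixedPoint' Metric.isClosed_closedBall.isComplete
    hmaps hcon (Metric.mem_closedBall_self hρ0) (edist_ne_top _ _)
  rw [mem_closedBall_iff_norm] at hv
  have f0 := congrFun hfix 0
  have f1 := congrFun hfix 1
  simp only [T, Pi.sub_apply, Matrix.cons_val_zero, Matrix.cons_val_one, sub_eq_self,
    div_eq_zero_iff, hD0, or_false] at f0 f1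
  refine ⟨v, hv.trans_lt hρ, ?_, ?_, fun h0 => ?_⟩
  · refine (mul_eq_zero.1 ?_).resolve_left hD0
    linear_combination a * f0 + b * f1
  · refine (mul_eq_zero.1 ?_).resolve_left hD0
    linear_combination c * f0 + d * f1
  · have := hJA.2 u v hu (hone v hv)
    rw [h0, zero_sub, norm_neg] at this
    linarith

end Aux

/-- Few separated approximate nondegenerate zeros. -/
theorem exists_approx_bezout (p : ℕ) [Fact p.Prime] (d : ℕ) : ∃ B : ℕ,
    ∀ g h : MvPolynomial (Fin 2) ℂ_[p], g.totalDegree ≤ d → h.totalDegree ≤ d →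
      (∀ m, ‖g.coeff m‖ ≤ 1) → (∀ m, ‖h.coeff m‖ ≤ 1) →
      ∀ η : ℝ, 0 < η → η ≤ 1 → ∀ U : Set (Fin 2 → ℂ_[p]), (∀ u ∈ U, ‖u‖ ≤ 1) →
        (∀ u ∈ U, ∀ u' ∈ U, u ≠ u' → η ≤ ‖u - u'‖) →
        (∀ u ∈ U, ‖MvPolynomial.eval u g‖ < η ^ 2 ∧ ‖MvPolynomial.eval u h‖ < η ^ 2 ∧
          η ≤ ‖MvPolynomial.eval u (MvPolynomial.pderiv 0 g * MvPolynomial.pderiv 1 h
            - MvPolynomial.pderiv 1 g * MvPolynomial.pderiv 0 h)‖) → U.encard ≤ B := by
  obtain ⟨B, hB⟩ := exists_bezout d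
  refine ⟨B, fun g h hg hh hgc hhc η hη hη1 U hU hsep happ => ?_⟩
  have key := fun (u : Fin 2 → ℂ_[p]) (hu : u ∈ U) =>
    newt_zero (newtB_of_coeff g hgc) (newtB_of_coeff h hhc) hη hη1 (hU u hu) (happ u hu).1
      (happ u hu).2.1 (happ u hu).2.2
  choose! z hz using key
  refine le_trans (Set.encard_le_encard_of_injOn (f := z) (fun u hu => (hz u hu).2) ?_)
    (hB _ g h hg hh)
  intro u hu u' hu' e
  by_contra hne
  have h1 := hsep u hu u' hu' hne
  have h2 := newt_pi_sub (le_max_right ‖z u - u‖ ‖z u' - u'‖) (le_max_left ‖z u - u‖ ‖z u' - u'‖)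
  rw [← e, sub_sub_sub_cancel_left, e] at h2
  have h3 := max_lt (hz u hu).1 (hz u' hu').1
  rw [e] at h3
  linarith

end Pool.Agent.UAP
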