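import Pool.Agent.Lib.MP_7e5527_ag.Psum2

open Polynomial UpperHalfPlane
open scoped Polynomial.Bivariate MatrixGroups IntermediateField

noncomputable section

namespace Pool.Agent.UAP

/-- Bidegree at most `(a, b)`. -/
def newton_BD (a b : ℕ) (Θ : ℤ[X][Y]) : Prop :=
  Θ.natDegree ≤ b ∧ ∀ i, (Θ.coeff i).natDegree ≤ a

theorem newton_BD_mono {a b a' b' : ℕ} {Θ : ℤ[X][Y]} (h : newton_BD a b Θ) (ha : a ≤ a')
    (hb : b ≤ b') : newton_BD a' b' Θ :=
  ⟨h.1.trans hb, fun i => (h.2 i).trans ha⟩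

theorem newton_BD_add {a b : ℕ} {Θ Ψ : ℤ[X][Y]} (h : newton_BD a b Θ) (h' : newton_BD a b Ψ) :
    newton_BD a b (Θ + Ψ) :=
  ⟨(natDegree_add_le _ _).trans (max_le h.1 h'.1), fun i => by
    rw [coeff_add]
    exact (natDegree_add_le _ _).trans (max_le (h.2 i) (h'.2 i))⟩

theorem newton_BD_mul {a b a' b' : ℕ} {Θ Ψ : ℤ[X][Y]} (h : newton_BD a b Θ)
    (h' : newton_BD a' b' Ψ) : newton_BD (a + a') (b + b') (Θ * Ψ) :=
  ⟨natDegree_mul_le.trans (add_le_add h.1 h'.1), fun i => by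
    rw [coeff_mul]
    exact natDegree_sum_le_of_forall_le _ _ fun c _ =>
      natDegree_mul_le.trans (add_le_add (h.2 _) (h'.2 _))⟩

theorem newton_BD_C {a : ℕ} {P : ℤ[X]} (h : P.natDegree ≤ a) :
    newton_BD a 0 (C P : ℤ[X][Y]) :=
  ⟨by simp, fun i => by
    rw [coeff_C]
    split_ifs
    · exact h
    · simp⟩

theorem newton_BD_map {b : ℕ} {P : ℤ[X]} (h : P.natDegree ≤ b) :
    newton_BD 0 b (P.map (C : ℤ →+* ℤ[X])) :=
  ⟨natDegree_map_le.trans h, fun i => by
    rw [coeff_map]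
    exact (natDegree_C _).le⟩

theorem newton_BD_sum {ι : Type*} {a b : ℕ} (s : Finset ι) (f : ι → ℤ[X][Y])
    (h : ∀ i ∈ s, newton_BD a b (f i)) : newton_BD a b (∑ i ∈ s, f i) :=
  ⟨natDegree_sum_le_of_forall_le _ _ fun i hi => (h i hi).1, fun k => by
    rw [finsetSum_coeff]
    exact natDegree_sum_le_of_forall_le _ _ fun i hi => (h i hi).2 k⟩

theorem newton_ev2_C {A : Type*} [CommRing A] (x y : A) (P : ℤ[X]) :
    ev2 x y (C P) = ev1 x P := by
  simp [ev2]

theorem newton_ev2_map {A : Type*} [CommRing A] (x y : A) (P : ℤ[X]) :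
    ev2 x y (P.map (C : ℤ →+* ℤ[X])) = ev1 y P := by
  have h : (ev1 x).comp (C : ℤ →+* ℤ[X]) = Int.castRingHom A := RingHom.ext_int _ _
  simp only [ev2, coe_eval₂RingHom, eval₂_map, h]
  rfl

theorem newton_map_ev1 {A B : Type*} [CommRing A] [CommRing B] (φ : A →+* B) (x : A)
    (P : ℤ[X]) : φ (ev1 x P) = ev1 (φ x) P := by
  have h : φ.comp (Int.castRingHom A) = Int.castRingHom B := RingHom.ext_int _ _
  simp only [ev1, coe_eval₂RingHom, hom_eval₂, h]

theorem newton_map_ev2 {A B : Type*} [CommRing A] [CommRing B] (φ : A →+* B) (x y : A)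
    (F : ℤ[X][Y]) : φ (ev2 x y F) = ev2 (φ x) (φ y) F := by
  have h : φ.comp (ev1 x) = ev1 (φ x) := RingHom.ext fun P => newton_map_ev1 φ x P
  simp only [ev2, coe_eval₂RingHom, hom_eval₂, h]

/-- Newton's identities for a family over a finite type. -/
theorem newton_esymm {A σ : Type*} [CommRing A] [Fintype σ] (e : ℤ[X][Y] →+* A) (z : σ → A)
    (hp : ∀ k, ∃ P, newton_BD k k P ∧ e P = ∑ g, z g ^ k) (k : ℕ) :
    ∃ Θ, newton_BD k k Θ ∧
      e Θ = (k.factorial : A) * MvPolynomial.aeval z (MvPolynomial.esymm σ ℤ k) := by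
  classical
  choose P hP hPe using hp
  induction k using Nat.strong_induction_on with
  | _ k ih =>
    rcases Nat.eq_zero_or_pos k with rfl | hk
    · refine ⟨1, ?_, by simp⟩
      have := newton_BD_C (a := 0) (P := 1) (by simp)
      simpa using this
    have ih' : ∀ m, ∃ Θ, m < k → (newton_BD m m Θ ∧
        e Θ = (m.factorial : A) * MvPolynomial.aeval z (MvPolynomial.esymm σ ℤ m)) := by
      intro m
      by_cases hm : m < k
      · obtain ⟨Θ, hΘ⟩ := ih m hm
        exact ⟨Θ, fun _ => hΘ⟩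
      · exact ⟨0, fun h => absurd h hm⟩
    choose E hE using ih'
    refine ⟨∑ a ∈ Finset.HasAntidiagonal.antidiagonal k with a.1 < k,
      C (C ((-1) ^ (k + 1 + a.1) * (((k - 1).factorial / a.1.factorial : ℕ) : ℤ))) *
        E a.1 * P a.2, ?_, ?_⟩
    · refine newton_BD_sum _ _ fun a ha => ?_
      rw [Finset.mem_filter, Finset.HasAntidiagonal.mem_antidiagonal] at ha
      have h1 := newton_BD_mul (newton_BD_mul (newton_BD_C (a := 0)
        (P := C ((-1) ^ (k + 1 + a.1) * (((k - 1).factorial / a.1.factorial : ℕ) : ℤ)))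
        (natDegree_C _).le) (hE a.1 ha.2).1) (hP a.2)
      exact newton_BD_mono h1 (by omega) (by omega)
    · have hN := congrArg (MvPolynomial.aeval z) (MvPolynomial.mul_esymm_eq_sum σ ℤ k)
      simp only [map_mul, map_natCast, map_pow, map_neg, map_one, map_sum] at hN
      have hk' : (k.factorial : A) = ((k - 1).factorial : A) * k := by
        obtain ⟨m, rfl⟩ : ∃ m, k = m + 1 := ⟨k - 1, by omega⟩
        rw [Nat.factorial_succ]
        simp [mul_comm]
      rw [hk', mul_assoc, hN, map_sum, Finset.mul_sum, Finset.mul_sum]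
      refine Finset.sum_congr rfl fun a ha => ?_
      rw [Finset.mem_filter, Finset.HasAntidiagonal.mem_antidiagonal] at ha
      have hd : ((k - 1).factorial : A) =
          (((k - 1).factorial / a.1.factorial : ℕ) : A) * (a.1.factorial : A) := by
        rw [← Nat.cast_mul, Nat.div_mul_cancel (Nat.factorial_dvd_factorial (by omega))]
      have hps : MvPolynomial.aeval z (MvPolynomial.psum σ ℤ a.2) = ∑ g, z g ^ a.2 := by
        simp [MvPolynomial.psum]
      have hc : ∀ c : ℤ, e (C (C c)) = (c : A) := fun c =>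
        eq_intCast (e.comp ((C : ℤ[X] →+* ℤ[X][Y]).comp (C : ℤ →+* ℤ[X]))) c
      rw [map_mul, map_mul, hc, (hE a.1 ha.2).2, hPe, hps]
      conv_rhs => rw [hd]
      generalize ((k - 1).factorial / a.1.factorial : ℕ) = q
      push_cast
      ring

theorem newton_ring {A ι : Type*} [CommRing A] (I : Finset ι) (x y : A) (φ ψ : ι → A)
    (h : ∀ k l : ℕ, ∃ P : ℤ[X], P.natDegree ≤ k + l ∧ ∑ g ∈ I, φ g ^ k * ψ g ^ l = ev1 x P)
    (α β γ : ℤ[X]) (hα : α.natDegree ≤ 1) (hβ : β.natDegree ≤ 1) (hγ : γ.natDegree ≤ 1) :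
    ∃ Θ, newton_BD I.card I.card Θ ∧ ev2 x y Θ = (I.card.factorial : A) *
      ∏ g ∈ I, (ev1 y α * φ g + ev1 y β * ψ g + ev1 y γ) := by
  classical
  have key : ∀ m k l : ℕ, ∃ P, newton_BD (k + l + m) m P ∧ ev2 x y P =
      ∑ g ∈ I, φ g ^ k * ψ g ^ l * (ev1 y α * φ g + ev1 y β * ψ g + ev1 y γ) ^ m := by
    intro m
    induction m with
    | zero =>
      intro k l
      obtain ⟨P, hP, hP'⟩ := h k l
      refine ⟨C P, newton_BD_C hP, ?_⟩
      rw [newton_ev2_C, ← hP']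
      simp
    | succ m ih =>
      intro k l
      obtain ⟨P1, h1, h1'⟩ := ih (k + 1) l
      obtain ⟨P2, h2, h2'⟩ := ih k (l + 1)
      obtain ⟨P3, h3, h3'⟩ := ih k l
      refine ⟨α.map C * P1 + β.map C * P2 + γ.map C * P3, ?_, ?_⟩
      · refine newton_BD_add (newton_BD_add ?_ ?_) ?_
        · exact newton_BD_mono (newton_BD_mul (newton_BD_map hα) h1) (by omega) (by omega)
        · exact newton_BD_mono (newton_BD_mul (newton_BD_map hβ) h2) (by omega) (by omega)
        · exact newton_BD_mono (newton_BD_mul (newton_BD_map hγ) h3) (by omega) (by omega)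
      · simp only [map_add, map_mul, newton_ev2_map, h1', h2', h3', Finset.mul_sum,
          ← Finset.sum_add_distrib]
        refine Finset.sum_congr rfl fun g _ => ?_
        ring
  obtain ⟨Θ, hΘ, hΘ'⟩ := newton_esymm (σ := I) (ev2 x y)
    (fun g => ev1 y α * φ g + ev1 y β * ψ g + ev1 y γ) (fun k => by
      obtain ⟨P, hP, hP'⟩ := key k 0 0
      refine ⟨P, by simpa using hP, ?_⟩
      rw [hP', ← Finset.sum_coe_sort I]
      simp) I.card
  refine ⟨Θ, hΘ, ?_⟩
  rw [hΘ']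
  congr 1
  have hc : I.card = (Finset.univ : Finset I).card := by simp
  rw [MvPolynomial.esymm, hc, Finset.powersetCard_self, Finset.sum_singleton, map_prod,
    ← Finset.prod_coe_sort I]
  simp

theorem exists_linP (p : ℕ) [Fact p.Prime] {N : ℕ} (hN : 0 < N) (α β γ : ℤ[X])
    (hα : α.natDegree ≤ 1) (hβ : β.natDegree ≤ 1) (hγ : γ.natDegree ≤ 1) :
    ∃ Θ, LinP p N α β γ Θ := by
  let S := {T : ℂ_[p] × ℂ_[p] × ℂ_[p] // IsPrimitiveRoot T.1 N ∧ T.2.1 ≠ 0 ∧ ‖T.2.1‖ < 1}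
  let A := (ℍ × ℂ → ℂ) × (S → ℂ_[p])
  let π1 : ℍ × ℂ → A →+* ℂ := fun T =>
    (Pi.evalRingHom (fun _ : ℍ × ℂ => ℂ) T).comp (RingHom.fst _ _)
  let π2 : S → A →+* ℂ_[p] := fun T =>
    (Pi.evalRingHom (fun _ : S => ℂ_[p]) T).comp (RingHom.snd _ _)
  have hext : ∀ a b : A, (∀ T, π1 T a = π1 T b) → (∀ T, π2 T a = π2 T b) → a = b :=
    fun a b h1 h2 => Prod.ext (funext h1) (funext h2)
  let x : A := (fun T => jf T.1, fun T => J (T.1.2.1 ^ N))
  let y : A := (fun T => T.2, fun T => T.1.2.2)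
  let φ : ℕ × ℕ × ℕ → A := fun g => (fun T => phiC g T.1, fun T => phiP N g T.1.1 T.1.2.1)
  let ψ : ℕ × ℕ × ℕ → A := fun g => (fun T => psiC g T.1, fun T => psiP N g T.1.1 T.1.2.1)
  obtain ⟨Θ, hΘ, hΘ'⟩ := newton_ring (Prim N) x y φ ψ (fun k l => by
    obtain ⟨P, hP, h1, h2⟩ := ps_prim p hN k l
    refine ⟨P, hP, hext _ _ (fun T => ?_) (fun T => ?_)⟩
    · rw [newton_map_ev1, map_sum]
      simp only [map_mul, map_pow]
      exact h1 T.1
    · rw [newton_map_ev1, map_sum]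
      simp only [map_mul, map_pow]
      exact h2 T.1.1 T.1.2.1 T.2.1 T.2.2.1 T.2.2.2) α β γ hα hβ hγ
  refine ⟨Θ, hΘ.1, hΘ.2, fun τ y0 => ?_, fun ζ t y0 hζ ht ht' => ?_⟩
  · have := congrArg (π1 (τ, y0)) hΘ'
    rw [newton_map_ev2, map_mul, map_natCast, map_prod] at this
    simp only [map_add, map_mul, newton_map_ev1] at this
    exact this
  · have := congrArg (π2 ⟨(ζ, t, y0), hζ, ht, ht'⟩) hΘ'
    rw [newton_map_ev2, map_mul, map_natCast, map_prod] at this
    simp only [map_add, map_mul, newton_map_ev1] at this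
    exact this

end Pool.Agent.UAP
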