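import Pool.Agent.Lib.MP_7e5527_ag.Ev

open Polynomial UpperHalfPlane
open scoped Polynomial.Bivariate MatrixGroups IntermediateField

noncomputable section

namespace Pool.Agent.UAP

variable {p : ℕ} [Fact p.Prime]

private lemma roots_norm_nat (n : ℕ) : ‖(n : ℂ_[p])‖ = ‖(n : ℚ_[p])‖ := by
  have h1 : (n : ℂ_[p]) = algebraMap ℚ_[p] ℂ_[p] (n : ℚ_[p]) := by simp
  rw [h1, norm_algebraMap']

private lemma roots_norm_p : ‖(p : ℂ_[p])‖ = (p : ℝ)⁻¹ := by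
  rw [roots_norm_nat, Padic.norm_p]

private lemma roots_norm_one {w : ℂ_[p]} {n : ℕ} (hn : 0 < n) (h : w ^ n = 1) : ‖w‖ = 1 := by
  have h1 : ‖w‖ ^ n = 1 := by rw [← norm_pow, h, norm_one]
  exact (pow_eq_one_iff_of_nonneg (norm_nonneg w) hn.ne').1 h1

private lemma roots_pow_sub {w : ℂ_[p]} (hw : ‖w‖ ≤ 1) (i : ℕ) : ‖w ^ i - 1‖ ≤ ‖w - 1‖ := by
  rw [← geom_sum_mul, norm_mul]
  refine mul_le_of_le_one_left (norm_nonneg _) ?_
  refine IsUltrametricDist.norm_sum_le_of_forall_le_of_nonneg zero_le_one fun j _ => ?_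
  rw [norm_pow]
  exact pow_le_one₀ (norm_nonneg _) hw

private lemma roots_geom {w : ℂ_[p]} (hw : ‖w‖ ≤ 1) (n : ℕ) :
    ‖∑ i ∈ Finset.range n, w ^ i - n‖ ≤ ‖w - 1‖ := by
  have h : ∑ i ∈ Finset.range n, w ^ i - n = ∑ i ∈ Finset.range n, (w ^ i - 1) := by
    rw [Finset.sum_sub_distrib]
    simp
  rw [h]
  exact IsUltrametricDist.norm_sum_le_of_forall_le_of_nonneg (norm_nonneg _)
    fun j _ => roots_pow_sub hw j

private lemma roots_norm_le {w : ℂ_[p]} {n : ℕ} (hn : 0 < n) (h : w ^ n = 1) (h1 : w ≠ 1) :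
    ‖(n : ℂ_[p])‖ ≤ ‖w - 1‖ := by
  have h2 : ∑ i ∈ Finset.range n, w ^ i = 0 := by
    have h3 := geom_sum_mul w n
    rw [h, sub_self] at h3
    exact (mul_eq_zero.1 h3).resolve_right (sub_ne_zero.2 h1)
  have h4 := roots_geom (roots_norm_one hn h).le n
  rwa [h2, zero_sub, norm_neg] at h4

theorem root_eq_one_of_coprime {ζ : ℂ_[p]} {r : ℕ} (hr : ¬ p ∣ r) (h : ζ ^ r = 1)
    (h1 : ‖ζ - 1‖ < 1) : ζ = 1 := by
  by_contra hne
  have hr0 : 0 < r := Nat.pos_of_ne_zero (by rintro rfl; exact hr (dvd_zero p))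
  have h2 := roots_norm_le hr0 h hne
  rw [roots_norm_nat, Padic.norm_natCast_eq_one_iff.2
    ((Nat.Prime.coprime_iff_not_dvd Fact.out).2 hr)] at h2
  linarith

private lemma roots_near_pow {ζ : ℂ_[p]} (h1 : ‖ζ - 1‖ < (p : ℝ)⁻¹) (s : ℕ)
    (h : ζ ^ p ^ s = 1) : ζ = 1 := by
  have hp : p.Prime := Fact.out
  induction s with
  | zero => simpa using h
  | succ s ih =>
    refine ih ?_
    by_contra hne
    have h2 := roots_norm_le hp.pos (by rw [← pow_mul, ← pow_succ, h]) hne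
    have h3 := roots_pow_sub (roots_norm_one (pow_pos hp.pos _) h).le (p ^ s)
    rw [roots_norm_p] at h2
    linarith

theorem root_eq_one_of_near {ζ : ℂ_[p]} {n : ℕ} (hn : 0 < n) (h : ζ ^ n = 1)
    (h1 : ‖ζ - 1‖ < (p : ℝ)⁻¹) : ζ = 1 := by
  have hp : p.Prime := Fact.out
  obtain ⟨s, r, hr, rfl⟩ := Nat.exists_eq_pow_mul_and_not_dvd hn.ne' p hp.ne_one
  refine roots_near_pow h1 s (root_eq_one_of_coprime hr (by rw [← pow_mul, h]) ?_)
  have h3 := roots_pow_sub (roots_norm_one hn h).le (p ^ s)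
  have h4 : (p : ℝ)⁻¹ < 1 := inv_lt_one_of_one_lt₀ (by exact_mod_cast hp.one_lt)
  linarith

private lemma roots_aeval_le {w : ℂ_[p]} (hw : ‖w‖ ≤ 1) (g : ℤ[X]) : ‖aeval w g‖ ≤ 1 := by
  induction g using Polynomial.induction_on' with
  | add f g hf hg =>
    rw [map_add]
    exact (IsUltrametricDist.norm_add_le_max _ _).trans (max_le hf hg)
  | monomial n a =>
    rw [aeval_monomial, norm_mul, norm_pow]
    refine mul_le_one₀ ?_ (by positivity) (pow_le_one₀ (norm_nonneg _) hw)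
    simpa using IsUltrametricDist.norm_intCast_le_one ℂ_[p] a

private lemma roots_ppow_lt {ξ : ℂ_[p]} {s : ℕ} (h : ξ ^ p ^ s = 1) : ‖ξ - 1‖ < 1 := by
  have hp : p.Prime := Fact.out
  have hξ := (roots_norm_one (pow_pos hp.pos _) h).le
  obtain ⟨g, hg⟩ := exists_add_pow_prime_pow_eq hp (X - 1 : ℤ[X]) 1 s
  have h2 := congrArg (aeval ξ) hg
  simp only [map_pow, map_add, map_sub, map_mul, map_one, aeval_X, map_natCast, sub_add_cancel,
    h, one_pow, mul_one] at h2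
  have h3 : (ξ - 1) ^ p ^ s = -((p : ℂ_[p]) * (ξ - 1) * aeval ξ g) := by linear_combination -h2
  have h4 : ‖ξ - 1‖ ≤ 1 := by
    have := roots_aeval_le hξ (X - 1)
    simpa using this
  have h5 : ‖ξ - 1‖ ^ p ^ s < 1 := by
    rw [← norm_pow, h3, norm_neg, norm_mul, norm_mul, roots_norm_p]
    have h6 : (p : ℝ)⁻¹ < 1 := inv_lt_one_of_one_lt₀ (by exact_mod_cast hp.one_lt)
    have h7 := roots_aeval_le hξ g
    calc (p : ℝ)⁻¹ * ‖ξ - 1‖ * ‖aeval ξ g‖ ≤ (p : ℝ)⁻¹ * 1 * 1 := by gcongr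
      _ < 1 := by linarith
  exact lt_of_pow_lt_pow_left₀ (p ^ s) zero_le_one (by rwa [one_pow])

private lemma roots_step {w : ℂ_[p]} (hw : ‖w‖ ≤ 1) :
    ‖w ^ p - 1‖ ≤ max (p : ℝ)⁻¹ ‖w - 1‖ * ‖w - 1‖ := by
  rw [← geom_sum_mul, norm_mul]
  refine mul_le_mul_of_nonneg_right ?_ (norm_nonneg _)
  have h : ∑ i ∈ Finset.range p, w ^ i = (p : ℂ_[p]) + (∑ i ∈ Finset.range p, w ^ i - p) := by
    ring
  rw [h]
  refine (IsUltrametricDist.norm_add_le_max _ _).trans ?_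
  rw [roots_norm_p]
  exact max_le_max le_rfl (roots_geom hw p)

theorem exists_ppow_bound (p : ℕ) [Fact p.Prime] {E : ℕ} (hE : 0 < E) :
    ∃ s1 : ℕ, ∀ (ξ : ℂ_[p]) (s : ℕ), ξ ^ p ^ s = 1 →
      (ξ ≠ 1 → ∃ k : ℤ, ‖ξ - 1‖ ^ E = (p : ℝ) ^ k) → ξ ^ p ^ s1 = 1 := by
  have hp' : p.Prime := Fact.out
  have hp : (1 : ℝ) < p := by exact_mod_cast hp'.one_lt
  have hp0 : (0 : ℝ) < p := by linarith
  obtain ⟨ρ, hρ⟩ : ∃ ρ : ℝ, ρ = ((p : ℝ)⁻¹) ^ ((E : ℝ)⁻¹) := ⟨_, rfl⟩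
  have hρ1 : ρ < 1 :=
    hρ ▸ Real.rpow_lt_one (by positivity) (inv_lt_one_of_one_lt₀ hp) (by positivity)
  obtain ⟨c, hc⟩ : ∃ c : ℝ, c = max (p : ℝ)⁻¹ ρ := ⟨_, rfl⟩
  have hc1 : c < 1 := hc ▸ max_lt (inv_lt_one_of_one_lt₀ hp) hρ1
  have hc0 : 0 ≤ c := hc ▸ le_max_of_le_left (by positivity)
  obtain ⟨s1, hs1⟩ := exists_pow_lt_of_lt_one (inv_pos.2 hp0) hc1
  refine ⟨s1, fun ξ s h hk => ?_⟩
  by_cases hne : ξ = 1
  · rw [hne, one_pow]
  obtain ⟨k, hk⟩ := hk hne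
  have ht1 := roots_ppow_lt h
  have h1 : (p : ℝ) ^ k < (p : ℝ) ^ (0 : ℤ) := by
    rw [← hk, zpow_zero]
    exact pow_lt_one₀ (norm_nonneg _) ht1 hE.ne'
  have hk0 : k < 0 := (zpow_lt_zpow_iff_right₀ hp).1 h1
  have h2 : ‖ξ - 1‖ ^ E ≤ (p : ℝ)⁻¹ := by
    rw [hk, ← zpow_neg_one]
    exact zpow_le_zpow_right₀ hp.le (by omega)
  have h3 : ‖ξ - 1‖ ≤ ρ := by
    calc ‖ξ - 1‖ = (‖ξ - 1‖ ^ E) ^ ((E : ℝ)⁻¹) :=
          (Real.pow_rpow_inv_natCast (norm_nonneg _) hE.ne').symm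
      _ ≤ ρ := hρ ▸ Real.rpow_le_rpow (by positivity) h2 (by positivity)
  have hξ := (roots_norm_one (pow_pos hp'.pos _) h).le
  have h4 : ∀ j : ℕ, ‖ξ ^ p ^ j - 1‖ ≤ c ^ j := by
    intro j
    induction j with
    | zero => simpa using ht1.le
    | succ j ih =>
      have h5 : ‖ξ ^ p ^ j‖ ≤ 1 := by
        rw [norm_pow]
        exact pow_le_one₀ (norm_nonneg _) hξ
      have h6 := roots_step h5
      rw [← pow_mul, ← pow_succ] at h6
      refine h6.trans ?_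
      rw [pow_succ']
      refine mul_le_mul ?_ ih (norm_nonneg _) hc0
      rw [hc]
      exact max_le_max le_rfl ((roots_pow_sub hξ _).trans h3)
  refine roots_near_pow ((h4 s1).trans_lt hs1) s ?_
  rw [← pow_mul, mul_comm, pow_mul, h, one_pow]

private lemma roots_pow_modEq {M : Type*} [Monoid M] {x : M} {n a b : ℕ} (h : x ^ n = 1)
    (hab : a ≡ b [MOD n]) : x ^ a = x ^ b := by
  rw [pow_eq_pow_mod a h, pow_eq_pow_mod b h, hab]

/-- Decomposition of a root of unity into its `p`-part and its prime-to-`p` part. -/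
theorem exists_root_decomp {ζ : ℂ_[p]} {s r : ℕ} (hr : ¬ p ∣ r) (h : ζ ^ (p ^ s * r) = 1) :
    ∃ a b : ℕ, ζ = ζ ^ a * ζ ^ b ∧ (ζ ^ a) ^ p ^ s = 1 ∧ (ζ ^ b) ^ r = 1 := by
  have hco : (p ^ s).Coprime r :=
    Nat.Coprime.pow_left s ((Nat.Prime.coprime_iff_not_dvd Fact.out).2 hr)
  obtain ⟨a, ha1, ha2⟩ := Nat.chineseRemainder hco 1 0
  obtain ⟨b, hb1, hb2⟩ := Nat.chineseRemainder hco 0 1
  refine ⟨a, b, ?_, ?_, ?_⟩
  · rw [← pow_add, roots_pow_modEq h ((Nat.modEq_and_modEq_iff_modEq_mul hco).1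
      ⟨ha1.add hb1, ha2.add hb2⟩), pow_one]
  · obtain ⟨c, rfl⟩ := (Nat.modEq_zero_iff_dvd).1 ha2
    rw [← pow_mul, show r * c * p ^ s = p ^ s * r * c by ring, pow_mul, h, one_pow]
  · obtain ⟨c, rfl⟩ := (Nat.modEq_zero_iff_dvd).1 hb1
    rw [← pow_mul, show p ^ s * c * r = p ^ s * r * c by ring, pow_mul, h, one_pow]

private lemma roots_geom_modEq {a q : ℕ} (ha : a ≡ 1 [MOD q]) (m : ℕ) :
    ∑ i ∈ Finset.range m, a ^ i ≡ m [MOD q] := by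
  induction m with
  | zero => simp [Nat.ModEq]
  | succ m ih =>
    rw [Finset.sum_range_succ]
    exact ih.add (by simpa using ha.pow m)

private lemma roots_geom_add (a k l : ℕ) : ∑ i ∈ Finset.range (k + l), a ^ i =
    ∑ i ∈ Finset.range k, a ^ i + a ^ k * ∑ i ∈ Finset.range l, a ^ i := by
  rw [Finset.sum_range_add, Finset.mul_sum]
  simp only [pow_add]

private lemma roots_geom_mul (a q m : ℕ) : ∑ i ∈ Finset.range (q * m), a ^ i =
    (∑ i ∈ Finset.range q, a ^ i) * ∑ i ∈ Finset.range m, (a ^ q) ^ i := by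
  induction m with
  | zero => simp
  | succ m ih => rw [Nat.mul_succ, roots_geom_add, ih, Finset.sum_range_succ, pow_mul]; ring

private lemma roots_ppow_dvd {q : ℕ} (hq : q.Prime) (s : ℕ) : ∀ a m : ℕ, a ≡ 1 [MOD q ^ 2] →
    q ^ s ∣ ∑ i ∈ Finset.range m, a ^ i → q ^ s ∣ m := by
  induction s with
  | zero => simp
  | succ s ih =>
    intro a m ha hd
    have h1 : q ∣ m := by
      have h2 := roots_geom_modEq (ha.of_dvd (dvd_pow_self q two_ne_zero)) m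
      exact (h2.dvd_iff dvd_rfl).1 ((dvd_pow_self q (Nat.succ_ne_zero s)).trans hd)
    obtain ⟨m', rfl⟩ := h1
    rw [roots_geom_mul] at hd
    have h3 := roots_geom_modEq ha q
    have h4 : q ∣ ∑ i ∈ Finset.range q, a ^ i :=
      ((h3.of_dvd (dvd_pow_self q two_ne_zero)).dvd_iff dvd_rfl).2 dvd_rfl
    obtain ⟨u, hu⟩ := h4
    rw [hu] at h3 hd
    have h5 : ¬ q ∣ u := by
      rintro ⟨v, rfl⟩
      have h6 : q ^ 2 ∣ q := (h3.dvd_iff dvd_rfl).1 ⟨v, by ring⟩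
      have h7 := Nat.le_of_dvd hq.pos h6
      have h8 := hq.one_lt
      nlinarith
    rw [pow_succ', mul_assoc] at hd
    have h9 := Nat.dvd_of_mul_dvd_mul_left hq.pos hd
    have h10 := (Nat.Coprime.pow_left s ((Nat.Prime.coprime_iff_not_dvd hq).2 h5)).dvd_of_dvd_mul_left
      h9
    rw [pow_succ']
    exact Nat.mul_dvd_mul_left q (ih _ _ (by simpa using ha.pow q) h10)

private lemma roots_hull {q : ℕ} (hq : q.Prime) {s r a : ℕ} (hr : ¬ q ∣ r)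
    (ha : a ≡ 1 [MOD q ^ 2]) (har : a ≡ 1 [MOD r]) (e : ℕ) :
    ∃ k, ∑ i ∈ Finset.range k, a ^ i ≡ e [MOD q ^ s * r] := by
  have hco : (q ^ s).Coprime r := Nat.Coprime.pow_left s ((Nat.Prime.coprime_iff_not_dvd hq).2 hr)
  have hr0 : 0 < r := Nat.pos_of_ne_zero (by rintro rfl; exact hr (dvd_zero q))
  obtain ⟨n, hn⟩ : ∃ n, n = q ^ s * r := ⟨_, rfl⟩
  have hn0 : 0 < n := hn ▸ Nat.mul_pos (pow_pos hq.pos s) hr0
  have : NeZero n := ⟨hn0.ne'⟩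
  have han : n.Coprime a := by
    rw [hn]
    refine Nat.Coprime.mul_left (Nat.Coprime.pow_left s ?_) ?_
    · have h1 := (ha.of_dvd (dvd_pow_self q two_ne_zero)).gcd_eq
      rw [Nat.Coprime, Nat.gcd_comm, h1, Nat.gcd_one_left]
    · rw [Nat.Coprime, Nat.gcd_comm, har.gcd_eq, Nat.gcd_one_left]
  have key : ∀ k l : ℕ, k ≤ l → ∑ i ∈ Finset.range k, a ^ i ≡ ∑ i ∈ Finset.range l, a ^ i [MOD n] →
      k ≡ l [MOD n] := by
    intro k l hkl h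
    obtain ⟨d, rfl⟩ := Nat.exists_eq_add_of_le hkl
    rw [roots_geom_add] at h
    have h1 : n ∣ a ^ k * ∑ i ∈ Finset.range d, a ^ i := by
      have h2 := (Nat.modEq_iff_dvd' (Nat.le_add_right _ _)).1 h
      rwa [Nat.add_sub_cancel_left] at h2
    have h3 := (han.pow_right k).dvd_of_dvd_mul_left h1
    have h4 : n ∣ d := by
      rw [hn] at h3 ⊢
      refine hco.mul_dvd_of_dvd_of_dvd (roots_ppow_dvd hq s a d ha ((dvd_mul_right _ _).trans h3))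
        ?_
      exact ((roots_geom_modEq har d).dvd_iff dvd_rfl).1 ((dvd_mul_left _ _).trans h3)
    exact (Nat.modEq_iff_dvd' (Nat.le_add_right _ _)).2 (by rwa [Nat.add_sub_cancel_left])
  have hinj : Function.Injective
      fun t : ZMod n => ((∑ i ∈ Finset.range t.val, a ^ i : ℕ) : ZMod n) := by
    intro t t' h
    have h1 := (ZMod.natCast_eq_natCast_iff _ _ _).1 h
    have h2 : t.val ≡ t'.val [MOD n] := by
      rcases le_total t.val t'.val with hle | hle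
      · exact key _ _ hle h1
      · exact (key _ _ hle h1.symm).symm
    have h3 := (ZMod.natCast_eq_natCast_iff _ _ _).2 h2
    rwa [ZMod.natCast_zmod_val, ZMod.natCast_zmod_val] at h3
  obtain ⟨t, ht⟩ := Finite.surjective_of_injective hinj (e : ZMod n)
  exact ⟨t.val, hn ▸ (ZMod.natCast_eq_natCast_iff _ _ _).1 ht⟩

private lemma roots_iter {σ : ℂ_[p] →+* ℂ_[p]} {x ζ : ℂ_[p]} {a : ℕ} (hx : σ x = ζ * x)
    (hζ : σ ζ = ζ ^ a) (k : ℕ) : (σ ^ k) x = ζ ^ (∑ i ∈ Finset.range k, a ^ i) * x := by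
  induction k with
  | zero => simp
  | succ k ih =>
    rw [pow_succ' σ, RingHom.mul_def, RingHom.comp_apply, ih, map_mul, map_pow, hζ, hx,
      geom_sum_succ, pow_succ, pow_mul, mul_assoc]

/-- The orbit under an inertia element is a full cyclic torsion coset. -/
theorem orbit_full {σ : ℂ_[p] →+* ℂ_[p]} {x y ζ1 ζ2 : ℂ_[p]} {s r : ℕ} (hr : ¬ p ∣ r)
    (h1 : ζ1 ^ (p ^ s * r) = 1) (h2 : ζ2 ^ (p ^ s * r) = 1) (hx : σ x = ζ1 * x) (hy : σ y = ζ2 * y)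
    (hp : ∀ ξ : ℂ_[p], ξ ^ p ^ 2 = 1 → σ ξ = ξ) (hω : ∀ ω : ℂ_[p], ω ^ r = 1 → σ ω = ω) (e : ℕ) :
    ∃ k : ℕ, (σ ^ k) x = ζ1 ^ e * x ∧ (σ ^ k) y = ζ2 ^ e * y := by
  have hp' : p.Prime := Fact.out
  have hr0 : 0 < r := Nat.pos_of_ne_zero (by rintro rfl; exact hr (dvd_zero p))
  obtain ⟨n, hn⟩ : ∃ n, n = p ^ s * r * p ^ 2 := ⟨_, rfl⟩
  have hn1 : 0 < p ^ s * r := Nat.mul_pos (pow_pos hp'.pos _) hr0
  have hn0 : 0 < n := hn ▸ Nat.mul_pos hn1 (pow_pos hp'.pos _)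
  have : NeZero n := ⟨hn0.ne'⟩
  have : NeZero (n : ℂ_[p]) := ⟨by exact_mod_cast hn0.ne'⟩
  obtain ⟨μ, hμ⟩ := HasEnoughRootsOfUnity.exists_primitiveRoot ℂ_[p] n
  obtain ⟨a, -, ha⟩ := hμ.eq_pow_of_pow_eq_one (ξ := σ μ)
    (by rw [← map_pow, hμ.pow_eq_one, map_one])
  have hσ : ∀ w : ℂ_[p], w ^ n = 1 → σ w = w ^ a := by
    intro w hw
    obtain ⟨i, -, rfl⟩ := hμ.eq_pow_of_pow_eq_one hw
    rw [map_pow, ← ha, ← pow_mul, ← pow_mul, mul_comm]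
  have hfix : ∀ c q : ℕ, n = c * q → σ (μ ^ c) = μ ^ c → a ≡ 1 [MOD q] := by
    intro c q hcq hc
    have h3 : IsPrimitiveRoot (μ ^ c) q := hμ.pow hn0 hcq
    rw [hσ _ (by rw [← pow_mul, mul_comm, pow_mul, hμ.pow_eq_one, one_pow])] at hc
    rw [h3.eq_orderOf]
    have h4 : IsOfFinOrder (μ ^ c) := isOfFinOrder_iff_pow_eq_one.2
      ⟨n, hn0, by rw [← pow_mul, mul_comm, pow_mul, hμ.pow_eq_one, one_pow]⟩
    exact h4.pow_eq_pow_iff_modEq.1 (by rw [hc, pow_one])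
  have ha1 := hfix (p ^ s * r) (p ^ 2) hn (hp _ (by rw [← pow_mul, ← hn, hμ.pow_eq_one]))
  have hn' : n = p ^ s * p ^ 2 * r := by rw [hn]; ring
  have ha2 := hfix (p ^ s * p ^ 2) r hn' (hω _ (by rw [← pow_mul, ← hn', hμ.pow_eq_one]))
  obtain ⟨k, hk⟩ := roots_hull hp' (s := s) hr ha1 ha2 e
  refine ⟨k, ?_, ?_⟩
  · rw [roots_iter hx (hσ _ (by rw [hn, pow_mul, h1, one_pow])), roots_pow_modEq h1 hk]
  · rw [roots_iter hy (hσ _ (by rw [hn, pow_mul, h2, one_pow])), roots_pow_modEq h2 hk]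

end Pool.Agent.UAP
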