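import Pool.Agent.Lib.MP_7e5527_ag.Newt
import Pool.Agent.Lib.MP_7e5527_ag.Arr
import Pool.Agent.Lib.MP_7e5527_ag.Roots

open Polynomial UpperHalfPlane
open scoped Polynomial.Bivariate MatrixGroups IntermediateField

noncomputable section

namespace Pool.Agent.UAP

section poly

variable {R : Type*} [CommRing R]

/-- Truncation of the double series at `(u₀ ^ Q x, u₁ ^ Q y)`, as a polynomial in `u`. -/
def teich_tr (x y : R) (T Q : ℕ) (c : ℕ × ℕ → ℤ) : MvPolynomial (Fin 2) R :=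
  ∑ il ∈ Finset.range T ×ˢ Finset.range T, MvPolynomial.C ((c il : R) * x ^ il.1 * y ^ il.2) *
    MvPolynomial.X 0 ^ (Q * il.1) * MvPolynomial.X 1 ^ (Q * il.2)

/-- The Jacobian determinant. -/
def teich_jac (g h : MvPolynomial (Fin 2) R) : MvPolynomial (Fin 2) R :=
  MvPolynomial.pderiv 0 g * MvPolynomial.pderiv 1 h - MvPolynomial.pderiv 1 g * MvPolynomial.pderiv 0 h

theorem teich_pow (z : R) (i : ℕ) : z * (i * z ^ (i - 1)) = i * z ^ i := by
  rcases i with _ | i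
  · simp
  · rw [Nat.add_sub_cancel, pow_succ]; ring

theorem teich_th0 (x y : R) (T Q a b : ℕ) (c : ℕ × ℕ → ℤ) :
    MvPolynomial.X 0 * MvPolynomial.pderiv 0 (teich_tr x y T Q (th a b c)) =
      (Q : MvPolynomial (Fin 2) R) * teich_tr x y T Q (th (a + 1) b c) := by
  simp only [teich_tr, map_sum, Finset.mul_sum]
  refine Finset.sum_congr rfl fun il _ => ?_
  have h := teich_pow (MvPolynomial.X 0 : MvPolynomial (Fin 2) R) (Q * il.1)
  simp only [MvPolynomial.pderiv_mul, MvPolynomial.pderiv_pow, MvPolynomial.pderiv_C,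
    MvPolynomial.pderiv_X_self, MvPolynomial.pderiv_X_of_ne (one_ne_zero (α := Fin 2)), th]
  push_cast at h ⊢
  simp only [map_mul, map_pow, map_natCast]
  linear_combination ((il.1 : MvPolynomial (Fin 2) R) ^ a * (il.2 : MvPolynomial (Fin 2) R) ^ b *
    MvPolynomial.C (c il : R) * MvPolynomial.C x ^ il.1 * MvPolynomial.C y ^ il.2 *
    MvPolynomial.X 1 ^ (Q * il.2)) * h

theorem teich_th1 (x y : R) (T Q a b : ℕ) (c : ℕ × ℕ → ℤ) :
    MvPolynomial.X 1 * MvPolynomial.pderiv 1 (teich_tr x y T Q (th a b c)) =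
      (Q : MvPolynomial (Fin 2) R) * teich_tr x y T Q (th a (b + 1) c) := by
  simp only [teich_tr, map_sum, Finset.mul_sum]
  refine Finset.sum_congr rfl fun il _ => ?_
  have h := teich_pow (MvPolynomial.X 1 : MvPolynomial (Fin 2) R) (Q * il.2)
  simp only [MvPolynomial.pderiv_mul, MvPolynomial.pderiv_pow, MvPolynomial.pderiv_C,
    MvPolynomial.pderiv_X_self, MvPolynomial.pderiv_X_of_ne (zero_ne_one (α := Fin 2)), th]
  push_cast at h ⊢
  simp only [map_mul, map_pow, map_natCast]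
  linear_combination ((il.1 : MvPolynomial (Fin 2) R) ^ a * (il.2 : MvPolynomial (Fin 2) R) ^ b *
    MvPolynomial.C (c il : R) * MvPolynomial.C x ^ il.1 * MvPolynomial.C y ^ il.2 *
    MvPolynomial.X 0 ^ (Q * il.1)) * h

theorem teich_deg [Nontrivial R] (x y : R) (T Q : ℕ) (c : ℕ × ℕ → ℤ) :
    (teich_tr x y T Q c).totalDegree ≤ Q * T + Q * T := by
  refine MvPolynomial.totalDegree_finsetSum_le fun il h => ?_
  obtain ⟨h1, h2⟩ := Finset.mem_product.1 h
  have h3 := Nat.mul_le_mul_left Q (Finset.mem_range.1 h1).le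
  have h4 := Nat.mul_le_mul_left Q (Finset.mem_range.1 h2).le
  refine (MvPolynomial.totalDegree_mul _ _).trans ?_
  refine (Nat.add_le_add_right (MvPolynomial.totalDegree_mul _ _) _).trans ?_
  rw [MvPolynomial.totalDegree_C, MvPolynomial.totalDegree_X_pow, MvPolynomial.totalDegree_X_pow]
  omega

theorem teich_eval (x y : R) (T Q : ℕ) (c : ℕ × ℕ → ℤ) (u : Fin 2 → R) :
    MvPolynomial.eval u (teich_tr x y T Q c) = ∑ il ∈ Finset.range T ×ˢ Finset.range T,
      (c il : R) * (u 0 ^ Q * x) ^ il.1 * (u 1 ^ Q * y) ^ il.2 := by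
  simp only [teich_tr, map_sum, map_mul, map_pow, MvPolynomial.eval_C, MvPolynomial.eval_X,
    MvPolynomial.eval_C, map_intCast, pow_mul, mul_pow]
  exact Finset.sum_congr rfl fun il _ => by ring

/-- The second polynomial of the jet step. -/
def teich_m (x y : R) (T Q : ℕ) (c : ℕ × ℕ → ℤ) : MvPolynomial (Fin 2) R :=
  teich_tr x y T 1 (th 1 0 c) * teich_tr x y T Q (th 0 1 c)
    - teich_tr x y T 1 (th 0 1 c) * teich_tr x y T Q (th 1 0 c)

theorem teich_jac1 (x y : R) (T Q : ℕ) (c : ℕ × ℕ → ℤ) :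
    MvPolynomial.X 0 * MvPolynomial.X 1 *
      teich_jac (teich_tr x y T 1 (th 0 0 c)) (teich_tr x y T Q (th 0 0 c)) =
      (Q : MvPolynomial (Fin 2) R) * teich_m x y T Q c := by
  have a := teich_th0 x y T 1 0 0 c
  have b := teich_th1 x y T 1 0 0 c
  have a' := teich_th0 x y T Q 0 0 c
  have b' := teich_th1 x y T Q 0 0 c
  simp only [zero_add, Nat.cast_one, one_mul] at a b a' b'
  rw [teich_jac, teich_m, mul_sub (Q : MvPolynomial (Fin 2) R), mul_left_comm, ← b',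
    mul_left_comm (Q : MvPolynomial (Fin 2) R), ← a', ← a, ← b]
  ring

theorem teich_jac2 (x y : R) (T Q : ℕ) (c : ℕ × ℕ → ℤ) :
    MvPolynomial.X 0 * MvPolynomial.X 1 *
      teich_jac (teich_tr x y T 1 (th 0 0 c)) (teich_m x y T Q c) =
      teich_tr x y T Q (th 0 1 c) * (teich_tr x y T 1 (th 1 0 c) * teich_tr x y T 1 (th 1 1 c)
          - teich_tr x y T 1 (th 0 1 c) * teich_tr x y T 1 (th 2 0 c))
        + teich_tr x y T Q (th 1 0 c) * (teich_tr x y T 1 (th 0 1 c) * teich_tr x y T 1 (th 1 1 c)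
          - teich_tr x y T 1 (th 1 0 c) * teich_tr x y T 1 (th 0 2 c))
        + (Q : MvPolynomial (Fin 2) R) * (teich_tr x y T 1 (th 1 0 c) *
            teich_tr x y T 1 (th 1 0 c) * teich_tr x y T Q (th 0 2 c)
          - teich_tr x y T 1 (th 1 0 c) * teich_tr x y T 1 (th 0 1 c) * teich_tr x y T Q (th 1 1 c)
          - teich_tr x y T 1 (th 1 0 c) * teich_tr x y T 1 (th 0 1 c) * teich_tr x y T Q (th 1 1 c)
          + teich_tr x y T 1 (th 0 1 c) * teich_tr x y T 1 (th 0 1 c) *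
            teich_tr x y T Q (th 2 0 c)) := by
  have a := teich_th0 x y T 1 0 0 c
  have b := teich_th1 x y T 1 0 0 c
  have a0 := teich_th0 x y T 1 1 0 c
  have a1 := teich_th1 x y T 1 1 0 c
  have b0 := teich_th0 x y T 1 0 1 c
  have b1 := teich_th1 x y T 1 0 1 c
  have e0 := teich_th0 x y T Q 1 0 c
  have e1 := teich_th1 x y T Q 1 0 c
  have f0 := teich_th0 x y T Q 0 1 c
  have f1 := teich_th1 x y T Q 0 1 c
  simp only [zero_add, Nat.cast_one, one_mul, Nat.reduceAdd] at a b a0 a1 b0 b1 e0 e1 f0 f1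
  simp only [teich_jac, teich_m, map_sub, MvPolynomial.pderiv_mul]
  generalize teich_tr x y T 1 (th 1 0 c) = A at *
  generalize teich_tr x y T 1 (th 0 1 c) = B at *
  generalize teich_tr x y T Q (th 1 0 c) = A' at *
  generalize teich_tr x y T Q (th 0 1 c) = B' at *
  linear_combination
    MvPolynomial.X 1 * (MvPolynomial.pderiv 1 A * B' + A * MvPolynomial.pderiv 1 B'
      - (MvPolynomial.pderiv 1 B * A' + B * MvPolynomial.pderiv 1 A')) * a
    - MvPolynomial.X 0 * (MvPolynomial.pderiv 0 A * B' + A * MvPolynomial.pderiv 0 B'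
      - (MvPolynomial.pderiv 0 B * A' + B * MvPolynomial.pderiv 0 A')) * b
    + A * B' * a1 + A * A * f1 - A * A' * b1 - A * B * e1
    - B * B' * a0 - B * A * f0 + B * A' * b0 + B * B * e0

end poly

section ultra

variable {E : Type*} [NormedField E] [IsUltrametricDist E]

theorem teich_sub_le (a b : E) : ‖a - b‖ ≤ max ‖a‖ ‖b‖ := by
  rw [sub_eq_add_neg, ← norm_neg b]
  exact IsUltrametricDist.norm_add_le_max _ _

/-- Integral elements that are close to each other. -/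
def teich_nr (ε : ℝ) (a b : E) : Prop := ‖a‖ ≤ 1 ∧ ‖b‖ ≤ 1 ∧ ‖a - b‖ ≤ ε

theorem teich_nr_add {ε : ℝ} {a b a' b' : E} (h : teich_nr ε a b) (h' : teich_nr ε a' b') :
    teich_nr ε (a + a') (b + b') :=
  ⟨(IsUltrametricDist.norm_add_le_max _ _).trans (max_le h.1 h'.1),
    (IsUltrametricDist.norm_add_le_max _ _).trans (max_le h.2.1 h'.2.1), by
      rw [add_sub_add_comm]
      exact (IsUltrametricDist.norm_add_le_max _ _).trans (max_le h.2.2 h'.2.2)⟩

theorem teich_nr_sub {ε : ℝ} {a b a' b' : E} (h : teich_nr ε a b) (h' : teich_nr ε a' b') :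
    teich_nr ε (a - a') (b - b') :=
  ⟨(teich_sub_le _ _).trans (max_le h.1 h'.1), (teich_sub_le _ _).trans (max_le h.2.1 h'.2.1), by
      rw [sub_sub_sub_comm]
      exact (teich_sub_le _ _).trans (max_le h.2.2 h'.2.2)⟩

omit [IsUltrametricDist E] in
theorem teich_mul_le {a b : E} {s : ℝ} (ha : ‖a‖ ≤ s) (hb : ‖b‖ ≤ 1) : ‖a * b‖ ≤ s := by
  rw [norm_mul]
  exact (mul_le_of_le_one_right (norm_nonneg _) hb).trans ha

theorem teich_nr_mul {ε : ℝ} {a b a' b' : E} (h : teich_nr ε a b) (h' : teich_nr ε a' b') :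
    teich_nr ε (a * a') (b * b') :=
  ⟨teich_mul_le h.1 h'.1, teich_mul_le h.2.1 h'.2.1, by
    rw [show a * a' - b * b' = (a - b) * a' + (a' - b') * b by ring]
    exact (IsUltrametricDist.norm_add_le_max _ _).trans
      (max_le (teich_mul_le h.2.2 h'.1) (teich_mul_le h'.2.2 h.2.1))⟩

theorem teich_alg {a b a' b' g20 g11 g02 q w : E} {η : ℝ} (ha : ‖a‖ ≤ 1) (hb : ‖b‖ ≤ 1)
    (ha' : ‖a'‖ = ‖a‖) (hb' : ‖b'‖ = ‖b‖) (h20 : ‖g20‖ ≤ 1) (h11 : ‖g11‖ ≤ 1) (h02 : ‖g02‖ ≤ 1)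
    (hw : ‖w‖ ≤ 1) (hq : ‖q‖ < η) (hm : ‖a * b' - b * a'‖ < η)
    (hk : η ≤ ‖g20 * (b * b) - (g11 * a * b + g11 * a * b) + g02 * (a * a)‖) :
    η ≤ ‖b' * (a * g11 - b * g20) + a' * (b * g11 - a * g02) + q * w‖ := by
  by_contra hlt
  rw [not_le] at hlt
  set M := b' * (a * g11 - b * g20) + a' * (b * g11 - a * g02) with hM
  set κ := g20 * (b * b) - (g11 * a * b + g11 * a * b) + g02 * (a * a) with hκ
  set m := a * b' - b * a' with hm'
  have hM' : ‖M‖ < η := by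
    rw [show M = M + q * w - q * w by ring]
    exact (teich_sub_le _ _).trans_lt (max_lt hlt ((teich_mul_le le_rfl hw).trans_lt hq))
  have hη : 0 < η := (norm_nonneg _).trans_lt hq
  set μ := max ‖a‖ ‖b‖ with hμ
  have m1 : ‖a‖ ≤ μ := le_max_left _ _
  have m2 : ‖b‖ ≤ μ := le_max_right _ _
  have hs : ‖a * g11 - b * g20‖ ≤ μ :=
    (teich_sub_le _ _).trans (max_le (teich_mul_le m1 h11) (teich_mul_le m2 h20))
  have ht : ‖b * g11 - a * g02‖ ≤ μ :=
    (teich_sub_le _ _).trans (max_le (teich_mul_le m2 h11) (teich_mul_le m1 h02))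
  have hκμ : ‖κ‖ ≤ μ := by
    rw [show κ = -((a * g11 - b * g20) * b + (b * g11 - a * g02) * a) by rw [hκ]; ring, norm_neg]
    exact (IsUltrametricDist.norm_add_le_max _ _).trans
      (max_le (teich_mul_le hs hb) (teich_mul_le ht ha))
  have hμ0 : 0 < μ := hη.trans_le (hk.trans hκμ)
  have key : ∀ s z z' : E, ‖s‖ ≤ μ → ‖z‖ = μ → ‖z'‖ = μ → z' * κ = m * s - z * M → False := by
    intro s z z' h1 h2 h3 h4
    have h5 : ‖z' * κ‖ < η * μ := by
      rw [h4]
      refine (teich_sub_le _ _).trans_lt (max_lt ?_ ?_)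
      · rw [norm_mul]
        exact (mul_le_mul_of_nonneg_left h1 (norm_nonneg _)).trans_lt
          (mul_lt_mul_of_pos_right hm hμ0)
      · rw [norm_mul, h2, mul_comm]
        exact mul_lt_mul_of_pos_right hM' hμ0
    rw [norm_mul, h3, mul_comm] at h5
    exact absurd (lt_of_mul_lt_mul_right h5 hμ0.le) (not_lt.2 hk)
  rcases le_total ‖a‖ ‖b‖ with h | h
  · have e : ‖b‖ = μ := (max_eq_right h).symm
    exact key (-(b * g11 - a * g02)) b b' (by rwa [norm_neg]) e (hb'.trans e)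
      (by rw [hκ, hm', hM]; ring)
  · have e : ‖a‖ = μ := (max_eq_left h).symm
    exact key (a * g11 - b * g20) a a' hs e (ha'.trans e) (by rw [hκ, hm', hM]; ring)

/-- Integral elements fixed by `φ`. -/
def teich_O (φ : E →+* E) : Subring E where
  carrier := {z | ‖z‖ ≤ 1 ∧ φ z = z}
  mul_mem' ha hb := ⟨teich_mul_le ha.1 hb.1, by rw [map_mul, ha.2, hb.2]⟩
  one_mem' := ⟨norm_one.le, map_one φ⟩
  add_mem' ha hb := ⟨(IsUltrametricDist.norm_add_le_max _ _).trans (max_le ha.1 hb.1), by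
    rw [map_add, ha.2, hb.2]⟩
  zero_mem' := ⟨by simp, map_zero φ⟩
  neg_mem' ha := ⟨by rw [norm_neg]; exact ha.1, by rw [map_neg, ha.2]⟩

/-- Polynomials with integral coefficients fixed by `φ`. -/
def teich_P (φ : E →+* E) : Subring (MvPolynomial (Fin 2) E) :=
  (MvPolynomial.map (teich_O φ).subtype).range

variable {φ : E →+* E}

theorem teich_P_coeff {f : MvPolynomial (Fin 2) E} (h : f ∈ teich_P φ) (m : Fin 2 →₀ ℕ) :
    ‖f.coeff m‖ ≤ 1 := by
  obtain ⟨g, rfl⟩ := h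
  rw [MvPolynomial.coeff_map]
  exact (g.coeff m).2.1

theorem teich_P_pderiv {f : MvPolynomial (Fin 2) E} (h : f ∈ teich_P φ) (i : Fin 2) :
    MvPolynomial.pderiv i f ∈ teich_P φ := by
  obtain ⟨g, rfl⟩ := h
  exact ⟨_, MvPolynomial.pderiv_map.symm⟩

theorem teich_P_map {f : MvPolynomial (Fin 2) E} (h : f ∈ teich_P φ) (u : Fin 2 → E) :
    φ (MvPolynomial.eval u f) = MvPolynomial.eval (fun i => φ (u i)) f := by
  obtain ⟨g, rfl⟩ := h
  rw [MvPolynomial.eval_map, MvPolynomial.eval_map, MvPolynomial.hom_eval₂]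
  congr 1
  exact RingHom.ext fun z => z.2.2

theorem teich_P_norm {f : MvPolynomial (Fin 2) E} (h : f ∈ teich_P φ) {u : Fin 2 → E}
    (hu : ∀ i, ‖u i‖ ≤ 1) : ‖MvPolynomial.eval u f‖ ≤ 1 := by
  obtain ⟨g, rfl⟩ := h
  induction g using MvPolynomial.induction_on with
  | C a => rw [MvPolynomial.map_C, MvPolynomial.eval_C]; exact a.2.1
  | add f g hf hg =>
    rw [map_add, map_add]
    exact (IsUltrametricDist.norm_add_le_max _ _).trans (max_le hf hg)
  | mul_X f i hf =>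
    rw [map_mul, map_mul, MvPolynomial.map_X, MvPolynomial.eval_X]
    exact teich_mul_le hf (hu i)

theorem teich_P_tr {x y : E} (hx : x ∈ teich_O φ) (hy : y ∈ teich_O φ) (T Q : ℕ)
    (c : ℕ × ℕ → ℤ) : teich_tr x y T Q c ∈ teich_P φ :=
  ⟨teich_tr ⟨x, hx⟩ ⟨y, hy⟩ T Q c, by simp [teich_tr]⟩

theorem teich_P_jac {f g : MvPolynomial (Fin 2) E} (hf : f ∈ teich_P φ) (hg : g ∈ teich_P φ) :
    teich_jac f g ∈ teich_P φ :=
  sub_mem (mul_mem (teich_P_pderiv hf 0) (teich_P_pderiv hg 1))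
    (mul_mem (teich_P_pderiv hf 1) (teich_P_pderiv hg 0))

end ultra

theorem teich_tail {p : ℕ} [Fact p.Prime] (c : ℕ × ℕ → ℤ) {r : ℝ} (hr : r < 1) {x y : ℂ_[p]}
    (hx : ‖x‖ ≤ r) (hy : ‖y‖ ≤ r) (T : ℕ) :
    ‖∑ il ∈ Finset.range T ×ˢ Finset.range T, (c il : ℂ_[p]) * x ^ il.1 * y ^ il.2
      - val c x y‖ ≤ r ^ T := by
  have h := hasSum_val c (hx.trans_lt hr) (hy.trans_lt hr)
  have r0 : 0 ≤ r := (norm_nonneg _).trans hx
  rw [← h.tsum_eq, ← h.summable.sum_add_tsum_compl (s := Finset.range T ×ˢ Finset.range T),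
    sub_add_cancel_left, norm_neg]
  refine IsUltrametricDist.norm_tsum_le_of_forall_le_of_nonneg (pow_nonneg r0 _) fun il => ?_
  obtain ⟨⟨i, l⟩, hil⟩ := il
  have h1 : T ≤ i + l := by
    simp only [Finset.coe_product, Finset.coe_range, Set.mem_compl_iff, Set.mem_prod,
      Set.mem_Iio] at hil
    omega
  rw [mul_assoc, mul_comm]
  refine teich_mul_le ?_ (IsUltrametricDist.norm_intCast_le_one _ _)
  rw [norm_mul, norm_pow, norm_pow]
  calc ‖x‖ ^ i * ‖y‖ ^ l ≤ r ^ i * r ^ l := by gcongr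
    _ = r ^ (i + l) := (pow_add _ _ _).symm
    _ ≤ r ^ T := pow_le_pow_of_le_one r0 hr.le h1

/-- Teichmueller translates of a Frobenius-fixed point have bounded Frobenius orbits. -/
theorem teichmueller (p : ℕ) [Fact p.Prime] (c : ℕ × ℕ → ℤ) {r η0 : ℝ} (hr : r < 1) (hη : 0 < η0)
    {Q : ℕ} (hQ0 : 0 < Q) (hQ : ‖(Q : ℂ_[p])‖ < η0) :
    ∃ B : ℕ, ∀ (φ : ℂ_[p] →+* ℂ_[p]) (x y ω1 ω2 : ℂ_[p]) (n : ℕ), Iso φ → φ x = x → φ y = y →
      ‖x‖ ≤ r → ‖y‖ ≤ r → ¬ p ∣ n → ω1 ^ n = 1 → ω2 ^ n = 1 → φ ω1 = ω1 ^ Q → φ ω2 = ω2 ^ Q →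
      val c (ω1 * x) (ω2 * y) = 0 → η0 ≤ ‖kapG c (ω1 * x) (ω2 * y)‖ →
      ∃ k : ℕ, 0 < k ∧ k ≤ B ∧ ω1 ^ Q ^ k = ω1 ∧ ω2 ^ Q ^ k = ω2 := by
  have q0 : 0 < ‖(Q : ℂ_[p])‖ := norm_pos_iff.2 (Nat.cast_ne_zero.2 hQ0.ne')
  have q1 : ‖(Q : ℂ_[p])‖ ≤ 1 := IsUltrametricDist.norm_natCast_le_one _ _
  set η := ‖(Q : ℂ_[p])‖ * η0 ^ 2 with hηdef
  have η_pos : 0 < η := by positivity
  obtain ⟨T, hT⟩ := exists_pow_lt_of_lt_one (pow_pos η_pos 2) hr
  obtain ⟨B, hB⟩ := exists_approx_bezout p (1 * T + 1 * T + (Q * T + Q * T))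
  refine ⟨B, fun φ x y ω1 ω2 n hφ fx fy hx hy hn o1 o2 f1 f2 hv hκ => ?_⟩
  have n0 : n ≠ 0 := fun h => hn (h ▸ dvd_zero p)
  have hx' : x ∈ teich_O φ := ⟨hx.trans hr.le, fx⟩
  have hy' : y ∈ teich_O φ := ⟨hy.trans hr.le, fy⟩
  set u : ℕ → Fin 2 → ℂ_[p] := fun k i => ![ω1, ω2] i ^ Q ^ k with hu
  have un : ∀ k i, u k i ^ n = 1 := fun k i => by
    rw [hu, ← pow_mul, mul_comm, pow_mul]
    fin_cases i <;> simp [o1, o2]
  have u1 : ∀ k i, ‖u k i‖ = 1 := fun k i => by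
    have h := congrArg norm (un k i)
    rw [norm_pow, norm_one] at h
    exact (pow_eq_one_iff_of_nonneg (norm_nonneg _) n0).1 h
  have us : ∀ k i, φ (u k i) = u (k + 1) i := fun k i => by
    simp only [hu, map_pow, pow_succ', pow_mul]
    fin_cases i <;> simp [f1, f2]
  have hc : ∀ f ∈ teich_P φ, ∀ k, ‖MvPolynomial.eval (u k) f‖ = ‖MvPolynomial.eval (u 0) f‖ := by
    intro f hf k
    induction k with
    | zero => rfl
    | succ k ih => rw [← ih, ← hφ (MvPolynomial.eval (u k) f), teich_P_map hf]; simp only [us]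
  have e0 : u 0 0 = ω1 := by simp [hu]
  have e1 : u 0 1 = ω2 := by simp [hu]
  have w1 : ‖ω1 * x‖ ≤ r := by rw [norm_mul, ← e0, u1, one_mul]; exact hx
  have w2 : ‖ω2 * y‖ ≤ r := by rw [norm_mul, ← e1, u1, one_mul]; exact hy
  have hP := teich_P_tr hx' hy' T
  have hN : ∀ Q' c', ‖MvPolynomial.eval (u 0) (teich_tr x y T Q' c')‖ ≤ 1 := fun Q' c' =>
    teich_P_norm (hP Q' c') fun i => (u1 0 i).le
  have hE : ∀ c', ‖MvPolynomial.eval (u 0) (teich_tr x y T Q c')‖ =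
      ‖MvPolynomial.eval (u 0) (teich_tr x y T 1 c')‖ := fun c' => by
    rw [← hc _ (hP 1 c') 1, teich_eval, teich_eval]
    simp [hu]
  have hA : ∀ c', teich_nr (r ^ T) (MvPolynomial.eval (u 0) (teich_tr x y T 1 c'))
      (val c' (ω1 * x) (ω2 * y)) := fun c' =>
    ⟨hN 1 c', norm_val_le c' (w1.trans_lt hr) (w2.trans_lt hr), by
      rw [teich_eval, pow_one, pow_one, e0, e1]
      exact teich_tail c' hr w1 w2 T⟩
  have hK := teich_nr_add (teich_nr_sub
    (teich_nr_mul (hA (th 2 0 c)) (teich_nr_mul (hA (th 0 1 c)) (hA (th 0 1 c))))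
    (teich_nr_add (teich_nr_mul (teich_nr_mul (hA (th 1 1 c)) (hA (th 1 0 c))) (hA (th 0 1 c)))
      (teich_nr_mul (teich_nr_mul (hA (th 1 1 c)) (hA (th 1 0 c))) (hA (th 0 1 c)))))
    (teich_nr_mul (hA (th 0 2 c)) (teich_nr_mul (hA (th 1 0 c)) (hA (th 1 0 c))))
  obtain ⟨-, k1, k2⟩ := hK
  have ek : val (th 2 0 c) (ω1 * x) (ω2 * y) *
      (val (th 0 1 c) (ω1 * x) (ω2 * y) * val (th 0 1 c) (ω1 * x) (ω2 * y)) -
      (val (th 1 1 c) (ω1 * x) (ω2 * y) * val (th 1 0 c) (ω1 * x) (ω2 * y) *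
        val (th 0 1 c) (ω1 * x) (ω2 * y) + val (th 1 1 c) (ω1 * x) (ω2 * y) *
        val (th 1 0 c) (ω1 * x) (ω2 * y) * val (th 0 1 c) (ω1 * x) (ω2 * y)) +
      val (th 0 2 c) (ω1 * x) (ω2 * y) *
      (val (th 1 0 c) (ω1 * x) (ω2 * y) * val (th 1 0 c) (ω1 * x) (ω2 * y)) =
      kapG c (ω1 * x) (ω2 * y) := by rw [kapG]; ring
  rw [ek] at k1 k2
  have η1 : η0 ≤ 1 := hκ.trans k1
  have η2 : η0 ^ 2 ≤ η0 := pow_le_of_le_one hη.le η1 two_ne_zero
  have η3 : η ≤ η0 := (mul_le_of_le_one_left (by positivity) q1).trans η2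
  have η4 : η ^ 2 ≤ η0 ^ 2 := by gcongr
  have hg : ‖MvPolynomial.eval (u 0) (teich_tr x y T 1 (th 0 0 c))‖ < η ^ 2 := by
    have h := (hA (th 0 0 c)).2.2
    rw [show val (th 0 0 c) (ω1 * x) (ω2 * y) = 0 by
      rw [← hv]; congr 1; funext il; simp [th], sub_zero] at h
    exact h.trans_lt hT
  have hj : ∀ f, ‖MvPolynomial.eval (u 0) (MvPolynomial.X 0 * MvPolynomial.X 1 * f)‖ =
      ‖MvPolynomial.eval (u 0) f‖ := fun f => by
    rw [map_mul, map_mul, MvPolynomial.eval_X, MvPolynomial.eval_X, norm_mul, norm_mul, u1, u1,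
      one_mul, one_mul]
  have hmP : teich_m x y T Q c ∈ teich_P φ :=
    sub_mem (mul_mem (hP _ _) (hP _ _)) (mul_mem (hP _ _) (hP _ _))
  have main : ∀ (h : MvPolynomial (Fin 2) ℂ_[p]) (η' : ℝ), h ∈ teich_P φ →
      h.totalDegree ≤ 1 * T + 1 * T + (Q * T + Q * T) → η ≤ η' → η' ≤ 1 →
      ‖MvPolynomial.eval (u 0) h‖ < η' ^ 2 →
      η' ≤ ‖MvPolynomial.eval (u 0) (teich_jac (teich_tr x y T 1 (th 0 0 c)) h)‖ →
      (Set.range u).encard ≤ B := by
    intro h η' h1 h2 h3 h4 h5 h6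
    refine hB (teich_tr x y T 1 (th 0 0 c)) h ((teich_deg _ _ _ _ _).trans (Nat.le_add_right _ _))
      h2 (teich_P_coeff (hP _ _)) (teich_P_coeff h1) η' (η_pos.trans_le h3) h4 _ ?_ ?_ ?_
    · rintro _ ⟨k, rfl⟩
      exact (pi_norm_le_iff_of_nonneg zero_le_one).2 fun i => (u1 k i).le
    · rintro _ ⟨k, rfl⟩ _ ⟨l, rfl⟩ hne
      obtain ⟨i, hi⟩ := Function.ne_iff.1 hne
      have l0 : u l i ≠ 0 := norm_pos_iff.1 (by rw [u1]; exact one_pos)
      refine h4.trans (le_trans ?_ (norm_le_pi_norm (u k - u l) i))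
      by_contra hlt
      refine hi ((div_eq_one_iff_eq l0).1 (root_eq_one_of_coprime hn ?_ ?_))
      · rw [div_pow, un, un, div_one]
      · rw [div_sub_one l0, norm_div, u1, div_one]
        exact not_le.1 hlt
    · rintro _ ⟨k, rfl⟩
      refine ⟨?_, ?_, ?_⟩
      · rw [hc _ (hP _ _)]
        exact hg.trans_le (by gcongr)
      · rw [hc _ h1]
        exact h5
      · exact h6.trans_eq (hc _ (teich_P_jac (hP _ _) h1) k).symm
  have hU : (Set.range u).encard ≤ B := by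
    rcases le_or_gt (η0 ^ 2) ‖MvPolynomial.eval (u 0) (teich_m x y T Q c)‖ with h | h
    · refine main (teich_tr x y T Q (th 0 0 c)) η (hP _ _)
        ((teich_deg _ _ _ _ _).trans (Nat.le_add_left _ _)) le_rfl (η3.trans η1)
        ((hE _).trans_lt hg) ?_
      rw [← hj, teich_jac1 x y, map_mul, map_natCast, norm_mul]
      exact mul_le_mul_of_nonneg_left h q0.le
    · refine main (teich_m x y T Q c) η0 hmP ?_ η3 η1 h ?_
      · exact (MvPolynomial.totalDegree_sub _ _).trans (max_le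
          ((MvPolynomial.totalDegree_mul _ _).trans
            (Nat.add_le_add (teich_deg _ _ _ _ _) (teich_deg _ _ _ _ _)))
          ((MvPolynomial.totalDegree_mul _ _).trans
            (Nat.add_le_add (teich_deg _ _ _ _ _) (teich_deg _ _ _ _ _))))
      rw [← hj, teich_jac2 x y, map_add, map_mul _ (Q : MvPolynomial (Fin 2) ℂ_[p]), map_natCast]
      simp only [teich_m, map_sub, map_mul] at h
      rw [map_add, map_mul, map_mul, map_sub, map_sub, map_mul, map_mul, map_mul, map_mul]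
      refine teich_alg (hN _ _) (hN _ _) (hE _) (hE _) (hN _ _) (hN _ _) (hN _ _)
        (teich_P_norm (φ := φ) ?_ fun i => (u1 0 i).le) hQ (h.trans_le η2) ?_
      · exact add_mem (sub_mem (sub_mem (mul_mem (mul_mem (hP _ _) (hP _ _)) (hP _ _))
          (mul_mem (mul_mem (hP _ _) (hP _ _)) (hP _ _)))
          (mul_mem (mul_mem (hP _ _) (hP _ _)) (hP _ _)))
          (mul_mem (mul_mem (hP _ _) (hP _ _)) (hP _ _))
      · by_contra hlt
        refine absurd hκ (not_le.2 ?_)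
        rw [← sub_sub_cancel _ (kapG c (ω1 * x) (ω2 * y))]
        exact (teich_sub_le _ _).trans_lt
          (max_lt (not_le.1 hlt) (k2.trans_lt (hT.trans_le (η4.trans η2))))
  obtain ⟨hfin, hcard⟩ := Set.encard_le_coe_iff_finite_ncard_le.1 hU
  have back : ∀ i k, u (k + i) = u i → u k = u 0 := by
    intro i k
    induction i with
    | zero => exact id
    | succ i ih =>
      refine fun h => ih (funext fun j => φ.injective ?_)
      rw [us, us, add_assoc, h]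
  have fin : ∀ i j, i < j → j ≤ B → u i = u j →
      ∃ k : ℕ, 0 < k ∧ k ≤ B ∧ ω1 ^ Q ^ k = ω1 ∧ ω2 ^ Q ^ k = ω2 := by
    intro i j h1 h2 h3
    have h := back i (j - i) (by rw [Nat.sub_add_cancel h1.le, h3])
    exact ⟨j - i, by omega, by omega, (congrFun h 0).trans e0, (congrFun h 1).trans e1⟩
  obtain ⟨i, hi, j, hj', hij, h⟩ := Finset.exists_ne_map_eq_of_card_lt_of_maps_to
    (s := Finset.range (B + 1)) (t := hfin.toFinset) (f := u)
    (by rw [← Set.ncard_eq_toFinset_card _ hfin, Finset.card_range]; omega)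
    (fun k _ => by simp)
  have hi' := Finset.mem_range.1 hi
  have hj'' := Finset.mem_range.1 hj'
  rcases lt_or_gt_of_ne hij with h' | h'
  · exact fin i j h' (by omega) h
  · exact fin j i h' (by omega) h.symm

end Pool.Agent.UAP
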