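import Pool.Agent.Lib.MP_7e5527_ag.Inert
import Pool.Agent.Lib.MP_7e5527_ag.Teich

open Polynomial UpperHalfPlane
open scoped Polynomial.Bivariate MatrixGroups IntermediateField

noncomputable section

namespace Pool.Agent.UAP

private lemma pair_prim (p : ℕ) [Fact p.Prime] {n : ℕ} (hn : 0 < n) :
    ∃ ζ : ℂ_[p], IsPrimitiveRoot ζ n := by
  have : NeZero n := ⟨hn.ne'⟩
  have : NeZero (n : ℂ_[p]) := ⟨by exact_mod_cast hn.ne'⟩
  exact HasEnoughRootsOfUnity.exists_primitiveRoot ℂ_[p] n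

private lemma pair_fix_dvd {E : Type*} [Field E] {φ : E →+* E} {u : E} {k l : ℕ}
    (h : (φ ^ k) u = u) (hkl : k ∣ l) : (φ ^ l) u = u := by
  obtain ⟨c, rfl⟩ := hkl
  induction c with
  | zero => simp
  | succ c ih => rw [Nat.mul_succ, pow_add, RingHom.mul_def, RingHom.comp_apply, h, ih]

private lemma pair_fix_pow {E : Type*} [Field E] {φ : E →+* E} {u : E} (h : φ u = u) (k : ℕ) :
    (φ ^ k) u = u := pair_fix_dvd (k := 1) (by simpa using h) (one_dvd k)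

private lemma pair_fix_factorial {E : Type*} [Field E] (φ : E →+* E) {u : E} {m : ℕ}
    (hm : 0 < m) (h : φ (u ^ m) = u ^ m) : (φ ^ m.factorial) u = u := by
  classical
  have hmem : ∀ k ∈ Finset.range (m + 1), (φ ^ k) u ∈ (nthRoots m (u ^ m)).toFinset := by
    intro k _
    rw [Multiset.mem_toFinset, mem_nthRoots hm, ← map_pow]
    exact pair_fix_pow h k
  have hcard : (nthRoots m (u ^ m)).toFinset.card < (Finset.range (m + 1)).card := by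
    rw [Finset.card_range]
    exact Nat.lt_succ_of_le ((Multiset.toFinset_card_le _).trans (card_nthRoots m _))
  obtain ⟨i, hi, j, hj, hij, he⟩ := Finset.exists_ne_map_eq_of_card_lt_of_maps_to hcard hmem
  have key : ∀ i j : ℕ, i < j → j < m + 1 → (φ ^ i) u = (φ ^ j) u →
      (φ ^ m.factorial) u = u := by
    intro i j hlt hj he
    obtain ⟨d, rfl⟩ := Nat.exists_eq_add_of_lt hlt
    have h1 : (φ ^ i) ((φ ^ (d + 1)) u) = (φ ^ i) u := by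
      rw [he, add_assoc, pow_add φ i, RingHom.mul_def, RingHom.comp_apply]
    exact pair_fix_dvd ((φ ^ i).injective h1) (Nat.dvd_factorial (Nat.succ_pos d) (by omega))
  rcases lt_or_gt_of_ne hij with hlt | hlt
  · exact key i j hlt (Finset.mem_range.1 hj) he
  · exact key j i hlt (Finset.mem_range.1 hi) he.symm

private lemma pair_frob {E : Type*} [Field E] {φ : E →+* E} {w : E} {Q : ℕ} (h : φ w = w ^ Q)
    (k : ℕ) : (φ ^ k) w = w ^ Q ^ k := by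
  induction k with
  | zero => simp
  | succ k ih =>
    rw [pow_succ' φ, RingHom.mul_def, RingHom.comp_apply, ih, map_pow, h, ← pow_mul, pow_succ']

private lemma pair_norm_one {p : ℕ} [Fact p.Prime] {w : ℂ_[p]} {n : ℕ} (hn : 0 < n)
    (h : w ^ n = 1) : ‖w‖ = 1 := by
  have h1 : ‖w‖ ^ n = 1 := by rw [← norm_pow, h, norm_one]
  exact (pow_eq_one_iff_of_nonneg (norm_nonneg w) hn.ne').1 h1

private lemma pair_radius (p : ℕ) [Fact p.Prime] {E0 : ℕ} (hE : 0 < E0) :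
    ∃ r : ℝ, r < 1 ∧ ∀ (t : ℝ) (k : ℤ), 0 ≤ t → t < 1 → t ^ E0 = (p : ℝ) ^ k → t ≤ r := by
  have hp : (1 : ℝ) < p := by exact_mod_cast (Fact.out : p.Prime).one_lt
  have hp0 : (0 : ℝ) < p := by linarith
  refine ⟨((p : ℝ)⁻¹) ^ ((E0 : ℝ)⁻¹), Real.rpow_lt_one (by positivity) (inv_lt_one_of_one_lt₀ hp)
    (by positivity), fun t k ht0 ht1 hk => ?_⟩
  have h1 : (p : ℝ) ^ k < (p : ℝ) ^ (0 : ℤ) := by
    rw [← hk, zpow_zero]
    exact pow_lt_one₀ ht0 ht1 hE.ne'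
  have hk0 : k < 0 := (zpow_lt_zpow_iff_right₀ hp).1 h1
  have h2 : t ^ E0 ≤ (p : ℝ)⁻¹ := by
    rw [hk, ← zpow_neg_one]
    exact zpow_le_zpow_right₀ hp.le (by omega)
  calc t = (t ^ E0) ^ ((E0 : ℝ)⁻¹) := (Real.pow_rpow_inv_natCast ht0 hE.ne').symm
    _ ≤ _ := Real.rpow_le_rpow (by positivity) h2 (by positivity)

private lemma pair_small (p : ℕ) [Fact p.Prime] {η0 : ℝ} (hη : 0 < η0) {a : ℕ} (ha : 0 < a) :
    ∃ m : ℕ, 0 < m ∧ ‖(((p ^ a) ^ m : ℕ) : ℂ_[p])‖ < η0 := by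
  have hp : (1 : ℝ) < p := by exact_mod_cast (Fact.out : p.Prime).one_lt
  have hn : ‖(p : ℂ_[p])‖ < 1 := by
    have h1 : (p : ℂ_[p]) = algebraMap ℚ_[p] ℂ_[p] (p : ℚ_[p]) := by simp
    rw [h1, norm_algebraMap', Padic.norm_p]
    exact inv_lt_one_of_one_lt₀ hp
  have h2 : ‖(p : ℂ_[p])‖ ^ a < 1 := pow_lt_one₀ (norm_nonneg _) hn ha.ne'
  obtain ⟨m, hm⟩ := exists_pow_lt_of_lt_one hη h2
  refine ⟨m + 1, Nat.succ_pos m, ?_⟩
  push_cast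
  rw [norm_pow, norm_pow]
  refine lt_of_le_of_lt ?_ hm
  exact pow_le_pow_of_le_one (by positivity) h2.le (Nat.le_succ m)

private lemma pair_ratio {p : ℕ} [Fact p.Prime] {x0 x x' : ℂ_[p]} (hx : InG x0 x)
    (hx' : InG x0 x') (h0 : x ≠ 0) (h1 : ‖x‖ < 1) (he : ‖x‖ = ‖x'‖) :
    ∃ n : ℕ, 0 < n ∧ (x' / x) ^ n = 1 := by
  obtain ⟨a, ha, k, hk⟩ := hx
  obtain ⟨a', ha', k', hk'⟩ := hx'
  have hx1 : ‖x0‖ ≠ 1 := by
    intro h
    have h2 : ‖x‖ ^ a = 1 := by rw [← norm_pow, hk, norm_zpow, h, one_zpow]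
    exact absurd h2 (pow_lt_one₀ (norm_nonneg _) h1 ha.ne').ne
  have hx0 : x0 ≠ 0 := by
    rintro rfl
    by_cases hk0 : k = 0
    · subst hk0
      have h2 : ‖x‖ ^ a = 1 := by rw [← norm_pow, hk, zpow_zero, norm_one]
      exact absurd h2 (pow_lt_one₀ (norm_nonneg _) h1 ha.ne').ne
    · rw [zero_zpow k hk0] at hk
      exact h0 (pow_eq_zero_iff ha.ne' |>.1 hk)
  have hG : InG x0 (x' / x) := by
    refine ⟨a * a', Nat.mul_pos ha ha', k' * a - k * a', ?_⟩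
    rw [div_pow, mul_comm a a', pow_mul, hk', mul_comm a' a, pow_mul, hk, zpow_sub₀ hx0,
      zpow_mul, zpow_mul, zpow_natCast, zpow_natCast]
  refine InG.root_of_unity hx0 hx1 hG ?_
  rw [norm_div, ← he, div_self (norm_ne_zero_iff.2 h0)]

/-- Two points of large curvature with the same norm differ by a root of unity of bounded
order. -/
theorem Good.pair {F : ℤ[X][Y]} (hF : Good F) (hN : ¬ toQ F ∣ toQ (Nq F)) (p : ℕ)
    [Fact p.Prime] (D : ℕ) {η0 : ℝ} (hη : 0 < η0) : ∃ W : ℕ, 0 < W ∧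
      ∀ (K : IntermediateField ℚ_[p] ℂ_[p]) [FiniteDimensional ℚ_[p] K],
        Module.finrank ℚ_[p] K ≤ D → ∀ x0 ∈ K, ∀ y0 ∈ K, ∀ P ∈ Pts F x0 y0, ∀ P' ∈ Pts F x0 y0,
          η0 ≤ ‖kapG (garr F) P.1 P.2‖ → η0 ≤ ‖kapG (garr F) P'.1 P'.2‖ → ‖P.1‖ = ‖P'.1‖ →
          (P'.1 / P.1) ^ W = 1 := by
  have hp : p.Prime := Fact.out
  obtain ⟨M, hM, hin⟩ := hF.inertia hN p
  obtain ⟨E0, hE0, hdisc⟩ := hF.norm_discrete hN p D
  obtain ⟨r0, hr0, hrad⟩ := pair_radius p hE0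
  obtain ⟨E, hE⟩ : ∃ E, E = (D * p ^ 2).factorial := ⟨_, rfl⟩
  have hEpos : 0 < E := hE ▸ Nat.factorial_pos _
  obtain ⟨s1, hs1⟩ := exists_ppow_bound p hEpos
  obtain ⟨M1, hM1⟩ : ∃ M1, M1 = M * p ^ s1 := ⟨_, rfl⟩
  have hM1pos : 0 < M1 := hM1 ▸ Nat.mul_pos hM (pow_pos hp.pos _)
  obtain ⟨m, hm, hsm⟩ := pair_small p hη (Nat.mul_pos hEpos (Nat.factorial_pos M1))
  obtain ⟨T, hT⟩ : ∃ T, T = M1.factorial * m := ⟨_, rfl⟩
  have hTpos : 0 < T := hT ▸ Nat.mul_pos (Nat.factorial_pos _) hm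
  have hQ0 : 1 < p ^ E := Nat.one_lt_pow hEpos.ne' hp.one_lt
  have hsm' : ‖(((p ^ E) ^ T : ℕ) : ℂ_[p])‖ < η0 := by
    rw [hT, pow_mul, ← pow_mul p E]
    exact hsm
  obtain ⟨B, hB⟩ := teichmueller p (garr F) hr0 hη (pow_pos (by omega) T) hsm'
  have hQB : 1 < (p ^ E) ^ (T * B.factorial) :=
    Nat.one_lt_pow (Nat.mul_pos hTpos (Nat.factorial_pos _)).ne' hQ0
  refine ⟨M1 * ((p ^ E) ^ (T * B.factorial) - 1), Nat.mul_pos hM1pos (by omega), ?_⟩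
  intro K _ hK x0 hx0 y0 hy0 P hP P' hP' hk hk' hnorm
  obtain ⟨ζ, hζ⟩ := pair_prim p (pow_pos hp.pos 2)
  obtain ⟨K', hK'⟩ : ∃ K' : IntermediateField ℚ_[p] ℂ_[p], K' = K ⊔ ℚ_[p]⟮ζ⟯ := ⟨_, rfl⟩
  have hfin : FiniteDimensional ℚ_[p] K' :=
    hK' ▸ finiteDimensional_sup_root K (pow_pos hp.pos 2) hζ.pow_eq_one
  have hD' : Module.finrank ℚ_[p] K' ≤ D * p ^ 2 := by
    rw [hK']
    exact (finrank_sup_root_le K (pow_pos hp.pos 2) hζ.pow_eq_one).trans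
      (Nat.mul_le_mul_right _ hK)
  have hKK' : K ≤ K' := hK' ▸ le_sup_left
  have hζK : ζ ∈ K' := by
    rw [hK']
    exact (le_sup_right : ℚ_[p]⟮ζ⟯ ≤ K ⊔ ℚ_[p]⟮ζ⟯) (IntermediateField.mem_adjoin_simple_self _ _)
  obtain ⟨n1, hn1, h1⟩ := hP.2.1.exists_pow_mem hx0
  obtain ⟨n2, hn2, h2⟩ := hP.2.2.exists_pow_mem hy0
  obtain ⟨n3, hn3, h3⟩ := hP'.2.1.exists_pow_mem hx0
  obtain ⟨n4, hn4, h4⟩ := hP'.2.2.exists_pow_mem hy0
  obtain ⟨n5, hn5, h5⟩ := pair_ratio hP.2.1 hP'.2.1 hP.1.1.1 hP.1.1.2.1 hnorm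
  have hnpos : n1 * n2 * n3 * n4 * n5 ≠ 0 := by positivity
  obtain ⟨s, r, hr, hsr⟩ := Nat.exists_eq_pow_mul_and_not_dvd hnpos p hp.ne_one
  have hn : 0 < p ^ s * r := hsr ▸ Nat.pos_of_ne_zero hnpos
  have hrpos : 0 < r := Nat.pos_of_ne_zero (by rintro rfl; simp at hn)
  have hpw : ∀ {z : ℂ_[p]} {a : ℕ}, z ^ a ∈ K → a ∣ n1 * n2 * n3 * n4 * n5 →
      z ^ (p ^ s * r) ∈ K := by
    intro z a hz ⟨c, hc⟩
    rw [← hsr, hc, pow_mul]
    exact pow_mem hz c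
  have g1 := hpw h1 ⟨n2 * n3 * n4 * n5, by ring⟩
  have g2 := hpw h2 ⟨n1 * n3 * n4 * n5, by ring⟩
  have g3 := hpw h3 ⟨n1 * n2 * n4 * n5, by ring⟩
  have g4 := hpw h4 ⟨n1 * n2 * n3 * n5, by ring⟩
  have g5 : (P'.1 / P.1) ^ (p ^ s * r) = 1 := by
    rw [← hsr, mul_comm _ n5, pow_mul, h5, one_pow]
  obtain ⟨R, hR⟩ : ∃ R, R = (p ^ E - 1) * r := ⟨_, rfl⟩
  have hRpos : 0 < R := hR ▸ Nat.mul_pos (by omega) hrpos
  have hRp : ¬ p ∣ R := by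
    rw [hR]
    intro h
    rcases (Nat.Prime.dvd_mul hp).1 h with h | h
    · have h6 : p ∣ p ^ E := dvd_pow_self p hEpos.ne'
      have h7 : p ∣ p ^ E - (p ^ E - 1) := Nat.dvd_sub h6 h
      have h8 : p ^ E - (p ^ E - 1) = 1 := by omega
      rw [h8] at h7
      exact hp.one_lt.ne' (Nat.dvd_one.1 h7)
    · exact hr h
  obtain ⟨ω, hω⟩ := pair_prim p hRpos
  have : NeZero R := ⟨hRpos.ne'⟩
  have : NeZero r := ⟨hrpos.ne'⟩
  have : NeZero (p ^ 2) := ⟨(pow_pos hp.pos 2).ne'⟩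
  obtain ⟨L, hL⟩ : ∃ L : IntermediateField ℚ_[p] ℂ_[p], L = K' ⊔ ℚ_[p]⟮ω⟯ := ⟨_, rfl⟩
  have hfinL : FiniteDimensional ℚ_[p] L :=
    hL ▸ finiteDimensional_sup_root K' hRpos hω.pow_eq_one
  have hK'L : K' ≤ L := hL ▸ le_sup_left
  have hωL : ω ∈ L := by
    rw [hL]
    exact (le_sup_right : ℚ_[p]⟮ω⟯ ≤ K' ⊔ ℚ_[p]⟮ω⟯) (IntermediateField.mem_adjoin_simple_self _ _)
  have hrR : ∀ {w : ℂ_[p]}, w ^ r = 1 → w ^ R = 1 := by
    intro w hw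
    rw [hR, mul_comm, pow_mul, hw, one_pow]
  have hML : ∀ Q ∈ Crv ℂ_[p] F, Q.1 ^ (p ^ s * r) ∈ K → Q.2 ^ (p ^ s * r) ∈ K →
      Q.1 ^ M ∈ L ∧ Q.2 ^ M ∈ L := by
    intro Q hQ a1 a2
    have hfix : ∀ σ : ℂ_[p] →+* ℂ_[p], Iso σ → (∀ a ∈ L, σ a = a) →
        σ (Q.1 ^ M) = Q.1 ^ M ∧ σ (Q.2 ^ M) = Q.2 ^ M := by
      intro σ hσ hσL
      refine hin σ Q s r hσ hQ hr (hσL _ (hK'L (hKK' a1))) (hσL _ (hK'L (hKK' a2))) ?_ ?_
      · intro ξ hξ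
        obtain ⟨i, -, rfl⟩ := hζ.eq_pow_of_pow_eq_one hξ
        exact hσL _ (pow_mem (hK'L hζK) i)
      · intro w hw
        obtain ⟨i, -, rfl⟩ := hω.eq_pow_of_pow_eq_one (hrR hw)
        exact hσL _ (pow_mem hωL i)
    constructor
    · refine mem_of_fixed L hn ?_ fun σ hσ hσL => (hfix σ hσ hσL).1
      rw [← pow_mul, mul_comm, pow_mul]
      exact pow_mem (hK'L (hKK' a1)) M
    · refine mem_of_fixed L hn ?_ fun σ hσ hσL => (hfix σ hσ hσL).2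
      rw [← pow_mul, mul_comm, pow_mul]
      exact pow_mem (hK'L (hKK' a2)) M
  obtain ⟨φ, hφ, hφK, hφω⟩ := exists_frobenius K' hD' hRp hω.pow_eq_one
  rw [← hE] at hφω
  have hφR : ∀ {w : ℂ_[p]}, w ^ R = 1 → φ w = w ^ p ^ E := by
    intro w hw
    obtain ⟨i, -, rfl⟩ := hω.eq_pow_of_pow_eq_one hw
    rw [map_pow, hφω, ← pow_mul, ← pow_mul, mul_comm]
  have hppart : ∀ {ξ : ℂ_[p]}, ξ ^ p ^ s = 1 → ξ ^ M ∈ L → ξ ^ M1 = 1 := by
    intro ξ hξ hξL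
    rw [hM1, pow_mul]
    refine hs1 (ξ ^ M) s (by rw [← pow_mul, mul_comm, pow_mul, hξ, one_pow]) fun hne => ?_
    rw [hE]
    exact norm_pow_factorial_unram K' hD' hRp hω (hL ▸ sub_mem hξL (one_mem L))
      (sub_ne_zero.2 hne)
  have hsplit : ∀ z : ℂ_[p], z ≠ 0 → z ^ (p ^ s * r) ∈ K → z ^ M ∈ L →
      ∃ w u : ℂ_[p], w ^ R = 1 ∧ (φ ^ T) u = u ∧ ‖u‖ = ‖z‖ ∧ z = w * u := by
    intro z hz0 hzK hzL
    have e1 : (φ z / z) ^ (p ^ s * r) = 1 := by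
      rw [div_pow, ← map_pow, hφK _ (hKK' hzK), div_self (pow_ne_zero _ hz0)]
    obtain ⟨a, b, hab, ha, hb⟩ := exists_root_decomp hr e1
    have e2 : (φ z / z) ^ M ∈ L := by
      rw [div_pow, ← map_pow]
      refine div_mem ?_ hzL
      rw [hL] at hzL ⊢
      exact map_mem_sup_root K' hφK hφω hzL
    have e3 : ((φ z / z) ^ a) ^ M1 = 1 := by
      refine hppart ha ?_
      rw [← pow_mul, mul_comm, pow_mul]
      exact pow_mem e2 a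
    have hω' : IsPrimitiveRoot (ω ^ (p ^ E - 1)) r := hω.pow hRpos hR
    obtain ⟨i, -, hi⟩ := hω'.eq_pow_of_pow_eq_one hb
    have hw : (ω ^ i) ^ R = 1 := by rw [← pow_mul, mul_comm, pow_mul, hω.pow_eq_one, one_pow]
    have hw0 : ω ^ i ≠ 0 := by
      intro h
      rw [h, zero_pow hRpos.ne'] at hw
      exact zero_ne_one hw
    have e4 : φ (z / ω ^ i) = (φ z / z) ^ a * (z / ω ^ i) := by
      have e5 : (ω ^ i) ^ p ^ E = (φ z / z) ^ b * ω ^ i := by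
        rw [← hi, ← pow_mul ω (p ^ E - 1), mul_comm (p ^ E - 1), pow_mul, ← pow_succ]
        congr 1
        omega
      have e6 : φ z = (φ z / z) ^ a * (φ z / z) ^ b * z := by
        rw [← hab, div_mul_cancel₀ _ hz0]
      have e7 : (φ z / z) ^ b ≠ 0 := by
        intro h
        rw [h, zero_pow hrpos.ne'] at hb
        exact zero_ne_one hb
      rw [map_div₀, hφR hw, e5]
      generalize (φ z / z) ^ a = A at *
      generalize (φ z / z) ^ b = Bb at *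
      rw [e6]
      field_simp
    refine ⟨ω ^ i, z / ω ^ i, hw, ?_, ?_, by field_simp⟩
    · refine pair_fix_dvd (pair_fix_factorial φ hM1pos ?_) ⟨m, hT⟩
      rw [map_pow, e4, mul_pow, e3, one_mul]
    · rw [norm_div, pair_norm_one hRpos hw, div_one]
  have hfixP : ∀ Q ∈ Pts F x0 y0, Q.1 ^ (p ^ s * r) ∈ K → Q.2 ^ (p ^ s * r) ∈ K →
      η0 ≤ ‖kapG (garr F) Q.1 Q.2‖ → (φ ^ (T * B.factorial)) Q.1 = Q.1 := by
    intro Q hQ a1 a2 hkQ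
    obtain ⟨b1, b2⟩ := hML Q hQ.1 a1 a2
    obtain ⟨c1, c2, c3, c4⟩ := hQ.1.1
    obtain ⟨w1, u1, hw1, hu1, hn1', he1⟩ := hsplit Q.1 c1 a1 b1
    obtain ⟨w2, u2, hw2, hu2, hn2', he2⟩ := hsplit Q.2 c3 a2 b2
    obtain ⟨⟨k1, hk1⟩, k2, hk2⟩ := hdisc K hK x0 hx0 y0 hy0 Q hQ
    obtain ⟨k, hk0, hkB, hkw, -⟩ := hB (φ ^ T) u1 u2 w1 w2 R (hφ.iterate T) hu1 hu2
      (hn1' ▸ hrad _ k1 (norm_nonneg _) c2 hk1) (hn2' ▸ hrad _ k2 (norm_nonneg _) c4 hk2) hRp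
      hw1 hw2 (pair_frob (hφR hw1) T) (pair_frob (hφR hw2) T)
      (by rw [← he1, ← he2]; exact (mem_Crv_iff F hQ.1.1).1 hQ.1)
      (by rw [← he1, ← he2]; exact hkQ)
    have e1 : (φ ^ (T * k)) Q.1 = Q.1 := by
      rw [he1, map_mul, pair_frob (hφR hw1), pow_mul (p ^ E), hkw,
        pair_fix_dvd hu1 (dvd_mul_right T k)]
    exact pair_fix_dvd e1 (Nat.mul_dvd_mul_left T (Nat.dvd_factorial hk0 hkB))
  have f1 := hfixP P hP g1 g2 hk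
  have f2 := hfixP P' hP' g3 g4 hk'
  have f3 : (φ ^ (T * B.factorial)) (P'.1 / P.1) = P'.1 / P.1 := by rw [map_div₀, f1, f2]
  obtain ⟨a, b, hab, ha, hb⟩ := exists_root_decomp hr g5
  have f4 : ((P'.1 / P.1) ^ a) ^ M1 = 1 := by
    refine hppart ha ?_
    rw [← pow_mul, mul_comm, pow_mul, div_pow]
    exact pow_mem (div_mem (hML P' hP'.1 g3 g4).1 (hML P hP.1 g1 g2).1) a
  have f5 : ((P'.1 / P.1) ^ b) ^ ((p ^ E) ^ (T * B.factorial) - 1) = 1 := by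
    have e1 := pair_frob (hφR (hrR hb)) (T * B.factorial)
    rw [map_pow, f3] at e1
    have e7 : (P'.1 / P.1) ^ b ≠ 0 := by
      intro h
      rw [h, zero_pow hrpos.ne'] at hb
      exact zero_ne_one hb
    refine mul_right_cancel₀ e7 ?_
    rw [one_mul, ← pow_succ, Nat.sub_add_cancel hQB.le, ← e1]
  rw [hab, mul_pow, pow_mul ((P'.1 / P.1) ^ a), f4, one_pow, one_mul, mul_comm M1,
    pow_mul, f5, one_pow]

end Pool.Agent.UAP
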