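import Pool.Agent.Lib.MP_7e5527_ag.Hecke
import Pool.Agent.Lib.MP_7e5527_ag.Jf
import Pool.Agent.Lib.MP_7e5527_ag.Gen

open Polynomial UpperHalfPlane
open scoped Polynomial.Bivariate MatrixGroups IntermediateField

noncomputable section

namespace Pool.Agent.UAP

private theorem psum_toS_inj {s s' : PowerSeries ℤ} (h : toS ℂ s = toS ℂ s') : s = s' := by
  ext n
  have h1 := congrArg (PowerSeries.coeff n) h
  simpa [toS, PowerSeries.coeff_map] using h1

private theorem psum_Ds_ne : toS ℂ Ds ≠ 0 := by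
  intro h
  have h1 : Ds = 0 := psum_toS_inj (by rw [h, map_zero])
  have h2 := congrArg (PowerSeries.coeff 1) h1
  rw [Ds_eq_X_mul, PowerSeries.coeff_succ_X_mul, PowerSeries.coeff_zero_eq_constantCoeff_apply,
    constantCoeff_D0s] at h2
  simp at h2

/-- One step of the division algorithm for modular forms of weight `12 n`. -/
private theorem psum_step (n : ℕ) (f : ModularForm 𝒮ℒ ((12 * n : ℕ) : ℤ)) (s : PowerSeries ℤ)
    (hs : qExpansion 1 f = toS ℂ s) :
    ∃ (g : ModularForm 𝒮ℒ (((12 * n : ℕ) : ℤ) - 12)) (s' : PowerSeries ℤ) (c : ℤ),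
      qExpansion 1 g = toS ℂ s' ∧ s = (c : PowerSeries ℤ) * (E4s ^ 3) ^ n + Ds * s' := by
  set c : ℤ := PowerSeries.constantCoeff s with hc
  let e : ModularForm 𝒮ℒ ((12 * n : ℕ) : ℤ) :=
    ModularForm.mcast (by push_cast; ring) (ModularForm.E₄.pow (3 * n))
  have he : qExpansion 1 e = toS ℂ ((E4s ^ 3) ^ n) := by
    rw [← pow_mul, map_pow, ← qExpansion_E4]
    exact ModularForm.qExpansion_pow one_pos one_mem_strictPeriods_SL ModularForm.E₄ (3 * n)
  let f1 : ModularForm 𝒮ℒ ((12 * n : ℕ) : ℤ) := f - (c : ℂ) • e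
  have hf1 : qExpansion 1 f1 = toS ℂ (s - (c : PowerSeries ℤ) * (E4s ^ 3) ^ n) := by
    have h1 : qExpansion 1 f1 = qExpansion 1 f - qExpansion 1 ((c : ℂ) • e) :=
      ModularForm.qExpansion_sub one_pos one_mem_strictPeriods_SL f ((c : ℂ) • e)
    have h2 : qExpansion 1 ((c : ℂ) • e) = (c : ℂ) • qExpansion 1 e :=
      ModularForm.qExpansion_smul one_pos one_mem_strictPeriods_SL (c : ℂ) e
    rw [h1, h2, hs, he, map_sub, map_mul, map_intCast, Int.cast_smul_eq_zsmul, zsmul_eq_mul]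
  have h0 : PowerSeries.constantCoeff (s - (c : PowerSeries ℤ) * (E4s ^ 3) ^ n) = 0 := by
    simp [constantCoeff_E4s, hc]
  obtain ⟨u, hu⟩ := PowerSeries.X_dvd_iff.mpr h0
  have hz : (qExpansion 1 f1).coeff 0 = 0 := by
    rw [hf1, hu]
    simp [toS]
  have hD : Ds * (u * PowerSeries.invOfUnit D0s 1) = PowerSeries.X * u := by
    have h3 : D0s * PowerSeries.invOfUnit D0s 1 = 1 :=
      PowerSeries.mul_invOfUnit D0s 1 (by simpa using constantCoeff_D0s)
    rw [Ds_eq_X_mul]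
    linear_combination (PowerSeries.X * u) * h3
  refine ⟨CuspForm.discriminantEquiv (ModularForm.toCuspForm f1 hz),
    u * PowerSeries.invOfUnit D0s 1, c, ?_, ?_⟩
  · have h4 := ModularForm.qExpansion_eq_qExpansion_discriminant_mul f1 hz
    rw [hf1, hu, ← hD, map_mul, qExpansion_Delta] at h4
    exact (mul_left_cancel₀ psum_Ds_ne h4).symm
  · rw [hD, ← hu]
    ring

/-- An integral `q`-expansion of weight `12 n` is an integral form in `E₄ ^ 3` and `Δ`. -/
private theorem psum_poly (n : ℕ) : ∀ (f : ModularForm 𝒮ℒ ((12 * n : ℕ) : ℤ)) (s : PowerSeries ℤ),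
    qExpansion 1 f = toS ℂ s → ∃ P : ℤ[X], P.natDegree ≤ n ∧ s = hom1 P n (E4s ^ 3) Ds := by
  induction n with
  | zero =>
    intro f s hs
    obtain ⟨g, s', c, hg, hc⟩ := psum_step 0 f s hs
    have hg0 : g = 0 :=
      rank_zero_iff_forall_zero.mp (ModularForm.levelOne_neg_weight_rank_zero (by norm_num)) g
    have hs' : s' = 0 := by
      apply psum_toS_inj
      rw [← hg, hg0, map_zero]
      exact qExpansion_zero 1
    refine ⟨C c, by simp, ?_⟩
    rw [hc, hs']
    simp [hom1]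
  | succ n ih =>
    intro f s hs
    obtain ⟨g, s', c, hg, hc⟩ := psum_step (n + 1) f s hs
    obtain ⟨P, hP, hPs⟩ := ih (ModularForm.mcast (by push_cast; ring) g) s' hg
    refine ⟨P + monomial (n + 1) c, ?_, ?_⟩
    · exact (natDegree_add_le _ _).trans
        (max_le (hP.trans (Nat.le_succ n)) (natDegree_monomial_le c))
    · rw [hc, hPs, hom1, hom1, Finset.sum_range_succ _ (n + 1), Finset.mul_sum, add_comm]
      congr 1
      · refine Finset.sum_congr rfl fun i hi => ?_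
        have hi' : i < n + 1 := Finset.mem_range.mp hi
        rw [coeff_add, coeff_monomial, if_neg (by omega), add_zero,
          show n + 1 - i = (n - i) + 1 by omega, pow_succ]
        ring
      · rw [coeff_add, coeff_monomial, if_pos rfl,
          coeff_eq_zero_of_natDegree_lt (Nat.lt_succ_of_le hP)]
        simp

private theorem psum_geom {E : Type*} [Field E] {η : E} {d : ℕ} (hη : IsPrimitiveRoot η d)
    (n : ℕ) : ∑ b ∈ Finset.range d, (η ^ n) ^ b = if d ∣ n then (d : E) else 0 := by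
  split_ifs with h
  · rw [(hη.pow_eq_one_iff_dvd n).mpr h]
    simp
  · have h1 : η ^ n ≠ 1 := fun h' => h ((hη.pow_eq_one_iff_dvd n).mp h')
    rw [geom_sum_eq h1, ← pow_mul, mul_comm n d, pow_mul, hη.pow_eq_one]
    simp

/-- The `q`-expansion of the part of the Hecke operator with fixed diagonal `(a, d)`. -/
private def psumU (a d : ℕ) (s : PowerSeries ℤ) : PowerSeries ℤ :=
  PowerSeries.mk fun m => if a ∣ m then (d : ℤ) * PowerSeries.coeff (d * (m / a)) s else 0

private theorem psum_hasEv_U {E : Type*} [NormedField E] {N a d : ℕ} (hN : 0 < N)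
    (had : a * d = N) (s : PowerSeries ℤ) {ζ t : E} (hζ : IsPrimitiveRoot ζ N) {v : ℕ → E}
    (hv : ∀ b < d, HasEv (toS E s) (qg (a, b, d) ζ t) (v b)) :
    HasEv (toS E (psumU a d s)) (t ^ N) (∑ b ∈ Finset.range d, v b) := by
  have ha : 0 < a := Nat.pos_of_mul_pos_right (had ▸ hN)
  have hd : 0 < d := Nat.pos_of_mul_pos_left (had ▸ hN)
  have hη : IsPrimitiveRoot (ζ ^ a) d := hζ.pow hN had.symm
  have h1 := hasSum_sum (s := Finset.range d) fun b hb => hv b (Finset.mem_range.mp hb)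
  have h2 : ∀ n : ℕ, ∑ b ∈ Finset.range d, PowerSeries.coeff n (toS E s) * qg (a, b, d) ζ t ^ n
      = if d ∣ n then (d : E) * ((PowerSeries.coeff n s : ℤ) : E) * t ^ (a ^ 2 * n) else 0 := by
    intro n
    have h3 : ∀ b : ℕ, PowerSeries.coeff n (toS E s) * qg (a, b, d) ζ t ^ n
        = ((ζ ^ a) ^ n) ^ b * (((PowerSeries.coeff n s : ℤ) : E) * t ^ (a ^ 2 * n)) := by
      intro b
      simp only [toS, PowerSeries.coeff_map, qg, eq_intCast]
      ring
    simp_rw [h3]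
    rw [← Finset.sum_mul, psum_geom hη]
    split_ifs
    · ring
    · ring
  simp_rw [h2] at h1
  have h4 : HasSum (fun m : ℕ => (d : E) * ((PowerSeries.coeff (d * m) s : ℤ) : E) *
      t ^ (a ^ 2 * (d * m))) (∑ b ∈ Finset.range d, v b) := by
    have hinj : Function.Injective fun m : ℕ => d * m := fun x y hxy =>
      Nat.eq_of_mul_eq_mul_left hd hxy
    have h5 := (hinj.hasSum_iff (f := fun n : ℕ => if d ∣ n then
      (d : E) * ((PowerSeries.coeff n s : ℤ) : E) * t ^ (a ^ 2 * n) else 0) (by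
        intro n hn
        rw [if_neg]
        rintro ⟨m, rfl⟩
        exact hn ⟨m, rfl⟩)).mpr h1
    convert h5 using 2 with m
    simp
  have hinj : Function.Injective fun m : ℕ => a * m := fun x y hxy =>
    Nat.eq_of_mul_eq_mul_left ha hxy
  refine (hinj.hasSum_iff ?_).mp ?_
  · intro n hn
    have : ¬ a ∣ n := by
      rintro ⟨m, rfl⟩
      exact hn ⟨m, rfl⟩
    simp [toS, psumU, this]
  · convert h4 using 2 with m
    simp only [Function.comp, toS, psumU, PowerSeries.coeff_map, PowerSeries.coeff_mk,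
      dvd_mul_right, if_true, Nat.mul_div_cancel_left m ha, eq_intCast]
    rw [← had]
    push_cast
    ring

private theorem psum_sum_Tri {M : Type*} [AddCommMonoid M] {N : ℕ} (hN : 0 < N)
    (F : ℕ × ℕ × ℕ → M) : ∑ g ∈ Tri N, F g =
      ∑ ad ∈ N.divisorsAntidiagonal, ∑ b ∈ Finset.range ad.2, F (ad.1, b, ad.2) := by
  rw [Finset.sum_sigma']
  refine Finset.sum_nbij' (fun g => ⟨(g.1, g.2.2), g.2.1⟩) (fun x => (x.1.1, x.2, x.1.2))
    ?_ ?_ ?_ ?_ ?_
  · intro g hg
    have := (mem_Tri hN).mp hg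
    simp [this.1, this.2, hN.ne']
  · intro x hx
    simp only [Finset.mem_sigma, Nat.mem_divisorsAntidiagonal, Finset.mem_range] at hx
    exact (mem_Tri hN).mpr ⟨hx.1.1, hx.2⟩
  · intro g _
    rfl
  · intro x _
    rfl
  · intro g _
    rfl

/-- The `q`-expansion of the Hecke operator. -/
private def psumT (N w : ℕ) (s : PowerSeries ℤ) : PowerSeries ℤ :=
  ∑ ad ∈ N.divisorsAntidiagonal, PowerSeries.C ((ad.1 : ℤ) ^ w) * psumU ad.1 ad.2 s

private theorem psum_hasEv_T {E : Type*} [NormedField E] {N : ℕ} (hN : 0 < N) (w : ℕ)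
    (s : PowerSeries ℤ) {ζ t : E} (hζ : IsPrimitiveRoot ζ N) {v : ℕ × ℕ × ℕ → E}
    (hv : ∀ g ∈ Tri N, HasEv (toS E s) (qg g ζ t) (v g)) :
    HasEv (toS E (psumT N w s)) (t ^ N) (∑ g ∈ Tri N, (g.1 : E) ^ w * v g) := by
  rw [psum_sum_Tri hN, psumT, map_sum]
  refine hasEv_sum _ fun ad had => ?_
  have h1 : ad.1 * ad.2 = N := (Nat.mem_divisorsAntidiagonal.mp had).1
  have h2 := (psum_hasEv_U hN h1 s hζ (v := fun b => v (ad.1, b, ad.2))
    fun b hb => hv _ ((mem_Tri hN).mpr ⟨h1, hb⟩)).C_mul ((ad.1 : E) ^ w)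
  rw [Finset.mul_sum] at h2
  convert h2 using 1
  simp [toS]

private theorem psum_finish {E : Type*} [NormedField E] (hE : MulOK E) {N : ℕ} {k l : ℕ}
    {P : ℤ[X]} (hP : P.natDegree ≤ k + l) {q e δ : E} {e' δ' : ℕ × ℕ × ℕ → E}
    (he : HasEv (toS E E4s) q e) (hδ : HasEv (toS E Ds) q δ) (hδ0 : δ ≠ 0)
    (h : HasEv (toS E (hom1 P (k + l) (E4s ^ 3) Ds)) q
      (∑ g ∈ Tri N, (g.1 : E) ^ (12 * (k + l)) * (δ' g ^ k * (e' g ^ 3) ^ l))) :
    ∑ g ∈ Tri N, ((g.1 : E) ^ 12 * δ' g / δ) ^ k * ((g.1 : E) ^ 12 * e' g ^ 3 / δ) ^ l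
      = ev1 (e ^ 3 / δ) P := by
  rw [map_hom1, map_pow] at h
  have h1 := h.unique (hasEv_hom1 hE P (k + l) (he.pow hE 3) hδ)
  rw [hom1_eq P hP _ hδ0] at h1
  apply mul_left_cancel₀ (pow_ne_zero (k + l) hδ0)
  rw [← h1, Finset.mul_sum]
  refine Finset.sum_congr rfl fun g _ => ?_
  rw [div_pow, div_pow, mul_pow, mul_pow]
  field_simp
  ring

private theorem psum_qg_complex {N : ℕ} (hN : 0 < N) {g : ℕ × ℕ × ℕ} (hg : g ∈ Tri N) (τ : ℍ) :
    qg g (Complex.exp (2 * Real.pi * Complex.I / N))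
      (Complex.exp (2 * Real.pi * Complex.I * τ / N)) =
      Function.Periodic.qParam 1 (aff g τ) := by
  obtain ⟨h1, -⟩ := (mem_Tri hN).mp hg
  have ha : 0 < g.1 := Nat.pos_of_mul_pos_right (h1 ▸ hN)
  have hd : 0 < g.2.2 := Nat.pos_of_mul_pos_left (h1 ▸ hN)
  have ha' : (g.1 : ℂ) ≠ 0 := by exact_mod_cast ha.ne'
  have hd' : (g.2.2 : ℂ) ≠ 0 := by exact_mod_cast hd.ne'
  rw [qg, ← Complex.exp_nat_mul, ← Complex.exp_nat_mul, ← Complex.exp_add,
    Function.Periodic.qParam, coe_aff ha hd, ← h1]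
  congr 1
  push_cast
  field_simp
  ring

theorem ps_tri (p : ℕ) [Fact p.Prime] {N : ℕ} (hN : 0 < N) : PS p N (Tri N) := by
  intro k l
  let f : ModularForm 𝒮ℒ ((12 * (k + l) : ℕ) : ℤ) :=
    ModularForm.mcast (by push_cast; ring)
      (((ModularFormClass.modularForm CuspForm.discriminant).pow k).mul
        ((ModularForm.E₄.pow 3).pow l))
  have hf : ∀ z : ℍ, f z = ModularForm.discriminant z ^ k * (ModularForm.E₄ z ^ 3) ^ l := by
    intro z
    simp only [f, ModularForm.mcast_apply, ModularForm.coe_mul, ModularForm.coe_pow, Pi.mul_apply,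
      Pi.pow_apply]
    rfl
  obtain ⟨f', hf'⟩ := exists_hecke hN (12 * (k + l)) f
  have hN' : (N : ℂ) ≠ 0 := by exact_mod_cast hN.ne'
  have hC : ∀ τ : ℍ, HasEv (toS ℂ (psumT N (12 * (k + l)) (Ds ^ k * (E4s ^ 3) ^ l)))
      (Function.Periodic.qParam 1 τ) (∑ g ∈ Tri N, (g.1 : ℂ) ^ (12 * (k + l)) *
        (ModularForm.discriminant (aff g τ) ^ k * (ModularForm.E₄ (aff g τ) ^ 3) ^ l)) := by
    intro τ
    have hq : Function.Periodic.qParam 1 τ =
        Complex.exp (2 * Real.pi * Complex.I * τ / N) ^ N := by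
      rw [← Complex.exp_nat_mul, Function.Periodic.qParam]
      congr 1
      push_cast
      field_simp
    rw [hq]
    refine psum_hasEv_T hN _ _ (Complex.isPrimitiveRoot_exp N hN.ne') fun g hg => ?_
    rw [psum_qg_complex hN hg, map_mul, map_pow, map_pow, map_pow]
    exact mulOK_complex _ _ _ _ _ ((hasEv_Delta _).pow mulOK_complex k)
      (((hasEv_E4 _).pow mulOK_complex 3).pow mulOK_complex l)
  have hq : qExpansion 1 f' = toS ℂ (psumT N (12 * (k + l)) (Ds ^ k * (E4s ^ 3) ^ l)) := by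
    ext m
    refine (ModularFormClass.qExpansion_coeff_unique one_pos one_mem_strictPeriods_SL
      (f := f') (c := fun m => PowerSeries.coeff m
        (toS ℂ (psumT N (12 * (k + l)) (Ds ^ k * (E4s ^ 3) ^ l)))) (fun τ => ?_) m).symm
    rw [hf']
    simp_rw [hf]
    exact hC τ
  obtain ⟨P, hP, hPs⟩ := psum_poly (k + l) f' _ hq
  refine ⟨P, hP, fun τ => ?_, fun ζ t hζ ht0 ht => ?_⟩
  · have h := hC τ
    rw [hPs] at h
    exact psum_finish mulOK_complex hP (hasEv_E4 τ) (hasEv_Delta τ)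
      (ModularForm.discriminant_ne_zero τ) h
  · have htN : ‖t ^ N‖ < 1 := by
      rw [norm_pow]
      exact pow_lt_one₀ (norm_nonneg t) ht hN.ne'
    have htN0 : t ^ N ≠ 0 := pow_ne_zero N ht0
    have hζ1 : ‖ζ‖ = 1 := by
      rw [← pow_eq_one_iff_of_nonneg (norm_nonneg ζ) hN.ne', ← norm_pow, hζ.pow_eq_one, norm_one]
    have h := psum_hasEv_T hN (12 * (k + l)) (Ds ^ k * (E4s ^ 3) ^ l) hζ (t := t)
      (v := fun g => evZ Ds (qg g ζ t) ^ k * (evZ E4s (qg g ζ t) ^ 3) ^ l) fun g hg => by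
        obtain ⟨h1, -⟩ := (mem_Tri hN).mp hg
        have ha : 0 < g.1 := Nat.pos_of_mul_pos_right (h1 ▸ hN)
        have hq1 : ‖qg g ζ t‖ < 1 := by
          rw [qg, norm_mul, norm_pow, norm_pow, hζ1, one_pow, one_mul]
          exact pow_lt_one₀ (norm_nonneg t) ht (pow_pos ha 2).ne'
        rw [map_mul, map_pow, map_pow, map_pow]
        exact mulOK_ultra _ _ _ _ _ ((hasEv_evZ Ds hq1).pow mulOK_ultra k)
          (((hasEv_evZ E4s hq1).pow mulOK_ultra 3).pow mulOK_ultra l)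
    rw [hPs] at h
    have hδ0 : evZ Ds (t ^ N) ≠ 0 := by
      rw [← norm_ne_zero_iff, norm_evZ_Ds htN, norm_ne_zero_iff]
      exact htN0
    rw [J_eq htN0 htN]
    exact psum_finish mulOK_ultra hP (hasEv_evZ E4s htN) (hasEv_evZ Ds htN) hδ0 h

end Pool.Agent.UAP
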