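import Pool.Agent.Lib.MP_7e5527_ag.Psum

open Polynomial UpperHalfPlane
open scoped Polynomial.Bivariate MatrixGroups IntermediateField

noncomputable section

namespace Pool.Agent.UAP

/-- Every triple is uniquely a multiple of a primitive triple. -/
private theorem psum2_sum {M : Type*} [AddCommMonoid M] {N : ℕ} (hN : 0 < N)
    (F : ℕ × ℕ × ℕ → M) : ∑ g ∈ Tri N, F g =
      ∑ e ∈ N.divisors.filter (fun e => e ^ 2 ∣ N), ∑ h ∈ Prim (N / e ^ 2),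
        F (e * h.1, e * h.2.1, e * h.2.2) := by
  rw [Finset.sum_sigma']
  symm
  have key : ∀ x ∈ (N.divisors.filter fun e => e ^ 2 ∣ N).sigma fun e => Prim (N / e ^ 2),
      0 < x.1 ∧ x.1 * x.2.1 * (x.1 * x.2.2.2) = N ∧ x.2.2.1 < x.2.2.2 ∧
        Nat.gcd (x.1 * x.2.1) (Nat.gcd (x.1 * x.2.2.1) (x.1 * x.2.2.2)) = x.1 := by
    rintro ⟨e, a, b, d⟩ hx
    simp only [Finset.mem_sigma, Finset.mem_filter, Nat.mem_divisors] at hx
    obtain ⟨⟨⟨h1, -⟩, h2⟩, h3⟩ := hx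
    have he : 0 < e := Nat.pos_of_dvd_of_pos h1 hN
    have hM : 0 < N / e ^ 2 := Nat.div_pos (Nat.le_of_dvd hN h2) (pow_pos he 2)
    obtain ⟨h4, h5, h6⟩ := (mem_Prim hM).mp h3
    refine ⟨he, ?_, h5, ?_⟩
    · rw [← Nat.mul_div_cancel' h2, ← h4]
      ring
    · simp only at h6 ⊢
      rw [Nat.gcd_mul_left, Nat.gcd_mul_left, h6, mul_one]
  refine Finset.sum_bij (fun x _ => (x.1 * x.2.1, x.1 * x.2.2.1, x.1 * x.2.2.2)) ?_ ?_ ?_ ?_
  · intro x hx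
    obtain ⟨h1, h2, h3, -⟩ := key x hx
    exact (mem_Tri hN).mpr ⟨h2, Nat.mul_lt_mul_of_pos_left h3 h1⟩
  · rintro ⟨e, a, b, d⟩ hx ⟨e', a', b', d'⟩ hx' h
    obtain ⟨h1, -, -, h4⟩ := key _ hx
    obtain ⟨-, -, -, h4'⟩ := key _ hx'
    simp only [Prod.mk.injEq] at h h1 h4 h4'
    obtain ⟨ha, hb, hd⟩ := h
    have hee : e = e' := by rw [← h4, ← h4', ha, hb, hd]
    subst hee
    rw [Nat.eq_of_mul_eq_mul_left h1 ha, Nat.eq_of_mul_eq_mul_left h1 hb,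
      Nat.eq_of_mul_eq_mul_left h1 hd]
  · rintro ⟨a, b, d⟩ hg
    obtain ⟨h1, h2⟩ := (mem_Tri hN).mp hg
    simp only at h1 h2
    have ha : 0 < a := Nat.pos_of_mul_pos_right (h1 ▸ hN)
    set e := Nat.gcd a (Nat.gcd b d) with he
    have he0 : 0 < e := Nat.gcd_pos_of_pos_left _ ha
    obtain ⟨a', ha'⟩ : e ∣ a := Nat.gcd_dvd_left _ _
    obtain ⟨b', hb'⟩ : e ∣ b := (Nat.gcd_dvd_right _ _).trans (Nat.gcd_dvd_left _ _)
    obtain ⟨d', hd'⟩ : e ∣ d := (Nat.gcd_dvd_right _ _).trans (Nat.gcd_dvd_right _ _)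
    have hNe : N = e ^ 2 * (a' * d') := by
      rw [← h1]
      conv_lhs => rw [ha', hd']
      ring
    have hdiv : N / e ^ 2 = a' * d' := by
      rw [hNe, Nat.mul_div_cancel_left _ (pow_pos he0 2)]
    have hM : 0 < N / e ^ 2 := Nat.div_pos (Nat.le_of_dvd hN ⟨_, hNe⟩) (pow_pos he0 2)
    have hgcd : Nat.gcd a' (Nat.gcd b' d') = 1 := by
      apply Nat.eq_of_mul_eq_mul_left he0
      rw [← Nat.gcd_mul_left, ← Nat.gcd_mul_left, ← ha', ← hb', ← hd', mul_one]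
    refine ⟨⟨e, a', b', d'⟩, ?_, ?_⟩
    · simp only [Finset.mem_sigma, Finset.mem_filter, Nat.mem_divisors]
      refine ⟨⟨⟨(dvd_pow_self e two_ne_zero).trans ⟨_, hNe⟩, hN.ne'⟩, ⟨_, hNe⟩⟩,
        (mem_Prim hM).mpr ⟨hdiv.symm, ?_, hgcd⟩⟩
      rw [hb', hd'] at h2
      exact Nat.lt_of_mul_lt_mul_left h2
    · simp only [Prod.mk.injEq]
      exact ⟨ha'.symm, hb'.symm, hd'.symm⟩
  · intro x _
    rfl

private theorem psum2_aff {e : ℕ} (he : 0 < e) (h : ℕ × ℕ × ℕ) (τ : ℍ) :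
    aff (e * h.1, e * h.2.1, e * h.2.2) τ = aff h τ := by
  have he' : (e : ℂ) ≠ 0 := by exact_mod_cast he.ne'
  simp only [aff]
  congr 1
  push_cast
  rw [mul_assoc, ← mul_add, mul_div_mul_left _ _ he']

private theorem psum2_qg {E : Type*} [Field E] (e : ℕ) (h : ℕ × ℕ × ℕ) (ζ t : E) :
    qg (e * h.1, e * h.2.1, e * h.2.2) ζ t = qg h (ζ ^ e ^ 2) (t ^ e ^ 2) := by
  simp only [qg]
  ring

theorem ps_prim (p : ℕ) [Fact p.Prime] {N : ℕ} (hN : 0 < N) : PS p N (Prim N) := by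
  induction N using Nat.strong_induction_on with
  | _ N ih =>
  intro k l
  have ih' : ∀ M : ℕ, ∃ P : ℤ[X], M < N → 0 < M → P.natDegree ≤ k + l ∧
      (∀ τ : ℍ, ∑ g ∈ Prim M, phiC g τ ^ k * psiC g τ ^ l = ev1 (jf τ) P) ∧
      ∀ ζ t : ℂ_[p], IsPrimitiveRoot ζ M → t ≠ 0 → ‖t‖ < 1 →
        ∑ g ∈ Prim M, phiP M g ζ t ^ k * psiP M g ζ t ^ l = ev1 (J (t ^ M)) P := by
    intro M
    by_cases hM : M < N ∧ 0 < M
    · obtain ⟨P, hP⟩ := ih M hM.1 hM.2 k l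
      exact ⟨P, fun _ _ => hP⟩
    · exact ⟨0, fun h1 h2 => absurd ⟨h1, h2⟩ hM⟩
  choose Q hQ using ih'
  obtain ⟨P, hP, hPC, hPP⟩ := ps_tri p hN k l
  set S := N.divisors.filter (fun e => e ^ 2 ∣ N) with hS
  have h1 : 1 ∈ S := by simp [hS, hN.ne']
  have hS' : ∀ e ∈ S.erase 1, 0 < e ∧ e ^ 2 ∣ N ∧ N / e ^ 2 < N ∧ 0 < N / e ^ 2 := by
    intro e he
    simp only [hS, Finset.mem_erase, Finset.mem_filter, Nat.mem_divisors] at he
    obtain ⟨h2, ⟨h3, -⟩, h4⟩ := he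
    have he : 0 < e := Nat.pos_of_dvd_of_pos h3 hN
    exact ⟨he, h4, Nat.div_lt_self hN (Nat.one_lt_pow two_ne_zero (by omega)),
      Nat.div_pos (Nat.le_of_dvd hN h4) (pow_pos he 2)⟩
  refine ⟨P - ∑ e ∈ S.erase 1, C ((e : ℤ) ^ (12 * (k + l))) * Q (N / e ^ 2), ?_, fun τ => ?_,
    fun ζ t hζ ht0 ht => ?_⟩
  · refine (natDegree_sub_le _ _).trans (max_le hP ?_)
    refine natDegree_sum_le_of_forall_le _ _ fun e he => ?_
    obtain ⟨-, -, h2, h3⟩ := hS' e he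
    exact (natDegree_C_mul_le _ _).trans (hQ _ h2 h3).1
  · rw [map_sub, ← hPC τ, psum2_sum hN, ← hS, ← Finset.add_sum_erase _ _ h1, map_sum,
      add_sub_assoc, ← Finset.sum_sub_distrib, Finset.sum_eq_zero (s := S.erase 1)]
    · simp
    · intro e he
      obtain ⟨he0, -, h2, h3⟩ := hS' e he
      rw [map_mul, ← (hQ _ h2 h3).2.1 τ, Finset.mul_sum, ← Finset.sum_sub_distrib]
      refine Finset.sum_eq_zero fun h _ => ?_
      simp only [phiC, psiC, psum2_aff he0, eq_intCast, map_intCast]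
      push_cast
      ring
  · rw [map_sub, ← hPP ζ t hζ ht0 ht, psum2_sum hN, ← hS, ← Finset.add_sum_erase _ _ h1, map_sum,
      add_sub_assoc, ← Finset.sum_sub_distrib, Finset.sum_eq_zero (s := S.erase 1)]
    · simp
    · intro e he
      obtain ⟨he0, hd, h2, h3⟩ := hS' e he
      have hNe : N = e ^ 2 * (N / e ^ 2) := (Nat.mul_div_cancel' hd).symm
      have ht' : ‖t ^ e ^ 2‖ < 1 := by
        rw [norm_pow]
        exact pow_lt_one₀ (norm_nonneg t) ht (pow_pos he0 2).ne'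
      have h4 := (hQ _ h2 h3).2.2 (ζ ^ e ^ 2) (t ^ e ^ 2) (hζ.pow hN hNe) (pow_ne_zero _ ht0) ht'
      have h5 : (t ^ e ^ 2) ^ (N / e ^ 2) = t ^ N := by rw [← pow_mul, ← hNe]
      rw [h5] at h4
      rw [map_mul, ← h4, Finset.mul_sum, ← Finset.sum_sub_distrib]
      refine Finset.sum_eq_zero fun h _ => ?_
      simp only [phiP, psiP, psum2_qg, h5, eq_intCast, map_intCast]
      push_cast
      ring

end Pool.Agent.UAP
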