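import Pool.Agent.Lib.MP_7e5527_ag.Weier
import Pool.Agent.Lib.MP_7e5527_ag.Cover
import Pool.Agent.Lib.MP_7e5527_ag.Jet

open Polynomial UpperHalfPlane
open scoped Polynomial.Bivariate MatrixGroups IntermediateField

noncomputable section

namespace Pool.Agent.UAP

variable {p : ℕ} [Fact p.Prime]

private theorem quant_norm_shear {N : ℕ} (hN : 0 < N) {X0 Y0 : ℂ_[p]} (hX : ‖X0‖ < 1)
    (hY : ‖Y0‖ < 1) : ‖X0 + Y0 ^ N‖ < 1 := by
  refine lt_of_le_of_lt (IsUltrametricDist.norm_add_le_max _ _) (max_lt hX ?_)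
  rw [norm_pow]
  exact pow_lt_one₀ (norm_nonneg _) hY hN.ne'

private theorem quant_norm_unshear {N : ℕ} (hN : 0 < N) {x y : ℂ_[p]} (hx : ‖x‖ < 1)
    (hy : ‖y‖ < 1) : ‖x - y ^ N‖ < 1 := by
  rw [sub_eq_add_neg]
  refine lt_of_le_of_lt (IsUltrametricDist.norm_add_le_max _ _) (max_lt hx ?_)
  rw [norm_neg, norm_pow]
  exact pow_lt_one₀ (norm_nonneg _) hy hN.ne'

private theorem quant_ball_infinite : {X0 : ℂ_[p] | ‖X0‖ < 1}.Infinite := by
  have hp1 : (1 : ℝ) < p := by exact_mod_cast (Fact.out : p.Prime).one_lt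
  have hp0 : (0 : ℝ) < (p : ℝ)⁻¹ := inv_pos.mpr (lt_trans one_pos hp1)
  have hp : (p : ℝ)⁻¹ < 1 := inv_lt_one_of_one_lt₀ hp1
  refine Set.infinite_of_injective_forall_mem
    (f := fun n : ℕ => (p : ℂ_[p]) ^ (n + 1)) ?_ ?_
  · intro a b hab
    have h := congrArg norm hab
    simp only [norm_pow, norm_p_eq] at h
    have := pow_right_injective₀ hp0 hp.ne h
    omega
  · intro n
    simp only [Set.mem_ofPred_eq, norm_pow, norm_p_eq]
    exact pow_lt_one₀ hp0.le hp (Nat.succ_ne_zero n)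

private theorem quant_norm_pow_sub {a b : ℂ_[p]} (ha : ‖a‖ ≤ 1) (hb : ‖b‖ ≤ 1) (n : ℕ) :
    ‖a ^ n - b ^ n‖ ≤ ‖a - b‖ := by
  induction n with
  | zero => simp
  | succ n ih =>
    have e : a ^ (n + 1) - b ^ (n + 1) = a * (a ^ n - b ^ n) + (a - b) * b ^ n := by ring
    rw [e]
    refine (IsUltrametricDist.norm_add_le_max _ _).trans (max_le ?_ ?_)
    · rw [norm_mul]
      exact (mul_le_of_le_one_left (norm_nonneg _) ha).trans ih
    · rw [norm_mul, norm_pow]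
      exact mul_le_of_le_one_right (norm_nonneg _) (pow_le_one₀ (norm_nonneg _) hb)

private theorem quant_norm_kapG_le (c : ℕ × ℕ → ℤ) {x y : ℂ_[p]} (hx : ‖x‖ < 1) (hy : ‖y‖ < 1) :
    ‖kapG c x y‖ ≤ 1 := by
  have h := fun a b => norm_val_le (th a b c) hx hy
  have h2 : ‖(2 : ℂ_[p])‖ ≤ 1 := by
    exact_mod_cast IsUltrametricDist.norm_natCast_le_one ℂ_[p] 2
  unfold kapG
  rw [sub_eq_add_neg]
  refine (IsUltrametricDist.norm_add_le_max _ _).trans (max_le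
    ((IsUltrametricDist.norm_add_le_max _ _).trans (max_le ?_ ?_)) ?_)
  · rw [norm_mul, norm_pow]
    exact mul_le_one₀ (h _ _) (by positivity) (pow_le_one₀ (norm_nonneg _) (h _ _))
  · rw [norm_neg, norm_mul, norm_mul, norm_mul]
    exact mul_le_one₀ (mul_le_one₀ (mul_le_one₀ h2 (norm_nonneg _) (h _ _)) (norm_nonneg _)
      (h _ _)) (norm_nonneg _) (h _ _)
  · rw [norm_mul, norm_pow]
    exact mul_le_one₀ (h _ _) (by positivity) (pow_le_one₀ (norm_nonneg _) (h _ _))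

private theorem quant_norm_prod_le (s : Multiset ℂ_[p]) (f : ℂ_[p] → ℂ_[p])
    (hf : ∀ z ∈ s, ‖f z‖ ≤ 1) : ‖(s.map f).prod‖ ≤ 1 := by
  induction s using Multiset.induction_on with
  | empty => simp
  | cons a s ih =>
    rw [Multiset.map_cons, Multiset.prod_cons, norm_mul]
    exact mul_le_one₀ (hf a (Multiset.mem_cons_self _ _)) (norm_nonneg _)
      (ih fun z hz => hf z (Multiset.mem_cons_of_mem hz))

/-- The resultant of the Weierstrass polynomial and the curvature. -/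
private theorem quant_exists_res {c : ℕ × ℕ → ℤ} {N : ℕ} {W : (PowerSeries ℤ_[p])[X]}
    (hW : Wei p c N W) : ∃ R : PowerSeries ℤ_[p], ∀ X0 : ℂ_[p], ‖X0‖ < 1 →
      evI (zp p) X0 R = ((fibW W X0).roots.map fun Y0 => kapG c (X0 + Y0 ^ N) Y0).prod := by
  choose r hr using hW.div
  set ρ : (PowerSeries ℤ_[p])[X] := r (th 2 0 c) * r (th 0 1 c) ^ 2
    - 2 * r (th 1 1 c) * r (th 1 0 c) * r (th 0 1 c) + r (th 0 2 c) * r (th 1 0 c) ^ 2 with hρ
  refine ⟨resultant W ρ W.natDegree ρ.natDegree, fun X0 hX => ?_⟩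
  have hm : (fibW W X0).Monic := hW.monic.map _
  have hd : (fibW W X0).natDegree = W.natDegree := hW.monic.natDegree_map _
  have h1 := resultant_eq_prod_eval (fibW W X0) (fibW ρ X0) ρ.natDegree natDegree_map_le
    (IsAlgClosed.splits _)
  rw [hd, hm.leadingCoeff, one_pow, one_mul] at h1
  rw [← resultant_map_map]
  refine h1.trans (congrArg Multiset.prod (Multiset.map_congr rfl fun Y0 hY => ?_))
  have hY' : (fibW W X0).IsRoot Y0 := (mem_roots hm.ne_zero).1 hY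
  unfold kapG
  simp only [hr _ X0 Y0 hX hY', hρ, fibW, Polynomial.map_add, Polynomial.map_sub,
    Polynomial.map_mul, Polynomial.map_pow, Polynomial.map_ofNat, eval_add, eval_sub, eval_mul,
    eval_pow, eval_ofNat]

theorem Wei.finite_bad {F : ℤ[X][Y]} (hF : F ≠ 0) {N : ℕ} {W : (PowerSeries ℤ_[p])[X]}
    (hW : Wei p (garr F) N W) : {X0 : ℂ_[p] | ‖X0‖ < 1 ∧ ∃ Y0, (fibW W X0).IsRoot Y0 ∧
      (X0 + Y0 ^ N, Y0) ∉ Bi ℂ_[p]}.Finite := by
  obtain ⟨h1, h2⟩ := finite_axis (p := p) hF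
  refine ((h1.image fun y => -y ^ N).union h2).subset ?_
  rintro X0 ⟨hX, Y0, hY, hB⟩
  have hY1 := hW.small X0 Y0 hX hY
  have hv := (hW.zero X0 Y0 hX hY1).2 hY
  have hx1 := quant_norm_shear hW.pos hX hY1
  by_cases h0 : X0 + Y0 ^ N = 0
  · left
    refine ⟨Y0, ⟨hY1, by rwa [h0] at hv⟩, ?_⟩
    exact (eq_neg_of_add_eq_zero_left h0).symm
  · by_cases hy : Y0 = 0
    · right
      subst hy
      rw [zero_pow hW.pos.ne', add_zero] at hv
      exact ⟨hX, hv⟩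
    · exact absurd ⟨h0, hx1, hy, hY1⟩ hB

/-- The curvature vanishes on no component. -/
theorem Good.not_cov_kap {F : ℤ[X][Y]} (hF : Good F) (hN : ¬ toQ F ∣ toQ (Nq F)) {N : ℕ}
    {W : (PowerSeries ℤ_[p])[X]} (hW : Wei p (garr F) N W) :
    ¬ Cov N W fun P => kapJ F P.1 P.2 = 0 := by
  intro hc
  have hc1 : Cov N W fun P : ℂ_[p] × ℂ_[p] =>
      ev2 (J P.1) (J P.2) F = 0 ∧ kapJ F P.1 P.2 = 0 := by
    refine Set.Finite.subset hc ?_
    rintro X0 ⟨hX, hn⟩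
    refine ⟨hX, ?_⟩
    rintro ⟨Y0, hY, hB, hk⟩
    refine hn ⟨Y0, hY, hB, ?_, hk⟩
    exact ((mem_Crv_iff F hB).2 ((hW.zero X0 Y0 hX (hW.small X0 Y0 hX hY)).2 hY)).2
  have hc2 := Cov.jacobian hW.monic hW.small (hW.finite_bad hF.ne_zero)
    (fun P => ev2 (J P.1) (J P.2) F) (fun P => kapJ F P.1 P.2)
    (fun P => ev2 (J P.1) (J P.2) (dX F) * Jn 1 P.1)
    (fun P => ev2 (J P.1) (J P.2) (derivative F) * Jn 1 P.2)
    (fun P => kapJ1 F P.1 P.2) (fun P => kapJ2 F P.1 P.2)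
    (fun P hP => hasFDerivAt_ev2J F hP) (fun P hP => hasFDerivAt_kapJ F hP) hc1
  have hfin : ∀ Q : ℤ[X][Y], ¬ toQ F ∣ toQ Q →
      {P : ℂ_[p] × ℂ_[p] | ev2 P.1 P.2 F = 0 ∧ ev2 P.1 P.2 Q = 0}.Finite := fun Q hQ =>
    Set.not_infinite.1 fun h => hQ (hF.dvd_of_infinite Q h)
  have hS := ((hfin _ hN).union (hfin _ hF.not_dvd_pA)).union (hfin _ hF.not_dvd_pB)
  have hinj : Set.InjOn (fun P : ℂ_[p] × ℂ_[p] => (J P.1, J P.2)) (Bi ℂ_[p]) := by
    intro P hP P' hP' h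
    have h' := Prod.mk.inj h
    exact Prod.ext (J_inj hP.1 hP.2.1 hP'.1 hP'.2.1 h'.1)
      (J_inj hP.2.2.1 hP.2.2.2 hP'.2.2.1 hP'.2.2.2 h'.2)
  have hT := Set.Finite.of_finite_image (hS.subset (Set.image_inter_preimage _ (Bi ℂ_[p]) _ ▸
    Set.inter_subset_right)) (hinj.mono Set.inter_subset_left)
  refine quant_ball_infinite (p := p) ((Set.Finite.union hc2
    (hT.image fun P => P.1 - P.2 ^ N)).subset ?_)
  intro X0 hX
  by_contra hne
  rw [Set.mem_union, not_or] at hne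
  obtain ⟨hn1, hn2⟩ := hne
  have hex := not_not.1 fun h => hn1 ⟨hX, h⟩
  obtain ⟨Y0, hY, hB, hf, hk, hj⟩ := hex
  refine hn2 ⟨(X0 + Y0 ^ N, Y0), ⟨hB, ?_⟩, by simp⟩
  generalize (X0 + Y0 ^ N, Y0) = P at hB hf hk hj ⊢
  simp only [Set.mem_preimage, Set.mem_union, Set.mem_ofPred_eq]
  by_cases hA : ev2 (J P.1) (J P.2) (pA F) = 0
  · exact Or.inl (Or.inr ⟨hf, hA⟩)
  by_cases hBq : ev2 (J P.1) (J P.2) (pB F) = 0
  · exact Or.inr ⟨hf, hBq⟩
  refine Or.inl (Or.inl ⟨hf, ?_⟩)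
  have hu : ∀ x : ℂ_[p], x ≠ 0 → ‖x‖ < 1 → Jn 1 x ≠ 0 := by
    intro x hx0 hx h
    have := norm_Jn 1 hx0 hx
    rw [h, norm_zero] at this
    exact (inv_pos.2 (norm_pos_iff.2 hx0)).ne this
  have hu1 := hu P.1 hB.1 hB.2.1
  have hu2 := hu P.2 hB.2.2.1 hB.2.2.2
  have hid := jet_identity F (z1 := Jn 3 P.1) (z2 := Jn 3 P.2) hu1 hu2 hA hBq hk (by
    have e1 : ev2 (J P.1) (J P.2) (pB F) = -ev2 (J P.1) (J P.2) (dX F) := by
      rw [pB, map_neg]
    have e2 : ev2 (J P.1) (J P.2) (pA F) = ev2 (J P.1) (J P.2) (derivative F) := rfl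
    rw [e1, e2]
    simp only [kapJ1, kapJ2] at hj
    linear_combination -hj)
  rw [ode_J hB.1 hB.2.1, ode_J hB.2.2.1 hB.2.2.2, mul_zero, mul_zero, sub_zero] at hid
  exact (mul_eq_zero.1 hid).resolve_left (mul_ne_zero (pow_ne_zero _ hu1) (pow_ne_zero _ hu2))

/-- Few separated points have small curvature. -/
theorem Good.q1 {F : ℤ[X][Y]} (hF : Good F) (hN : ¬ toQ F ∣ toQ (Nq F)) (p : ℕ) [Fact p.Prime] :
    ∃ d0 : ℕ, ∀ ρ : ℝ, 0 < ρ → ∃ η : ℝ, 0 < η ∧ ∀ S : Set (ℂ_[p] × ℂ_[p]), S ⊆ Crv ℂ_[p] F →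
      (∀ P ∈ S, ∀ P' ∈ S, P ≠ P' → ρ ≤ ‖P - P'‖) →
      (∀ P ∈ S, ‖kapG (garr F) P.1 P.2‖ < η) → S.encard ≤ d0 := by
  classical
  obtain ⟨N, W, hW⟩ := exists_wei p (garr_ne_zero hF.ne_zero)
  obtain ⟨R, hR⟩ := quant_exists_res hW
  have hR0 : R ≠ 0 := by
    intro h0
    refine hF.not_cov_kap hN hW ((hW.finite_bad hF.ne_zero).subset ?_)
    rintro X0 ⟨hX, hn⟩
    refine ⟨hX, ?_⟩
    have h1 := hR X0 hX
    rw [h0, map_zero] at h1
    obtain ⟨Y0, hY, hk⟩ := Multiset.mem_map.1 (Multiset.prod_eq_zero_iff.1 h1.symm)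
    have hY' : (fibW W X0).IsRoot Y0 := (mem_roots (hW.monic.map _).ne_zero).1 hY
    refine ⟨Y0, hY', fun hB => hn ⟨Y0, hY', hB, ?_⟩⟩
    have hC := (mem_Crv_iff F hB).2 ((hW.zero X0 Y0 hX (hW.small X0 Y0 hX hY')).2 hY')
    have h2 := kapG_garr F hC
    rw [hk] at h2
    exact (mul_eq_zero.1 h2.symm).resolve_left (pow_ne_zero _
      (mul_ne_zero (pow_ne_zero _ hB.1) (pow_ne_zero _ hB.2.2.1)))
  obtain ⟨Z, hZ, hZε⟩ := exists_near_zero hR0
  let T : Finset (ℂ_[p] × ℂ_[p]) :=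
    Z.biUnion fun α => (fibW W α).roots.toFinset.image fun η => (α, η)
  refine ⟨T.card, fun ρ hρ => ?_⟩
  obtain ⟨η, hη, hη'⟩ := hZε (min ρ (ρ ^ W.natDegree)) (lt_min hρ (pow_pos hρ _))
  refine ⟨η, hη, fun S hS hsep hsm => ?_⟩
  have key : ∀ P ∈ S, ∃ t ∈ T, ‖P.1 - P.2 ^ N - t.1‖ < ρ ∧ ‖P.2 - t.2‖ < ρ := by
    intro P hP
    have hC := hS hP
    have hB := hC.1
    have hX := quant_norm_unshear hW.pos hB.2.1 hB.2.2.2
    have hv := (mem_Crv_iff F hB).1 hC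
    have hY : (fibW W (P.1 - P.2 ^ N)).IsRoot P.2 :=
      (hW.zero _ _ hX hB.2.2.2).1 (by rwa [sub_add_cancel])
    have hmem : P.2 ∈ (fibW W (P.1 - P.2 ^ N)).roots :=
      (mem_roots (hW.monic.map _).ne_zero).2 hY
    have hsmall : ‖evI (zp p) (P.1 - P.2 ^ N) R‖ < η := by
      rw [hR _ hX, ← Multiset.cons_erase hmem, Multiset.map_cons, Multiset.prod_cons, norm_mul,
        sub_add_cancel]
      refine lt_of_le_of_lt (mul_le_of_le_one_right (norm_nonneg _) ?_) (hsm P hP)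
      refine quant_norm_prod_le _ _ fun z hz => ?_
      have hz' : (fibW W (P.1 - P.2 ^ N)).IsRoot z :=
        (mem_roots (hW.monic.map _).ne_zero).1 (Multiset.mem_of_mem_erase hz)
      have hz1 := hW.small _ _ hX hz'
      exact quant_norm_kapG_le _ (quant_norm_shear hW.pos hX hz1) hz1
    obtain ⟨α, hα, hαε⟩ := hη' _ hX hsmall
    obtain ⟨e, he, hee⟩ := exists_near_root hW.monic hX (hZ α hα) hB.2.2.2.le hY
    refine ⟨(α, e), ?_, lt_of_lt_of_le hαε (min_le_left _ _), ?_⟩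
    · refine Finset.mem_biUnion.2 ⟨α, hα, Finset.mem_image.2 ⟨e, ?_, rfl⟩⟩
      exact Multiset.mem_toFinset.2 ((mem_roots (hW.monic.map _).ne_zero).2 he)
    · exact lt_of_pow_lt_pow_left₀ W.natDegree hρ.le
        (lt_of_le_of_lt hee (lt_of_lt_of_le hαε (min_le_right _ _)))
  choose! g hg using key
  have hinj : Set.InjOn g S := by
    intro P hP P' hP' h
    by_contra hne
    have h1 := hsep P hP P' hP' hne
    obtain ⟨-, a1, a2⟩ := hg P hP
    obtain ⟨-, b1, b2⟩ := hg P' hP'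
    rw [← h] at b1 b2
    have hy : ‖P.2 - P'.2‖ < ρ := by
      have e : P.2 - P'.2 = (P.2 - (g P).2) + -(P'.2 - (g P).2) := by ring
      rw [e]
      refine lt_of_le_of_lt (IsUltrametricDist.norm_add_le_max _ _) (max_lt a2 ?_)
      rwa [norm_neg]
    have hx : ‖P.1 - P'.1‖ < ρ := by
      have e : P.1 - P'.1 = ((P.1 - P.2 ^ N - (g P).1) + -(P'.1 - P'.2 ^ N - (g P).1))
          + (P.2 ^ N - P'.2 ^ N) := by ring
      rw [e]
      refine lt_of_le_of_lt (IsUltrametricDist.norm_add_le_max _ _) (max_lt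
        (lt_of_le_of_lt (IsUltrametricDist.norm_add_le_max _ _) (max_lt a1 ?_)) ?_)
      · rwa [norm_neg]
      · exact lt_of_le_of_lt
          (quant_norm_pow_sub (hS hP).1.2.2.2.le (hS hP').1.2.2.2.le N) hy
    have : ‖P - P'‖ < ρ := by
      rw [Prod.norm_def]
      exact max_lt hx hy
    exact absurd h1 (not_le.2 this)
  rw [← hinj.encard_image, ← Set.encard_coe_eq_coe_finsetCard]
  refine Set.encard_le_encard ?_
  rintro _ ⟨P, hP, rfl⟩
  exact (hg P hP).1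

end Pool.Agent.UAP
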