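import Pool.Agent.Lib.MP_7e5527_ag.Ser

open Polynomial UpperHalfPlane
open scoped Polynomial.Bivariate

noncomputable section

namespace Pool.Agent.UAP

section Ramanujan

open scoped MatrixGroups ModularForm Manifold Topology

/-- The function `f` is everywhere the sum of the series `s` at `q = exp (2 π i τ)`. -/
private def ramQE (f : ℍ → ℂ) (s : PowerSeries ℂ) : Prop :=
  ∀ τ : ℍ, HasSum (fun m => PowerSeries.coeff m s • Function.Periodic.qParam 1 τ ^ m) (f τ)

private theorem ramQE.add {f g : ℍ → ℂ} {s t : PowerSeries ℂ} (hf : ramQE f s)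
    (hg : ramQE g t) : ramQE (f + g) (s + t) := by
  intro τ
  simpa only [map_add, add_smul, Pi.add_apply] using (hf τ).add (hg τ)

private theorem ramQE.smul {f : ℍ → ℂ} {s : PowerSeries ℂ} (c : ℂ) (hf : ramQE f s) :
    ramQE (c • f) (PowerSeries.C c * s) := by
  intro τ
  simpa only [PowerSeries.coeff_C_mul, smul_eq_mul, Pi.smul_apply, mul_assoc]
    using (hf τ).mul_left c

private theorem ramQE.mul {f g : ℍ → ℂ} {s t : PowerSeries ℂ} (hf : ramQE f s)
    (hg : ramQE g t) : ramQE (f * g) (s * t) := by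
  intro τ
  have h1 := (hf τ).summable.norm
  have h2 := (hg τ).summable.norm
  have h3 := tsum_mul_tsum_eq_tsum_sum_antidiagonal_of_summable_norm h1 h2
  have h4 := (summable_norm_sum_mul_antidiagonal_of_summable_norm h1 h2).of_norm.hasSum
  rw [← h3, (hf τ).tsum_eq, (hg τ).tsum_eq] at h4
  convert! h4 using 2 with m
  rw [PowerSeries.coeff_mul, smul_eq_mul, Finset.sum_mul]
  refine Finset.sum_congr rfl fun kl hkl => ?_
  rw [← Finset.HasAntidiagonal.mem_antidiagonal.mp hkl, pow_add, smul_eq_mul, smul_eq_mul]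
  ring

private theorem ram_hasDerivAt_q (w : ℂ) :
    HasDerivAt (Function.Periodic.qParam 1)
      (Function.Periodic.qParam 1 w * (2 * Real.pi * Complex.I)) w := by
  have h : HasDerivAt (fun z : ℂ => 2 * Real.pi * Complex.I * z / ((1 : ℝ) : ℂ))
      (2 * Real.pi * Complex.I) w := by
    simpa using (hasDerivAt_id w).const_mul (2 * Real.pi * Complex.I : ℂ)
  exact h.cexp

private theorem ramQE.deriv {f : ℍ → ℂ} {s : PowerSeries ℂ} (hf : ramQE f s) :
    ramQE (Derivative.normalizedDerivOfComplex f) (thS s) := by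
  intro τ
  have hτ := τ.im_pos
  let U : Set ℂ := {w | τ.im / 2 < w.im}
  have hUo : IsOpen U := isOpen_lt continuous_const Complex.continuous_im
  have hτU : (τ : ℂ) ∈ U := by
    change τ.im / 2 < τ.im
    linarith
  let τ' : ℍ := ⟨((τ.im / 2 : ℝ) : ℂ) * Complex.I, by simpa using hτ⟩
  have hu := (hf τ').summable.norm
  let F : ℕ → ℂ → ℂ := fun m w => PowerSeries.coeff m s * Function.Periodic.qParam 1 w ^ m
  have hFd : ∀ m w, HasDerivAt (F m) (PowerSeries.coeff m s *
      ((m : ℂ) * Function.Periodic.qParam 1 w ^ (m - 1) *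
        (Function.Periodic.qParam 1 w * (2 * Real.pi * Complex.I)))) w :=
    fun m w => ((ram_hasDerivAt_q w).pow m).const_mul _
  have hle : ∀ m w, w ∈ U →
      ‖F m w‖ ≤ ‖PowerSeries.coeff m s • Function.Periodic.qParam 1 τ' ^ m‖ := by
    intro m w hw
    simp only [F, smul_eq_mul, norm_mul, norm_pow]
    gcongr
    rw [Function.Periodic.norm_qParam, Function.Periodic.norm_qParam]
    apply Real.exp_le_exp.mpr
    have h1 : (τ' : ℂ).im = τ.im / 2 := by simp [τ']
    have h2 : τ.im / 2 < w.im := hw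
    rw [h1]
    have := Real.pi_pos
    simp only [div_one]
    nlinarith
  have key := Complex.hasSum_deriv_of_summable_norm hu
    (fun m w _ => (hFd m w).differentiableAt.differentiableWithinAt) hUo hle hτU
  have heq : (fun w : ℂ => ∑' m, F m w) =ᶠ[𝓝 (τ : ℂ)] f ∘ ofComplex := by
    filter_upwards [isOpen_upperHalfPlaneSet.mem_nhds τ.im_pos] with w hw
    have := (hf ⟨w, hw⟩).tsum_eq
    simp only [smul_eq_mul] at this
    simp only [Function.comp_apply, ofComplex_apply_of_im_pos hw, F]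
    exact this
  rw [heq.deriv_eq] at key
  have key2 := key.mul_left (2 * Real.pi * Complex.I : ℂ)⁻¹
  convert! key2 using 2 with m
  rw [(hFd m τ).deriv]
  have hpi : (2 * Real.pi * Complex.I : ℂ) ≠ 0 := Complex.two_pi_I_ne_zero
  simp only [thS, PowerSeries.coeff_mk, smul_eq_mul]
  rcases m with _ | m
  · simp
  · simp only [Nat.add_sub_cancel, pow_succ]
    field_simp

private theorem ramQE.eq_zero {f : ℍ → ℂ} {s : PowerSeries ℂ} (hf : ramQE f s) {k : ℤ}
    (hk : k < 12) (hd : MDiff f) (hs : ∀ γ : SL(2, ℤ), f ∣[k] γ = f)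
    (h0 : PowerSeries.constantCoeff s = 0) : s = 0 := by
  have hb : IsBoundedAtImInfty f := isBoundedAtImInfty_of_hasSum_qExpansion one_pos hf
  let F : ModularForm 𝒮ℒ k :=
    { toFun := f
      slash_action_eq' := fun _ ⟨γ, hγ⟩ => hγ ▸ hs γ
      holo' := hd
      bdd_at_cusps' := fun {c} hc => by
        rw [OnePoint.isBoundedAt_iff_forall_SL2Z hc]
        intro γ _
        rw [hs γ]
        exact hb }
  have hq : qExpansion 1 F = s := by
    ext m
    exact (ModularFormClass.qExpansion_coeff_unique (f := F) one_pos one_mem_strictPeriods_SL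
      hf m).symm
  have hF : F = 0 := by
    apply ModularForm.sturm_bound_levelOne
    have : k.toNat / 12 = 0 := by omega
    rw [this, hq]
    simpa [PowerSeries.order_ne_zero_iff_constCoeff_eq_zero, pos_iff_ne_zero] using h0
  rw [← hq, hF]
  exact qExpansion_zero 1

private theorem ramQE_E2 : ramQE EisensteinSeries.E2 (toS ℂ E2s) := by
  intro τ
  convert EisensteinSeries.hasSum_qExpansion_E2 (z := τ) using 3 with m
  · simp only [toS, E2s, PowerSeries.coeff_map, PowerSeries.coeff_mk]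
    split_ifs <;> simp
  · simp [Function.Periodic.qParam]

private theorem ramQE_E4 : ramQE ModularForm.E₄ (toS ℂ E4s) := by
  intro τ
  rw [← qExpansion_E4]
  exact ModularForm.hasSum_qExpansion ModularForm.E₄ one_pos one_mem_strictPeriods_SL τ

private theorem ramQE_E6 : ramQE ModularForm.E₆ (toS ℂ E6s) := by
  intro τ
  rw [← qExpansion_E6]
  exact ModularForm.hasSum_qExpansion ModularForm.E₆ one_pos one_mem_strictPeriods_SL τ

private theorem ram_slash_E4 (γ : SL(2, ℤ)) :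
    (ModularForm.E₄ : ℍ → ℂ) ∣[(4 : ℤ)] γ = ModularForm.E₄ :=
  SlashInvariantForm.slash_action_eqn ModularForm.E₄ (γ : GL (Fin 2) ℝ) ⟨γ, rfl⟩

private theorem ram_slash_E6 (γ : SL(2, ℤ)) :
    (ModularForm.E₆ : ℍ → ℂ) ∣[(6 : ℤ)] γ = ModularForm.E₆ :=
  SlashInvariantForm.slash_action_eqn ModularForm.E₆ (γ : GL (Fin 2) ℝ) ⟨γ, rfl⟩

private theorem ram_cc_thS (s : PowerSeries ℂ) : PowerSeries.constantCoeff (thS s) = 0 := by
  rw [← PowerSeries.coeff_zero_eq_constantCoeff_apply, thS, PowerSeries.coeff_mk]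
  simp

private theorem ram_cc_E2 : PowerSeries.constantCoeff (toS ℂ E2s) = 1 := by
  simp [toS, E2s, ← PowerSeries.coeff_zero_eq_constantCoeff_apply]

private theorem ram_cc_E4 : PowerSeries.constantCoeff (toS ℂ E4s) = 1 := by
  simp [toS, E4s, ← PowerSeries.coeff_zero_eq_constantCoeff_apply]

private theorem ram_cc_E6 : PowerSeries.constantCoeff (toS ℂ E6s) = 1 := by
  simp [toS, E6s, ← PowerSeries.coeff_zero_eq_constantCoeff_apply]

private theorem ram_serre_eq (k : ℂ) (F : ℍ → ℂ) :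
    Derivative.serreDerivative k F =
      Derivative.normalizedDerivOfComplex F + (-(k * 12⁻¹)) • (EisensteinSeries.E2 * F) := by
  ext z
  simp only [Derivative.serreDerivative_apply, Pi.add_apply, Pi.smul_apply, Pi.mul_apply,
    smul_eq_mul]
  ring

private theorem ram_E4_C : PowerSeries.C (3 : ℂ) * (thS (toS ℂ E4s) +
    PowerSeries.C (-(((4 : ℤ) : ℂ) * 12⁻¹)) * (toS ℂ E2s * toS ℂ E4s)) + toS ℂ E6s = 0 := by
  have h := ((ramQE_E4.deriv.add ((ramQE_E2.mul ramQE_E4).smul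
    (-(((4 : ℤ) : ℂ) * 12⁻¹)))).smul 3).add ramQE_E6
  rw [← ram_serre_eq] at h
  refine h.eq_zero (k := 6) (by norm_num) ?_ ?_ ?_
  · exact ((Derivative.serreDerivative_mdifferentiable _ ModularForm.E₄.holo').const_smul _).add
      ModularForm.E₆.holo'
  · intro γ
    have h1 := Derivative.serreDerivative_slash_invariant ModularForm.E₄.holo' (ram_slash_E4 γ)
    rw [SlashAction.add_slash, ModularForm.SL_smul_slash, ram_slash_E6]
    exact congrArg (fun t => (3 : ℂ) • t + _) h1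
  · simp [ram_cc_thS, ram_cc_E2, ram_cc_E4, ram_cc_E6]
    norm_num

private theorem ram_E6_C : PowerSeries.C (2 : ℂ) * (thS (toS ℂ E6s) +
    PowerSeries.C (-(((6 : ℤ) : ℂ) * 12⁻¹)) * (toS ℂ E2s * toS ℂ E6s))
      + toS ℂ E4s * toS ℂ E4s = 0 := by
  have h := ((ramQE_E6.deriv.add ((ramQE_E2.mul ramQE_E6).smul
    (-(((6 : ℤ) : ℂ) * 12⁻¹)))).smul 2).add (ramQE_E4.mul ramQE_E4)
  rw [← ram_serre_eq] at h
  refine h.eq_zero (k := 8) (by norm_num) ?_ ?_ ?_
  · exact ((Derivative.serreDerivative_mdifferentiable _ ModularForm.E₆.holo').const_smul _).add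
      (ModularForm.E₄.holo'.mul ModularForm.E₄.holo')
  · intro γ
    have h1 := Derivative.serreDerivative_slash_invariant ModularForm.E₆.holo' (ram_slash_E6 γ)
    have h2 := ModularForm.mul_slash_SL2 4 4 γ ModularForm.E₄ ModularForm.E₄
    rw [ram_slash_E4] at h2
    rw [SlashAction.add_slash, ModularForm.SL_smul_slash]
    exact congrArg₂ (fun t u => (2 : ℂ) • t + u) h1 h2
  · simp [ram_cc_thS, ram_cc_E2, ram_cc_E4, ram_cc_E6]
    norm_num

private theorem ram_D_D2 (γ : SL(2, ℤ)) (z : ℍ) :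
    Derivative.normalizedDerivOfComplex (EisensteinSeries.D2 γ) z =
      -((γ 1 0 : ℂ) / denom γ z) ^ 2 := by
  have h1 := (hasDerivAt_denom_zpow (γ : GL (Fin 2) ℝ) (-1) z).const_mul
    (2 * Real.pi * Complex.I * (γ 1 0 : ℂ))
  have h2 : EisensteinSeries.D2 γ ∘ ofComplex =ᶠ[𝓝 (z : ℂ)]
      fun w => (2 * Real.pi * Complex.I * (γ 1 0 : ℂ)) * denom (γ : GL (Fin 2) ℝ) w ^ (-1 : ℤ) := by
    filter_upwards [isOpen_upperHalfPlaneSet.mem_nhds z.im_pos] with w hw
    simp only [Function.comp_apply, ofComplex_apply_of_im_pos hw, EisensteinSeries.D2, zpow_neg_one,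
      div_eq_mul_inv]
  rw [Derivative.normalizedDerivOfComplex, h2.deriv_eq, h1.deriv]
  have hpi : (2 * Real.pi * Complex.I : ℂ) ≠ 0 := Complex.two_pi_I_ne_zero
  have hd := denom_ne_zero (γ : GL (Fin 2) ℝ) z
  have h3 : (((γ : GL (Fin 2) ℝ) 1 0 : ℝ) : ℂ) = (γ 1 0 : ℂ) := by simp
  rw [h3, show (-1 - 1 : ℤ) = -2 by norm_num, zpow_neg, zpow_ofNat]
  push_cast
  field_simp

private theorem ram_mdiff_D2 (γ : SL(2, ℤ)) : MDiff (EisensteinSeries.D2 γ) := by
  have h : EisensteinSeries.D2 γ = (2 * Real.pi * Complex.I * (γ 1 0 : ℂ)) •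
      fun z : ℍ => denom (γ : GL (Fin 2) ℝ) z ^ (-1 : ℤ) := by
    ext z
    simp only [EisensteinSeries.D2, Pi.smul_apply, smul_eq_mul, zpow_neg_one, div_eq_mul_inv]
  rw [h]
  exact (mdifferentiable_denom_zpow _ _).const_smul _

private theorem ram_slash_serre_E2 (γ : SL(2, ℤ)) :
    Derivative.serreDerivative 1 EisensteinSeries.E2 ∣[(4 : ℤ)] γ =
      Derivative.serreDerivative 1 EisensteinSeries.E2 := by
  have h1 := Derivative.normalizedDerivOfComplex_SL_slash (k := 2) (γ := γ) E2_mdifferentiable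
  have h2 := ModularForm.mul_slash_SL2 2 2 γ EisensteinSeries.E2 EisensteinSeries.E2
  rw [EisensteinSeries.E2_slash_action] at h1 h2
  rw [Derivative.normalizedDerivOfComplex_sub _ _ E2_mdifferentiable
    ((ram_mdiff_D2 γ).const_smul _),
    Derivative.normalizedDerivOfComplex_smul _ _ (ram_mdiff_D2 γ)] at h1
  rw [ram_serre_eq, SlashAction.add_slash, ModularForm.SL_smul_slash]
  ext z
  have h1z := congrFun h1 z
  have h2z := congrFun h2 z
  simp only [Pi.sub_apply, Pi.smul_apply, Pi.mul_apply, smul_eq_mul, ram_D_D2,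
    show (2 + 2 : ℤ) = 4 by norm_num] at h1z h2z
  simp only [Pi.add_apply, Pi.smul_apply, Pi.mul_apply, smul_eq_mul]
  rw [h2z]
  have hD : EisensteinSeries.D2 γ z = 2 * Real.pi * Complex.I * ((γ 1 0 : ℂ) / denom γ z) := by
    simp only [EisensteinSeries.D2, mul_div_assoc]
  rw [hD, riemannZeta_two] at h1z
  rw [hD, riemannZeta_two]
  have hpi : (Real.pi : ℂ) ≠ 0 := by exact_mod_cast Real.pi_ne_zero
  have hI : (2 * Real.pi * Complex.I : ℂ)⁻¹ = -Complex.I / (2 * Real.pi) := by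
    field_simp
    simp
  rw [hI] at h1z
  generalize (γ 1 0 : ℂ) / denom γ z = a at h1z ⊢
  have hk : (1 / (2 * ((Real.pi : ℂ) ^ 2 / 6))) = 3 * (Real.pi : ℂ)⁻¹ ^ 2 := by
    field_simp
    norm_num
  have hk2 : -Complex.I / (2 * Real.pi) = -Complex.I * (Real.pi : ℂ)⁻¹ / 2 := by
    field_simp
  rw [hk] at h1z ⊢
  rw [hk2] at h1z
  have hp : (Real.pi : ℂ) * (Real.pi : ℂ)⁻¹ = 1 := mul_inv_cancel₀ hpi
  have hI2 := Complex.I_mul_I
  generalize (Real.pi : ℂ)⁻¹ = r at h1z hp ⊢
  generalize (Real.pi : ℂ) = P at h1z hp ⊢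
  push_cast at h1z
  grind

private theorem ram_E2_C : PowerSeries.C (12 : ℂ) * (thS (toS ℂ E2s) +
    PowerSeries.C (-((1 : ℂ) * 12⁻¹)) * (toS ℂ E2s * toS ℂ E2s)) + toS ℂ E4s = 0 := by
  have h := ((ramQE_E2.deriv.add ((ramQE_E2.mul ramQE_E2).smul
    (-((1 : ℂ) * 12⁻¹)))).smul 12).add ramQE_E4
  rw [← ram_serre_eq] at h
  refine h.eq_zero (k := 4) (by norm_num) ?_ ?_ ?_
  · exact ((Derivative.serreDerivative_mdifferentiable _ E2_mdifferentiable).const_smul _).add
      ModularForm.E₄.holo'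
  · intro γ
    rw [SlashAction.add_slash, ModularForm.SL_smul_slash, ram_slash_E4, ram_slash_serre_E2]
  · simp [ram_cc_thS, ram_cc_E2, ram_cc_E4]

private theorem ram_toS_inj : Function.Injective (toS ℂ) :=
  PowerSeries.map_injective _ (RingHom.injective_int _)

private theorem ram_toS_thS (f : PowerSeries ℤ) : toS ℂ (thS f) = thS (toS ℂ f) :=
  map_thS _ f

private theorem ram_E4 : 3 * thS E4s = E2s * E4s - E6s := by
  apply ram_toS_inj
  have h := ram_E4_C
  rw [mul_add, ← mul_assoc, ← map_mul,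
    show (3 : ℂ) * -(((4 : ℤ) : ℂ) * 12⁻¹) = -1 by norm_num, map_neg, map_one, map_ofNat] at h
  simp only [map_mul, map_sub, map_ofNat, ram_toS_thS]
  linear_combination h

private theorem ram_E6 : 2 * thS E6s = E2s * E6s - E4s ^ 2 := by
  apply ram_toS_inj
  have h := ram_E6_C
  rw [mul_add, ← mul_assoc, ← map_mul,
    show (2 : ℂ) * -(((6 : ℤ) : ℂ) * 12⁻¹) = -1 by norm_num, map_neg, map_one, map_ofNat] at h
  simp only [map_mul, map_sub, map_pow, map_ofNat, ram_toS_thS]
  linear_combination h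

private theorem ram_E2 : 12 * thS E2s = E2s ^ 2 - E4s := by
  apply ram_toS_inj
  have h := ram_E2_C
  rw [mul_add, ← mul_assoc, ← map_mul,
    show (12 : ℂ) * -((1 : ℂ) * 12⁻¹) = -1 by norm_num, map_neg, map_one, map_ofNat] at h
  simp only [map_mul, map_sub, map_pow, map_ofNat, ram_toS_thS]
  linear_combination h

end Ramanujan

private theorem ram_ofNat_ne (n : ℕ) [n.AtLeastTwo] :
    (OfNat.ofNat n : PowerSeries ℤ) ≠ 0 := fun h => by
  have := congrArg PowerSeries.constantCoeff h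
  rw [map_ofNat, map_zero] at this
  exact OfNat.ofNat_ne_zero n this

private theorem ram_thS_int (n : ℤ) (f : PowerSeries ℤ) :
    thS ((n : PowerSeries ℤ) * f) = (n : PowerSeries ℤ) * thS f := by
  ext m
  rw [← zsmul_eq_mul, ← zsmul_eq_mul]
  simp only [thS, PowerSeries.coeff_mk, map_zsmul, smul_eq_mul]
  ring

private theorem ram_thS_X : thS (PowerSeries.X : PowerSeries ℤ) = PowerSeries.X := by
  rw [thS_eq, PowerSeries.derivative_X, mul_one]

private theorem ram_thS_comb (a b c : ℤ) (f g h : PowerSeries ℤ) :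
    thS ((a : PowerSeries ℤ) * f + (b : PowerSeries ℤ) * g + (c : PowerSeries ℤ) * h) =
      a * thS f + b * thS g + c * thS h := by
  rw [thS_add, thS_add, ram_thS_int, ram_thS_int, ram_thS_int]

private theorem ram_Ds : thS Ds = E2s * Ds := by
  have h : ((1728 : ℤ) : PowerSeries ℤ) * Ds = ((1 : ℤ) : PowerSeries ℤ) * (E4s * (E4s * E4s)) +
      ((-1 : ℤ) : PowerSeries ℤ) * (E6s * E6s) + ((0 : ℤ) : PowerSeries ℤ) * 0 := by
    push_cast
    linear_combination Ds_eq
  have h2 := congrArg thS h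
  rw [ram_thS_comb, ram_thS_int] at h2
  simp only [thS_mul] at h2
  push_cast at h2
  apply mul_left_cancel₀ (ram_ofNat_ne 1728)
  linear_combination h2 + E4s ^ 2 * ram_E4 - E6s * ram_E6 - E2s * Ds_eq

private theorem ram_D0s : thS D0s = (E2s - 1) * D0s := by
  have h := ram_Ds
  rw [Ds_eq_X_mul, thS_mul, ram_thS_X] at h
  apply mul_left_cancel₀ (PowerSeries.X_ne_zero (R := ℤ))
  linear_combination h

private theorem ram_step (c : ℤ) (k : ℕ) (P : PowerSeries ℤ)
    (h : (c : PowerSeries ℤ) * (jn k * D0s) = P) :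
    (c : PowerSeries ℤ) * (jn (k + 1) * D0s) = thS P - E2s * P := by
  have h2 := congrArg thS h
  rw [ram_thS_int, thS_mul, ram_D0s] at h2
  rw [jn_succ]
  linear_combination h2 - E2s * h

private theorem ram_jn1 : jn 1 * D0s = -(E4s ^ 2 * E6s) := by
  have h := ram_step 1 0 (E4s * (E4s * E4s)) (by
    rw [jn_zero]
    push_cast
    linear_combination j0s_mul_D0s)
  simp only [thS_mul] at h
  push_cast at h
  linear_combination h + E4s ^ 2 * ram_E4

private theorem ram_jn2 :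
    6 * (jn 2 * D0s) = -(E2s * E4s ^ 2 * E6s) + 4 * (E4s * E6s ^ 2) + 3 * E4s ^ 4 := by
  have h := ram_step (-1) 1 (E4s * (E4s * E6s)) (by
    push_cast
    linear_combination -ram_jn1)
  simp only [thS_mul] at h
  push_cast at h
  linear_combination -6 * h - 4 * E4s * E6s * ram_E4 - 3 * E4s ^ 2 * ram_E6

private theorem ram_jn3 :
    72 * (jn 3 * D0s) = -(3 * E2s ^ 2 * E4s ^ 2 * E6s) + 24 * E2s * E4s * E6s ^ 2
      + 18 * E2s * E4s ^ 4 - 95 * E4s ^ 3 * E6s - 16 * E6s ^ 3 := by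
  have h := ram_step 6 2 (((-1 : ℤ) : PowerSeries ℤ) * (E2s * (E4s * (E4s * E6s))) +
      ((4 : ℤ) : PowerSeries ℤ) * (E4s * (E6s * E6s)) +
      ((3 : ℤ) : PowerSeries ℤ) * (E4s * (E4s * (E4s * E4s)))) (by
    push_cast
    linear_combination ram_jn2)
  rw [ram_thS_comb] at h
  simp only [thS_mul] at h
  push_cast at h
  linear_combination 12 * h - E4s ^ 2 * E6s * ram_E2
    + (-8 * E2s * E4s * E6s + 16 * E6s ^ 2 + 48 * E4s ^ 3) * ram_E4
    + (-6 * E2s * E4s ^ 2 + 48 * E4s * E6s) * ram_E6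

/-- The Schwarzian differential equation of `j`, as an identity of integer power series. -/
theorem ode_formal :
    j0s ^ 2 * (j0s - 1728 * PowerSeries.X) ^ 2 * (2 * jn 3 * jn 1 - 3 * jn 2 ^ 2)
      + (j0s ^ 2 - 1968 * PowerSeries.X * j0s + 2654208 * PowerSeries.X ^ 2) * jn 1 ^ 4 = 0 := by
  have hD : D0s ≠ 0 := fun h => by simpa [h] using constantCoeff_D0s
  have h36 : (36 : PowerSeries ℤ) ≠ 0 := ram_ofNat_ne 36
  have h0 := j0s_mul_D0s
  have hX : 1728 * (PowerSeries.X * D0s) = E4s ^ 3 - E6s ^ 2 := by rw [← Ds_eq_X_mul, Ds_eq]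
  have hA : (j0s - 1728 * PowerSeries.X) * D0s = E6s ^ 2 := by linear_combination h0 - hX
  have hB : 36 * ((j0s ^ 2 - 1968 * PowerSeries.X * j0s + 2654208 * PowerSeries.X ^ 2) * D0s ^ 2)
      = 36 * E4s ^ 6 - 41 * E4s ^ 3 * (E4s ^ 3 - E6s ^ 2) + 32 * (E4s ^ 3 - E6s ^ 2) ^ 2 := by
    rw [← hX, show E4s ^ 6 = (E4s ^ 3) ^ 2 by ring, ← h0]
    ring
  have hC : 36 * ((2 * jn 3 * jn 1 - 3 * jn 2 ^ 2) * D0s ^ 2) =
      (72 * (jn 3 * D0s)) * (jn 1 * D0s) - 3 * (6 * (jn 2 * D0s)) ^ 2 := by ring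
  rw [ram_jn3, ram_jn2, ram_jn1] at hC
  apply mul_left_cancel₀ (mul_ne_zero h36 (pow_ne_zero 6 hD))
  calc _ = (j0s * D0s) ^ 2 * ((j0s - 1728 * PowerSeries.X) * D0s) ^ 2 *
        (36 * ((2 * jn 3 * jn 1 - 3 * jn 2 ^ 2) * D0s ^ 2)) +
        36 * ((j0s ^ 2 - 1968 * PowerSeries.X * j0s + 2654208 * PowerSeries.X ^ 2) * D0s ^ 2) *
          (jn 1 * D0s) ^ 4 := by ring
    _ = _ := by
      rw [hC, hB, hA, h0, ram_jn1]
      ring

end Pool.Agent.UAP
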