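import Pool.Agent.Lib.MP_7e5527_ag.Base

open Polynomial UpperHalfPlane
open scoped Polynomial.Bivariate

noncomputable section

namespace Pool.Agent.UAP

theorem thS_eq {R : Type*} [CommRing R] (f : PowerSeries R) :
    thS f = PowerSeries.X * PowerSeries.derivative R f := by
  ext n
  cases n with
  | zero => simp [thS]
  | succ n => simp [thS, PowerSeries.coeff_succ_X_mul, PowerSeries.coeff_derivative, mul_comm]

theorem thS_add {R : Type*} [CommRing R] (f g : PowerSeries R) : thS (f + g) = thS f + thS g := by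
  ext n
  simp [thS, mul_add]

theorem thS_mul {R : Type*} [CommRing R] (f g : PowerSeries R) :
    thS (f * g) = f * thS g + g * thS f := by
  rw [thS_eq, thS_eq, thS_eq, Derivation.leibniz, smul_eq_mul, smul_eq_mul]
  ring

theorem map_thS {R S : Type*} [CommRing R] [CommRing S] (φ : R →+* S) (f : PowerSeries R) :
    PowerSeries.map φ (thS f) = thS (PowerSeries.map φ f) := by
  ext n
  simp [thS]

theorem coeff_subM {R : Type*} [CommRing R] (c : R) (k : ℕ) (hk : k ≠ 0) (f : PowerSeries R)
    (n : ℕ) : PowerSeries.coeff n (subM c k hk f) =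
      if k ∣ n then c ^ (n / k) * PowerSeries.coeff (n / k) f else 0 := by
  change PowerSeries.coeff n (PowerSeries.expand k hk (PowerSeries.rescale c f)) = _
  rw [PowerSeries.coeff_expand, PowerSeries.coeff_rescale]

theorem subM_X {R : Type*} [CommRing R] (c : R) (k : ℕ) (hk : k ≠ 0) :
    subM c k hk PowerSeries.X = PowerSeries.C c * PowerSeries.X ^ k := by
  change PowerSeries.expand k hk (PowerSeries.rescale c PowerSeries.X) = _
  rw [PowerSeries.rescale_X, map_mul, PowerSeries.expand_C, PowerSeries.expand_X]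

theorem thS_subM {R : Type*} [CommRing R] (c : R) (k : ℕ) (hk : k ≠ 0) (f : PowerSeries R) :
    thS (subM c k hk f) = (k : PowerSeries R) * subM c k hk (thS f) := by
  ext n
  rw [← map_natCast (PowerSeries.C (R := R)), PowerSeries.coeff_C_mul, thS, PowerSeries.coeff_mk,
    coeff_subM, coeff_subM]
  split_ifs with h
  · obtain ⟨q, rfl⟩ := h
    rw [Nat.mul_div_cancel_left _ (Nat.pos_of_ne_zero hk), thS, PowerSeries.coeff_mk]
    push_cast
    ring
  · simp

theorem map_subM {R S : Type*} [CommRing R] [CommRing S] (φ : R →+* S) (c : R) (k : ℕ)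
    (hk : k ≠ 0) (f : PowerSeries R) :
    PowerSeries.map φ (subM c k hk f) = subM (φ c) k hk (PowerSeries.map φ f) := by
  ext n
  rw [PowerSeries.coeff_map, coeff_subM, coeff_subM]
  split_ifs <;> simp

theorem map_toS {R S : Type*} [CommRing R] [CommRing S] (φ : R →+* S) (f : PowerSeries ℤ) :
    PowerSeries.map φ (toS R f) = toS S f := by
  ext n
  simp [toS]

theorem Ds_eq : (1728 : PowerSeries ℤ) * Ds = E4s ^ 3 - E6s ^ 2 := by
  let A : PowerSeries ℤ := PowerSeries.mk fun n => (ArithmeticFunction.sigma 3 n : ℤ)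
  let B : PowerSeries ℤ := PowerSeries.mk fun n => (ArithmeticFunction.sigma 5 n : ℤ)
  have hA : E4s = 1 + PowerSeries.C 240 * A := by
    ext n
    rw [map_add, PowerSeries.coeff_C_mul]
    rcases eq_or_ne n 0 with rfl | h
    · simp [E4s, A]
    · simp [E4s, A, h, PowerSeries.coeff_one]
  have hB : E6s = 1 - PowerSeries.C 504 * B := by
    ext n
    rw [map_sub, PowerSeries.coeff_C_mul]
    rcases eq_or_ne n 0 with rfl | h
    · simp [E6s, B]
    · simp [E6s, B, h, PowerSeries.coeff_one]
  have h1 : ∀ n, ∃ c : ℤ, 5 * (ArithmeticFunction.sigma 3 n : ℤ) +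
      7 * (ArithmeticFunction.sigma 5 n : ℤ) = 12 * c := by
    intro n
    change (12 : ℤ) ∣ _
    simp only [ArithmeticFunction.sigma_apply, Nat.cast_sum, Nat.cast_pow, Finset.mul_sum,
      ← Finset.sum_add_distrib]
    refine Finset.dvd_sum fun d _ => (ZMod.intCast_zmod_eq_zero_iff_dvd _ 12).1 ?_
    have : ∀ x : ZMod 12, 5 * x ^ 3 + 7 * x ^ 5 = 0 := by decide
    push_cast
    exact this _
  choose c hc using h1
  have h2 : PowerSeries.C 5 * A + PowerSeries.C 7 * B = PowerSeries.C 12 * PowerSeries.mk c := by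
    ext n
    simpa only [A, B, map_add, PowerSeries.coeff_C_mul, PowerSeries.coeff_mk] using hc n
  have h3 : E4s ^ 3 - E6s ^ 2 =
      PowerSeries.C 1728 * (PowerSeries.mk c + 100 * A ^ 2 - 147 * B ^ 2 + 8000 * A ^ 3) := by
    rw [hA, hB]
    simp only [map_ofNat] at h2 ⊢
    linear_combination 144 * h2
  ext n
  rw [← map_ofNat (PowerSeries.C (R := ℤ)) 1728, PowerSeries.coeff_C_mul, Ds, PowerSeries.coeff_mk,
    h3, PowerSeries.coeff_C_mul, Int.mul_ediv_cancel_left _ (by norm_num)]

theorem constantCoeff_E4s : PowerSeries.constantCoeff E4s = 1 := by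
  simp [E4s]

theorem Ds_eq_X_mul : Ds = PowerSeries.X * D0s := by
  ext n
  cases n with
  | zero => simp [Ds, E4s, E6s]
  | succ n => simp [D0s, PowerSeries.coeff_succ_X_mul]

theorem constantCoeff_D0s : PowerSeries.constantCoeff D0s = 1 := by
  simp [D0s, Ds, PowerSeries.coeff_one_pow, E4s, E6s]

theorem j0s_mul_D0s : j0s * D0s = E4s ^ 3 := by
  rw [j0s, mul_assoc, PowerSeries.invOfUnit_mul _ _ (by simpa using constantCoeff_D0s), mul_one]

theorem constantCoeff_j0s : PowerSeries.constantCoeff j0s = 1 := by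
  simpa [constantCoeff_D0s, constantCoeff_E4s] using
    congrArg PowerSeries.constantCoeff j0s_mul_D0s

theorem jn_zero : jn 0 = j0s := by
  ext n
  simp [jn]

theorem jn_succ (k : ℕ) : jn (k + 1) = thS (jn k) - jn k := by
  ext n
  simp only [jn, thS, PowerSeries.coeff_mk, map_sub]
  ring

theorem constantCoeff_jn (k : ℕ) : PowerSeries.constantCoeff (jn k) = (-1) ^ k := by
  simp [jn, constantCoeff_j0s]

theorem qExpansion_E4 : qExpansion 1 ModularForm.E₄ = toS ℂ E4s := by
  ext n
  rw [EisensteinSeries.E_qExpansion_coeff _ ⟨2, rfl⟩,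
    show _root_.bernoulli (2 + 2) = -1 / 30 by decide +kernel]
  by_cases h : n = 0 <;> simp [toS, E4s, h]
  norm_num

theorem qExpansion_E6 : qExpansion 1 ModularForm.E₆ = toS ℂ E6s := by
  ext n
  rw [EisensteinSeries.E_qExpansion_coeff _ ⟨3, rfl⟩,
    show _root_.bernoulli (3 + 3) = 1 / 42 by decide +kernel]
  by_cases h : n = 0 <;> simp [toS, E6s, h]
  norm_num

theorem qExpansion_Delta : qExpansion 1 ModularForm.discriminant = toS ℂ Ds := by
  have h1 : (1728 : ℂ) • (CuspForm.discriminant : ℍ → ℂ) =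
      ModularForm.E₄.pow 3 - ModularForm.E₆.pow 2 := by
    funext z
    simp only [Pi.smul_apply, CuspForm.coe_discriminant, ModularForm.coe_pow, Pi.sub_apply,
      Pi.pow_apply, ModularForm.discriminant_eq_E₄_cube_sub_E₆_sq, smul_eq_mul]
    ring
  have h2 := congrArg (qExpansion 1) h1
  rw [ModularForm.qExpansion_smul one_pos one_mem_strictPeriods_SL,
    ModularForm.qExpansion_sub one_pos one_mem_strictPeriods_SL,
    ModularForm.qExpansion_pow one_pos one_mem_strictPeriods_SL,
    ModularForm.qExpansion_pow one_pos one_mem_strictPeriods_SL, qExpansion_E4, qExpansion_E6,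
    ← map_pow, ← map_pow, ← map_sub, ← Ds_eq, map_mul, map_ofNat, CuspForm.coe_discriminant,
    PowerSeries.smul_eq_C_mul, ← map_ofNat (PowerSeries.C (R := ℂ)) 1728] at h2
  exact mul_left_cancel₀ (by simp) h2

theorem hasEv_E4 (τ : ℍ) :
    HasEv (toS ℂ E4s) (Function.Periodic.qParam 1 τ) (ModularForm.E₄ τ) := by
  have : Fact (IsCusp OnePoint.infty _) :=
    ⟨Subgroup.isCusp_of_mem_strictPeriods one_pos one_mem_strictPeriods_SL⟩
  rw [← qExpansion_E4]
  exact ModularForm.hasSum_qExpansion ModularForm.E₄ one_pos one_mem_strictPeriods_SL τ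

theorem hasEv_Delta (τ : ℍ) :
    HasEv (toS ℂ Ds) (Function.Periodic.qParam 1 τ) (ModularForm.discriminant τ) := by
  have : Fact (IsCusp OnePoint.infty _) :=
    ⟨Subgroup.isCusp_of_mem_strictPeriods one_pos one_mem_strictPeriods_SL⟩
  rw [← qExpansion_Delta]
  exact ModularForm.hasSum_qExpansion CuspForm.discriminant one_pos one_mem_strictPeriods_SL τ

end Pool.Agent.UAP
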