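import Pool.Agent.Lib.MP_7e5527_ag.Loc
import Pool.Agent.Lib.MP_7e5527_ag.As2

open Polynomial UpperHalfPlane
open scoped Polynomial.Bivariate MatrixGroups IntermediateField

noncomputable section

namespace Pool.Agent.UAP

private theorem unif_map_fib {A B : Type*} [CommRing A] [CommRing B] (φ : A →+* B)
    (F : ℤ[X][Y]) (x : A) : (fib F x).map φ = fib F (φ x) := by
  unfold fib
  rw [Polynomial.map_map]
  congr 1
  exact RingHom.ext fun P => map_ev1 φ x P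

/-- Transport of a Hecke orbit to the Tate parameters. -/
theorem transport {p : ℕ} [Fact p.Prime] (ι : PadicAlgCl p →+* ℂ) {a : PadicAlgCl p} {x0 : ℂ_[p]}
    (hx0 : x0 ≠ 0) (hx : ‖x0‖ < 1) (ha : J x0 = ap p a) {b : ℂ} (hb : b ∈ heckeOrbit (ι a)) :
    ∃ (b' : PadicAlgCl p) (x : ℂ_[p]), ι b' = b ∧ x ≠ 0 ∧ ‖x‖ < 1 ∧ InG x0 x ∧ J x = ap p b' := by
  obtain ⟨τ, g, hg, hτ, hgb⟩ := hb
  obtain ⟨N, hN, h, hh, hact⟩ := exists_prim_of_act g hg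
  obtain ⟨Φ, hΦ⟩ := exists_modP p hN
  have h1 : ev2 (ι a) b Φ = 0 := by
    rw [← hτ]
    exact (hΦ.root_cx hN τ b).2 ⟨h, hh, by rw [← hgb, hact]⟩
  have hne : fib Φ a ≠ 0 := hΦ.fib_ne_zero hN a
  have hroot : ((fib Φ a).map ι).IsRoot b := by
    rw [unif_map_fib, IsRoot.def, eval_fib]
    exact h1
  obtain ⟨b', hb'⟩ := (IsAlgClosed.splits (fib Φ a)).mem_range_of_isRoot hne hroot
  have h2 : ev2 a b' Φ = 0 := by
    apply ι.injective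
    rw [map_ev2, hb', h1, map_zero]
  have h3 : ev2 (J x0) (ap p b') Φ = 0 := by
    rw [ha, ← map_ev2, h2, map_zero]
  obtain ⟨x', hx'0, hx', hJ, a', d, -, hd, -, hpow⟩ := hΦ.exists_param hN hx0 hx h3
  exact ⟨b', x', hb', hx'0, hx', ⟨d, hd, (a' : ℤ), by rw [hpow, zpow_natCast]⟩, hJ⟩

/-- A good curve that contains a modular curve is equal to it. -/
theorem Good.eq_modular {F : ℤ[X][Y]} (hF : Good F) {g : GL (Fin 2) ℚ}
    (hg : 0 < (g : Matrix (Fin 2) (Fin 2) ℚ).det) (h : ∀ τ : ℍ, ev2 (jf τ) (jf (act g τ)) F = 0)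
    {b1 b2 : ℂ} (hb : ev2 b1 b2 F = 0) : ∃ τ : ℍ, jf τ = b1 ∧ jf (act g τ) = b2 := by
  obtain ⟨N, hN, k, hk, hact⟩ := exists_prim_of_act g hg
  obtain ⟨Φ, hΦ⟩ := exists_modP 2 hN
  have hinf : {P : ℂ × ℂ | ev2 P.1 P.2 F = 0 ∧ ev2 P.1 P.2 Φ = 0}.Infinite := by
    refine Set.Infinite.of_image Prod.fst ?_
    refine Set.infinite_univ.mono fun c _ => ?_
    obtain ⟨τ, rfl⟩ := jf_surjective c
    exact ⟨(jf τ, jf (act g τ)), ⟨h τ, (hΦ.root_cx hN τ _).2 ⟨k, hk, hact τ⟩⟩, rfl⟩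
  have h1 : ev2 b1 b2 Φ = 0 := ev2_eq_zero_of_dvd (hF.dvd_of_infinite Φ hinf) hb
  obtain ⟨τ, rfl⟩ := jf_surjective b1
  obtain ⟨k', hk', rfl⟩ := (hΦ.root_cx hN τ b2).1 h1
  obtain ⟨γ, hγ⟩ := prim_trans hN hk hk'
  exact ⟨γ • τ, jf_smul γ τ, by rw [hact, hγ]⟩

private theorem unif_adjoin {p : ℕ} [Fact p.Prime] (a : PadicAlgCl p) :
    FiniteDimensional ℚ_[p] ℚ_[p]⟮ap p a⟯ ∧
      Module.finrank ℚ_[p] ℚ_[p]⟮ap p a⟯ = (minpoly ℚ_[p] a).natDegree := by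
  have hi : IsIntegral ℚ_[p] a := Algebra.IsIntegral.isIntegral a
  have hi' : IsIntegral ℚ_[p] (ap p a) := hi.algebraMap
  refine ⟨IntermediateField.adjoin.finiteDimensional hi', ?_⟩
  rw [IntermediateField.adjoin.finrank hi']
  have : minpoly ℚ_[p] (ap p a) = minpoly ℚ_[p] a :=
    minpoly.algebraMap_eq (algebraMap (PadicAlgCl p) ℂ_[p]).injective a
  rw [this]

theorem Good.uniform {F : ℤ[X][Y]} (hF : Good F)
    (hns : ¬ ∃ g : GL (Fin 2) ℚ, 0 < (g : Matrix (Fin 2) (Fin 2) ℚ).det ∧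
      ∀ τ : ℍ, ev2 (jf τ) (jf (act g τ)) F = 0) (p : ℕ) [Fact p.Prime] (D : ℕ) :
    ∃ B : ℕ, ∀ (ι : PadicAlgCl p →+* ℂ) (a₁ a₂ : PadicAlgCl p), 1 < ‖a₁‖ → 1 < ‖a₂‖ →
      (minpoly ℚ_[p] a₁).natDegree ≤ D → (minpoly ℚ_[p] a₂).natDegree ≤ D →
      {P : ℂ × ℂ | ev2 P.1 P.2 F = 0 ∧ P.1 ∈ heckeOrbit (ι a₁) ∧
        P.2 ∈ heckeOrbit (ι a₂)}.encard ≤ B := by
  by_cases hι : Nonempty (PadicAlgCl p →+* ℂ)
  swap
  · exact ⟨0, fun ι => absurd ⟨ι⟩ hι⟩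
  obtain ⟨ι0⟩ := hι
  have hS : ¬ Sp (PadicAlgCl p) F := fun h => hns (hF.special_of_sp ι0 h)
  obtain ⟨B, hB⟩ := hF.local_bound p hS (D * D)
  refine ⟨B, fun ι a₁ a₂ h1 h2 hd1 hd2 => ?_⟩
  obtain ⟨hf1, hr1⟩ := unif_adjoin a₁
  obtain ⟨hf2, hr2⟩ := unif_adjoin a₂
  set K : IntermediateField ℚ_[p] ℂ_[p] := ℚ_[p]⟮ap p a₁⟯ ⊔ ℚ_[p]⟮ap p a₂⟯ with hK
  have : FiniteDimensional ℚ_[p] K := IntermediateField.finiteDimensional_sup _ _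
  have hrk : Module.finrank ℚ_[p] K ≤ D * D := by
    refine (IntermediateField.finrank_sup_le _ _).trans ?_
    rw [hr1, hr2]
    exact Nat.mul_le_mul hd1 hd2
  have hm1 : ap p a₁ ∈ K :=
    (le_sup_left : ℚ_[p]⟮ap p a₁⟯ ≤ K) (IntermediateField.mem_adjoin_simple_self _ _)
  have hm2 : ap p a₂ ∈ K :=
    (le_sup_right : ℚ_[p]⟮ap p a₂⟯ ≤ K) (IntermediateField.mem_adjoin_simple_self _ _)
  have hn : ∀ a : PadicAlgCl p, ‖ap p a‖ = ‖a‖ := fun a => PadicComplex.norm_extends p a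
  obtain ⟨x0, hx0K, hx0, hx1, hJx⟩ :=
    exists_J_mem K.toSubfield (isClosed_field K) hm1 (by rw [hn]; exact h1)
  obtain ⟨y0, hy0K, hy0, hy1, hJy⟩ :=
    exists_J_mem K.toSubfield (isClosed_field K) hm2 (by rw [hn]; exact h2)
  refine le_trans ?_ (hB K hrk x0 hx0K y0 hy0K hx0 hx1)
  have hinv : ∀ b, Function.invFun (ap p) (ap p b) = b :=
    Function.leftInverse_invFun (ap p).injective
  refine le_trans (Set.encard_le_encard ?_) (Set.encard_image_le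
    (fun T : ℂ_[p] × ℂ_[p] =>
      (ι (Function.invFun (ap p) (J T.1)), ι (Function.invFun (ap p) (J T.2)))) _)
  rintro ⟨b1, b2⟩ ⟨hb, hb1, hb2⟩
  obtain ⟨c1, x, hc1, hxa, hxb, hxc, hxd⟩ := transport ι hx0 hx1 hJx hb1
  obtain ⟨c2, y, hc2, hya, hyb, hyc, hyd⟩ := transport ι hy0 hy1 hJy hb2
  have h0 : ev2 c1 c2 F = 0 := by
    apply ι.injective
    rw [map_ev2, hc1, hc2, map_zero]
    exact hb
  refine ⟨(x, y), ⟨⟨⟨hxa, hxb, hya, hyb⟩, ?_⟩, hxc, hyc⟩, ?_⟩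
  · show ev2 (J x) (J y) F = 0
    rw [hxd, hyd, ← map_ev2, h0, map_zero]
  · show (ι (Function.invFun (ap p) (J x)), ι (Function.invFun (ap p) (J y))) = (b1, b2)
    rw [hxd, hyd, hinv, hinv, hc1, hc2]

end Pool.Agent.UAP
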