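import Pool.Agent.Lib.MP_7e5527_ag.Main

open Pool.Agent.UAP

/-- Uniform André-Pink theorem in `Y(1)²` for isogeny classes of Tate curves. -/
theorem Pool.Agent.UAP.uniformTate (p : ℕ) [Fact p.Prime] (D m : ℕ)
    (F : MvPolynomial (Fin 2) ℚ) (hF : F ≠ 0) :
    ∃ B : ℕ, ∀ (ι : PadicAlgCl p →+* ℂ) (a : Fin m → PadicAlgCl p),
      (∀ i, 1 < ‖a i‖ ∧ (minpoly ℚ_[p] (a i)).natDegree ≤ D) →
      {P ∈ zeroSet F | (∃ i, P.1 ∈ heckeOrbit (ι (a i))) ∧ (∃ i, P.2 ∈ heckeOrbit (ι (a i))) ∧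
        ¬ ∃ W, IsWeaklySpecialCurve W ∧ W ⊆ zeroSet F ∧ P ∈ W}.encard ≤ B := by
  obtain ⟨B, hB⟩ := main p D F hF
  refine ⟨m * m * B, fun ι a ha => ?_⟩
  let S : Fin m × Fin m → Set (ℂ × ℂ) := fun ik =>
    {P ∈ zeroSet F | P.1 ∈ heckeOrbit (ι (a ik.1)) ∧ P.2 ∈ heckeOrbit (ι (a ik.2)) ∧
      ¬ ∃ W, IsWeaklySpecialCurve W ∧ W ⊆ zeroSet F ∧ P ∈ W}
  have hS : ∀ ik, (S ik).encard ≤ B := fun ik =>
    hB ι (a ik.1) (a ik.2) (ha _).1 (ha _).1 (ha _).2 (ha _).2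
  have key : ∀ s : Finset (Fin m × Fin m), (⋃ ik ∈ s, S ik).encard ≤ (s.card * B : ℕ) := by
    intro s
    induction s using Finset.induction_on with
    | empty => simp
    | insert x s hx ih =>
      rw [Finset.set_biUnion_insert, Finset.card_insert_of_notMem hx]
      refine le_trans (Set.encard_union_le _ _) ?_
      have : (((s.card + 1) * B : ℕ) : ℕ∞) = B + (s.card * B : ℕ) := by
        push_cast
        ring
      rw [this]
      exact add_le_add (hS x) ih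
  have h := key Finset.univ
  simp only [Finset.card_univ, Fintype.card_prod, Fintype.card_fin] at h
  refine le_trans (Set.encard_le_encard ?_) h
  rintro P ⟨h0, ⟨i, hi⟩, ⟨k, hk⟩, hW⟩
  simp only [Set.mem_iUnion]
  exact ⟨(i, k), Finset.mem_univ _, h0, hi, hk, hW⟩
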