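import Pool.Agent.Lib.MP_7e5527_ag.Arr

open Polynomial UpperHalfPlane
open scoped Polynomial.Bivariate MatrixGroups IntermediateField

noncomputable section

namespace Pool.Agent.UAP

section adic

open IsLocalRing

variable {R : Type*} [CommRing R] [IsLocalRing R]

private theorem weier_mem_max (f : PowerSeries R) :
    f ∈ maximalIdeal (PowerSeries R) ↔ PowerSeries.constantCoeff f ∈ maximalIdeal R := by
  rw [mem_maximalIdeal, mem_maximalIdeal, mem_nonunits_iff, mem_nonunits_iff,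
    PowerSeries.isUnit_iff_constantCoeff]

private theorem weier_coeff_mem (n : ℕ) : ∀ f ∈ maximalIdeal (PowerSeries R) ^ n,
    ∀ i, PowerSeries.coeff i f ∈ maximalIdeal R ^ (n - i) := by
  induction n with
  | zero => intro f _ i; simp
  | succ n ih =>
    intro f hf
    rw [pow_succ] at hf
    refine Submodule.mul_induction_on hf ?_ ?_
    · intro a ha b hb i
      rw [PowerSeries.coeff_mul]
      refine Ideal.sum_mem _ fun jk hjk => ?_
      have hs := Finset.HasAntidiagonal.mem_antidiagonal.1 hjk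
      by_cases hk : jk.2 = 0
      · have h1 : PowerSeries.coeff jk.2 b ∈ maximalIdeal R := by
          rw [hk, PowerSeries.coeff_zero_eq_constantCoeff_apply]
          exact (weier_mem_max b).1 hb
        have h2 := Ideal.mul_mem_mul (ih a ha jk.1) h1
        rw [← pow_succ] at h2
        exact Ideal.pow_le_pow_right (by omega) h2
      · exact Ideal.mul_mem_right _ _ (Ideal.pow_le_pow_right (by omega) (ih a ha jk.1))
    · intro a b ha hb i
      rw [map_add]
      exact Ideal.add_mem _ (ha i) (hb i)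

private theorem weier_mem_pow (n : ℕ) : ∀ f : PowerSeries R,
    (∀ i, PowerSeries.coeff i f ∈ maximalIdeal R ^ (n - i)) →
      f ∈ maximalIdeal (PowerSeries R) ^ n := by
  induction n with
  | zero => intro f _; simp
  | succ n ih =>
    intro f hf
    rw [f.eq_X_mul_shift_add_const]
    refine Ideal.add_mem _ ?_ ?_
    · rw [pow_succ']
      refine Ideal.mul_mem_mul ((weier_mem_max _).2 (by simp)) (ih _ fun i => ?_)
      rw [PowerSeries.coeff_mk]
      have := hf (i + 1)
      rwa [Nat.add_sub_add_right] at this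
    · have h0 := hf 0
      rw [Nat.sub_zero, PowerSeries.coeff_zero_eq_constantCoeff_apply] at h0
      have h1 := Ideal.mem_map_of_mem (PowerSeries.C (R := R)) h0
      rw [Ideal.map_pow] at h1
      refine Ideal.pow_right_mono ?_ _ h1
      rw [Ideal.map_le_iff_le_comap]
      intro a ha
      rw [Ideal.mem_comap, weier_mem_max]
      simpa using ha

private theorem weier_smod {S : Type*} [CommRing S] (I : Ideal S) (n : ℕ) (x y : S) :
    x ≡ y [SMOD (I ^ n • ⊤ : Submodule S S)] ↔ x - y ∈ I ^ n := by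
  rw [SModEq.sub_mem, smul_eq_mul, Ideal.mul_top]

private theorem weier_complete [IsAdicComplete (maximalIdeal R) R] :
    IsAdicComplete (maximalIdeal (PowerSeries R)) (PowerSeries R) where
  haus' := by
    intro x hx
    ext i
    rw [map_zero]
    refine IsHausdorff.haus' (I := maximalIdeal R) _ fun n => ?_
    have h1 := weier_coeff_mem _ _ ((weier_smod _ _ _ _).1 (hx (n + i))) i
    rw [Nat.add_sub_cancel, sub_zero] at h1
    rw [weier_smod, sub_zero]
    exact h1
  prec' := by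
    intro f hf
    have h1 : ∀ i, ∃ L : R, ∀ n, PowerSeries.coeff i (f (n + i)) ≡ L
        [SMOD (maximalIdeal R ^ n • ⊤ : Submodule R R)] := by
      intro i
      refine IsPrecomplete.prec' (I := maximalIdeal R) _ fun {m n} hmn => ?_
      have h2 := weier_coeff_mem _ _ ((weier_smod _ _ _ _).1
        (hf (show m + i ≤ n + i by omega))) i
      rw [Nat.add_sub_cancel, map_sub] at h2
      rw [weier_smod]
      exact h2
    choose L hL using h1
    refine ⟨PowerSeries.mk L, fun n => ?_⟩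
    rw [weier_smod]
    refine weier_mem_pow _ _ fun i => ?_
    by_cases hi : i ≤ n
    · have h2 := (weier_smod _ _ _ _).1 (hL i (n - i))
      rw [Nat.sub_add_cancel hi] at h2
      rwa [map_sub, PowerSeries.coeff_mk]
    · rw [show n - i = 0 by omega]
      simp

end adic

private theorem weier_fiber {E β γ ι : Type*} [NormedField E] {f : β → E} {S : E}
    (hf : HasSum f S) (g : β → γ) (T : γ → Finset ι) (φ : γ → ι → β)
    (hinj : ∀ c, Set.InjOn (φ c) (T c)) (hg : ∀ c x, g x = c ↔ ∃ t ∈ T c, φ c t = x) :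
    HasSum (fun c => ∑ t ∈ T c, f (φ c t)) S := by
  classical
  have h1 := (Equiv.sigmaFiberEquiv g).hasSum_iff.2 hf
  refine h1.sigma fun c => ?_
  rw [← Finset.sum_image (hinj c)]
  have h2 : HasSum (Set.indicator {x | g x = c} f) (∑ x ∈ (T c).image (φ c), f x) := by
    have h3 : ∑ x ∈ (T c).image (φ c), f x =
        ∑ x ∈ (T c).image (φ c), Set.indicator {x | g x = c} f x := by
      refine Finset.sum_congr rfl fun x hx => ?_
      rw [Set.indicator_of_mem]
      exact (hg c x).2 (Finset.mem_image.1 hx)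
    rw [h3]
    refine hasSum_sum_of_ne_finset_zero fun x hx => ?_
    refine Set.indicator_of_notMem (fun hc => hx ?_) _
    exact Finset.mem_image.2 ((hg c x).1 hc)
  exact (hasSum_subtype_iff_indicator (s := {x | g x = c})).2 h2

variable {p : ℕ} [Fact p.Prime]

/-- The double series after the shear. -/
private def weierSh (p : ℕ) [Fact p.Prime] (N : ℕ) (c : ℕ × ℕ → ℤ) :
    PowerSeries (PowerSeries ℤ_[p]) :=
  PowerSeries.mk fun m => PowerSeries.mk fun b =>
    ((∑ a ∈ (Finset.range (m + 1)).filter fun a => N * a ≤ m,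
      ((a + b).choose a : ℤ) * c (a + b, m - N * a) : ℤ) : ℤ_[p])

private theorem weier_zp_le (a : ℤ_[p]) : ‖zp p a‖ ≤ 1 := by
  rw [norm_zp]
  exact PadicInt.norm_le_one a

private theorem weier_ev_le {X0 : ℂ_[p]} (hX : ‖X0‖ < 1) (f : PowerSeries ℤ_[p]) :
    ‖evI (zp p) X0 f‖ ≤ 1 := norm_evI_le _ weier_zp_le hX f

private theorem weier_ev_sh {N : ℕ} (hN : 0 < N) (c : ℕ × ℕ → ℤ) {X0 Y0 : ℂ_[p]}
    (hX : ‖X0‖ < 1) (hY : ‖Y0‖ < 1) :
    evI (evI (zp p) X0) Y0 (weierSh p N c) = val c (X0 + Y0 ^ N) Y0 := by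
  set t : ℕ × ℕ × ℕ → ℂ_[p] := fun x =>
    (((x.1 + x.2.1).choose x.1 : ℤ) * c (x.1 + x.2.1, x.2.2) : ℤ) * X0 ^ x.2.1 *
      Y0 ^ (N * x.1 + x.2.2) with ht
  have hsum : Summable t := by
    have gX := summable_geometric_of_lt_one (norm_nonneg X0) hX
    have gY := summable_geometric_of_lt_one (norm_nonneg Y0) hY
    have g2 := gX.mul_of_nonneg gY (fun _ => by positivity) fun _ => by positivity
    have g3 := gY.mul_of_nonneg g2 (fun _ => by positivity) fun _ => by positivity
    refine Summable.of_norm_bounded g3 fun x => ?_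
    rw [ht]
    simp only [norm_mul, norm_pow]
    have h1 := IsUltrametricDist.norm_intCast_le_one ℂ_[p]
      (((x.1 + x.2.1).choose x.1 : ℤ) * c (x.1 + x.2.1, x.2.2))
    have h2 : ‖Y0‖ ^ (N * x.1 + x.2.2) ≤ ‖Y0‖ ^ x.1 * ‖Y0‖ ^ x.2.2 := by
      rw [← pow_add]
      refine pow_le_pow_of_le_one (norm_nonneg _) hY.le ?_
      have := Nat.le_mul_of_pos_left x.1 hN
      omega
    calc _ ≤ 1 * ‖X0‖ ^ x.2.1 * (‖Y0‖ ^ x.1 * ‖Y0‖ ^ x.2.2) := by gcongr
      _ = _ := by ring
  have hS := hsum.hasSum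
  have hXY : ‖X0 + Y0 ^ N‖ < 1 := by
    refine (IsUltrametricDist.norm_add_le_max _ _).trans_lt (max_lt hX ?_)
    rw [norm_pow]
    exact pow_lt_one₀ (norm_nonneg _) hY hN.ne'
  have h1 := weier_fiber hS (fun x => (x.1 + x.2.1, x.2.2))
    (fun il => Finset.HasAntidiagonal.antidiagonal il.1) (fun il ab => (ab.1, ab.2, il.2))
    (fun il a _ b _ h => by
      simp only [Prod.mk.injEq] at h
      exact Prod.ext h.1 h.2.1)
    (fun il x => by
      constructor
      · rintro rfl
        exact ⟨(x.1, x.2.1), Finset.HasAntidiagonal.mem_antidiagonal.2 rfl, rfl⟩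
      · rintro ⟨ab, hab, rfl⟩
        exact Prod.ext (Finset.HasAntidiagonal.mem_antidiagonal.1 hab) rfl)
  have h1' : ∑' x, t x = val c (X0 + Y0 ^ N) Y0 := by
    refine h1.unique ?_
    refine (hasSum_val c hXY hY).congr_fun fun il => ?_
    rw [add_comm X0, (Commute.all _ _).add_pow', Finset.mul_sum, Finset.sum_mul]
    refine Finset.sum_congr rfl fun ab hab => ?_
    rw [ht]
    simp only [Finset.HasAntidiagonal.mem_antidiagonal.1 hab, nsmul_eq_mul]
    push_cast
    ring
  have h2 := weier_fiber hS (fun x => (N * x.1 + x.2.2, x.2.1))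
    (fun mb => (Finset.range (mb.1 + 1)).filter fun a => N * a ≤ mb.1)
    (fun mb a => (a, mb.2, mb.1 - N * a))
    (fun mb a _ b _ h => by
      simp only [Prod.mk.injEq] at h
      exact h.1)
    (fun mb x => by
      constructor
      · rintro rfl
        have := Nat.le_mul_of_pos_left x.1 hN
        refine ⟨x.1, Finset.mem_filter.2 ⟨Finset.mem_range.2 (by dsimp only; omega),
          by dsimp only; omega⟩, ?_⟩
        simp
      · rintro ⟨a, ha, rfl⟩
        have := (Finset.mem_filter.1 ha).2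
        exact Prod.ext (by dsimp only; omega) rfl)
  have h3 : HasSum (fun m => evI (zp p) X0 (PowerSeries.coeff m (weierSh p N c)) * Y0 ^ m)
      (∑' x, t x) := by
    refine h2.prod_fiberwise fun m => ?_
    have h4 := (hasEv_evI (zp p) weier_zp_le hX (PowerSeries.coeff m (weierSh p N c))).mul_right
      (Y0 ^ m)
    refine h4.congr_fun fun b => ?_
    rw [PowerSeries.coeff_map, weierSh, PowerSeries.coeff_mk, PowerSeries.coeff_mk, map_intCast,
      Int.cast_sum, Finset.sum_mul, Finset.sum_mul]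
    refine Finset.sum_congr rfl fun a ha => ?_
    have := (Finset.mem_filter.1 ha).2
    rw [ht]
    simp only
    rw [show N * a + (m - N * a) = m by omega]
  have h5 := hasEv_evI (evI (zp p) X0) (weier_ev_le hX) hY (weierSh p N c)
  rw [← h1']
  refine HasSum.unique h5 ?_
  simpa only [PowerSeries.coeff_map] using h3

private theorem weier_ev_lt {X0 : ℂ_[p]} (hX : ‖X0‖ < 1) {f : PowerSeries ℤ_[p]}
    (hf : f ∈ IsLocalRing.maximalIdeal (PowerSeries ℤ_[p])) : ‖evI (zp p) X0 f‖ < 1 := by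
  have h1 : evI (zp p) X0 PowerSeries.X = X0 := by
    have := evI_coe (zp p) weier_zp_le hX X
    simpa using this
  have h2 : ∀ a, evI (zp p) X0 (PowerSeries.C a) = zp p a := by
    intro a
    have := evI_coe (zp p) weier_zp_le hX (C a)
    simpa using this
  rw [f.eq_X_mul_shift_add_const, map_add, map_mul, h1, h2]
  refine (IsUltrametricDist.norm_add_le_max _ _).trans_lt (max_lt ?_ ?_)
  · rw [norm_mul]
    exact (mul_le_of_le_one_right (norm_nonneg _) (weier_ev_le hX _)).trans_lt hX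
  · rw [norm_zp]
    exact PadicInt.mem_nonunits.1 ((weier_mem_max f).1 hf)

private theorem weier_root_small {P : ℂ_[p][X]} (hP : P.Monic)
    (hc : ∀ i < P.natDegree, ‖P.coeff i‖ < 1) {y : ℂ_[p]} (hy : P.IsRoot y) : ‖y‖ < 1 := by
  by_contra hcon
  have h1 : 1 ≤ ‖y‖ := not_lt.1 hcon
  have h2 : y ^ P.natDegree = -∑ i ∈ Finset.range P.natDegree, P.coeff i * y ^ i := by
    have h := hy.eq_zero
    rw [eval_eq_sum_range, Finset.sum_range_succ, hP.coeff_natDegree, one_mul] at h
    linear_combination h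
  have h3 : 0 < ‖y‖ ^ P.natDegree := by positivity
  rcases Nat.eq_zero_or_pos P.natDegree with h0 | h0
  · rw [h0] at h2
    simp at h2
  obtain ⟨i, hi, hle⟩ := IsUltrametricDist.exists_norm_finsetSum_le_of_nonempty
    (Finset.nonempty_range_iff.2 h0.ne') fun i => P.coeff i * y ^ i
  have hi' := Finset.mem_range.1 hi
  rw [← norm_neg, ← h2, norm_mul, norm_pow, norm_pow] at hle
  have h4 : ‖y‖ ^ i ≤ ‖y‖ ^ P.natDegree := pow_le_pow_right₀ h1 hi'.le
  have h5 := hc i hi'
  have h6 : ‖P.coeff i‖ * ‖y‖ ^ i ≤ ‖P.coeff i‖ * ‖y‖ ^ P.natDegree :=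
    mul_le_mul_of_nonneg_left h4 (norm_nonneg _)
  nlinarith

private theorem weier_split (p : ℕ) [Fact p.Prime] {c : ℕ × ℕ → ℤ} (hc : c ≠ 0) :
    ∃ (μ : ℕ) (c0 : ℕ × ℕ → ℤ), (∀ il, c il = (p : ℤ) ^ μ * c0 il) ∧ ∃ il, ¬ (p : ℤ) ∣ c0 il := by
  classical
  have hp : p.Prime := Fact.out
  have hex : ∃ μ : ℕ, ∃ il, ¬ (p : ℤ) ^ (μ + 1) ∣ c il := by
    obtain ⟨il, hil⟩ := Function.ne_iff.1 hc
    have hil' : c il ≠ 0 := hil
    refine ⟨(c il).natAbs, il, fun h => ?_⟩
    have h1 := Int.natAbs_dvd_natAbs.2 h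
    rw [Int.natAbs_pow, Int.natAbs_natCast] at h1
    have h2 := Nat.le_of_dvd (Int.natAbs_pos.2 hil') h1
    have h3 := Nat.lt_pow_self (n := (c il).natAbs + 1) hp.one_lt
    omega
  have hall : ∀ il, (p : ℤ) ^ Nat.find hex ∣ c il := by
    intro il
    rcases h : Nat.find hex with _ | k
    · simp
    · have := Nat.find_min hex (m := k) (by omega)
      push Not at this
      exact this il
  choose c0 hc0 using hall
  refine ⟨Nat.find hex, c0, hc0, ?_⟩
  obtain ⟨il, hil⟩ := Nat.find_spec hex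
  refine ⟨il, fun h => hil ?_⟩
  rw [hc0 il, pow_succ]
  exact mul_dvd_mul_left _ h

private theorem weier_res_ne {c0 : ℕ × ℕ → ℤ} (h : ∃ il, ¬ (p : ℤ) ∣ c0 il) :
    ∃ N, 0 < N ∧ (weierSh p N c0).map (IsLocalRing.residue (PowerSeries ℤ_[p])) ≠ 0 := by
  classical
  have hex : ∃ i l, ¬ (p : ℤ) ∣ c0 (i, l) := by
    obtain ⟨il, hil⟩ := h
    exact ⟨il.1, il.2, hil⟩
  obtain ⟨l0, hl0⟩ := Nat.find_spec hex
  set i0 := Nat.find hex with hi0
  refine ⟨l0 + 1, by omega, fun h0 => ?_⟩
  have h1 := congrArg (PowerSeries.coeff ((l0 + 1) * i0 + l0)) h0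
  rw [PowerSeries.coeff_map, map_zero, IsLocalRing.residue_eq_zero_iff, weier_mem_max, weierSh,
    PowerSeries.coeff_mk, ← PowerSeries.coeff_zero_eq_constantCoeff_apply, PowerSeries.coeff_mk,
    IsLocalRing.mem_maximalIdeal, PadicInt.mem_nonunits, PadicInt.norm_int_lt_one_iff_dvd] at h1
  have hmem : i0 ∈ (Finset.range ((l0 + 1) * i0 + l0 + 1)).filter
      fun a => (l0 + 1) * a ≤ (l0 + 1) * i0 + l0 := by
    have := Nat.le_mul_of_pos_left i0 (show 0 < l0 + 1 by omega)
    exact Finset.mem_filter.2 ⟨Finset.mem_range.2 (by omega), by omega⟩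
  rw [← Finset.add_sum_erase _ _ hmem] at h1
  refine hl0 ?_
  have h2 := (dvd_add_left ?_).1 h1
  · simpa using h2
  · refine Finset.dvd_sum fun a ha => Dvd.dvd.mul_left ?_ _
    obtain ⟨hne, ha⟩ := Finset.mem_erase.1 ha
    have h3 := (Finset.mem_filter.1 ha).2
    have h4 : a < i0 := by
      by_contra hcon
      have h5 : i0 + 1 ≤ a := by omega
      have h6 := Nat.mul_le_mul_left (l0 + 1) h5
      rw [Nat.mul_add_one] at h6
      omega
    have h7 := Nat.find_min hex (m := a) h4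
    push Not at h7
    exact h7 _

theorem exists_wei (p : ℕ) [Fact p.Prime] {c : ℕ × ℕ → ℤ} (hc : c ≠ 0) :
    ∃ (N : ℕ) (W : (PowerSeries ℤ_[p])[X]), Wei p c N W := by
  obtain ⟨μ, c0, hc0, hnd⟩ := weier_split p hc
  obtain ⟨N, hN, hres⟩ := weier_res_ne (p := p) hnd
  have := weier_complete (R := ℤ_[p])
  obtain ⟨W, h, H⟩ := PowerSeries.exists_isWeierstrassFactorization hres
  have hW := H.isDistinguishedAt
  have hsmall : ∀ X0 Y0 : ℂ_[p], ‖X0‖ < 1 → (fibW W X0).IsRoot Y0 → ‖Y0‖ < 1 := by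
    intro X0 Y0 hX hr
    refine weier_root_small (hW.monic.map _) (fun i hi => ?_) hr
    rw [hW.monic.natDegree_map] at hi
    rw [coeff_map]
    exact weier_ev_lt hX (hW.mem hi)
  have hev : ∀ X0 Y0 : ℂ_[p], ‖X0‖ < 1 → ‖Y0‖ < 1 →
      (evI (evI (zp p) X0) Y0 (weierSh p N c0) = 0 ↔ (fibW W X0).IsRoot Y0) := by
    intro X0 Y0 hX hY
    rw [H.eq_mul, map_mul, evI_coe _ (weier_ev_le hX) hY,
      mul_eq_zero_iff_right (H.isUnit.map _).ne_zero]
    rfl
  refine ⟨N, W, hN, hW.monic, hsmall, fun X0 Y0 hX hY => ?_, fun c' => ?_⟩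
  · rw [← hev X0 Y0 hX hY, weier_ev_sh hN c0 hX hY]
    have h1 : val c (X0 + Y0 ^ N) Y0 = (p : ℂ_[p]) ^ μ * val c0 (X0 + Y0 ^ N) Y0 := by
      unfold val
      rw [← tsum_mul_left]
      refine tsum_congr fun il => ?_
      rw [hc0 il]
      push_cast
      ring
    have hp : (p : ℂ_[p]) ≠ 0 := Nat.cast_ne_zero.2 (Fact.out : p.Prime).ne_zero
    rw [h1, mul_eq_zero_iff_left (pow_ne_zero _ hp)]
  · obtain ⟨q, r, Hd⟩ := PowerSeries.exists_isWeierstrassDivision (weierSh p N c') hres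
    refine ⟨r, fun X0 Y0 hX hr => ?_⟩
    have hY := hsmall X0 Y0 hX hr
    rw [← weier_ev_sh hN c' hX hY, Hd.eq_mul_add, map_add, map_mul, (hev X0 Y0 hX hY).2 hr,
      zero_mul, zero_add, evI_coe _ (weier_ev_le hX) hY]
    rfl

end Pool.Agent.UAP
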