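import Pool.Agent.Lib.MP_7e5527_ag.Ev

open Polynomial UpperHalfPlane
open scoped Polynomial.Bivariate MatrixGroups IntermediateField

noncomputable section

namespace Pool.Agent.UAP

variable {p : ℕ} [Fact p.Prime]

theorem zero_exists {f : PowerSeries ℂ_[p]} {M : ℝ} (h : ∀ i, ‖PowerSeries.coeff i f‖ ≤ M)
    {x : ℂ_[p]} (hx : ‖x‖ < 1) : ∃ v, HasEv f x v :=
  exists_hasEv_of_bound (C := M) (Λ := 1) (by simpa using h) one_pos (by simpa using hx)

/-- Division by `X - α` at a zero `α`. -/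
theorem zero_div {f : PowerSeries ℂ_[p]} {M : ℝ} (h : ∀ i, ‖PowerSeries.coeff i f‖ ≤ M)
    {α : ℂ_[p]} (hα : ‖α‖ < 1) (h0 : HasEv f α 0) :
    ∃ g : PowerSeries ℂ_[p], (∀ i, ‖PowerSeries.coeff i g‖ ≤ M) ∧
      f = PowerSeries.X ^ 1 * g - PowerSeries.C α * g := by
  obtain ⟨G, hG⟩ : ∃ G : ℕ → PowerSeries ℂ_[p],
    G = fun k => PowerSeries.mk fun j => PowerSeries.coeff (k + j) f := ⟨_, rfl⟩
  have hb : ∀ k i, ‖PowerSeries.coeff i (G k)‖ ≤ M := fun k i => by simpa [hG] using h (k + i)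
  choose v hv using fun k => zero_exists (hb k) hα
  have hrec : ∀ k, v k = PowerSeries.coeff k f + α ^ 1 * v (k + 1) := fun k => by
    refine (hv k).unique ?_
    have e : G k = PowerSeries.C (PowerSeries.coeff k f) + PowerSeries.X ^ 1 * G (k + 1) := by
      ext j
      rcases j with _ | j
      · simp [hG]
      · simp [hG, PowerSeries.coeff_succ_X_mul, add_assoc, add_comm 1 j]
    rw [e]
    exact (hasEv_C _ _).add ((hv (k + 1)).X_pow_mul 1)
  have hv0 : v 0 = 0 := by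
    refine (hv 0).unique ?_
    have e : G 0 = f := by
      ext j
      simp [hG]
    rwa [e]
  refine ⟨PowerSeries.mk fun k => v (k + 1), fun i => ?_, ?_⟩
  · rw [PowerSeries.coeff_mk]
    exact (hv _).norm_le (hb _) hα.le
  · ext j
    rcases j with _ | j
    · have := hrec 0
      simp only [PowerSeries.coeff_zero_eq_constantCoeff] at this
      simp
      linear_combination hv0 - this
    · have := hrec (j + 1)
      simp [PowerSeries.coeff_succ_X_mul]
      linear_combination -this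

/-- Zeros in the open unit disc of a series with a dominant coefficient. -/
theorem encard_zeros_le {f : PowerSeries ℂ_[p]} {n : ℕ} (hn : PowerSeries.coeff n f ≠ 0)
    (h : ∀ i, ‖PowerSeries.coeff i f‖ ≤ ‖PowerSeries.coeff n f‖) :
    {x : ℂ_[p] | ‖x‖ < 1 ∧ HasEv f x 0}.encard ≤ n := by
  induction n generalizing f with
  | zero =>
    rw [Nat.cast_zero, nonpos_iff_eq_zero, Set.encard_eq_zero, Set.eq_empty_iff_forall_notMem]
    rintro x ⟨hx, h0⟩
    have h1 := h0.tail (C := ‖PowerSeries.coeff 0 f‖) (Λ := 1) (by simpa using h) one_pos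
      (by simpa using hx) 0 (by simp)
    rw [pow_zero, mul_one, zero_sub, norm_neg, zero_add, pow_one, one_mul] at h1
    exact absurd h1 (not_le.2 (mul_lt_of_lt_one_right (norm_pos_iff.2 hn) hx))
  | succ n ih =>
    rcases Set.eq_empty_or_nonempty {x : ℂ_[p] | ‖x‖ < 1 ∧ HasEv f x 0} with h0 | ⟨α, hα, h0⟩
    · simp [h0]
    obtain ⟨g, hg, e⟩ := zero_div h hα h0
    have hpos : 0 < ‖PowerSeries.coeff (n + 1) f‖ := norm_pos_iff.2 hn
    have e1 : PowerSeries.coeff n g =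
        PowerSeries.coeff (n + 1) f + α * PowerSeries.coeff (n + 1) g := by
      conv_rhs => rw [e]
      simp [PowerSeries.coeff_succ_X_mul]
    have e2 : ‖α * PowerSeries.coeff (n + 1) g‖ < ‖PowerSeries.coeff (n + 1) f‖ := by
      rw [norm_mul]
      exact (mul_le_mul_of_nonneg_left (hg _) (norm_nonneg _)).trans_lt
        (mul_lt_of_lt_one_left hpos hα)
    have e3 : ‖PowerSeries.coeff n g‖ = ‖PowerSeries.coeff (n + 1) f‖ := by
      rw [e1, IsUltrametricDist.norm_add_eq_max_of_norm_ne_norm e2.ne', max_eq_left e2.le]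
    have h1 := ih (f := g) (by rw [← norm_pos_iff, e3]; exact hpos) (by rw [e3]; exact hg)
    have h2 : {x : ℂ_[p] | ‖x‖ < 1 ∧ HasEv f x 0} ⊆
        insert α {x : ℂ_[p] | ‖x‖ < 1 ∧ HasEv g x 0} := by
      rintro x ⟨hx, hx0⟩
      by_cases hxα : x = α
      · exact Or.inl hxα
      obtain ⟨v, hv⟩ := zero_exists hg hx
      have h3 := (hv.X_pow_mul 1).sub (hv.C_mul α)
      rw [← e] at h3
      have h4 : v = 0 := by
        apply mul_left_cancel₀ (sub_ne_zero.2 hxα)
        linear_combination h3.unique hx0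
      exact Or.inr ⟨hx, h4 ▸ hv⟩
    refine (Set.encard_le_encard h2).trans ((Set.encard_insert_le _ _).trans ?_)
    push_cast
    exact add_le_add_left h1 1

theorem zero_zp (a : ℤ_[p]) : ‖zp p a‖ ≤ 1 := by
  rw [norm_zp]
  exact a.norm_le_one

/-- Uniform bound for the zeros of the members of a finite-dimensional family. -/
theorem exists_uniform_zeros {m : ℕ} (r : Fin m → PowerSeries ℤ_[p]) :
    ∃ n0 : ℕ, ∀ c : Fin m → ℂ_[p],
      (∃ X0 : ℂ_[p], ‖X0‖ < 1 ∧ ∑ i, c i * evI (zp p) X0 (r i) ≠ 0) →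
      {X0 : ℂ_[p] | ‖X0‖ < 1 ∧ ∑ i, c i * evI (zp p) X0 (r i) = 0}.encard ≤ n0 := by
  obtain ⟨v, hv⟩ : ∃ v : ℕ → Fin m → ℤ_[p], v = fun i k => PowerSeries.coeff i (r k) := ⟨_, rfl⟩
  obtain ⟨n0, hn0⟩ := monotone_stabilizes_iff_noetherian.2
    (inferInstance : IsNoetherian ℤ_[p] (Fin m → ℤ_[p]))
    ⟨fun n => Submodule.span ℤ_[p] (v '' Set.Iic n), fun a b hab =>
      Submodule.span_mono (Set.image_mono (Set.Iic_subset_Iic.2 hab))⟩
  have hmem : ∀ i, v i ∈ Submodule.span ℤ_[p] (v '' Set.Iic n0) := fun i => by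
    have h1 : Submodule.span ℤ_[p] (v '' Set.Iic n0) =
      Submodule.span ℤ_[p] (v '' Set.Iic (max n0 i)) := hn0 _ (le_max_left _ _)
    rw [h1]
    exact Submodule.subset_span ⟨i, le_max_right n0 i, rfl⟩
  refine ⟨n0, fun c ⟨X1, hX1, hne⟩ => ?_⟩
  obtain ⟨f, hf⟩ : ∃ f : PowerSeries ℂ_[p],
    f = ∑ k, PowerSeries.C (c k) * PowerSeries.map (zp p) (r k) := ⟨_, rfl⟩
  have hev : ∀ X0 : ℂ_[p], ‖X0‖ < 1 → HasEv f X0 (∑ i, c i * evI (zp p) X0 (r i)) :=
    fun X0 hX => hf ▸ hasEv_sum _ fun k _ => (hasEv_evI _ zero_zp hX (r k)).C_mul (c k)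
  have hc : ∀ i, PowerSeries.coeff i f = ∑ k, c k * zp p (v i k) := fun i => by
    simp [hf, hv]
  obtain ⟨j, hj, hmax⟩ := (Finset.range (n0 + 1)).exists_max_image
    (fun i => ‖PowerSeries.coeff i f‖) ⟨0, by simp⟩
  have hall : ∀ w ∈ Submodule.span ℤ_[p] (v '' Set.Iic n0),
      ‖∑ k, c k * zp p (w k)‖ ≤ ‖PowerSeries.coeff j f‖ := by
    intro w hw
    induction hw using Submodule.span_induction with
    | mem w hw =>
      obtain ⟨i, hi, rfl⟩ := hw
      rw [← hc]
      exact hmax i (Finset.mem_range.2 (Nat.lt_succ_of_le hi))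
    | zero => simp
    | add a b _ _ ha hb =>
      simp only [Pi.add_apply, map_add, mul_add, Finset.sum_add_distrib]
      exact (IsUltrametricDist.norm_add_le_max _ _).trans (max_le ha hb)
    | smul a b _ hb =>
      have e : ∑ k, c k * zp p ((a • b) k) = zp p a * ∑ k, c k * zp p (b k) := by
        rw [Finset.mul_sum]
        refine Finset.sum_congr rfl fun k _ => ?_
        rw [Pi.smul_apply, smul_eq_mul, map_mul]
        ring
      rw [e, norm_mul]
      exact (mul_le_of_le_one_left (norm_nonneg _) (zero_zp a)).trans hb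
  have hdom : ∀ i, ‖PowerSeries.coeff i f‖ ≤ ‖PowerSeries.coeff j f‖ := fun i => by
    rw [hc i]
    exact hall _ (hmem i)
  have hj0 : PowerSeries.coeff j f ≠ 0 := fun h0 => by
    have e : f = 0 := by
      ext i
      simpa [h0] using hdom i
    exact hne ((hev X1 hX1).unique (e ▸ hasEv_zero X1))
  refine (Set.encard_le_encard ?_).trans ((encard_zeros_le hj0 hdom).trans ?_)
  · rintro X0 ⟨hX, h0⟩
    exact ⟨hX, h0 ▸ hev X0 hX⟩
  · exact_mod_cast Nat.lt_succ_iff.1 (Finset.mem_range.1 hj)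

/-- Removal of the content. -/
theorem zero_content {r : PowerSeries ℤ_[p]} (hr : r ≠ 0) :
    ∃ (μ : ℕ) (g : PowerSeries ℤ_[p]), r = PowerSeries.C ((p : ℤ_[p]) ^ μ) * g ∧
      g.map (IsLocalRing.residue ℤ_[p]) ≠ 0 := by
  classical
  have hex : ∃ μ : ℕ, ¬ ∀ i, (p : ℤ_[p]) ^ (μ + 1) ∣ PowerSeries.coeff i r := by
    obtain ⟨i, hi⟩ : ∃ i, PowerSeries.coeff i r ≠ 0 := by
      by_contra hc
      push Not at hc
      exact hr (PowerSeries.ext hc)
    obtain ⟨μ, hμ⟩ := FiniteMultiplicity.of_prime_left (PadicInt.prime_p (p := p)) hi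
    exact ⟨μ, fun h => hμ (h i)⟩
  have h1 := Nat.find_spec hex
  have h2 : ∀ i, (p : ℤ_[p]) ^ Nat.find hex ∣ PowerSeries.coeff i r := by
    rcases h : Nat.find hex with _ | k
    · simp
    · exact not_not.1 (Nat.find_min hex (m := k) (by omega))
  choose b hb using h2
  refine ⟨Nat.find hex, PowerSeries.mk b, ?_, fun h0 => h1 fun i => ?_⟩
  · ext i
    rw [PowerSeries.coeff_C_mul, PowerSeries.coeff_mk, hb]
  · have h3 := congrArg (PowerSeries.coeff i) h0
    rw [PowerSeries.coeff_map, PowerSeries.coeff_mk, map_zero, IsLocalRing.residue_eq_zero_iff,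
      PadicInt.maximalIdeal_eq_span_p, Ideal.mem_span_singleton] at h3
    rw [hb i, pow_succ]
    exact mul_dvd_mul_left _ h3

/-- A small value is only taken near a zero. -/
theorem exists_near_zero {r : PowerSeries ℤ_[p]} (hr : r ≠ 0) :
    ∃ Z : Finset ℂ_[p], (∀ α ∈ Z, ‖α‖ < 1) ∧ ∀ ε : ℝ, 0 < ε → ∃ η : ℝ, 0 < η ∧
      ∀ X0 : ℂ_[p], ‖X0‖ < 1 → ‖evI (zp p) X0 r‖ < η → ∃ α ∈ Z, ‖X0 - α‖ < ε := by
  classical
  obtain ⟨μ, g, rfl, hg⟩ := zero_content hr
  obtain ⟨f, u, hf, hu, rfl⟩ := PowerSeries.exists_isWeierstrassFactorization hg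
  have hm : (f.map (zp p)).Monic := hf.monic.map _
  refine ⟨(f.map (zp p)).roots.toFinset.filter fun α => ‖α‖ < 1,
    fun α hα => (Finset.mem_filter.1 hα).2, fun ε hε => ?_⟩
  have hε' : 0 < min ε 1 := lt_min hε one_pos
  have hp : 0 < ‖zp p ((p : ℤ_[p]) ^ μ)‖ := by
    rw [norm_zp, norm_pos_iff]
    exact pow_ne_zero _ (PadicInt.prime_p (p := p)).ne_zero
  refine ⟨‖zp p ((p : ℤ_[p]) ^ μ)‖ * min ε 1 ^ Multiset.card (f.map (zp p)).roots,
    by positivity, fun X0 hX h => ?_⟩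
  by_contra hc
  push Not at hc
  have hfar : ∀ α ∈ (f.map (zp p)).roots, min ε 1 ≤ ‖X0 - α‖ := fun α hα => by
    by_cases h1 : ‖α‖ < 1
    · exact (min_le_left _ _).trans
        (hc α (Finset.mem_filter.2 ⟨Multiset.mem_toFinset.2 hα, h1⟩))
    · by_contra h2
      refine h1 ?_
      have e : α = X0 + -(X0 - α) := by ring
      rw [e]
      refine (IsUltrametricDist.norm_add_le_max _ _).trans_lt (max_lt hX ?_)
      rw [norm_neg]
      exact (not_le.1 h2).trans_le (min_le_right _ _)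
  have hU : ‖evI (zp p) X0 u‖ = 1 := by
    obtain ⟨w, hw⟩ := hu.exists_right_inv
    have h1 := congrArg (fun z => ‖evI (zp p) X0 z‖) hw
    simp only [map_mul, map_one, norm_mul, norm_one] at h1
    refine le_antisymm (norm_evI_le _ zero_zp hX _) ?_
    rw [← h1]
    exact mul_le_of_le_one_right (norm_nonneg _) (norm_evI_le _ zero_zp hX _)
  have hC : evI (zp p) X0 (PowerSeries.C ((p : ℤ_[p]) ^ μ)) = zp p ((p : ℤ_[p]) ^ μ) := by
    have h1 := evI_coe _ zero_zp hX (C ((p : ℤ_[p]) ^ μ))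
    rwa [coe_C, map_C, eval_C] at h1
  have hprod : ∀ s : Multiset ℂ_[p], (∀ α ∈ s, min ε 1 ≤ ‖X0 - α‖) →
      min ε 1 ^ Multiset.card s ≤ ‖(s.map (X0 - ·)).prod‖ := by
    intro s hs
    induction s using Multiset.induction_on with
    | empty => simp
    | cons a s ih =>
      rw [Multiset.card_cons, Multiset.map_cons, Multiset.prod_cons, norm_mul, pow_succ']
      exact mul_le_mul (hs a (Multiset.mem_cons_self _ _))
        (ih fun b hb => hs b (Multiset.mem_cons_of_mem hb)) (by positivity) (norm_nonneg _)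
  rw [map_mul, map_mul, norm_mul, norm_mul, hC, hU, mul_one, evI_coe _ zero_zp hX,
    (IsAlgClosed.splits _).eval_eq_prod_roots_of_monic hm] at h
  exact absurd (lt_of_mul_lt_mul_left h hp.le) (not_lt.2 (hprod _ hfar))

end Pool.Agent.UAP
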